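import Pool.Agent.Lib.MP_b6f35e_al.TT.K2

/-! # Modules for Theorem DT (MP_b6f35e_al, Q2): lines, part 1 (copies of modules of MP_8a3537_gt, without the
conditions on elements of order two) -/

/-! ## Module LL/Spec -/

/-!
# Only lines matter (MP_8a3537_gt, folder LL): definitions and Specs

Paper: `/team-store/8a3537_LL_h28.md`. The notation is that of the folders RO, ROK (`true` is the type `1`,
`false` the type `2`; first index target, second index source; `X1` leads from `true` to `false`, `X2` from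
`false` to `true`). Data: `PPK L X1 X2 ∅ Yp Ym`, ends: `Geo d L X1 X2 ∅ x1 x2`.

Every module `XXX` is a file `Pool/Agent/Lib/MP_8a3537_gt/LL/XXX.lean` which imports this file and proves
`theorem specXXX (deps, in this order) : SpecXXX` in the namespace `Pool.Agent.Lib.MPb6f35e.TT.LL`, own lemmas in
the namespace `XXXM`. All landed lemmas of the folders UV, AU, RO, ROK, ROW may be used, in particular the
theorems `mWDA`, `mWNI`, `mEFA`, `mELM`, `mNWT`, `mWDK`, `mSBK`, `mBLK`, `mBLG`, `mDRC`, `mSTY` of `ROK/Main.lean`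
(no hypotheses; they are imported here), `RO.specUNQ`, `RO.specSCH`, `RO.specSCU`, `RO.specKNA`, `ROK.specSYK`,
`ROK.specTFA`, `ROK.specDRG`, `specSWP`, `specTAT` of UV.
-/

set_option autoImplicit false

namespace Pool.Agent.Lib.MPb6f35e.TT.LL

open Matrix Pool.Agent.Lib.MPb6f35e.TT.UV Pool.Agent.Lib.MPb6f35e.TT.AU Pool.Agent.Lib.MPb6f35e.TT.RO
open Pool.Agent.Lib.MPb6f35e.TT.ROK

/-! ### Definitions -/

section Rings

variable {A : Type} [Ring A] {n : ℕ}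

/-- `∑_{i < N} (ε a b)^i`. -/
noncomputable def Tn (ε : ℤˣ) (N : ℕ) (a b : Matrix (Fin n) (Fin n) A) : Matrix (Fin n) (Fin n) A :=
  ∑ i ∈ Finset.range N, ((ε : ℤ) • (a * b)) ^ i

/-- The form `ρ` (`χ + ρ` is the new partner after the elimination of `ψ`). -/
noncomputable def rho [StarRing A] (ε : ℤˣ) (N : ℕ) (ψ χ : Matrix (Fin n) (Fin n) A) :
    Matrix (Fin n) (Fin n) A :=
  (ε : ℤ) • (Tn ε N (χ + (ε : ℤ) • χᴴ) (ψ + (ε : ℤ) • ψᴴ) * χᴴ *
      Tn ε N (ψ + (ε : ℤ) • ψᴴ) (χ + (ε : ℤ) • χᴴ) - χᴴ) -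
    (ε : ℤ) • (Tn ε N (χ + (ε : ℤ) • χᴴ) (ψ + (ε : ℤ) • ψᴴ) * (χ + (ε : ℤ) • χᴴ) * ψ *
      (χ + (ε : ℤ) • χᴴ) * Tn ε N (ψ + (ε : ℤ) • ψᴴ) (χ + (ε : ℤ) • χᴴ))

end Rings

section Groups

variable {G : Type} [Group G]

/-- `f` normalizes `L`. -/
def Ns (L : Subgroup G) (f : G) : Prop := ∀ h ∈ L, f * h * f⁻¹ ∈ L ∧ f⁻¹ * h * f ∈ L

/-- The union of the double cosets of `x` and `x⁻¹`. -/
def D2 (L : Subgroup G) (x : G) : Set G := {y | y ∈ dc L x ∨ y ∈ dc L x⁻¹}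

/-- The words from `true` to `false` with letters in `c` and `X2`. -/
def V1 (L : Subgroup G) (c X2 : Set G) : Set G := WS L c X2 ∅ false true

/-- The words from `false` to `true` with at least three letters in `c` and `X2`. -/
def V3 (L : Subgroup G) (c X2 : Set G) : Set G := {z | ∃ k, 3 ≤ k ∧ Wd L c X2 ∅ k true false z}

/-- `c` is biinvariant, closed under inverses and contained in `X`. -/
structure Pt (L : Subgroup G) (X c : Set G) : Prop where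
  sub : ∀ x ∈ c, x ∈ X
  bi : Bi L c
  inv : ∀ x ∈ c, x⁻¹ ∈ c

end Groups

section Geometry

variable (R G : Type) {V : Type} [Ring R] [StarRing R] [Group G] [MulAction G V] (d : V → V → ℕ)

/-- The claim for the nilpotency index `N`: all data with the ends `x1`, `x2`. -/
def Cl (N : ℕ) (x1 x2 : V) : Prop :=
  ∀ (L : Subgroup G) (X1 X2 Yp Ym : Set G), PPK L X1 X2 ∅ Yp Ym → Geo d L X1 X2 ∅ x1 x2 →
    ∀ (ε : ℤˣ) (n : ℕ) (ψ χ : Matrix (Fin n) (Fin n) (MonoidAlgebra R G)), SuppIn X1 ψ →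
    SuppIn X2 χ → (nu ε (ψ + (ε : ℤ) • ψᴴ) 0 (χ + (ε : ℤ) • χᴴ)) ^ N = 0 →
    StablyHyperbolic ε (UF ψ 0 χ)

/-- The longer exchanged pairs with a smaller stabilizer, at `x1`. -/
def HU (x1 x2 : V) : Prop :=
  ∀ f : G, f • f • x1 = x1 → d x1 (f • x1) = d x1 x2 + d x2 (f • x1) →
    ¬ Ns (MulAction.stabilizer G x1 ⊓ MulAction.stabilizer G x2) f → SE R G d x1 (f • x1)

/-- The line condition. -/
def HS (x1 x2 : V) : Prop :=
  ∀ u f : G, Ns (MulAction.stabilizer G x1 ⊓ MulAction.stabilizer G x2) u →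
    Ns (MulAction.stabilizer G x1 ⊓ MulAction.stabilizer G x2) f →
    u * u ∈ MulAction.stabilizer G x1 ⊓ MulAction.stabilizer G x2 →
    f * f ∈ MulAction.stabilizer G x1 ⊓ MulAction.stabilizer G x2 →
    d x1 (u • x1) = d x1 x2 + d x2 (u • x1) → d x2 (f • x2) = d x2 x1 + d x1 (f • x2) →
    ¬ (u • x1 = x2 ∧ f • x2 = x1) →
    (∀ h ∈ MulAction.stabilizer G x1 ⊓ MulAction.stabilizer G x2, h * u * (h * u) ≠ 1) →
    (∀ h ∈ MulAction.stabilizer G x1 ⊓ MulAction.stabilizer G x2, h * f * (h * f) ≠ 1) →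
    Blk R (La (MulAction.stabilizer G x1 ⊓ MulAction.stabilizer G x2) u)
      (La (MulAction.stabilizer G x1 ⊓ MulAction.stabilizer G x2) f)

end Geometry

/-! ### Part 1: forms -/

/-- **FML** (size 200; from `RO.specSCU` with `r = n`, `Ξ = 1`, or from `RO.specSCH`; and `specSWP`): the formula.

PROOF. `a = ψ1 + ε ψ1ᴴ`, `b = χ + ε χᴴ`, `aᴴ = ε a`, `bᴴ = ε b`. `ν^N = 0` gives `(ε a b)^N = 0 = (ε b a)^N` (`ν² = (ε b a, 0; 0, ε a b)`,
`ν^(2N) = 0`). `T = Tn ε N a b`, `T' = Tn ε N b a = Tᴴ`: `(1 - ε a b) T = 1 = T (1 - ε a b)`, `T' b = b T`. `Λ = UF ψ1 0 χ`,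
`Λ + ε Λᴴ = fromBlocks a 1 ε b` (`ε` = `ε • 1`) has the inverse `Φi` with `Φi (1; 0) = (z1; z2)`, `z1 = -ε b T`, `z2 = T`
(`a z1 + z2 = (1 - ε a b) T = 1`, `ε z1 + b z2 = 0`). SCH with `Ξ = (1, 0)`, `ψ' = ψ2`: enough `UF ψ2 0 κ`,
`κ = -(z1ᴴ ψ1 z1 + z1ᴴ z2 + z2ᴴ χ z2) = -(ε T' b ψ1 b T - T' b T + T' χ T) = ε T' χᴴ T - ε T' b ψ1 b T = ε χᴴ + ρ` (`b - χ = ε χᴴ`). SWP (2) with
`d = ε χᴴ`: `χ + ρ + d - ε dᴴ = κ`. Second: `u = fromBlocks 1 0 (-σ) 1`: `uᴴ (σ, 1; 0, 0) u = (0, 1; 0, 0)`. -/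
def SpecFML : Prop :=
  ∀ (A : Type) [Ring A] [StarRing A] (ε : ℤˣ) (n : ℕ),
    (∀ (N : ℕ) (ψ1 ψ2 χ : Matrix (Fin n) (Fin n) A),
      (nu ε (ψ1 + (ε : ℤ) • ψ1ᴴ) 0 (χ + (ε : ℤ) • χᴴ)) ^ N = 0 →
      StablyHyperbolic ε (UF ψ1 0 χ) → StablyHyperbolic ε (UF ψ2 0 (χ + rho ε N ψ1 χ)) →
      StablyHyperbolic ε (UF (ψ1 + ψ2) 0 χ)) ∧
    ∀ σ : Matrix (Fin n) (Fin n) A, StablyHyperbolic ε (UF σ 0 0)

/-- **FMR** (size 200): the polarization of `ρ`, and the index.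

PROOF. (1) With the notation of FML, `κ = ε χᴴ + ρ = ε T' χᴴ T - ε T' b ψ b T`: `ε κᴴ = T' χ T - T' b ψᴴ b T`, so
`κ + ε κᴴ = T' b T - ε T' b a b T = T' b (1 - ε a b) T = T' b`, and `ρ + ε ρᴴ = T' b - ε χᴴ - χ = T' b - b`. (2) `(ε b a)^i b ∈ E (2 i + 1) s (!s)`-type:
for `a ∈ E 1 (!s) s`, `b ∈ E 1 s (!s)` the product `(b a)^i ∈ E (2 i) s s` for `i ≥ 1`, so `T' b - b = ∑_{1 ≤ i < N} (ε b a)^i b ∈ E 3 s (!s)` (`mono`;
`N ≥ 1`). (3) `ν' = nu ε s' 0 r = fromBlocks 0 (ε r) s' 0`: as in `ROK/NEN.lean` (there `a`, `b'`): the blocks of `ν'^(2 j)` are in `E (4 j)`, those of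
`ν'^(2 j + 1)` in `E (4 j + 1)`. -/
def SpecFMR : Prop :=
  ∀ (A : Type) [Ring A] [StarRing A] (ε : ℤˣ) (n N : ℕ),
    (∀ ψ χ : Matrix (Fin n) (Fin n) A,
      (nu ε (ψ + (ε : ℤ) • ψᴴ) 0 (χ + (ε : ℤ) • χᴴ)) ^ N = 0 →
      rho ε N ψ χ + (ε : ℤ) • (rho ε N ψ χ)ᴴ =
        Tn ε N (χ + (ε : ℤ) • χᴴ) (ψ + (ε : ℤ) • ψᴴ) * (χ + (ε : ℤ) • χᴴ) - (χ + (ε : ℤ) • χᴴ)) ∧
    ∀ E : ℕ → Bool → Bool → AddSubgroup (Matrix (Fin n) (Fin n) A), EFam E N → 1 ≤ N →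
      (∀ s : Bool, ∀ a ∈ E 1 (!s) s, ∀ b ∈ E 1 s (!s), Tn ε N b a * b - b ∈ E 3 s (!s)) ∧
      (3 ≤ N → ∀ s' ∈ E 1 false true, ∀ r ∈ E 3 true false, (nu ε s' 0 r) ^ (N - 1) = 0)

/-- **SPR** (size 200; see `RO/KSP.lean`): supports.

PROOF. Put `Θ k s t = {z | ∃ j, k ≤ j ∧ Wd L c X2 ∅ j s t z}`. `Θ k s r * Θ l r t ⊆ Θ (k + l) s t` (`mWDA` (2) for `Sub1 L X1 X2 ∅ Yp Ym c`), `L ⊆ Θ 0 s s`,
`(Θ k s t)⁻¹ ⊆ Θ k (!t) (!s)`. (1) `ψ`, `a` are supported in `c ⊆ Θ 1 false true`, `χ`, `χᴴ`, `b` in `X2 ⊆ Θ 1 true false`. `(ε b a)^i` in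
`Θ (2 i) true true`, `(ε a b)^i` in `Θ (2 i) false false`; `T' χᴴ T - χᴴ = ∑_{(i, j) ≠ (0, 0)} (ε b a)^i χᴴ (ε a b)^j` (`N ≥ 1`) in `Θ 3 true false`; for the
second term of `ρ`: `b ψ b` in `Θ 3 true false`. (2) the same with the roles exchanged: `ψ2`, `a2` in `c`, `χ`, `b` in `X2`: `rho ε N χ ψ2` is
supported in `Θ 3 false true` and `c ⊆ Θ 1 false true`; `Θ 0 false true = V1 L c X2`. -/
def SpecSPR : Prop :=
  ∀ (R G : Type) [Ring R] [StarRing R] [Group G] (L : Subgroup G) (X1 X2 Yp Ym c : Set G),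
    PPK L X1 X2 ∅ Yp Ym → Pt L X1 c → ∀ (ε : ℤˣ) (n N : ℕ), 1 ≤ N →
    ∀ ψ χ : Matrix (Fin n) (Fin n) (MonoidAlgebra R G), SuppIn c ψ → SuppIn X2 χ →
    SuppIn (V3 L c X2) (rho ε N ψ χ) ∧ SuppIn (V1 L c X2) (ψ + rho ε N χ ψ)

/-! ### Part 2: the data of words -/

/-- **DWU** (size 280): uniqueness.

PROOF. `Sub1 L X1 X2 ∅ Yp Ym c` for `c = c1, c2`. `mWDA`, `mWDK`, `RO.specUNQ`. Letters: `XX c X2 ∅ false true = c`, `XX c X2 ∅ true false = X2`, the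
others are empty; so a word `Wd L c X2 ∅ (k + 1) true t z` is `z = z0 * z'`, `z0 ∈ X2`, `Wd k false t z'`, and
`Wd L c X2 ∅ (k + 1) false t z` is `z = e0 * z'`, `e0 ∈ c`, `Wd k true t z'`. (1) induction on `YK` (WDA (4)).
(2) `y ∈ Y true`: `y ∈ L`, or `y = z y2`, `z ∈ V3 L c1 X2` (`≥ 3` letters), `y2 ∈ Y false ⊆ Ym`: `y = z0 (e0 y')`, `z0 ∈ X2`, `e0 ∈ c1`, `y' ∈ Yp`.
(3) `y ∈ Y false`: `y ∈ L`, or `y = e0 y'`, `e0 ∈ c2`, `y' ∈ Yp`.
(4) For words `w : Wd L c2 X2 ∅ k s true`, `w' : Wd L c2 X2 ∅ k' s true` and `y, y' ∈ Y true`, `w y = w' y'` ⟹ `w⁻¹ w' ∈ L`: induction on `k` (all `k'`).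
Both empty: clear. Both nonempty: UNQ: the first letters satisfy `x' = x l` and have the same type, `w1 y = (l w1') y'`. `w = h ∈ L`,
`w' = x (e w2')`, `x ∈ X2`, `e ∈ c2` (`s = true`): `h y = x (e (w2' y'))`; `y ∈ L`: contradiction to WDK (1); `y = z0 (e0 y1)` by (2): UNQ for `h z0`, `x`:
`x = h z0 l`, `e0 y1 = (l e) (w2' y')`, UNQ: `e0⁻¹ l e ∈ L`, so `e ∈ c1` and `e ∈ c2`: contradiction to `c1 ∩ c2 = ∅`. Symmetric case: the same.
(5) For words `w : Wd L c1 X2 ∅ k s false`, `w'` and `y, y' ∈ Y false`: the same; `w = h`, `w' = e w1'`, `e ∈ c1`: `h y = e (w1' y')`, `y = e0 y1`, `e0 ∈ c2` by (3):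
`(h e0)⁻¹ e ∈ L`, so `e ∈ c2`: contradiction. -/
def SpecDWU : Prop :=
  ∀ (G : Type) [Group G] (L : Subgroup G) (X1 X2 Yp Ym c1 c2 : Set G), PPK L X1 X2 ∅ Yp Ym →
    Pt L X1 c1 → Pt L X1 c2 → (∀ x ∈ c1, x ∉ c2) →
    (∀ s y, y ∈ YS L (V1 L c2 X2) (V3 L c1 X2) s → y ∈ YB Yp Ym s) ∧
    Disj L (V1 L c2 X2) (YS L (V1 L c2 X2) (V3 L c1 X2) true) ∧
    Disj L (V3 L c1 X2) (YS L (V1 L c2 X2) (V3 L c1 X2) false)

/-- **DWP** (size 250, dep `SpecDWU`): the words are data (as in `ROK/BLK.lean`, `ROK/DRC.lean`).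

PROOF. `PingPong`: `X1l`, `X1r`, `X1i` (`V1`): `mWDA` (1), (3) (a word from `true` to `false` has an inverse of the same type); `X1n`: `mWNI`
(`z⁻¹ = z` gives `z z = 1`). The same for `V3` (the number of letters is unchanged). `X3 = ∅`: trivial. `Yp1`, `Ym1`: `YK.base`; `Ypl`, `Yml`:
cases; `X1Y`: `sa`, `X2Y`: `sb`; `u1`, `u2`: DWU. `yy`: DWU (1) and `yy`. `xh`: `z = z 1`, `mWDK` (words with `k + 1` letters; a word from `true` to
`false` is not empty). `cj`: `mWDK` (2 b) and DWU (1). Second part: fields of `PingPong` and `PPK` for subsets (`u1`, `u2`: `Disj` of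
subsets). -/
def SpecDWP : Prop :=
  ∀ (G : Type) [Group G] (L : Subgroup G) (X1 X2 Yp Ym : Set G), PPK L X1 X2 ∅ Yp Ym →
    (∀ c1 c2 : Set G, Pt L X1 c1 → Pt L X1 c2 → (∀ x ∈ c1, x ∉ c2) →
      PPK L (V1 L c2 X2) (V3 L c1 X2) ∅ (YS L (V1 L c2 X2) (V3 L c1 X2) true)
        (YS L (V1 L c2 X2) (V3 L c1 X2) false)) ∧
    ∀ c c' : Set G, Pt L X1 c → Pt L X2 c' → PPK L c c' ∅ Yp Ym

/-- **DWG** (size 120): the geometry.

PROOF. `ne`, `st` unchanged. For a word `Wd L c X2 ∅ k s t z` and `p ∈ DD d x1 x2 t`: `z p ∈ DD d x1 x2 s`, by induction (`mv` for the letters;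
elements of `L` fix `x1`, `x2`, `iso`). -/
def SpecDWG : Prop :=
  ∀ (G V : Type) [Group G] [MulAction G V] (d : V → V → ℕ), TM G d →
    ∀ (L : Subgroup G) (X1 X2 : Set G) (x1 x2 : V), Geo d L X1 X2 ∅ x1 x2 →
    (∀ c1 c2 : Set G, Pt L X1 c1 → Pt L X1 c2 → Geo d L (V1 L c2 X2) (V3 L c1 X2) ∅ x1 x2) ∧
    ∀ c c' : Set G, Pt L X1 c → Pt L X2 c' → Geo d L c c' ∅ x1 x2

/-! ### Part 3: additivity -/

/-- **LNR** (size 280, deps `SpecFML`, `SpecFMR`, `SpecSPR`, `SpecDWP`, `SpecDWG`): additivity.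

PROOF. `a_i = ψ_i + ε ψ_iᴴ`, `a = a_1 + a_2`, `b = χ + ε χᴴ`. `mEFA` for `a`, `0`, `b`: `E = EE L (nu ε a 0 b)`, `EFam E N`; `a_i = cutM c_i a ∈ E 1 false true` (`c_1`, `c_2` are
disjoint), `b = ε • (ε • b) ∈ E 1 true false`. `RO.specKNA`: `(nu ε a_1 0 b)^N = 0`, `(nu ε a_2 0 b)^N = 0`, and `(nu ε b 0 a_2)^N = 0`
(`INDAux.swap_zero`). `ρ = rho ε N ψ1 χ`, `ρ' = rho ε N χ ψ2`, `σ = ψ2 + ρ'`. FML for `ψ1, ψ2, χ`: enough `UF ψ2 0 (χ + ρ)`; exchange (`specSWP` (1)): enough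
`UF (χ + ρ) 0 ψ2`; FML for `χ, ρ, ψ2`: enough `UF χ 0 ψ2` (exchange of `UF ψ2 0 χ`) and `UF ρ 0 σ`; exchange: enough `UF σ 0 ρ`. FMR:
`r = ρ + ε ρᴴ = Tn ε N b a_1 * b - b ∈ E 3 true false`, `s = σ + ε σᴴ = a_2 + (Tn ε N a_2 b * a_2 - a_2) ∈ E 1 false true` (`mono`). Supports (SPR): `σ` in
`V1 L c2 X2`, `ρ` in `V3 L c1 X2`. If `N ≤ 3`: `r = 0` (`mono`, `zero`), `specTAT` for `X = V3` (`X2i`, `X2n` of DWP), `δ = -ε`: `ρ = c - ε cᴴ`, so
`UF σ 0 ρ` follows from `UF σ 0 0` (`specSWP` (2)), FML second part. If `3 ≤ N`: FMR: `(nu ε s 0 r)^(N - 1) = 0`, and the hypothesis `Cl (N - 1)` for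
the data of DWP, DWG. -/
def SpecLNR : Prop :=
  ∀ (R G V : Type) [Ring R] [StarRing R] [Group G] [MulAction G V] (d : V → V → ℕ), TM G d →
    ∀ (N : ℕ) (x1 x2 : V), 1 ≤ N → (3 ≤ N → Cl R G d (N - 1) x1 x2) →
    ∀ (L : Subgroup G) (X1 X2 Yp Ym : Set G), PPK L X1 X2 ∅ Yp Ym → Geo d L X1 X2 ∅ x1 x2 →
    ∀ c1 c2 : Set G, Pt L X1 c1 → Pt L X1 c2 → (∀ x ∈ c1, x ∉ c2) →
    ∀ (ε : ℤˣ) (n : ℕ) (ψ1 ψ2 χ : Matrix (Fin n) (Fin n) (MonoidAlgebra R G)), SuppIn c1 ψ1 →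
    SuppIn c2 ψ2 → SuppIn X2 χ →
    (nu ε (ψ1 + ψ2 + (ε : ℤ) • (ψ1 + ψ2)ᴴ) 0 (χ + (ε : ℤ) • χᴴ)) ^ N = 0 →
    StablyHyperbolic ε (UF ψ1 0 χ) → StablyHyperbolic ε (UF ψ2 0 χ) →
    StablyHyperbolic ε (UF (ψ1 + ψ2) 0 χ)

/-- **DCM** (size 250, deps `SpecFML`, `SpecLNR`): decomposition into pieces.

PROOF. (A) Claim for data, by induction on the number of the nonzero coefficients of `ψ` (with index `N`, `χ` in `X2`): if
`UF (cutM (D2 L x) ψ) 0 χ` is stably hyperbolic for all `x` in the support of `ψ` then so is `UF ψ 0 χ`. `ψ = 0`: exchange and FML second part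
(`UF 0 0 χ`; see `specSWP` (1)). Otherwise choose `x`, `c2 = D2 L x`, `c1 = {y | y ∈ X1 ∧ y ∉ D2 L x}`; `ψ = cutM c1 ψ + cutM c2 ψ`. `cutM c1 ψ` has fewer
coefficients, index `N` (`mEFA`, `RO.specKNA` with `a0 = cutM c1 a`), and for `y` in its support `cutM (D2 L y) (cutM c1 ψ) = cutM (D2 L y) ψ`
(`D2 L y` and `D2 L x` are disjoint). LNR. (B) Let now `x` be fixed, `ψ' = cutM (D2 L x) ψ`, index `N`. Exchange (`specSWP` (1), `ROK.specSYK` (3), (4): data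
`X2`, `X1`, ends `x2`, `x1`; `Cl R G d (N - 1) x2 x1` follows from `Cl R G d (N - 1) x1 x2` by exchange; `INDAux.swap_zero`): (A) for `χ`. So it is enough to
consider `ψ'`, `χ'` supported in `D2 L x`, `D2 L y`: the hypothesis. -/
def SpecDCM : Prop :=
  ∀ (R G V : Type) [Ring R] [StarRing R] [Group G] [MulAction G V] (d : V → V → ℕ), TM G d →
    ∀ (N : ℕ) (x1 x2 : V), 1 ≤ N → (3 ≤ N → Cl R G d (N - 1) x1 x2) →
    ∀ (L : Subgroup G) (X1 X2 Yp Ym : Set G), PPK L X1 X2 ∅ Yp Ym → Geo d L X1 X2 ∅ x1 x2 →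
    (∀ x ∈ X1, ∀ y ∈ X2, ∀ (ε : ℤˣ) (n : ℕ) (ψ χ : Matrix (Fin n) (Fin n) (MonoidAlgebra R G)),
      SuppIn (D2 L x) ψ → SuppIn (D2 L y) χ →
      (nu ε (ψ + (ε : ℤ) • ψᴴ) 0 (χ + (ε : ℤ) • χᴴ)) ^ N = 0 → StablyHyperbolic ε (UF ψ 0 χ)) →
    ∀ (ε : ℤˣ) (n : ℕ) (ψ χ : Matrix (Fin n) (Fin n) (MonoidAlgebra R G)), SuppIn X1 ψ →
    SuppIn X2 χ → (nu ε (ψ + (ε : ℤ) • ψᴴ) 0 (χ + (ε : ℤ) • χᴴ)) ^ N = 0 →
    StablyHyperbolic ε (UF ψ 0 χ)

/-! ### Part 4: single pieces -/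

/-- **SGU** (size 180, dep `SpecFML`): an unstable flip.

PROOF. `mELM` for `g` (`Sub1`: `mSBK` (4)); its hypothesis: `mBLK`, `mBLG`: the block `La (Kg L g) g`, `BX L X1 X2 ∅ g` is data with the ends `x1`, `g x1`, `g g x1 = x1`,
`d x1 (g x1) = d x1 x2 + d x2 (g x1)` (`mv` for `g ∈ X1`, `x1 ∈ DD d x1 x2 true`); `L = stabilizer x1 ⊓ stabilizer x2` (`st`), so `HU` gives `SE` and
`Blk`. `cutM (dc L g)ᶜ ψ = 0`; `UF 0 0 χ`: FML second part and `specSWP` (1). -/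
def SpecSGU : Prop :=
  ∀ (R G V : Type) [Ring R] [StarRing R] [Group G] [MulAction G V] (d : V → V → ℕ),
    TM G d → ∀ x1 x2 : V, HU R G d x1 x2 →
    ∀ (L : Subgroup G) (X1 X2 Yp Ym : Set G), PPK L X1 X2 ∅ Yp Ym → Geo d L X1 X2 ∅ x1 x2 →
    ∀ g ∈ X1, g * g ∈ L → ¬ Ns L g →
    ∀ (ε : ℤˣ) (n : ℕ) (ψ χ : Matrix (Fin n) (Fin n) (MonoidAlgebra R G)), SuppIn (dc L g) ψ →
    SuppIn X2 χ → IsNilpotent (nu ε (ψ + (ε : ℤ) • ψᴴ) 0 (χ + (ε : ℤ) • χᴴ)) →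
    StablyHyperbolic ε (UF ψ 0 χ)

/-- **SGN** (size 180, deps `SpecDWP`, `SpecDWG`): a stable flip and no flips.

PROOF. `dc L g = La L g` (`Ns`). `La L g ⊆ X1` is a part (`Pt`; inverses: `g⁻¹ = (g g)⁻¹ g`). DWP, DWG (second parts, `c' = X2`): data `La L g`, `X2`, `Yp`,
`Ym`. `mSTY`: for a half `W` of `X2`, `3 ≤ N`, `χ'` with support in `XD (La L g) W` and index `N - 1`: data by `mDRC`, `ROK.specDRG`, so `Cl (N - 1)`
applies. -/
def SpecSGN : Prop :=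
  ∀ (R G V : Type) [Ring R] [StarRing R] [Group G] [MulAction G V] (d : V → V → ℕ), TM G d →
    ∀ (N : ℕ) (x1 x2 : V), 1 ≤ N → (3 ≤ N → Cl R G d (N - 1) x1 x2) →
    ∀ (L : Subgroup G) (X1 X2 Yp Ym : Set G), PPK L X1 X2 ∅ Yp Ym → Geo d L X1 X2 ∅ x1 x2 →
    ∀ g ∈ X1, g * g ∈ L → Ns L g →
    ∀ (ε : ℤˣ) (n : ℕ) (ψ χ : Matrix (Fin n) (Fin n) (MonoidAlgebra R G)), SuppIn (dc L g) ψ →
    SuppIn X2 χ → (∀ i j x, (χ i j).coeff x ≠ 0 → ¬ Flip L x) →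
    (nu ε (ψ + (ε : ℤ) • ψᴴ) 0 (χ + (ε : ℤ) • χᴴ)) ^ N = 0 → StablyHyperbolic ε (UF ψ 0 χ)

/-- **SGS** (size 280, deps `SpecFML`, `SpecSGU`, `SpecSGN`): single pieces.

PROOF. `L = stabilizer x1 ⊓ stabilizer x2` (`st`, `subst`). If `Flip L x` there is `g = x h ∈ dc L x`, `g g ∈ L` (`ROTAux.exists_flip`), `g ∈ X1`,
`D2 L x = dc L x = dc L g`; otherwise no element of `D2 L x` is a flip. Cases: `x`, `y` no flips: `mNWT`. `x` a flip with `¬ Ns L g`: SGU. `y` a flip,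
`f = y h`, `¬ Ns L f`: exchange (`specSWP` (1), `ROK.specSYK`, `INDAux.swap_zero`) and SGU for the ends `x2`, `x1` (`HU R G d x2 x1`; `inf_comm`).
`x` a flip with `Ns L g`, `y` no flip: SGN. `y` a flip with `Ns L f`, `x` no flip: exchange and SGN (`Cl` exchanged, as in DCM). Both flips, `Ns`:
`HS`: `g x1 ∈ DD d x1 x2 false`, `f x2 ∈ DD d x1 x2 true` (`mv`); if `g x1 = x2` and `f x2 = x1` then `g⁻¹ x2 = x1`, `f⁻¹ x1 = x2`, and
(`g g`, `f f` fix `x1`, `x2`) `g x2 = x1`, `f x1 = x2`, so `g⁻¹ f ∈ L` fixes `x1`, `x2`, `f ∈ g L ⊆ X1`; so `f = f 1 ∈ Ym` (`X1Y`) and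
`f = f 1 ∈ Yp` (`X2Y`), `f ∈ L` (`yy`): contradiction to `xh`. `h g ∈ X1` for `h ∈ L` (`X1l`), so `(h g)⁻¹ ≠ h g` (`X1n`), the same for `h f ∈ X2`: the
last two premises of `HS`. `dc L g = La L g`, `dc L f = La L f`, `Blk`. -/
def SpecSGS : Prop :=
  ∀ (R G V : Type) [Ring R] [StarRing R] [Group G] [MulAction G V] (d : V → V → ℕ), TM G d →
    ∀ (N : ℕ) (x1 x2 : V), 1 ≤ N → (3 ≤ N → Cl R G d (N - 1) x1 x2) → HU R G d x1 x2 →
    HU R G d x2 x1 → HS R G d x1 x2 →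
    ∀ (L : Subgroup G) (X1 X2 Yp Ym : Set G), PPK L X1 X2 ∅ Yp Ym → Geo d L X1 X2 ∅ x1 x2 →
    ∀ x ∈ X1, ∀ y ∈ X2, ∀ (ε : ℤˣ) (n : ℕ) (ψ χ : Matrix (Fin n) (Fin n) (MonoidAlgebra R G)),
      SuppIn (D2 L x) ψ → SuppIn (D2 L y) χ →
      (nu ε (ψ + (ε : ℤ) • ψᴴ) 0 (χ + (ε : ℤ) • χᴴ)) ^ N = 0 → StablyHyperbolic ε (UF ψ 0 χ)

/-! ### Part 5: the theorem -/

/-- **CLM** (size 100, deps `SpecDCM`, `SpecSGS`): the claim for all `N`, and `SE`.

PROOF. Induction on `N` (DCM, SGS). `SE`: `IsNilpotent` gives `N ≥ 1`. -/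
def SpecCLM : Prop :=
  ∀ (R G V : Type) [Ring R] [StarRing R] [Group G] [MulAction G V] (d : V → V → ℕ), TM G d →
    ∀ x1 x2 : V, HU R G d x1 x2 → HU R G d x2 x1 → HS R G d x1 x2 →
      (∀ N, 1 ≤ N → Cl R G d N x1 x2) ∧ SE R G d x1 x2

end Pool.Agent.Lib.MPb6f35e.TT.LL

/-! ## Module LL/DCM -/

/-!
# Only lines matter (MP_8a3537_gt, folder LL), module DCM: decomposition into pieces (helper77)
-/

set_option autoImplicit false

namespace Pool.Agent.Lib.MPb6f35e.TT.LL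

open Matrix Pool.Agent.Lib.MPb6f35e.TT.UV Pool.Agent.Lib.MPb6f35e.TT.AU Pool.Agent.Lib.MPb6f35e.TT.RO
open Pool.Agent.Lib.MPb6f35e.TT.ROK

namespace DCMM

open Pool.Agent.Lib.MPb6f35e.TT.RO.ELMAux

section Sets

variable {G : Type} [Group G] {L : Subgroup G}

theorem self_mem (x : G) : x ∈ D2 L x :=
  Or.inl ⟨1, L.one_mem, 1, L.one_mem, by rw [one_mul, mul_one]⟩

theorem bi_D2 (x : G) : Bi L (D2 L x) := by
  constructor
  · rintro h hh y (hy | hy)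
    · exact Or.inl (dc_left L x hh hy)
    · exact Or.inr (dc_left L x⁻¹ hh hy)
  · rintro h hh y (hy | hy)
    · exact Or.inl (dc_right L x hh hy)
    · exact Or.inr (dc_right L x⁻¹ hh hy)

theorem dc_inv' {x y : G} (h : y ∈ dc L x) : y⁻¹ ∈ dc L x⁻¹ := by
  obtain ⟨a, ha, b, hb, rfl⟩ := h
  exact ⟨b⁻¹, L.inv_mem hb, a⁻¹, L.inv_mem ha, by group⟩

theorem inv_D2 (x : G) : ∀ y ∈ D2 L x, y⁻¹ ∈ D2 L x := by
  rintro y (hy | hy)
  · exact Or.inr (dc_inv' hy)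
  · have := dc_inv' hy
    rw [inv_inv] at this
    exact Or.inl this

theorem D2_sub {X1 X2 Yp Ym : Set G} (P : PPK L X1 X2 ∅ Yp Ym) {x : G} (hx : x ∈ X1) :
    ∀ y ∈ D2 L x, y ∈ X1 := by
  have h : ∀ x ∈ X1, ∀ y ∈ dc L x, y ∈ X1 := by
    rintro x hx y ⟨a, ha, b, hb, rfl⟩
    exact P.X1r b hb _ (P.X1l a ha x hx)
  rintro y (hy | hy)
  · exact h x hx y hy
  · exact h _ (P.X1i x hx) y hy

theorem pt_D2 {X1 X2 Yp Ym : Set G} (P : PPK L X1 X2 ∅ Yp Ym) {x : G} (hx : x ∈ X1) :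
    Pt L X1 (D2 L x) := ⟨D2_sub P hx, bi_D2 x, inv_D2 x⟩

theorem bi_not {c : Set G} (h : Bi L c) {l y : G} (hl : l ∈ L) :
    (l * y ∈ c → y ∈ c) ∧ (y * l ∈ c → y ∈ c) := by
  constructor
  · intro hy
    have := h.1 _ (L.inv_mem hl) _ hy
    simpa using this
  · intro hy
    have := h.2 _ (L.inv_mem hl) _ hy
    simpa using this

theorem pt_c1 {X1 X2 Yp Ym : Set G} (P : PPK L X1 X2 ∅ Yp Ym) (x : G) :
    Pt L X1 {y | y ∈ X1 ∧ y ∉ D2 L x} := by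
  refine ⟨fun y hy => hy.1, ⟨fun l hl y hy => ⟨P.X1l l hl y hy.1, fun h => hy.2 ?_⟩,
    fun l hl y hy => ⟨P.X1r l hl y hy.1, fun h => hy.2 ?_⟩⟩,
    fun y hy => ⟨P.X1i y hy.1, fun h => hy.2 ?_⟩⟩
  · exact (bi_not (bi_D2 x) hl).1 h
  · exact (bi_not (bi_D2 x) hl).2 h
  · have := inv_D2 x _ h
    rwa [inv_inv] at this

/-- `D2 L y` and `D2 L x` are disjoint if `y` is not in `D2 L x`. -/
theorem D2_disj {x y z : G} (hy : y ∉ D2 L x) (hz : z ∈ D2 L y) : z ∉ D2 L x := by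
  have h1 : ∀ z ∈ dc L y, z ∉ D2 L x := by
    rintro z ⟨a, ha, b, hb, rfl⟩ h
    exact hy ((bi_not (bi_D2 x) ha).1 ((bi_not (bi_D2 x) hb).2 h))
  rcases hz with hz | hz
  · exact h1 z hz
  · intro h
    have h2 := dc_inv' hz
    rw [inv_inv] at h2
    exact h1 _ h2 (inv_D2 x z h)

end Sets

section Mat

variable {R G : Type} [Ring R] [StarRing R] [Group G]

theorem supp_sym {X : Set G} (hi : ∀ x ∈ X, x⁻¹ ∈ X) (ε : ℤˣ) {n : ℕ}
    {ψ : Matrix (Fin n) (Fin n) (MonoidAlgebra R G)} (hψ : SuppIn X ψ) :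
    SuppIn X (ψ + (ε : ℤ) • ψᴴ) := by
  intro i j x hx
  rw [Matrix.add_apply, MonoidAlgebra.coeff_add, Finsupp.add_apply] at hx
  by_cases h1 : (ψ i j).coeff x = 0
  · rw [h1, zero_add, Matrix.smul_apply, conjTranspose_apply] at hx
    have h2 : (star (ψ j i)).coeff x ≠ 0 := by
      intro h0
      apply hx
      rcases unit_cases ε (star (ψ j i)) with h | h
      · rw [h, h0]
      · rw [h, MonoidAlgebra.coeff_neg, Finsupp.neg_apply, h0, neg_zero]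
    rw [star_coeff] at h2
    have h3 : (ψ j i).coeff x⁻¹ ≠ 0 := by
      intro h0
      apply h2
      rw [h0, star_zero]
    have := hi _ (hψ j i _ h3)
    simpa using this
  · exact hψ i j x h1

/-- Restriction to a biinvariant set closed under inverses does not change the index. -/
theorem nil_cut {L : Subgroup G} {X1 X2 Yp Ym : Set G} (P : PPK L X1 X2 ∅ Yp Ym) (ε : ℤˣ)
    {n N : ℕ} (hN : 1 ≤ N) {ψ χ : Matrix (Fin n) (Fin n) (MonoidAlgebra R G)}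
    (hψ : SuppIn X1 ψ) (hχ : SuppIn X2 χ)
    (hν : (nu ε (ψ + (ε : ℤ) • ψᴴ) 0 (χ + (ε : ℤ) • χᴴ)) ^ N = 0) {c : Set G} (hc : Bi L c)
    (hi : ∀ x ∈ c, x⁻¹ ∈ c) :
    (nu ε (cutM c ψ + (ε : ℤ) • (cutM c ψ)ᴴ) 0 (χ + (ε : ℤ) • χᴴ)) ^ N = 0 := by
  have h0 : SuppIn (∅ : Set G) (0 : Matrix (Fin n) (Fin n) (MonoidAlgebra R G)) := by
    intro i j x hx
    exact absurd rfl hx
  obtain ⟨hE, hcut, hblk⟩ := mEFA R G L X1 X2 ∅ Yp Ym P.toPingPong ε n _ 0 _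
    (supp_sym P.X1i ε hψ) h0 (supp_sym P.X2i ε hχ) (herm ε ψ) (herm ε χ) N hν
  have h1 : cutM c (ψ + (ε : ℤ) • ψᴴ) = cutM c ψ + (ε : ℤ) • (cutM c ψ)ᴴ := by
    rw [cutM_add, cutM_smul, cutM_star _ hi]
  have e1 := hcut false true c hc
  rw [blk_ft, h1] at e1
  have e4 : χ + (ε : ℤ) • χᴴ ∈
      EE L (nu ε (ψ + (ε : ℤ) • ψᴴ) 0 (χ + (ε : ℤ) • χᴴ)) 1 true false := by
    have h2 := hblk true false
    rw [blk_tf] at h2
    have h3 := AddSubgroup.zsmul_mem _ h2 (ε : ℤ)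
    rwa [smul_smul_self] at h3
  exact (RO.specKNA (MonoidAlgebra R G) ε n 0 N _ hE hN _ 0 0 _ e1 (AddSubgroup.zero_mem _)
    (AddSubgroup.zero_mem _) e4).1

open Classical in
/-- The number of the nonzero coefficients. -/
noncomputable def cnt {n : ℕ} (M : Matrix (Fin n) (Fin n) (MonoidAlgebra R G)) : ℕ :=
  ∑ i, ∑ j, (M i j).coeff.support.card

theorem coeff_cut_ne {n : ℕ} {M : Matrix (Fin n) (Fin n) (MonoidAlgebra R G)} {W : Set G}
    {i j : Fin n} {x : G} (h : (cutM W M i j).coeff x ≠ 0) : x ∈ W ∧ (M i j).coeff x ≠ 0 := by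
  classical
  rw [cutM_coeff] at h
  by_cases hx : x ∈ W
  · rw [if_pos hx] at h
    exact ⟨hx, h⟩
  · rw [if_neg hx] at h
    exact absurd rfl h

theorem cnt_lt {n : ℕ} (M : Matrix (Fin n) (Fin n) (MonoidAlgebra R G)) (W : Set G)
    {i j : Fin n} {x : G} (hx : (M i j).coeff x ≠ 0) (hW : x ∉ W) : cnt (cutM W M) < cnt M := by
  have hsub : ∀ a b, (cutM W M a b).coeff.support ⊆ (M a b).coeff.support := by
    intro a b y hy
    rw [Finsupp.mem_support_iff] at hy ⊢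
    exact (coeff_cut_ne hy).2
  unfold cnt
  refine Finset.sum_lt_sum (fun a _ => Finset.sum_le_sum fun b _ => Finset.card_le_card (hsub a b))
    ⟨i, Finset.mem_univ i, Finset.sum_lt_sum (fun b _ => Finset.card_le_card (hsub i b))
      ⟨j, Finset.mem_univ j, Finset.card_lt_card
        ((Finset.ssubset_iff_of_subset (hsub i j)).mpr ⟨x, ?_, ?_⟩)⟩⟩
  · exact Finsupp.mem_support_iff.2 hx
  · intro h
    exact hW (coeff_cut_ne (Finsupp.mem_support_iff.1 h)).1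

theorem UF_zero_left (hFML : SpecFML) (ε : ℤˣ) {n : ℕ}
    (χ : Matrix (Fin n) (Fin n) (MonoidAlgebra R G)) : StablyHyperbolic ε (UF 0 0 χ) := by
  apply (specSwp (MonoidAlgebra R G) ε n 0 0 χ).1
  rw [conjTranspose_zero]
  exact (hFML (MonoidAlgebra R G) ε n).2 χ

theorem swap0 (ε : ℤˣ) {n N : ℕ} {a b : Matrix (Fin n) (Fin n) (MonoidAlgebra R G)}
    (h : (nu ε a 0 b) ^ N = 0) : (nu ε b 0 a) ^ N = 0 := by
  have := INDAux.swap_zero ε a 0 b N h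
  rwa [conjTranspose_zero] at this

theorem swapUF {ε : ℤˣ} {n : ℕ} {ψ χ : Matrix (Fin n) (Fin n) (MonoidAlgebra R G)}
    (h : StablyHyperbolic ε (UF χ 0 ψ)) : StablyHyperbolic ε (UF ψ 0 χ) := by
  apply (specSwp (MonoidAlgebra R G) ε n ψ 0 χ).1
  rwa [conjTranspose_zero]

end Mat

theorem Cl_swap {R G V : Type} [Ring R] [StarRing R] [Group G] [MulAction G V] {d : V → V → ℕ}
    {N : ℕ} {x1 x2 : V} (h : Cl R G d N x1 x2) : Cl R G d N x2 x1 := by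
  intro L X1 X2 Yp Ym P hg ε n ψ χ hψ hχ hν
  obtain ⟨-, -, s3, s4⟩ := specSYK G L X1 X2 ∅ Yp Ym
  exact swapUF (h L X2 X1 Ym Yp (s3 P) (s4 V d x2 x1 hg) ε n χ ψ hχ hψ (swap0 ε hν))

/-- (A): the decomposition of `ψ`. -/
theorem partA (hFML : SpecFML) (hLNR : SpecLNR) {R G V : Type} [Ring R] [StarRing R] [Group G]
    [MulAction G V] {d : V → V → ℕ} (hT : TM G d) {N : ℕ} {x1 x2 : V} (hN : 1 ≤ N)
    (hCl : 3 ≤ N → Cl R G d (N - 1) x1 x2) {L : Subgroup G} {X1 X2 Yp Ym : Set G}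
    (P : PPK L X1 X2 ∅ Yp Ym) (hg : Geo d L X1 X2 ∅ x1 x2) (ε : ℤˣ) {n : ℕ}
    (χ : Matrix (Fin n) (Fin n) (MonoidAlgebra R G)) (hχ : SuppIn X2 χ) (m : ℕ) :
    ∀ ψ : Matrix (Fin n) (Fin n) (MonoidAlgebra R G), SuppIn X1 ψ → cnt ψ = m →
    (nu ε (ψ + (ε : ℤ) • ψᴴ) 0 (χ + (ε : ℤ) • χᴴ)) ^ N = 0 →
    (∀ i j x, (ψ i j).coeff x ≠ 0 → StablyHyperbolic ε (UF (cutM (D2 L x) ψ) 0 χ)) →
    StablyHyperbolic ε (UF ψ 0 χ) := by
  induction m using Nat.strong_induction_on with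
  | _ m ih =>
    intro ψ hψ hm hν hp
    by_cases h0 : ∀ i j x, (ψ i j).coeff x = 0
    · have h1 : ψ = 0 := mat_ext fun i j x => h0 i j x
      rw [h1]
      exact UF_zero_left hFML ε χ
    · push Not at h0
      obtain ⟨i, j, x, hx⟩ := h0
      have hxX : x ∈ X1 := hψ i j x hx
      have p1 := pt_c1 P x
      have p2 := pt_D2 P hxX
      have hs1 : SuppIn {y | y ∈ X1 ∧ y ∉ D2 L x} (cutM {y | y ∈ X1 ∧ y ∉ D2 L x} ψ) :=
        fun i j y hy => (coeff_cut_ne hy).1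
      have hs2 : SuppIn (D2 L x) (cutM (D2 L x) ψ) := fun i j y hy => (coeff_cut_ne hy).1
      have hsum : cutM {y | y ∈ X1 ∧ y ∉ D2 L x} ψ + cutM (D2 L x) ψ = ψ := by
        classical
        refine mat_ext fun i j y => ?_
        rw [Matrix.add_apply, MonoidAlgebra.coeff_add, Finsupp.add_apply, cutM_coeff, cutM_coeff]
        by_cases h1 : (ψ i j).coeff y = 0
        · rw [h1, ite_self, ite_self, add_zero]
        · have h2 : y ∈ X1 := hψ i j y h1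
          by_cases h3 : y ∈ D2 L x
          · rw [if_pos h3, if_neg (fun h => h.2 h3), zero_add]
          · rw [if_neg h3, if_pos ⟨h2, h3⟩, add_zero]
      have hν1 := nil_cut P ε hN hψ hχ hν p1.bi p1.inv
      have h1 : StablyHyperbolic ε (UF (cutM {y | y ∈ X1 ∧ y ∉ D2 L x} ψ) 0 χ) := by
        refine ih (cnt (cutM {y | y ∈ X1 ∧ y ∉ D2 L x} ψ)) ?_ _ (fun i j y hy => (hs1 i j y hy).1)
          rfl hν1 ?_
        · rw [← hm]
          exact cnt_lt ψ _ hx fun h => h.2 (self_mem x)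
        · intro i' j' y hy
          obtain ⟨h2, h3⟩ := coeff_cut_ne hy
          have h4 : cutM (D2 L y) (cutM {y | y ∈ X1 ∧ y ∉ D2 L x} ψ) = cutM (D2 L y) ψ := by
            classical
            refine mat_ext fun i j z => ?_
            rw [cutM_coeff, cutM_coeff, cutM_coeff]
            by_cases h5 : z ∈ D2 L y
            · rw [if_pos h5, if_pos h5]
              by_cases h6 : (ψ i j).coeff z = 0
              · rw [h6, ite_self]
              · rw [if_pos ⟨hψ i j z h6, D2_disj h2.2 h5⟩]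
            · rw [if_neg h5, if_neg h5]
          rw [h4]
          exact hp i' j' y h3
      have h2 := hLNR R G V d hT N x1 x2 hN hCl L X1 X2 Yp Ym P hg _ _ p1 p2 (fun y hy => hy.2) ε n
        _ _ χ hs1 hs2 hχ (by rw [hsum]; exact hν) h1 (hp i j x hx)
      rwa [hsum] at h2

end DCMM

open DCMM in
/-- **DCM**: the decomposition into pieces. -/
theorem specDCM (hFML : SpecFML) (hLNR : SpecLNR) : SpecDCM := by
  intro R G V _ _ _ _ d hT N x1 x2 hN hCl L X1 X2 Yp Ym P hg hpc ε n ψ χ hψ hχ hν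
  obtain ⟨-, -, s3, s4⟩ := specSYK G L X1 X2 ∅ Yp Ym
  have P' := s3 P
  have hg' := s4 V d x1 x2 hg
  refine partA hFML hLNR hT hN hCl P hg ε χ hχ _ ψ hψ rfl hν fun i j x hx => ?_
  have hxX : x ∈ X1 := hψ i j x hx
  have p2 := pt_D2 P hxX
  have hν1 := nil_cut P ε hN hψ hχ hν p2.bi p2.inv
  have hs1 : SuppIn (D2 L x) (cutM (D2 L x) ψ) := fun i j y hy => (RO.ELMAux.supp_cutM X1 _ ψ hψ i j y hy).2
  have hs2 : SuppIn X1 (cutM (D2 L x) ψ) := fun i j y hy => p2.sub y (hs1 i j y hy)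
  apply swapUF
  refine partA hFML hLNR hT hN (fun h => Cl_swap (hCl h)) P' hg' ε _ hs2 _ χ hχ rfl
    (swap0 ε hν1) fun i' j' y hy => ?_
  have hyX : y ∈ X2 := hχ i' j' y hy
  have p3 := pt_D2 P' hyX
  have hν2 := nil_cut P' ε hN hχ hs2 (swap0 ε hν1) p3.bi p3.inv
  apply swapUF
  exact hpc x hxX y hyX ε n _ _ hs1
    (fun i j z hz => (RO.ELMAux.supp_cutM X2 _ χ hχ i j z hz).2) (swap0 ε hν2)

end Pool.Agent.Lib.MPb6f35e.TT.LL

/-! ## Module LL/DWG -/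

/-!
# LL, module DWG: the geometry of the words
-/

namespace Pool.Agent.Lib.MPb6f35e.TT.LL

open Matrix Pool.Agent.Lib.MPb6f35e.TT.UV Pool.Agent.Lib.MPb6f35e.TT.AU Pool.Agent.Lib.MPb6f35e.TT.RO
open Pool.Agent.Lib.MPb6f35e.TT.ROK

namespace DWGM

variable {G V : Type} [Group G] [MulAction G V] {d : V → V → ℕ} {L : Subgroup G}
  {X1 X2 c c' : Set G} {x1 x2 : V}

/-- The elements of `L` preserve the two sides. -/
theorem base (hT : TM G d) (hG : Geo d L X1 X2 ∅ x1 x2) {h : G} (hh : h ∈ L) {s : Bool} {p : V}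
    (hp : p ∈ DD d x1 x2 s) : h • p ∈ DD d x1 x2 s := by
  obtain ⟨h1, h2⟩ := (hG.st h).1 hh
  have e1 : d x1 (h • p) = d x1 p := by
    have := hT.iso h x1 p
    rwa [h1] at this
  have e2 : d x2 (h • p) = d x2 p := by
    have := hT.iso h x2 p
    rwa [h2] at this
  cases s
  · have hp' : d x1 p = d x1 x2 + d x2 p := hp
    show d x1 (h • p) = d x1 x2 + d x2 (h • p)
    rw [e1, e2, hp']
  · have hp' : d x2 p = d x2 x1 + d x1 p := hp
    show d x2 (h • p) = d x2 x1 + d x1 (h • p)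
    rw [e1, e2, hp']

/-- The letters. -/
theorem letter (hG : Geo d L X1 X2 ∅ x1 x2) (hc : ∀ x ∈ c, x ∈ X1) (hc' : ∀ x ∈ c', x ∈ X2)
    {s t : Bool} {x : G} {p : V} (hx : x ∈ XX c c' ∅ s t) (hp : p ∈ DD d x1 x2 t) :
    x • p ∈ DD d x1 x2 s := by
  cases s <;> cases t
  · exact absurd (show x⁻¹ ∈ (∅ : Set G) from hx) (Set.notMem_empty _)
  · exact hG.mv false true x p (hc x hx) hp
  · exact hG.mv true false x p (hc' x hx) hp
  · exact absurd (show x ∈ (∅ : Set G) from hx) (Set.notMem_empty _)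

/-- The words. -/
theorem word (hT : TM G d) (hG : Geo d L X1 X2 ∅ x1 x2) (hc : ∀ x ∈ c, x ∈ X1)
    (hc' : ∀ x ∈ c', x ∈ X2) {k : ℕ} {s t : Bool} {z : G} (hz : Wd L c c' ∅ k s t z) :
    ∀ p ∈ DD d x1 x2 t, z • p ∈ DD d x1 x2 s := by
  induction hz with
  | base hh => exact fun p hp => base hT hG hh hp
  | cons hx _ ih =>
    intro p hp
    rw [mul_smul]
    exact letter hG hc hc' hx (ih p hp)

end DWGM

theorem specDWG : SpecDWG := by
  intro G V _ _ d hT L X1 X2 x1 x2 hG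
  refine ⟨?_, ?_⟩
  · intro c1 c2 h1 h2
    refine ⟨hG.ne, hG.st, ?_⟩
    intro s t x p hx hp
    cases s <;> cases t
    · exact absurd (show x⁻¹ ∈ (∅ : Set G) from hx) (Set.notMem_empty _)
    · obtain ⟨k, hk⟩ := (show x ∈ V1 L c2 X2 from hx)
      exact DWGM.word hT hG h2.sub (fun _ h => h) hk p hp
    · obtain ⟨k, _, hk⟩ := (show x ∈ V3 L c1 X2 from hx)
      exact DWGM.word hT hG h1.sub (fun _ h => h) hk p hp
    · exact absurd (show x ∈ (∅ : Set G) from hx) (Set.notMem_empty _)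
  · intro c c' h h'
    refine ⟨hG.ne, hG.st, ?_⟩
    intro s t x p hx hp
    exact DWGM.letter hG h.sub h'.sub hx hp

end Pool.Agent.Lib.MPb6f35e.TT.LL

/-! ## Module LL/DWP -/

/-!
# LL, module DWP: the words are data
-/

set_option autoImplicit false

namespace Pool.Agent.Lib.MPb6f35e.TT.LL

open Matrix Pool.Agent.Lib.MPb6f35e.TT.UV Pool.Agent.Lib.MPb6f35e.TT.AU Pool.Agent.Lib.MPb6f35e.TT.RO
open Pool.Agent.Lib.MPb6f35e.TT.ROK

namespace DWPM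

variable {G : Type} [Group G] {L : Subgroup G} {X1 X2 Yp Ym c : Set G}

theorem sub1 (P : PPK L X1 X2 ∅ Yp Ym) (hc : Pt L X1 c) : Sub1 L X1 X2 ∅ Yp Ym c where
  pp := P.toPingPong
  sub := hc.sub
  bi := hc.bi
  inv := hc.inv

theorem yk_left {Xa Xb : Set G} (ha : ∀ l ∈ L, ∀ x ∈ Xa, l * x ∈ Xa)
    (hb : ∀ l ∈ L, ∀ x ∈ Xb, l * x ∈ Xb) {s : Bool} {y l : G} (hl : l ∈ L)
    (hy : YK L Xa Xb s y) : YK L Xa Xb s (l * y) := by
  cases hy with
  | base h => exact YK.base (L.mul_mem hl h)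
  | @sa x y hx hy =>
    rw [← mul_assoc]
    exact YK.sa (ha l hl x hx) hy
  | @sb x y hx hy =>
    rw [← mul_assoc]
    exact YK.sb (hb l hl x hx) hy

/-- A word which changes the type has a letter. -/
theorem wd_pos {c' c'' : Set G} {k : ℕ} {s : Bool} {z : G} (h : Wd L c c' c'' k s (!s) z) :
    ∃ m, k = m + 1 := by
  cases k with
  | zero => cases s <;> cases h
  | succ m => exact ⟨m, rfl⟩

end DWPM

open DWPM in
/-- **Module DWP**. -/
theorem specDWP (hDWU : SpecDWU) : SpecDWP := by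
  intro G _ L X1 X2 Yp Ym P
  refine ⟨?_, ?_⟩
  · intro c1 c2 hc1 hc2 hd
    obtain ⟨u0, u1, u2⟩ := hDWU G L X1 X2 Yp Ym c1 c2 P hc1 hc2 hd
    obtain ⟨-, kk⟩ := mWDK G L X1 X2 ∅ Yp Ym P
    have s1 := sub1 P hc1
    have s2 := sub1 P hc2
    obtain ⟨a1, -, a3, -, -⟩ := mWDA G L X1 X2 ∅ Yp Ym c1 s1
    obtain ⟨b1, -, b3, -, -⟩ := mWDA G L X1 X2 ∅ Yp Ym c2 s2
    obtain ⟨ka, ka'⟩ := kk c1 s1
    obtain ⟨kb, kb'⟩ := kk c2 s2
    have V1l : ∀ l ∈ L, ∀ x ∈ V1 L c2 X2, l * x ∈ V1 L c2 X2 := by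
      rintro l hl x ⟨k, hk⟩
      exact ⟨k, (b1 k false true x l hl hk).1⟩
    have V1r : ∀ l ∈ L, ∀ x ∈ V1 L c2 X2, x * l ∈ V1 L c2 X2 := by
      rintro l hl x ⟨k, hk⟩
      exact ⟨k, (b1 k false true x l hl hk).2⟩
    have V3l : ∀ l ∈ L, ∀ x ∈ V3 L c1 X2, l * x ∈ V3 L c1 X2 := by
      rintro l hl x ⟨k, h3, hk⟩
      exact ⟨k, h3, (a1 k true false x l hl hk).1⟩
    have V3r : ∀ l ∈ L, ∀ x ∈ V3 L c1 X2, x * l ∈ V3 L c1 X2 := by
      rintro l hl x ⟨k, h3, hk⟩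
      exact ⟨k, h3, (a1 k true false x l hl hk).2⟩
    have y7 : ∀ y ∈ YS L (V1 L c2 X2) (V3 L c1 X2) true, y ∈ Yp := fun y hy => u0 true y hy
    have y7' : ∀ y ∈ YS L (V1 L c2 X2) (V3 L c1 X2) false, y ∈ Ym := fun y hy => u0 false y hy
    refine
      { X1l := V1l
        X1r := V1r
        X1i := ?_
        X2l := V3l
        X2r := V3r
        X2i := ?_
        X3l := fun _ _ x hx => hx.elim
        X3r := fun _ _ x hx => hx.elim
        Yp1 := YK.base L.one_mem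
        Ym1 := YK.base L.one_mem
        Ypl := fun l hl y hy => yk_left V1l V3l hl hy
        Yml := fun l hl y hy => yk_left V1l V3l hl hy
        X1Y := fun x hx y hy => YK.sa hx hy
        X2Y := fun x hx y hy => YK.sb hx hy
        X3Y := fun x hx => hx.elim
        X3Y' := fun x hx => (show x⁻¹ ∈ (∅ : Set G) from hx).elim
        d23 := fun _ _ _ _ x' hx' => hx'.elim
        d13 := fun _ _ _ _ x' hx' => (show x'⁻¹ ∈ (∅ : Set G) from hx').elim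
        u1 := u1
        u2 := u2
        u3 := fun x hx => hx.elim
        u3' := fun x hx => (show x⁻¹ ∈ (∅ : Set G) from hx).elim
        yy := fun y h1 h2 => P.yy y (y7 y h1) (y7' y h2)
        xh := ?_
        cj := ?_ }
    · rintro x ⟨k, hk⟩
      exact ⟨k, b3 k false true x hk⟩
    · rintro x ⟨k, h3, hk⟩
      exact ⟨k, h3, a3 k true false x hk⟩
    · intro s t x hx hxL
      cases s <;> cases t
      · exact (show x⁻¹ ∈ (∅ : Set G) from hx).elim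
      · obtain ⟨k, hk⟩ := hx
        obtain ⟨m, rfl⟩ := wd_pos (s := false) hk
        have h1 := kb m false true x 1 hk P.Yp1
        rw [mul_one] at h1
        exact h1 hxL
      · obtain ⟨k, -, hk⟩ := hx
        obtain ⟨m, rfl⟩ := wd_pos (s := true) hk
        have h1 := ka m true false x 1 hk P.Ym1
        rw [mul_one] at h1
        exact h1 hxL
      · exact (show x ∈ (∅ : Set G) from hx).elim
    · intro s t x h hx hh
      cases s <;> cases t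
      · exact (show x⁻¹ ∈ (∅ : Set G) from hx).elim
      · obtain ⟨k, hk⟩ := hx
        rcases kb' k false true x h hk hh with h1 | h1
        · exact Or.inl h1
        · right
          intro y hy hy'
          exact h1 y (y7 y hy) (y7 _ hy')
      · obtain ⟨k, -, hk⟩ := hx
        rcases ka' k true false x h hk hh with h1 | h1
        · exact Or.inl h1
        · right
          intro y hy hy'
          exact h1 y (y7' y hy) (y7' _ hy')
      · exact (show x ∈ (∅ : Set G) from hx).elim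
  · intro c c' hc hc'
    have hsub : ∀ s t x, x ∈ XX c c' ∅ s t → x ∈ XX X1 X2 ∅ s t := by
      intro s t x hx
      cases s <;> cases t
      · exact (show x⁻¹ ∈ (∅ : Set G) from hx).elim
      · exact hc.sub x hx
      · exact hc'.sub x hx
      · exact (show x ∈ (∅ : Set G) from hx).elim
    exact
      { X1l := hc.bi.1
        X1r := hc.bi.2
        X1i := hc.inv
        X2l := hc'.bi.1
        X2r := hc'.bi.2
        X2i := hc'.inv
        X3l := P.X3l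
        X3r := P.X3r
        Yp1 := P.Yp1
        Ym1 := P.Ym1
        Ypl := P.Ypl
        Yml := P.Yml
        X1Y := fun x hx => P.X1Y x (hc.sub x hx)
        X2Y := fun x hx => P.X2Y x (hc'.sub x hx)
        X3Y := P.X3Y
        X3Y' := P.X3Y'
        d23 := fun _ _ _ _ x' hx' => hx'.elim
        d13 := fun _ _ _ _ x' hx' => (show x'⁻¹ ∈ (∅ : Set G) from hx').elim
        u1 := fun x hx x' hx' => P.u1 x (hc.sub x hx) x' (hc.sub x' hx')
        u2 := fun x hx x' hx' => P.u2 x (hc'.sub x hx) x' (hc'.sub x' hx')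
        u3 := P.u3
        u3' := P.u3'
        yy := P.yy
        xh := fun s t x hx => P.xh s t x (hsub s t x hx)
        cj := fun s t x h hx => P.cj s t x h (hsub s t x hx) }

end Pool.Agent.Lib.MPb6f35e.TT.LL

/-! ## Module LL/DWU -/

/-! # folder LL, module DWU: uniqueness of the words -/

set_option autoImplicit false

namespace Pool.Agent.Lib.MPb6f35e.TT.LL

open Matrix Pool.Agent.Lib.MPb6f35e.TT.UV Pool.Agent.Lib.MPb6f35e.TT.AU Pool.Agent.Lib.MPb6f35e.TT.RO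
open Pool.Agent.Lib.MPb6f35e.TT.ROK

namespace DWUM

section

variable {G : Type} [Group G] {L : Subgroup G} {X1 X2 Yp Ym c : Set G}

theorem wd_zero {k : ℕ} {s t : Bool} {z : G} (h : Wd L c X2 ∅ k s t z) (hk : k = 0) :
    s = t ∧ z ∈ L := by
  cases h with
  | base h => exact ⟨rfl, h⟩
  | cons _ _ => exact absurd hk (Nat.succ_ne_zero _)

theorem wd_true {k : ℕ} {t : Bool} {z : G} (h : Wd L c X2 ∅ (k + 1) true t z) :
    ∃ x z', x ∈ X2 ∧ Wd L c X2 ∅ k false t z' ∧ z = x * z' := by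
  cases h with
  | @cons _ _ r _ x z' hx hz =>
    cases r with
    | true => exact absurd hx (Set.notMem_empty _)
    | false => exact ⟨x, z', hx, hz, rfl⟩

theorem wd_false {k : ℕ} {t : Bool} {z : G} (h : Wd L c X2 ∅ (k + 1) false t z) :
    ∃ x z', x ∈ c ∧ Wd L c X2 ∅ k true t z' ∧ z = x * z' := by
  cases h with
  | @cons _ _ r _ x z' hx hz =>
    cases r with
    | true => exact ⟨x, z', hx, hz, rfl⟩
    | false =>
      exfalso
      have h1 : x ∈ Xinv (∅ : Set G) := hx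
      exact absurd h1 (Set.notMem_empty _)

theorem sub1 (hP : PPK L X1 X2 ∅ Yp Ym) (hc : Pt L X1 c) : Sub1 L X1 X2 ∅ Yp Ym c :=
  ⟨hP.toPingPong, hc.sub, hc.bi, hc.inv⟩

/-- (4) and (5) -/
theorem uniq (hP : PPK L X1 X2 ∅ Yp Ym) (hc : Pt L X1 c) (t : Bool) (S : Set G)
    (hS : ∀ y ∈ S, y ∈ YB Yp Ym t)
    (hN : ∀ h ∈ L, ∀ (k : ℕ) (w : G), Wd L c X2 ∅ (k + 1) t t w → ∀ y ∈ S, ∀ y' ∈ S,
      h * y ≠ w * y') :
    ∀ (k k' : ℕ) (s : Bool) (w w' y y' : G), Wd L c X2 ∅ k s t w → Wd L c X2 ∅ k' s t w' →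
      y ∈ S → y' ∈ S → w * y = w' * y' → w⁻¹ * w' ∈ L := by
  obtain ⟨a1, a2, a3, a4, a5⟩ := mWDA G L X1 X2 ∅ Yp Ym c (sub1 hP hc)
  intro k
  induction k with
  | zero =>
    intro k' s w w' y y' hw hw' hy hy' he
    obtain ⟨hst, hwL⟩ := wd_zero hw rfl
    subst hst
    cases k' with
    | zero => exact L.mul_mem (L.inv_mem hwL) (wd_zero hw' rfl).2
    | succ k' => exact absurd he (hN w hwL k' w' hw' y hy y' hy')
  | succ k ih =>
    intro k' s w w' y y' hw hw' hy hy' he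
    cases k' with
    | zero =>
      obtain ⟨hst, hwL⟩ := wd_zero hw' rfl
      subst hst
      exact absurd he.symm (hN w' hwL k w hw y' hy' y hy)
    | succ k' =>
      cases s with
      | true =>
        obtain ⟨x, w1, hx, hw1, rfl⟩ := wd_true hw
        obtain ⟨x', w1', hx', hw1', rfl⟩ := wd_true hw'
        have m1 : w1 * y ∈ Ym := a4 k false t w1 y hw1 (hS y hy)
        have m2 : w1' * y' ∈ Ym := a4 k' false t w1' y' hw1' (hS y' hy')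
        have e1 : x * (w1 * y) = x' * (w1' * y') := by rw [← mul_assoc, ← mul_assoc, he]
        have hl := hP.u2 x hx x' hx' _ m1 _ m2 e1
        have e2 : w1 * y = (x⁻¹ * x' * w1') * y' := by
          have := congrArg (fun g => x⁻¹ * g) e1
          simpa [mul_assoc] using this
        have h3 := ih k' false w1 (x⁻¹ * x' * w1') y y' hw1 (a1 k' false t w1' _ hl hw1').1 hy hy' e2
        have e4 : (x * w1)⁻¹ * (x' * w1') = w1⁻¹ * (x⁻¹ * x' * w1') := by group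
        rw [e4]
        exact h3
      | false =>
        obtain ⟨x, w1, hx, hw1, rfl⟩ := wd_false hw
        obtain ⟨x', w1', hx', hw1', rfl⟩ := wd_false hw'
        have m1 : w1 * y ∈ Yp := a4 k true t w1 y hw1 (hS y hy)
        have m2 : w1' * y' ∈ Yp := a4 k' true t w1' y' hw1' (hS y' hy')
        have e1 : x * (w1 * y) = x' * (w1' * y') := by rw [← mul_assoc, ← mul_assoc, he]
        have hl := hP.u1 x (hc.sub x hx) x' (hc.sub x' hx') _ m1 _ m2 e1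
        have e2 : w1 * y = (x⁻¹ * x' * w1') * y' := by
          have := congrArg (fun g => x⁻¹ * g) e1
          simpa [mul_assoc] using this
        have h3 := ih k' true w1 (x⁻¹ * x' * w1') y y' hw1 (a1 k' true t w1' _ hl hw1').1 hy hy' e2
        have e4 : (x * w1)⁻¹ * (x' * w1') = w1⁻¹ * (x⁻¹ * x' * w1') := by group
        rw [e4]
        exact h3

end

end DWUM

open DWUM in
theorem specDWU : SpecDWU := by
  intro G _ L X1 X2 Yp Ym c1 c2 hP h1 h2 h12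
  obtain ⟨a1, a2, a3, a4, a5⟩ := mWDA G L X1 X2 ∅ Yp Ym c1 (sub1 hP h1)
  obtain ⟨b1, b2, b3, b4, b5⟩ := mWDA G L X1 X2 ∅ Yp Ym c2 (sub1 hP h2)
  obtain ⟨-, hK⟩ := mWDK G L X1 X2 ∅ Yp Ym hP
  have hK1 := (hK c1 (sub1 hP h1)).1
  have hK2 := (hK c2 (sub1 hP h2)).1
  have p1 : ∀ s y, y ∈ YS L (V1 L c2 X2) (V3 L c1 X2) s → y ∈ YB Yp Ym s := by
    intro s y hy
    have hy' : YK L (V1 L c2 X2) (V3 L c1 X2) s y := hy
    clear hy
    induction hy' with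
    | @base s l hl =>
      cases s with
      | true =>
        have := hP.Ypl l hl 1 hP.Yp1
        rw [mul_one] at this
        exact this
      | false =>
        have := hP.Yml l hl 1 hP.Ym1
        rw [mul_one] at this
        exact this
    | @sa x y hx hz ih =>
      obtain ⟨k, hk⟩ := hx
      exact b4 k false true x y hk ih
    | @sb x y hx hz ih =>
      obtain ⟨k, -, hk⟩ := hx
      exact a4 k true false x y hk ih
  have p2 : ∀ y, y ∈ YS L (V1 L c2 X2) (V3 L c1 X2) true → y ∈ L ∨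
      ∃ z0 ∈ X2, ∃ e0 ∈ c1, ∃ y' ∈ Yp, y = z0 * (e0 * y') := by
    intro y hy
    have hy' : YK L (V1 L c2 X2) (V3 L c1 X2) true y := hy
    cases hy' with
    | base hl => exact Or.inl hl
    | @sb x y hx hz =>
      right
      obtain ⟨k, hk3, hk⟩ := hx
      obtain ⟨k, rfl⟩ : ∃ j, k = j + 1 + 1 := ⟨k - 2, by omega⟩
      obtain ⟨z0, z', hz0, hz', rfl⟩ := wd_true hk
      obtain ⟨e0, z'', he0, hz'', rfl⟩ := wd_false hz'
      refine ⟨z0, hz0, e0, he0, z'' * y, a4 k true false z'' y hz'' (p1 false y hz), ?_⟩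
      group
  have p3 : ∀ y, y ∈ YS L (V1 L c2 X2) (V3 L c1 X2) false → y ∈ L ∨
      ∃ e0 ∈ c2, ∃ y' ∈ Yp, y = e0 * y' := by
    intro y hy
    have hy' : YK L (V1 L c2 X2) (V3 L c1 X2) false y := hy
    cases hy' with
    | base hl => exact Or.inl hl
    | @sa x y hx hz =>
      right
      obtain ⟨k, hk⟩ := hx
      cases k with
      | zero => exact absurd (wd_zero hk rfl).1 Bool.false_ne_true
      | succ k =>
        obtain ⟨e0, z', he0, hz', rfl⟩ := wd_false hk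
        refine ⟨e0, he0, z' * y, b4 k true true z' y hz' (p1 true y hz), ?_⟩
        group
  refine ⟨p1, ?_, ?_⟩
  · intro x hx x' hx' y hy y' hy' he
    obtain ⟨k, hk⟩ := hx
    obtain ⟨k', hk'⟩ := hx'
    refine uniq hP h2 true (YS L (V1 L c2 X2) (V3 L c1 X2) true) (p1 true) ?_ k k' false x x' y y'
      hk hk' hy hy' he
    intro h hh j w hw u hu u' hu' he
    rcases p2 u hu with hL | ⟨z0, hz0, e0, he0, u1, hu1, rfl⟩
    · exact hK2 j true true w u' hw (p1 true u' hu') (he ▸ L.mul_mem hh hL)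
    · obtain ⟨v, w1, hv, hw1, rfl⟩ := wd_true hw
      cases j with
      | zero => exact absurd (wd_zero hw1 rfl).1 Bool.false_ne_true
      | succ j =>
        obtain ⟨e, w2, hee, hw2, rfl⟩ := wd_false hw1
        have hwu : w2 * u' ∈ Yp := b4 j true true w2 u' hw2 (p1 true u' hu')
        have q1 : h * z0 ∈ X2 := hP.X2l h hh z0 hz0
        have q2 : e0 * u1 ∈ Ym := hP.X1Y e0 (h1.sub e0 he0) u1 hu1
        have q3 : e * (w2 * u') ∈ Ym := hP.X1Y e (h2.sub e hee) _ hwu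
        have q4 : (h * z0) * (e0 * u1) = v * (e * (w2 * u')) := by
          have : (h * z0) * (e0 * u1) = h * (z0 * (e0 * u1)) := by group
          rw [this, he]
          group
        have hl := hP.u2 _ q1 v hv _ q2 _ q3 q4
        have q5 : e0 * u1 = ((h * z0)⁻¹ * v * e) * (w2 * u') := by
          have := congrArg (fun g => (h * z0)⁻¹ * g) q4
          simpa [mul_assoc] using this
        have q6 : (h * z0)⁻¹ * v * e ∈ c2 := h2.bi.1 _ hl e hee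
        have q7 := hP.u1 e0 (h1.sub e0 he0) _ (h2.sub _ q6) u1 hu1 _ hwu q5
        have q8 : e0 * (e0⁻¹ * ((h * z0)⁻¹ * v * e)) ∈ c1 := h1.bi.2 _ q7 e0 he0
        rw [mul_inv_cancel_left] at q8
        exact h12 _ q8 q6
  · intro x hx x' hx' y hy y' hy' he
    obtain ⟨k, -, hk⟩ := hx
    obtain ⟨k', -, hk'⟩ := hx'
    refine uniq hP h1 false (YS L (V1 L c2 X2) (V3 L c1 X2) false) (p1 false) ?_ k k' true x x' y y'
      hk hk' hy hy' he
    intro h hh j w hw u hu u' hu' he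
    rcases p3 u hu with hL | ⟨e0, he0, u1, hu1, rfl⟩
    · exact hK1 j false false w u' hw (p1 false u' hu') (he ▸ L.mul_mem hh hL)
    · obtain ⟨e, w1, hee, hw1, rfl⟩ := wd_false hw
      have hwu : w1 * u' ∈ Yp := a4 j true false w1 u' hw1 (p1 false u' hu')
      have q1 : h * e0 ∈ c2 := h2.bi.1 h hh e0 he0
      have q4 : (h * e0) * u1 = e * (w1 * u') := by
        have : (h * e0) * u1 = h * (e0 * u1) := by group
        rw [this, he]
        group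
      have hl := hP.u1 _ (h2.sub _ q1) e (h1.sub e hee) u1 hu1 _ hwu q4
      have q8 : (h * e0) * ((h * e0)⁻¹ * e) ∈ c2 := h2.bi.2 _ hl _ q1
      rw [mul_inv_cancel_left] at q8
      exact h12 _ hee q8

end Pool.Agent.Lib.MPb6f35e.TT.LL

/-! ## Module LL/FML -/

/-! # LL, module FML (helper15): the formula -/

set_option autoImplicit false

namespace Pool.Agent.Lib.MPb6f35e.TT.LL

open Matrix Pool.Agent.Lib.MPb6f35e.TT.UV Pool.Agent.Lib.MPb6f35e.TT.AU Pool.Agent.Lib.MPb6f35e.TT.RO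
open Pool.Agent.Lib.MPb6f35e.TT.ROK

namespace FMLM

section

variable {A : Type} [Ring A] {n : ℕ}

theorem esq (ε : ℤˣ) {m k : Type} (X : Matrix m k A) : (ε : ℤ) • (ε : ℤ) • X = X := by
  rcases Int.units_eq_one_or ε with h | h <;> simp [h]

theorem star_smul' [StarRing A] (ε : ℤˣ) {m k : Type} (X : Matrix m k A) :
    ((ε : ℤ) • X)ᴴ = (ε : ℤ) • Xᴴ := by
  rcases Int.units_eq_one_or ε with h | h <;> simp [h]

theorem Tn_inv (ε : ℤˣ) (N : ℕ) (a b : Matrix (Fin n) (Fin n) A)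
    (h : ((ε : ℤ) • (a * b)) ^ N = 0) :
    Tn ε N a b * (1 - (ε : ℤ) • (a * b)) = 1 ∧ (1 - (ε : ℤ) • (a * b)) * Tn ε N a b = 1 := by
  have h1 := geom_sum_mul_neg ((ε : ℤ) • (a * b)) N
  have h2 := mul_neg_geom_sum ((ε : ℤ) • (a * b)) N
  rw [h, sub_zero] at h1 h2
  exact ⟨h1, h2⟩

theorem pow_comm (ε : ℤˣ) (a b : Matrix (Fin n) (Fin n) A) (i : ℕ) :
    ((ε : ℤ) • (b * a)) ^ i * b = b * ((ε : ℤ) • (a * b)) ^ i := by
  induction i with
  | zero => simp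
  | succ i ih =>
    have h : ((ε : ℤ) • (b * a)) * b = b * ((ε : ℤ) • (a * b)) := by
      rw [Matrix.smul_mul, Matrix.mul_smul, Matrix.mul_assoc]
    rw [pow_succ, Matrix.mul_assoc, h, ← Matrix.mul_assoc, ih, Matrix.mul_assoc, ← pow_succ]

theorem Tn_comm (ε : ℤˣ) (N : ℕ) (a b : Matrix (Fin n) (Fin n) A) :
    Tn ε N b a * b = b * Tn ε N a b := by
  unfold Tn
  rw [Finset.sum_mul, Finset.mul_sum]
  exact Finset.sum_congr rfl fun i _ => pow_comm ε a b i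

theorem Tn_star [StarRing A] (ε : ℤˣ) (N : ℕ) (a b : Matrix (Fin n) (Fin n) A)
    (ha : aᴴ = (ε : ℤ) • a) (hb : bᴴ = (ε : ℤ) • b) : (Tn ε N a b)ᴴ = Tn ε N b a := by
  unfold Tn
  rw [conjTranspose_sum]
  refine Finset.sum_congr rfl fun i _ => ?_
  rw [conjTranspose_pow, star_smul', conjTranspose_mul, ha, hb, Matrix.smul_mul, Matrix.mul_smul,
    esq]

theorem nu_pow [StarRing A] (ε : ℤˣ) (a b : Matrix (Fin n) (Fin n) A) (k : ℕ) :
    ((nu ε a 0 b) ^ 2) ^ k =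
      fromBlocks (((ε : ℤ) • (b * a)) ^ k) 0 0 (((ε : ℤ) • (a * b)) ^ k) := by
  have h2 : (nu ε a 0 b) ^ 2 = fromBlocks ((ε : ℤ) • (b * a)) 0 0 ((ε : ℤ) • (a * b)) := by
    unfold nu
    rw [pow_two, fromBlocks_multiply]
    rcases Int.units_eq_one_or ε with h | h <;> simp [h]
  induction k with
  | zero => simp [fromBlocks_one]
  | succ k ih =>
    rw [pow_succ, ih, h2, fromBlocks_multiply, pow_succ, pow_succ]
    simp

theorem pow_zero_of_nu [StarRing A] (ε : ℤˣ) (N : ℕ) (a b : Matrix (Fin n) (Fin n) A)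
    (h : (nu ε a 0 b) ^ N = 0) :
    ((ε : ℤ) • (a * b)) ^ N = 0 ∧ ((ε : ℤ) • (b * a)) ^ N = 0 := by
  have h1 : ((nu ε a 0 b) ^ 2) ^ N = 0 := by
    rw [← pow_mul, mul_comm, pow_mul, h]
    exact zero_pow two_ne_zero
  rw [nu_pow, ← fromBlocks_zero, fromBlocks_inj] at h1
  exact ⟨h1.2.2.2, h1.1⟩

/-- The second part. -/
theorem half [StarRing A] (ε : ℤˣ) (σ : Matrix (Fin n) (Fin n) A) :
    StablyHyperbolic ε (UF σ 0 0) := by
  refine SWPAux.stab_of_isom (Φ := UF 0 0 0) ?_ (SWPAux.trivial_form n)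
  refine ⟨fromBlocks 1 0 (-σ) 1, fromBlocks 1 0 σ 1, 0, ?_, ?_, ?_⟩
  · rw [fromBlocks_multiply]
    simp [fromBlocks_one]
  · rw [fromBlocks_multiply]
    simp [fromBlocks_one]
  · unfold UF
    rw [fromBlocks_conjTranspose, fromBlocks_multiply, fromBlocks_multiply]
    simp

end

end FMLM

open FMLM in
theorem specFML : SpecFML := by
  intro A _ _ ε n
  refine ⟨?_, fun σ => half ε σ⟩
  intro N ψ1 ψ2 χ hν h1 h2
  set a := ψ1 + (ε : ℤ) • ψ1ᴴ with ha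
  set b := χ + (ε : ℤ) • χᴴ with hb
  have hae : aᴴ = (ε : ℤ) • a := by
    rw [ha, conjTranspose_add, star_smul', conjTranspose_conjTranspose, smul_add, esq, add_comm]
  have hbe : bᴴ = (ε : ℤ) • b := by
    rw [hb, conjTranspose_add, star_smul', conjTranspose_conjTranspose, smul_add, esq, add_comm]
  obtain ⟨hab, hba⟩ := pow_zero_of_nu ε N a b hν
  set T := Tn ε N a b with hT
  set T' := Tn ε N b a with hT'
  obtain ⟨hT1, hT2⟩ := Tn_inv ε N a b hab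
  obtain ⟨hT'1, hT'2⟩ := Tn_inv ε N b a hba
  rw [← hT] at hT1 hT2
  rw [← hT'] at hT'1 hT'2
  have hTs : Tᴴ = T' := Tn_star ε N a b hae hbe
  have hc1 : T' * b = b * T := Tn_comm ε N a b
  have hc2 : T * a = a * T' := Tn_comm ε N b a
  have hT2e : (ε : ℤ) • (a * (b * T)) = T - 1 := by
    rw [Matrix.sub_mul, Matrix.one_mul, Matrix.smul_mul, Matrix.mul_assoc] at hT2
    rw [← hT2]; abel
  have hT1e : (ε : ℤ) • (T * (a * b)) = T - 1 := by
    rw [Matrix.mul_sub, Matrix.mul_one, Matrix.mul_smul] at hT1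
    rw [← hT1]; abel
  have hT'2e : (ε : ℤ) • (b * (a * T')) = T' - 1 := by
    rw [Matrix.sub_mul, Matrix.one_mul, Matrix.smul_mul, Matrix.mul_assoc] at hT'2
    rw [← hT'2]; abel
  have hT'1e : (ε : ℤ) • (T' * (b * a)) = T' - 1 := by
    rw [Matrix.mul_sub, Matrix.mul_one, Matrix.mul_smul] at hT'1
    rw [← hT'1]; abel
  have hΛ : UF ψ1 0 χ + (ε : ℤ) • (UF ψ1 0 χ)ᴴ = fromBlocks a 1 ((ε : ℤ) • 1) b := by
    unfold UF
    rw [fromBlocks_conjTranspose, fromBlocks_smul, fromBlocks_add]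
    simp [ha, hb]
  set Φi : Matrix (Fin n ⊕ Fin n) (Fin n ⊕ Fin n) A :=
    fromBlocks (-((ε : ℤ) • (b * T))) ((ε : ℤ) • T') T (-((ε : ℤ) • (a * T'))) with hΦi
  have hΦ1 : (UF ψ1 0 χ + (ε : ℤ) • (UF ψ1 0 χ)ᴴ) * Φi = 1 := by
    rw [hΛ, hΦi, fromBlocks_multiply, ← fromBlocks_one]
    congr 1
    · rw [Matrix.mul_neg, Matrix.mul_smul, hT2e, Matrix.one_mul]; abel
    · rw [Matrix.mul_smul, Matrix.one_mul]; abel
    · rw [Matrix.smul_mul, Matrix.one_mul, smul_neg, esq]; abel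
    · rw [Matrix.smul_mul, Matrix.one_mul, esq, Matrix.mul_neg, Matrix.mul_smul, hT'2e]; abel
  have hΦ2 : Φi * (UF ψ1 0 χ + (ε : ℤ) • (UF ψ1 0 χ)ᴴ) = 1 := by
    rw [hΛ, hΦi, fromBlocks_multiply, ← fromBlocks_one]
    congr 1
    · rw [Matrix.neg_mul, Matrix.smul_mul, ← hc1, Matrix.mul_assoc, hT'1e, Matrix.mul_smul,
        Matrix.mul_one, esq]; abel
    · rw [Matrix.mul_one, Matrix.smul_mul, hc1]; abel
    · rw [Matrix.mul_smul, Matrix.mul_one, smul_neg, esq, hc2]; abel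
    · rw [Matrix.mul_one, Matrix.neg_mul, Matrix.smul_mul, ← hc2, Matrix.mul_assoc, hT1e]; abel
  let Ξ : Matrix (Fin n) (Fin n ⊕ Fin n) A := fromCols 1 0
  have hΞ : Ξᴴ = fromRows 1 0 := by
    change (fromCols 1 0)ᴴ = _
    rw [conjTranspose_fromCols_eq_fromRows_conjTranspose, conjTranspose_zero, conjTranspose_one]
  have hZ : Φi * Ξᴴ = fromRows (-((ε : ℤ) • (b * T))) T := by
    rw [hΞ, hΦi, fromBlocks_mul_fromRows]
    simp
  have hz1 : (-((ε : ℤ) • (b * T)))ᴴ = -(T' * b) := by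
    rw [conjTranspose_neg, star_smul', conjTranspose_mul, hTs, hbe, Matrix.mul_smul, esq]
  have hκ : -((Φi * Ξᴴ)ᴴ * UF ψ1 0 χ * (Φi * Ξᴴ)) =
      χ + rho ε N ψ1 χ + (ε : ℤ) • χᴴ - (ε : ℤ) • ((ε : ℤ) • χᴴ)ᴴ := by
    rw [hZ]
    unfold UF
    rw [EMVAux.rows_form, hz1, hTs, star_smul', conjTranspose_conjTranspose, esq]
    unfold rho
    rw [← ha, ← hb, ← hT, ← hT']
    have e1 : -(T' * b) * ψ1 * -((ε : ℤ) • (b * T)) = (ε : ℤ) • (T' * b * ψ1 * b * T) := by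
      rw [Matrix.mul_neg, Matrix.neg_mul, Matrix.neg_mul, neg_neg, Matrix.mul_smul]
      simp only [Matrix.mul_assoc]
    have e2 : (ε : ℤ) • (T' * χᴴ * T) = T' * b * T - T' * χ * T := by
      rw [hb, Matrix.mul_add, Matrix.add_mul, Matrix.mul_smul, Matrix.smul_mul]
      abel
    have e3 : -(T' * b) * (1 + (0 : Matrix (Fin n) (Fin n) A)ᴴ) * T = -(T' * b * T) := by
      simp
    rw [e1, e3, smul_sub, e2]
    simp
    abel
  have h3 := (specSwp A ε n ψ2 0 (χ + rho ε N ψ1 χ)).2.1 0 ((ε : ℤ) • χᴴ) h2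
  have h4 := RO.specSCH A ε (Fin n ⊕ Fin n) (Fin n) (UF ψ1 0 χ) Φi Ξ ψ2 hΦ1 hΦ2 h1 (by
    rw [hκ]
    have h5 : UF (ψ2 + 0 - (ε : ℤ) • (0 : Matrix (Fin n) (Fin n) A)ᴴ) 0
        (χ + rho ε N ψ1 χ + (ε : ℤ) • χᴴ - (ε : ℤ) • ((ε : ℤ) • χᴴ)ᴴ) =
        fromBlocks ψ2 1 0
          (χ + rho ε N ψ1 χ + (ε : ℤ) • χᴴ - (ε : ℤ) • ((ε : ℤ) • χᴴ)ᴴ) := by
      unfold UF
      simp
    rw [← h5]
    exact h3)
  have h7 : UF ψ1 0 χ + Ξᴴ * ψ2 * Ξ = UF (ψ1 + ψ2) 0 χ := by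
    rw [hΞ]
    change UF ψ1 0 χ + fromRows 1 0 * ψ2 * fromCols 1 0 = _
    rw [fromRows_mul, fromRows_mul_fromCols]
    unfold UF
    rw [fromBlocks_add]
    simp
  rw [h7] at h4
  exact h4

end Pool.Agent.Lib.MPb6f35e.TT.LL

/-! ## Module LL/FMR -/

/-!
# LL, module FMR: the polarization of `rho` and the nilpotency index
-/

set_option autoImplicit false

namespace Pool.Agent.Lib.MPb6f35e.TT.LL

open Matrix Pool.Agent.Lib.MPb6f35e.TT.UV Pool.Agent.Lib.MPb6f35e.TT.AU Pool.Agent.Lib.MPb6f35e.TT.RO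
open Pool.Agent.Lib.MPb6f35e.TT.ROK

namespace FMRM

section One

variable {A : Type} [Ring A] [StarRing A] {n : ℕ}

theorem ct_smul (ε : ℤˣ) (M : Matrix (Fin n) (Fin n) A) :
    ((ε : ℤ) • M)ᴴ = (ε : ℤ) • Mᴴ := by
  rcases Int.units_eq_one_or ε with rfl | rfl <;> simp

omit [StarRing A] in
theorem ss (ε : ℤˣ) (M : Matrix (Fin n) (Fin n) A) : (ε : ℤ) • ((ε : ℤ) • M) = M := by
  rcases Int.units_eq_one_or ε with rfl | rfl <;> simp

theorem ct_pol (ε : ℤˣ) (ψ : Matrix (Fin n) (Fin n) A) :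
    (ψ + (ε : ℤ) • ψᴴ)ᴴ = (ε : ℤ) • (ψ + (ε : ℤ) • ψᴴ) := by
  rw [conjTranspose_add, ct_smul, conjTranspose_conjTranspose, smul_add, ss, add_comm]

theorem ct_Tn (ε : ℤˣ) (N : ℕ) {a b : Matrix (Fin n) (Fin n) A} (ha : aᴴ = (ε : ℤ) • a)
    (hb : bᴴ = (ε : ℤ) • b) : (Tn ε N a b)ᴴ = Tn ε N b a := by
  unfold Tn
  rw [conjTranspose_sum]
  refine Finset.sum_congr rfl fun i _ => ?_
  rw [conjTranspose_pow, ct_smul, conjTranspose_mul, ha, hb, smul_mul_smul_comm]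
  congr 2
  rcases Int.units_eq_one_or ε with rfl | rfl <;> simp

/-- The powers of the block matrix. -/
theorem nu_pow_two (ε : ℤˣ) (a b : Matrix (Fin n) (Fin n) A) (N : ℕ) :
    (nu ε a 0 b) ^ (2 * N) =
      fromBlocks (((ε : ℤ) • (b * a)) ^ N) 0 0 (((ε : ℤ) • (a * b)) ^ N) := by
  have h2 : (nu ε a 0 b) ^ 2 = fromBlocks ((ε : ℤ) • (b * a)) 0 0 ((ε : ℤ) • (a * b)) := by
    rw [pow_two, nu, fromBlocks_multiply]
    simp only [conjTranspose_zero, mul_zero, zero_mul, zero_add, add_zero, smul_mul_assoc,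
      mul_smul_comm, smul_zero]
  induction N with
  | zero => simp [fromBlocks_one]
  | succ N ih =>
    rw [Nat.mul_succ, pow_add, ih, h2, fromBlocks_multiply, pow_succ, pow_succ]
    simp

theorem ab_zero {ε : ℤˣ} {a b : Matrix (Fin n) (Fin n) A} {N : ℕ}
    (h : (nu ε a 0 b) ^ N = 0) :
    ((ε : ℤ) • (b * a)) ^ N = 0 ∧ ((ε : ℤ) • (a * b)) ^ N = 0 := by
  have h2 : (nu ε a 0 b) ^ (2 * N) = 0 := by
    rw [two_mul, pow_add, h, zero_mul]
  rw [nu_pow_two] at h2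
  have h3 : fromBlocks (((ε : ℤ) • (b * a)) ^ N) 0 0 (((ε : ℤ) • (a * b)) ^ N) =
      fromBlocks (0 : Matrix (Fin n) (Fin n) A) 0 0 0 := by
    rw [h2, fromBlocks_zero]
  rw [fromBlocks_inj] at h3
  exact ⟨h3.1, h3.2.2.2⟩

omit [StarRing A] in
theorem mul_Tn {ε : ℤˣ} {a b : Matrix (Fin n) (Fin n) A} {N : ℕ}
    (h : ((ε : ℤ) • (a * b)) ^ N = 0) : (1 - (ε : ℤ) • (a * b)) * Tn ε N a b = 1 := by
  unfold Tn
  rw [mul_neg_geom_sum, h, sub_zero]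

theorem pol_rho (ε : ℤˣ) (N : ℕ) (ψ χ : Matrix (Fin n) (Fin n) A)
    (h : (nu ε (ψ + (ε : ℤ) • ψᴴ) 0 (χ + (ε : ℤ) • χᴴ)) ^ N = 0) :
    rho ε N ψ χ + (ε : ℤ) • (rho ε N ψ χ)ᴴ =
      Tn ε N (χ + (ε : ℤ) • χᴴ) (ψ + (ε : ℤ) • ψᴴ) * (χ + (ε : ℤ) • χᴴ) -
        (χ + (ε : ℤ) • χᴴ) := by
  have ha := ct_pol ε ψ
  have hb := ct_pol ε χ
  have h1 := mul_Tn (ab_zero h).2
  have hψ : (ε : ℤ) • (ψ + (ε : ℤ) • ψᴴ) = ψᴴ + (ε : ℤ) • ψ := by
    rw [smul_add, ss, add_comm]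
  have hχ : (ε : ℤ) • (χ + (ε : ℤ) • χᴴ) = χᴴ + (ε : ℤ) • χ := by
    rw [smul_add, ss, add_comm]
  unfold rho
  generalize ha' : ψ + (ε : ℤ) • ψᴴ = a at *
  generalize hb' : χ + (ε : ℤ) • χᴴ = b at *
  have hT := ct_Tn ε N ha hb
  have hT' := ct_Tn ε N hb ha
  generalize hT1 : Tn ε N a b = T at *
  generalize hT2 : Tn ε N b a = T' at *
  have e1 : (T' * χᴴ * T)ᴴ = T' * χ * T := by
    rw [conjTranspose_mul, conjTranspose_mul, conjTranspose_conjTranspose, hT, hT', mul_assoc]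
  have e2 : (T' * b * ψ * b * T)ᴴ = T' * b * ψᴴ * b * T := by
    rw [conjTranspose_mul, conjTranspose_mul, conjTranspose_mul, conjTranspose_mul, hT, hT', hb]
    rcases Int.units_eq_one_or ε with rfl | rfl <;> simp [mul_assoc]
  rw [conjTranspose_sub, ct_smul, ct_smul, conjTranspose_sub, e1, e2,
    conjTranspose_conjTranspose]
  simp only [smul_sub, ss]
  have e3 : T' * b = T' * b * ((1 - (ε : ℤ) • (a * b)) * T) := by rw [h1, mul_one]
  have e4 : T' * b * ((1 - (ε : ℤ) • (a * b)) * T) =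
      T' * b * T - (ε : ℤ) • (T' * b * a * b * T) := by
    rw [sub_mul, one_mul, mul_sub, smul_mul_assoc, mul_smul_comm]
    simp only [mul_assoc]
  have e5 : T' * b * T = T' * χ * T + (ε : ℤ) • (T' * χᴴ * T) := by
    nth_rewrite 1 [← hb']
    rw [mul_add, add_mul, mul_smul_comm, smul_mul_assoc]
  have e6 : T' * b * a * b * T = T' * b * ψ * b * T + (ε : ℤ) • (T' * b * ψᴴ * b * T) := by
    nth_rewrite 1 [← ha']
    rw [mul_add, add_mul, add_mul, mul_smul_comm, smul_mul_assoc, smul_mul_assoc]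
  have e7 : T' * b - b = T' * χ * T + (ε : ℤ) • (T' * χᴴ * T) -
      ((ε : ℤ) • (T' * b * ψ * b * T) + T' * b * ψᴴ * b * T) - (χ + (ε : ℤ) • χᴴ) := by
    rw [hb']
    refine congrArg (fun x => x - b) ?_
    rw [e4, e5, e6, smul_add, ss] at e3
    exact e3
  rw [e7]
  abel

end One

section Two

variable {A : Type} [Ring A] [StarRing A] {n N : ℕ}
  {E : ℕ → Bool → Bool → AddSubgroup (Matrix (Fin n) (Fin n) A)}

theorem pow_mul_mem (hE : EFam E N) (s : Bool) {M q : Matrix (Fin n) (Fin n) A}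
    (hM : M ∈ E 2 s s) (hq : q ∈ E 1 s (!s)) :
    ∀ i : ℕ, M ^ i * q ∈ E (2 * i + 1) s (!s) := by
  intro i
  induction i with
  | zero => simpa using hq
  | succ i ih =>
    rw [pow_succ', mul_assoc]
    have h := hE.mul 2 (2 * i + 1) s s (!s) _ _ hM ih
    have e : 2 + (2 * i + 1) = 2 * (i + 1) + 1 := by ring
    rw [e] at h
    exact h

theorem Tn_mem (hE : EFam E N) (hN : 1 ≤ N) (ε : ℤˣ) (s : Bool)
    {a b : Matrix (Fin n) (Fin n) A} (ha : a ∈ E 1 (!s) s) (hb : b ∈ E 1 s (!s)) :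
    Tn ε N b a * b - b ∈ E 3 s (!s) := by
  have hM : (ε : ℤ) • (b * a) ∈ E 2 s s :=
    AddSubgroup.zsmul_mem _ (hE.mul 1 1 s (!s) s b a hb ha) _
  obtain ⟨k, rfl⟩ : ∃ k, N = k + 1 := ⟨N - 1, by omega⟩
  unfold Tn
  rw [Finset.sum_range_succ', pow_zero, add_mul, one_mul, add_sub_cancel_right, Finset.sum_mul]
  apply AddSubgroup.sum_mem
  intro i _
  exact hE.mono 3 (2 * (i + 1) + 1) s (!s) (by omega) (pow_mul_mem hE s hM hb (i + 1))

end Two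

end FMRM

open FMRM in
/-- **FMR**. -/
theorem specFMR : SpecFMR := by
  intro A _ _ ε n N
  refine ⟨fun ψ χ h => pol_rho ε N ψ χ h, fun E hE hN => ⟨fun s a ha b hb =>
    Tn_mem hE hN ε s ha hb, fun h3 s' hs' r hr => ?_⟩⟩
  obtain ⟨k, rfl⟩ : ∃ k, N = k + 3 := ⟨N - 3, by omega⟩
  have e : k + 3 - 1 = (k + 1) + 1 := by omega
  obtain ⟨m11, m12, m21, m22, h11, h12, h21, h22, h⟩ := NENAux.nu_pow hE ε hs' hr (k + 1)
  rw [e, h, NENAux.eq_zero hE (by omega) h11, NENAux.eq_zero hE (by omega) h12,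
    NENAux.eq_zero hE (by omega) h21, NENAux.eq_zero hE (by omega) h22, fromBlocks_zero]

end Pool.Agent.Lib.MPb6f35e.TT.LL

/-! ## Module LL/LNR -/

/-!
# MP_8a3537_gt, LL: module LNR (helper21), additivity
-/

set_option autoImplicit false

namespace Pool.Agent.Lib.MPb6f35e.TT.LL

open Matrix Pool.Agent.Lib.MPb6f35e.TT.UV Pool.Agent.Lib.MPb6f35e.TT.AU Pool.Agent.Lib.MPb6f35e.TT.RO
open Pool.Agent.Lib.MPb6f35e.TT.ROK

namespace LNRM

section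

variable {A : Type} [Ring A] [StarRing A] {n : ℕ}

/-- Exchange. -/
theorem swap (ε : ℤˣ) (ψ χ : Matrix (Fin n) (Fin n) A) (h : StablyHyperbolic ε (UF χ 0 ψ)) :
    StablyHyperbolic ε (UF ψ 0 χ) := by
  refine (specSwp A ε n ψ 0 χ).1 ?_
  rw [conjTranspose_zero]
  exact h

end

section

variable {R G : Type} [Ring R] [StarRing R] [Group G] {n : ℕ}

theorem supp_pol (ε : ℤˣ) {c : Set G} (hi : ∀ x ∈ c, x⁻¹ ∈ c)
    {ψ : Matrix (Fin n) (Fin n) (MonoidAlgebra R G)} (hψ : SuppIn c ψ) :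
    SuppIn c (ψ + (ε : ℤ) • ψᴴ) := by
  intro i j x h
  rw [NWTAux.coeff_sym] at h
  by_cases h1 : (ψ i j).coeff x = 0
  · have h2 : (ψ j i).coeff x⁻¹ ≠ 0 := by
      intro h2
      apply h
      rw [h1, h2, star_zero, smul_zero, add_zero]
    have h3 := hi _ (hψ j i x⁻¹ h2)
    rwa [inv_inv] at h3
  · exact hψ i j x h1

theorem supp_mono {c X : Set G} (h : ∀ x ∈ c, x ∈ X)
    {ψ : Matrix (Fin n) (Fin n) (MonoidAlgebra R G)} (hψ : SuppIn c ψ) : SuppIn X ψ :=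
  fun i j x hx => h x (hψ i j x hx)

theorem supp_add {X : Set G} {ψ ψ' : Matrix (Fin n) (Fin n) (MonoidAlgebra R G)}
    (hψ : SuppIn X ψ) (hψ' : SuppIn X ψ') : SuppIn X (ψ + ψ') := by
  intro i j x h
  by_cases h1 : (ψ i j).coeff x = 0
  · refine hψ' i j x fun h2 => h ?_
    rw [Matrix.add_apply, MonoidAlgebra.coeff_add, Finsupp.add_apply, h1, h2, add_zero]
  · exact hψ i j x h1

/-- The part of a sum of two matrices with disjoint supports. -/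
theorem cut_part {c c' : Set G} {a a' : Matrix (Fin n) (Fin n) (MonoidAlgebra R G)}
    (ha : SuppIn c a) (ha' : SuppIn c' a') (h : ∀ x ∈ c, x ∉ c') : cutM c (a + a') = a := by
  classical
  refine Matrix.ext fun i j => ?_
  ext x
  have e : (cutM c (a + a') i j).coeff x = (cut c ((a + a') i j)).coeff x := rfl
  rw [e, cut_coeff, Matrix.add_apply, MonoidAlgebra.coeff_add, Finsupp.add_apply]
  by_cases hx : x ∈ c
  · have h1 : (a' i j).coeff x = 0 := by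
      by_contra h2
      exact h x hx (ha' i j x h2)
    rw [if_pos hx, h1, add_zero]
  · rw [if_neg hx]
    by_contra h2
    exact hx (ha i j x (Ne.symm h2))

end

end LNRM

end Pool.Agent.Lib.MPb6f35e.TT.LL

/-! ## Module LL/SGN -/

/-!
# LL, module SGN: a stable flip and no flips
-/

set_option autoImplicit false

namespace Pool.Agent.Lib.MPb6f35e.TT.LL

open Matrix Pool.Agent.Lib.MPb6f35e.TT.UV Pool.Agent.Lib.MPb6f35e.TT.AU Pool.Agent.Lib.MPb6f35e.TT.RO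
open Pool.Agent.Lib.MPb6f35e.TT.ROK

namespace SGNM

theorem dc_sub {G : Type} [Group G] {L : Subgroup G} {g : G} (hN : Ns L g) :
    ∀ x ∈ dc L g, x ∈ La L g := by
  rintro x ⟨h, hh, h', hh', rfl⟩
  refine ⟨h * (g * h' * g⁻¹), L.mul_mem hh (hN h' hh').1, ?_⟩
  group

theorem ptA {G : Type} [Group G] {L : Subgroup G} {X1 X2 X3 Yp Ym : Set G} {g : G}
    (P : PPK L X1 X2 X3 Yp Ym) (hg : g ∈ X1) (hgg : g * g ∈ L) (hN : Ns L g) :
    Pt L X1 (La L g) where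
  sub := by
    rintro x ⟨l, hl, rfl⟩
    exact P.X1l l hl g hg
  bi := by
    constructor
    · rintro h hh x ⟨l, hl, rfl⟩
      exact ⟨h * l, L.mul_mem hh hl, by group⟩
    · rintro h hh x ⟨l, hl, rfl⟩
      exact ⟨l * (g * h * g⁻¹), L.mul_mem hl (hN h hh).1, by group⟩
  inv := by
    rintro x ⟨l, hl, rfl⟩
    refine ⟨(g⁻¹ * l⁻¹ * g) * (g * g)⁻¹, L.mul_mem (hN _ (L.inv_mem hl)).2 (L.inv_mem hgg), ?_⟩
    group

theorem ptB {G : Type} [Group G] {L : Subgroup G} {X1 X2 X3 Yp Ym : Set G}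
    (P : PPK L X1 X2 X3 Yp Ym) : Pt L X2 X2 where
  sub := fun _ h => h
  bi := ⟨P.X2l, P.X2r⟩
  inv := P.X2i

end SGNM

end Pool.Agent.Lib.MPb6f35e.TT.LL

/-! ## Module LL/SGS -/

/-!
# Only lines matter (MP_8a3537_gt, folder LL), module SGS: single pieces (helper94)
-/

set_option autoImplicit false

namespace Pool.Agent.Lib.MPb6f35e.TT.LL

open Matrix Pool.Agent.Lib.MPb6f35e.TT.UV Pool.Agent.Lib.MPb6f35e.TT.AU Pool.Agent.Lib.MPb6f35e.TT.RO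
open Pool.Agent.Lib.MPb6f35e.TT.ROK

namespace SGSM

section Sets

variable {G : Type} [Group G] {L : Subgroup G}

theorem dc_trans {x y z : G} (h : y ∈ dc L x) (h' : z ∈ dc L y) : z ∈ dc L x := by
  obtain ⟨a, ha, b, hb, rfl⟩ := h
  obtain ⟨c, hc, e, he, rfl⟩ := h'
  exact ⟨c * a, L.mul_mem hc ha, b * e, L.mul_mem hb he, by group⟩

theorem dc_symm {x y : G} (h : y ∈ dc L x) : x ∈ dc L y := by
  obtain ⟨a, ha, b, hb, rfl⟩ := h
  exact ⟨a⁻¹, L.inv_mem ha, b⁻¹, L.inv_mem hb, by group⟩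

theorem dc_inv_inv {x y : G} (h : y ∈ dc L x) : y⁻¹ ∈ dc L x⁻¹ := by
  obtain ⟨a, ha, b, hb, rfl⟩ := h
  exact ⟨b⁻¹, L.inv_mem hb, a⁻¹, L.inv_mem ha, by group⟩

/-- If `x` is a flip, `D2 L x` is contained in `dc L g` for an element `g` of `x L`. -/
theorem D2_flip {x h : G} (hgg : (x * h) * (x * h) ∈ L) (hx : x ∈ dc L (x * h)) {y : G}
    (hy : y ∈ D2 L x) : y ∈ dc L (x * h) := by
  rcases hy with hy | hy
  · exact dc_trans hx hy
  · exact dc_trans (RO.ELMAux.dc_inv L (x * h) hgg hx) hy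

/-- If `x` is not a flip, then `D2 L x` contains no flip. -/
theorem D2_nonflip {x : G} (hx : ¬ Flip L x) {y : G} (hy : y ∈ D2 L x) : ¬ Flip L y := by
  intro hf
  apply hx
  have hf' : y⁻¹ ∈ dc L y := hf
  change x⁻¹ ∈ dc L x
  rcases hy with hy | hy
  · exact dc_trans (dc_trans hy hf') (dc_symm (dc_inv_inv hy))
  · have h1 : x ∈ dc L y⁻¹ := by
      have := dc_symm (dc_inv_inv hy)
      rwa [inv_inv] at this
    have h2 : x ∈ dc L x⁻¹ := dc_trans (dc_trans hy hf') h1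
    exact dc_symm h2

theorem dc_La {g : G} (hn : Ns L g) {y : G} (hy : y ∈ dc L g) : y ∈ La L g := by
  obtain ⟨a, ha, b, hb, rfl⟩ := hy
  exact ⟨a * (g * b * g⁻¹), L.mul_mem ha (hn b hb).1, by group⟩

end Sets

section Forms

variable {R G : Type} [Ring R] [StarRing R] [Group G]

theorem swap0 (ε : ℤˣ) {n N : ℕ} {a b : Matrix (Fin n) (Fin n) (MonoidAlgebra R G)}
    (h : (nu ε a 0 b) ^ N = 0) : (nu ε b 0 a) ^ N = 0 := by
  have := INDAux.swap_zero ε a 0 b N h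
  rwa [conjTranspose_zero] at this

theorem swapUF {ε : ℤˣ} {n : ℕ} {ψ χ : Matrix (Fin n) (Fin n) (MonoidAlgebra R G)}
    (h : StablyHyperbolic ε (UF χ 0 ψ)) : StablyHyperbolic ε (UF ψ 0 χ) := by
  apply (specSwp (MonoidAlgebra R G) ε n ψ 0 χ).1
  rwa [conjTranspose_zero]

theorem Cl_swap {V : Type} [MulAction G V] {d : V → V → ℕ} {N : ℕ} {x1 x2 : V}
    (h : Cl R G d N x1 x2) : Cl R G d N x2 x1 := by
  intro L X1 X2 Yp Ym P hg ε n ψ χ hψ hχ hν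
  obtain ⟨-, -, s3, s4⟩ := specSYK G L X1 X2 ∅ Yp Ym
  exact swapUF (h L X2 X1 Ym Yp (s3 P) (s4 V d x2 x1 hg) ε n χ ψ hχ hψ (swap0 ε hν))

end Forms

end SGSM

end Pool.Agent.Lib.MPb6f35e.TT.LL

/-! ## Module LL/SGU -/

/-!
# LL, module SGU (helper26): an unstable flip
-/

set_option autoImplicit false

namespace Pool.Agent.Lib.MPb6f35e.TT.LL

open Matrix Pool.Agent.Lib.MPb6f35e.TT.UV Pool.Agent.Lib.MPb6f35e.TT.AU Pool.Agent.Lib.MPb6f35e.TT.RO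
open Pool.Agent.Lib.MPb6f35e.TT.ROK

namespace SGUM

theorem cutM_compl {R G m n : Type} [Ring R] {W : Set G} {M : Matrix m n (MonoidAlgebra R G)}
    (h : SuppIn W M) : cutM Wᶜ M = 0 := by
  ext i j x
  show (cut Wᶜ (M i j)).coeff x = 0
  rw [cut_coeff]
  by_cases hx : (M i j).coeff x = 0
  · rw [hx, ite_self]
  · exact if_neg fun hc => hc (h i j x hx)

end SGUM

end Pool.Agent.Lib.MPb6f35e.TT.LL

/-! ## Module LL/SPR -/

/-! # LL, module SPR (helper15): supports -/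

set_option autoImplicit false

namespace Pool.Agent.Lib.MPb6f35e.TT.LL

open Matrix Pool.Agent.Lib.MPb6f35e.TT.UV Pool.Agent.Lib.MPb6f35e.TT.AU Pool.Agent.Lib.MPb6f35e.TT.RO
open Pool.Agent.Lib.MPb6f35e.TT.ROK

namespace SPRM

variable {R G : Type} [Ring R] [StarRing R] [Group G]

/-- The family of the sets of words with at least `k` letters. -/
structure Fam (Θ : ℕ → Bool → Bool → Set G) : Prop where
  mul : ∀ k l s r t, ∀ x ∈ Θ k s r, ∀ y ∈ Θ l r t, x * y ∈ Θ (k + l) s t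
  inv : ∀ k s t, ∀ x ∈ Θ k s t, x⁻¹ ∈ Θ k (!t) (!s)
  one : ∀ s, (1 : G) ∈ Θ 0 s s
  mono : ∀ k l s t, k ≤ l → ∀ x ∈ Θ l s t, x ∈ Θ k s t

theorem supp_zero {m n : Type} (X : Set G) : SuppIn X (0 : Matrix m n (MonoidAlgebra R G)) := by
  intro i j g hg
  exact absurd (by simp) hg

theorem supp_one {n : ℕ} {X : Set G} (hX : (1 : G) ∈ X) :
    SuppIn X (1 : Matrix (Fin n) (Fin n) (MonoidAlgebra R G)) := by
  intro i j g hg
  rw [Matrix.one_apply] at hg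
  split_ifs at hg with h
  · have hg1 : g = 1 := by
      by_contra hc
      exact hg (NILAux.coeff_one_ne g hc)
    rw [hg1]
    exact hX
  · exact absurd (by simp) hg

variable {Θ : ℕ → Bool → Bool → Set G} {n : ℕ}

/-- `T - 1` has at least two letters. -/
theorem tn (F : Fam Θ) (ε : ℤˣ) {N : ℕ} (hN : 1 ≤ N) (s r : Bool)
    (a b : Matrix (Fin n) (Fin n) (MonoidAlgebra R G)) (ha : SuppIn (Θ 1 r s) a)
    (hb : SuppIn (Θ 1 s r) b) :
    SuppIn (Θ 0 s s) (Tn ε N b a) ∧ SuppIn (Θ 2 s s) (Tn ε N b a - 1) := by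
  obtain ⟨m, rfl⟩ : ∃ m, N = m + 1 := ⟨N - 1, by omega⟩
  have h1 : SuppIn (Θ 2 s s) ((ε : ℤ) • (b * a)) :=
    INDAux.supp_units ε (INDAux.supp_mul hb ha (F.mul 1 1 s r s))
  have hp : ∀ i : ℕ, SuppIn (Θ 2 s s) (((ε : ℤ) • (b * a)) ^ (i + 1)) := by
    intro i
    induction i with
    | zero => rw [zero_add, pow_one]; exact h1
    | succ i ih =>
      rw [pow_succ]
      exact NILAux.supp_mono (INDAux.supp_mul ih h1 (F.mul 2 2 s s s))
        (F.mono 2 4 s s (by norm_num))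
  have hT : Tn ε (m + 1) b a - 1 = ∑ i ∈ Finset.range m, ((ε : ℤ) • (b * a)) ^ (i + 1) := by
    unfold Tn
    rw [Finset.sum_range_succ', pow_zero, add_sub_cancel_right]
  have h2 : SuppIn (Θ 2 s s) (Tn ε (m + 1) b a - 1) := by
    rw [hT]
    exact Finset.sum_induction _ (SuppIn (Θ 2 s s)) (fun _ _ => INDAux.supp_add)
      (supp_zero _) (fun i _ => hp i)
  refine ⟨?_, h2⟩
  have h3 : Tn ε (m + 1) b a = (Tn ε (m + 1) b a - 1) + 1 := by abel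
  rw [h3]
  exact INDAux.supp_add (NILAux.supp_mono h2 (F.mono 0 2 s s (by norm_num)))
    (supp_one (F.one s))

/-- The support of `ρ`. -/
theorem rho_supp (F : Fam Θ) (ε : ℤˣ) {N : ℕ} (hN : 1 ≤ N) (s : Bool)
    (ψ χ : Matrix (Fin n) (Fin n) (MonoidAlgebra R G)) (hψ : SuppIn (Θ 1 (!s) s) ψ)
    (hχ : SuppIn (Θ 1 s (!s)) χ) : SuppIn (Θ 3 s (!s)) (rho ε N ψ χ) := by
  have hψs : SuppIn (Θ 1 (!s) s) ψᴴ := by
    have h := INDAux.supp_star hψ (F.inv 1 (!s) s)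
    rwa [Bool.not_not] at h
  have hχs : SuppIn (Θ 1 s (!s)) χᴴ := by
    have h := INDAux.supp_star hχ (F.inv 1 s (!s))
    rwa [Bool.not_not] at h
  set a := ψ + (ε : ℤ) • ψᴴ with had
  set b := χ + (ε : ℤ) • χᴴ with hbd
  have ha : SuppIn (Θ 1 (!s) s) a := INDAux.supp_add hψ (INDAux.supp_units ε hψs)
  have hb : SuppIn (Θ 1 s (!s)) b := INDAux.supp_add hχ (INDAux.supp_units ε hχs)
  obtain ⟨hT0, hT2⟩ := tn F ε hN (!s) s b a hb ha
  obtain ⟨hU0, hU2⟩ := tn F ε hN s (!s) a b ha hb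
  have e : Tn ε N b a * χᴴ * Tn ε N a b - χᴴ =
      (Tn ε N b a - 1) * χᴴ * Tn ε N a b + χᴴ * (Tn ε N a b - 1) := by
    rw [Matrix.mul_sub, Matrix.mul_one, Matrix.sub_mul, Matrix.sub_mul, Matrix.one_mul]
    abel
  unfold rho
  rw [← had, ← hbd, e, sub_eq_add_neg]
  refine INDAux.supp_add (INDAux.supp_units ε (INDAux.supp_add ?_ ?_))
    (INDAux.supp_neg (INDAux.supp_units ε ?_))
  · exact INDAux.supp_mul (INDAux.supp_mul hU2 hχs (F.mul 2 1 s s (!s))) hT0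
      (F.mul 3 0 s (!s) (!s))
  · exact INDAux.supp_mul hχs hT2 (F.mul 1 2 s (!s) (!s))
  · have h1 := INDAux.supp_mul hU0 hb (F.mul 0 1 s s (!s))
    have h2 := INDAux.supp_mul h1 hψ (F.mul 1 1 s (!s) s)
    have h3 := INDAux.supp_mul h2 hb (F.mul 2 1 s s (!s))
    exact INDAux.supp_mul h3 hT0 (F.mul 3 0 s (!s) (!s))

end SPRM

open SPRM in
theorem specSPR : SpecSPR := by
  intro R G _ _ _ L X1 X2 Yp Ym c P hc ε n N hN ψ χ hψ hχ
  have hSub : Sub1 L X1 X2 ∅ Yp Ym c := ⟨P.toPingPong, hc.sub, hc.bi, hc.inv⟩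
  obtain ⟨-, hmul, hinv, -, hlet⟩ := mWDA G L X1 X2 ∅ Yp Ym c hSub
  have F : Fam (fun k s t => {z : G | ∃ j, k ≤ j ∧ Wd L c X2 ∅ j s t z}) := by
    refine ⟨?_, ?_, ?_, ?_⟩
    · rintro k l s r t x ⟨i, hi, hx⟩ y ⟨j, hj, hy⟩
      exact ⟨i + j, by omega, hmul i j s r t x y hx hy⟩
    · rintro k s t x ⟨i, hi, hx⟩
      exact ⟨i, hi, hinv i s t x hx⟩
    · intro s
      exact ⟨0, le_rfl, Wd.base L.one_mem⟩
    · rintro k l s t hkl x ⟨i, hi, hx⟩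
      exact ⟨i, hkl.trans hi, hx⟩
  have hψ' : SuppIn {z : G | ∃ j, 1 ≤ j ∧ Wd L c X2 ∅ j false true z} ψ :=
    NILAux.supp_mono hψ fun x hx => ⟨1, le_rfl, (hlet false true x hx).1⟩
  have hχ' : SuppIn {z : G | ∃ j, 1 ≤ j ∧ Wd L c X2 ∅ j true false z} χ :=
    NILAux.supp_mono hχ fun x hx => ⟨1, le_rfl, (hlet true false x hx).1⟩
  refine ⟨rho_supp F ε hN true ψ χ hψ' hχ', ?_⟩
  have h1 := rho_supp F ε hN false χ ψ hχ' hψ'
  refine INDAux.supp_add (NILAux.supp_mono hψ' ?_) (NILAux.supp_mono h1 ?_)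
  · rintro x ⟨j, -, hj⟩
    exact ⟨j, hj⟩
  · rintro x ⟨j, -, hj⟩
    exact ⟨j, hj⟩

end Pool.Agent.Lib.MPb6f35e.TT.LL

/-! ## Module LL/Main -/

/-!
# Only lines matter, without hypotheses (MP_8a3537_gt, folder LL)
-/

set_option autoImplicit false

namespace Pool.Agent.Lib.MPb6f35e.TT.LL

open Matrix Pool.Agent.Lib.MPb6f35e.TT.UV Pool.Agent.Lib.MPb6f35e.TT.AU Pool.Agent.Lib.MPb6f35e.TT.RO
open Pool.Agent.Lib.MPb6f35e.TT.ROK

theorem mDWP : SpecDWP := specDWP specDWU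

end Pool.Agent.Lib.MPb6f35e.TT.LL
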