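import Pool.Agent.Lib.MP_b6f35e_al.TT.U2

/-! # Modules for Theorem DT (MP_b6f35e_al, Q2): one flip, part 1 (copies of modules of MP_8a3537_gt, without the
conditions on elements of order two) -/

/-! ## Module RO/Defs -/

/-!
# Arbitrary edge groups with regular flip stabilizers (MP_8a3537_gt, folder RO): definitions

Paper: `/team-store/8a3537_RO_roots.md`. The two types `1`, `2` of the paper are `true`, `false`.
In `XX s t`, `blk N s t`, `Wd k s t` the first index is the target, the second one the source.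
-/

namespace Pool.Agent.Lib.MPb6f35e.TT.RO

open Matrix Pool.Agent.Lib.MPb6f35e.TT.UV Pool.Agent.Lib.MPb6f35e.TT.AU
open Pool.Agent.Lib.MPb6f35e.TT.UO (ext)

/-! ### Groups -/

section Groups

variable {G : Type} [Group G]

/-- `H c H = c`. -/
def Bi (H : Subgroup G) (c : Set G) : Prop :=
  (∀ h ∈ H, ∀ x ∈ c, h * x ∈ c) ∧ (∀ h ∈ H, ∀ x ∈ c, x * h ∈ c)

/-- The double coset `H g H`. -/
def dc (H : Subgroup G) (g : G) : Set G := {x | ∃ h ∈ H, ∃ h' ∈ H, x = h * g * h'}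

/-- `x⁻¹ ∈ H x H`. -/
def Flip (H : Subgroup G) (x : G) : Prop := x⁻¹ ∈ dc H x

/-- `H ∩ g H g⁻¹`. -/
def Kg (H : Subgroup G) (g : G) : Subgroup G := H ⊓ H.comap (MulAut.conj g⁻¹).toMonoidHom

theorem mem_Kg (H : Subgroup G) (g x : G) : x ∈ Kg H g ↔ x ∈ H ∧ g⁻¹ * x * g ∈ H := by
  unfold Kg
  rw [Subgroup.mem_inf, Subgroup.mem_comap]
  simp

/-- The sets `X^(st)`. -/
def XX (X1 X2 X3 : Set G) : Bool → Bool → Set G
  | true, true => X3
  | true, false => X2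
  | false, true => X1
  | false, false => Xinv X3

/-- The sets `Y_1`, `Y_2`. -/
def YB (Yp Ym : Set G) : Bool → Set G
  | true => Yp
  | false => Ym

/-- Ping-pong data with the additional properties of an edge of a tree. -/
structure PingPongX (H : Subgroup G) (X1 X2 X3 Yp Ym : Set G) : Prop extends
    PingPong H X1 X2 X3 Yp Ym where
  m1 : ∀ x ∈ X1, ∀ y ∈ X1, x * y ∈ H ∨ x * y ∈ X1
  m2 : ∀ x ∈ X2, ∀ y ∈ X2, x * y ∈ H ∨ x * y ∈ X2
  n1 : ∀ x ∈ X1, ∀ y ∈ Yp, x * y ∉ Yp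
  n2 : ∀ x ∈ X2, ∀ y ∈ Ym, x * y ∉ Ym

/-- Words with `k` letters from the source `t` to the target `s`. -/
inductive Wd (H : Subgroup G) (X1 X2 X3 : Set G) : ℕ → Bool → Bool → G → Prop
  | base {s : Bool} {h : G} : h ∈ H → Wd H X1 X2 X3 0 s s h
  | cons {k : ℕ} {s r t : Bool} {x z : G} : x ∈ XX X1 X2 X3 s r → Wd H X1 X2 X3 k r t z →
      Wd H X1 X2 X3 (k + 1) s t (x * z)

/-- The set of all words from `t` to `s`. -/
def WS (H : Subgroup G) (X1 X2 X3 : Set G) (s t : Bool) : Set G :=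
  {z | ∃ k, Wd H X1 X2 X3 k s t z}

/-- The data of the theorem on a single block: `Xa = L g`. -/
structure Loc (L : Subgroup G) (g : G) (Xa Xb Y : Set G) : Prop where
  ag : ∀ x, x ∈ Xa ↔ ∃ l ∈ L, x = l * g
  al : ∀ l ∈ L, ∀ x ∈ Xa, l * x ∈ Xa
  ar : ∀ l ∈ L, ∀ x ∈ Xa, x * l ∈ Xa
  ai : ∀ x ∈ Xa, x⁻¹ ∈ Xa
  an : ∀ x ∈ Xa, x⁻¹ ≠ x
  bl : ∀ l ∈ L, ∀ x ∈ Xb, l * x ∈ Xb
  br : ∀ l ∈ L, ∀ x ∈ Xb, x * l ∈ Xb
  bi : ∀ x ∈ Xb, x⁻¹ ∈ Xb
  bn : ∀ x ∈ Xb, x⁻¹ ≠ x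
  y1 : (1 : G) ∈ Y
  yl : ∀ l ∈ L, ∀ y ∈ Y, l * y ∈ Y
  ya : ∀ z ∈ Xb, ∀ x ∈ Xa, ∀ y ∈ Y, z * x * y ∈ Y
  dj : ∀ z ∈ Xb, ∀ z' ∈ Xb, ∀ x ∈ Xa, ∀ x' ∈ Xa, ∀ t ∈ Y, ∀ t' ∈ Y,
    z * x * t = z' * x' * t' → t' * t⁻¹ ∈ L

end Groups

/-! ### Matrices over group rings -/

section Cut

variable {R G : Type} [Ring R]

open Classical in
/-- The part of `x` with support in `W`. -/
noncomputable def cut (W : Set G) (x : MonoidAlgebra R G) : MonoidAlgebra R G :=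
  .ofCoeff (x.coeff.filter fun g => g ∈ W)

open Classical in
theorem cut_coeff (W : Set G) (x : MonoidAlgebra R G) (g : G) :
    (cut W x).coeff g = if g ∈ W then x.coeff g else 0 := by
  unfold cut
  exact Finsupp.filter_apply _ _ _

/-- The part `M|_W` of the matrix `M` with support in `W`. -/
noncomputable def cutM {m n : Type} (W : Set G) (M : Matrix m n (MonoidAlgebra R G)) :
    Matrix m n (MonoidAlgebra R G) := M.map (cut W)

end Cut

section Matrices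

variable {R G : Type} [Ring R] [Group G]

/-- The index `inl i` for `true`, `inr i` for `false`. -/
def sd {n : Type} : Bool → n → n ⊕ n
  | true => Sum.inl
  | false => Sum.inr

/-- The block `(s, t)` of a matrix. -/
def blk {A n : Type} (N : Matrix (n ⊕ n) (n ⊕ n) A) (s t : Bool) : Matrix n n A :=
  N.submatrix (sd s) (sd t)

/-- Products of `k ≥ 1` letters (a letter is a block of `N` restricted to a biinvariant set). -/
inductive Wrd (H : Subgroup G) {n : Type} [Fintype n]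
    (N : Matrix (n ⊕ n) (n ⊕ n) (MonoidAlgebra R G)) :
    ℕ → Bool → Bool → Matrix n n (MonoidAlgebra R G) → Prop
  | one {s t : Bool} {c : Set G} : Bi H c → Wrd H N 1 s t (cutM c (blk N s t))
  | cons {k : ℕ} {s r t : Bool} {c : Set G} {P : Matrix n n (MonoidAlgebra R G)} : Bi H c →
      Wrd H N k r t P → Wrd H N (k + 1) s t (cutM c (blk N s r) * P)

/-- The additive group generated by the products of at least `k` letters. -/
noncomputable def EE (H : Subgroup G) {n : Type} [Fintype n]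
    (N : Matrix (n ⊕ n) (n ⊕ n) (MonoidAlgebra R G)) (k : ℕ) (s t : Bool) :
    AddSubgroup (Matrix n n (MonoidAlgebra R G)) :=
  AddSubgroup.closure {M | ∃ j, k ≤ j ∧ Wrd H N j s t M}

end Matrices

/-- The properties of the family `EE` (for a ring `A` with involution). -/
structure EFam {A : Type} [Ring A] [StarRing A] {n : ℕ}
    (E : ℕ → Bool → Bool → AddSubgroup (Matrix (Fin n) (Fin n) A)) (N : ℕ) : Prop where
  mul : ∀ (k l : ℕ) (s r t : Bool) (M M' : Matrix (Fin n) (Fin n) A), M ∈ E k s r →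
    M' ∈ E l r t → M * M' ∈ E (k + l) s t
  star : ∀ (k : ℕ) (s t : Bool) (M : Matrix (Fin n) (Fin n) A), M ∈ E k s t →
    Mᴴ ∈ E k (!t) (!s)
  mono : ∀ (k l : ℕ) (s t : Bool), k ≤ l → E l s t ≤ E k s t
  zero : ∀ (s t : Bool) (M : Matrix (Fin n) (Fin n) A), M ∈ E N s t → M = 0

/-- `∑_{i < N} (-ν)^i`, the inverse of `1 + ν` if `ν^N = 0`. -/
noncomputable def W0 {A : Type} [Ring A] {n : ℕ} (N : ℕ)
    (ν : Matrix (Fin n ⊕ Fin n) (Fin n ⊕ Fin n) A) :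
    Matrix (Fin n ⊕ Fin n) (Fin n ⊕ Fin n) A :=
  ∑ i ∈ Finset.range N, (-ν) ^ i

/-- The form `κ = - (z1^* ψ z1 + z1^* (1 + μ^*) z2 + z2^* χ z2)`, `z1 = w^(12) Ξ^*`,
`z2 = w^(22) Ξ^*`. -/
noncomputable def kap {A : Type} [Ring A] [StarRing A] {n r : ℕ} (ψ μ χ : Matrix (Fin n) (Fin n) A)
    (w : Matrix (Fin n ⊕ Fin n) (Fin n ⊕ Fin n) A) (Ξ : Matrix (Fin r) (Fin n) A) :
    Matrix (Fin r) (Fin r) A :=
  -((blk w true false * Ξᴴ)ᴴ * ψ * (blk w true false * Ξᴴ) +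
    (blk w true false * Ξᴴ)ᴴ * (1 + μᴴ) * (blk w false false * Ξᴴ) +
    (blk w false false * Ξᴴ)ᴴ * χ * (blk w false false * Ξᴴ))

/-! ### The single block -/

section Block

variable {R G : Type} [Ring R] [StarRing R] [Group G] {L : Subgroup G}

/-- `(b a)^l x` is a coboundary for all cocycles `x` of degree `k` over `R[L]`. -/
def PL (C : FC (MonoidAlgebra R L)) (a b : Matrix C.I C.I (MonoidAlgebra R G)) (k : ℤ) (l : ℕ) :
    Prop :=
  ∀ x ∈ C.Cy k, ∃ u : C.I → MonoidAlgebra R G, (b * a) ^ l *ᵥ exv x = ext C.d *ᵥ u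

/-- `a (b a)^l x` is a coboundary of the dual for all cocycles `x` of degree `k` over `R[L]`. -/
def QL (C : FC (MonoidAlgebra R L)) (a b : Matrix C.I C.I (MonoidAlgebra R G)) (k : ℤ) (l : ℕ) :
    Prop :=
  ∀ x ∈ C.Cy k, ∃ u : C.I → MonoidAlgebra R G, a *ᵥ ((b * a) ^ l *ᵥ exv x) = (ext C.d)ᴴ *ᵥ u

/-- The result of a surgery on `C` (paper: SG). -/
structure Sur (Xa Xb : Set G) (ε : ℤˣ) (k : ℤ) (C C' : FC (MonoidAlgebra R L))
    (a b : Matrix C.I C.I (MonoidAlgebra R G)) (a' b' : Matrix C'.I C'.I (MonoidAlgebra R G))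
    (p : Matrix C'.I C.I (MonoidAlgebra R L)) : Prop where
  nf : NF L Xa Xb ∅ ε C' a' 0 b'
  lv : C'.ExBelow k
  lv' : C'.dual.ExBelow k
  gp : ∀ i j, p i j ≠ 0 → C'.deg i = C.deg j
  ch : C'.d * p = p * C.d
  ea : (ext p)ᴴ * a' * ext p = a
  eb : b' = ext p * b * (ext p)ᴴ
  top : ∀ x' ∈ C'.Cy k, ∃ x ∈ C.Cy k, x' = p *ᵥ x
  kill : ∀ x ∈ C.Cy k, (∃ u, a *ᵥ exv x = (ext C.d)ᴴ *ᵥ u) → ∃ u, p *ᵥ x = C'.d *ᵥ u
  inj : ∀ y : C'.I → MonoidAlgebra R G, (∀ i, y i ≠ 0 → - C'.deg i = k) →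
    (ext C'.d)ᴴ *ᵥ y = 0 → (∃ u, (ext p)ᴴ *ᵥ y = (ext C.d)ᴴ *ᵥ u) →
    ∃ u, y = (ext C'.d)ᴴ *ᵥ u
  good : Good Xa Xb ε C' a' 0 b' → Good Xa Xb ε C a 0 b

/-- The result of a surgery on `C^*` (`q = p^*`). -/
structure SurB (Xa Xb : Set G) (ε : ℤˣ) (k : ℤ) (C C1 : FC (MonoidAlgebra R L))
    (a b : Matrix C.I C.I (MonoidAlgebra R G)) (a1 b1 : Matrix C1.I C1.I (MonoidAlgebra R G))
    (q : Matrix C.I C1.I (MonoidAlgebra R L)) : Prop where
  nf : NF L Xa Xb ∅ ε C1 a1 0 b1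
  lv : C1.ExBelow k
  lv' : C1.dual.ExBelow k
  gq : ∀ i j, q i j ≠ 0 → C.deg i = C1.deg j
  ch : C.d * q = q * C1.d
  eb : ext q * b1 * (ext q)ᴴ = b
  ea : a1 = (ext q)ᴴ * a * ext q
  top : ∀ y' ∈ C1.dual.Cy k, ∃ y ∈ C.dual.Cy k, y' = qᴴ *ᵥ y
  kill : ∀ y ∈ C.dual.Cy k, (∃ u, b *ᵥ exv y = ext C.d *ᵥ u) → ∃ u, qᴴ *ᵥ y = C1.dᴴ *ᵥ u
  inj : ∀ x : C1.I → MonoidAlgebra R G, (∀ i, x i ≠ 0 → C1.deg i = k) →
    ext C1.d *ᵥ x = 0 → (∃ u, ext q *ᵥ x = ext C.d *ᵥ u) → ∃ u, x = ext C1.d *ᵥ u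
  good : Good Xa Xb ε C1 a1 0 b1 → Good Xa Xb ε C a 0 b

end Block

end Pool.Agent.Lib.MPb6f35e.TT.RO

/-! ## Module RO/Spec -/

/-!
# Arbitrary edge groups with regular flip stabilizers: Specs

Paper proof: `/team-store/8a3537_RO_roots.md`. Every module `XXX` is a file
`Pool/Agent/Lib/MP_8a3537_gt/RO/XXX.lean` which imports this file and proves
`theorem specXXX (hypotheses in the order of the text) : SpecXXX` (exactly this name) in the namespace
`Pool.Agent.Lib.MPb6f35e.TT.RO`, with its auxiliary declarations in `RO.XXXAux`. The landed modules of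
the folders UV (`UV/RES`, `UV/TAT`, `UV/TRE`, `UV/EMV`, `UV/SWP`, `UV/STK`, `UV/IND`), AU (all) and
`RO/AUM` (the modules of AU without hypotheses) may be imported where it is useful.

Conventions: `S = R[L]`, `A = R[G]`. Columns, matrices act from the left. Types: `true` is the type
`1`, `false` the type `2` of the paper; first index target, second index source.
-/

namespace Pool.Agent.Lib.MPb6f35e.TT.RO

open Matrix Pool.Agent.Lib.MPb6f35e.TT.UV Pool.Agent.Lib.MPb6f35e.TT.AU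
open Pool.Agent.Lib.MPb6f35e.TT.UO (ext)

/-! ### Part 1: combinatorics of words -/

/-- **TRX** (size 120; imports `UV/TRE`): the ping-pong data of an edge, with the extra properties.

PROOF. `Yp`, `Ym` are the sets `YY` of `UV/TRE.lean` (`specTRE` proves `PingPong` for them; repeat its
proof or extract the lemma). `m1`: `x`, `y` fix `v`, so `x y` fixes `v`; if it fixes `w` it is in `H`,
otherwise in `X1`. `n1`: `x ∈ X1`, `y ∈ Yp`: `y w ∈ Br v w`, so `x y w ∈ Br (x v) (x w) = Br v (x w)`; if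
`x y ∈ Yp` then `x y w ∈ Br v w`, so `x w = w` by `br_unique`: contradiction. `m2`, `n2`: exchange
`v`, `w`. -/
def SpecTRX : Prop :=
  ∀ (G V : Type) [Group G] [MulAction G V] (T : SimpleGraph V) (v w : V), T.IsTree →
    (∀ (g : G) (x y : V), T.Adj x y → T.Adj (g • x) (g • y)) → T.Adj v w →
    (∀ g : G, ¬ (g • v = w ∧ g • w = v)) →
    ∃ Yp Ym : Set G,
      PingPongX (MulAction.stabilizer G v ⊓ MulAction.stabilizer G w)
        {g | g • v = v ∧ g • w ≠ w} {g | g • w = w ∧ g • v ≠ v} {g | g • v = w} Yp Ym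

/-- **UNQ** (size 80): action and uniqueness.

PROOF. `s`, `r`, `r'` by cases. (1) `X1Y`, `X2Y`, `X3Y`, `X3Y'`. (2) `r = r'`: `u1`, `u2`, `u3`, `u3'`; `r ≠ r'`:
`s = true`: `x ∈ X3`, `x' ∈ X2` or conversely: `d23`; `s = false`: `d13`. (3), (4): fields; for
`Xinv X3`: `(h x)⁻¹ = x⁻¹ h⁻¹`. -/
def SpecUNQ : Prop :=
  ∀ (G : Type) [Group G] (H : Subgroup G) (X1 X2 X3 Yp Ym : Set G), PingPong H X1 X2 X3 Yp Ym →
    (∀ s r x y, x ∈ XX X1 X2 X3 s r → y ∈ YB Yp Ym r → x * y ∈ YB Yp Ym s) ∧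
    (∀ s r r' x y x' y', x ∈ XX X1 X2 X3 s r → y ∈ YB Yp Ym r → x' ∈ XX X1 X2 X3 s r' →
      y' ∈ YB Yp Ym r' → x * y = x' * y' → r = r' ∧ x⁻¹ * x' ∈ H) ∧
    (∀ s r, Bi H (XX X1 X2 X3 s r)) ∧
    (∀ s, (1 : G) ∈ YB Yp Ym s ∧ ∀ h ∈ H, ∀ y ∈ YB Yp Ym s, h * y ∈ YB Yp Ym s)

/-- The hypotheses on the words which avoid some double cosets. -/
structure Sub1 {G : Type} [Group G] (H : Subgroup G) (X1 X2 X3 Yp Ym X1' : Set G) : Prop where
  pp : PingPong H X1 X2 X3 Yp Ym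
  sub : X1' ⊆ X1
  bi : Bi H X1'
  inv : ∀ x ∈ X1', x⁻¹ ∈ X1'

/-- **WDA** (size 180, dep `SpecUNQ`): words.

PROOF. (1) left: `k = 0`: `h h' ∈ H`; `k + 1`: `h (x z) = (h x) z`. Right: induction (`z h`). (2) induction
on the first word; `h z'` by (1). (3) a letter: `x ∈ XX X1' X2 X3 s r → x⁻¹ ∈ XX X1' X2 X3 (!r) (!s)` (four
cases: `X1'`, `X2` are closed under inverses, `X3`, `Xinv X3` are exchanged); `(x z)⁻¹ = z⁻¹ (x⁻¹ 1)` is
a word by (2). (4) induction, `UNQ` (1) (`XX X1' X2 X3 s r ⊆ XX X1 X2 X3 s r`) and (4). -/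
def SpecWDA : Prop :=
  ∀ (G : Type) [Group G] (H : Subgroup G) (X1 X2 X3 Yp Ym X1' : Set G),
    Sub1 H X1 X2 X3 Yp Ym X1' →
    (∀ k s t z h, h ∈ H → Wd H X1' X2 X3 k s t z →
      Wd H X1' X2 X3 k s t (h * z) ∧ Wd H X1' X2 X3 k s t (z * h)) ∧
    (∀ k l s r t z z', Wd H X1' X2 X3 k s r z → Wd H X1' X2 X3 l r t z' →
      Wd H X1' X2 X3 (k + l) s t (z * z')) ∧
    (∀ k s t z, Wd H X1' X2 X3 k s t z → Wd H X1' X2 X3 k (!t) (!s) z⁻¹) ∧
    (∀ k s t z y, Wd H X1' X2 X3 k s t z → y ∈ YB Yp Ym t → z * y ∈ YB Yp Ym s) ∧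
    (∀ s t x, x ∈ XX X1' X2 X3 s t → Wd H X1' X2 X3 1 s t x ∧ x⁻¹ ∈ XX X1' X2 X3 (!t) (!s))

/-- **WNI** (size 180, deps `SpecUNQ`, `SpecWDA`): no word from `s'` to `s` is its own inverse.

PROOF (paper w5). Strong induction on `k`. `k = 0`: a word of length `0` has equal types. `k = 1`:
`z = x h`, `x ∈ X1` or `X2`, so `z ∈ X1` or `X2`, `z⁻¹ ≠ z` (`X1n`, `X2n`). `k = m + 2`: `z = x z1`,
`x ∈ XX s r`, `z1` a word of length `m + 1` from `!s` to `r`; last letter: `z1 = z2 y`,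
`y ∈ XX q (!s)`, `z2` of length `m` from `q` to `r` (lemma: every word of length `m + 1` is a word of
length `m` times a letter, by induction; for length `1`: `x h = 1 (x h)`). `z = z⁻¹` says
`x z1 = y⁻¹ (z2⁻¹ x⁻¹)`, `y⁻¹ ∈ XX s (!q)`; `z1 ∈ YB r` and `z2⁻¹ x⁻¹ ∈ YB (!q)` (WDA (4) with `y = 1`: `z2⁻¹ x⁻¹` is
a word from `!s` to `!q`). UNQ: `r = !q`, `x⁻¹ y⁻¹ = h ∈ H`, so `y = h⁻¹ x⁻¹`, `z = x (z2 h⁻¹) x⁻¹`,
`z2 h⁻¹` is a word of length `m` from `q = !r` to `r` with square `1`. -/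
def SpecWNI : Prop :=
  ∀ (G : Type) [Group G] (H : Subgroup G) (X1 X2 X3 Yp Ym X1' : Set G),
    Sub1 H X1 X2 X3 Yp Ym X1' → ∀ (k : ℕ) (s : Bool) (z : G), Wd H X1' X2 X3 k s (!s) z →
    z * z ≠ 1

/-- **WDJ** (size 220, deps `SpecUNQ`, `SpecWDA`): disjointness (paper w6).

PROOF. `X1' = X1 ∖ H g H`. Claim for words `z`, `z'` from `false` to `s` (induction on the word `z`, for all
`z'`): if `z x t = z' x' t'` with `x, x' ∈ L g` (so in `X1`), `t, t' ∈ Yp` then `t' t⁻¹ ∈ L`. (`x t`, `x' t' ∈ Ym`.)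
`z = h ∈ H` and `z' = h' ∈ H`: `t' = y t`, `y = x'⁻¹ (h'⁻¹ h x)`; if `y ∉ H` then `y ∈ X1` (`m1`; `x'⁻¹ ∈ X1`,
`h'⁻¹ h x ∈ X1`), `t' = y t ∉ Yp` (`n1`): contradiction. So `y ∈ H`; `x = l g`, `x' = l' g`,
`y = g⁻¹ h'' g` with `h'' = l'⁻¹ h'⁻¹ h l ∈ H`, `g⁻¹ y g = g⁻² h'' g² ∈ H`: `y ∈ Kg H g`.
`z = h`, `z' = x1 z1` (`s = false`): `(h x) t = x1 (z1 x' t')`, `h x ∈ XX X1 X2 X3 false true`,
`x1 ∈ XX X1' X2 X3 false r`: UNQ: `r = true`, so `x1 ∈ X1'`, and `(h x)⁻¹ x1 ∈ H`, so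
`x1 ∈ h x H ⊆ H g H`: contradiction. `z = x1 z1`, `z' = h'`: the same. `z = x1 z1`, `z' = x1' z1'`: UNQ: same
type `r`, `x1' = x1 h`, so `z1 x t = (h z1') x' t'`, induction. -/
def SpecWDJ : Prop :=
  ∀ (G : Type) [Group G] (H : Subgroup G) (X1 X2 X3 Yp Ym : Set G),
    PingPongX H X1 X2 X3 Yp Ym → ∀ g ∈ X1, g * g ∈ H →
    ∀ z ∈ WS H {x | x ∈ X1 ∧ x ∉ dc H g} X2 X3 true false,
    ∀ z' ∈ WS H {x | x ∈ X1 ∧ x ∉ dc H g} X2 X3 true false, ∀ l ∈ Kg H g, ∀ l' ∈ Kg H g,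
    ∀ t ∈ Yp, ∀ t' ∈ Yp, z * (l * g) * t = z' * (l' * g) * t' → t' * t⁻¹ ∈ Kg H g

/-- **LOC** (size 150, deps `SpecWDA`, `SpecWNI`, `SpecWDJ`): the data of a single block.

PROOF. `L = Kg H g`. `g L g⁻¹ = L`: `l ∈ L`: `g l g⁻¹ = g² (g⁻¹ l g) g⁻² ∈ H` and `g⁻¹ (g l g⁻¹) g = l ∈ H`.
`g² ∈ L`. `ar`: `l g l' = l (g l' g⁻¹) g`. `ai`: `(l g)⁻¹ = g⁻² (g l⁻¹ g⁻¹) g`. `an`: `l g ∈ X1` (`X1l`), `X1n`.
`X1' = {x ∈ X1 | x ∉ H g H}` satisfies `Sub1`: `H g H` is biinvariant, and inverse closed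
(`(h g h')⁻¹ = h'⁻¹ g⁻² g h⁻¹`). `bl`, `br`, `bi`: WDA (`L ≤ H`). `bn`: `z⁻¹ = z` gives `z z = 1`: WNI. `ya`:
`x y ∈ Ym`, WDA (4). `dj`: WDJ. -/
def SpecLOC : Prop :=
  ∀ (G : Type) [Group G] (H : Subgroup G) (X1 X2 X3 Yp Ym : Set G),
    PingPongX H X1 X2 X3 Yp Ym → ∀ g ∈ X1, g * g ∈ H →
    Sub1 H X1 X2 X3 Yp Ym {x | x ∈ X1 ∧ x ∉ dc H g} ∧
    Loc (Kg H g) g {x | ∃ l ∈ Kg H g, x = l * g}
      (WS H {x | x ∈ X1 ∧ x ∉ dc H g} X2 X3 true false) Yp

/-! ### Part 2: letters -/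

/-- **JNT** (size 250, dep `SpecUNQ`): joint nilpotency (paper LEMMA 1).

PROOF. `N = nu ε a μ b`. `blk N s t` is supported in `XX X1 X2 X3 s t`. Claim by induction on the word `M` of
`k` letters from `t` to `s`: `M = cutM W (blk (N ^ k) s t)` for some left `H`-invariant `W`, and
`blk (N ^ k) s t` is supported in `YB s` (because `1 ∈ YB t`; for this also `k = 0`). `k = 1`: `W = c`. Step:
`M = cutM c (blk N s r) * P`, `P = cutM W (blk (N ^ k) r t)`;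
`blk (N ^ (k+1)) s t = ∑_q blk N s q * blk (N ^ k) q t` (sum over `q = true, false`). Put
`W' = (c ∩ XX s r) (W ∩ YB r)` (products). Then `M = cutM W' (blk (N ^ (k+1)) s t)`: entrywise, for
`x ∈ supp (blk N s q)`, `y ∈ supp (blk (N ^ k) q t)`: if `x y ∈ W'`, `x y = x' y'`, `x' ∈ c ∩ XX s r`,
`y' ∈ W ∩ YB r`, then UNQ: `q = r`, `x' = x h`, so `x ∈ c`, `y = h y' ∈ W`. Conversely clear. (So
`cut W' (u v) = cut c u * cut W v` for such entries `u`, `v` with `q = r`, and `= 0` for `q ≠ r`: bilinear, check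
on `single`s.) If `N ^ N0 = 0` then `N ^ k = 0` for `k ≥ N0`, so `M = 0`; closure: the generators of `EE` are
`0`. -/
def SpecJNT : Prop :=
  ∀ (R G : Type) [Ring R] [StarRing R] [Group G] (H : Subgroup G) (X1 X2 X3 Yp Ym : Set G),
    PingPong H X1 X2 X3 Yp Ym → ∀ (ε : ℤˣ) (n : ℕ)
    (a μ b : Matrix (Fin n) (Fin n) (MonoidAlgebra R G)), SuppIn X1 a → SuppIn X3 μ →
    SuppIn X2 b → ∀ N : ℕ, (nu ε a μ b) ^ N = 0 →
    ∀ (s t : Bool) (M : Matrix (Fin n) (Fin n) (MonoidAlgebra R G)),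
      M ∈ EE H (nu ε a μ b) N s t → M = 0

/-- **EFA** (size 200, dep `SpecJNT`): the family `EE`.

PROOF. `mul`: bilinear (`AddSubgroup.closure_induction` twice); product of two words: induction on the
first one (`cutM c (blk ..) * P`). `mono`: clear. `zero`: JNT. `star`: `closure_induction`; for words: the
star of a product is the product of the stars in the opposite order, and
`(cutM c (blk N s t))ᴴ = cutM c⁻¹ (blk N s t)ᴴ`, `(blk N s t)ᴴ = blk N (!t) (!s)` for `s = t` (`μ`, `μᴴ`),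
`= ε • blk N (!t) (!s)` for `s ≠ t` (`a = ε aᴴ`, `b = ε bᴴ`; `(ε • b)ᴴ = ε • bᴴ = b = ε • (ε • b)`), `c⁻¹` is
biinvariant; so the star of one letter is in `EE 1 (!t) (!s)`, and of a product by `mul` and induction.
Letters: `one`. `blk N s t = cutM univ (blk N s t)`. -/
def SpecEFA : Prop :=
  ∀ (R G : Type) [Ring R] [StarRing R] [Group G] (H : Subgroup G) (X1 X2 X3 Yp Ym : Set G),
    PingPong H X1 X2 X3 Yp Ym → ∀ (ε : ℤˣ) (n : ℕ)
    (a μ b : Matrix (Fin n) (Fin n) (MonoidAlgebra R G)), SuppIn X1 a → SuppIn X3 μ →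
    SuppIn X2 b → a = (ε : ℤ) • aᴴ → b = (ε : ℤ) • bᴴ → ∀ N : ℕ, (nu ε a μ b) ^ N = 0 →
    EFam (EE H (nu ε a μ b)) N ∧
    (∀ (s t : Bool) (c : Set G), Bi H c →
      cutM c (blk (nu ε a μ b) s t) ∈ EE H (nu ε a μ b) 1 s t) ∧
    (∀ s t : Bool, blk (nu ε a μ b) s t ∈ EE H (nu ε a μ b) 1 s t)

/-- **NWC** (size 250): Newton iteration (paper LEMMA 2, CLAIM).

PROOF. Claim for all `k ≥ 1` by induction on `N - k`: for all `p ∈ E k false true`, `m ∈ E 1 false false`,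
`q ∈ E 1 true false` the form `(p, 1 + m; 0, q)` is stably hyperbolic. `k ≥ N`: `p = 0` (`mono`, `zero`).
`1 + m` is invertible: `m^i ∈ E i`, so `m^N = 0` (or `N = 0` and everything is `0`). `u = diag(1, (1 + m)⁻¹)`
gives `(0, 1; 0, q')`, and `u = (1, z; 0, 1)`: `uᴴ (0, 1; 0, q') u = (0, 1; 0, zᴴ + q')`, so with
`z = -q'ᴴ` this is `(0, 1; 0, 0) = hyp`. Step:
`u = (1, 0; -p, 1)` (invertible): `uᴴ (p, 1 + m; 0, q) u = (-m p + pᴴ q p, 1 + m - pᴴ q; -q p, q)`, and modulo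
`Z - ε Zᴴ` (`Z = (0, 0; q p, 0)`) this is `(-m p + pᴴ q p, 1 + (m - pᴴ (q + ε qᴴ)); 0, q)`. The types:
`pᴴ ∈ E k false true`, `qᴴ ∈ E 1 true false`; `m p ∈ E (k+1) false true`, `pᴴ q p ∈ E (2k+1) false true`,
`pᴴ q ∈ E (k+1) false false ≤ E 1 false false`. -/
def SpecNWC : Prop :=
  ∀ (A : Type) [Ring A] [StarRing A] (ε : ℤˣ) (n N : ℕ)
    (E : ℕ → Bool → Bool → AddSubgroup (Matrix (Fin n) (Fin n) A)), EFam E N →
    ∀ p ∈ E 1 false true, ∀ m ∈ E 1 false false, ∀ q ∈ E 1 true false,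
      StablyHyperbolic ε (fromBlocks p (1 + m) 0 q)

/-- **HLF** (size 150): a half of the double cosets.

PROOF. `D x = dc H x : Set G`. Choose a linear order on `Set G` (e.g. from `WellOrderingRel`), and
`c = {x | D x < D x⁻¹}`. `D (h x) = D x = D (x h)`, so `c` is biinvariant. If `x⁻¹ ∉ D x` then `D x ≠ D x⁻¹`,
so exactly one of `x`, `x⁻¹` is in `c`. Coefficient of `a i j` at `x` with `a i j x ≠ 0`: `x ∈ c`: it is that of
`cutM c a`, and the other summand `ε star((cutM c a) j i x⁻¹)` is `0`. `x ∉ c`: `x⁻¹ ∈ c`, the other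
summand is `ε star (a j i x⁻¹) = a i j x`. If `a i j x = 0` then also `a j i x⁻¹ = 0` and both are `0`. -/
def SpecHLF : Prop :=
  ∀ (R G : Type) [Ring R] [StarRing R] [Group G] (H : Subgroup G) (ε : ℤˣ) (n : ℕ)
    (a : Matrix (Fin n) (Fin n) (MonoidAlgebra R G)), a = (ε : ℤ) • aᴴ →
    (∀ i j x, (a i j).coeff x ≠ 0 → ¬ Flip H x) →
    ∃ c : Set G, Bi H c ∧ a = cutM c a + (ε : ℤ) • (cutM c a)ᴴ

/-- **NWT** (size 150, deps `SpecEFA`, `SpecNWC`, `SpecHLF`; imports `UV/TAT`, `UV/SWP`): no flips.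

PROOF. `a = ψ + ε ψᴴ`: if `a i j` is not `0` at `x` then `ψ i j` is not `0` at `x` or `ψ j i` at `x⁻¹`;
`Flip H x ↔ Flip H x⁻¹`. HLF: `a = p + ε pᴴ`, `b = q + ε qᴴ`, `p = cutM c a`, `q = cutM c' b`. EFA:
`p ∈ EE 1 false true`, `μᴴ ∈ EE 1 false false`, `ε • q = cutM c' (ε • b) ∈ EE 1 true false`. NWC:
`UF p μ q` is stably hyperbolic. `ψ - p`, `χ - q` are supported in `X1`, `X2`, and
`(ψ - p) + ε (ψ - p)ᴴ = 0`: TAT (`δ = -ε`): `ψ = p + c0 - ε c0ᴴ`; SWP (2). -/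
def SpecNWT : Prop :=
  ∀ (R G : Type) [Ring R] [StarRing R] [Group G] (H : Subgroup G) (X1 X2 X3 Yp Ym : Set G),
    PingPong H X1 X2 X3 Yp Ym → ∀ (ε : ℤˣ) (n : ℕ)
    (ψ μ χ : Matrix (Fin n) (Fin n) (MonoidAlgebra R G)), SuppIn X1 ψ → SuppIn X3 μ →
    SuppIn X2 χ → IsNilpotent (nu ε (ψ + (ε : ℤ) • ψᴴ) μ (χ + (ε : ℤ) • χᴴ)) →
    (∀ i j x, (ψ i j).coeff x ≠ 0 → ¬ Flip H x) → (∀ i j x, (χ i j).coeff x ≠ 0 → ¬ Flip H x) →
    StablyHyperbolic ε (UF ψ μ χ)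

/-! ### Part 3: elimination of a double coset -/

/-- **FAC** (size 150): factorization of the part in `H g H`.

PROOF. `ψ` is the finite sum, over the entries `(i, j)` and `x ∈ supp (ψ i j)`, of the matrices with the
only entry `single x r` at `(i, j)`. `x = h g h'`, `single x r = single h 1 * single g r * single h' 1`. Let
`K` be the finite index set of these terms, `Ξ : (K ⊕ K) × n`: row `inl k` is `single h⁻¹ 1` at `i`, row
`inr k` is `single h' 1` at `j`; `ψ'` has the entry `single g r` at `(inl k, inr k)` and `0` elsewhere. Then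
`Ξᴴ ψ' Ξ = ψ` (`star (single h⁻¹ 1) = single h 1`). Reindex `K ⊕ K` by `Fin r`. Or by induction: the
statement is closed under sums (block matrices) and true for a single term. -/
def SpecFAC : Prop :=
  ∀ (R G : Type) [Ring R] [StarRing R] [Group G] (H : Subgroup G) (g : G) (n : ℕ)
    (ψ : Matrix (Fin n) (Fin n) (MonoidAlgebra R G)), SuppIn (dc H g) ψ →
    ∃ (r : ℕ) (Ξ : Matrix (Fin r) (Fin n) (MonoidAlgebra R G))
      (ψ' : Matrix (Fin r) (Fin r) (MonoidAlgebra R G)), SuppIn (H : Set G) Ξ ∧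
      SuppIn {x | x = g} ψ' ∧ ψ = Ξᴴ * ψ' * Ξ

/-- **SCH** (size 300): elimination (paper LEMMA 3).

PROOF. Index set `M ⊕ (N ⊕ N)`, `F = (Λ, 0, -Ξᴴ; 0, ψ', 1; 0, 0, 0)`. `α = ψ' + ε ψ'ᴴ`.
(1) `u1 = (1, 0, 0; Ξ, 1, 0; -α Ξ, 0, 1)`: modulo `Z - ε Zᴴ`, `u1ᴴ F u1 = (Λ + Ξᴴ ψ' Ξ) ⊕ (ψ', 1; 0, 0)`:
`u1ᴴ F u1 = (Λ + Ξᴴ ψ' Ξ + (Ξᴴ α Ξ - Ξᴴ α Ξ), Ξᴴ ψ', 0; ψ' Ξ - α Ξ, ψ', 1; 0, 0, 0)`, and `ψ' Ξ - α Ξ = -ε ψ'ᴴ Ξ`
at `(2,1)` cancels `Ξᴴ ψ'` at `(1,2)` (`Z = (0, Ξᴴ ψ'; 0, 0)` up to sign). And `(ψ', 1; 0, 0) ≅ (0, 1; 0, 0)` by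
`(1, 0; -ψ', 1)`. So `F ≅ (Λ + Ξᴴ ψ' Ξ) ⊕ hyp N`.
(2) `Zm = Φi Ξᴴ`, `u2 = (1, 0, Zm; 0, 1, 0; 0, 0, 1)`: modulo `Z - ε Zᴴ`,
`u2ᴴ F u2 = Λ ⊕ (ψ', 1; 0, κ)`, `κ = -Zmᴴ Λ Zm`: the entries `(1,3)`: `Λ Zm - Ξᴴ`, `(3,1)`: `Zmᴴ Λ`, together
`(Λ + ε Λᴴ) Zm - Ξᴴ = 0`; `(3,3)`: `Zmᴴ Λ Zm - Zmᴴ Ξᴴ = Zmᴴ Λ Zm - Zmᴴ (Λ + ε Λᴴ) Zm = -ε Zmᴴ Λᴴ Zm`, which is
`-Zmᴴ Λ Zm` modulo `Z - ε Zᴴ`.
So `(Λ + Ξᴴ ψ' Ξ) ⊕ hyp N ≅ Λ ⊕ (ψ', 1; 0, κ)` (`Isometric` is symmetric, transitive, compatible with sums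
and reindexing: see the auxiliary lemmas of `UV/EMV`, `UV/SWP`, `AU/GDS`); the right side is stably
hyperbolic as the sum of two such forms, so the left side is. -/
def SpecSCH : Prop :=
  ∀ (A : Type) [Ring A] [StarRing A] (ε : ℤˣ) (M N : Type) [Fintype M] [DecidableEq M] [Fintype N]
    [DecidableEq N] (Λ Φi : Matrix M M A) (Ξ : Matrix N M A) (ψ' : Matrix N N A),
    (Λ + (ε : ℤ) • Λᴴ) * Φi = 1 → Φi * (Λ + (ε : ℤ) • Λᴴ) = 1 → StablyHyperbolic ε Λ →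
    StablyHyperbolic ε (fromBlocks ψ' 1 0 (-((Φi * Ξᴴ)ᴴ * Λ * (Φi * Ξᴴ)))) →
    StablyHyperbolic ε (Λ + Ξᴴ * ψ' * Ξ)

/-- **SCU** (size 200, dep `SpecSCH`): elimination for `UF`.

PROOF. `ν = nu ε (ψ + ε ψᴴ) μ (χ + ε χᴴ)`, `w = W0 N ν`: `w (1 + ν) = 1 = (1 + ν) w` (geometric sum).
`Λ = UF ψ μ χ`, `Λ + ε Λᴴ = J (1 + ν)`, `J = (0, 1; ε, 0)`, `J⁻¹ = Ji = (0, ε; 1, 0)`; `Φi = w Ji`.
`Ξ' = fromCols Ξ 0 : r × (n ⊕ n)`: `Φi Ξ'ᴴ = w (0; Ξᴴ) = (blk w true false * Ξᴴ; blk w false false * Ξᴴ)`, so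
`-(Φi Ξ'ᴴ)ᴴ Λ (Φi Ξ'ᴴ) = kap ψ μ χ w Ξ`, `Λ + Ξ'ᴴ ψ' Ξ' = UF (ψ + Ξᴴ ψ' Ξ) μ χ`, `UF ψ' 0 κ = (ψ', 1; 0, κ)`. SCH.
Second part: `κ + ε κᴴ = -Zmᴴ (Λ + ε Λᴴ) Zm = -Zmᴴ Ξ'ᴴ = -(Ξ' Zm)ᴴ = -(Ξ (blk w true false) Ξᴴ)ᴴ`. -/
def SpecSCU : Prop :=
  ∀ (A : Type) [Ring A] [StarRing A] (ε : ℤˣ) (n r N : ℕ) (ψ μ χ : Matrix (Fin n) (Fin n) A)
    (Ξ : Matrix (Fin r) (Fin n) A) (ψ' : Matrix (Fin r) (Fin r) A),
    (nu ε (ψ + (ε : ℤ) • ψᴴ) μ (χ + (ε : ℤ) • χᴴ)) ^ N = 0 →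
    (StablyHyperbolic ε (UF ψ μ χ) →
      StablyHyperbolic ε (UF ψ' 0
        (kap ψ μ χ (W0 N (nu ε (ψ + (ε : ℤ) • ψᴴ) μ (χ + (ε : ℤ) • χᴴ))) Ξ)) →
      StablyHyperbolic ε (UF (ψ + Ξᴴ * ψ' * Ξ) μ χ)) ∧
    kap ψ μ χ (W0 N (nu ε (ψ + (ε : ℤ) • ψᴴ) μ (χ + (ε : ℤ) • χᴴ))) Ξ +
      (ε : ℤ) • (kap ψ μ χ (W0 N (nu ε (ψ + (ε : ℤ) • ψᴴ) μ (χ + (ε : ℤ) • χᴴ))) Ξ)ᴴ =
      -(Ξ * (blk (W0 N (nu ε (ψ + (ε : ℤ) • ψᴴ) μ (χ + (ε : ℤ) • χᴴ))) true false)ᴴ * Ξᴴ)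

/-- **KNA** (size 200): nilpotency.

PROOF. `ν0 = nu ε a0 μ b`: its blocks `blk ν0 s t` are in `E 1 s t` (`ε • b`, `μᴴ ∈ E 1 false false` by `star`). By
induction `blk (ν0 ^ i) s t ∈ E i s t` for `i ≥ 1` (`blk (ν0 ^ (i+1)) s t = ∑_q blk ν0 s q * blk (ν0 ^ i) q t`), so
`ν0 ^ N = 0` (`1 ≤ N`). `W = blk (W0 N ν0) true false ∈ E 1 true false` (the term `i = 0` of `W0` has the block `0`,
the others are in `E i ≤ E 1`), `Wᴴ ∈ E 1 true false`. `(θ α) ^ l * θ = ± Ξ (Wᴴ ac) ^ l Wᴴ Ξᴴ` (induction, with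
`Ξᴴ α Ξ = ac`), `(Wᴴ ac) ^ l Wᴴ ∈ E (2 l + 1) true false`, so it is `0` for `l = N`. So `(θ α) ^ (N+1) = 0`,
`(α θ) ^ (N+1) = 0`, and `nu ε α 0 θ = (0, ε θ; α, 0)` has the square `(ε θ α, 0; 0, ε α θ)`, so it is
nilpotent. -/
def SpecKNA : Prop :=
  ∀ (A : Type) [Ring A] [StarRing A] (ε : ℤˣ) (n r N : ℕ)
    (E : ℕ → Bool → Bool → AddSubgroup (Matrix (Fin n) (Fin n) A)), EFam E N → 1 ≤ N →
    ∀ (a0 ac μ b : Matrix (Fin n) (Fin n) A), a0 ∈ E 1 false true → ac ∈ E 1 false true →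
      μ ∈ E 1 true true → b ∈ E 1 true false →
      (nu ε a0 μ b) ^ N = 0 ∧
      ∀ (Ξ : Matrix (Fin r) (Fin n) A) (α θ : Matrix (Fin r) (Fin r) A), Ξᴴ * α * Ξ = ac →
        θ = -(Ξ * (blk (W0 N (nu ε a0 μ b)) true false)ᴴ * Ξᴴ) → IsNilpotent (nu ε α 0 θ)

/-- **KSP** (size 250, dep `SpecWDA`): the supports of `κ`.

PROOF. `ν = nu ε (ψ + ε ψᴴ) μ (χ + ε χᴴ)`: `blk ν s t` is supported in `XX X1' X2 X3 s t ⊆ WS s t` (inverse
closed `X1'`, `X2`; `Xinv X3`). `WS s r * WS r t ⊆ WS s t` (WDA (2)), `(WS s t)⁻¹ ⊆ WS (!t) (!s)` (WDA (3)),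
`H ⊆ WS s s`. By induction `blk (ν ^ i) s t` is supported in `WS s t` (`i = 0`: `1` or `0`), so
`blk (W0 N ν) s t` is. `z1 = blk w true false * Ξᴴ`: `WS true false`; `z2`: `WS false false`; stars: `z1ᴴ`:
`WS true false`, `z2ᴴ`: `WS true true`; `ψ`: `WS false true`, `1 + μᴴ`: `WS false false`, `χ`: `WS true false`. The
three products are supported in `WS true false`. (Lemma: `SuppIn X M → SuppIn Y M' →
SuppIn {z | ∃ x ∈ X, ∃ y ∈ Y, z = x * y} (M * M')`, `SuppIn X M → SuppIn X⁻¹ Mᴴ`.) -/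
def SpecKSP : Prop :=
  ∀ (R G : Type) [Ring R] [StarRing R] [Group G] (H : Subgroup G) (X1 X2 X3 Yp Ym X1' : Set G),
    Sub1 H X1 X2 X3 Yp Ym X1' → ∀ (ε : ℤˣ) (n r N : ℕ)
    (ψ μ χ : Matrix (Fin n) (Fin n) (MonoidAlgebra R G))
    (Ξ : Matrix (Fin r) (Fin n) (MonoidAlgebra R G)), SuppIn X1' ψ → SuppIn X3 μ →
    SuppIn X2 χ → SuppIn (H : Set G) Ξ →
    SuppIn (WS H X1' X2 X3 true false)
      (kap ψ μ χ (W0 N (nu ε (ψ + (ε : ℤ) • ψᴴ) μ (χ + (ε : ℤ) • χᴴ))) Ξ)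

/-- **ELM** (size 250, deps `SpecEFA`, `SpecFAC`, `SpecSCU`, `SpecKNA`, `SpecKSP`): the elimination.

PROOF (paper LEMMA 5). `c = dc H g` is biinvariant and inverse closed (`g² ∈ H`), `ψc = cutM c ψ`,
`ψ0 = cutM cᶜ ψ`, `ψ = ψ0 + ψc`. `a = ψ + ε ψᴴ`, `ac = ψc + ε ψcᴴ = cutM c a`, `a0 = ψ0 + ε ψ0ᴴ = cutM cᶜ a`. `N ≥ 1`
with `(nu ε a μ b) ^ N = 0`. EFA: `a0, ac ∈ E 1 false true`, `μ ∈ E 1 true true`, `b ∈ E 1 true false`
(`ε • (ε • b)`). KNA: `(nu ε a0 μ b) ^ N = 0`. FAC for `ψc`: `Ξ`, `ψ'`; `α = ψ' + ε ψ'ᴴ`, `Ξᴴ α Ξ = ac`. SCU for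
`ψ0`: `κ = kap ..`, `κ + ε κᴴ = -(Ξ wᴴ Ξᴴ)`; KSP with `X1' = {x ∈ X1 | x ∉ c}`: `supp κ`; KNA: nilpotent. So
`UF ψ' 0 κ` is stably hyperbolic by the hypothesis `hB` (`{x | x = g} ⊆ {l g}`). SCU: done
(`ψ0 + Ξᴴ ψ' Ξ = ψ`). The hypothesis `Sub1` for `X1'` is given as `hS`. -/
def SpecELM : Prop :=
  ∀ (R G : Type) [Ring R] [StarRing R] [Group G] (H : Subgroup G) (X1 X2 X3 Yp Ym : Set G),
    PingPong H X1 X2 X3 Yp Ym → ∀ (ε : ℤˣ) (n : ℕ)
    (ψ μ χ : Matrix (Fin n) (Fin n) (MonoidAlgebra R G)), SuppIn X1 ψ → SuppIn X3 μ →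
    SuppIn X2 χ → IsNilpotent (nu ε (ψ + (ε : ℤ) • ψᴴ) μ (χ + (ε : ℤ) • χᴴ)) →
    ∀ g ∈ X1, g * g ∈ H → Sub1 H X1 X2 X3 Yp Ym {x | x ∈ X1 ∧ x ∉ dc H g} →
    (∀ (r : ℕ) (ψ' κ : Matrix (Fin r) (Fin r) (MonoidAlgebra R G)),
      SuppIn {x | ∃ l ∈ Kg H g, x = l * g} ψ' →
      SuppIn (WS H {x | x ∈ X1 ∧ x ∉ dc H g} X2 X3 true false) κ →
      IsNilpotent (nu ε (ψ' + (ε : ℤ) • ψ'ᴴ) 0 (κ + (ε : ℤ) • κᴴ)) →
      StablyHyperbolic ε (UF ψ' 0 κ)) →
    IsNilpotent (nu ε (cutM (dc H g)ᶜ ψ + (ε : ℤ) • (cutM (dc H g)ᶜ ψ)ᴴ) μ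
      (χ + (ε : ℤ) • χᴴ)) ∧
    (StablyHyperbolic ε (UF (cutM (dc H g)ᶜ ψ) μ χ) → StablyHyperbolic ε (UF ψ μ χ))

/-! ### Part 4: the single block, Auslander regular `R[L]` -/

/-- **CMP** (size 200; imports `UV/RES`; see the proof of `AU/PRG`): componentwise boundaries.

PROOF. Choose representatives `t_j` of the right cosets `L t` which meet the supports of `x1`. Then
`x1 = ∑_j exv(x_j) t_j`, `x_j = lres L t_j x1` (and `x_j = 0` unless `t_j ∈ Y`, as `Y` is left `L`-invariant),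
`M x1 = ∑_j (M exv x_j) t_j`, the `j`-th summand is supported in `X t_j` (`X` is right `L`-invariant), a left
`L`-invariant set, and these sets are pairwise disjoint: `x t_j = x' t_i` gives `x⁻¹ x' = t_j t_i⁻¹ ∈ L` by
`Disj`. Let `M x1 = ext D u`; the parts of `u` and of `M x1` supported in `X t_j` (`cut (X t_j)`) satisfy
`(M exv x_j) t_j = ext D u_j` (`cut W` commutes with the left multiplication by `R[L]` for left `L`-invariant
`W`), so `M exv x_j = ext D (u_j t_j⁻¹)`. For a general `t`: if `lres L t x1 = 0` take `u = 0`; else `t = l t_j`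
and `lres L (l t_j) x1 = (lres L t_j x1) * single l⁻¹ 1`. -/
def SpecCMP : Prop :=
  ∀ (R G : Type) [Ring R] [Group G] (L : Subgroup G) (X Y : Set G),
    (∀ l ∈ L, ∀ x ∈ X, l * x ∈ X) → (∀ l ∈ L, ∀ x ∈ X, x * l ∈ X) →
    (∀ l ∈ L, ∀ y ∈ Y, l * y ∈ Y) → Disj L X Y → ∀ (m n k : Type) [Fintype m] [Fintype n]
    [Fintype k] (D : Matrix m k (MonoidAlgebra R L)) (M : Matrix m n (MonoidAlgebra R G))
    (x1 : n → MonoidAlgebra R G), SuppIn X M → SuppV Y x1 →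
    (∃ u : k → MonoidAlgebra R G, M *ᵥ x1 = ext D *ᵥ u) →
    ∀ t : G, ∃ u : k → MonoidAlgebra R G,
      M *ᵥ exv (fun i => lres L t (x1 i)) = ext D *ᵥ u

/-- **SUM** (size 150): the converse.

PROOF. `x1 = ∑_j exv(x_j) t_j` (finite sum over representatives of right cosets), so
`M x1 = ∑_j (M exv x_j) t_j = ext D (∑_j u_j t_j)`. -/
def SpecSUM : Prop :=
  ∀ (R G : Type) [Ring R] [Group G] (L : Subgroup G) (m n k : Type) [Fintype m] [Fintype n]
    [Fintype k] (D : Matrix m k (MonoidAlgebra R L)) (M : Matrix m n (MonoidAlgebra R G))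
    (x1 : n → MonoidAlgebra R G),
    (∀ t : G, ∃ u : k → MonoidAlgebra R G,
      M *ᵥ exv (fun i => lres L t (x1 i)) = ext D *ᵥ u) →
    ∃ u : k → MonoidAlgebra R G, M *ᵥ x1 = ext D *ᵥ u

/-- **YGX** (size 150): `a x = y g`.

PROOF. Entries of `a *ᵥ exv x` are supported in `L g L = L g` (`ag`, `ar`), so `(a *ᵥ exv x) i = exv y i * g` with
`y i = lres L g ((a *ᵥ exv x) i)` (for `z` supported in `L g`: `z = emb (lres L g z) * single g 1`). Degrees:
`ga`: `(a x)_i ≠ 0` only if `C.deg i = -k`, that is `C.dual.deg i = k`. `C.dual.d y = 0`: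
`ext (C.dᴴ) (exv y) g = (ext C.d)ᴴ a (exv x) = a (ext C.d) (exv x) = 0` (`ca`), and `exv` is injective. For the
second part use the same for a column: `D = 0`. -/
def SpecYGX : Prop :=
  ∀ (R G : Type) [Ring R] [StarRing R] [Group G] (L : Subgroup G) (g : G) (Xa Xb Y : Set G),
    Loc L g Xa Xb Y →
    (∀ (ε : ℤˣ) (C : FC (MonoidAlgebra R L)) (a b : Matrix C.I C.I (MonoidAlgebra R G)) (k : ℤ),
      NF L Xa Xb ∅ ε C a 0 b → ∀ x ∈ C.Cy k, ∃ y ∈ C.dual.Cy k, ∀ i,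
        (a *ᵥ exv x) i = exv (G := G) y i * MonoidAlgebra.single g 1) ∧
    (∀ (m n : Type) [Fintype n] (a : Matrix m n (MonoidAlgebra R G)) (x : n → MonoidAlgebra R L),
      SuppIn Xa a → ∃ y : m → MonoidAlgebra R L, ∀ i,
        (a *ᵥ exv x) i = exv (G := G) y i * MonoidAlgebra.single g 1)

/-- **SWB** (size 60; imports `AU/SWA`): the exchange, with `X3 = ∅`, `μ = 0`.

PROOF. `specSWA` with `X3 = ∅`: `Xinv ∅ = ∅`, `0ᴴ = 0`. -/
def SpecSWB : Prop :=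
  ∀ (R G : Type) [Ring R] [StarRing R] [Group G] (L : Subgroup G) (Xa Xb : Set G) (ε : ℤˣ)
    (C : FC (MonoidAlgebra R L)) (a b : Matrix C.I C.I (MonoidAlgebra R G)),
    NF L Xa Xb ∅ ε C a 0 b →
    NF L Xb Xa ∅ ε C.dual b 0 a ∧ (Good Xb Xa ε C.dual b 0 a → Good Xa Xb ε C a 0 b)

/-- **SUR** (size 280; imports `RO/AUM`): a surgery (paper SG).

PROOF. `Z = Ker C a 0 k` (the condition on `μ = 0` is trivial), `C.Bd k ≤ Z ≤ C.Cy k` (see `AU/STE`). `RD C k Z J g`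
from `auRSZ` (`k = 0`) or `auRSP`. `auEXF` with `X3 = ∅`, `μ = 0`: `f`, `f'`, `t`; `f' = 0` because it is supported in
`∅`. `C' = cone C J g`, `a' = newa ε a f t`, `b' = fromBlocks b 0 0 0`, `μ' = fromBlocks 0 0 0 0 = 0`. `specCNF`,
`specCNE`, `specGDS`. `p = fromRows 1 0` (the inclusion). `ch`: `C'.d * p = (C.d; 0) = p * C.d`. `ea`, `eb`: block
computations. `top`: an index `inr j` has the degree `J.deg j - 1 ≤ k - 1`, so `x' = (x; 0)`, `C.d x = 0`. `kill`: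
`x ∈ Ker C a 0 k`, `g3'`: `x = g y + C.d w`, `J.deg = k` on `y`, so `J.d y = 0` and `C'.d (w; y) = (x; 0) = p x`.
`inj`: `y' = (x; z)`: `(ext C.d)ᴴ x = 0`, `(ext g)ᴴ x + (ext J.d)ᴴ z = 0`, degrees: `-C.deg i = k`,
`1 - J.deg j = k`, `(ext p)ᴴ y' = x = (ext C.d)ᴴ u`: `specCNE` (2) (with `ExA J.dual k univ` from `specFLT` and
`g4`): `x = (ext C.d)ᴴ u`, `z = (ext g)ᴴ u + (ext J.d)ᴴ v`, so `y' = (ext C'.d)ᴴ (u; v)`. `good`: GDS. -/
def SpecSUR : Prop :=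
  ∀ (R G : Type) [Ring R] [StarRing R] [Group G] (L : Subgroup G) (Xa Xb : Set G) (ε : ℤˣ),
    AuslanderRegular (MonoidAlgebra R L) →
    (∀ l ∈ L, ∀ x ∈ Xa, l * x ∈ Xa) → (∀ l ∈ L, ∀ x ∈ Xa, x * l ∈ Xa) →
    (∀ x ∈ Xa, x⁻¹ ∈ Xa) → (∀ x ∈ Xa, x⁻¹ ≠ x) →
    ∀ (C : FC (MonoidAlgebra R L)) (a b : Matrix C.I C.I (MonoidAlgebra R G)) (k : ℕ),
    NF L Xa Xb ∅ ε C a 0 b → C.ExBelow k → C.dual.ExBelow k →
    ∃ (C' : FC (MonoidAlgebra R L)) (a' b' : Matrix C'.I C'.I (MonoidAlgebra R G))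
      (p : Matrix C'.I C.I (MonoidAlgebra R L)), Sur Xa Xb ε k C C' a b a' b' p

/-- **SUB** (size 180, deps `SpecSUR`, `SpecSWB`): a surgery on the dual.

PROOF. SWB: `NF L Xb Xa ∅ ε C.dual b 0 a`; level: `C.dual.dual` has the degrees `- - C.deg i` and the
differential `C.d` (`conjTranspose_conjTranspose`). SUR for `(C.dual; b, a)` (roles of `Xa`, `Xb` exchanged):
`C'`, `b'`, `a'`, `p`. `C1 = C'.dual`, `a1 = a'`, `b1 = b'`, `q = pᴴ`. `NF` for `C1` from SWB for `C'` (the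
`NF L Xb Xa ∅ ε C' b' 0 a'`), `good`: `Good Xa Xb C'.dual a' 0 b' → Good Xb Xa C' b' 0 a'` (SWB for `C'`),
`→ Good Xb Xa C.dual b 0 a` (SUR), `→ Good Xa Xb C a 0 b` (SWB for `C`). The other fields are the stars of those
of `Sur` (`C1.d = C'.dᴴ`, `ext (pᴴ) = (ext p)ᴴ`). -/
def SpecSUB : Prop :=
  ∀ (R G : Type) [Ring R] [StarRing R] [Group G] (L : Subgroup G) (Xa Xb : Set G) (ε : ℤˣ),
    AuslanderRegular (MonoidAlgebra R L) →
    (∀ l ∈ L, ∀ x ∈ Xb, l * x ∈ Xb) → (∀ l ∈ L, ∀ x ∈ Xb, x * l ∈ Xb) →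
    (∀ x ∈ Xb, x⁻¹ ∈ Xb) → (∀ x ∈ Xb, x⁻¹ ≠ x) →
    ∀ (C : FC (MonoidAlgebra R L)) (a b : Matrix C.I C.I (MonoidAlgebra R G)) (k : ℕ),
    NF L Xa Xb ∅ ε C a 0 b → C.ExBelow k → C.dual.ExBelow k →
    ∃ (C1 : FC (MonoidAlgebra R L)) (a1 b1 : Matrix C1.I C1.I (MonoidAlgebra R G))
      (q : Matrix C.I C1.I (MonoidAlgebra R L)), SurB Xa Xb ε k C C1 a b a1 b1 q

/-- **STB** (size 280, deps `SpecSUB`, `SpecCMP`, `SpecSUM`, `SpecYGX`): step b.

PROOF. SUB: `C1`, `q`. For `x ∈ C1.Cy k`: `q x ∈ C.Cy k` (`gq`, `ch`). `ext q (b1 a1) = b a (ext q)`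
(`a1 = qᴴ a q`, `q b1 qᴴ = b`), so `ext q ((b1 a1)^l x) = (b a)^l (exv (q x))`. `PL (l+1)`: `inj` for
`(b1 a1)^(l+1) x` (it is a cocycle of degree `k` over `R[G]`: `ca`, `cb`, `ga`, `gb`). `QL l`: `x' = (b a)^l exv(q x)`;
`supp x' ⊆ Y` (`exv (..)` is supported in `L ⊆ Y`; `ya`); `x'` is a cocycle of degree `k`, so are its components
`x_t = lres L t x' ∈ C.Cy k`. `(b a) x' = ext C.d u` by `PL (l+1)`. CMP with `M = b * a`, `X = {z x | z ∈ Xb, x ∈ Xa}`,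
`D = C.d` (`Disj L X Y` from `dj`: `z x t = z' x' t'` gives `(z x)⁻¹ (z' x') = t t'⁻¹ ∈ L`): `b a exv x_t = ext C.d u_t`.
YGX: `a exv x_t = (exv y_t) g`, `y_t ∈ C.dual.Cy k`; so `b exv y_t = ext C.d (u_t g⁻¹)`; `kill`:
`qᴴ y_t = C1.dᴴ u'`, so `(ext q)ᴴ a exv x_t = (ext q)ᴴ (exv y_t) g = (ext C1.d)ᴴ (..)`. SUM with `M = (ext q)ᴴ * a`,
`D = C1.dᴴ`: `(ext q)ᴴ a x' = (ext C1.d)ᴴ u`, and `a1 (b1 a1)^l exv x = (ext q)ᴴ a (ext q) (b1 a1)^l exv x =
(ext q)ᴴ a x'`. -/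
def SpecSTB : Prop :=
  ∀ (R G : Type) [Ring R] [StarRing R] [Group G] (L : Subgroup G) (g : G) (Xa Xb Y : Set G),
    Loc L g Xa Xb Y → ∀ ε : ℤˣ, AuslanderRegular (MonoidAlgebra R L) →
    ∀ (C : FC (MonoidAlgebra R L)) (a b : Matrix C.I C.I (MonoidAlgebra R G)) (k l : ℕ),
    NF L Xa Xb ∅ ε C a 0 b → C.ExBelow k → C.dual.ExBelow k → PL C a b k (l + 1) →
    ∃ (C1 : FC (MonoidAlgebra R L)) (a1 b1 : Matrix C1.I C1.I (MonoidAlgebra R G)),
      NF L Xa Xb ∅ ε C1 a1 0 b1 ∧ C1.ExBelow k ∧ C1.dual.ExBelow k ∧ PL C1 a1 b1 k (l + 1) ∧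
      QL C1 a1 b1 k l ∧ (Good Xa Xb ε C1 a1 0 b1 → Good Xa Xb ε C a 0 b)

/-- **STA** (size 250, deps `SpecSUR`, `SpecCMP`, `SpecSUM`): step a.

PROOF. SUR: `C'`, `p`. `x' ∈ C'.Cy k` is `p x`, `x ∈ C.Cy k` (`top`). `(b' a') (ext p) = (ext p) (b a)` (`b' = p b pᴴ`,
`pᴴ a' p = a`), so `(b' a')^l exv(p x) = (ext p) x''`, `x'' = (b a)^l exv x`, supported in `Y`, a cocycle of degree
`k`, `a x'' = (ext C.d)ᴴ u` (`QL l`). CMP with `M = a`, `X = Xa`, `D = C.dᴴ` (`Disj L Xa Y`: `x, x' ∈ Xa = L g = g L`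
gives `x⁻¹ x' ∈ L`; `g L g⁻¹ = L` follows from `ag`, `ar`, `ai`): `a exv x_t = (ext C.d)ᴴ u_t`, `x_t = lres L t x'' ∈ C.Cy k`;
`kill`: `p x_t = C'.d u'`. SUM with `M = ext p`, `D = C'.d`: `(ext p) x'' = ext C'.d u`. -/
def SpecSTA : Prop :=
  ∀ (R G : Type) [Ring R] [StarRing R] [Group G] (L : Subgroup G) (g : G) (Xa Xb Y : Set G),
    Loc L g Xa Xb Y → ∀ ε : ℤˣ, AuslanderRegular (MonoidAlgebra R L) →
    ∀ (C : FC (MonoidAlgebra R L)) (a b : Matrix C.I C.I (MonoidAlgebra R G)) (k l : ℕ),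
    NF L Xa Xb ∅ ε C a 0 b → C.ExBelow k → C.dual.ExBelow k → QL C a b k l →
    ∃ (C' : FC (MonoidAlgebra R L)) (a' b' : Matrix C'.I C'.I (MonoidAlgebra R G)),
      NF L Xa Xb ∅ ε C' a' 0 b' ∧ C'.ExBelow k ∧ C'.dual.ExBelow k ∧ PL C' a' b' k l ∧
      (Good Xa Xb ε C' a' 0 b' → Good Xa Xb ε C a 0 b)

/-- **LVB** (size 280, deps `SpecSTB`, `SpecSTA`, `SpecSUB`; imports `RO/AUM`): one level.

PROOF. `nil`: `nu ε a 0 b = (0, ε b; a, 0)` is nilpotent, so `(b a)^l = 0` for some `l`, `PL k l`. Induction on `l`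
(for all states): if `PL k l` and level `k` then the conclusion. `l + 1`: STB, STA, induction (compose the
`Good` implications). `l = 0`: every `x ∈ C.Cy k` is `ext C.d u` over `R[G]`, so over `R[L]` (apply `lres L 1`), so
`C.ExBelow (k + 1)` (see `AU/LVL`). SUB: `C1`, `q`. `C1.ExBelow (k + 1)`: for `x ∈ C1.Cy k`: `q x ∈ C.Cy k` is a
boundary, `inj` over `R[G]`, back to `R[L]` by `lres L 1`. `C1.dual.ExBelow (k + 1)`: `y' ∈ C1.dual.Cy k` is `qᴴ y`,
`y ∈ C.dual.Cy k` (`top`); `b exv y` is a cocycle of `C` of degree `k` over `R[G]` (`cb`: `ext C.d b = b (ext C.d)ᴴ`),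
so it is `ext C.d u` (`specFLT` for `C.ExBelow (k + 1)`, `X = univ`); `kill`: `qᴴ y = C1.dᴴ u'`. -/
def SpecLVB : Prop :=
  ∀ (R G : Type) [Ring R] [StarRing R] [Group G] (L : Subgroup G) (g : G) (Xa Xb Y : Set G),
    Loc L g Xa Xb Y → ∀ ε : ℤˣ, AuslanderRegular (MonoidAlgebra R L) →
    ∀ (C : FC (MonoidAlgebra R L)) (a b : Matrix C.I C.I (MonoidAlgebra R G)) (k : ℕ),
    NF L Xa Xb ∅ ε C a 0 b → C.ExBelow k → C.dual.ExBelow k →
    ∃ (C' : FC (MonoidAlgebra R L)) (a' b' : Matrix C'.I C'.I (MonoidAlgebra R G)),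
      NF L Xa Xb ∅ ε C' a' 0 b' ∧ C'.ExBelow (k + 1 : ℕ) ∧ C'.dual.ExBelow (k + 1 : ℕ) ∧
      (Good Xa Xb ε C' a' 0 b' → Good Xa Xb ε C a 0 b)

/-- The theorem on a single block. -/
def Blk (R : Type) {G : Type} [Ring R] [StarRing R] [Group G] (Xa Xb : Set G) : Prop :=
  ∀ (ε : ℤˣ) (n : ℕ) (ψ χ : Matrix (Fin n) (Fin n) (MonoidAlgebra R G)), SuppIn Xa ψ →
    SuppIn Xb χ → IsNilpotent (nu ε (ψ + (ε : ℤ) • ψᴴ) 0 (χ + (ε : ℤ) • χᴴ)) →
    StablyHyperbolic ε (UF ψ 0 χ)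

/-- **SBT** (size 180, dep `SpecLVB`; imports `RO/AUM`; see `AU/FNU`): the single block.

PROOF. `C0`: `I = Fin n`, `deg = 0`, `d = 0`; `NF`, level `0` are clear. LVB `k` times, `k` from `auACY`, then `auACY`:
exact; `auENV`: `Good` (`X1 = Xa`, `X2 = Xb`, `X3 = ∅`, `μ = 0`); back to `Good` for `C0`, apply to `ψ`, `χ`
(reindex `{i // 0 = 0} ≃ Fin n`), exactly as in `AU/FNU.lean`. -/
def SpecSBT : Prop :=
  ∀ (R G : Type) [Ring R] [StarRing R] [Group G] (L : Subgroup G) (g : G) (Xa Xb Y : Set G),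
    Loc L g Xa Xb Y → AuslanderRegular (MonoidAlgebra R L) → Blk R Xa Xb

/-! ### Part 5: the single block, (FP) for `R[L]` -/

/-- **FPM** (size 150; imports `UV/STK`, `UV/RES`): the P-move.

PROOF. `specSTK specRES` with `H = L`, `X1 = X`, `X3 = ∅`, `μ = 0`: `p`, `a'`, `m'`, `IsPM`. If `a y = 0` with `supp y ⊆ L` then
`pᴴ a' (p y) = 0`, `m' (p y) = 0` (`m' = 0`: `m' p = μ = 0`, `cancel`), `supp (p y) ⊆ L`, `inj` with `Y = L`
(`Disj L X L`: `x y = x' y'`, `y, y' ∈ L` gives `x⁻¹ x' = y y'⁻¹ ∈ L`; `Disj L ∅ L` is trivial), for the matrix with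
one column `p y`: `p y = 0`. -/
def SpecFPM : Prop :=
  ∀ (R G : Type) [Ring R] [StarRing R] [Group G] (L : Subgroup G) (X : Set G) (ε : ℤˣ) (n : ℕ)
    (a : Matrix (Fin n) (Fin n) (MonoidAlgebra R G)), FP (MonoidAlgebra R L) →
    (∀ l ∈ L, ∀ x ∈ X, l * x ∈ X) → (∀ l ∈ L, ∀ x ∈ X, x * l ∈ X) → SuppIn X a →
    a = (ε : ℤ) • aᴴ →
    ∃ (r : ℕ) (p : Matrix (Fin r) (Fin n) (MonoidAlgebra R G))
      (a' : Matrix (Fin r) (Fin r) (MonoidAlgebra R G)), SuppIn (L : Set G) p ∧ SuppIn X a' ∧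
      a' = (ε : ℤ) • a'ᴴ ∧ a = pᴴ * a' * p ∧
      (∀ (l : Type) (Z : Matrix l (Fin r) (MonoidAlgebra R G)), Z * p = 0 → Z = 0) ∧
      (∀ y : Fin n → MonoidAlgebra R G, SuppV (L : Set G) y → a *ᵥ y = 0 → p *ᵥ y = 0)

/-- **SBF** (size 350, deps `SpecFPM`, `SpecCMP`, `SpecSUM`, `SpecYGX`; imports `UV/TAT`, `UV/EMV`, `UV/SWP`).

PROOF. For `a = ψ + ε ψᴴ`, `b = χ + ε χᴴ`: `P(l)`: `(b a)^l = 0`, `Q(l)`: `a (b a)^l = 0`. B-MOVE (`P(l+1)` to `P(l+1)`,
`Q(l)`): FPM for `b`, `X = Xb`: `b = pᴴ b' p`, `a1 = p a pᴴ`, `b1 = b'`; `pᴴ (b1 a1) = (b a) pᴴ`, so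
`pᴴ (b1 a1)^l = (b a)^l pᴴ`; `pᴴ Z = 0 → Z = 0` (star of `cancel`), so `P(l+1)`. `X' = (b a)^l pᴴ`: its columns `x'` are
supported in `Y`, `(b a) x' = 0`; CMP with `D = 0` (`k = Empty` or `Fin 0`; `ext D u = 0`), `M = b * a`:
`(b a) exv x_t = 0`; YGX (second part): `a exv x_t = (exv y_t) g`, so `b exv y_t = 0`, so `p exv y_t = 0`, so
`(p a) exv x_t = 0`; SUM with `D = 0`: `(p a) x' = 0`. So `a1 (b1 a1)^l = p a pᴴ (b1 a1)^l = p a (b a)^l pᴴ = 0`. A-MOVE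
(`Q(l)` to `P(l)`): FPM for `a`, `X = Xa`: `a = pᴴ a' p`, `a2 = a'`, `b2 = p b pᴴ`; `(b2 a2) p = p (b a)`, so
`(b2 a2)^l p = p (b a)^l`; the columns `x''` of `(b a)^l` are supported in `Y`, `a x'' = 0`, CMP with `M = a`
(`Disj L Xa Y` as in STA): `a exv x_t = 0`, so `p exv x_t = 0`, SUM: `p x'' = 0`; so `(b2 a2)^l p = 0`, `cancel`: `P(l)`.
FORMS. A-move: `ψ' ` with `a' = ψ' + ε ψ'ᴴ`, `supp ψ' ⊆ Xa` (TAT), `ψ - pᴴ ψ' p` is even (TAT with `-ε`, SWP (2)), EMV with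
`m' = 0`: `UF ψ' 0 (p χ pᴴ)` stably hyperbolic implies it for `UF (pᴴ ψ' p) 0 χ`. B-move: the same after SWP (1).
`supp (p χ pᴴ) ⊆ Xb`, `supp (p a pᴴ) ⊆ Xa` and `p ψ pᴴ` is the new `ψ`. Induction on `l`; `l = 0`: `1 = 0` as
`n × n` matrices, so all matrices are `0`, SWP (3). `nu ε a 0 b` nilpotent gives `(b a)^l = 0` for some `l`. -/
def SpecSBF : Prop :=
  ∀ (R G : Type) [Ring R] [StarRing R] [Group G] (L : Subgroup G) (g : G) (Xa Xb Y : Set G),
    Loc L g Xa Xb Y → FP (MonoidAlgebra R L) → Blk R Xa Xb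

/-! ### Part 6: the theorem -/

/-- **ROT** (size 300, deps `SpecNWT`, `SpecLOC`, `SpecELM`, `SpecSBT`, `SpecSBF`; imports `UV/SWP`, `UV/IND`).

PROOF. `PingPongX` is symmetric under `(X1, X2, X3, Yp, Ym) ↦ (X2, X1, Xinv X3, Ym, Yp)` (`INDAux.pp_swap` and the
four extra fields), so is the hypothesis on the flips; `UF χ μᴴ ψ` is stably hyperbolic iff `UF ψ μ χ` is (SWP (1));
the nilpotency is preserved (`INDAux`: `nu ε b μᴴ a`). Measure: `m(ψ, χ)` = number of triples `(i, j, x)` with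
`x ∈ supp (ψ i j)`, `Flip H x`, plus the same number for `χ`. Strong induction on the measure, for all data
(both orientations). Measure `0`: NWT. Otherwise, if `x ∈ supp (ψ i j)` with `x⁻¹ = h x h'`, `h, h' ∈ H`: then
`x h x = h'⁻¹`, so `g = x h` satisfies `g g = x h x h = h'⁻¹ h ∈ H`; `g ∈ X1` (`X1r`), `x ∈ dc H g`. LOC:
`Sub1`, `Loc`; the hypothesis for `g`: SBT or SBF give
`Blk R (L g) (WS ..)`. ELM: it suffices that `UF (cutM (dc H g)ᶜ ψ) μ χ` is stably hyperbolic; its `ν` is nilpotent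
(ELM), the supports are in `X1`, `X3`, `X2`, and the measure is smaller (the triple of `x` has disappeared). If the
flip is in `supp χ`: exchange. -/
def SpecROT : Prop :=
  ∀ (R G : Type) [Ring R] [StarRing R] [Group G] (H : Subgroup G) (X1 X2 X3 Yp Ym : Set G),
    PingPongX H X1 X2 X3 Yp Ym →
    (∀ g : G, g ∈ X1 ∨ g ∈ X2 → g * g ∈ H →
      AuslanderRegular (MonoidAlgebra R (Kg H g)) ∨ FP (MonoidAlgebra R (Kg H g))) →
    ∀ (ε : ℤˣ) (n : ℕ) (ψ μ χ : Matrix (Fin n) (Fin n) (MonoidAlgebra R G)), SuppIn X1 ψ →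
    SuppIn X3 μ → SuppIn X2 χ →
    IsNilpotent (nu ε (ψ + (ε : ℤ) • ψᴴ) μ (χ + (ε : ℤ) • χᴴ)) → StablyHyperbolic ε (UF ψ μ χ)

/-- **FIN** (size 120, deps `SpecTRX`, `SpecROT`): the theorem for trees.

PROOF. `H = stabilizer v ⊓ stabilizer w`; `Kg H g = (stabilizer v ⊓ stabilizer w) ⊓ (stabilizer (g • v) ⊓
stabilizer (g • w))` (`Subgroup.ext`, `mem_Kg`: `g⁻¹ x g` fixes `v` iff `x` fixes `g • v`); `g * g ∈ H` iff `g • g • v = v`
and `g • g • w = w`. Rewrite the hypothesis with the equality of subgroups (`▸`). -/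
def SpecFIN : Prop :=
  ∀ (R G V : Type) [Ring R] [StarRing R] [Group G] [MulAction G V] (T : SimpleGraph V) (v w : V),
    T.IsTree → (∀ (g : G) (x y : V), T.Adj x y → T.Adj (g • x) (g • y)) → T.Adj v w →
    (∀ g : G, ¬ (g • v = w ∧ g • w = v)) →
    (∀ g : G, (g • v = v ∧ g • w ≠ w) ∨ (g • w = w ∧ g • v ≠ v) → g • g • v = v → g • g • w = w →
      AuslanderRegular (MonoidAlgebra R
        ↥((MulAction.stabilizer G v ⊓ MulAction.stabilizer G w) ⊓
          (MulAction.stabilizer G (g • v) ⊓ MulAction.stabilizer G (g • w)))) ∨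
      FP (MonoidAlgebra R
        ↥((MulAction.stabilizer G v ⊓ MulAction.stabilizer G w) ⊓
          (MulAction.stabilizer G (g • v) ⊓ MulAction.stabilizer G (g • w))))) →
    ∀ (ε : ℤˣ) (n : ℕ) (ψ μ χ : Matrix (Fin n) (Fin n) (MonoidAlgebra R G)),
      SuppIn {g | g • v = v ∧ g • w ≠ w} ψ → SuppIn {g | g • v = w} μ →
      SuppIn {g | g • w = w ∧ g • v ≠ v} χ →
      IsNilpotent (nu ε (ψ + (ε : ℤ) • ψᴴ) μ (χ + (ε : ℤ) • χᴴ)) →
      StablyHyperbolic ε (UF ψ μ χ)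

end Pool.Agent.Lib.MPb6f35e.TT.RO

/-! ## Module RO/CMP -/

/-!
# RO, module CMP (helper94): componentwise boundaries

The restriction to a right coset is the lemma `PRGAux.coset` of the module PRG (helper87).
-/

namespace Pool.Agent.Lib.MPb6f35e.TT.RO

open Matrix Pool.Agent.Lib.MPb6f35e.TT.UV Pool.Agent.Lib.MPb6f35e.TT.AU
open Pool.Agent.Lib.MPb6f35e.TT.UO (ext)

theorem specCMP : SpecCMP := by
  intro R G _ _ L X Y hXl hXr hYl hd m n k _ _ _ D M x1 hM hx h t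
  obtain ⟨u, hu⟩ := h
  exact PRGAux.coset D u hXl hXr hYl hd hM hx hu t

end Pool.Agent.Lib.MPb6f35e.TT.RO

/-! ## Module RO/EFA -/

/-!
# Module EFA (MP_8a3537_gt, folder RO): the family `EE`
-/

set_option autoImplicit false


namespace Pool.Agent.Lib.MPb6f35e.TT.RO

open Matrix Pool.Agent.Lib.MPb6f35e.TT.UV Pool.Agent.Lib.MPb6f35e.TT.AU

namespace EFAAux

variable {R G : Type} [Ring R] [Group G] {H : Subgroup G}

section One

variable {n : Type} [Fintype n] {N : Matrix (n ⊕ n) (n ⊕ n) (MonoidAlgebra R G)}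

theorem EE_of {j k : ℕ} {s t : Bool} {M : Matrix n n (MonoidAlgebra R G)} (hjk : k ≤ j)
    (h : Wrd H N j s t M) : M ∈ EE H N k s t :=
  AddSubgroup.subset_closure ⟨j, hjk, h⟩

theorem wrd_mul {j l : ℕ} {s r t : Bool} {M M' : Matrix n n (MonoidAlgebra R G)}
    (h : Wrd H N j s r M) (h' : Wrd H N l r t M') : Wrd H N (j + l) s t (M * M') := by
  induction h with
  | one hc =>
    rw [Nat.add_comm]
    exact Wrd.cons hc h'
  | @cons k s r q c P hc hP ih =>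
    rw [Matrix.mul_assoc, show k + 1 + l = (k + l) + 1 by omega]
    exact Wrd.cons hc (ih h')

theorem EE_mul {k l : ℕ} {s r t : Bool} {M M' : Matrix n n (MonoidAlgebra R G)}
    (hM : M ∈ EE H N k s r) (hM' : M' ∈ EE H N l r t) : M * M' ∈ EE H N (k + l) s t := by
  unfold EE at hM
  induction hM using AddSubgroup.closure_induction with
  | mem M h =>
    obtain ⟨j, hj, hw⟩ := h
    unfold EE at hM'
    induction hM' using AddSubgroup.closure_induction with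
    | mem M' h' =>
      obtain ⟨j', hj', hw'⟩ := h'
      exact EE_of (by omega) (wrd_mul hw hw')
    | zero => rw [Matrix.mul_zero]; exact zero_mem _
    | add x y _ _ hx hy => rw [Matrix.mul_add]; exact add_mem hx hy
    | neg x _ hx => rw [Matrix.mul_neg]; exact neg_mem hx
  | zero => rw [Matrix.zero_mul]; exact zero_mem _
  | add x y _ _ hx hy => rw [Matrix.add_mul]; exact add_mem hx hy
  | neg x _ hx => rw [Matrix.neg_mul]; exact neg_mem hx

theorem EE_mono {k l : ℕ} (s t : Bool) (h : k ≤ l) : EE H N l s t ≤ EE H N k s t :=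
  AddSubgroup.closure_mono fun _ ⟨j, hj, hw⟩ => ⟨j, h.trans hj, hw⟩

theorem cut_univ (x : MonoidAlgebra R G) : cut Set.univ x = x := by
  ext g
  rw [cut_coeff, if_pos (Set.mem_univ g)]

theorem cutM_univ {m : Type} (M : Matrix m m (MonoidAlgebra R G)) : cutM Set.univ M = M := by
  funext i j
  exact cut_univ (M i j)

omit [Group G] in
theorem cut_neg (c : Set G) (x : MonoidAlgebra R G) : cut c (-x) = -cut c x := by
  ext g
  rw [cut_coeff, MonoidAlgebra.coeff_neg, MonoidAlgebra.coeff_neg, Finsupp.neg_apply,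
    Finsupp.neg_apply, cut_coeff]
  split_ifs
  · rfl
  · rw [neg_zero]

theorem cutM_neg {m : Type} (c : Set G) (M : Matrix m m (MonoidAlgebra R G)) :
    cutM c (-M) = -cutM c M := by
  funext i j
  exact cut_neg c (M i j)

theorem bi_univ : Bi H (Set.univ : Set G) :=
  ⟨fun _ _ _ _ => Set.mem_univ _, fun _ _ _ _ => Set.mem_univ _⟩

theorem bi_inv {c : Set G} (h : Bi H c) : Bi H {x | x⁻¹ ∈ c} := by
  refine ⟨fun k hk x hx => ?_, fun k hk x hx => ?_⟩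
  · show (k * x)⁻¹ ∈ c
    rw [_root_.mul_inv_rev]
    exact h.2 _ (inv_mem hk) _ hx
  · show (x * k)⁻¹ ∈ c
    rw [_root_.mul_inv_rev]
    exact h.1 _ (inv_mem hk) _ hx

end One

variable [StarRing R]

theorem cut_star (c : Set G) (x : MonoidAlgebra R G) :
    star (cut c x) = cut {y | y⁻¹ ∈ c} (star x) := by
  ext g
  rw [star_coeff, cut_coeff, cut_coeff, star_coeff]
  by_cases h : g⁻¹ ∈ c
  · rw [if_pos h, if_pos (show g ∈ {y | y⁻¹ ∈ c} from h)]
  · rw [if_neg h, if_neg (show ¬ g ∈ {y | y⁻¹ ∈ c} from h), star_zero]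

theorem cutM_star {m : Type} (c : Set G) (M : Matrix m m (MonoidAlgebra R G)) :
    (cutM c M)ᴴ = cutM {y | y⁻¹ ∈ c} Mᴴ := by
  funext i j
  exact cut_star c (M j i)

section Two

variable {n : ℕ} {ε : ℤˣ} {a μ b : Matrix (Fin n) (Fin n) (MonoidAlgebra R G)}

theorem blk_star (ha : a = (ε : ℤ) • aᴴ) (hb : b = (ε : ℤ) • bᴴ) (s t : Bool) :
    (blk (nu ε a μ b) s t)ᴴ = blk (nu ε a μ b) (!t) (!s) ∨
      (blk (nu ε a μ b) s t)ᴴ = -blk (nu ε a μ b) (!t) (!s) := by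
  have h11 : blk (nu ε a μ b) true true = μ := rfl
  have h22 : blk (nu ε a μ b) false false = μᴴ := rfl
  have h12 : blk (nu ε a μ b) true false = (ε : ℤ) • b := rfl
  have h21 : blk (nu ε a μ b) false true = a := rfl
  cases s <;> cases t
  · left
    show (blk (nu ε a μ b) false false)ᴴ = blk (nu ε a μ b) true true
    rw [h11, h22, conjTranspose_conjTranspose]
  · show (blk (nu ε a μ b) false true)ᴴ = blk (nu ε a μ b) false true ∨
      (blk (nu ε a μ b) false true)ᴴ = -blk (nu ε a μ b) false true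
    rw [h21]
    rcases Int.units_eq_one_or ε with rfl | rfl
    · left
      rw [Units.val_one, one_smul] at ha
      exact ha.symm
    · right
      rw [Units.val_neg, Units.val_one, neg_smul, one_smul] at ha
      rw [eq_neg_iff_add_eq_zero]
      nth_rewrite 2 [ha]
      rw [add_neg_cancel]
  · show (blk (nu ε a μ b) true false)ᴴ = blk (nu ε a μ b) true false ∨
      (blk (nu ε a μ b) true false)ᴴ = -blk (nu ε a μ b) true false
    rw [h12]
    rcases Int.units_eq_one_or ε with rfl | rfl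
    · left
      rw [Units.val_one, one_smul] at hb ⊢
      exact hb.symm
    · right
      rw [Units.val_neg, Units.val_one, neg_smul, one_smul] at hb
      rw [Units.val_neg, Units.val_one, neg_smul, one_smul, neg_neg, conjTranspose_neg]
      exact hb.symm
  · left
    show (blk (nu ε a μ b) true true)ᴴ = blk (nu ε a μ b) false false
    rw [h11, h22]

theorem letter_star (ha : a = (ε : ℤ) • aᴴ) (hb : b = (ε : ℤ) • bᴴ) (s t : Bool) {c : Set G}
    (hc : Bi H c) : (cutM c (blk (nu ε a μ b) s t))ᴴ ∈ EE H (nu ε a μ b) 1 (!t) (!s) := by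
  rw [cutM_star]
  rcases blk_star (μ := μ) ha hb s t with h | h
  · rw [h]
    exact EE_of le_rfl (Wrd.one (bi_inv hc))
  · rw [h, cutM_neg]
    exact neg_mem (EE_of le_rfl (Wrd.one (bi_inv hc)))

theorem wrd_star (ha : a = (ε : ℤ) • aᴴ) (hb : b = (ε : ℤ) • bᴴ) {j : ℕ} {s t : Bool}
    {M : Matrix (Fin n) (Fin n) (MonoidAlgebra R G)} (h : Wrd H (nu ε a μ b) j s t M) :
    Mᴴ ∈ EE H (nu ε a μ b) j (!t) (!s) := by
  induction h with
  | one hc => exact letter_star ha hb _ _ hc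
  | cons hc hP ih =>
    rw [conjTranspose_mul]
    exact EE_mul ih (letter_star ha hb _ _ hc)

theorem EE_star (ha : a = (ε : ℤ) • aᴴ) (hb : b = (ε : ℤ) • bᴴ) {k : ℕ} {s t : Bool}
    {M : Matrix (Fin n) (Fin n) (MonoidAlgebra R G)} (hM : M ∈ EE H (nu ε a μ b) k s t) :
    Mᴴ ∈ EE H (nu ε a μ b) k (!t) (!s) := by
  unfold EE at hM
  induction hM using AddSubgroup.closure_induction with
  | mem M h =>
    obtain ⟨j, hj, hw⟩ := h
    exact EE_mono _ _ hj (wrd_star ha hb hw)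
  | zero => rw [conjTranspose_zero]; exact zero_mem _
  | add x y _ _ hx hy => rw [conjTranspose_add]; exact add_mem hx hy
  | neg x _ hx => rw [conjTranspose_neg]; exact neg_mem hx

end Two

end EFAAux

/-- **EFA**: the family `EE`. -/
theorem specEFA (hJNT : SpecJNT) : SpecEFA := by
  intro R G _ _ _ H X1 X2 X3 Yp Ym hP ε n a μ b h1 h3 h2 ha hb N hN
  refine ⟨⟨?_, ?_, ?_, ?_⟩, ?_, ?_⟩
  · intro k l s r t M M' hM hM'
    exact EFAAux.EE_mul hM hM'
  · intro k s t M hM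
    exact EFAAux.EE_star ha hb hM
  · intro k l s t hkl
    exact EFAAux.EE_mono s t hkl
  · intro s t M hM
    exact hJNT R G H X1 X2 X3 Yp Ym hP ε n a μ b h1 h3 h2 N hN s t M hM
  · intro s t c hc
    exact EFAAux.EE_of le_rfl (Wrd.one hc)
  · intro s t
    have h : cutM Set.univ (blk (nu ε a μ b) s t) = blk (nu ε a μ b) s t := EFAAux.cutM_univ _
    rw [← h]
    exact EFAAux.EE_of le_rfl (Wrd.one EFAAux.bi_univ)

end Pool.Agent.Lib.MPb6f35e.TT.RO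

/-! ## Module RO/ELM -/

/-!
# ELM: the elimination of a double coset (MP_8a3537_gt, folder RO)
-/

namespace Pool.Agent.Lib.MPb6f35e.TT.RO

open Matrix Pool.Agent.Lib.MPb6f35e.TT.UV Pool.Agent.Lib.MPb6f35e.TT.AU
open Pool.Agent.Lib.MPb6f35e.TT.UO (ext)

namespace ELMAux

section Sets

variable {G : Type} [Group G] (H : Subgroup G) (g : G)

theorem dc_left {h x : G} (hh : h ∈ H) (hx : x ∈ dc H g) : h * x ∈ dc H g := by
  obtain ⟨a, ha, b, hb, rfl⟩ := hx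
  exact ⟨h * a, H.mul_mem hh ha, b, hb, by group⟩

theorem dc_right {h x : G} (hh : h ∈ H) (hx : x ∈ dc H g) : x * h ∈ dc H g := by
  obtain ⟨a, ha, b, hb, rfl⟩ := hx
  exact ⟨a, ha, b * h, H.mul_mem hb hh, by group⟩

theorem dc_inv (hg : g * g ∈ H) {x : G} (hx : x ∈ dc H g) : x⁻¹ ∈ dc H g := by
  obtain ⟨a, ha, b, hb, rfl⟩ := hx
  exact ⟨b⁻¹ * (g * g)⁻¹, H.mul_mem (H.inv_mem hb) (H.inv_mem hg), a⁻¹, H.inv_mem ha, by group⟩

theorem bi_dc : Bi H (dc H g) :=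
  ⟨fun _ hh _ hx => dc_left H g hh hx, fun _ hh _ hx => dc_right H g hh hx⟩

theorem bi_compl : Bi H (dc H g)ᶜ := by
  constructor
  · intro h hh x hx hc
    apply hx
    have := dc_left H g (H.inv_mem hh) hc
    simpa using this
  · intro h hh x hx hc
    apply hx
    have := dc_right H g (H.inv_mem hh) hc
    simpa using this

end Sets

section Cut

variable {R G : Type} [Ring R]

theorem mat_ext {m n : Type} {M N : Matrix m n (MonoidAlgebra R G)}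
    (h : ∀ i j x, (M i j).coeff x = (N i j).coeff x) : M = N := by
  refine Matrix.ext fun i j => ?_
  ext x
  exact h i j x

theorem cutM_coeff {m n : Type} (W : Set G) (M : Matrix m n (MonoidAlgebra R G)) (i : m) (j : n)
    (x : G) [Decidable (x ∈ W)] :
    (cutM W M i j).coeff x = if x ∈ W then (M i j).coeff x else 0 := by
  have h := cut_coeff W (M i j) x
  change (cut W (M i j)).coeff x = _
  rw [h]
  split_ifs <;> rfl

theorem cutM_add {m n : Type} (W : Set G) (M N : Matrix m n (MonoidAlgebra R G)) :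
    cutM W (M + N) = cutM W M + cutM W N := by
  classical
  refine mat_ext fun i j x => ?_
  rw [cutM_coeff, Matrix.add_apply, Matrix.add_apply, MonoidAlgebra.coeff_add,
    MonoidAlgebra.coeff_add, Finsupp.add_apply, Finsupp.add_apply, cutM_coeff, cutM_coeff]
  split_ifs <;> simp

theorem cutM_neg {m n : Type} (W : Set G) (M : Matrix m n (MonoidAlgebra R G)) :
    cutM W (-M) = - cutM W M := by
  have h0 : cutM W (0 : Matrix m n (MonoidAlgebra R G)) = 0 := by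
    classical
    refine mat_ext fun i j x => ?_
    rw [cutM_coeff]
    simp
  have h : cutM W (-M) + cutM W M = 0 := by rw [← cutM_add, neg_add_cancel, h0]
  exact eq_neg_of_add_eq_zero_left h

theorem unit_cases (ε : ℤˣ) {A : Type} [AddCommGroup A] (x : A) :
    (ε : ℤ) • x = x ∨ (ε : ℤ) • x = -x := by
  rcases Int.units_eq_one_or ε with h | h
  · left
    rw [h]
    simp
  · right
    rw [h]
    simp

theorem cutM_smul {m n : Type} (W : Set G) (ε : ℤˣ) (M : Matrix m n (MonoidAlgebra R G)) :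
    cutM W ((ε : ℤ) • M) = (ε : ℤ) • cutM W M := by
  rcases Int.units_eq_one_or ε with h | h
  · rw [h]
    simp
  · rw [h]
    simp only [Units.val_neg, Units.val_one, neg_smul, one_smul]
    exact cutM_neg W M

theorem cutM_split {m n : Type} (W : Set G) (M : Matrix m n (MonoidAlgebra R G)) :
    cutM Wᶜ M + cutM W M = M := by
  classical
  refine mat_ext fun i j x => ?_
  rw [Matrix.add_apply, MonoidAlgebra.coeff_add, Finsupp.add_apply, cutM_coeff, cutM_coeff]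
  by_cases h : x ∈ W
  · simp [h]
  · simp [h]

theorem cutM_star [StarRing R] [Group G] {m n : Type} (W : Set G) (hW : ∀ x ∈ W, x⁻¹ ∈ W)
    (M : Matrix m n (MonoidAlgebra R G)) : cutM W Mᴴ = (cutM W M)ᴴ := by
  classical
  refine mat_ext fun i j x => ?_
  rw [cutM_coeff, conjTranspose_apply, conjTranspose_apply, star_coeff, star_coeff, cutM_coeff]
  by_cases h : x ∈ W
  · rw [if_pos h, if_pos (hW x h)]
  · rw [if_neg h, if_neg, star_zero]
    intro h1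
    apply h
    have := hW _ h1
    simpa using this

theorem supp_cutM {m n : Type} (X W : Set G) (M : Matrix m n (MonoidAlgebra R G))
    (hM : SuppIn X M) : SuppIn {x | x ∈ X ∧ x ∈ W} (cutM W M) := by
  classical
  intro i j x hx
  rw [cutM_coeff] at hx
  by_cases h : x ∈ W
  · rw [if_pos h] at hx
    exact ⟨hM i j x hx, h⟩
  · rw [if_neg h] at hx
    exact absurd rfl hx

end Cut

section Blk

variable {A : Type} [Ring A] [StarRing A]

theorem blk_ft (ε : ℤˣ) {n : ℕ} (a μ b : Matrix (Fin n) (Fin n) A) :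
    blk (nu ε a μ b) false true = a := by
  refine Matrix.ext fun i j => ?_
  rfl

theorem blk_tt (ε : ℤˣ) {n : ℕ} (a μ b : Matrix (Fin n) (Fin n) A) :
    blk (nu ε a μ b) true true = μ := by
  refine Matrix.ext fun i j => ?_
  rfl

theorem blk_tf (ε : ℤˣ) {n : ℕ} (a μ b : Matrix (Fin n) (Fin n) A) :
    blk (nu ε a μ b) true false = (ε : ℤ) • b := by
  refine Matrix.ext fun i j => ?_
  rfl

theorem smul_smul_self (ε : ℤˣ) {m n : Type} (M : Matrix m n A) : (ε : ℤ) • ((ε : ℤ) • M) = M := by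
  rcases Int.units_eq_one_or ε with h | h
  · rw [h]
    simp
  · rw [h]
    simp

theorem smul_star (ε : ℤˣ) {m n : Type} (M : Matrix m n A) :
    ((ε : ℤ) • M)ᴴ = (ε : ℤ) • Mᴴ := by
  rcases Int.units_eq_one_or ε with h | h
  · rw [h]
    simp
  · rw [h]
    simp

theorem herm (ε : ℤˣ) {n : Type} (M : Matrix n n A) :
    M + (ε : ℤ) • Mᴴ = (ε : ℤ) • (M + (ε : ℤ) • Mᴴ)ᴴ := by
  rw [conjTranspose_add, smul_star, conjTranspose_conjTranspose, smul_add, smul_smul_self,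
    add_comm]

end Blk

end ELMAux

open ELMAux in
theorem specELM (hEFA : SpecEFA) (hFAC : SpecFAC) (hSCU : SpecSCU) (hKNA : SpecKNA)
    (hKSP : SpecKSP) : SpecELM := by
  intro R G _ _ _ H X1 X2 X3 Yp Ym hP ε n ψ μ χ hψ hμ hχ hnil g hg hgg hS hB
  obtain ⟨N0, hN0⟩ := hnil
  set a := ψ + (ε : ℤ) • ψᴴ with ha
  set b := χ + (ε : ℤ) • χᴴ with hb
  have hN : (nu ε a μ b) ^ (N0 + 1) = 0 := by rw [pow_succ, hN0, zero_mul]
  have hsa : SuppIn X1 a := by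
    intro i j x hx
    rw [ha, Matrix.add_apply, MonoidAlgebra.coeff_add, Finsupp.add_apply] at hx
    by_cases h1 : (ψ i j).coeff x = 0
    · rw [h1, zero_add, Matrix.smul_apply, conjTranspose_apply] at hx
      have h2 : (star (ψ j i)).coeff x ≠ 0 := by
        intro h0
        apply hx
        rcases unit_cases ε (star (ψ j i)) with h | h
        · rw [h, h0]
        · rw [h, MonoidAlgebra.coeff_neg, Finsupp.neg_apply, h0, neg_zero]
      rw [star_coeff] at h2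
      have h3 : (ψ j i).coeff x⁻¹ ≠ 0 := by
        intro h0
        apply h2
        rw [h0, star_zero]
      have := hP.X1i _ (hψ j i _ h3)
      simpa using this
    · exact hψ i j x h1
  have hsb : SuppIn X2 b := by
    intro i j x hx
    rw [hb, Matrix.add_apply, MonoidAlgebra.coeff_add, Finsupp.add_apply] at hx
    by_cases h1 : (χ i j).coeff x = 0
    · rw [h1, zero_add, Matrix.smul_apply, conjTranspose_apply] at hx
      have h2 : (star (χ j i)).coeff x ≠ 0 := by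
        intro h0
        apply hx
        rcases unit_cases ε (star (χ j i)) with h | h
        · rw [h, h0]
        · rw [h, MonoidAlgebra.coeff_neg, Finsupp.neg_apply, h0, neg_zero]
      rw [star_coeff] at h2
      have h3 : (χ j i).coeff x⁻¹ ≠ 0 := by
        intro h0
        apply h2
        rw [h0, star_zero]
      have := hP.X2i _ (hχ j i _ h3)
      simpa using this
    · exact hχ i j x h1
  obtain ⟨hE, hcut, hblk⟩ := hEFA R G H X1 X2 X3 Yp Ym hP ε n a μ b hsa hμ hsb (herm ε ψ)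
    (herm ε χ) (N0 + 1) hN
  have hcs : ∀ x ∈ dc H g, x⁻¹ ∈ dc H g := fun x hx => dc_inv H g hgg hx
  have hcs' : ∀ x ∈ (dc H g)ᶜ, x⁻¹ ∈ (dc H g)ᶜ := by
    intro x hx hc
    apply hx
    have := hcs _ hc
    simpa using this
  have hac : cutM (dc H g) a = cutM (dc H g) ψ + (ε : ℤ) • (cutM (dc H g) ψ)ᴴ := by
    rw [ha, cutM_add, cutM_smul, cutM_star _ hcs]
  have ha0 : cutM (dc H g)ᶜ a = cutM (dc H g)ᶜ ψ + (ε : ℤ) • (cutM (dc H g)ᶜ ψ)ᴴ := by
    rw [ha, cutM_add, cutM_smul, cutM_star _ hcs']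
  have e1 : cutM (dc H g)ᶜ a ∈ EE H (nu ε a μ b) 1 false true := by
    have := hcut false true _ (bi_compl H g)
    rwa [blk_ft] at this
  have e2 : cutM (dc H g) a ∈ EE H (nu ε a μ b) 1 false true := by
    have := hcut false true _ (bi_dc H g)
    rwa [blk_ft] at this
  have e3 : μ ∈ EE H (nu ε a μ b) 1 true true := by
    have := hblk true true
    rwa [blk_tt] at this
  have e4 : b ∈ EE H (nu ε a μ b) 1 true false := by
    have h1 := hblk true false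
    rw [blk_tf] at h1
    have h2 := AddSubgroup.zsmul_mem _ h1 (ε : ℤ)
    rwa [smul_smul_self] at h2
  obtain ⟨r, Ξ, ψ', hΞ, hψ', hfac⟩ := hFAC R G H g n (cutM (dc H g) ψ) (by
    intro i j x hx
    exact (supp_cutM X1 (dc H g) ψ hψ i j x hx).2)
  obtain ⟨hn0, hn1⟩ := hKNA (MonoidAlgebra R G) ε n r (N0 + 1) _ hE (by omega) _ _ _ _ e1 e2 e3 e4
  rw [ha0] at hn0 hn1
  refine ⟨⟨N0 + 1, hn0⟩, fun hst => ?_⟩
  obtain ⟨s1, s2⟩ := hSCU (MonoidAlgebra R G) ε n r (N0 + 1) (cutM (dc H g)ᶜ ψ) μ χ Ξ ψ' hn0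
  have hα : Ξᴴ * (ψ' + (ε : ℤ) • ψ'ᴴ) * Ξ = cutM (dc H g) a := by
    rw [hac, hfac, conjTranspose_mul, conjTranspose_mul, conjTranspose_conjTranspose,
      Matrix.mul_add, Matrix.add_mul, Matrix.mul_smul, Matrix.smul_mul, Matrix.mul_assoc Ξᴴ ψ'ᴴ Ξ]
  have h3 := hn1 Ξ _ _ hα s2
  have hsup := hKSP R G H X1 X2 X3 Yp Ym {x | x ∈ X1 ∧ x ∉ dc H g} hS ε n r (N0 + 1)
    (cutM (dc H g)ᶜ ψ) μ χ Ξ (supp_cutM X1 (dc H g)ᶜ ψ hψ) hμ hχ hΞ
  have h4 := hB r ψ' _ (by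
    intro i j x hx
    have := hψ' i j x hx
    exact ⟨1, (Kg H g).one_mem, by rw [one_mul]; exact this⟩) hsup h3
  have h5 := s1 hst h4
  have h6 : cutM (dc H g)ᶜ ψ + Ξᴴ * ψ' * Ξ = ψ := by
    rw [← hfac]
    exact cutM_split _ _
  rwa [h6] at h5

end Pool.Agent.Lib.MPb6f35e.TT.RO

/-! ## Module RO/FAC -/

/-!
# RO, module FAC: factorization of the part of a matrix in a double coset
-/

namespace Pool.Agent.Lib.MPb6f35e.TT.RO

open Matrix Pool.Agent.Lib.MPb6f35e.TT.UV Pool.Agent.Lib.MPb6f35e.TT.AU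

namespace FACAux

variable {R G : Type} [Ring R] [StarRing R] [Group G]

/-- The conclusion of FAC. -/
def Fac (H : Subgroup G) (g : G) {n : ℕ} (ψ : Matrix (Fin n) (Fin n) (MonoidAlgebra R G)) :
    Prop :=
  ∃ (r : ℕ) (Ξ : Matrix (Fin r) (Fin n) (MonoidAlgebra R G))
    (ψ' : Matrix (Fin r) (Fin r) (MonoidAlgebra R G)), SuppIn (H : Set G) Ξ ∧
    SuppIn {x | x = g} ψ' ∧ ψ = Ξᴴ * ψ' * Ξ

theorem of_type {K : Type} [Fintype K] [DecidableEq K] (H : Subgroup G) (g : G) {n : ℕ}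
    (ψ : Matrix (Fin n) (Fin n) (MonoidAlgebra R G))
    (Ξ : Matrix K (Fin n) (MonoidAlgebra R G)) (ψ' : Matrix K K (MonoidAlgebra R G))
    (h1 : SuppIn (H : Set G) Ξ) (h2 : SuppIn {x | x = g} ψ') (h3 : ψ = Ξᴴ * ψ' * Ξ) :
    Fac H g ψ := by
  let e := Fintype.equivFin K
  refine ⟨Fintype.card K, Ξ.submatrix e.symm id, ψ'.submatrix e.symm e.symm, ?_, ?_, ?_⟩
  · intro i j x hx
    exact h1 _ _ x hx
  · intro i j x hx
    exact h2 _ _ x hx
  · rw [h3, conjTranspose_submatrix, Matrix.submatrix_mul_equiv, Matrix.submatrix_mul_equiv]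
    rfl

theorem zero (H : Subgroup G) (g : G) {n : ℕ} :
    Fac H g (0 : Matrix (Fin n) (Fin n) (MonoidAlgebra R G)) := by
  refine ⟨0, 0, 0, ?_, ?_, ?_⟩
  · intro i
    exact i.elim0
  · intro i
    exact i.elim0
  · rw [Matrix.mul_zero]

theorem add {H : Subgroup G} {g : G} {n : ℕ}
    {ψ1 ψ2 : Matrix (Fin n) (Fin n) (MonoidAlgebra R G)} (h1 : Fac H g ψ1) (h2 : Fac H g ψ2) :
    Fac H g (ψ1 + ψ2) := by
  obtain ⟨r1, Ξ1, p1, a1, b1, c1⟩ := h1
  obtain ⟨r2, Ξ2, p2, a2, b2, c2⟩ := h2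
  refine of_type (K := Fin r1 ⊕ Fin r2) H g _ (fromRows Ξ1 Ξ2) (fromBlocks p1 0 0 p2) ?_ ?_ ?_
  · rintro (i | i) j x hx
    · exact a1 i j x hx
    · exact a2 i j x hx
  · rintro (i | i) (j | j) x hx
    · exact b1 i j x hx
    · exact absurd rfl hx
    · exact absurd rfl hx
    · exact b2 i j x hx
  · rw [c1, c2, conjTranspose_fromRows_eq_fromCols_conjTranspose, fromCols_mul_fromBlocks,
      fromCols_mul_fromRows]
    simp

theorem term (H : Subgroup G) (g h h' : G) (hh : h ∈ H) (hh' : h' ∈ H) {n : ℕ} (i j : Fin n)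
    (r : R) : Fac H g (Matrix.single i j (MonoidAlgebra.single (h * g * h') r)) := by
  classical
  refine of_type (K := Unit ⊕ Unit) H g _
    (fromRows (Matrix.single () i (MonoidAlgebra.single h⁻¹ 1))
      (Matrix.single () j (MonoidAlgebra.single h' 1)))
    (fromBlocks 0 (Matrix.single () () (MonoidAlgebra.single g r)) 0 0) ?_ ?_ ?_
  · rintro (u | u) l x hx
    · rw [fromRows_apply_inl, Matrix.single_apply] at hx
      split_ifs at hx with h1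
      · rw [MonoidAlgebra.coeff_single, Finsupp.single_apply] at hx
        split_ifs at hx with h2
        · rw [← h2]
          exact H.inv_mem hh
        · exact absurd rfl hx
      · exact absurd rfl hx
    · rw [fromRows_apply_inr, Matrix.single_apply] at hx
      split_ifs at hx with h1
      · rw [MonoidAlgebra.coeff_single, Finsupp.single_apply] at hx
        split_ifs at hx with h2
        · rw [← h2]
          exact hh'
        · exact absurd rfl hx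
      · exact absurd rfl hx
  · rintro (u | u) (l | l) x hx
    · exact absurd rfl hx
    · rw [fromBlocks_apply₁₂, Matrix.single_apply] at hx
      split_ifs at hx with h1
      · rw [MonoidAlgebra.coeff_single, Finsupp.single_apply] at hx
        split_ifs at hx with h2
        · exact h2.symm
        · exact absurd rfl hx
      · exact absurd rfl hx
    · exact absurd rfl hx
    · exact absurd rfl hx
  · rw [conjTranspose_fromRows_eq_fromCols_conjTranspose, fromCols_mul_fromBlocks,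
      fromCols_mul_fromRows]
    simp only [Matrix.mul_zero, add_zero, zero_add, Matrix.zero_mul]
    rw [Matrix.conjTranspose_single, Matrix.single_mul_single_same,
      Matrix.single_mul_single_same, star_single, star_one, inv_inv,
      MonoidAlgebra.single_mul_single, MonoidAlgebra.single_mul_single, one_mul, mul_one]

end FACAux

open FACAux in
theorem specFAC : SpecFAC := by
  intro R G _ _ _ H g n ψ hψ
  change Fac H g ψ
  rw [Matrix.matrix_eq_sum_single ψ]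
  refine Finset.sum_induction _ (Fac H g) (fun _ _ => FACAux.add) (FACAux.zero H g) ?_
  intro i _
  refine Finset.sum_induction _ (Fac H g) (fun _ _ => FACAux.add) (FACAux.zero H g) ?_
  intro j _
  have key : ∀ x : MonoidAlgebra R G, (∀ y, x.coeff y ≠ 0 → y ∈ dc H g) →
      Fac H g (Matrix.single i j x) := by
    intro x hx
    classical
    have hs : x = ∑ y ∈ x.coeff.support, MonoidAlgebra.single y (x.coeff y) := by
      ext y
      rw [MonoidAlgebra.coeff_sum, Finsupp.finsetSum_apply]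
      simp only [MonoidAlgebra.coeff_single, Finsupp.single_apply]
      rw [Finset.sum_ite_eq']
      split_ifs with h
      · rfl
      · exact Finsupp.notMem_support_iff.1 h
    rw [hs]
    have hsum : Matrix.single i j (∑ y ∈ x.coeff.support, MonoidAlgebra.single y (x.coeff y)) =
        ∑ y ∈ x.coeff.support, Matrix.single i j (MonoidAlgebra.single y (x.coeff y)) := by
      exact map_sum (Matrix.singleAddMonoidHom i j) _ _
    rw [hsum]
    refine Finset.sum_induction _ (Fac H g) (fun _ _ => FACAux.add) (FACAux.zero H g) ?_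
    intro y hy
    obtain ⟨h, hh, h', hh', rfl⟩ := hx y (Finsupp.mem_support_iff.1 hy)
    exact term H g h h' hh hh' i j _
  exact key _ (fun y hy => hψ i j y hy)

end Pool.Agent.Lib.MPb6f35e.TT.RO

/-! ## Module RO/HLF -/

/-!
# MP_8a3537_gt, RO: HLF (helper22)

A half of the double cosets.
-/

namespace Pool.Agent.Lib.MPb6f35e.TT.RO

open Matrix Pool.Agent.Lib.MPb6f35e.TT.UV Pool.Agent.Lib.MPb6f35e.TT.AU

namespace HLFAux

section Grp

variable {G : Type} [Group G] (H : Subgroup G)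

theorem self_mem_dc (x : G) : x ∈ dc H x := ⟨1, H.one_mem, 1, H.one_mem, by simp⟩

theorem dc_mul_left {h : G} (hh : h ∈ H) (x : G) : dc H (h * x) = dc H x := by
  ext y
  constructor
  · rintro ⟨a, ha, b, hb, rfl⟩
    exact ⟨a * h, H.mul_mem ha hh, b, hb, by group⟩
  · rintro ⟨a, ha, b, hb, rfl⟩
    exact ⟨a * h⁻¹, H.mul_mem ha (H.inv_mem hh), b, hb, by group⟩

theorem dc_mul_right {h : G} (hh : h ∈ H) (x : G) : dc H (x * h) = dc H x := by
  ext y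
  constructor
  · rintro ⟨a, ha, b, hb, rfl⟩
    exact ⟨a, ha, h * b, H.mul_mem hh hb, by group⟩
  · rintro ⟨a, ha, b, hb, rfl⟩
    exact ⟨a, ha, h⁻¹ * b, H.mul_mem (H.inv_mem hh) hb, by group⟩

/-- the chosen half -/
def half : Set G := {x | WellOrderingRel (dc H x) (dc H x⁻¹)}

theorem bi_half : Bi H (half H) := by
  constructor
  · intro h hh x hx
    show WellOrderingRel (dc H (h * x)) (dc H (h * x)⁻¹)
    rw [_root_.mul_inv_rev, dc_mul_left H hh, dc_mul_right H (H.inv_mem hh)]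
    exact hx
  · intro h hh x hx
    show WellOrderingRel (dc H (x * h)) (dc H (x * h)⁻¹)
    rw [_root_.mul_inv_rev, dc_mul_right H hh, dc_mul_left H (H.inv_mem hh)]
    exact hx

theorem half_inv (x : G) : x⁻¹ ∈ half H ↔ WellOrderingRel (dc H x⁻¹) (dc H x) := by
  show WellOrderingRel (dc H x⁻¹) (dc H x⁻¹⁻¹) ↔ _
  rw [inv_inv]

theorem not_both (x : G) (h1 : x ∈ half H) (h2 : x⁻¹ ∈ half H) : False := by
  rw [half_inv] at h2
  exact (asymm_of WellOrderingRel h1 h2)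

theorem one_of (x : G) (hx : ¬ Flip H x) : x ∈ half H ∨ x⁻¹ ∈ half H := by
  rw [half_inv]
  rcases trichotomous_of (WellOrderingRel (α := Set G)) (dc H x) (dc H x⁻¹) with h | h | h
  · exact Or.inl h
  · exact absurd (show x⁻¹ ∈ dc H x by rw [h]; exact self_mem_dc H x⁻¹) hx
  · exact Or.inr h

end Grp

end HLFAux

open HLFAux

/-- HLF -/
theorem specHLF : SpecHLF := by
  intro R G _ _ _ H ε n a ha hfl
  refine ⟨half H, bi_half H, ?_⟩
  ext i j x
  have hc : ∀ (i j : Fin n) (x : G), (a i j).coeff x = (ε : ℤ) • star ((a j i).coeff x⁻¹) := by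
    intro i j x
    have h1 : a i j = ((ε : ℤ) • aᴴ) i j := congrFun (congrFun ha i) j
    have h2 : ((ε : ℤ) • aᴴ) i j = (ε : ℤ) • star (a j i) := by
      rw [Matrix.smul_apply, Matrix.conjTranspose_apply]
    rw [h1, h2, MonoidAlgebra.coeff_smul, Finsupp.smul_apply, star_coeff]
  have hr : (cutM (half H) a + (ε : ℤ) • (cutM (half H) a)ᴴ) i j
      = cut (half H) (a i j) + (ε : ℤ) • star (cut (half H) (a j i)) := by
    rw [Matrix.add_apply, Matrix.smul_apply, Matrix.conjTranspose_apply]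
    rfl
  rw [hr, MonoidAlgebra.coeff_add, Finsupp.add_apply, MonoidAlgebra.coeff_smul, Finsupp.smul_apply,
    star_coeff, cut_coeff, cut_coeff]
  by_cases h0 : (a i j).coeff x = 0
  · have h1 : (a j i).coeff x⁻¹ = 0 := by
      rw [hc j i x⁻¹, inv_inv, h0, star_zero, smul_zero]
    rw [h0, h1]
    simp
  · have hx := hfl i j x h0
    rcases one_of H x hx with h | h
    · have h2 : x⁻¹ ∉ half H := fun h2 => not_both H x h h2
      rw [if_pos h, if_neg h2, star_zero, smul_zero, add_zero]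
    · have h2 : x ∉ half H := fun h2 => not_both H x h2 h
      rw [if_neg h2, if_pos h, zero_add]
      exact hc i j x

end Pool.Agent.Lib.MPb6f35e.TT.RO

/-! ## Module RO/JNT -/

/-!
# MP_8a3537_gt, RO: module JNT (helper20), joint nilpotency of the letters
-/

namespace Pool.Agent.Lib.MPb6f35e.TT.RO

open Matrix Pool.Agent.Lib.MPb6f35e.TT.UV Pool.Agent.Lib.MPb6f35e.TT.AU
open Pool.Agent.Lib.MPb6f35e.TT.UO (ext)

namespace JNTAux

variable {R G : Type} [Ring R]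

theorem cut_add (W : Set G) (x y : MonoidAlgebra R G) : cut W (x + y) = cut W x + cut W y := by
  ext g
  rw [cut_coeff, MonoidAlgebra.coeff_add, Finsupp.add_apply, MonoidAlgebra.coeff_add,
    Finsupp.add_apply, cut_coeff, cut_coeff]
  split_ifs <;> simp

theorem cut_zero (W : Set G) : cut W (0 : MonoidAlgebra R G) = 0 := by
  ext g
  rw [cut_coeff]
  split_ifs <;> simp

theorem cut_sum {ι : Type*} (W : Set G) (s : Finset ι) (f : ι → MonoidAlgebra R G) :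
    cut W (∑ i ∈ s, f i) = ∑ i ∈ s, cut W (f i) := by
  classical
  induction s using Finset.induction_on with
  | empty => simp [cut_zero]
  | insert i s hi ih => rw [Finset.sum_insert hi, Finset.sum_insert hi, cut_add, ih]

variable [Group G]

open Classical in
/-- coefficients of a product, with sums over larger sets -/
theorem mul_coeff_of (u v : MonoidAlgebra R G) (A B : Finset G) (hA : u.coeff.support ⊆ A)
    (hB : v.coeff.support ⊆ B) (z : G) :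
    (u * v).coeff z = ∑ x ∈ A, ∑ y ∈ B, if x * y = z then u.coeff x * v.coeff y else 0 := by
  rw [MonoidAlgebra.coeff_mul]
  unfold Finsupp.sum
  refine (Finset.sum_subset hA fun x _ hx => ?_).trans (Finset.sum_congr rfl fun x _ => ?_)
  · refine Finset.sum_eq_zero fun y _ => ?_
    show (if x * y = z then u.coeff x * v.coeff y else 0) = 0
    rw [Finsupp.notMem_support_iff.1 hx, zero_mul, ite_self]
  · refine Finset.sum_subset hB fun y _ hy => ?_
    show (if x * y = z then u.coeff x * v.coeff y else 0) = 0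
    rw [Finsupp.notMem_support_iff.1 hy, mul_zero, ite_self]

theorem supp_cut (W : Set G) (u : MonoidAlgebra R G) : (cut W u).coeff.support ⊆ u.coeff.support := by
  intro x hx
  rw [Finsupp.mem_support_iff, cut_coeff] at hx
  rw [Finsupp.mem_support_iff]
  intro h
  rw [h, ite_self] at hx
  exact hx rfl

/-- the support of a product -/
theorem supp_mul (u v : MonoidAlgebra R G) (z : G) (h : (u * v).coeff z ≠ 0) :
    ∃ x y, u.coeff x ≠ 0 ∧ v.coeff y ≠ 0 ∧ x * y = z := by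
  classical
  rw [mul_coeff_of u v _ _ (Finset.Subset.refl _) (Finset.Subset.refl _)] at h
  obtain ⟨x, hx, h⟩ := Finset.exists_ne_zero_of_sum_ne_zero h
  obtain ⟨y, hy, h⟩ := Finset.exists_ne_zero_of_sum_ne_zero h
  refine ⟨x, y, Finsupp.mem_support_iff.1 hx, Finsupp.mem_support_iff.1 hy, ?_⟩
  by_contra h2
  exact h (if_neg h2)

/-- the restriction of a product to a set which is determined by the factors -/
theorem cut_mul (c W W' : Set G) (u v : MonoidAlgebra R G) (b : Prop)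
    (h : ∀ x y, u.coeff x ≠ 0 → v.coeff y ≠ 0 → (x * y ∈ W' ↔ b ∧ x ∈ c ∧ y ∈ W)) :
    (b → cut W' (u * v) = cut c u * cut W v) ∧ (¬ b → cut W' (u * v) = 0) := by
  classical
  constructor
  · intro hb
    ext z
    rw [cut_coeff, mul_coeff_of u v _ _ (Finset.Subset.refl _) (Finset.Subset.refl _),
      mul_coeff_of (cut c u) (cut W v) _ _ (supp_cut c u) (supp_cut W v)]
    by_cases hz : z ∈ W'
    · rw [if_pos hz]
      refine Finset.sum_congr rfl fun x hx => Finset.sum_congr rfl fun y hy => ?_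
      by_cases hxy : x * y = z
      · rw [if_pos hxy, if_pos hxy]
        have h1 := (h x y (Finsupp.mem_support_iff.1 hx) (Finsupp.mem_support_iff.1 hy)).1
          (by rw [hxy]; exact hz)
        rw [cut_coeff, cut_coeff, if_pos h1.2.1, if_pos h1.2.2]
      · rw [if_neg hxy, if_neg hxy]
    · rw [if_neg hz]
      symm
      refine Finset.sum_eq_zero fun x hx => Finset.sum_eq_zero fun y hy => ?_
      by_cases hxy : x * y = z
      · rw [if_pos hxy, cut_coeff, cut_coeff]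
        by_cases hxc : x ∈ c
        · by_cases hyW : y ∈ W
          · exact absurd ((h x y (Finsupp.mem_support_iff.1 hx) (Finsupp.mem_support_iff.1 hy)).2
              ⟨hb, hxc, hyW⟩) (by rw [hxy]; exact hz)
          · rw [if_neg hyW, mul_zero]
        · rw [if_neg hxc, zero_mul]
      · rw [if_neg hxy]
  · intro hb
    ext z
    rw [cut_coeff]
    by_cases hz : z ∈ W'
    · rw [if_pos hz]
      by_contra h0
      obtain ⟨x, y, hx, hy, hxy⟩ := supp_mul u v z (by simpa using h0)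
      exact hb ((h x y hx hy).1 (by rw [hxy]; exact hz)).1
    · rw [if_neg hz]
      simp

variable {n : Type} [Fintype n]

theorem cutM_apply (W : Set G) (M : Matrix n n (MonoidAlgebra R G)) (i j : n) :
    cutM W M i j = cut W (M i j) := rfl

/-- blocks of a product -/
theorem blk_mul (N P : Matrix (n ⊕ n) (n ⊕ n) (MonoidAlgebra R G)) (s t : Bool) :
    blk (N * P) s t = blk N s true * blk P true t + blk N s false * blk P false t := by
  ext1 i j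
  unfold blk
  rw [Matrix.submatrix_apply, Matrix.mul_apply, Fintype.sum_sum_type, Matrix.add_apply,
    Matrix.mul_apply, Matrix.mul_apply]
  rfl

end JNTAux

open JNTAux in
theorem specJNT (hU : SpecUNQ) : SpecJNT := by
  classical
  intro R G _ _ _ H X1 X2 X3 Yp Ym hPP ε n a μ b ha hμ hb N0 hN s t M hM
  obtain ⟨hact, huni, hbi, h1Y⟩ := hU G H X1 X2 X3 Yp Ym hPP
  set N := nu ε a μ b with hNdef
  -- supports of the letters
  have hlet : ∀ s t i j g, (blk N s t i j).coeff g ≠ 0 → g ∈ XX X1 X2 X3 s t := by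
    intro s t i j g hg
    cases s <;> cases t
    · have h1 : blk N false false i j = star (μ j i) := rfl
      rw [h1, star_coeff] at hg
      have h2 : (μ j i).coeff g⁻¹ ≠ 0 := fun h => hg (by rw [h, star_zero])
      exact hμ j i g⁻¹ h2
    · exact ha i j g hg
    · have h1 : blk N true false i j = (ε : ℤ) • b i j := rfl
      rw [h1, MonoidAlgebra.coeff_smul, Finsupp.smul_apply] at hg
      exact hb i j g fun h => hg (by rw [h, smul_zero])
    · exact hμ i j g hg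
  -- supports of the powers
  have hpow : ∀ k s t i j g, (blk (N ^ k) s t i j).coeff g ≠ 0 → g ∈ YB Yp Ym s := by
    intro k
    induction k with
    | zero =>
      intro s t i j g hg
      rw [pow_zero] at hg
      have h1 : blk (1 : Matrix (Fin n ⊕ Fin n) (Fin n ⊕ Fin n) (MonoidAlgebra R G)) s t i j =
          if sd s i = sd t j then 1 else 0 := Matrix.one_apply
      rw [h1] at hg
      have h2 : g = 1 := by
        by_contra hg1
        apply hg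
        split_ifs
        · rw [MonoidAlgebra.one_def, MonoidAlgebra.coeff_single_apply, if_neg (fun h => hg1 h.symm)]
        · simp
      rw [h2]
      exact (h1Y s).1
    | succ k ih =>
      intro s t i j g hg
      rw [pow_succ', blk_mul, Matrix.add_apply, MonoidAlgebra.coeff_add, Finsupp.add_apply] at hg
      have hterm : ∀ q, ((blk N s q * blk (N ^ k) q t) i j).coeff g ≠ 0 → g ∈ YB Yp Ym s := by
        intro q hq
        rw [Matrix.mul_apply] at hq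
        have h3 : ∃ l, ((blk N s q i l) * (blk (N ^ k) q t l j)).coeff g ≠ 0 := by
          by_contra h4
          push Not at h4
          apply hq
          have h5 : (∑ l, blk N s q i l * blk (N ^ k) q t l j).coeff g =
              ∑ l, (blk N s q i l * blk (N ^ k) q t l j).coeff g := by
            rw [MonoidAlgebra.coeff_sum, Finsupp.finset_sum_apply]
          rw [h5]
          exact Finset.sum_eq_zero fun l _ => h4 l
        obtain ⟨l, hl⟩ := h3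
        obtain ⟨x, y, hx, hy, rfl⟩ := supp_mul _ _ _ hl
        exact hact s q x y (hlet _ _ _ _ _ hx) (ih _ _ _ _ _ hy)
      by_cases h5 : ((blk N s true * blk (N ^ k) true t) i j).coeff g = 0
      · rw [h5, zero_add] at hg
        exact hterm false hg
      · exact hterm true h5
  -- the claim
  have claim : ∀ k s t (M : Matrix (Fin n) (Fin n) (MonoidAlgebra R G)), Wrd H N k s t M →
      ∃ W : Set G, (∀ h ∈ H, ∀ y ∈ W, h * y ∈ W) ∧ M = cutM W (blk (N ^ k) s t) := by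
    intro k s t M hM
    induction hM with
    | @one s t c hc =>
      exact ⟨c, hc.1, by rw [pow_one]⟩
    | @cons k s r t c P hc _ ih =>
      obtain ⟨W, hW, rfl⟩ := ih
      refine ⟨{z | ∃ x ∈ c, ∃ y ∈ W, x ∈ XX X1 X2 X3 s r ∧ y ∈ YB Yp Ym r ∧ z = x * y}, ?_, ?_⟩
      · rintro h hh z ⟨x, hx, y, hy, hxX, hyY, rfl⟩
        exact ⟨h * x, hc.1 h hh x hx, y, hy, (hbi s r).1 h hh x hxX, hyY, (mul_assoc _ _ _).symm⟩
      · -- the restriction of the products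
        have key : ∀ q i l j, (q = r → cut {z | ∃ x ∈ c, ∃ y ∈ W, x ∈ XX X1 X2 X3 s r ∧
            y ∈ YB Yp Ym r ∧ z = x * y} (blk N s q i l * blk (N ^ k) q t l j) =
              cut c (blk N s q i l) * cut W (blk (N ^ k) q t l j)) ∧
            (¬ q = r → cut {z | ∃ x ∈ c, ∃ y ∈ W, x ∈ XX X1 X2 X3 s r ∧
            y ∈ YB Yp Ym r ∧ z = x * y} (blk N s q i l * blk (N ^ k) q t l j) = 0) := by
          intro q i l j
          refine cut_mul c W _ _ _ (q = r) fun x y hx hy => ?_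
          have hxX := hlet _ _ _ _ _ hx
          have hyY := hpow _ _ _ _ _ _ hy
          constructor
          · rintro ⟨x', hx', y', hy', hx'X, hy'Y, he⟩
            obtain ⟨hqr, hH⟩ := huni s q r x y x' y' hxX hyY hx'X hy'Y he
            refine ⟨hqr, ?_, ?_⟩
            · have h1 := hc.2 _ (H.inv_mem hH) x' hx'
              have h2 : x' * (x⁻¹ * x')⁻¹ = x := by group
              rwa [h2] at h1
            · have h1 := hW _ hH y' hy'
              have h2 : x⁻¹ * x' * y' = y := by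
                rw [mul_assoc, ← he]; group
              rwa [h2] at h1
          · rintro ⟨rfl, h1, h2⟩
            exact ⟨x, h1, y, h2, hxX, hyY, rfl⟩
        ext1 i j
        rw [Matrix.mul_apply, cutM_apply, pow_succ', blk_mul, Matrix.add_apply, cut_add,
          Matrix.mul_apply, Matrix.mul_apply, cut_sum, cut_sum]
        cases r
        · have h0 : ∑ l, cut {z | ∃ x ∈ c, ∃ y ∈ W, x ∈ XX X1 X2 X3 s false ∧
              y ∈ YB Yp Ym false ∧ z = x * y} (blk N s true i l * blk (N ^ k) true t l j) = 0 :=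
            Finset.sum_eq_zero fun l _ => (key true i l j).2 (by simp)
          rw [h0, zero_add]
          exact Finset.sum_congr rfl fun l _ => ((key false i l j).1 rfl).symm
        · have h0 : ∑ l, cut {z | ∃ x ∈ c, ∃ y ∈ W, x ∈ XX X1 X2 X3 s true ∧
              y ∈ YB Yp Ym true ∧ z = x * y} (blk N s false i l * blk (N ^ k) false t l j) = 0 :=
            Finset.sum_eq_zero fun l _ => (key false i l j).2 (by simp)
          rw [h0, add_zero]
          exact Finset.sum_congr rfl fun l _ => ((key true i l j).1 rfl).symm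
  unfold EE at hM
  induction hM using AddSubgroup.closure_induction with
  | mem M hM =>
    obtain ⟨j, hj, hw⟩ := hM
    obtain ⟨W, _, rfl⟩ := claim j s t M hw
    have h0 : N ^ j = 0 := pow_eq_zero_of_le hj hN
    rw [h0]
    ext1 i l
    rw [cutM_apply]
    exact cut_zero W
  | zero => rfl
  | add x y _ _ hx hy => rw [hx, hy, add_zero]
  | neg x _ hx => rw [hx, neg_zero]

end Pool.Agent.Lib.MPb6f35e.TT.RO
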