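import Pool.Agent.Lib.MP_b6f35e_al.TT.UV.Defs

/-! # Modules for Theorem DT (MP_b6f35e_al, Q2): forms, supports, ping-pong (copies of modules of MP_8a3537_gt, without the
conditions on elements of order two) -/

/-! ## Module UV/Spec -/

/-!
# Vanishing of `UNil` over free edge groups: definitions for the proof and the Specs

Paper proof: `/team-store/8a3537_UV_unil.md`. Every module `XXX` is a file
`Pool/Agent/Lib/MP_8a3537_gt/UV/XXX.lean` which imports this file (and nothing else of the folder,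
unless stated) and proves `theorem specXxx (hypotheses as stated) : SpecXxx` in the namespace
`Pool.Agent.Lib.MPb6f35e.TT.UV`, with its auxiliary declarations in `UV.XXXAux`.

Do NOT `open` two namespaces `Matrix` and the root for `mul_inv_rev` (write `_root_.mul_inv_rev`).
-/

namespace Pool.Agent.Lib.MPb6f35e.TT.UV

open Matrix

/-! ### Restriction to a subgroup -/

/-- The inclusion `R[H] → R[G]`. -/
noncomputable abbrev emb (R : Type) {G : Type} [Ring R] [Group G] (H : Subgroup G) :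
    MonoidAlgebra R H →+* MonoidAlgebra R G :=
  MonoidAlgebra.mapDomainRingHom R H.subtype

/-- `(res H t y)(h) = y(t h)`: a map `R[G] → R[H]`, linear for right multiplication by `R[H]`. -/
noncomputable def res {R G : Type} [Ring R] [Group G] (H : Subgroup G) (t : G)
    (y : MonoidAlgebra R G) : MonoidAlgebra R H :=
  .ofCoeff (y.coeff.comapDomain (fun h : H => t * (h : G))
    (fun _ _ _ _ h => Subtype.ext (mul_left_cancel h)))

/-- `(lres H t y)(h) = y(h t)`: a map `R[G] → R[H]`, linear for left multiplication by `R[H]`. -/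
noncomputable def lres {R G : Type} [Ring R] [Group G] (H : Subgroup G) (t : G)
    (y : MonoidAlgebra R G) : MonoidAlgebra R H :=
  .ofCoeff (y.coeff.comapDomain (fun h : H => (h : G) * t)
    (fun _ _ _ _ h => Subtype.ext (mul_right_cancel h)))

theorem res_coeff {R G : Type} [Ring R] [Group G] (H : Subgroup G) (t : G)
    (y : MonoidAlgebra R G) (h : H) : (res H t y).coeff h = y.coeff (t * h) := rfl

theorem lres_coeff {R G : Type} [Ring R] [Group G] (H : Subgroup G) (t : G)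
    (y : MonoidAlgebra R G) (h : H) : (lres H t y).coeff h = y.coeff (h * t) := rfl

/-- `x y = x' y'` with `x, x' ∈ X`, `y, y' ∈ Y` only if `x H = x' H`. -/
def Disj {G : Type} [Group G] (H : Subgroup G) (X Y : Set G) : Prop :=
  ∀ x ∈ X, ∀ x' ∈ X, ∀ y ∈ Y, ∀ y' ∈ Y, x * y = x' * y' → x⁻¹ * x' ∈ H

/-- **RES** (size 200; restriction to a subgroup `H` of `G`; `S = R[H]`, `A = R[G]`).

PROOF. `res` and `lres` are additive; `res H t (y * emb s) = res H t y * s` and
`lres H t (emb s * y) = s * lres H t y` (both sides are biadditive, take `y`, `s` single; the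
coefficient of `single g r * single h s` is in `single (g h) (r s)`, and `t * h' = g * h` iff
`t⁻¹ * g ∈ H` and `h' = (t⁻¹ g) h`; or compare coefficients of a product by a `single`).
`y = 0` iff `res H t y = 0` for all `t` (coefficient at `1 ∈ H`), same for `lres`.
(CR) apply `res H t` to the entries of `Z * emb p`: rows of `res Z` satisfy `z p = 0`.
(CL) same with `lres`. (RF) For a coset `q : G ⧸ H` put `t_q = q.out`. Every `y ∈ A` is the finite
sum of the `single t_q 1 * emb (res H t_q y)` over the cosets `q` that meet the support of `y`.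
Take a finite set `Q` of cosets containing those of the supports of all entries of `M`, choose
`Θ_q` for `t_q`, `Θ_q = 0` if `res M = 0` at `q` (in that case `0` is a good choice), and
`θ = ∑_{q ∈ Q} t_q emb(Θ_q)`. If `Θ_q ≠ 0` then `M` has an element of its support in `t_q H`, so
`t_q ∈ X` because `X H ⊆ X`, so `supp θ ⊆ X H ⊆ X`.
(LF) the same on the other side, or by `star` from (RF) (not available without a star on `R`, so
the direct proof with right cosets is better: use `t ↦` inverse of representatives).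
(DJ) `θ = ∑_q t_q emb(res_q θ)` over cosets `q ⊆ X` (`t_q ∈ X`), `θ x = ∑_q t_q (emb(res_q θ) x)`,
the supports of `emb(res_q θ) x` are in `H Y ⊆ Y`, and the sets `t_q Y` are pairwise disjoint; so
all the summands vanish: `emb(res_q θ) x = 0`; for a general `t = t_q h` use
`res H (t_q h) θ = single h⁻¹ 1 * res H t_q θ`; if `t H` does not meet `X` then `res H t θ = 0`. -/
def SpecRES : Prop :=
  ∀ (R G : Type) [Ring R] [Group G] (H : Subgroup G),
    -- basic properties
    (∀ t (y z : MonoidAlgebra R G), res H t (y + z) = res H t y + res H t z) ∧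
    (∀ t (y z : MonoidAlgebra R G), lres H t (y + z) = lres H t y + lres H t z) ∧
    (∀ t (y : MonoidAlgebra R G) (s : MonoidAlgebra R H),
      res H t (y * emb R H s) = res H t y * s) ∧
    (∀ t (y : MonoidAlgebra R G) (s : MonoidAlgebra R H),
      lres H t (emb R H s * y) = s * lres H t y) ∧
    (∀ y : MonoidAlgebra R G, (∀ t, res H t y = 0) → y = 0) ∧
    (∀ y : MonoidAlgebra R G, (∀ t, lres H t y = 0) → y = 0) ∧
    -- (CR) cancellation on the right
    (∀ (m : Type) (r n : ℕ) (p : Matrix (Fin r) (Fin n) (MonoidAlgebra R H)),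
      (∀ z : Fin r → MonoidAlgebra R H, z ᵥ* p = 0 → z = 0) →
      ∀ Z : Matrix m (Fin r) (MonoidAlgebra R G), Z * p.map (emb R H) = 0 → Z = 0) ∧
    -- (CL) cancellation on the left
    (∀ (n : Type) (m r : ℕ) (i : Matrix (Fin m) (Fin r) (MonoidAlgebra R H)),
      (∀ x : Fin r → MonoidAlgebra R H, i *ᵥ x = 0 → x = 0) →
      ∀ Z : Matrix (Fin r) n (MonoidAlgebra R G), i.map (emb R H) * Z = 0 → Z = 0) ∧
    -- (RF) factorization on the right
    (∀ (m r n : ℕ) (p : Matrix (Fin r) (Fin n) (MonoidAlgebra R H))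
      (M : Matrix (Fin m) (Fin n) (MonoidAlgebra R G)) (X : Set G),
      (∀ h ∈ H, ∀ x ∈ X, x * h ∈ X) → SuppIn X M →
      (∀ t, ∃ Θ : Matrix (Fin m) (Fin r) (MonoidAlgebra R H), M.map (res H t) = Θ * p) →
      ∃ θ : Matrix (Fin m) (Fin r) (MonoidAlgebra R G), SuppIn X θ ∧ M = θ * p.map (emb R H)) ∧
    -- (LF) factorization on the left
    (∀ (m r n : ℕ) (p : Matrix (Fin m) (Fin r) (MonoidAlgebra R H))
      (M : Matrix (Fin m) (Fin n) (MonoidAlgebra R G)) (X : Set G),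
      (∀ h ∈ H, ∀ x ∈ X, h * x ∈ X) → SuppIn X M →
      (∀ t, ∃ Θ : Matrix (Fin r) (Fin n) (MonoidAlgebra R H), M.map (lres H t) = p * Θ) →
      ∃ θ : Matrix (Fin r) (Fin n) (MonoidAlgebra R G), SuppIn X θ ∧ M = p.map (emb R H) * θ) ∧
    -- (DJ) disjointness
    (∀ (c : Type) (m r : ℕ) (θ : Matrix (Fin m) (Fin r) (MonoidAlgebra R G))
      (Z : Matrix (Fin r) c (MonoidAlgebra R G)) (X Y : Set G),
      (∀ h ∈ H, ∀ x ∈ X, x * h ∈ X) → (∀ h ∈ H, ∀ y ∈ Y, h * y ∈ Y) → Disj H X Y →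
      SuppIn X θ → SuppIn Y Z → θ * Z = 0 →
      ∀ t, (θ.map (res H t)).map (emb R H) * Z = 0)

/-! ### The P-move -/

/-- The data of a P-move: `a = p^* a' p`, `μ = m' p`. -/
structure IsPM {R G : Type} [Ring R] [StarRing R] [Group G] (H : Subgroup G) (X1 X3 : Set G)
    {n r : ℕ} (a μ : Matrix (Fin n) (Fin n) (MonoidAlgebra R G))
    (p : Matrix (Fin r) (Fin n) (MonoidAlgebra R G))
    (a' : Matrix (Fin r) (Fin r) (MonoidAlgebra R G))
    (m' : Matrix (Fin n) (Fin r) (MonoidAlgebra R G)) : Prop where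
  supp_p : SuppIn (H : Set G) p
  supp_a' : SuppIn X1 a'
  supp_m' : SuppIn X3 m'
  eq_a : a = pᴴ * a' * p
  eq_m : μ = m' * p
  cancel : ∀ (l : Type) (Z : Matrix l (Fin r) (MonoidAlgebra R G)), Z * p = 0 → Z = 0
  inj : ∀ (Y : Set G), (∀ h ∈ H, ∀ y ∈ Y, h * y ∈ Y) → Disj H X1 Y → Disj H X3 Y →
    ∀ (c : Type) (Z : Matrix (Fin r) c (MonoidAlgebra R G)), SuppIn Y Z →
      pᴴ * a' * Z = 0 → m' * Z = 0 → Z = 0

/-- **STK** (size 200, hypothesis `SpecRES`): existence of the P-move.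

PROOF. `S = R[H]`. For `t ∈ G` the matrices `a.map (res H t)`, `μ.map (res H t)` are over `S`; if
`t H = j H`, `t = j h⁻¹`, then `res H t y = single h 1 * res H j y` (left multiplication). Let `J`
be a finite set of elements of `G` which contains the supports of all entries of `a` and `μ`, and
`L` the matrix over `S` with `n` columns and the rows of all `a.map (res H j)`, `μ.map (res H j)`,
`j ∈ J` (index `Fin m` through `Fintype.equivFin`). (FP): `L = i p0`, so for every `t ∈ G` there are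
`Θ, Θ'` with `a.map (res H t) = Θ p0`, `μ.map (res H t) = Θ' p0` (`0` if `t H` does not meet `J`,
otherwise a left multiple of a block of `i`). (RF): `a = θ p`, `μ = m' p`, `p = emb p0`,
`supp θ ⊆ X1`, `supp m' ⊆ X3`. Cancellation `Z p = 0 → Z = 0` is (CR); by `star`:
`p^* Z = 0 → Z = 0`. Also `a.map (res H t) = (θ.map (res H t)) p0` for all `t`.
Let `k ∈ S^n`, `p0 k = 0` (a column). Then `a k = θ p k = 0` (with `k` embedded in `A^n`), so
`k^* a = k^* ε a^* = ε (a k)^* = 0`, so `k^* θ p = 0`, `k^* θ = 0`. So for each `t` the columns `w` of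
`θ.map (lres H t)` satisfy `k^* w = 0`, so `w^* k = 0` (`^*` in `S`): by the last clause of (FP)
`w^* = z p0`, `w = p0^* z^*`. (LF) with `p0^*` (and `(p0^*).map emb = (p0.map emb)^*`):
`θ = p^* a'`, `supp a' ⊆ X1`. So `a = p^* a' p`, and `p^* (a' - ε a'^*) p = a - ε a^* = 0` gives
`a' = ε a'^*`.
INJECTIVITY. `θ Z = 0`, `m' Z = 0`, `supp Z ⊆ Y`. By (DJ) `(θ.map (res H t)).map emb * Z = 0` and
the same for `m'`, for all `t`. For `t = j ∈ J`: `(θ.map (res H j)) p0 = a.map (res H j)` is a block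
of `L = i p0`, and `p0` cancels on the right, so `θ.map (res H j)` is a block of `i`, same for
`m'`. So `i.map emb * Z = 0` and (CL) gives `Z = 0`. -/
def SpecSTK : Prop :=
  ∀ (R G : Type) [Ring R] [StarRing R] [Group G] (H : Subgroup G) (X1 X3 : Set G) (ε : ℤˣ)
    (n : ℕ) (a μ : Matrix (Fin n) (Fin n) (MonoidAlgebra R G)),
    FP (MonoidAlgebra R H) →
    (∀ h ∈ H, ∀ x ∈ X1, x * h ∈ X1) → (∀ h ∈ H, ∀ x ∈ X1, h * x ∈ X1) →
    (∀ h ∈ H, ∀ x ∈ X3, x * h ∈ X3) →
    SuppIn X1 a → SuppIn X3 μ → a = (ε : ℤ) • aᴴ →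
    ∃ (r : ℕ) (p : Matrix (Fin r) (Fin n) (MonoidAlgebra R G))
      (a' : Matrix (Fin r) (Fin r) (MonoidAlgebra R G))
      (m' : Matrix (Fin n) (Fin r) (MonoidAlgebra R G)),
      IsPM H X1 X3 a μ p a' m' ∧ a' = (ε : ℤ) • a'ᴴ

/-- **TAT** (size 80): Tate vanishing.

PROOF. Off the diagonal: for `i < j` put `c i j = d i j`, `c j i = 0`. On the diagonal
`x = d i i` satisfies `x = δ x^*`, that is `x(g⁻¹) = δ x(g)^*`. The involution `g ↦ g⁻¹` has no fixed
point in `X`; choose (well-order `G`, or by `Classical` choice on the pairs `{g, g⁻¹}`) a set `Y`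
which contains exactly one element of each pair `{g, g⁻¹}`, `g ∈ X`; `c i i` = the restriction of
`x` to `Y`. (With a linear order `<` on `G`: `Y = {g : g < g⁻¹}`.) -/
def SpecTAT : Prop :=
  ∀ (R G : Type) [Ring R] [StarRing R] [Group G] (X : Set G) (δ : ℤˣ) (n : ℕ)
    (d : Matrix (Fin n) (Fin n) (MonoidAlgebra R G)),
    (∀ x ∈ X, x⁻¹ ∈ X) → (∀ x ∈ X, x⁻¹ ≠ x) → SuppIn X d → d = (δ : ℤ) • dᴴ →
    ∃ c : Matrix (Fin n) (Fin n) (MonoidAlgebra R G), SuppIn X c ∧ d = c + (δ : ℤ) • cᴴ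

/-! ### The E-move -/

/-- **EMV** (size 200): the E-move, for every ring `A` with involution.

PROOF. Write forms as functions: `q[x] = x^* q x`; index set `n ⊕ n ⊕ r ⊕ r`, variables
`p, f ∈ A^n`, `p1, f1 ∈ A^r`; the matrix of a form is determined modulo `Z - ε Z^*`. Let
`lhat = ψ + ε ψ^*` and write `π` for the matrix `p` of the statement.
`Ω = UF (π^*ψπ) (m'π) χ ⊕ hyp r : ψ[π p] + p^*f + (π p)^* m'^* f + χ[f] + p1^* f1`.
(1) `f1 ↦ f1 + ψ p1 + lhat π p + m'^* f` (base change) gives, mod `Z - ε Z^*`,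
 `ψ[p1 + π p] + p^*f + (p1 + π p)^* m'^* f + χ[f] + p1^* f1`
 (`ψ[p1 + π p] = ψ[p1] + ψ[π p] + p1^* ψ π p + (π p)^* ψ p1`, and `(π p)^* ψ p1` is `ε p1^* ψ^* π p`).
(2) `p1 ↦ p1 - π p`: `ψ[p1] + p^*f + p1^* m'^* f + χ[f] + p1^* f1 - (π p)^* f1`.
(3) `f ↦ f + π^* f1`: `ψ[p1] + p^*f + p1^* m'^* f + p1^* m'^* π^* f1 + χ[f + π^* f1] + p1^* f1`.
(4) `p ↦ p - m' p1 - X f - Y f1` absorbs all terms with `f`
 (`χ[f + π^* f1] - χ[π^* f1] = f^* χ f + f^* (χ + ε χ^*) π^* f1` mod `Z - ε Z^*`):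
 `ψ[p1] + p1^* (1 + m'^* π^*) f1 + (π χ π^*)[f1] + p^* f`, this is
 `UF ψ (π m') (π χ π^*) ⊕ hyp n` (`(π m')^* = m'^* π^*`).
So `Ω ≅ UF ψ (π m') (π χ π^*) ⊕ hyp n` and both are stably hyperbolic or none is (adding
hyperbolic forms, `hyp a ⊕ hyp b ≅ hyp (a + b)`). In Lean: the composite base change `u` can be
written down as one `4 × 4` block matrix, `Z` is then explicit; or do the four steps with
`Isometric` transitive. -/
def SpecEMV : Prop :=
  ∀ (A : Type) [Ring A] [StarRing A] (ε : ℤˣ) (n r : ℕ) (ψ : Matrix (Fin r) (Fin r) A)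
    (m' : Matrix (Fin n) (Fin r) A) (χ : Matrix (Fin n) (Fin n) A)
    (p : Matrix (Fin r) (Fin n) A),
    StablyHyperbolic ε (UF ψ (p * m') (p * χ * pᴴ)) →
      StablyHyperbolic ε (UF (pᴴ * ψ * p) (m' * p) χ)

/-- **SWP** (size 120): exchange of the two summands, change of `ψ`, `χ` by `c - ε c^*`, and the
trivial form.

PROOF. (a) exchange the coordinates and multiply one of them by `ε`: `(ψ, 1 + μ^*; 0, χ)` becomes
`(χ, 0; ε (1 + μ^*), ψ)`, and modulo `Z - ε Z^*` the entry `ε (1 + μ^*)` at `(2,1)` is the entry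
`1 + μ = ε (ε (1 + μ^*))^*` at `(1,2)`. (b) `Z = diag(c, d)`. (c) `UF 0 0 0 = hyp`; transitivity. -/
def SpecSWP : Prop :=
  ∀ (A : Type) [Ring A] [StarRing A] (ε : ℤˣ) (n : ℕ) (ψ μ χ : Matrix (Fin n) (Fin n) A),
    (StablyHyperbolic ε (UF χ μᴴ ψ) → StablyHyperbolic ε (UF ψ μ χ)) ∧
    (∀ c d : Matrix (Fin n) (Fin n) A, StablyHyperbolic ε (UF ψ μ χ) →
      StablyHyperbolic ε (UF (ψ + c - (ε : ℤ) • cᴴ) μ (χ + d - (ε : ℤ) • dᴴ))) ∧
    StablyHyperbolic ε (UF (0 : Matrix (Fin n) (Fin n) A) 0 0)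

/-! ### Ping-pong -/

/-- The set of the inverses. -/
def Xinv {G : Type} [Group G] (X : Set G) : Set G := {x | x⁻¹ ∈ X}

/-- Ping-pong data for an edge with stabilizer `H`. -/
structure PingPong {G : Type} [Group G] (H : Subgroup G) (X1 X2 X3 Yp Ym : Set G) : Prop where
  X1l : ∀ h ∈ H, ∀ x ∈ X1, h * x ∈ X1
  X1r : ∀ h ∈ H, ∀ x ∈ X1, x * h ∈ X1
  X1i : ∀ x ∈ X1, x⁻¹ ∈ X1
  X2l : ∀ h ∈ H, ∀ x ∈ X2, h * x ∈ X2
  X2r : ∀ h ∈ H, ∀ x ∈ X2, x * h ∈ X2
  X2i : ∀ x ∈ X2, x⁻¹ ∈ X2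
  X3l : ∀ h ∈ H, ∀ x ∈ X3, h * x ∈ X3
  X3r : ∀ h ∈ H, ∀ x ∈ X3, x * h ∈ X3
  Yp1 : (1 : G) ∈ Yp
  Ym1 : (1 : G) ∈ Ym
  Ypl : ∀ h ∈ H, ∀ y ∈ Yp, h * y ∈ Yp
  Yml : ∀ h ∈ H, ∀ y ∈ Ym, h * y ∈ Ym
  X1Y : ∀ x ∈ X1, ∀ y ∈ Yp, x * y ∈ Ym
  X2Y : ∀ x ∈ X2, ∀ y ∈ Ym, x * y ∈ Yp
  X3Y : ∀ x ∈ X3, ∀ y ∈ Yp, x * y ∈ Yp
  X3Y' : ∀ x ∈ Xinv X3, ∀ y ∈ Ym, x * y ∈ Ym
  d23 : ∀ x ∈ X2, ∀ y ∈ Ym, ∀ x' ∈ X3, ∀ y' ∈ Yp, x * y ≠ x' * y'
  d13 : ∀ x ∈ X1, ∀ y ∈ Yp, ∀ x' ∈ Xinv X3, ∀ y' ∈ Ym, x * y ≠ x' * y'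
  u1 : Disj H X1 Yp
  u2 : Disj H X2 Ym
  u3 : Disj H X3 Yp
  u3' : Disj H (Xinv X3) Ym

/-- **NIL** (size 200): one P-move and the nil length.

PROOF. `A = R[G]`, `ν = nu ε a μ b`, `ν' = nu ε a' (p m') (p b p^*)` (size `r ⊕ r`). Put
`τ = fromBlocks m' (ε b) (p^* a') μ^*` (rows `n ⊕ n`, columns `r ⊕ n`), `P = fromBlocks p 0 0 1`
(rows `r ⊕ n`, columns `n ⊕ n`), `Q = fromBlocks 1 0 0 p^*` (rows `r ⊕ n`, columns `r ⊕ r`),
`N = P τ` (size `r ⊕ n`). Then `ν = τ P`, `Q ν' = N Q` (check: `μ^* p^* = p^* m'^* p^*`), so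
`ν^(l+1) = τ N^l P`, `P ν^l = N^l P`, `Q ν'^l = N^l Q`. `P` cancels on the right (`Z P = 0 → Z = 0`,
from `cancel`), `Q` cancels on the left (star of `cancel`).
(i) `ν^(l+1) = 0` gives `τ N^l = 0`, so `N^(l+1) = 0`, so `Q ν'^(l+1) = 0`, `ν'^(l+1) = 0`.
(ii) Write `N^l = (x; y)`, `x` the rows `inl`, `y` the rows `inr`. `supp x ⊆ Yp`, `supp y ⊆ Ym` by
induction on `l` (`l = 0`: entries `0` or `1`, and `1 ∈ Yp`, `1 ∈ Ym`; step: `N = fromBlocks (p m')
(ε p b) (p^* a') μ^*`, supports in `H X3`, `H X2`, `H X1`, `Xinv X3`). `τ (x; y) = 0`: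
`m' x + ε b y = 0`: supports in `X3 Yp`, `X2 Ym`, disjoint, so `m' x = 0`; `p^* a' x + μ^* y = 0`:
supports in `X1 Yp` (`H X1 ⊆ X1`) and `(Xinv X3) Ym`, disjoint, so `p^* a' x = 0`. By `inj` with
`Y = Yp`: `x = 0`. So `Q ν'^l = N^l Q` has rows `inl` zero, these are the rows `inl` of `ν'^l`.
(iii) If the rows `inr` of `ν^l` vanish then those of `P ν^l = N^l P`, so (cancel `P`) those of
`N^l`, so those of `N^l Q = Q ν'^l`, which are `p^* (rows inr of ν'^l)`: cancel `p^*`. -/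
def SpecNIL : Prop :=
  ∀ (R G : Type) [Ring R] [StarRing R] [Group G] (H : Subgroup G) (X1 X2 X3 Yp Ym : Set G)
    (_ : PingPong H X1 X2 X3 Yp Ym) (ε : ℤˣ) (n r : ℕ)
    (a μ b : Matrix (Fin n) (Fin n) (MonoidAlgebra R G))
    (p : Matrix (Fin r) (Fin n) (MonoidAlgebra R G))
    (a' : Matrix (Fin r) (Fin r) (MonoidAlgebra R G))
    (m' : Matrix (Fin n) (Fin r) (MonoidAlgebra R G)),
    IsPM H X1 X3 a μ p a' m' → SuppIn X2 b → SuppIn X3 μ →
    ∀ l : ℕ, (nu ε a μ b) ^ (l + 1) = 0 →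
      (nu ε a' (p * m') (p * b * pᴴ)) ^ (l + 1) = 0 ∧
      (∀ i j, ((nu ε a' (p * m') (p * b * pᴴ)) ^ l) (Sum.inl i) j = 0) ∧
      ((∀ i j, ((nu ε a μ b) ^ l) (Sum.inr i) j = 0) →
        ∀ i j, ((nu ε a' (p * m') (p * b * pᴴ)) ^ l) (Sum.inr i) j = 0)

/-- Theorem 1 for ping-pong data. -/
def Thm1 : Prop :=
  ∀ (R G : Type) [Ring R] [StarRing R] [Group G] (H : Subgroup G) (X1 X2 X3 Yp Ym : Set G)
    (_ : PingPong H X1 X2 X3 Yp Ym) (_ : FP (MonoidAlgebra R H)) (ε : ℤˣ) (n : ℕ)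
    (ψ μ χ : Matrix (Fin n) (Fin n) (MonoidAlgebra R G)),
    SuppIn X1 ψ → SuppIn X3 μ → SuppIn X2 χ →
    IsNilpotent (nu ε (ψ + (ε : ℤ) • ψᴴ) μ (χ + (ε : ℤ) • χᴴ)) →
    StablyHyperbolic ε (UF ψ μ χ)

/-- **IND** (size 200, hypotheses `SpecSTK, SpecTAT, SpecEMV, SpecSWP, SpecNIL`).

PROOF. ONE MOVE. Given `ψ, μ, χ` with `ν^(l+1) = 0`; `a = ψ + ε ψ^*` (so `a = ε a^*`, as
`ε² = 1`), `b = χ + ε χ^*`. STK: `p, a', m'`. TAT (`δ = ε`): `a' = ψ' + ε ψ'^*`, `supp ψ' ⊆ X1`.
`d = ψ - p^* ψ' p` satisfies `d + ε d^* = a - p^* a' p = 0`, and `supp d ⊆ X1`; TAT (`δ = -ε`):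
`d = c - ε c^*`. So by SWP (second part) and EMV: `UF ψ μ χ` is stably hyperbolic if
`UF ψ' (p m') (p χ p^*)` is. Here `supp (p m') ⊆ X3`, `supp (p χ p^*) ⊆ X2` (`H`-invariance), and
the new `b` is `p b p^*`, so NIL applies.
PingPong is symmetric: `PingPong H X1 X2 X3 Yp Ym → PingPong H X2 X1 (Xinv X3) Ym Yp`, and
`nu ε b μ^* a` is `nu ε a μ b` with the blocks exchanged, up to conjugation by `diag(1, ε)` (or show:
`nu ε b μᴴ a = W (nu ε a μ b) W⁻¹` with `W = fromBlocks 0 1 ε 0`: `W (p; f) = (f; ε p)`), so powers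
correspond and rows `inl` and `inr` are exchanged.
INDUCTION on `l`: claim for all `n, ψ, μ, χ` (and both orientations of the ping-pong data) with
`ν^(l+1) = 0`. `l = 0`: `ν = 0`, so `a = b = 0`, `μ = 0`, TAT (`δ = -ε`): `ψ = c - ε c^*`,
`χ = d - ε d^*`, SWP. Step `l + 1`: a move gives `ν1` with `ν1^(l+2) = 0` and rows `inl` of
`ν1^(l+1)` zero; exchange (SWP first part): rows `inr` zero; second move: rows `inl` and `inr` of
`ν2^(l+1)` zero, so `ν2^(l+1) = 0`; induction. (`IsNilpotent`: `ν^l = 0`, then `ν^(l+1) = 0`.) -/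
def SpecIND : Prop := Thm1

/-! ### Trees -/

/-- **TRE** (size 250): the ping-pong data of an edge `(v, w)` of a tree.

PROOF. `d = T.dist`. In a tree, for adjacent `x, y` and every `u`: `d u x = d u y + 1` or
`d u y = d u x + 1` (not equal: acyclic; `IsTree`, unique paths). For adjacent `x, y` let
`B x y = {u : d u y < d u x}` (the branch at `x` through `y`). `u ∈ B x y ∨ u ∈ B y x`, not both;
for `y ≠ y'` adjacent to `x`, `B x y` and `B x y'` are disjoint; so `B x y' ⊆ B y x` for `y' ≠ y`;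
`y ∈ B x y`; `x ∉ B x y`; the only neighbour of `x` in `B x y` is `y`. `g B x y = B (g x) (g y)`.
`Yp = {g : g w ∈ B v w ∧ (g v ∈ B v w ∨ g v = v)}`, `Ym = {g : g v ∈ B w v ∧ (g w ∈ B w v ∨ g w = w)}`.
`x ∈ X1` (`x v = v`, `x w = u ≠ w`), `y ∈ Yp`: `x y w ∈ B v u`, `x y v ∈ B v u ∪ {v}`, and
`B v u ⊆ B w v`, `v ∈ B w v`. So `X1 Yp ⊆ Ym`, and `x y w ∈ B v (x w)` gives `u1`: for `x, x' ∈ X1`,
`x y = x' y'` forces `x w = x' w`, so `x⁻¹ x' ∈ H`.
`x ∈ X3` (`x v = w`, `x w = u`, adjacent to `w`, `u ≠ v` as `(v, w)` is not inverted): `x y w ∈ B w u`,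
`x y v ∈ B w u ∪ {w}`, `B w u ⊆ B v w`, `w ∈ B v w`: `X3 Yp ⊆ Yp`; `u3` as before.
`X2`, `Xinv X3` (`x w = v`): the same with `v, w` exchanged. `d23`: `x ∈ X2`, `y ∈ Ym`: `z = x y` has
`z v ∈ B w (x v)`, `z w ∈ B w (x v) ∪ {w}`; `x' ∈ X3`, `y' ∈ Yp`: `z w ∈ B w (x' w)`; so
`x v = x' w`, and then `x⁻¹ x'` maps `v` to `w` and `w` to `v`: inversion. `d13` by symmetry.
`H = stabilizer v ⊓ stabilizer w`. -/
def SpecTRE : Prop :=
  ∀ (G V : Type) [Group G] [MulAction G V] (T : SimpleGraph V) (v w : V), T.IsTree →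
    (∀ (g : G) (x y : V), T.Adj x y → T.Adj (g • x) (g • y)) → T.Adj v w →
    (∀ g : G, ¬ (g • v = w ∧ g • w = v)) →
    ∃ Yp Ym : Set G,
      PingPong (MulAction.stabilizer G v ⊓ MulAction.stabilizer G w)
        {g | g • v = v ∧ g • w ≠ w} {g | g • w = w ∧ g • v ≠ v} {g | g • v = w} Yp Ym

/-! ### Free groups -/

/-- A free action on a discrete tree, with even distances on an orbit. -/
structure HTree (F : Type) [Group F] where
  /-- points -/
  T : Type
  /-- action -/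
  act : F → T → T
  /-- distance -/
  d : T → T → ℕ
  /-- base point -/
  o : T
  act_one : ∀ x, act 1 x = x
  act_mul : ∀ g h x, act (g * h) x = act g (act h x)
  d_self : ∀ x, d x x = 0
  d_comm : ∀ x y, d x y = d y x
  d_eq : ∀ x y, d x y = 0 → x = y
  tri : ∀ x y z, d x z ≤ d x y + d y z
  four : ∀ x y z w, d x y + d z w ≤ max (d x z + d y w) (d x w + d y z)
  geo : ∀ x y t, t ≤ d x y → ∃ z, d x z + t = d x y ∧ d z y = t
  iso : ∀ g x y, d (act g x) (act g y) = d x y
  free : ∀ g x, act g x = x → g = 1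
  even : ∀ g h, Even (d (act g o) (act h o))

/-- **HTR** (size 200).

PROOF. `T = FreeGroup (Option X)`, `φ : FreeGroup X → T`, `x ↦ of (some x) * of none`,
`act g z = φ g * z`, `d u v = norm (u⁻¹ * v)` (`FreeGroup.norm`), `o = 1`. `φ` is injective (the
homomorphism `T → FreeGroup X`, `some x ↦ x`, `none ↦ 1` is a left inverse), so the action is free.
Evenness: `norm u` modulo 2 is the value of the homomorphism `T → ℤ/2` which is `1` on all
generators (length of a word), and this is `0` on `φ g`. For `u, v` let `(u|v)` be the length of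
the longest common prefix of `toWord u`, `toWord v`: if `toWord u = c ++ u'`, `toWord v = c ++ v'`
and the first letters of `u'`, `v'` are different (or one of them is empty) then
`u⁻¹ v = mk (invRev u' ++ v')` and this word is reduced (`IsReduced`), so
`d u v = |u| + |v| - 2 (u|v)`. `(u|v) ≥ min (u|w) (w|v)`. The four point inequality is invariant
under left translation, so let `x = 1`: then it says `(z|w) ≥ min (y|w) (y|z)`. `tri` and `d_eq` are
easy (`four` with two equal points, or `norm_mul_le`). `geo`: translate `x` to `1`: `z` is the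
prefix of `toWord y` of length `|y| - t`. -/
def SpecHTR : Prop := ∀ X : Type, Nonempty (HTree (FreeGroup X))

/-- Products of elementary matrices and matrices `diag(1, .., y, .., 1)`, `y ∈ F`, over `R[F]`. -/
inductive GE {R F : Type} [Ring R] [Group F] {r : ℕ} :
    Matrix (Fin r) (Fin r) (MonoidAlgebra R F) → Prop
  | one : GE 1
  | elem (i j : Fin r) (hij : i ≠ j) (s : MonoidAlgebra R F) (g) :
      GE g → GE ((1 + Matrix.single i j s) * g)
  | mono (i : Fin r) (y : F) (g) :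
      GE g → GE (Matrix.diagonal (Function.update 1 i (MonoidAlgebra.single y 1)) * g)

/-- (WA) If the rows of `C` are left dependent then an element of `GE` makes one of them zero. -/
def WA (k F : Type) [Field k] [Group F] : Prop :=
  ∀ (r m : ℕ) (C : Matrix (Fin r) (Fin m) (MonoidAlgebra k F)) (x : Fin r → MonoidAlgebra k F),
    x ≠ 0 → x ᵥ* C = 0 → ∃ g : Matrix (Fin r) (Fin r) (MonoidAlgebra k F), GE g ∧
      ∃ i, ∀ j, (g * C) i j = 0

/-- **WAL** (size 300): the weak algorithm.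

PROOF. For a row `c ∈ k[F]^m` let `D(c)` be the union of the supports of its entries (a finite
subset of `F`), `D(y c) = y D(c)`; for `c ≠ 0` let `2 δ(c) = max {d(g o, h o) : g, h ∈ D(c)}` (even).
INDUCTION on `∑_j δ(c_j)`. If some row is zero: done. Otherwise:
STEP. All `c_j ≠ 0`, `x_j = ∑_y x_{j,y} y`, `∑_{j,y} x_{j,y} y c_j = 0`,
`P = {(j,y) : x_{j,y} ≠ 0}`, nonempty and finite. `M = max {d(o, g o) : (j,y) ∈ P, g ∈ D(y c_j)}`,
`P_M` = the `(j,y) ∈ P` for which the maximum over `g ∈ D(y c_j)` is `M`.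
For `(j,y) ∈ P_M` take `g ∈ D(y c_j)` with `d(o, g o) = M`. `δ_j ≤ M` (triangle inequality), so
(`geo`) there is `z = z_{j,y}` with `d(o,z) = M - δ_j`, `d(z, g o) = δ_j`.
(C1) for `h ∈ D(y c_j)`: `four` for `z, h o; o, g o`: `d(z,ho) + M = d(z,ho) + d(o,go)
≤ max (d(z,o) + d(ho,go)) (d(z,go) + d(ho,o)) ≤ max (M - δ + 2δ) (δ + M)`, so `d(z, h o) ≤ δ_j`.
(C2) `z` is the only point with (C1): if `z'` is another one, take `g, h ∈ D` with `d = 2δ`; `four`
for `z, z'; go, ho`: `d(z,z') + 2δ ≤ 2δ`. In particular `z_{j,y'} = act (y' y⁻¹) z_{j,y}`, so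
`z_{j,y} = z_{j,y'}` implies `y = y'` (the action is free).
Take `(j0,y0) ∈ P_M` with `ρ = δ_{j0}` maximal, `z0 = z_{j0,y0}`, and
`Q = {(j,y) ∈ P_M : d(z0, z_{j,y}) + δ_j = ρ}`. If `(j0,y) ∈ Q` then `z_{j0,y} = z0`, `y = y0`. So
`c' = x_{j0,y0}⁻¹ ∑_Q x_{j,y} y c_j = y0 c_{j0} + ∑_{j ≠ j0} s_j c_j`.
`D(c') ⊆ ⋃_Q D(y c_j)` is in the ball of radius `ρ` around `z0`. If `c' ≠ 0` and `δ(c') ≥ ρ`, let
`g, h ∈ D(c')`, `d(go,ho) ≥ 2ρ`; `four` for `o, z0; go, ho`: `d(o,z0) + 2ρ ≤ max (d(o,go) + ρ)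
(d(o,ho) + ρ)`, so for one of them, say `g`, `d(o,go) ≥ M` (`d(o,z0) = M - ρ`). If `(j,y) ∈ P` and
`g ∈ D(y c_j)` then `(j,y) ∈ P_M`, and `four` for `z0, z_{j,y}; o, go`:
`d(z0,z_{j,y}) + M ≤ max ((M-ρ) + δ_j) (ρ + M - δ_j)`, so `d(z0,z_{j,y}) ≤ ρ - δ_j` and (triangle:
`M - δ_j ≤ M - ρ + d`) equality: `(j,y) ∈ Q`. So the coefficient of `c'` at `g` is `x_{j0,y0}⁻¹` times
that of the whole relation: `0`, contradiction. So `c' = 0` or `δ(c') < ρ`. Replace `c_{j0}` by
`c'` (one `mono` and some `elem`): the rows are still dependent (`x g⁻¹ ≠ 0`), unless `c' = 0`,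
and then we are done. It is convenient to do the induction for tuples `c : Fin r → (Fin m → k[F])`. -/
def SpecWAL : Prop := ∀ (k F : Type) [Field k] [Group F], HTree F → WA k F

/-- The augmentation `R[F] → R`. -/
noncomputable def aug (R F : Type) [CommRing R] [Group F] : MonoidAlgebra R F →+* R :=
  (MonoidAlgebra.lift R R F (1 : F →* R)).toRingHom

/-- **LFT** (size 100): properties of `GE`.

PROOF. Induction. The inverse of `1 + single i j s` is `1 + single i j (-s)`, that of the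
diagonal matrix has `y⁻¹`; `GE` is closed under products. Lifting: lift `s`. The determinants of
the augmentations are `1`. -/
def SpecLFT : Prop :=
  (∀ (R F : Type) [Ring R] [Group F] (r : ℕ) (g : Matrix (Fin r) (Fin r) (MonoidAlgebra R F)),
    GE g → ∃ g', GE g' ∧ g * g' = 1 ∧ g' * g = 1) ∧
  (∀ (R k F : Type) [Ring R] [Ring k] [Group F] (f : R →+* k), Function.Surjective f →
    ∀ (r : ℕ) (g : Matrix (Fin r) (Fin r) (MonoidAlgebra k F)), GE g →
    ∃ g' : Matrix (Fin r) (Fin r) (MonoidAlgebra R F), GE g' ∧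
      g'.map (MonoidAlgebra.mapRingHom F f) = g) ∧
  (∀ (R F : Type) [CommRing R] [Group F] (r : ℕ)
    (g : Matrix (Fin r) (Fin r) (MonoidAlgebra R F)), GE g → (g.map (aug R F)).det = 1)

/-- **FLD** (size 150, hypothesis `SpecLFT`): factorization over a field.

PROOF. (WA) for columns: for the anti-automorphism `τ` of `k[F]`, `g ↦ g⁻¹` (`conj` for the trivial
involution of `k`), `(M N)^τ = N^τ M^τ`; so if `i x = 0`, `x ≠ 0`, then there is an invertible `g`
such that `i g` has a zero column. Take `r` minimal such that there are `i (m × r)`, `p (r × n)`,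
`s (n × r)` with `L = i p`, `p s = 1` (`r = n` is possible: `i = L`, `p = s = 1`). If `i x = 0`,
`x ≠ 0`: take `g` invertible such that the column `j` of `i g` is zero; `L = (i g)(g⁻¹ p)`,
`(g⁻¹ p)(s g) = 1`; delete the column `j` of `i g`, the row `j` of `g⁻¹ p`, the column `j` of
`s g` (`Fin.succAbove`): smaller `r`. -/
def SpecFLD : Prop :=
  ∀ (k F : Type) [Field k] [Group F], WA k F → ∀ (m n : ℕ)
    (L : Matrix (Fin m) (Fin n) (MonoidAlgebra k F)),
    ∃ (r : ℕ) (i : Matrix (Fin m) (Fin r) (MonoidAlgebra k F))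
      (p : Matrix (Fin r) (Fin n) (MonoidAlgebra k F))
      (s : Matrix (Fin n) (Fin r) (MonoidAlgebra k F)),
      L = i * p ∧ p * s = 1 ∧ ∀ x : Fin r → MonoidAlgebra k F, i *ᵥ x = 0 → x = 0

/-- **PID** (size 350, hypotheses `SpecLFT, SpecFLD`): (FP) over a principal ideal domain.

PROOF. `S = D[F]`, `K = FractionRing D`, `S → K[F]` injective, everything in `K[F]` has a
denominator in `D - 0` (central). `L` over `S` (`m × n`). FLD over `K`: `L = i0 p0`, `p0 s0 = 1`.
`p1 = c p0`, `s1 = c' s0` over `S` (`c, c' ≠ 0`), `p1 s1 = c c'`.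
`N = {y ∈ S^n (row) : ∀ k ∈ S^n, L k = 0 → y k = 0}`. (a) rows of `p1` are in `N` (`L k = 0` gives
`i0 p0 k = 0`, `p0 k = 0`). (b) `d y ∈ N`, `d ≠ 0` implies `y ∈ N`. (c) `y ∈ N` implies
`y = (y s0) p0`: for every column `k`, `k - s0 p0 k` is killed by `p0`, so by `L`; clear
denominators; so `y k = y s0 p0 k`. So `c c' y = (y s1) p1`.
(d) Consider all `(p, h)`, `p (r × n)`, `h (r × r)` over `S`, rows of `p` in `N`, `h p = p1`
(e.g. `(p1, 1)`). `h (p s1) = c c'`, so `det aug h * det aug (p s1) = (c c')^r ≠ 0`. Choose one for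
which the number of prime factors of `det aug (p s1)` (`normalizedFactors`) is minimal.
(e) Claim: every `y ∈ N` is `z p`. For `d ≠ 0` let `Pr(d)`: `y ∈ N`, `d y ∈ S p` (row span) implies
`y ∈ S p`. `Pr` holds for units and is multiplicative (with (b), or `N` closed under `D`), and
`c c' y = (y s1) h p ∈ S p`; so it is enough to prove `Pr(q)` for `q` prime. Let `q y = z p`. If `q`
divides `z` in `S^r`: `y = z' p` (torsion-free). Otherwise reduce modulo `q`: `k = D/(q)` is a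
field, `z ≠ 0`, `z p = 0` in `k[F]`: (WA): `g` in `GE` over `k`, lift it (LFT): some row `j` of `g p`
is `q y''`, `y'' ∈ S^n`, `y'' ∈ N` by (b). Let `p'` = `g p` with the row `j` replaced by `y''`,
`Δ = diag(1, .., q, .., 1)`: `g p = Δ p'`, `h' = h g⁻¹ Δ`: `h' p' = p1`; and
`det aug (p s1) = det aug (g⁻¹ Δ p' s1) = q det aug (p' s1)`: fewer prime factors. Contradiction.
(f) LEMMA: `h w = c` (scalar, `c ≠ 0`) over `K[F]`, `z w = 0` implies `z = 0`: otherwise (WA) over
`K`: `g w` has a zero row, `(h g⁻¹)(g w) = c`: apply `aug` and `det`: `c^r = 0`. (If `r = 0` clear.)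
So `z p = 0` implies `z p s1 = 0`, `z = 0` (`h (p s1) = c c'`).
(g) rows of `L` are in `N`: `L = i p`. Over `K[F]`: rows of `p` in `N`, so `p = w p0`, `w = p s0`,
`i0 = L s0 = i w`, `h w = h p s0 = p1 s0 = c`; `(w h - c) w = 0`, so `w h = c` by (f). If `i x = 0`:
`i0 (h x) = i w h x = c i x = 0`, so `h x = 0`, `c x = w h x = 0`, `x = 0`.
(h) closed: if `p k = 0` implies `y k = 0`, then `L k = 0` implies `p k = 0` (by (g)), so `y ∈ N`,
so `y = z p` by (e). -/
def SpecPID : Prop :=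
  ∀ (D F : Type) [CommRing D] [IsDomain D] [IsPrincipalIdealRing D] [Group F],
    (∀ (k : Type) [Field k], WA k F) → FP (MonoidAlgebra D F)

/-- **LOC** (size 150, hypothesis `SpecRES`): transport, and locally (FP).

PROOF. (a) clear. (b) Let `L` be a matrix over `R[H]`; the supports of its entries are in a
finitely generated subgroup `K`, `L = L0.map (emb R K)`, `L0 = i0 p0` by (FP) for `R[K]`;
`i = i0.map emb`, `p = p0.map emb`. The two cancellations are (CL), (CR) (matrices with one row or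
column). Closed: let `y ∈ R[H]^n`, `p k = 0 → y k = 0` for `k ∈ R[H]^n`. For `t ∈ H` and `k ∈ R[K]^n`,
`p0 k = 0`: `(res t y) k = res t (y (emb k)) = 0`; so `res t y = z_t p0` for all `t`; (RF) with one
row and `X = univ`: `y = z p`. -/
def SpecLOC : Prop :=
  (∀ (S S' : Type) [Ring S] [Ring S'], (S ≃+* S') → FP S → FP S') ∧
  (∀ (R H : Type) [Ring R] [Group H],
    (∀ K : Subgroup H, K.FG → FP (MonoidAlgebra R K)) → FP (MonoidAlgebra R H))

/-- **FIN** (size 100; all the Specs): the two theorems. (helper31) -/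
def SpecFIN : Prop :=
  (∀ (R G V : Type) [Ring R] [StarRing R] [Group G] [MulAction G V] (T : SimpleGraph V) (v w : V),
    T.IsTree → (∀ (g : G) (x y : V), T.Adj x y → T.Adj (g • x) (g • y)) → T.Adj v w →
    (∀ g : G, ¬ (g • v = w ∧ g • w = v)) →
    FP (MonoidAlgebra R ↥(MulAction.stabilizer G v ⊓ MulAction.stabilizer G w)) →
    ∀ (ε : ℤˣ) (n : ℕ) (ψ μ χ : Matrix (Fin n) (Fin n) (MonoidAlgebra R G)),
      SuppIn {g | g • v = v ∧ g • w ≠ w} ψ → SuppIn {g | g • v = w} μ →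
      SuppIn {g | g • w = w ∧ g • v ≠ v} χ →
      IsNilpotent (nu ε (ψ + (ε : ℤ) • ψᴴ) μ (χ + (ε : ℤ) • χᴴ)) →
      StablyHyperbolic ε (UF ψ μ χ)) ∧
  (∀ (D H : Type) [CommRing D] [IsDomain D] [IsPrincipalIdealRing D] [Group H],
    (∀ K : Subgroup H, K.FG → IsFreeGroup K) → FP (MonoidAlgebra D H))

end Pool.Agent.Lib.MPb6f35e.TT.UV

/-! ## Module UV/IND -/

/-!
# UV, module IND: the induction on the nil length
-/

namespace Pool.Agent.Lib.MPb6f35e.TT.UV

open Matrix

namespace INDAux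

section Supp

variable {R G : Type} [Ring R] [Group G]

theorem supp_mul {m n l : Type} [Fintype n] {X Y Z : Set G} {M : Matrix m n (MonoidAlgebra R G)}
    {N : Matrix n l (MonoidAlgebra R G)} (hM : SuppIn X M) (hN : SuppIn Y N)
    (h : ∀ x ∈ X, ∀ y ∈ Y, x * y ∈ Z) : SuppIn Z (M * N) := by
  intro i j g hg
  rw [Matrix.mul_apply, MonoidAlgebra.coeff_sum, Finsupp.finsetSum_apply] at hg
  obtain ⟨k, _, hk⟩ := Finset.exists_ne_zero_of_sum_ne_zero hg
  rw [MonoidAlgebra.coeff_mul_apply_left] at hk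
  obtain ⟨y, _, hy⟩ := Finset.exists_ne_zero_of_sum_ne_zero hk
  have h1 := hM i k y (left_ne_zero_of_mul hy)
  have h2 := hN k j _ (right_ne_zero_of_mul hy)
  have h3 := h _ h1 _ h2
  rwa [mul_inv_cancel_left] at h3

theorem supp_add {m n : Type} {X : Set G} {M N : Matrix m n (MonoidAlgebra R G)}
    (hM : SuppIn X M) (hN : SuppIn X N) : SuppIn X (M + N) := by
  intro i j g hg
  by_contra hc
  apply hg
  rw [Matrix.add_apply, MonoidAlgebra.coeff_add, Finsupp.add_apply]
  have h1 : (M i j).coeff g = 0 := by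
    by_contra h
    exact hc (hM i j g h)
  have h2 : (N i j).coeff g = 0 := by
    by_contra h
    exact hc (hN i j g h)
  rw [h1, h2, add_zero]

theorem supp_neg {m n : Type} {X : Set G} {M : Matrix m n (MonoidAlgebra R G)}
    (hM : SuppIn X M) : SuppIn X (-M) := by
  intro i j g hg
  apply hM i j g
  intro h
  apply hg
  rw [Matrix.neg_apply]
  simp [h]

theorem supp_units {m n : Type} {X : Set G} {M : Matrix m n (MonoidAlgebra R G)} (ε : ℤˣ)
    (hM : SuppIn X M) : SuppIn X ((ε : ℤ) • M) := by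
  rcases Int.units_eq_one_or ε with rfl | rfl
  · simpa using hM
  · simpa using supp_neg hM

end Supp

section Star

variable {R G : Type} [Ring R] [StarRing R] [Group G]

theorem supp_star {m n : Type} {X Y : Set G} {M : Matrix m n (MonoidAlgebra R G)}
    (hM : SuppIn X M) (h : ∀ x ∈ X, x⁻¹ ∈ Y) : SuppIn Y Mᴴ := by
  intro i j g hg
  rw [Matrix.conjTranspose_apply, star_coeff] at hg
  have h1 : (M j i).coeff g⁻¹ ≠ 0 := by
    intro h
    rw [h, star_zero] at hg
    exact hg rfl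
  have h2 := h _ (hM j i _ h1)
  rwa [inv_inv] at h2

end Star

section Alg

variable {A : Type} [Ring A] [StarRing A]

theorem units_smul_smul {m n : Type} (ε : ℤˣ) (M : Matrix m n A) :
    (ε : ℤ) • ((ε : ℤ) • M) = M := by
  rcases Int.units_eq_one_or ε with rfl | rfl <;> simp

theorem star_units {m n : Type} (ε : ℤˣ) (M : Matrix m n A) :
    ((ε : ℤ) • M)ᴴ = (ε : ℤ) • Mᴴ := by
  rcases Int.units_eq_one_or ε with rfl | rfl <;> simp

theorem sym_of {n : Type} (ε : ℤˣ) (ψ : Matrix n n A) :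
    ψ + (ε : ℤ) • ψᴴ = (ε : ℤ) • (ψ + (ε : ℤ) • ψᴴ)ᴴ := by
  rw [conjTranspose_add, star_units, conjTranspose_conjTranspose, smul_add, units_smul_smul,
    add_comm]

theorem neg_units {m n : Type} (ε : ℤˣ) (M : Matrix m n A) :
    ((-ε : ℤˣ) : ℤ) • M = -((ε : ℤ) • M) := by
  rw [Units.val_neg, neg_smul]

/-- The exchange matrix. -/
def W (n A : Type) [Fintype n] [DecidableEq n] [Ring A] (ε : ℤˣ) : Matrix (n ⊕ n) (n ⊕ n) A :=
  fromBlocks 0 1 ((ε : ℤ) • 1) 0

/-- Its inverse. -/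
def W' (n A : Type) [Fintype n] [DecidableEq n] [Ring A] (ε : ℤˣ) : Matrix (n ⊕ n) (n ⊕ n) A :=
  fromBlocks 0 ((ε : ℤ) • 1) 1 0

theorem W_mul_W' {n : Type} [Fintype n] [DecidableEq n] (ε : ℤˣ) : W n A ε * W' n A ε = 1 := by
  unfold W W'
  rw [fromBlocks_multiply, ← fromBlocks_one]
  rcases Int.units_eq_one_or ε with rfl | rfl <;> simp

theorem W'_mul_W {n : Type} [Fintype n] [DecidableEq n] (ε : ℤˣ) : W' n A ε * W n A ε = 1 := by
  unfold W W'
  rw [fromBlocks_multiply, ← fromBlocks_one]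
  rcases Int.units_eq_one_or ε with rfl | rfl <;> simp

theorem nu_swap {n : Type} [Fintype n] [DecidableEq n] (ε : ℤˣ) (a μ b : Matrix n n A) :
    nu ε b μᴴ a = W n A ε * nu ε a μ b * W' n A ε := by
  unfold nu W W'
  rw [fromBlocks_multiply, fromBlocks_multiply]
  rcases Int.units_eq_one_or ε with rfl | rfl <;> simp

theorem nu_swap_pow {n : Type} [Fintype n] [DecidableEq n] (ε : ℤˣ) (a μ b : Matrix n n A)
    (l : ℕ) : (nu ε b μᴴ a) ^ l = W n A ε * (nu ε a μ b) ^ l * W' n A ε := by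
  induction l with
  | zero => rw [pow_zero, pow_zero, Matrix.mul_one, W_mul_W']
  | succ l ih =>
    rw [pow_succ, ih, nu_swap, pow_succ]
    calc W n A ε * nu ε a μ b ^ l * W' n A ε * (W n A ε * nu ε a μ b * W' n A ε)
        = W n A ε * nu ε a μ b ^ l * (W' n A ε * W n A ε) * nu ε a μ b * W' n A ε := by
          simp only [Matrix.mul_assoc]
      _ = _ := by
          rw [W'_mul_W, Matrix.mul_one]
          simp only [Matrix.mul_assoc]

theorem swap_zero {n : Type} [Fintype n] [DecidableEq n] (ε : ℤˣ) (a μ b : Matrix n n A)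
    (l : ℕ) (h : (nu ε a μ b) ^ l = 0) : (nu ε b μᴴ a) ^ l = 0 := by
  rw [nu_swap_pow, h, Matrix.mul_zero, Matrix.zero_mul]

theorem swap_rows {n : Type} [Fintype n] [DecidableEq n] (ε : ℤˣ) (a μ b : Matrix n n A)
    (l : ℕ) (h : ∀ i j, ((nu ε a μ b) ^ l) (Sum.inl i) j = 0) :
    ∀ i j, ((nu ε b μᴴ a) ^ l) (Sum.inr i) j = 0 := by
  intro i j
  rw [nu_swap_pow, Matrix.mul_assoc, Matrix.mul_apply]
  apply Finset.sum_eq_zero
  intro k _
  rcases k with k | k
  · have : (nu ε a μ b ^ l * W' n A ε) (Sum.inl k) j = 0 := by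
      rw [Matrix.mul_apply]
      apply Finset.sum_eq_zero
      intro q _
      rw [h, zero_mul]
    rw [this, mul_zero]
  · have : W n A ε (Sum.inr i) (Sum.inr k) = 0 := rfl
    rw [this, zero_mul]

end Alg

theorem pp_swap {G : Type} [Group G] {H : Subgroup G} {X1 X2 X3 Yp Ym : Set G}
    (P : PingPong H X1 X2 X3 Yp Ym) : PingPong H X2 X1 (Xinv X3) Ym Yp where
  X1l := P.X2l
  X1r := P.X2r
  X1i := P.X2i
  X2l := P.X1l
  X2r := P.X1r
  X2i := P.X1i
  X3l := by
    intro h hh x hx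
    change (h * x)⁻¹ ∈ X3
    rw [_root_.mul_inv_rev]
    exact P.X3r _ (H.inv_mem hh) _ hx
  X3r := by
    intro h hh x hx
    change (x * h)⁻¹ ∈ X3
    rw [_root_.mul_inv_rev]
    exact P.X3l _ (H.inv_mem hh) _ hx
  Yp1 := P.Ym1
  Ym1 := P.Yp1
  Ypl := P.Yml
  Yml := P.Ypl
  X1Y := P.X2Y
  X2Y := P.X1Y
  X3Y := P.X3Y'
  X3Y' := by
    intro x hx y hy
    have hx' : x⁻¹⁻¹ ∈ X3 := hx
    rw [inv_inv] at hx'
    exact P.X3Y x hx' y hy
  d23 := P.d13
  d13 := by
    intro x hx y hy x' hx' y' hy'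
    have hx'' : x'⁻¹⁻¹ ∈ X3 := hx'
    rw [inv_inv] at hx''
    exact P.d23 x hx y hy x' hx'' y' hy'
  u1 := P.u2
  u2 := P.u1
  u3 := P.u3'
  u3' := by
    intro x hx x' hx' y hy y' hy' h
    have h1 : x⁻¹⁻¹ ∈ X3 := hx
    have h2 : x'⁻¹⁻¹ ∈ X3 := hx'
    rw [inv_inv] at h1 h2
    exact P.u3 x h1 x' h2 y hy y' hy' h

end INDAux

end Pool.Agent.Lib.MPb6f35e.TT.UV

/-! ## Module UV/RES -/

/-!
# RES: restriction of group ring elements to a subgroup
-/

namespace Pool.Agent.Lib.MPb6f35e.TT.UV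

open Matrix

namespace RESAux

variable {R G : Type} [Ring R] [Group G] (H : Subgroup G)

theorem emb_single (h : H) (r : R) :
    emb R H (MonoidAlgebra.single h r) = MonoidAlgebra.single (h : G) r := by
  simp [emb]

theorem emb_coeff_mem (s : MonoidAlgebra R H) (h : H) :
    (emb R H s).coeff (h : G) = s.coeff h := by
  change (Finsupp.mapDomain H.subtype s.coeff) (H.subtype h) = s.coeff h
  exact Finsupp.mapDomain_apply (Subtype.val_injective) _ _

theorem emb_coeff_not_mem (s : MonoidAlgebra R H) (g : G) (hg : g ∉ H) :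
    (emb R H s).coeff g = 0 := by
  change (Finsupp.mapDomain H.subtype s.coeff) g = 0
  refine Finsupp.mapDomain_of_notMem_range _ _ ?_
  rintro ⟨h, rfl⟩
  exact hg h.2

theorem res_add (t : G) (y z : MonoidAlgebra R G) :
    res H t (y + z) = res H t y + res H t z := by
  ext h
  simp [res_coeff]

theorem lres_add (t : G) (y z : MonoidAlgebra R G) :
    lres H t (y + z) = lres H t y + lres H t z := by
  ext h
  simp [lres_coeff]

theorem res_zero (t : G) : res H t (0 : MonoidAlgebra R G) = 0 := by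
  ext h
  simp [res_coeff]

theorem lres_zero (t : G) : lres H t (0 : MonoidAlgebra R G) = 0 := by
  ext h
  simp [lres_coeff]

theorem res_sum {ι : Type*} (s : Finset ι) (t : G) (f : ι → MonoidAlgebra R G) :
    res H t (∑ i ∈ s, f i) = ∑ i ∈ s, res H t (f i) := by
  classical
  induction s using Finset.induction_on with
  | empty => simp [res_zero]
  | insert a s ha ih => rw [Finset.sum_insert ha, Finset.sum_insert ha, res_add, ih]

theorem lres_sum {ι : Type*} (s : Finset ι) (t : G) (f : ι → MonoidAlgebra R G) :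
    lres H t (∑ i ∈ s, f i) = ∑ i ∈ s, lres H t (f i) := by
  classical
  induction s using Finset.induction_on with
  | empty => simp [lres_zero]
  | insert a s ha ih => rw [Finset.sum_insert ha, Finset.sum_insert ha, lres_add, ih]

theorem res_mul_emb (t : G) (y : MonoidAlgebra R G) (s : MonoidAlgebra R H) :
    res H t (y * emb R H s) = res H t y * s := by
  induction s using MonoidAlgebra.induction_linear with
  | zero => simp [res_zero]
  | add x y hx hy => rw [map_add, mul_add, res_add, hx, hy, mul_add]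
  | single h r =>
    ext h'
    rw [emb_single, res_coeff, MonoidAlgebra.coeff_mul_single_apply,
      MonoidAlgebra.coeff_mul_single_apply, res_coeff]
    simp [mul_assoc]

theorem lres_emb_mul (t : G) (y : MonoidAlgebra R G) (s : MonoidAlgebra R H) :
    lres H t (emb R H s * y) = s * lres H t y := by
  induction s using MonoidAlgebra.induction_linear with
  | zero => simp [lres_zero]
  | add x y hx hy => rw [map_add, add_mul, lres_add, hx, hy, add_mul]
  | single h r =>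
    ext h'
    rw [emb_single, lres_coeff, MonoidAlgebra.coeff_single_mul_apply,
      MonoidAlgebra.coeff_single_mul_apply, lres_coeff]
    simp [mul_assoc]

theorem eq_zero_of_res (y : MonoidAlgebra R G) (h : ∀ t, res H t y = 0) : y = 0 := by
  ext g
  have := congrArg (fun z => z.coeff 1) (h g)
  simpa [res_coeff] using this

theorem eq_zero_of_lres (y : MonoidAlgebra R G) (h : ∀ t, lres H t y = 0) : y = 0 := by
  ext g
  have := congrArg (fun z => z.coeff 1) (h g)
  simpa [lres_coeff] using this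

theorem map_res_mul {m r n : Type*} [Fintype r] (Z : Matrix m r (MonoidAlgebra R G))
    (p : Matrix r n (MonoidAlgebra R H)) (t : G) :
    (Z * p.map (emb R H)).map (res H t) = Z.map (res H t) * p := by
  ext1 i j
  simp only [Matrix.map_apply, Matrix.mul_apply]
  rw [res_sum]
  exact Finset.sum_congr rfl fun k _ => res_mul_emb H t _ _

theorem map_lres_mul {m r n : Type*} [Fintype r] (Z : Matrix r n (MonoidAlgebra R G))
    (p : Matrix m r (MonoidAlgebra R H)) (t : G) :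
    (p.map (emb R H) * Z).map (lres H t) = p * Z.map (lres H t) := by
  ext1 i j
  simp only [Matrix.map_apply, Matrix.mul_apply]
  rw [lres_sum]
  exact Finset.sum_congr rfl fun k _ => lres_emb_mul H t _ _

theorem CR {m r n : Type*} [Fintype r] (p : Matrix r n (MonoidAlgebra R H))
    (hp : ∀ z : r → MonoidAlgebra R H, z ᵥ* p = 0 → z = 0)
    (Z : Matrix m r (MonoidAlgebra R G)) (hZ : Z * p.map (emb R H) = 0) : Z = 0 := by
  ext1 i k
  refine eq_zero_of_res H _ fun t => ?_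
  have h1 : Z.map (res H t) * p = 0 := by
    rw [← map_res_mul, hZ]
    ext1 i j
    simp [res_zero]
  have h2 : (fun k => res H t (Z i k)) ᵥ* p = 0 := by
    funext j
    have := congrFun (congrFun h1 i) j
    simpa [Matrix.mul_apply, Matrix.vecMul, dotProduct] using this
  exact congrFun (hp _ h2) k

theorem CL {n m r : Type*} [Fintype r] (p : Matrix m r (MonoidAlgebra R H))
    (hp : ∀ z : r → MonoidAlgebra R H, p *ᵥ z = 0 → z = 0)
    (Z : Matrix r n (MonoidAlgebra R G)) (hZ : p.map (emb R H) * Z = 0) : Z = 0 := by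
  ext1 k j
  refine eq_zero_of_lres H _ fun t => ?_
  have h1 : p * Z.map (lres H t) = 0 := by
    rw [← map_lres_mul, hZ]
    ext1 i j
    simp [lres_zero]
  have h2 : p *ᵥ (fun k => lres H t (Z k j)) = 0 := by
    funext i
    have := congrFun (congrFun h1 i) j
    simpa [Matrix.mul_apply, Matrix.mulVec, dotProduct] using this
  exact congrFun (hp _ h2) k

/-- The decomposition over left cosets. -/
theorem decomp (τ : G ⧸ H → G) (hτ : ∀ q, (τ q : G ⧸ H) = q) (y : MonoidAlgebra R G)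
    (Q : Finset (G ⧸ H)) (hQ : ∀ g, y.coeff g ≠ 0 → (g : G ⧸ H) ∈ Q) :
    y = ∑ q ∈ Q, MonoidAlgebra.single (τ q) 1 * emb R H (res H (τ q) y) := by
  classical
  ext g
  rw [MonoidAlgebra.coeff_sum, Finsupp.finsetSum_apply]
  simp only [MonoidAlgebra.coeff_single_mul_apply, one_mul]
  have key : ∀ q ∈ Q, (emb R H (res H (τ q) y)).coeff ((τ q)⁻¹ * g)
      = if q = (g : G ⧸ H) then y.coeff g else 0 := by
    intro q _
    split_ifs with hq
    · have hm : (τ q)⁻¹ * g ∈ H := by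
        rw [← QuotientGroup.eq, hτ, hq]
      have := emb_coeff_mem H (res H (τ q) y) ⟨_, hm⟩
      rw [this, res_coeff]
      simp
    · refine emb_coeff_not_mem H _ _ fun hm => hq ?_
      rw [← QuotientGroup.eq, hτ] at hm
      exact hm
  rw [Finset.sum_congr rfl key, Finset.sum_ite_eq']
  split_ifs with hg
  · rfl
  · by_contra h
    exact hg (hQ g h)

/-- The decomposition over right cosets. -/
theorem ldecomp (y : MonoidAlgebra R G)
    (Q : Finset (G ⧸ H)) (hQ : ∀ g, y.coeff g ≠ 0 → ((g⁻¹ : G) : G ⧸ H) ∈ Q) :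
    y = ∑ q ∈ Q, emb R H (lres H (q.out)⁻¹ y) * MonoidAlgebra.single (q.out)⁻¹ 1 := by
  classical
  ext g
  rw [MonoidAlgebra.coeff_sum, Finsupp.finsetSum_apply]
  simp only [MonoidAlgebra.coeff_mul_single_apply, mul_one, inv_inv]
  have key : ∀ q ∈ Q, (emb R H (lres H (q.out)⁻¹ y)).coeff (g * q.out)
      = if q = ((g⁻¹ : G) : G ⧸ H) then y.coeff g else 0 := by
    intro q _
    split_ifs with hq
    · have hm : g * q.out ∈ H := by
        have : ((g⁻¹ : G) : G ⧸ H) = (q.out : G ⧸ H) := by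
          rw [QuotientGroup.out_eq', hq]
        rw [QuotientGroup.eq] at this
        simpa using this
      have := emb_coeff_mem H (lres H (q.out)⁻¹ y) ⟨_, hm⟩
      rw [this, lres_coeff]
      simp
    · refine emb_coeff_not_mem H _ _ fun hm => hq ?_
      have : ((g⁻¹ : G) : G ⧸ H) = (q.out : G ⧸ H) := by
        rw [QuotientGroup.eq]
        simpa using hm
      rw [this, QuotientGroup.out_eq']
  rw [Finset.sum_congr rfl key, Finset.sum_ite_eq']
  split_ifs with hg
  · rfl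
  · by_contra h
    exact hg (hQ g h)

/-- A finite set of left cosets for the supports of all entries. -/
theorem exists_cosets {m n : Type*} [Fintype m] [Fintype n] (M : Matrix m n (MonoidAlgebra R G)) :
    ∃ Q : Finset (G ⧸ H), ∀ i j g, (M i j).coeff g ≠ 0 → (g : G ⧸ H) ∈ Q := by
  classical
  refine ⟨Finset.univ.biUnion fun ij : m × n =>
    (M ij.1 ij.2).coeff.support.image (fun g : G => (QuotientGroup.mk g : G ⧸ H)), fun i j g hg => ?_⟩
  rw [Finset.mem_biUnion]
  exact ⟨(i, j), Finset.mem_univ _, Finset.mem_image_of_mem _ (Finsupp.mem_support_iff.2 hg)⟩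

theorem exists_lcosets {m n : Type*} [Fintype m] [Fintype n] (M : Matrix m n (MonoidAlgebra R G)) :
    ∃ Q : Finset (G ⧸ H), ∀ i j g, (M i j).coeff g ≠ 0 → ((g⁻¹ : G) : G ⧸ H) ∈ Q := by
  classical
  refine ⟨Finset.univ.biUnion fun ij : m × n =>
    (M ij.1 ij.2).coeff.support.image (fun g : G => (QuotientGroup.mk g⁻¹ : G ⧸ H)), fun i j g hg => ?_⟩
  rw [Finset.mem_biUnion]
  exact ⟨(i, j), Finset.mem_univ _, Finset.mem_image_of_mem _ (Finsupp.mem_support_iff.2 hg)⟩

omit [Group G] in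
theorem exists_of_coeff_sum_ne {ι : Type*} (s : Finset ι) (f : ι → MonoidAlgebra R G) (g : G)
    (h : (∑ q ∈ s, f q).coeff g ≠ 0) : ∃ q ∈ s, (f q).coeff g ≠ 0 := by
  by_contra hc
  push Not at hc
  apply h
  rw [MonoidAlgebra.coeff_sum, Finsupp.finsetSum_apply]
  exact Finset.sum_eq_zero hc

theorem mem_of_emb_ne (s : MonoidAlgebra R H) (g : G) (h : (emb R H s).coeff g ≠ 0) : g ∈ H := by
  by_contra hg
  exact h (emb_coeff_not_mem H s g hg)

theorem RF {m r n : ℕ} (p : Matrix (Fin r) (Fin n) (MonoidAlgebra R H))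
    (M : Matrix (Fin m) (Fin n) (MonoidAlgebra R G)) (X : Set G)
    (hX : ∀ h ∈ H, ∀ x ∈ X, x * h ∈ X) (hM : SuppIn X M)
    (hf : ∀ t, ∃ Θ : Matrix (Fin m) (Fin r) (MonoidAlgebra R H), M.map (res H t) = Θ * p) :
    ∃ θ : Matrix (Fin m) (Fin r) (MonoidAlgebra R G), SuppIn X θ ∧ M = θ * p.map (emb R H) := by
  classical
  have hf' : ∀ q : G ⧸ H, ∃ Θ : Matrix (Fin m) (Fin r) (MonoidAlgebra R H),
      M.map (res H q.out) = Θ * p ∧ (M.map (res H q.out) = 0 → Θ = 0) := by
    intro q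
    by_cases h0 : M.map (res H q.out) = 0
    · exact ⟨0, by rw [h0, Matrix.zero_mul], fun _ => rfl⟩
    · obtain ⟨Θ, hΘ⟩ := hf q.out
      exact ⟨Θ, hΘ, fun h => absurd h h0⟩
  choose Θ hΘ hΘ0 using hf'
  obtain ⟨Q, hQ⟩ := exists_cosets H M
  refine ⟨fun i k => ∑ q ∈ Q, MonoidAlgebra.single q.out 1 * emb R H (Θ q i k), ?_, ?_⟩
  · intro i k g hg
    obtain ⟨q, _, hq⟩ := exists_of_coeff_sum_ne _ _ _ hg
    rw [MonoidAlgebra.coeff_single_mul_apply, one_mul] at hq
    have hmem := mem_of_emb_ne H _ _ hq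
    have hne : Θ q ≠ 0 := by
      intro h0
      apply hq
      rw [h0]
      simp
    have hne2 : M.map (res H q.out) ≠ 0 := fun h => hne (hΘ0 q h)
    have : ∃ i' j' h', (M i' j').coeff (q.out * (h' : H)) ≠ 0 := by
      by_contra hc
      push Not at hc
      apply hne2
      ext1 i' j'
      ext h'
      simpa [res_coeff] using hc i' j' h'
    obtain ⟨i', j', h', hx⟩ := this
    have hxX := hM i' j' _ hx
    have := hX ((h' : G)⁻¹ * (q.out⁻¹ * g)) (H.mul_mem (H.inv_mem h'.2) hmem) _ hxX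
    simpa [mul_assoc] using this
  · ext1 i j
    have h1 := decomp H (fun q : G ⧸ H => q.out) (fun q => QuotientGroup.out_eq' q) (M i j) Q
      (fun g hg => hQ i j g hg)
    rw [Matrix.mul_apply]
    simp only [Matrix.map_apply, Finset.sum_mul]
    rw [Finset.sum_comm]
    conv_lhs => rw [h1]
    refine Finset.sum_congr rfl fun q _ => ?_
    have h2 : res H q.out (M i j) = ∑ k, Θ q i k * p k j := by
      have := congrFun (congrFun (hΘ q) i) j
      simpa [Matrix.mul_apply] using this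
    rw [h2, map_sum, Finset.mul_sum]
    refine Finset.sum_congr rfl fun k _ => ?_
    rw [map_mul, mul_assoc]

theorem LF {m r n : ℕ} (p : Matrix (Fin m) (Fin r) (MonoidAlgebra R H))
    (M : Matrix (Fin m) (Fin n) (MonoidAlgebra R G)) (X : Set G)
    (hX : ∀ h ∈ H, ∀ x ∈ X, h * x ∈ X) (hM : SuppIn X M)
    (hf : ∀ t, ∃ Θ : Matrix (Fin r) (Fin n) (MonoidAlgebra R H), M.map (lres H t) = p * Θ) :
    ∃ θ : Matrix (Fin r) (Fin n) (MonoidAlgebra R G), SuppIn X θ ∧ M = p.map (emb R H) * θ := by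
  classical
  have hf' : ∀ q : G ⧸ H, ∃ Θ : Matrix (Fin r) (Fin n) (MonoidAlgebra R H),
      M.map (lres H (q.out)⁻¹) = p * Θ ∧ (M.map (lres H (q.out)⁻¹) = 0 → Θ = 0) := by
    intro q
    by_cases h0 : M.map (lres H (q.out)⁻¹) = 0
    · exact ⟨0, by rw [h0, Matrix.mul_zero], fun _ => rfl⟩
    · obtain ⟨Θ, hΘ⟩ := hf (q.out)⁻¹
      exact ⟨Θ, hΘ, fun h => absurd h h0⟩
  choose Θ hΘ hΘ0 using hf'
  obtain ⟨Q, hQ⟩ := exists_lcosets H M
  refine ⟨fun k j => ∑ q ∈ Q, emb R H (Θ q k j) * MonoidAlgebra.single (q.out)⁻¹ 1, ?_, ?_⟩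
  · intro k j g hg
    obtain ⟨q, _, hq⟩ := exists_of_coeff_sum_ne _ _ _ hg
    rw [MonoidAlgebra.coeff_mul_single_apply, mul_one, inv_inv] at hq
    have hmem := mem_of_emb_ne H _ _ hq
    have hne : Θ q ≠ 0 := by
      intro h0
      apply hq
      rw [h0]
      simp
    have hne2 : M.map (lres H (q.out)⁻¹) ≠ 0 := fun h => hne (hΘ0 q h)
    have : ∃ i' j' h', (M i' j').coeff ((h' : H) * (q.out)⁻¹) ≠ 0 := by
      by_contra hc
      push Not at hc
      apply hne2
      ext1 i' j'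
      ext h'
      simpa [lres_coeff] using hc i' j' h'
    obtain ⟨i', j', h', hx⟩ := this
    have hxX := hM i' j' _ hx
    have := hX ((g * q.out) * (h' : G)⁻¹) (H.mul_mem hmem (H.inv_mem h'.2)) _ hxX
    simpa [mul_assoc] using this
  · ext1 i j
    have h1 := ldecomp H (M i j) Q (fun g hg => hQ i j g hg)
    rw [Matrix.mul_apply]
    simp only [Matrix.map_apply, Finset.mul_sum]
    rw [Finset.sum_comm]
    conv_lhs => rw [h1]
    refine Finset.sum_congr rfl fun q _ => ?_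
    have h2 : lres H (q.out)⁻¹ (M i j) = ∑ k, p i k * Θ q k j := by
      have := congrFun (congrFun (hΘ q) i) j
      simpa [Matrix.mul_apply] using this
    rw [h2, map_sum, Finset.sum_mul]
    refine Finset.sum_congr rfl fun k _ => ?_
    rw [map_mul, mul_assoc]

theorem DJ {c : Type} {m r : ℕ} (θ : Matrix (Fin m) (Fin r) (MonoidAlgebra R G))
    (Z : Matrix (Fin r) c (MonoidAlgebra R G)) (X Y : Set G)
    (hX : ∀ h ∈ H, ∀ x ∈ X, x * h ∈ X) (hY : ∀ h ∈ H, ∀ y ∈ Y, h * y ∈ Y) (hd : Disj H X Y)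
    (hθ : SuppIn X θ) (hZ : SuppIn Y Z) (h0 : θ * Z = 0) (t : G) :
    (θ.map (res H t)).map (emb R H) * Z = 0 := by
  classical
  obtain ⟨Q, hQ⟩ := exists_cosets H θ
  set q0 : G ⧸ H := (t : G ⧸ H) with hq0
  set τ : G ⧸ H → G := Function.update (fun q : G ⧸ H => q.out) q0 t with hτdef
  have hτ : ∀ q, (τ q : G ⧸ H) = q := by
    intro q
    by_cases h : q = q0
    · rw [h, hτdef, Function.update_self]
    · rw [hτdef, Function.update_of_ne h]
      exact QuotientGroup.out_eq' q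
  have hτ0 : τ q0 = t := by rw [hτdef, Function.update_self]
  -- the pieces
  let W : G ⧸ H → Matrix (Fin m) c (MonoidAlgebra R G) :=
    fun q => (θ.map (res H (τ q))).map (emb R H) * Z
  have hWsupp : ∀ q i j x, (W q i j).coeff x ≠ 0 → x ∈ Y ∧ τ q ∈ X := by
    intro q i j x hx
    have hx' : (∑ k, emb R H (res H (τ q) (θ i k)) * Z k j).coeff x ≠ 0 := by
      simpa [W, Matrix.mul_apply] using hx
    obtain ⟨k, _, hk⟩ := exists_of_coeff_sum_ne _ _ _ hx'
    constructor
    · rw [MonoidAlgebra.coeff_mul_apply_left] at hk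
      obtain ⟨a, ha, hk2⟩ := Finset.exists_ne_zero_of_sum_ne_zero hk
      have haH : a ∈ H := mem_of_emb_ne H _ _ (Finsupp.mem_support_iff.1 ha)
      have hz : (Z k j).coeff (a⁻¹ * x) ≠ 0 := by
        intro h
        apply hk2
        simp [h]
      have := hY a haH _ (hZ _ _ _ hz)
      simpa using this
    · have hne : res H (τ q) (θ i k) ≠ 0 := by
        intro h
        apply hk
        rw [h]
        simp
      have : ∃ h' : H, (θ i k).coeff (τ q * h') ≠ 0 := by
        by_contra hc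
        push Not at hc
        apply hne
        ext h'
        simpa [res_coeff] using hc h'
      obtain ⟨h', hh⟩ := this
      have := hX ((h' : G)⁻¹) (H.inv_mem h'.2) _ (hθ _ _ _ hh)
      simpa [mul_assoc] using this
  have hsum : ∀ i j, (θ * Z) i j = ∑ q ∈ Q, MonoidAlgebra.single (τ q) 1 * W q i j := by
    intro i j
    have h1 : ∀ k, θ i k = ∑ q ∈ Q, MonoidAlgebra.single (τ q) 1 * emb R H (res H (τ q) (θ i k)) :=
      fun k => decomp H τ hτ (θ i k) Q (fun g hg => hQ i k g hg)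
    rw [Matrix.mul_apply]
    calc ∑ k, θ i k * Z k j
        = ∑ k, (∑ q ∈ Q, MonoidAlgebra.single (τ q) 1 * emb R H (res H (τ q) (θ i k))) * Z k j :=
          Finset.sum_congr rfl fun k _ => by rw [← h1 k]
      _ = ∑ k, ∑ q ∈ Q, MonoidAlgebra.single (τ q) 1 *
            (emb R H (res H (τ q) (θ i k)) * Z k j) :=
          Finset.sum_congr rfl fun k _ => by
            rw [Finset.sum_mul]
            exact Finset.sum_congr rfl fun q _ => by rw [mul_assoc]
      _ = ∑ q ∈ Q, ∑ k, MonoidAlgebra.single (τ q) 1 *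
            (emb R H (res H (τ q) (θ i k)) * Z k j) := Finset.sum_comm
      _ = ∑ q ∈ Q, MonoidAlgebra.single (τ q) 1 * W q i j :=
          Finset.sum_congr rfl fun q _ => by
            rw [← Finset.mul_sum]
            simp [W, Matrix.mul_apply]
  -- each piece vanishes
  have hW : W q0 = 0 := by
    by_cases hq0Q : q0 ∈ Q
    · ext1 i j
      ext x
      by_contra hx
      have hx' : (W q0 i j).coeff x ≠ 0 := by simpa using hx
      obtain ⟨hxY, hτX⟩ := hWsupp q0 i j x hx'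
      have h2 := congrArg (fun z => z.coeff (τ q0 * x)) (hsum i j)
      simp only [h0] at h2
      rw [MonoidAlgebra.coeff_sum, Finsupp.finsetSum_apply] at h2
      simp only [MonoidAlgebra.coeff_single_mul_apply, one_mul] at h2
      rw [Finset.sum_eq_single q0] at h2
      · apply hx'
        have : (τ q0)⁻¹ * (τ q0 * x) = x := by group
        rw [this] at h2
        rw [← h2]
        simp
      · intro q _ hq
        by_contra hne
        obtain ⟨hy', hτ'⟩ := hWsupp q i j _ hne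
        have hmem := hd (τ q0) hτX (τ q) hτ' x hxY _ hy' (by group)
        rw [← QuotientGroup.eq, hτ, hτ] at hmem
        exact hq hmem.symm
      · intro h
        exact absurd hq0Q h
    · have hz : θ.map (res H (τ q0)) = 0 := by
        ext1 i k
        ext h'
        rw [Matrix.map_apply, res_coeff]
        by_contra hne
        have hne' : (θ i k).coeff (τ q0 * h') ≠ 0 := by simpa using hne
        apply hq0Q
        have := hQ i k _ hne'
        have h3 : ((τ q0 * (h' : G) : G) : G ⧸ H) = (τ q0 : G ⧸ H) := by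
          rw [eq_comm, QuotientGroup.eq]
          simp
        rw [h3, hτ] at this
        exact this
      change (θ.map (res H (τ q0))).map (emb R H) * Z = 0
      rw [hz]
      ext1 i j
      simp [Matrix.mul_apply]
  have := hW
  simp only [W, hτ0] at this
  exact this

end RESAux

theorem specRES : SpecRES := by
  intro R G _ _ H
  exact ⟨fun t y z => RESAux.res_add H t y z, fun t y z => RESAux.lres_add H t y z,
    fun t y s => RESAux.res_mul_emb H t y s, fun t y s => RESAux.lres_emb_mul H t y s,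
    fun y h => RESAux.eq_zero_of_res H y h, fun y h => RESAux.eq_zero_of_lres H y h,
    fun _ _ _ p hp Z hZ => RESAux.CR H p hp Z hZ, fun _ _ _ p hp Z hZ => RESAux.CL H p hp Z hZ,
    fun _ _ _ p M X hX hM hf => RESAux.RF H p M X hX hM hf,
    fun _ _ _ p M X hX hM hf => RESAux.LF H p M X hX hM hf,
    fun _ _ _ θ Z X Y hX hY hd hθ hZ h0 t => RESAux.DJ H θ Z X Y hX hY hd hθ hZ h0 t⟩

end Pool.Agent.Lib.MPb6f35e.TT.UV

/-! ## Module UV/STK -/

/-!
# UV: existence of the P-move (module STK, hypothesis `SpecRES`)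
-/

namespace Pool.Agent.Lib.MPb6f35e.TT.UV

open Matrix

namespace STKAux

section

variable {R G : Type} [Ring R] [Group G]

theorem res_mul_right (H : Subgroup G) (t : G) (h : H) (y : MonoidAlgebra R G) :
    res H (t * h) y = MonoidAlgebra.single h⁻¹ 1 * res H t y := by
  ext k
  rw [MonoidAlgebra.coeff_single_mul_apply, res_coeff, res_coeff, one_mul]
  congr 1
  simp [mul_assoc]

theorem emb_coeff_of_notMem (H : Subgroup G) (s : MonoidAlgebra R H) (g : G) (hg : g ∉ H) :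
    (emb R H s).coeff g = 0 := by
  classical
  induction s using MonoidAlgebra.induction_linear with
  | zero => simp
  | add f g hf hg => rw [map_add, MonoidAlgebra.coeff_add, Finsupp.add_apply, hf, hg, add_zero]
  | single a r =>
    have h1 : emb R H (MonoidAlgebra.single a r) = MonoidAlgebra.single (a : G) r := by
      simp only [MonoidAlgebra.mapDomainRingHom_apply, MonoidAlgebra.mapDomain_single]
      rfl
    rw [h1, MonoidAlgebra.coeff_single, Finsupp.single_apply, if_neg]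
    intro h
    exact hg (h ▸ a.2)

/-- If the restrictions of `M` to the elements of a finite set which contains its support factor
through `p0`, then all restrictions do. -/
theorem fac {n r : ℕ} (H : Subgroup G) (M : Matrix (Fin n) (Fin n) (MonoidAlgebra R G))
    (J : Finset G) (hJ : ∀ i j g, (M i j).coeff g ≠ 0 → g ∈ J)
    (p0 : Matrix (Fin r) (Fin n) (MonoidAlgebra R H))
    (h : ∀ j ∈ J, ∃ Θ : Matrix (Fin n) (Fin r) (MonoidAlgebra R H), M.map (res H j) = Θ * p0) :
    ∀ t, ∃ Θ : Matrix (Fin n) (Fin r) (MonoidAlgebra R H), M.map (res H t) = Θ * p0 := by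
  intro t
  by_cases ht : ∃ j ∈ J, j⁻¹ * t ∈ H
  · obtain ⟨j, hj, hjt⟩ := ht
    obtain ⟨i', hi'⟩ := h j hj
    refine ⟨fun x y => MonoidAlgebra.single (⟨j⁻¹ * t, hjt⟩ : H)⁻¹ 1 * i' x y, ?_⟩
    refine Matrix.ext fun x y => ?_
    have h1 : t = j * ((⟨j⁻¹ * t, hjt⟩ : H) : G) := by simp
    have h2 := congrFun (congrFun hi' x) y
    rw [Matrix.map_apply, Matrix.mul_apply] at h2
    have h3 := res_mul_right H j (⟨j⁻¹ * t, hjt⟩ : H) (M x y)
    rw [← h1] at h3
    rw [Matrix.map_apply, h3, h2, Matrix.mul_apply, Finset.mul_sum]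
    exact Finset.sum_congr rfl fun l _ => (mul_assoc _ _ _).symm
  · refine ⟨0, ?_⟩
    rw [Matrix.zero_mul]
    refine Matrix.ext fun x y => ?_
    ext k
    rw [Matrix.map_apply, res_coeff]
    by_contra hne
    refine ht ⟨t * k, hJ x y _ hne, ?_⟩
    have h1 : (t * (k : G))⁻¹ * t = ((k⁻¹ : H) : G) := by simp
    rw [h1]
    exact (k⁻¹).2

end

section

variable {R G : Type} [Ring R] [StarRing R] [Group G]

theorem star_emb (H : Subgroup G) (s : MonoidAlgebra R H) :
    star (emb R H s) = emb R H (star s) := by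
  induction s using MonoidAlgebra.induction_linear with
  | zero => simp
  | add f g hf hg => simp only [map_add, star_add, hf, hg]
  | single a r =>
    rw [star_single]
    simp only [MonoidAlgebra.mapDomainRingHom_apply, MonoidAlgebra.mapDomain_single, star_single]
    simp

theorem conjTranspose_map_emb (H : Subgroup G) {m n : Type}
    (p : Matrix m n (MonoidAlgebra R H)) :
    (p.map (emb R H))ᴴ = pᴴ.map (emb R H) := by
  refine Matrix.ext fun i j => ?_
  simp only [conjTranspose_apply, map_apply, star_emb]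

end

end STKAux

open STKAux in
/-- **STK**: existence of the P-move. -/
theorem specStk (hres : SpecRES) : SpecSTK := by
  classical
  intro R G _ _ _ H X1 X3 ε n a μ hFP hX1r hX1l hX3r ha hμ hasym
  obtain ⟨hadd, hladd, hmul, hlmul, -, -, hCR, hCL, hRF, hLF, hDJ⟩ := hres R G H
  -- the supports
  obtain ⟨J, hJa, hJμ⟩ : ∃ J : Finset G, (∀ i j g, (a i j).coeff g ≠ 0 → g ∈ J) ∧
      (∀ i j g, (μ i j).coeff g ≠ 0 → g ∈ J) := by
    refine ⟨Finset.univ.biUnion fun x : Fin n × Fin n =>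
      (a x.1 x.2).coeff.support ∪ (μ x.1 x.2).coeff.support, ?_, ?_⟩
    · intro i j g hg
      exact Finset.mem_biUnion.2 ⟨(i, j), Finset.mem_univ _,
        Finset.mem_union_left _ (Finsupp.mem_support_iff.2 hg)⟩
    · intro i j g hg
      exact Finset.mem_biUnion.2 ⟨(i, j), Finset.mem_univ _,
        Finset.mem_union_right _ (Finsupp.mem_support_iff.2 hg)⟩
  -- the matrix `L`
  obtain ⟨e⟩ : Nonempty (((J × Fin n) ⊕ (J × Fin n)) ≃
      Fin (Fintype.card ((J × Fin n) ⊕ (J × Fin n)))) := ⟨Fintype.equivFin _⟩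
  obtain ⟨Lrow, hLrow⟩ : ∃ Lrow : (J × Fin n) ⊕ (J × Fin n) → Fin n → MonoidAlgebra R H,
      Lrow = Sum.elim (fun x j => res H x.1 (a x.2 j)) (fun x j => res H x.1 (μ x.2 j)) := ⟨_, rfl⟩
  obtain ⟨r, i, p0, hL, hi, hp, hcl⟩ := hFP _ n (fun x j => Lrow (e.symm x) j)
  have hLi : ∀ x y, Lrow x y = ∑ l, i (e x) l * p0 l y := by
    intro x y
    have h1 := congrFun (congrFun hL (e x)) y
    rw [Matrix.mul_apply] at h1
    rw [← h1, e.symm_apply_apply]
  have hLa : ∀ (j : J) (x y : Fin n),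
      res H j (a x y) = ∑ l, i (e (Sum.inl (j, x))) l * p0 l y := by
    intro j x y
    rw [← hLi, hLrow]
    rfl
  have hLμ : ∀ (j : J) (x y : Fin n),
      res H j (μ x y) = ∑ l, i (e (Sum.inr (j, x))) l * p0 l y := by
    intro j x y
    rw [← hLi, hLrow]
    rfl
  -- factorizations on the right
  obtain ⟨θ, hθX, hθ⟩ := hRF n r n p0 a X1 hX1r ha (fac H a J hJa p0 fun j hj =>
    ⟨fun x l => i (e (Sum.inl (⟨j, hj⟩, x))) l, Matrix.ext fun x y => by
      rw [Matrix.map_apply, Matrix.mul_apply]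
      exact hLa ⟨j, hj⟩ x y⟩)
  obtain ⟨m', hmX, hm'⟩ := hRF n r n p0 μ X3 hX3r hμ (fac H μ J hJμ p0 fun j hj =>
    ⟨fun x l => i (e (Sum.inr (⟨j, hj⟩, x))) l, Matrix.ext fun x y => by
      rw [Matrix.map_apply, Matrix.mul_apply]
      exact hLμ ⟨j, hj⟩ x y⟩)
  obtain ⟨P, hP⟩ : ∃ P : Matrix (Fin r) (Fin n) (MonoidAlgebra R G), P = p0.map (emb R H) :=
    ⟨_, rfl⟩
  rw [← hP] at hθ hm'
  -- cancellations
  have hcan : ∀ (l : Type) (Z : Matrix l (Fin r) (MonoidAlgebra R G)), Z * P = 0 → Z = 0 :=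
    fun l Z h => hCR l r n p0 hp Z (hP ▸ h)
  have hcan' : ∀ (l : Type) (Z : Matrix (Fin r) l (MonoidAlgebra R G)), Pᴴ * Z = 0 → Z = 0 := by
    intro l Z h
    have h1 : Zᴴ * P = 0 := by
      have h2 := congrArg conjTranspose h
      rwa [conjTranspose_mul, conjTranspose_conjTranspose, conjTranspose_zero] at h2
    have h2 := hcan l Zᴴ h1
    rw [← conjTranspose_conjTranspose Z, h2, conjTranspose_zero]
  -- the kernel of `p0`
  have hker : ∀ k : Fin n → MonoidAlgebra R H, p0 *ᵥ k = 0 →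
      ∀ j, ∑ i, emb R H (star (k i)) * θ i j = 0 := by
    intro k hk
    obtain ⟨K, hK⟩ : ∃ K : Matrix (Fin n) Unit (MonoidAlgebra R G),
        K = fun i _ => emb R H (k i) := ⟨_, rfl⟩
    have h1 : P * K = 0 := by
      refine Matrix.ext fun l u => ?_
      have h2 := congrFun hk l
      rw [Matrix.mul_apply, hP, hK]
      have h3 := congrArg (emb R H) h2
      rw [Matrix.mulVec, dotProduct, map_sum] at h3
      rw [Matrix.zero_apply]
      refine Eq.trans (Finset.sum_congr rfl fun x _ => ?_) (h3.trans (map_zero _))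
      rw [Matrix.map_apply, map_mul]
    have h2 : a * K = 0 := by rw [hθ, Matrix.mul_assoc, h1, Matrix.mul_zero]
    have h3 : Kᴴ * a = 0 := by
      rw [hasym, Matrix.mul_smul, ← conjTranspose_mul, h2, conjTranspose_zero, smul_zero]
    have h4 : Kᴴ * θ = 0 := hcan Unit _ (by rw [Matrix.mul_assoc, ← hθ, h3])
    intro j
    have h5 := congrFun (congrFun h4 ()) j
    rw [Matrix.mul_apply, Matrix.zero_apply] at h5
    rw [← h5]
    refine Finset.sum_congr rfl fun x _ => ?_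
    rw [conjTranspose_apply, hK, star_emb]
  -- the columns of `θ`
  have hcol : ∀ t, ∃ Θ : Matrix (Fin r) (Fin r) (MonoidAlgebra R H),
      θ.map (lres H t) = p0ᴴ * Θ := by
    intro t
    have h1 : ∀ j, ∃ z : Fin r → MonoidAlgebra R H,
        (fun i => star (lres H t (θ i j))) = z ᵥ* p0 := by
      intro j
      refine hcl _ fun k hk => ?_
      have h2 := hker k hk j
      have h3 : ∑ i, star (k i) * lres H t (θ i j) = 0 := by
        have h4 := congrArg (AddMonoidHom.mk' (lres H t) (hladd t)) h2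
        rw [map_sum, map_zero] at h4
        rw [← h4]
        refine Finset.sum_congr rfl fun x _ => ?_
        rw [AddMonoidHom.mk'_apply, hlmul]
      have h5 := congrArg star h3
      rw [star_sum, star_zero] at h5
      rw [dotProduct, ← h5]
      refine Finset.sum_congr rfl fun x _ => ?_
      rw [star_mul, star_star]
    choose z hz using h1
    refine ⟨fun l j => star (z j l), Matrix.ext fun x j => ?_⟩
    have h2 := congrFun (hz j) x
    rw [Matrix.vecMul, dotProduct] at h2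
    have h3 := congrArg star h2
    rw [star_star, star_sum] at h3
    rw [Matrix.map_apply, Matrix.mul_apply, h3]
    refine Finset.sum_congr rfl fun l _ => ?_
    rw [star_mul, conjTranspose_apply]
  obtain ⟨a', haX, ha'⟩ := hLF n r r p0ᴴ θ X1 hX1l hθX hcol
  have hθ' : θ = Pᴴ * a' := by rw [hP, conjTranspose_map_emb]; exact ha'
  have haeq : a = Pᴴ * a' * P := by rw [← hθ']; exact hθ
  have hsym : a' = (ε : ℤ) • a'ᴴ := by
    have h1 : Pᴴ * (a' - (ε : ℤ) • a'ᴴ) * P = 0 := by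
      have h2 : Pᴴ * a'ᴴ * P = aᴴ := by
        rw [haeq, conjTranspose_mul, conjTranspose_mul, conjTranspose_conjTranspose,
          Matrix.mul_assoc]
      rw [Matrix.mul_sub, Matrix.sub_mul, Matrix.mul_smul, Matrix.smul_mul, ← haeq, h2, ← hasym,
        sub_self]
    exact sub_eq_zero.1 (hcan' _ _ (hcan _ _ h1))
  refine ⟨r, P, a', m', ⟨?_, haX, hmX, haeq, hm', hcan, ?_⟩, hsym⟩
  · intro x y g hg
    by_contra hgH
    refine hg ?_
    rw [hP, Matrix.map_apply]
    exact emb_coeff_of_notMem H _ g hgH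
  · intro Y hY hD1 hD3 c Z hZ h1 h3
    rw [← hθ'] at h1
    have h5 := hDJ c n r θ Z X1 Y hX1r hY hD1 hθX hZ h1
    have h6 := hDJ c n r m' Z X3 Y hX3r hY hD3 hmX hZ h3
    -- the restrictions of `θ`, `m'` to `j ∈ J` are blocks of `i`
    have hblock : ∀ (M : Matrix (Fin n) (Fin n) (MonoidAlgebra R G))
        (T : Matrix (Fin n) (Fin r) (MonoidAlgebra R G)) (w : J → Fin n →
          (J × Fin n) ⊕ (J × Fin n)), M = T * P →
        (∀ (j : J) (x y : Fin n), res H j (M x y) = ∑ l, i (e (w j x)) l * p0 l y) →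
        ∀ (j : J) (x : Fin n) (l : Fin r), res H j (T x l) = i (e (w j x)) l := by
      intro M T w hM hw j x l
      have h7 : (fun l => res H j (T x l) - i (e (w j x)) l) = 0 := by
        refine hp _ (funext fun y => ?_)
        rw [Matrix.vecMul, dotProduct]
        have h8 := hw j x y
        rw [hM, Matrix.mul_apply] at h8
        have h9 := map_sum (AddMonoidHom.mk' (res H (j : G)) (hadd j))
          (fun l => T x l * P l y) Finset.univ
        rw [AddMonoidHom.mk'_apply, h8] at h9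
        simp only [sub_mul, Finset.sum_sub_distrib, Pi.zero_apply]
        rw [h9, sub_eq_zero]
        refine Finset.sum_congr rfl fun l _ => ?_
        rw [hP, Matrix.map_apply]
        exact (hmul _ _ _).symm
      exact sub_eq_zero.1 (congrFun h7 l)
    have hba := hblock a θ (fun j x => Sum.inl (j, x)) hθ hLa
    have hbμ := hblock μ m' (fun j x => Sum.inr (j, x)) hm' hLμ
    refine hCL c _ r i hi Z (Matrix.ext fun x y => ?_)
    obtain ⟨s, rfl⟩ := e.surjective x
    rw [Matrix.mul_apply, Matrix.zero_apply]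
    rcases s with ⟨j, x⟩ | ⟨j, x⟩
    · have h8 := congrFun (congrFun (h5 (j : G)) x) y
      rw [Matrix.mul_apply, Matrix.zero_apply] at h8
      rw [← h8]
      refine Finset.sum_congr rfl fun l _ => ?_
      rw [Matrix.map_apply, Matrix.map_apply, Matrix.map_apply, hba]
    · have h8 := congrFun (congrFun (h6 (j : G)) x) y
      rw [Matrix.mul_apply, Matrix.zero_apply] at h8
      rw [← h8]
      refine Finset.sum_congr rfl fun l _ => ?_
      rw [Matrix.map_apply, Matrix.map_apply, Matrix.map_apply, hbμ]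

end Pool.Agent.Lib.MPb6f35e.TT.UV

/-! ## Module UV/NIL -/

/-!
# One P-move and the nil length (module NIL)
-/

namespace Pool.Agent.Lib.MPb6f35e.TT.UV

open Matrix

namespace NILAux

section Supp

variable {R G : Type} [Ring R] [Group G]

theorem coeff_mul_ne (x y : MonoidAlgebra R G) (g : G) (h : (x * y).coeff g ≠ 0) :
    ∃ u v, x.coeff u ≠ 0 ∧ y.coeff v ≠ 0 ∧ u * v = g := by
  classical
  have := MonoidAlgebra.support_coeff_mul_subset x y (Finsupp.mem_support_iff.2 h)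
  obtain ⟨u, hu, v, hv, e⟩ := Finset.mem_mul.1 this
  exact ⟨u, v, Finsupp.mem_support_iff.1 hu, Finsupp.mem_support_iff.1 hv, e⟩

theorem supp_mul {l m n : Type} [Fintype m] {X Y Z : Set G}
    {M : Matrix l m (MonoidAlgebra R G)} {N : Matrix m n (MonoidAlgebra R G)}
    (hM : SuppIn X M) (hN : SuppIn Y N) (h : ∀ x ∈ X, ∀ y ∈ Y, x * y ∈ Z) :
    SuppIn Z (M * N) := by
  intro i j g hg
  rw [Matrix.mul_apply, MonoidAlgebra.coeff_sum, Finsupp.finsetSum_apply] at hg
  obtain ⟨k, -, hk⟩ := Finset.exists_ne_zero_of_sum_ne_zero hg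
  obtain ⟨u, v, hu, hv, e⟩ := coeff_mul_ne _ _ _ hk
  rw [← e]
  exact h _ (hM _ _ _ hu) _ (hN _ _ _ hv)

theorem supp_add {l m : Type} {X : Set G} {M N : Matrix l m (MonoidAlgebra R G)}
    (hM : SuppIn X M) (hN : SuppIn X N) : SuppIn X (M + N) := by
  intro i j g hg
  rw [Matrix.add_apply, MonoidAlgebra.coeff_add, Finsupp.add_apply] at hg
  by_cases h : (M i j).coeff g = 0
  · rw [h, zero_add] at hg
    exact hN _ _ _ hg
  · exact hM _ _ _ h

theorem supp_smul {l m : Type} {X : Set G} {M : Matrix l m (MonoidAlgebra R G)} (z : ℤ)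
    (hM : SuppIn X M) : SuppIn X (z • M) := by
  intro i j g hg
  refine hM i j g fun h => hg ?_
  rw [Matrix.smul_apply, MonoidAlgebra.coeff_smul, Finsupp.smul_apply, h, smul_zero]

theorem eq_zero_of_add {l m : Type} {X Y : Set G} {M N : Matrix l m (MonoidAlgebra R G)}
    (hM : SuppIn X M) (hN : SuppIn Y N) (hd : ∀ g ∈ X, g ∉ Y) (h : M + N = 0) : M = 0 := by
  ext i j g
  by_contra hne
  have hX : g ∈ X := hM i j g (by simpa using hne)
  have h1 : (M i j).coeff g + (N i j).coeff g = 0 := by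
    have := congrArg (fun W : Matrix l m (MonoidAlgebra R G) => (W i j).coeff g) h
    simpa using this
  have hN0 : (N i j).coeff g = 0 := by
    by_contra hn
    exact hd g hX (hN i j g hn)
  rw [hN0, add_zero] at h1
  exact hne (by simpa using h1)

theorem coeff_one_ne (g : G) (h : g ≠ 1) : (1 : MonoidAlgebra R G).coeff g = 0 := by
  classical
  rw [MonoidAlgebra.one_def, MonoidAlgebra.coeff_single, Finsupp.single_apply,
    if_neg (Ne.symm h)]

omit [Group G] in
theorem supp_mono {l m : Type} {X Y : Set G} {M : Matrix l m (MonoidAlgebra R G)}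
    (hM : SuppIn X M) (h : ∀ x ∈ X, x ∈ Y) : SuppIn Y M := fun i j g hg => h g (hM i j g hg)

end Supp

section Star

variable {R G : Type} [Ring R] [StarRing R] [Group G]

theorem supp_star {l m : Type} {X : Set G} {M : Matrix l m (MonoidAlgebra R G)}
    (hM : SuppIn X M) : SuppIn (Xinv X) Mᴴ := by
  intro i j g hg
  rw [Matrix.conjTranspose_apply, star_coeff] at hg
  refine hM j i g⁻¹ fun h => hg ?_
  rw [h, star_zero]

/-- Left cancellation of `pᴴ` from right cancellation of `p`. -/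
theorem cancel_left {n r : ℕ} {p : Matrix (Fin r) (Fin n) (MonoidAlgebra R G)}
    (hc : ∀ (l : Type) (Z : Matrix l (Fin r) (MonoidAlgebra R G)), Z * p = 0 → Z = 0)
    {c : Type} (Z : Matrix (Fin r) c (MonoidAlgebra R G)) (h : pᴴ * Z = 0) : Z = 0 := by
  have h1 : Zᴴ * p = 0 := by
    have := congrArg Matrix.conjTranspose h
    rwa [Matrix.conjTranspose_mul, Matrix.conjTranspose_conjTranspose,
      Matrix.conjTranspose_zero] at this
  have h2 := hc c Zᴴ h1
  have := congrArg Matrix.conjTranspose h2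
  rwa [Matrix.conjTranspose_conjTranspose, Matrix.conjTranspose_zero] at this

end Star

section Alg

variable {A : Type} [Ring A] [StarRing A] (ε : ℤˣ) {n r : ℕ}
  (a μ b : Matrix (Fin n) (Fin n) A) (p : Matrix (Fin r) (Fin n) A)
  (a' : Matrix (Fin r) (Fin r) A) (m' : Matrix (Fin n) (Fin r) A)

/-- `τ`. -/
def tau : Matrix (Fin n ⊕ Fin n) (Fin r ⊕ Fin n) A :=
  fromBlocks m' ((ε : ℤ) • b) (pᴴ * a') μᴴ

/-- `P`. -/
def PP : Matrix (Fin r ⊕ Fin n) (Fin n ⊕ Fin n) A := fromBlocks p 0 0 1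

/-- `Q`. -/
def QQ : Matrix (Fin r ⊕ Fin n) (Fin r ⊕ Fin r) A := fromBlocks 1 0 0 pᴴ

/-- `N = P τ`. -/
def NN : Matrix (Fin r ⊕ Fin n) (Fin r ⊕ Fin n) A :=
  fromBlocks (p * m') ((ε : ℤ) • (p * b)) (pᴴ * a') μᴴ

variable {a μ b p a' m'}

theorem PP_tau : PP p * tau ε μ b p a' m' = NN ε μ b p a' m' := by
  unfold PP tau NN
  rw [fromBlocks_multiply]
  simp only [Matrix.zero_mul, Matrix.one_mul, add_zero, zero_add, Matrix.mul_smul, smul_zero]

theorem NN_mul_rows {c : Type} (x : Matrix (Fin r) c A) (y : Matrix (Fin n) c A) :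
    NN ε μ b p a' m' * fromRows x y = fromRows (p * m' * x + ((ε : ℤ) • (p * b)) * y)
      (pᴴ * a' * x + μᴴ * y) := by
  unfold NN
  rw [fromBlocks_mul_fromRows]

theorem nu_eq (ha : a = pᴴ * a' * p) (hm : μ = m' * p) :
    nu ε a μ b = tau ε μ b p a' m' * PP p := by
  unfold nu PP tau
  rw [fromBlocks_multiply]
  simp only [Matrix.mul_zero, Matrix.mul_one, add_zero, zero_add]
  rw [← hm, ← ha]

theorem QQ_nu (hm : μ = m' * p) :
    QQ p * nu ε a' (p * m') (p * b * pᴴ) = NN ε μ b p a' m' * QQ p := by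
  unfold nu QQ NN
  rw [fromBlocks_multiply, fromBlocks_multiply]
  simp only [Matrix.mul_zero, Matrix.mul_one, Matrix.zero_mul, Matrix.one_mul, add_zero, zero_add,
    Matrix.smul_mul]
  congr 1
  rw [Matrix.conjTranspose_mul, hm, Matrix.conjTranspose_mul, Matrix.mul_assoc]

theorem PP_pow (ha : a = pᴴ * a' * p) (hm : μ = m' * p) (l : ℕ) :
    PP p * (nu ε a μ b) ^ l = (NN ε μ b p a' m') ^ l * PP p := by
  induction l with
  | zero => rw [pow_zero, pow_zero, Matrix.mul_one, Matrix.one_mul]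
  | succ l ih =>
    rw [pow_succ, ← Matrix.mul_assoc, ih, nu_eq ε ha hm, pow_succ, ← PP_tau]
    simp only [Matrix.mul_assoc]

theorem nu_pow (ha : a = pᴴ * a' * p) (hm : μ = m' * p) (l : ℕ) :
    (nu ε a μ b) ^ (l + 1) = tau ε μ b p a' m' * (NN ε μ b p a' m') ^ l * PP p := by
  rw [pow_succ', Matrix.mul_assoc, ← PP_pow ε ha hm, ← Matrix.mul_assoc, ← nu_eq ε ha hm]

theorem QQ_pow (hm : μ = m' * p) (l : ℕ) :
    QQ p * (nu ε a' (p * m') (p * b * pᴴ)) ^ l = (NN ε μ b p a' m') ^ l * QQ p := by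
  induction l with
  | zero => rw [pow_zero, pow_zero, Matrix.mul_one, Matrix.one_mul]
  | succ l ih =>
    rw [pow_succ, ← Matrix.mul_assoc, ih, Matrix.mul_assoc, QQ_nu ε hm, ← Matrix.mul_assoc,
      pow_succ]

omit [StarRing A] in
/-- `P` cancels on the right. -/
theorem PP_cancel (hc : ∀ (l : Type) (Z : Matrix l (Fin r) A), Z * p = 0 → Z = 0)
    {l : Type} (Z : Matrix l (Fin r ⊕ Fin n) A) (h : Z * PP p = 0) : Z = 0 := by
  have h1 := h
  rw [← fromCols_toCols Z] at h1 ⊢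
  unfold PP at h1
  rw [fromCols_mul_fromBlocks] at h1
  simp only [Matrix.mul_zero, Matrix.mul_one, add_zero, zero_add] at h1
  have h2 : Z.toCols₁ * p = 0 := by
    ext i j
    exact congrFun (congrFun h1 i) (Sum.inl j)
  have h3 : Z.toCols₂ = 0 := by
    ext i j
    exact congrFun (congrFun h1 i) (Sum.inr j)
  rw [hc _ _ h2, h3, fromCols_zero]

end Alg

end NILAux

open NILAux in
theorem specNIL : SpecNIL := by
  intro R G _ _ _ H X1 X2 X3 Yp Ym hPP ε n r a μ b p a' m' hPM hb hμ l hl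
  have ha := hPM.eq_a
  have hm := hPM.eq_m
  have hc := hPM.cancel
  have hcl := fun {c : Type} => cancel_left (c := c) hc
  -- (i)
  have htau : tau ε μ b p a' m' * (NN ε μ b p a' m') ^ l = 0 := by
    apply PP_cancel hc
    rw [← nu_pow ε ha hm, hl]
  have hN : (NN ε μ b p a' m') ^ (l + 1) = 0 := by
    rw [pow_succ']
    nth_rewrite 1 [← PP_tau]
    rw [Matrix.mul_assoc, htau, Matrix.mul_zero]
  have hQ := QQ_pow (ε := ε) (b := b) (a' := a') (p := p) hm l
  -- rows of Q times a matrix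
  have hQl : ∀ {c : Type} (W : Matrix (Fin r ⊕ Fin r) c (MonoidAlgebra R G)) i j,
      (QQ p * W) (Sum.inl i) j = W (Sum.inl i) j := by
    intro c W i j
    rw [← fromRows_toRows W]
    unfold QQ
    rw [fromBlocks_mul_fromRows]
    simp
  have hQr : ∀ {c : Type} (W : Matrix (Fin r ⊕ Fin r) c (MonoidAlgebra R G)),
      (∀ i j, (QQ p * W) (Sum.inr i) j = 0) → ∀ i j, W (Sum.inr i) j = 0 := by
    intro c W hW
    have h1 : pᴴ * W.toRows₂ = 0 := by
      ext1 i j
      have := hW i j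
      rw [← fromRows_toRows W] at this
      unfold QQ at this
      rw [fromBlocks_mul_fromRows] at this
      simpa using this
    have h2 := hcl _ h1
    intro i j
    exact congrFun (congrFun h2 i) j
  have hNQ : ∀ k, QQ p * (nu ε a' (p * m') (p * b * pᴴ)) ^ k = (NN ε μ b p a' m') ^ k * QQ p :=
    fun k => QQ_pow (ε := ε) (b := b) (a' := a') (p := p) hm k
  refine ⟨?_, ?_, ?_⟩
  · have h0 : QQ p * (nu ε a' (p * m') (p * b * pᴴ)) ^ (l + 1) = 0 := by
      rw [hNQ, hN, Matrix.zero_mul]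
    ext1 i j
    rcases i with i | i
    · have h7 := hQl ((nu ε a' (p * m') (p * b * pᴴ)) ^ (l + 1)) i j
      rw [h0] at h7
      exact h7.symm
    · exact hQr _ (fun i j => by rw [h0]; rfl) i j
  · -- supports
    have hsupp : ∀ k, SuppIn Yp ((NN ε μ b p a' m') ^ k).toRows₁ ∧
        SuppIn Ym ((NN ε μ b p a' m') ^ k).toRows₂ := by
      intro k
      induction k with
      | zero =>
        constructor
        · intro i j g hg
          rw [pow_zero] at hg
          have : (1 : Matrix (Fin r ⊕ Fin n) (Fin r ⊕ Fin n) (MonoidAlgebra R G)).toRows₁ i j =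
              if Sum.inl i = j then 1 else 0 := rfl
          rw [this] at hg
          split_ifs at hg with hij
          · by_cases hg1 : g = 1
            · rw [hg1]; exact hPP.Yp1
            · exfalso
              apply hg
              exact coeff_one_ne g hg1
          · exact absurd rfl hg
        · intro i j g hg
          rw [pow_zero] at hg
          have : (1 : Matrix (Fin r ⊕ Fin n) (Fin r ⊕ Fin n) (MonoidAlgebra R G)).toRows₂ i j =
              if Sum.inr i = j then 1 else 0 := rfl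
          rw [this] at hg
          split_ifs at hg with hij
          · by_cases hg1 : g = 1
            · rw [hg1]; exact hPP.Ym1
            · exfalso
              apply hg
              exact coeff_one_ne g hg1
          · exact absurd rfl hg
      | succ k ih =>
        have e : (NN ε μ b p a' m') ^ (k + 1) =
            fromRows (p * m' * ((NN ε μ b p a' m') ^ k).toRows₁ +
              ((ε : ℤ) • (p * b)) * ((NN ε μ b p a' m') ^ k).toRows₂)
            (pᴴ * a' * ((NN ε μ b p a' m') ^ k).toRows₁ +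
              μᴴ * ((NN ε μ b p a' m') ^ k).toRows₂) := by
          rw [pow_succ', ← NN_mul_rows, fromRows_toRows]
        have hp := hPM.supp_p
        have hps : SuppIn (H : Set G) pᴴ := supp_mono (supp_star hp)
          (fun x hx => (Subgroup.inv_mem_iff H).1 hx)
        rw [e, toRows₁_fromRows, toRows₂_fromRows]
        constructor
        · apply supp_add
          · exact supp_mul (supp_mul hp hPM.supp_m' hPP.X3l) ih.1 hPP.X3Y
          · exact supp_mul (supp_smul _ (supp_mul hp hb hPP.X2l)) ih.2 hPP.X2Y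
        · apply supp_add
          · exact supp_mul (supp_mul hps hPM.supp_a' hPP.X1l) ih.1 hPP.X1Y
          · exact supp_mul (supp_star hμ) ih.2 hPP.X3Y'
    obtain ⟨hx, hy⟩ := hsupp l
    set x := ((NN ε μ b p a' m') ^ l).toRows₁ with hxdef
    set y := ((NN ε μ b p a' m') ^ l).toRows₂ with hydef
    have ht2 := htau
    rw [← fromRows_toRows ((NN ε μ b p a' m') ^ l), ← hxdef, ← hydef] at ht2
    unfold tau at ht2
    rw [fromBlocks_mul_fromRows] at ht2
    have e1 : m' * x + (ε : ℤ) • b * y = 0 := by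
      ext1 i j
      exact congrFun (congrFun ht2 (Sum.inl i)) j
    have e2 : pᴴ * a' * x + μᴴ * y = 0 := by
      ext1 i j
      exact congrFun (congrFun ht2 (Sum.inr i)) j
    have hp := hPM.supp_p
    have hps : SuppIn (H : Set G) pᴴ := supp_mono (supp_star hp)
      (fun x hx => (Subgroup.inv_mem_iff H).1 hx)
    have m1 : m' * x = 0 := by
      refine eq_zero_of_add (X := {g | ∃ u ∈ X3, ∃ v ∈ Yp, u * v = g})
        (Y := {g | ∃ u ∈ X2, ∃ v ∈ Ym, u * v = g}) ?_ ?_ ?_ e1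
      · exact supp_mul hPM.supp_m' hx (fun u hu v hv => ⟨u, hu, v, hv, rfl⟩)
      · exact supp_mul (supp_smul _ hb) hy (fun u hu v hv => ⟨u, hu, v, hv, rfl⟩)
      · rintro g ⟨u, hu, v, hv, rfl⟩ ⟨u', hu', v', hv', h⟩
        exact hPP.d23 u' hu' v' hv' u hu v hv h
    have m2 : pᴴ * a' * x = 0 := by
      refine eq_zero_of_add (X := {g | ∃ u ∈ X1, ∃ v ∈ Yp, u * v = g})
        (Y := {g | ∃ u ∈ Xinv X3, ∃ v ∈ Ym, u * v = g}) ?_ ?_ ?_ e2
      · exact supp_mul (supp_mul hps hPM.supp_a' hPP.X1l) hx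
          (fun u hu v hv => ⟨u, hu, v, hv, rfl⟩)
      · exact supp_mul (supp_star hμ) hy (fun u hu v hv => ⟨u, hu, v, hv, rfl⟩)
      · rintro g ⟨u, hu, v, hv, rfl⟩ ⟨u', hu', v', hv', h⟩
        exact hPP.d13 u hu v hv u' hu' v' hv' h.symm
    have hx0 : x = 0 := hPM.inj Yp hPP.Ypl hPP.u1 hPP.u3 _ x hx m2 m1
    intro i j
    have h7 := hQl ((nu ε a' (p * m') (p * b * pᴴ)) ^ l) i j
    rw [hNQ] at h7
    have h8 : ((NN ε μ b p a' m') ^ l * QQ p) (Sum.inl i) j = (x * QQ p) i j := rfl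
    rw [h8, hx0, Matrix.zero_mul] at h7
    exact h7.symm
  · intro hin
    have h1 : ∀ i j, ((NN ε μ b p a' m') ^ l * PP p) (Sum.inr i) j = 0 := by
      intro i j
      rw [← PP_pow ε ha hm]
      have : (PP p * (nu ε a μ b) ^ l) (Sum.inr i) j = ((nu ε a μ b) ^ l) (Sum.inr i) j := by
        conv_lhs => rw [← fromRows_toRows ((nu ε a μ b) ^ l)]
        unfold PP
        rw [fromBlocks_mul_fromRows]
        simp
      rw [this]
      exact hin i j
    have h2 : ((NN ε μ b p a' m') ^ l).toRows₂ * PP p = 0 := by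
      ext1 i j
      exact h1 i j
    have h3 := PP_cancel hc _ h2
    apply hQr
    intro i j
    rw [hNQ]
    have : ((NN ε μ b p a' m') ^ l * QQ p) (Sum.inr i) j =
        (((NN ε μ b p a' m') ^ l).toRows₂ * QQ p) i j := rfl
    rw [this, h3, Matrix.zero_mul]
    rfl

end Pool.Agent.Lib.MPb6f35e.TT.UV

/-! ## Module UV/SWP -/

/-!
# UV, module SWP: exchange of the two summands, change of `ψ`, `χ`, the trivial form
-/

namespace Pool.Agent.Lib.MPb6f35e.TT.UV

open Matrix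

namespace SWPAux

variable {A : Type} [Ring A] [StarRing A] {ε : ℤˣ}

theorem isom_trans {ι κ τ : Type} [Fintype ι] [DecidableEq ι] [Fintype κ] [DecidableEq κ]
    [Fintype τ] [DecidableEq τ] {Ψ : Matrix ι ι A} {Φ : Matrix κ κ A} {Ξ : Matrix τ τ A}
    (h₁ : Isometric ε Ψ Φ) (h₂ : Isometric ε Φ Ξ) : Isometric ε Ψ Ξ := by
  obtain ⟨u, v, Z, huv, hvu, hΦ⟩ := h₁
  obtain ⟨w, x, Y, hwx, hxw, hΞ⟩ := h₂
  refine ⟨u * w, x * v, wᴴ * Z * w + Y, ?_, ?_, ?_⟩
  · calc u * w * (x * v) = u * (w * x) * v := by simp only [Matrix.mul_assoc]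
      _ = 1 := by rw [hwx, Matrix.mul_one, huv]
  · calc x * v * (u * w) = x * (v * u) * w := by simp only [Matrix.mul_assoc]
      _ = 1 := by rw [hvu, Matrix.mul_one, hxw]
  · rw [hΞ, hΦ]
    simp only [conjTranspose_add, conjTranspose_mul, conjTranspose_conjTranspose, smul_add,
      Matrix.mul_add, Matrix.add_mul, Matrix.mul_sub, Matrix.sub_mul, Matrix.mul_assoc,
      Matrix.mul_smul, Matrix.smul_mul]
    abel

theorem isom_sum {ι κ τ : Type} [Fintype ι] [DecidableEq ι] [Fintype κ] [DecidableEq κ]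
    [Fintype τ] [DecidableEq τ] {Ψ : Matrix ι ι A} {Φ : Matrix κ κ A} (Ξ : Matrix τ τ A)
    (h : Isometric ε Ψ Φ) :
    Isometric ε (fromBlocks Ψ 0 0 Ξ) (fromBlocks Φ 0 0 Ξ) := by
  obtain ⟨u, v, Z, huv, hvu, hΦ⟩ := h
  refine ⟨fromBlocks u 0 0 1, fromBlocks v 0 0 1, fromBlocks Z 0 0 0, ?_, ?_, ?_⟩
  · rw [fromBlocks_multiply]
    simp [huv, fromBlocks_one]
  · rw [fromBlocks_multiply]
    simp [hvu, fromBlocks_one]
  · rw [fromBlocks_conjTranspose, fromBlocks_conjTranspose, fromBlocks_multiply,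
      fromBlocks_multiply, fromBlocks_smul, fromBlocks_add, sub_eq_add_neg, fromBlocks_neg,
      fromBlocks_add, hΦ]
    simp [sub_eq_add_neg]

theorem stab_of_isom {ι κ : Type} [Fintype ι] [DecidableEq ι] [Fintype κ] [DecidableEq κ]
    {Ψ : Matrix ι ι A} {Φ : Matrix κ κ A} (h : Isometric ε Ψ Φ) (hΦ : StablyHyperbolic ε Φ) :
    StablyHyperbolic ε Ψ := by
  obtain ⟨m, n, hmn⟩ := hΦ
  exact ⟨m, n, isom_trans (isom_sum _ h) hmn⟩

theorem swap {n : ℕ} (ψ μ χ : Matrix (Fin n) (Fin n) A) :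
    Isometric ε (UF ψ μ χ) (UF χ μᴴ ψ) := by
  refine ⟨fromBlocks 0 ((ε : ℤ) • 1) 1 0, fromBlocks 0 1 ((ε : ℤ) • 1) 0,
    fromBlocks 0 (1 + μ) 0 0, ?_, ?_, ?_⟩
  · rw [fromBlocks_multiply]
    rcases Int.units_eq_one_or ε with h | h <;> simp [h, fromBlocks_one]
  · rw [fromBlocks_multiply]
    rcases Int.units_eq_one_or ε with h | h <;> simp [h, fromBlocks_one]
  · unfold UF
    rw [fromBlocks_conjTranspose, fromBlocks_conjTranspose, fromBlocks_multiply,
      fromBlocks_multiply, fromBlocks_smul, fromBlocks_add, sub_eq_add_neg, fromBlocks_neg,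
      fromBlocks_add]
    rcases Int.units_eq_one_or ε with h | h
    · simp [h]
    · simp [h]
      abel

theorem change {n : ℕ} (ψ μ χ c d : Matrix (Fin n) (Fin n) A) :
    Isometric ε (UF (ψ + c - (ε : ℤ) • cᴴ) μ (χ + d - (ε : ℤ) • dᴴ)) (UF ψ μ χ) := by
  refine ⟨1, 1, fromBlocks (-c) 0 0 (-d), by simp, by simp, ?_⟩
  unfold UF
  rw [conjTranspose_one, Matrix.one_mul, Matrix.mul_one, fromBlocks_conjTranspose,
    fromBlocks_smul, fromBlocks_add, sub_eq_add_neg, fromBlocks_neg, fromBlocks_add]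
  simp only [conjTranspose_neg, conjTranspose_zero, smul_neg, smul_zero, neg_zero, add_zero,
    neg_neg]
  congr 1 <;> abel

theorem trivial_form (n : ℕ) :
    StablyHyperbolic ε (UF (0 : Matrix (Fin n) (Fin n) A) 0 0) := by
  refine ⟨0, n, fromRows 1 0, fromCols 1 0, 0, ?_, ?_, ?_⟩
  · rw [fromRows_mul_fromCols]
    ext i j
    rcases i with i | i
    · rcases j with j | j
      · simp [Matrix.one_apply]
      · exact isEmptyElim j
    · exact isEmptyElim i
  · rw [fromCols_mul_fromRows]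
    simp
  · rw [conjTranspose_fromRows_eq_fromCols_conjTranspose, fromCols_mul_fromBlocks,
      fromCols_mul_fromRows]
    simp [UF, hyp]

end SWPAux

open SWPAux

theorem specSwp : SpecSWP := by
  intro A _ _ ε n ψ μ χ
  exact ⟨fun h => stab_of_isom (swap ψ μ χ) h, fun c d h => stab_of_isom (change ψ μ χ c d) h,
    trivial_form n⟩

end Pool.Agent.Lib.MPb6f35e.TT.UV

/-! ## Module UV/TAT -/

/-!
# TAT: Tate vanishing
-/

namespace Pool.Agent.Lib.MPb6f35e.TT.UV

open Matrix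

namespace TATAux

/-- For every group there is a set containing exactly one of `g`, `g⁻¹` whenever `g ≠ g⁻¹`. -/
theorem exists_half (G : Type) [Group G] :
    ∃ Y : Set G, ∀ g : G, g⁻¹ ≠ g → ((g ∈ Y ∧ g⁻¹ ∉ Y) ∨ (g ∉ Y ∧ g⁻¹ ∈ Y)) := by
  classical
  refine ⟨{g | WellOrderingRel g g⁻¹}, fun g hg => ?_⟩
  simp only [Set.mem_ofPred_eq, inv_inv]
  rcases trichotomous_of WellOrderingRel g g⁻¹ with h | h | h
  · exact Or.inl ⟨h, fun h' => asymm_of WellOrderingRel h h'⟩
  · exact absurd h.symm hg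
  · exact Or.inr ⟨fun h' => asymm_of WellOrderingRel h h', h⟩

theorem coeff_smul_star {R G : Type} [Ring R] [StarRing R] [Group G] (δ : ℤ)
    (x : MonoidAlgebra R G) (g : G) :
    (δ • star x).coeff g = δ • star (x.coeff g⁻¹) := by
  rw [MonoidAlgebra.coeff_smul, Finsupp.smul_apply, star_coeff]

end TATAux

open TATAux in
theorem specTat : SpecTAT := by
  classical
  intro R G _ _ _ X δ n d hinv hne hd hsym
  obtain ⟨Y, hY⟩ := exists_half G
  have hs : ∀ i j g, (d i j).coeff g = (δ : ℤ) • star ((d j i).coeff g⁻¹) := by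
    intro i j g
    rw [← coeff_smul_star]
    have h1 := congrFun (congrFun hsym i) j
    rw [Matrix.smul_apply, Matrix.conjTranspose_apply] at h1
    rw [← h1]
  refine ⟨Matrix.of fun i j => if i < j then d i j else if i = j then
    .ofCoeff ((d i j).coeff.filter (fun g => g ∈ Y)) else 0, ?_, ?_⟩
  · intro i j g h
    rw [Matrix.of_apply] at h
    by_cases h1 : i < j
    · simp only [h1, if_true] at h
      exact hd i j g h
    · by_cases h2 : i = j
      · subst h2
        simp only [lt_irrefl, if_false, if_true] at h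
        apply hd i i g
        intro h3
        apply h
        simp [Finsupp.filter_apply, h3]
      · simp [h1, h2] at h
  · ext i j g
    rw [Matrix.add_apply, Matrix.smul_apply, Matrix.conjTranspose_apply, Matrix.of_apply,
      Matrix.of_apply, MonoidAlgebra.coeff_add, Finsupp.add_apply, coeff_smul_star]
    rcases lt_trichotomy i j with h | h | h
    · have h1 : ¬ j < i := not_lt.mpr h.le
      have h2 : j ≠ i := ne_of_gt h
      simp [h, h1, h2]
    · subst h
      simp only [lt_irrefl, if_false, if_true, Finsupp.filter_apply]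
      by_cases hg : g⁻¹ = g
      · have h0 : (d i i).coeff g = 0 := by
          by_contra h
          exact hne g (hd i i g h) hg
        rw [hg, h0]
        simp
      · rcases hY g hg with ⟨ha, hb⟩ | ⟨ha, hb⟩
        · simp [ha, hb]
        · simp only [ha, hb, if_false, if_true, zero_add]
          exact hs i i g
    · have h1 : ¬ i < j := not_lt.mpr h.le
      have h2 : i ≠ j := ne_of_gt h
      simp only [h, h1, h2, if_false, if_true]
      rw [← hs i j g]
      simp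

end Pool.Agent.Lib.MPb6f35e.TT.UV

/-! ## Module UV/EMV -/

/-!
# UV, module EMV: the E-move
-/

namespace Pool.Agent.Lib.MPb6f35e.TT.UV

open Matrix

namespace EMVAux

variable {A : Type} [Ring A] [StarRing A]

/-! ### Isometries -/

theorem iso_equiv (ε : ℤˣ) {ι κ : Type} [Fintype ι] [DecidableEq ι] [Fintype κ] [DecidableEq κ]
    (Ψ : Matrix ι ι A) (Φ : Matrix κ κ A) (e : κ ≃ ι) (h : Φ = Ψ.submatrix e e) :
    Isometric ε Ψ Φ := by
  refine ⟨(1 : Matrix ι ι A).submatrix id e, (1 : Matrix ι ι A).submatrix e id, 0, ?_, ?_, ?_⟩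
  · rw [Matrix.submatrix_mul_equiv]
    simp
  · have : (1 : Matrix ι ι A).submatrix e id * (1 : Matrix ι ι A).submatrix id e
        = ((1 : Matrix ι ι A) * 1).submatrix e e := by
      have := Matrix.submatrix_mul_equiv (1 : Matrix ι ι A) (1 : Matrix ι ι A) e (Equiv.refl ι) e
      simpa using this
    rw [this]
    simp
  · rw [Matrix.conjTranspose_submatrix, Matrix.conjTranspose_one, Matrix.conjTranspose_zero,
      smul_zero, sub_zero, add_zero, h]
    have h1 : (1 : Matrix ι ι A).submatrix e id * Ψ = Ψ.submatrix e id := by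
      have := Matrix.submatrix_mul_equiv (1 : Matrix ι ι A) Ψ e (Equiv.refl ι) id
      simpa using this
    rw [h1]
    have := Matrix.submatrix_mul_equiv Ψ (1 : Matrix ι ι A) e (Equiv.refl ι) e
    simpa using this.symm

theorem iso_trans (ε : ℤˣ) {ι κ l : Type} [Fintype ι] [DecidableEq ι] [Fintype κ] [DecidableEq κ]
    [Fintype l] [DecidableEq l] {Ψ : Matrix ι ι A} {Φ : Matrix κ κ A} {Θ : Matrix l l A}
    (h1 : Isometric ε Ψ Φ) (h2 : Isometric ε Φ Θ) : Isometric ε Ψ Θ := by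
  obtain ⟨u, v, Z, huv, hvu, hZ⟩ := h1
  obtain ⟨u', v', Z', huv', hvu', hZ'⟩ := h2
  refine ⟨u * u', v' * v, u'ᴴ * Z * u' + Z', ?_, ?_, ?_⟩
  · rw [Matrix.mul_assoc, ← Matrix.mul_assoc u' v' v, huv', Matrix.one_mul, huv]
  · rw [Matrix.mul_assoc, ← Matrix.mul_assoc v u u', hvu, Matrix.one_mul, hvu']
  · rw [hZ', hZ]
    simp only [Matrix.conjTranspose_mul, Matrix.conjTranspose_add,
      Matrix.conjTranspose_conjTranspose, Matrix.mul_add, Matrix.add_mul, Matrix.mul_sub,
      Matrix.sub_mul, smul_add, Matrix.mul_smul, Matrix.smul_mul, Matrix.mul_assoc]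
    abel

theorem iso_sum (ε : ℤˣ) {ι κ l : Type} [Fintype ι] [DecidableEq ι] [Fintype κ] [DecidableEq κ]
    [Fintype l] [DecidableEq l] {Ψ : Matrix ι ι A} {Φ : Matrix κ κ A} (Θ : Matrix l l A)
    (h1 : Isometric ε Ψ Φ) : Isometric ε (fromBlocks Ψ 0 0 Θ) (fromBlocks Φ 0 0 Θ) := by
  obtain ⟨u, v, Z, huv, hvu, hZ⟩ := h1
  refine ⟨fromBlocks u 0 0 1, fromBlocks v 0 0 1, fromBlocks Z 0 0 0, ?_, ?_, ?_⟩
  · rw [fromBlocks_multiply]; simp [huv]
  · rw [fromBlocks_multiply]; simp [hvu]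
  · rw [fromBlocks_conjTranspose, fromBlocks_conjTranspose, fromBlocks_multiply,
      fromBlocks_multiply, fromBlocks_add, fromBlocks_smul, sub_eq_add_neg, fromBlocks_neg,
      fromBlocks_add, hZ]
    simp [sub_eq_add_neg]

/-! ### The explicit isometry -/

theorem rows_form {n m k : Type} [Fintype n] [Fintype m] [Fintype k]
    (a : Matrix n k A) (b : Matrix m k A) (P : Matrix n n A) (Q : Matrix n m A)
    (R : Matrix m n A) (S : Matrix m m A) :
    (fromRows a b)ᴴ * fromBlocks P Q R S * fromRows a b =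
      aᴴ * P * a + aᴴ * Q * b + bᴴ * R * a + bᴴ * S * b := by
  rw [Matrix.conjTranspose_fromRows_eq_fromCols_conjTranspose, Matrix.fromCols_mul_fromBlocks,
    Matrix.fromCols_mul_fromRows]
  simp only [Matrix.add_mul]
  abel

/-- the source form in the new coordinates -/
theorem key (ε : ℤˣ) {k : Type} [Fintype k] [DecidableEq k] (n r : ℕ)
    (ψ : Matrix (Fin r) (Fin r) A)
    (m' : Matrix (Fin n) (Fin r) A) (χ : Matrix (Fin n) (Fin n) A)
    (π : Matrix (Fin r) (Fin n) A) (P F S fs : Matrix (Fin n) k A)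
    (P1 F1 w : Matrix (Fin r) k A) (hfs : fs = F + πᴴ * F1)
    (hS : S = P - χᴴ * F - m' * P1 - (χᴴ + (ε : ℤ) • χ) * πᴴ * F1) (hw : w = π * S) :
    P1ᴴ * ψ * P1 + P1ᴴ * (1 + (π * m')ᴴ) * F1 + F1ᴴ * (π * χ * πᴴ) * F1 + Pᴴ * F
      = (Sᴴ * (πᴴ * ψ * π) * S + Sᴴ * (1 + (m' * π)ᴴ) * fs + fsᴴ * χ * fs
          + (P1 - w)ᴴ * (F1 + ψ * (P1 - w) + (ψ + (ε : ℤ) • ψᴴ) * w + m'ᴴ * fs))
        + -(wᴴ * ψ * w - wᴴ * ψ * P1 + Fᴴ * χ * πᴴ * F1)
        - (ε : ℤ) • (-(wᴴ * ψ * w - wᴴ * ψ * P1 + Fᴴ * χ * πᴴ * F1))ᴴ := by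
  have hSF : Sᴴ * F = Pᴴ * F - Fᴴ * χ * F - P1ᴴ * m'ᴴ * F
      - F1ᴴ * π * (χ + (ε : ℤ) • χᴴ) * F := by
    rw [hS]
    rcases Int.units_eq_one_or ε with rfl | rfl
    · simp only [Units.val_one, one_smul, Matrix.conjTranspose_sub, Matrix.conjTranspose_add,
        Matrix.conjTranspose_mul, Matrix.conjTranspose_conjTranspose, Matrix.sub_mul,
        Matrix.add_mul, Matrix.mul_add, Matrix.mul_assoc]
    · simp only [Units.val_neg, Units.val_one, neg_smul, one_smul, Matrix.conjTranspose_sub,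
        Matrix.conjTranspose_add, Matrix.conjTranspose_neg,
        Matrix.conjTranspose_mul, Matrix.conjTranspose_conjTranspose, Matrix.sub_mul,
        Matrix.add_mul, Matrix.mul_add, Matrix.mul_assoc, Matrix.neg_mul, Matrix.mul_neg]
  have h1 : Pᴴ * F = Sᴴ * F + Fᴴ * χ * F + P1ᴴ * m'ᴴ * F
      + F1ᴴ * π * (χ + (ε : ℤ) • χᴴ) * F := by
    rw [hSF]; abel
  rw [h1, hfs]
  have hw1 : Sᴴ * πᴴ = wᴴ := by rw [hw, Matrix.conjTranspose_mul]
  have e1 : Sᴴ * (πᴴ * ψ * π) * S = wᴴ * ψ * w := by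
    rw [hw, Matrix.conjTranspose_mul]; simp only [Matrix.mul_assoc]
  have e2 : ∀ X : Matrix (Fin n) k A,
      Sᴴ * (1 + (m' * π)ᴴ) * X = Sᴴ * X + wᴴ * m'ᴴ * X := by
    intro X
    rw [← hw1, Matrix.conjTranspose_mul, Matrix.mul_add Sᴴ 1, Matrix.mul_one, Matrix.add_mul,
      Matrix.mul_assoc Sᴴ πᴴ]
  have e3 : Sᴴ * (F + πᴴ * F1) = Sᴴ * F + wᴴ * F1 := by
    rw [Matrix.mul_add Sᴴ F, ← Matrix.mul_assoc Sᴴ πᴴ, hw1]
  rw [e1, e2, e3]
  rcases Int.units_eq_one_or ε with rfl | rfl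
  · simp only [Units.val_one, one_smul, Matrix.conjTranspose_sub, Matrix.conjTranspose_add,
      Matrix.conjTranspose_neg,
      Matrix.conjTranspose_mul, Matrix.conjTranspose_conjTranspose, Matrix.sub_mul,
      Matrix.add_mul, Matrix.mul_add, Matrix.mul_sub, Matrix.mul_assoc, Matrix.mul_one]
    abel
  · simp only [Units.val_neg, Units.val_one, neg_smul, one_smul, Matrix.conjTranspose_sub,
      Matrix.conjTranspose_add, Matrix.conjTranspose_neg,
      Matrix.conjTranspose_mul, Matrix.conjTranspose_conjTranspose, Matrix.sub_mul,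
      Matrix.add_mul, Matrix.mul_add, Matrix.mul_sub, Matrix.mul_assoc, Matrix.neg_mul,
      Matrix.mul_neg, Matrix.mul_one]
    abel

/-- stacking four blocks of rows -/
def st {n r : ℕ} {k : Type} (a b : Matrix (Fin n) k A) (c d : Matrix (Fin r) k A) :
    Matrix ((Fin n ⊕ Fin n) ⊕ (Fin r ⊕ Fin r)) k A :=
  fromRows (fromRows a b) (fromRows c d)

omit [StarRing A] in
theorem st_mul {n r : ℕ} {k l : Type} [Fintype k] (a b : Matrix (Fin n) k A)
    (c d : Matrix (Fin r) k A) (M : Matrix k l A) :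
    st a b c d * M = st (a * M) (b * M) (c * M) (d * M) := by
  unfold st
  rw [Matrix.fromRows_mul, Matrix.fromRows_mul, Matrix.fromRows_mul]

/-- the four projections -/
def Ep (A : Type) [Ring A] (n r : ℕ) : Matrix (Fin n) ((Fin n ⊕ Fin n) ⊕ (Fin r ⊕ Fin r)) A :=
  fromCols (fromCols 1 0) 0
def Ef (A : Type) [Ring A] (n r : ℕ) : Matrix (Fin n) ((Fin n ⊕ Fin n) ⊕ (Fin r ⊕ Fin r)) A :=
  fromCols (fromCols 0 1) 0
def E1 (A : Type) [Ring A] (n r : ℕ) : Matrix (Fin r) ((Fin n ⊕ Fin n) ⊕ (Fin r ⊕ Fin r)) A :=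
  fromCols 0 (fromCols 1 0)
def E2 (A : Type) [Ring A] (n r : ℕ) : Matrix (Fin r) ((Fin n ⊕ Fin n) ⊕ (Fin r ⊕ Fin r)) A :=
  fromCols 0 (fromCols 0 1)

omit [StarRing A] in
theorem st_one (n r : ℕ) : st (Ep A n r) (Ef A n r) (E1 A n r) (E2 A n r) = 1 := by
  unfold st Ep Ef E1 E2
  ext i j
  rcases i with (i | i) | (i | i) <;> rcases j with (j | j) | (j | j) <;>
    simp [Matrix.one_apply]

section
variable {n r : ℕ} {k : Type} (a b : Matrix (Fin n) k A) (c d : Matrix (Fin r) k A)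

omit [StarRing A] in
theorem Ep_st : Ep A n r * st a b c d = a := by
  unfold st Ep
  rw [Matrix.fromCols_mul_fromRows, Matrix.fromCols_mul_fromRows]
  simp

omit [StarRing A] in
theorem Ef_st : Ef A n r * st a b c d = b := by
  unfold st Ef
  rw [Matrix.fromCols_mul_fromRows, Matrix.fromCols_mul_fromRows]
  simp

omit [StarRing A] in
theorem E1_st : E1 A n r * st a b c d = c := by
  unfold st E1
  rw [Matrix.fromCols_mul_fromRows, Matrix.fromCols_mul_fromRows]
  simp

omit [StarRing A] in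
theorem E2_st : E2 A n r * st a b c d = d := by
  unfold st E2
  rw [Matrix.fromCols_mul_fromRows, Matrix.fromCols_mul_fromRows]
  simp
end

theorem st_form {n r : ℕ} {k : Type} [Fintype k] (a b : Matrix (Fin n) k A)
    (c d : Matrix (Fin r) k A) (P : Matrix (Fin n) (Fin n) A) (Q : Matrix (Fin n) (Fin n) A)
    (S : Matrix (Fin n) (Fin n) A) (P' : Matrix (Fin r) (Fin r) A) (Q' : Matrix (Fin r) (Fin r) A)
    (S' : Matrix (Fin r) (Fin r) A) :
    (st a b c d)ᴴ * fromBlocks (fromBlocks P Q 0 S) 0 0 (fromBlocks P' Q' 0 S') * st a b c d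
      = aᴴ * P * a + aᴴ * Q * b + bᴴ * S * b + (cᴴ * P' * c + cᴴ * Q' * d + dᴴ * S' * d) := by
  unfold st
  rw [rows_form, rows_form, rows_form]
  simp

theorem main_iso (ε : ℤˣ) (n r : ℕ) (ψ : Matrix (Fin r) (Fin r) A)
    (m' : Matrix (Fin n) (Fin r) A) (χ : Matrix (Fin n) (Fin n) A)
    (π : Matrix (Fin r) (Fin n) A) :
    Isometric ε (fromBlocks (UF (πᴴ * ψ * π) (m' * π) χ) 0 0 (hyp (Fin r) A))
      (fromBlocks (hyp (Fin n) A) 0 0 (UF ψ (π * m') (π * χ * πᴴ))) := by
  obtain ⟨P, hP⟩ : ∃ P, P = Ep A n r := ⟨_, rfl⟩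
  obtain ⟨F, hF⟩ : ∃ F, F = Ef A n r := ⟨_, rfl⟩
  obtain ⟨P1, hP1⟩ : ∃ P1, P1 = E1 A n r := ⟨_, rfl⟩
  obtain ⟨F1, hF1⟩ : ∃ F1, F1 = E2 A n r := ⟨_, rfl⟩
  have h1 : st P F P1 F1 = 1 := by rw [hP, hF, hP1, hF1, st_one]
  obtain ⟨lh, hlh⟩ : ∃ lh, lh = ψ + (ε : ℤ) • ψᴴ := ⟨_, rfl⟩
  obtain ⟨Y, hY⟩ : ∃ Y, Y = (χᴴ + (ε : ℤ) • χ) * πᴴ := ⟨_, rfl⟩
  -- the base change
  obtain ⟨fs, hfs⟩ : ∃ fs, fs = F + πᴴ * F1 := ⟨_, rfl⟩
  obtain ⟨S, hS⟩ : ∃ S, S = P - χᴴ * F - m' * P1 - Y * F1 := ⟨_, rfl⟩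
  obtain ⟨w, hw⟩ : ∃ w, w = π * S := ⟨_, rfl⟩
  obtain ⟨p1s, hp1s⟩ : ∃ p1s, p1s = P1 - w := ⟨_, rfl⟩
  obtain ⟨f1s, hf1s⟩ : ∃ f1s, f1s = F1 + ψ * p1s + lh * w + m'ᴴ * fs := ⟨_, rfl⟩
  -- the inverse base change
  obtain ⟨a1, ha1⟩ : ∃ a1, a1 = P1 + π * P := ⟨_, rfl⟩
  obtain ⟨a2, ha2⟩ : ∃ a2, a2 = F1 - ψ * P1 - lh * (π * P) - m'ᴴ * F := ⟨_, rfl⟩
  obtain ⟨b2, hb2⟩ : ∃ b2, b2 = F - πᴴ * a2 := ⟨_, rfl⟩
  obtain ⟨b1, hb1⟩ : ∃ b1, b1 = P + χᴴ * b2 + m' * a1 + Y * a2 := ⟨_, rfl⟩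
  obtain ⟨u, hu⟩ : ∃ u, u = st S fs p1s f1s := ⟨_, rfl⟩
  obtain ⟨v, hv⟩ : ∃ v, v = st b1 b2 a1 a2 := ⟨_, rfl⟩
  have vP : P * v = b1 := by rw [hP, hv, Ep_st]
  have vF : F * v = b2 := by rw [hF, hv, Ef_st]
  have vP1 : P1 * v = a1 := by rw [hP1, hv, E1_st]
  have vF1 : F1 * v = a2 := by rw [hF1, hv, E2_st]
  have uP : P * u = S := by rw [hP, hu, Ep_st]
  have uF : F * u = fs := by rw [hF, hu, Ef_st]
  have uP1 : P1 * u = p1s := by rw [hP1, hu, E1_st]
  have uF1 : F1 * u = f1s := by rw [hF1, hu, E2_st]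
  refine ⟨u, v, -(wᴴ * ψ * w - wᴴ * ψ * P1 + Fᴴ * χ * πᴴ * F1), ?_, ?_, ?_⟩
  · have hSv : S * v = P := by
      rw [hS]
      simp only [Matrix.sub_mul, Matrix.mul_assoc, vP, vF, vP1, vF1]
      rw [hb1]; abel
    have hwv : w * v = π * P := by rw [hw, Matrix.mul_assoc, hSv]
    have hfv : fs * v = F := by
      rw [hfs, Matrix.add_mul, Matrix.mul_assoc, vF, vF1, hb2]; abel
    have hpv : p1s * v = P1 := by
      rw [hp1s, Matrix.sub_mul, vP1, hwv, ha1]; abel
    have hf1v : f1s * v = F1 := by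
      rw [hf1s]
      simp only [Matrix.add_mul, Matrix.mul_assoc, vF1, hpv, hwv, hfv]
      rw [ha2]; abel
    rw [hu, st_mul, hSv, hfv, hpv, hf1v, h1]
  · have h1u : a1 * u = P1 := by
      rw [ha1, Matrix.add_mul, Matrix.mul_assoc, uP1, uP, ← hw, hp1s]; abel
    have h2u : a2 * u = F1 := by
      rw [ha2]
      simp only [Matrix.sub_mul, Matrix.mul_assoc, uF1, uP1, uP, uF]
      rw [← hw, hf1s]; abel
    have h3u : b2 * u = F := by
      rw [hb2, Matrix.sub_mul, Matrix.mul_assoc, uF, h2u, hfs]; abel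
    have h4u : b1 * u = P := by
      rw [hb1]
      simp only [Matrix.add_mul, Matrix.mul_assoc, uP, h1u, h2u, h3u]
      rw [hS]; abel
    rw [hv, st_mul, h4u, h3u, h1u, h2u, h1]
  · have hk := key ε n r ψ m' χ π P F S fs P1 F1 w hfs (by rw [hS, hY]) hw
    have hl : (fromBlocks (hyp (Fin n) A) 0 0 (UF ψ (π * m') (π * χ * πᴴ)))
        = P1ᴴ * ψ * P1 + P1ᴴ * (1 + (π * m')ᴴ) * F1 + F1ᴴ * (π * χ * πᴴ) * F1 + Pᴴ * F := by
      have := st_form P F P1 F1 (0 : Matrix (Fin n) (Fin n) A) 1 0 ψ (1 + (π * m')ᴴ) (π * χ * πᴴ)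
      rw [h1] at this
      simp only [Matrix.conjTranspose_one, Matrix.one_mul, Matrix.mul_one, Matrix.mul_zero,
        Matrix.zero_mul, zero_add, add_zero] at this
      unfold hyp UF
      rw [this]; abel
    have hr : uᴴ * (fromBlocks (UF (πᴴ * ψ * π) (m' * π) χ) 0 0 (hyp (Fin r) A)) * u
        = Sᴴ * (πᴴ * ψ * π) * S + Sᴴ * (1 + (m' * π)ᴴ) * fs + fsᴴ * χ * fs
          + (P1 - w)ᴴ * (F1 + ψ * (P1 - w) + (ψ + (ε : ℤ) • ψᴴ) * w + m'ᴴ * fs) := by
      rw [hu]
      unfold hyp UF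
      rw [st_form, ← hp1s, ← hlh, ← hf1s]
      simp
    rw [hl, hk, hr]

/-! ### Hyperbolic forms -/

theorem hyp_sum (ε : ℤˣ) (a b : ℕ) :
    Isometric ε (fromBlocks (hyp (Fin a) A) 0 0 (hyp (Fin b) A)) (hyp (Fin (a + b)) A) := by
  let e : (Fin (a + b)) ⊕ (Fin (a + b)) ≃ (Fin a ⊕ Fin a) ⊕ (Fin b ⊕ Fin b) :=
    ((Equiv.sumCongr finSumFinEquiv.symm finSumFinEquiv.symm).trans
      (Equiv.sumSumSumComm (Fin a) (Fin b) (Fin a) (Fin b)))
  refine iso_equiv ε _ _ e ?_
  have he : ∀ x : Fin (a + b), e (Sum.inl x) =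
      Sum.map Sum.inl Sum.inl (finSumFinEquiv.symm x) := by
    intro x
    simp only [e, Equiv.trans_apply, Equiv.sumCongr_apply, Sum.map_inl]
    rcases finSumFinEquiv.symm x with y | y <;> rfl
  have he' : ∀ x : Fin (a + b), e (Sum.inr x) =
      Sum.map Sum.inr Sum.inr (finSumFinEquiv.symm x) := by
    intro x
    simp only [e, Equiv.trans_apply, Equiv.sumCongr_apply, Sum.map_inr]
    rcases finSumFinEquiv.symm x with y | y <;> rfl
  ext i j
  rw [Matrix.submatrix_apply]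
  unfold hyp
  rcases i with i | i <;> rcases j with j | j <;> simp only [he, he'] <;>
    obtain ⟨i, rfl⟩ := finSumFinEquiv.surjective i <;>
    obtain ⟨j, rfl⟩ := finSumFinEquiv.surjective j <;>
    rcases i with i | i <;> rcases j with j | j <;>
    simp [Matrix.one_apply, Fin.ext_iff] <;> omega

theorem iso_symm (ε : ℤˣ) {ι κ : Type} [Fintype ι] [DecidableEq ι] [Fintype κ] [DecidableEq κ]
    {Ψ : Matrix ι ι A} {Φ : Matrix κ κ A} (h : Isometric ε Ψ Φ) : Isometric ε Φ Ψ := by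
  obtain ⟨u, v, Z, huv, hvu, hZ⟩ := h
  refine ⟨v, u, -(vᴴ * Z * v), hvu, huv, ?_⟩
  have h1 : vᴴ * (uᴴ * Ψ * u) * v = Ψ := by
    have h2 : vᴴ * uᴴ = 1 := by
      rw [← Matrix.conjTranspose_mul, huv, Matrix.conjTranspose_one]
    rw [Matrix.mul_assoc uᴴ, ← Matrix.mul_assoc vᴴ, h2, Matrix.one_mul, Matrix.mul_assoc, huv,
      Matrix.mul_one]
  rw [hZ, Matrix.mul_sub, Matrix.mul_add, Matrix.sub_mul, Matrix.add_mul, h1]
  simp only [Matrix.conjTranspose_neg, Matrix.conjTranspose_mul,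
    Matrix.conjTranspose_conjTranspose, Matrix.mul_smul, Matrix.smul_mul, Matrix.mul_assoc,
    smul_neg]
  abel

theorem iso_assoc (ε : ℤˣ) {a b c : Type} [Fintype a] [DecidableEq a] [Fintype b] [DecidableEq b]
    [Fintype c] [DecidableEq c] (X : Matrix a a A) (Y : Matrix b b A) (W : Matrix c c A) :
    Isometric ε (fromBlocks X 0 0 (fromBlocks Y 0 0 W)) (fromBlocks (fromBlocks X 0 0 Y) 0 0 W) := by
  refine iso_equiv ε _ _ (Equiv.sumAssoc a b c) ?_
  ext i j
  rcases i with (i | i) | i <;> rcases j with (j | j) | j <;> simp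

theorem iso_comm (ε : ℤˣ) {a b : Type} [Fintype a] [DecidableEq a] [Fintype b] [DecidableEq b]
    (X : Matrix a a A) (Y : Matrix b b A) :
    Isometric ε (fromBlocks X 0 0 Y) (fromBlocks Y 0 0 X) := by
  refine iso_equiv ε _ _ (Equiv.sumComm b a) ?_
  ext i j
  rcases i with i | i <;> rcases j with j | j <;> simp

theorem iso_sum' (ε : ℤˣ) {ι κ l : Type} [Fintype ι] [DecidableEq ι] [Fintype κ] [DecidableEq κ]
    [Fintype l] [DecidableEq l] {Ψ : Matrix ι ι A} {Φ : Matrix κ κ A} (Θ : Matrix l l A)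
    (h1 : Isometric ε Ψ Φ) : Isometric ε (fromBlocks Θ 0 0 Ψ) (fromBlocks Θ 0 0 Φ) :=
  iso_trans ε (iso_comm ε _ _) (iso_trans ε (iso_sum ε Θ h1) (iso_comm ε _ _))

end EMVAux

/-- **EMV**: the E-move. -/
theorem specEmv : SpecEMV := by
  intro A _ _ ε n r ψ m' χ p ⟨m, k, h⟩
  refine ⟨r + m, n + k, ?_⟩
  have s1 := EMVAux.iso_sum' ε (UF (pᴴ * ψ * p) (m' * p) χ)
    (EMVAux.iso_symm ε (EMVAux.hyp_sum (A := A) ε r m))
  have s2 := EMVAux.iso_assoc ε (UF (pᴴ * ψ * p) (m' * p) χ) (hyp (Fin r) A) (hyp (Fin m) A)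
  have s3 := EMVAux.iso_sum ε (hyp (Fin m) A) (EMVAux.main_iso ε n r ψ m' χ p)
  have s4 := EMVAux.iso_symm ε (EMVAux.iso_assoc ε (hyp (Fin n) A)
    (UF ψ (p * m') (p * χ * pᴴ)) (hyp (Fin m) A))
  have s5 := EMVAux.iso_sum' ε (hyp (Fin n) A) h
  have s6 := EMVAux.hyp_sum (A := A) ε n k
  exact EMVAux.iso_trans ε s1 (EMVAux.iso_trans ε s2 (EMVAux.iso_trans ε s3
    (EMVAux.iso_trans ε s4 (EMVAux.iso_trans ε s5 s6))))

end Pool.Agent.Lib.MPb6f35e.TT.UV

/-! ## Module UV/TRE -/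

/-! Module TRE: the ping-pong data of an edge of a tree. -/

namespace Pool.Agent.Lib.MPb6f35e.TT.UV

open Matrix

namespace TREAux

variable {G V : Type} [Group G] [MulAction G V] {T : SimpleGraph V}

/-- The branch at `x` through `y`. -/
def Br (T : SimpleGraph V) (x y : V) : Set V := {u | T.dist u y < T.dist u x}

theorem mem_Br {x y u : V} : u ∈ Br T x y ↔ T.dist u y < T.dist u x := Iff.rfl

theorem dist_smul_le (hT : T.IsTree) (hG : ∀ (g : G) (x y : V), T.Adj x y → T.Adj (g • x) (g • y))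
    (g : G) (x y : V) : T.dist (g • x) (g • y) ≤ T.dist x y := by
  obtain ⟨p, hp⟩ := hT.connected.exists_walk_length_eq_dist x y
  let f : T →g T := ⟨fun x => g • x, fun {a b} h => hG g a b h⟩
  have := SimpleGraph.dist_le (p.map f)
  rw [SimpleGraph.Walk.length_map, hp] at this
  exact this

theorem dist_smul (hT : T.IsTree) (hG : ∀ (g : G) (x y : V), T.Adj x y → T.Adj (g • x) (g • y))
    (g : G) (x y : V) : T.dist (g • x) (g • y) = T.dist x y := by
  apply le_antisymm (dist_smul_le hT hG g x y)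
  have := dist_smul_le hT hG g⁻¹ (g • x) (g • y)
  simpa using this

theorem br_unique (hT : T.IsTree) {x y y' u : V} (h : T.Adj x y) (h' : T.Adj x y')
    (hy : u ∈ Br T x y) (hy' : u ∈ Br T x y') : y = y' := by
  rw [mem_Br] at hy hy'
  have key : ∀ z, T.Adj x z → T.dist u z < T.dist u x →
      ∃ (hz : T.Adj x z) (q : T.Walk z u), (SimpleGraph.Walk.cons hz q).IsPath := by
    intro z hz hlt
    obtain ⟨q, hq⟩ := hT.connected.exists_walk_length_eq_dist z u
    refine ⟨hz, q, ?_⟩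
    apply SimpleGraph.Walk.isPath_of_length_eq_dist
    rw [SimpleGraph.Walk.length_cons, hq]
    have h1 := hT.dist_eq_dist_add_one_of_adj u hz
    rw [T.dist_comm (u := z), T.dist_comm (u := x)]
    omega
  obtain ⟨h1, q1, p1⟩ := key y h hy
  obtain ⟨h2, q2, p2⟩ := key y' h' hy'
  have := (hT.isAcyclic.subsingleton_path x u).elim ⟨_, p1⟩ ⟨_, p2⟩
  have e : SimpleGraph.Walk.cons h1 q1 = SimpleGraph.Walk.cons h2 q2 := congrArg Subtype.val this
  have := congrArg SimpleGraph.Walk.snd e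
  simpa using this

theorem br_or (hT : T.IsTree) {x y : V} (h : T.Adj x y) (u : V) :
    u ∈ Br T x y ∨ u ∈ Br T y x := by
  rw [mem_Br, mem_Br]
  have := hT.dist_ne_of_adj u h
  omega

theorem br_sub (hT : T.IsTree) {x y y' : V} (h : T.Adj x y) (h' : T.Adj x y') (hne : y' ≠ y) :
    Br T x y' ⊆ Br T y x := by
  intro u hu
  rcases br_or hT h u with h1 | h1
  · exact absurd (br_unique hT h' h hu h1) hne
  · exact h1

theorem mem_self {x y : V} (h : T.Adj x y) : y ∈ Br T x y := by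
  rw [mem_Br, SimpleGraph.dist_self, SimpleGraph.dist_comm, SimpleGraph.dist_eq_one_iff_adj.mpr h]
  exact one_pos

theorem not_mem (x y : V) : x ∉ Br T x y := by
  rw [mem_Br, SimpleGraph.dist_self]
  exact Nat.not_lt_zero _

theorem smul_Br (hT : T.IsTree) (hG : ∀ (g : G) (x y : V), T.Adj x y → T.Adj (g • x) (g • y))
    (g : G) {x y u : V} (h : u ∈ Br T x y) : g • u ∈ Br T (g • x) (g • y) := by
  rw [mem_Br, dist_smul hT hG, dist_smul hT hG]
  exact h

/-- The set `Y`. -/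
def YY (G : Type) {V : Type} [Group G] [MulAction G V] (T : SimpleGraph V) (v w : V) : Set G :=
  {g | g • w ∈ Br T v w ∧ (g • v ∈ Br T v w ∨ g • v = v)}

section
variable {v w : V}

theorem YY_one (h : T.Adj v w) : (1 : G) ∈ YY G T v w := by
  refine ⟨?_, Or.inr ?_⟩
  · rw [one_smul]; exact mem_self h
  · rw [one_smul]

theorem YY_mul (hT : T.IsTree) (hG : ∀ (g : G) (x y : V), T.Adj x y → T.Adj (g • x) (g • y))
    {h : G} (hv : h • v = v) (hw : h • w = w) {y : G} (hy : y ∈ YY G T v w) :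
    h * y ∈ YY G T v w := by
  obtain ⟨h1, h2⟩ := hy
  refine ⟨?_, ?_⟩
  · have := smul_Br hT hG h h1
    rwa [hv, hw, smul_smul] at this
  · rcases h2 with h2 | h2
    · left
      have := smul_Br hT hG h h2
      rwa [hv, hw, smul_smul] at this
    · right
      rw [mul_smul, h2, hv]

theorem F_Y (hT : T.IsTree) (hG : ∀ (g : G) (x y : V), T.Adj x y → T.Adj (g • x) (g • y))
    (ha : T.Adj v w) {x y : G} (hx : x • v = v ∧ x • w ≠ w) (hy : y ∈ YY G T v w) :
    x * y ∈ YY G T w v := by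
  obtain ⟨hx1, hx2⟩ := hx
  obtain ⟨h1, h2⟩ := hy
  have hau : T.Adj v (x • w) := by
    have := hG x v w ha
    rwa [hx1] at this
  have hsub : Br T v (x • w) ⊆ Br T w v := br_sub hT ha hau hx2
  have e1 : (x * y) • w ∈ Br T w v := by
    have := smul_Br hT hG x h1
    rw [hx1, smul_smul] at this
    exact hsub this
  refine ⟨?_, Or.inl e1⟩
  rcases h2 with h2 | h2
  · have := smul_Br hT hG x h2
    rw [hx1, smul_smul] at this
    exact hsub this
  · rw [mul_smul, h2, hx1]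
    exact mem_self ha.symm

theorem M_Y (hT : T.IsTree) (hG : ∀ (g : G) (x y : V), T.Adj x y → T.Adj (g • x) (g • y))
    (ha : T.Adj v w) {x y : G} (hx : x • v = w) (hx2 : x • w ≠ v) (hy : y ∈ YY G T v w) :
    x * y ∈ YY G T v w := by
  obtain ⟨h1, h2⟩ := hy
  have hau : T.Adj w (x • w) := by
    have := hG x v w ha
    rwa [hx] at this
  have hsub : Br T w (x • w) ⊆ Br T v w := br_sub hT ha.symm hau hx2
  refine ⟨?_, ?_⟩
  · have := smul_Br hT hG x h1
    rw [hx, smul_smul] at this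
    exact hsub this
  · left
    rcases h2 with h2 | h2
    · have := smul_Br hT hG x h2
      rw [hx, smul_smul] at this
      exact hsub this
    · rw [mul_smul, h2, hx]
      exact mem_self ha

theorem d_ne (hT : T.IsTree) (hG : ∀ (g : G) (x y : V), T.Adj x y → T.Adj (g • x) (g • y))
    (ha : T.Adj v w) (hinv : ∀ g : G, ¬ (g • v = w ∧ g • w = v)) {x y x' y' : G}
    (hx : x • w = w) (hy : y ∈ YY G T w v) (hx' : x' • v = w) (hy' : y' ∈ YY G T v w) :
    x * y ≠ x' * y' := by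
  intro e
  obtain ⟨h1, h2⟩ := hy
  obtain ⟨h1', _⟩ := hy'
  have a1 : T.Adj w (x • v) := by
    have := hG x w v ha.symm
    rwa [hx] at this
  have a2 : T.Adj w (x' • w) := by
    have := hG x' v w ha
    rwa [hx'] at this
  have e2 : (x' * y') • w ∈ Br T w (x' • w) := by
    have := smul_Br hT hG x' h1'
    rwa [hx', smul_smul] at this
  rw [← e] at e2
  have e1 : (x * y) • w ∈ Br T w (x • v) := by
    rcases h2 with h2 | h2
    · have := smul_Br hT hG x h2
      rwa [hx, smul_smul] at this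
    · exfalso
      rw [mul_smul, h2, hx] at e2
      exact not_mem _ _ e2
  have e3 : x • v = x' • w := br_unique hT a1 a2 e1 e2
  apply hinv (x⁻¹ * x')
  refine ⟨?_, ?_⟩
  · rw [mul_smul, hx', inv_smul_eq_iff, hx]
  · rw [mul_smul, inv_smul_eq_iff, e3]

theorem u_F (hT : T.IsTree) (hG : ∀ (g : G) (x y : V), T.Adj x y → T.Adj (g • x) (g • y))
    (ha : T.Adj v w) {c : V} {x y x' y' : G}
    (hx : x • v = c) (hy : y ∈ YY G T v w) (hx' : x' • v = c) (hy' : y' ∈ YY G T v w)
    (e : x * y = x' * y') : (x⁻¹ * x') • v = v ∧ (x⁻¹ * x') • w = w := by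
  obtain ⟨h1, _⟩ := hy
  obtain ⟨h1', _⟩ := hy'
  have a1 : T.Adj c (x • w) := by
    have := hG x v w ha
    rwa [hx] at this
  have a2 : T.Adj c (x' • w) := by
    have := hG x' v w ha
    rwa [hx'] at this
  have e1 : (x * y) • w ∈ Br T c (x • w) := by
    have := smul_Br hT hG x h1
    rwa [hx, smul_smul] at this
  have e2 : (x' * y') • w ∈ Br T c (x' • w) := by
    have := smul_Br hT hG x' h1'
    rwa [hx', smul_smul] at this
  rw [← e] at e2
  have e3 : x • w = x' • w := br_unique hT a1 a2 e1 e2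
  refine ⟨?_, ?_⟩
  · rw [mul_smul, hx', inv_smul_eq_iff, hx]
  · rw [mul_smul, inv_smul_eq_iff, e3]

end

end TREAux

open TREAux in
theorem specTRE : SpecTRE := by
  intro G V _ _ T v w hT hG ha hinv
  have hinv' : ∀ g : G, ¬ (g • w = v ∧ g • v = w) := fun g h => hinv g ⟨h.2, h.1⟩
  refine ⟨YY G T v w, YY G T w v, ?_⟩
  have memH : ∀ h : G, h ∈ (MulAction.stabilizer G v ⊓ MulAction.stabilizer G w) ↔
      h • v = v ∧ h • w = w := fun h => by
    rw [Subgroup.mem_inf, MulAction.mem_stabilizer_iff, MulAction.mem_stabilizer_iff]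
  have memX : ∀ x : G, x ∈ Xinv {g : G | g • v = w} ↔ x • w = v := fun x => by
    change x⁻¹ • v = w ↔ x • w = v
    rw [inv_smul_eq_iff]
    exact eq_comm
  constructor
  · -- X1l
    intro h hh x hx
    rw [memH] at hh
    refine ⟨by rw [mul_smul, hx.1, hh.1], fun e => hx.2 ?_⟩
    rw [mul_smul] at e
    have := congrArg (fun z => h⁻¹ • z) e
    simp only [inv_smul_smul] at this
    rw [this, inv_smul_eq_iff, hh.2]
  · -- X1r
    intro h hh x hx
    rw [memH] at hh
    exact ⟨by rw [mul_smul, hh.1, hx.1], by rw [mul_smul, hh.2]; exact hx.2⟩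
  · -- X1i
    intro x hx
    exact ⟨by rw [inv_smul_eq_iff, hx.1], fun e => hx.2 (by rw [inv_smul_eq_iff] at e; exact e.symm)⟩
  · intro h hh x hx
    rw [memH] at hh
    refine ⟨by rw [mul_smul, hx.1, hh.2], fun e => hx.2 ?_⟩
    rw [mul_smul] at e
    have := congrArg (fun z => h⁻¹ • z) e
    simp only [inv_smul_smul] at this
    rw [this, inv_smul_eq_iff, hh.1]
  · intro h hh x hx
    rw [memH] at hh
    exact ⟨by rw [mul_smul, hh.2, hx.1], by rw [mul_smul, hh.1]; exact hx.2⟩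
  · intro x hx
    exact ⟨by rw [inv_smul_eq_iff, hx.1], fun e => hx.2 (by rw [inv_smul_eq_iff] at e; exact e.symm)⟩
  · -- X3l
    intro h hh x hx
    rw [memH] at hh
    change (h * x) • v = w
    rw [mul_smul, show x • v = w from hx, hh.2]
  · intro h hh x hx
    rw [memH] at hh
    change (x * h) • v = w
    rw [mul_smul, hh.1]
    exact hx
  · exact YY_one ha
  · exact YY_one ha.symm
  · intro h hh y hy
    rw [memH] at hh
    exact YY_mul hT hG hh.1 hh.2 hy
  · intro h hh y hy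
    rw [memH] at hh
    exact YY_mul hT hG hh.2 hh.1 hy
  · intro x hx y hy
    exact F_Y hT hG ha hx hy
  · intro x hx y hy
    exact F_Y hT hG ha.symm hx hy
  · intro x hx y hy
    exact M_Y hT hG ha hx (fun e => hinv x ⟨hx, e⟩) hy
  · intro x hx y hy
    rw [memX] at hx
    exact M_Y hT hG ha.symm hx (fun e => hinv x ⟨e, hx⟩) hy
  · -- d23
    intro x hx y hy x' hx' y' hy'
    exact d_ne hT hG ha hinv hx.1 hy hx' hy'
  · intro x hx y hy x' hx' y' hy'
    rw [memX] at hx'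
    exact d_ne hT hG ha.symm hinv' hx.1 hy hx' hy'
  · intro x hx x' hx' y hy y' hy' e
    rw [memH]
    exact u_F hT hG ha hx.1 hy hx'.1 hy' e
  · intro x hx x' hx' y hy y' hy' e
    rw [memH]
    exact (u_F hT hG ha.symm hx.1 hy hx'.1 hy' e).symm
  · intro x hx x' hx' y hy y' hy' e
    rw [memH]
    exact u_F hT hG ha hx hy hx' hy' e
  · intro x hx x' hx' y hy y' hy' e
    rw [memX] at hx hx'
    rw [memH]
    exact (u_F hT hG ha.symm hx hy hx' hy' e).symm

end Pool.Agent.Lib.MPb6f35e.TT.UV
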