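import Pool.Agent.Lib.MP_b6f35e_al.TT.R1
import Pool.Agent.Lib.MP_b6f35e_al.TT.U1
import Pool.Agent.Lib.MP_b6f35e_al.TT.U2

/-! # Modules for Theorem DT (MP_b6f35e_al, Q2): one flip, part 2 (copies of modules of MP_8a3537_gt, without the
conditions on elements of order two) -/

/-! ## Module RO/KNA -/

/-!
# RO, module KNA: nilpotency
-/

namespace Pool.Agent.Lib.MPb6f35e.TT.RO

open Matrix Pool.Agent.Lib.MPb6f35e.TT.UV Pool.Agent.Lib.MPb6f35e.TT.AU

namespace KNAAux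

variable {A : Type} [Ring A]

theorem blk_mul {n : ℕ} (M M' : Matrix (Fin n ⊕ Fin n) (Fin n ⊕ Fin n) A) (s t : Bool) :
    blk (M * M') s t = blk M s true * blk M' true t + blk M s false * blk M' false t := by
  ext i j
  simp only [blk, Matrix.submatrix_apply, Matrix.mul_apply, Fintype.sum_sum_type, Matrix.add_apply,
    sd]

theorem blk_one_tf {n : ℕ} :
    blk (1 : Matrix (Fin n ⊕ Fin n) (Fin n ⊕ Fin n) A) true false = 0 := by
  ext i j
  simp [blk, sd, Matrix.one_apply]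

theorem blk_neg {n : ℕ} (M : Matrix (Fin n ⊕ Fin n) (Fin n ⊕ Fin n) A) (s t : Bool) :
    blk (-M) s t = -blk M s t := rfl

theorem blk_sum {n : ℕ} (N : Finset ℕ) (M : ℕ → Matrix (Fin n ⊕ Fin n) (Fin n ⊕ Fin n) A)
    (s t : Bool) : blk (∑ i ∈ N, M i) s t = ∑ i ∈ N, blk (M i) s t := by
  ext i j
  simp only [blk, Matrix.submatrix_apply, Matrix.sum_apply]

theorem blk_ext {n : ℕ} (M : Matrix (Fin n ⊕ Fin n) (Fin n ⊕ Fin n) A)
    (h : ∀ s t, blk M s t = 0) : M = 0 := by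
  ext i j
  rcases i with i | i <;> rcases j with j | j
  · exact congrFun (congrFun (h true true) i) j
  · exact congrFun (congrFun (h true false) i) j
  · exact congrFun (congrFun (h false true) i) j
  · exact congrFun (congrFun (h false false) i) j

variable [StarRing A] {n : ℕ}
  {E : ℕ → Bool → Bool → AddSubgroup (Matrix (Fin n) (Fin n) A)} {N : ℕ}

theorem blk_pow (hE : EFam E N) (M : Matrix (Fin n ⊕ Fin n) (Fin n ⊕ Fin n) A)
    (hM : ∀ s t, blk M s t ∈ E 1 s t) (i : ℕ) : ∀ s t, blk (M ^ (i + 1)) s t ∈ E (i + 1) s t := by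
  induction i with
  | zero =>
    intro s t
    rw [zero_add, pow_one]
    exact hM s t
  | succ i ih =>
    intro s t
    rw [pow_succ', blk_mul]
    have e : i + 1 + 1 = 1 + (i + 1) := by omega
    rw [e]
    exact (E _ s t).add_mem (hE.mul _ _ _ _ _ _ _ (hM s true) (ih true t))
      (hE.mul _ _ _ _ _ _ _ (hM s false) (ih false t))

theorem blk_nu (hE : EFam E N) (ε : ℤˣ) (a0 μ b : Matrix (Fin n) (Fin n) A)
    (ha : a0 ∈ E 1 false true) (hμ : μ ∈ E 1 true true) (hb : b ∈ E 1 true false) :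
    ∀ s t, blk (nu ε a0 μ b) s t ∈ E 1 s t := by
  intro s t
  cases s <;> cases t
  · have e : blk (nu ε a0 μ b) false false = μᴴ := rfl
    rw [e]
    exact hE.star 1 true true μ hμ
  · exact ha
  · have e : blk (nu ε a0 μ b) true false = (ε : ℤ) • b := rfl
    rw [e]
    exact (E 1 true false).zsmul_mem hb _
  · exact hμ

theorem mem_pow (hE : EFam E N) (V ac : Matrix (Fin n) (Fin n) A) (hV : V ∈ E 1 true false)
    (hac : ac ∈ E 1 false true) (l : ℕ) : (V * ac) ^ l * V ∈ E (2 * l + 1) true false := by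
  induction l with
  | zero =>
    rw [pow_zero, one_mul]
    exact hV
  | succ l ih =>
    have e : 2 * (l + 1) + 1 = (1 + 1) + (2 * l + 1) := by omega
    rw [e, pow_succ', Matrix.mul_assoc]
    exact hE.mul _ _ _ _ _ _ _ (hE.mul _ _ _ _ _ _ _ hV hac) ih

theorem pow_eq {r : ℕ} (Ξ : Matrix (Fin r) (Fin n) A) (α θ : Matrix (Fin r) (Fin r) A)
    (V ac : Matrix (Fin n) (Fin n) A) (h1 : Ξᴴ * α * Ξ = ac) (h2 : θ = -(Ξ * V * Ξᴴ)) (l : ℕ) :
    (θ * α) ^ l * θ = (-1 : ℤ) ^ (l + 1) • (Ξ * ((V * ac) ^ l * V) * Ξᴴ) := by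
  induction l with
  | zero =>
    rw [pow_zero, one_mul, pow_zero, one_mul, h2, zero_add, pow_one, neg_smul, one_smul]
  | succ l ih =>
    have e1 : (θ * α) ^ (l + 1) * θ = θ * α * ((θ * α) ^ l * θ) := by
      rw [pow_succ', Matrix.mul_assoc]
    have e2 : (V * ac) ^ (l + 1) * V = V * ac * ((V * ac) ^ l * V) := by
      rw [pow_succ', Matrix.mul_assoc]
    rw [e1, ih, e2, pow_succ (-1 : ℤ) (l + 1), mul_comm, mul_smul, ← Matrix.mul_smul]
    rw [h2, ← h1]
    simp only [Matrix.neg_mul, Matrix.mul_assoc, Matrix.mul_smul, neg_smul, one_smul, smul_neg]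

end KNAAux

open KNAAux in
theorem specKNA : SpecKNA := by
  intro A _ _ ε n r N E hE hN a0 ac μ b ha hac hμ hb
  have hnu := blk_nu hE ε a0 μ b ha hμ hb
  refine ⟨?_, ?_⟩
  · refine blk_ext _ fun s t => ?_
    have h := blk_pow hE _ hnu (N - 1) s t
    rw [Nat.sub_add_cancel hN] at h
    exact hE.zero s t _ h
  · intro Ξ α θ h1 h2
    have hneg : ∀ s t, blk (-(nu ε a0 μ b)) s t ∈ E 1 s t := fun s t => by
      rw [blk_neg]
      exact (E 1 s t).neg_mem (hnu s t)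
    have hW : blk (W0 N (nu ε a0 μ b)) true false ∈ E 1 true false := by
      unfold W0
      rw [blk_sum]
      refine (E 1 true false).sum_mem fun i _ => ?_
      rcases i with _ | i
      · rw [pow_zero, blk_one_tf]
        exact (E 1 true false).zero_mem
      · exact hE.mono 1 (i + 1) true false (by omega) (blk_pow hE _ hneg i true false)
    have hV : (blk (W0 N (nu ε a0 μ b)) true false)ᴴ ∈ E 1 true false :=
      hE.star 1 true false _ hW
    have h0 : (θ * α) ^ N * θ = 0 := by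
      rw [pow_eq Ξ α θ _ ac h1 h2 N]
      have h := hE.mono N (2 * N + 1) true false (by omega) (mem_pow hE _ ac hV hac N)
      rw [hE.zero _ _ _ h, Matrix.mul_zero, Matrix.zero_mul, smul_zero]
    have h3 : (θ * α) ^ (N + 1) = 0 := by
      rw [pow_succ, ← Matrix.mul_assoc, h0, Matrix.zero_mul]
    have h4 : ∀ l : ℕ, (α * θ) ^ (l + 1) = α * ((θ * α) ^ l * θ) := by
      intro l
      induction l with
      | zero => simp
      | succ l ih =>
        rw [pow_succ', ih, pow_succ' (θ * α) l]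
        simp only [Matrix.mul_assoc]
    have h5 : (α * θ) ^ (N + 1) = 0 := by
      rw [h4, h0, Matrix.mul_zero]
    refine ⟨2 * (N + 1), ?_⟩
    rw [pow_mul]
    have hsq : (nu ε α 0 θ) ^ 2 =
        fromBlocks ((ε : ℤ) • (θ * α)) 0 0 ((ε : ℤ) • (α * θ)) := by
      rw [sq]
      unfold nu
      rw [fromBlocks_multiply]
      simp only [Matrix.zero_mul, Matrix.mul_zero, zero_add, add_zero, conjTranspose_zero,
        Matrix.smul_mul, Matrix.mul_smul, smul_zero]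
    rw [hsq, fromBlocks_diagonal_pow, smul_pow, smul_pow, h3, h5, smul_zero]
    exact fromBlocks_zero

end Pool.Agent.Lib.MPb6f35e.TT.RO

/-! ## Module RO/KSP -/

/-!
# RO, module KSP (helper54): the supports of `κ`
-/

namespace Pool.Agent.Lib.MPb6f35e.TT.RO

open Matrix Pool.Agent.Lib.MPb6f35e.TT.UV Pool.Agent.Lib.MPb6f35e.TT.AU

namespace KSPAux

section

variable {R G : Type} [Ring R]

theorem supp_zero {m n : Type} (X : Set G) : SuppIn X (0 : Matrix m n (MonoidAlgebra R G)) := by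
  intro i j g hg
  exact absurd (by simp) hg

theorem blk_mul [Group G] {n : Type} [Fintype n]
    (M M' : Matrix (n ⊕ n) (n ⊕ n) (MonoidAlgebra R G)) (s t : Bool) :
    blk (M * M') s t = blk M s true * blk M' true t + blk M s false * blk M' false t := by
  ext1 i j
  simp only [blk, Matrix.submatrix_apply, Matrix.mul_apply, Matrix.add_apply,
    Fintype.sum_sum_type, sd]

/-- all blocks are supported in the sets `S s t`. -/
def Pr {n : Type} (S : Bool → Bool → Set G) (M : Matrix (n ⊕ n) (n ⊕ n) (MonoidAlgebra R G)) :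
    Prop := ∀ s t, SuppIn (S s t) (blk M s t)

variable [Group G] {n : Type} [Fintype n] [DecidableEq n] {S : Bool → Bool → Set G}

omit [Fintype n] [DecidableEq n] in
theorem pr_zero : Pr S (0 : Matrix (n ⊕ n) (n ⊕ n) (MonoidAlgebra R G)) := by
  intro s t
  have : blk (0 : Matrix (n ⊕ n) (n ⊕ n) (MonoidAlgebra R G)) s t = 0 := rfl
  rw [this]
  exact supp_zero _

omit [Fintype n] [DecidableEq n] in
theorem pr_add {M M' : Matrix (n ⊕ n) (n ⊕ n) (MonoidAlgebra R G)} (h : Pr S M) (h' : Pr S M') :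
    Pr S (M + M') := fun s t => INDAux.supp_add (h s t) (h' s t)

omit [Fintype n] [DecidableEq n] in
theorem pr_neg {M : Matrix (n ⊕ n) (n ⊕ n) (MonoidAlgebra R G)} (h : Pr S M) :
    Pr S (-M) := fun s t => INDAux.supp_neg (h s t)

omit [DecidableEq n] in
theorem pr_mul (hS : ∀ s r t, ∀ x ∈ S s r, ∀ y ∈ S r t, x * y ∈ S s t)
    {M M' : Matrix (n ⊕ n) (n ⊕ n) (MonoidAlgebra R G)} (h : Pr S M) (h' : Pr S M') :
    Pr S (M * M') := by
  intro s t
  rw [blk_mul]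
  exact INDAux.supp_add (INDAux.supp_mul (h s true) (h' true t) (hS s true t))
    (INDAux.supp_mul (h s false) (h' false t) (hS s false t))

omit [Fintype n] in
theorem pr_one (hS : ∀ s, (1 : G) ∈ S s s) :
    Pr S (1 : Matrix (n ⊕ n) (n ⊕ n) (MonoidAlgebra R G)) := by
  intro s t i j g hg
  simp only [blk, Matrix.submatrix_apply, Matrix.one_apply] at hg
  split_ifs at hg with h
  · have hst : s = t := by
      cases s <;> cases t <;> simp_all [sd]
    subst hst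
    have hg1 : g = 1 := by
      by_contra hc
      exact hg (NILAux.coeff_one_ne g hc)
    rw [hg1]
    exact hS s
  · exact absurd (by simp) hg

theorem pr_pow (h1 : ∀ s, (1 : G) ∈ S s s) (hS : ∀ s r t, ∀ x ∈ S s r, ∀ y ∈ S r t, x * y ∈ S s t)
    {M : Matrix (n ⊕ n) (n ⊕ n) (MonoidAlgebra R G)} (h : Pr S M) (k : ℕ) : Pr S (M ^ k) := by
  induction k with
  | zero => rw [pow_zero]; exact pr_one h1
  | succ k ih => rw [pow_succ]; exact pr_mul hS ih h

theorem pr_W0 [StarRing R] {n : ℕ} (h1 : ∀ s, (1 : G) ∈ S s s)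
    (hS : ∀ s r t, ∀ x ∈ S s r, ∀ y ∈ S r t, x * y ∈ S s t)
    {M : Matrix (Fin n ⊕ Fin n) (Fin n ⊕ Fin n) (MonoidAlgebra R G)} (h : Pr S M) (N : ℕ) :
    Pr S (W0 N M) := by
  unfold W0
  exact Finset.sum_induction _ (Pr S) (fun _ _ => pr_add) pr_zero
    (fun i _ => pr_pow h1 hS (pr_neg h) i)

end

end KSPAux

open KSPAux in
/-- **KSP**. -/
theorem specKSP (hWDA : SpecWDA) : SpecKSP := by
  intro R G _ _ _ H X1 X2 X3 Yp Ym X1' hSub ε n r N ψ μ χ Ξ hψ hμ hχ hΞ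
  obtain ⟨-, hmul, hinv, -, hlet⟩ := hWDA G H X1 X2 X3 Yp Ym X1' hSub
  set S : Bool → Bool → Set G := fun s t => WS H X1' X2 X3 s t with hSdef
  have Smul : ∀ s r t, ∀ x ∈ S s r, ∀ y ∈ S r t, x * y ∈ S s t := by
    rintro s r t x ⟨k, hk⟩ y ⟨l, hl⟩
    exact ⟨k + l, hmul k l s r t x y hk hl⟩
  have SH : ∀ s, ∀ x ∈ (H : Set G), x ∈ S s s := fun s x hx => ⟨0, Wd.base hx⟩
  have S1 : ∀ s, (1 : G) ∈ S s s := fun s => SH s 1 H.one_mem
  have Slet : ∀ s t, ∀ x ∈ XX X1' X2 X3 s t, x ∈ S s t := fun s t x hx =>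
    ⟨1, (hlet s t x hx).1⟩
  have Sinv : ∀ s t, ∀ x ∈ S s t, x⁻¹ ∈ S (!t) (!s) := by
    rintro s t x ⟨k, hk⟩
    exact ⟨k, hinv k s t x hk⟩
  -- the letters
  have hψS : SuppIn (S false true) ψ := NILAux.supp_mono hψ (Slet false true)
  have hχS : SuppIn (S true false) χ := NILAux.supp_mono hχ (Slet true false)
  have hμS : SuppIn (S true true) μ := NILAux.supp_mono hμ (Slet true true)
  have hμS' : SuppIn (S false false) μᴴ := INDAux.supp_star hμS (Sinv true true)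
  have ha : SuppIn (S false true) (ψ + (ε : ℤ) • ψᴴ) :=
    INDAux.supp_add hψS (INDAux.supp_units ε (INDAux.supp_star hψS (Sinv false true)))
  have hb : SuppIn (S true false) (χ + (ε : ℤ) • χᴴ) :=
    INDAux.supp_add hχS (INDAux.supp_units ε (INDAux.supp_star hχS (Sinv true false)))
  have hν : Pr S (nu ε (ψ + (ε : ℤ) • ψᴴ) μ (χ + (ε : ℤ) • χᴴ)) := by
    intro s t
    cases s <;> cases t
    · exact hμS'
    · exact ha
    · exact INDAux.supp_units ε hb
    · exact hμS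
  have hw := pr_W0 S1 Smul hν N
  set w := W0 N (nu ε (ψ + (ε : ℤ) • ψᴴ) μ (χ + (ε : ℤ) • χᴴ)) with hwdef
  have hΞS : SuppIn (S false false) Ξᴴ :=
    INDAux.supp_star hΞ fun x hx => SH false _ (H.inv_mem hx)
  have hz1 : SuppIn (S true false) (blk w true false * Ξᴴ) :=
    INDAux.supp_mul (hw true false) hΞS (Smul true false false)
  have hz2 : SuppIn (S false false) (blk w false false * Ξᴴ) :=
    INDAux.supp_mul (hw false false) hΞS (Smul false false false)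
  have hz1' : SuppIn (S true false) (blk w true false * Ξᴴ)ᴴ :=
    INDAux.supp_star hz1 (Sinv true false)
  have hz2' : SuppIn (S true true) (blk w false false * Ξᴴ)ᴴ :=
    INDAux.supp_star hz2 (Sinv false false)
  have hone : SuppIn (S false false) (1 : Matrix (Fin n) (Fin n) (MonoidAlgebra R G)) := by
    intro i j g hg
    rw [Matrix.one_apply] at hg
    split_ifs at hg with h
    · have hg1 : g = 1 := by
        by_contra hc
        exact hg (NILAux.coeff_one_ne g hc)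
      rw [hg1]
      exact S1 false
    · exact absurd (by simp) hg
  unfold kap
  refine INDAux.supp_neg (INDAux.supp_add (INDAux.supp_add ?_ ?_) ?_)
  · exact INDAux.supp_mul (INDAux.supp_mul hz1' hψS (Smul true false true)) hz1
      (Smul true true false)
  · exact INDAux.supp_mul (INDAux.supp_mul hz1' (INDAux.supp_add hone hμS')
      (Smul true false false)) hz2 (Smul true false false)
  · exact INDAux.supp_mul (INDAux.supp_mul hz2' hχS (Smul true true false)) hz2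
      (Smul true false false)

end Pool.Agent.Lib.MPb6f35e.TT.RO

/-! ## Module RO/NWC -/

/-!
# RO, module NWC (helper12): Newton iteration
-/

namespace Pool.Agent.Lib.MPb6f35e.TT.RO

open Matrix Pool.Agent.Lib.MPb6f35e.TT.UV Pool.Agent.Lib.MPb6f35e.TT.AU
open Pool.Agent.Lib.MPb6f35e.TT.UV.SWPAux

namespace NWCM

variable {A : Type} [Ring A] [StarRing A] {ε : ℤˣ} {n : ℕ}

theorem base (m q : Matrix (Fin n) (Fin n) A) (hm : IsUnit (1 + m)) :
    StablyHyperbolic ε (fromBlocks 0 (1 + m) 0 q) := by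
  obtain ⟨⟨a, w, h1, h2⟩, ha⟩ := hm
  simp only at ha
  subst ha
  refine stab_of_isom (Φ := UF (0 : Matrix (Fin n) (Fin n) A) 0 0) ?_ (trivial_form n)
  refine ⟨fromBlocks 1 (-(wᴴ * q * w)ᴴ) 0 w, fromBlocks 1 ((wᴴ * q * w)ᴴ * (1 + m)) 0 (1 + m), 0, ?_, ?_, ?_⟩
  · rw [fromBlocks_multiply]
    simp [h2, fromBlocks_one]
  · rw [fromBlocks_multiply]
    simp [h1, Matrix.mul_assoc, fromBlocks_one]
  · unfold UF
    rw [fromBlocks_conjTranspose, fromBlocks_multiply, fromBlocks_multiply]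
    simp only [Matrix.conjTranspose_one, Matrix.conjTranspose_zero, Matrix.conjTranspose_neg,
      Matrix.conjTranspose_conjTranspose, Matrix.mul_zero, Matrix.zero_mul, Matrix.mul_one, Matrix.one_mul,
      add_zero, zero_add, smul_zero, sub_zero, h1, Matrix.neg_mul]
    congr 1
    simp [Matrix.mul_assoc, h2]

theorem step (p m q : Matrix (Fin n) (Fin n) A) :
    Isometric ε (fromBlocks p (1 + m) 0 q)
      (fromBlocks (-(m * p) + pᴴ * q * p) (1 + (m - pᴴ * q - (ε : ℤ) • (pᴴ * qᴴ))) 0 q) := by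
  refine ⟨fromBlocks 1 0 (-p) 1, fromBlocks 1 0 p 1, fromBlocks 0 0 (q * p) 0, ?_, ?_, ?_⟩
  · rw [fromBlocks_multiply]
    simp [fromBlocks_one]
  · rw [fromBlocks_multiply]
    simp [fromBlocks_one]
  · rw [fromBlocks_conjTranspose, fromBlocks_conjTranspose, fromBlocks_multiply, fromBlocks_multiply,
      fromBlocks_smul, fromBlocks_add, eq_sub_iff_add_eq, fromBlocks_add]
    simp only [Matrix.conjTranspose_one, Matrix.conjTranspose_zero, Matrix.conjTranspose_neg,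
      Matrix.conjTranspose_mul, Matrix.mul_zero, Matrix.zero_mul, Matrix.mul_one, Matrix.one_mul,
      add_zero, zero_add, smul_zero, Matrix.neg_mul, Matrix.mul_neg, Matrix.add_mul,
      Matrix.mul_add, Matrix.mul_assoc]
    congr 1
    · abel
    · abel
    · abel

theorem pow_mem {E : ℕ → Bool → Bool → AddSubgroup (Matrix (Fin n) (Fin n) A)} {N : ℕ} (hE : EFam E N)
    {m : Matrix (Fin n) (Fin n) A} (hm : m ∈ E 1 false false) (i : ℕ) : m ^ (i + 1) ∈ E (i + 1) false false := by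
  induction i with
  | zero => simpa using hm
  | succ i ih =>
    rw [pow_succ]
    exact hE.mul (i + 1) 1 false false false _ _ ih hm

theorem main {E : ℕ → Bool → Bool → AddSubgroup (Matrix (Fin n) (Fin n) A)} {N : ℕ} (hE : EFam E N) (d : ℕ) :
    ∀ k : ℕ, 1 ≤ k → N ≤ k + d → ∀ p ∈ E k false true, ∀ m ∈ E 1 false false, ∀ q ∈ E 1 true false,
      StablyHyperbolic ε (fromBlocks p (1 + m) 0 q) := by
  induction d with
  | zero =>
    intro k _ hkN p hp m hm q _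
    have hp0 : p = 0 := hE.zero _ _ p (hE.mono N k false true (by omega) hp)
    have hnil : IsNilpotent m := by
      refine ⟨N + 1, hE.zero false false _ ?_⟩
      exact hE.mono N (N + 1) false false (by omega) (pow_mem hE hm N)
    rw [hp0]
    exact base m q hnil.isUnit_one_add
  | succ d ih =>
    intro k hk hkN p hp m hm q hq
    refine stab_of_isom (step p m q) ?_
    have hps : pᴴ ∈ E k false true := by simpa using hE.star k false true p hp
    have hqs : qᴴ ∈ E 1 true false := by simpa using hE.star 1 true false q hq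
    have h1 : m * p ∈ E (1 + k) false true := hE.mul 1 k false false true m p hm hp
    have h2 : pᴴ * q ∈ E (k + 1) false false := hE.mul k 1 false true false _ _ hps hq
    have h3 : pᴴ * qᴴ ∈ E (k + 1) false false := hE.mul k 1 false true false _ _ hps hqs
    have h4 : pᴴ * q * p ∈ E (k + 1 + k) false true := hE.mul (k + 1) k false false true _ _ h2 hp
    refine ih (k + 1) (by omega) (by omega) _ ?_ _ ?_ q hq
    · refine add_mem (neg_mem ?_) (hE.mono (k + 1) (k + 1 + k) false true (by omega) h4)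
      rw [add_comm k 1]
      exact h1
    · have h2' := hE.mono 1 (k + 1) false false (by omega) h2
      have h3' := hE.mono 1 (k + 1) false false (by omega) h3
      exact sub_mem (sub_mem hm h2') (AddSubgroup.zsmul_mem _ h3' _)

end NWCM

theorem specNWC : SpecNWC := by
  intro A _ _ ε n N E hE p hp m hm q hq
  exact NWCM.main hE N 1 le_rfl (by omega) p hp m hm q hq

end Pool.Agent.Lib.MPb6f35e.TT.RO

/-! ## Module RO/NWT -/

/-!
# RO, module NWT: no flips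
-/

namespace Pool.Agent.Lib.MPb6f35e.TT.RO

open Matrix Pool.Agent.Lib.MPb6f35e.TT.UV Pool.Agent.Lib.MPb6f35e.TT.AU

namespace NWTAux

variable {R G : Type} [Ring R] [StarRing R] [Group G]

theorem flip_inv {H : Subgroup G} {x : G} (h : Flip H x) : Flip H x⁻¹ := by
  obtain ⟨a, ha, b, hb, hx⟩ := h
  refine ⟨a⁻¹, H.inv_mem ha, b⁻¹, H.inv_mem hb, ?_⟩
  rw [inv_inv, hx]
  group

theorem coeff_sym {n : ℕ} (ε : ℤ) (ψ : Matrix (Fin n) (Fin n) (MonoidAlgebra R G))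
    (i j : Fin n) (x : G) :
    ((ψ + ε • ψᴴ) i j).coeff x = (ψ i j).coeff x + ε • star ((ψ j i).coeff x⁻¹) := by
  rw [Matrix.add_apply, Matrix.smul_apply, Matrix.conjTranspose_apply, MonoidAlgebra.coeff_add,
    Finsupp.add_apply, TATAux.coeff_smul_star]

theorem sym_symm {A : Type} [Ring A] [StarRing A] {n : ℕ} (ε : ℤˣ) (ψ : Matrix (Fin n) (Fin n) A) :
    ψ + (ε : ℤ) • ψᴴ = (ε : ℤ) • (ψ + (ε : ℤ) • ψᴴ)ᴴ := by
  rcases Int.units_eq_one_or ε with h | h
  · simp [h, add_comm]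
  · simp [h, add_comm]

/-- One of the two sides. -/
theorem side (hHLF : SpecHLF) {H : Subgroup G} {X : Set G} (hi : ∀ x ∈ X, x⁻¹ ∈ X)
    (hn : ∀ x ∈ X, x⁻¹ ≠ x) (ε : ℤˣ) {n : ℕ} (ψ : Matrix (Fin n) (Fin n) (MonoidAlgebra R G))
    (hψ : SuppIn X ψ) (hf : ∀ i j x, (ψ i j).coeff x ≠ 0 → ¬ Flip H x) :
    SuppIn X (ψ + (ε : ℤ) • ψᴴ) ∧ ∃ c : Set G, Bi H c ∧
      ∃ c0 : Matrix (Fin n) (Fin n) (MonoidAlgebra R G),
        ψ = cutM c (ψ + (ε : ℤ) • ψᴴ) + c0 - (ε : ℤ) • c0ᴴ := by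
  have key : ∀ i j x, ((ψ + (ε : ℤ) • ψᴴ) i j).coeff x ≠ 0 →
      (ψ i j).coeff x ≠ 0 ∨ (ψ j i).coeff x⁻¹ ≠ 0 := by
    intro i j x h
    by_contra hc
    push Not at hc
    apply h
    rw [coeff_sym, hc.1, hc.2, star_zero, smul_zero, add_zero]
  have h1 : SuppIn X (ψ + (ε : ℤ) • ψᴴ) := by
    intro i j x h
    rcases key i j x h with h2 | h2
    · exact hψ i j x h2
    · have h3 := hi _ (hψ j i x⁻¹ h2)
      rwa [inv_inv] at h3
  refine ⟨h1, ?_⟩
  have h2 : ∀ i j x, ((ψ + (ε : ℤ) • ψᴴ) i j).coeff x ≠ 0 → ¬ Flip H x := by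
    intro i j x h
    rcases key i j x h with h3 | h3
    · exact hf i j x h3
    · exact fun h4 => hf j i x⁻¹ h3 (flip_inv h4)
  obtain ⟨c, hc, hac⟩ := hHLF R G H ε n (ψ + (ε : ℤ) • ψᴴ) (sym_symm ε ψ) h2
  refine ⟨c, hc, ?_⟩
  have h3 : SuppIn X (ψ - cutM c (ψ + (ε : ℤ) • ψᴴ)) := by
    intro i j x h
    by_contra hx
    apply h
    have h4 : (ψ i j).coeff x = 0 := by
      by_contra h5
      exact hx (hψ i j x h5)
    have h6 : ((ψ + (ε : ℤ) • ψᴴ) i j).coeff x = 0 := by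
      by_contra h5
      exact hx (h1 i j x h5)
    rw [Matrix.sub_apply, MonoidAlgebra.coeff_sub, Finsupp.sub_apply, h4]
    unfold cutM
    rw [Matrix.map_apply, cut_coeff, h6, ite_self, sub_zero]
  have h4 : ψ - cutM c (ψ + (ε : ℤ) • ψᴴ) =
      ((-ε : ℤˣ) : ℤ) • (ψ - cutM c (ψ + (ε : ℤ) • ψᴴ))ᴴ := by
    rw [Units.val_neg, neg_smul, conjTranspose_sub, smul_sub, neg_sub]
    rw [sub_eq_sub_iff_add_eq_add, add_comm ((ε : ℤ) • (cutM c (ψ + (ε : ℤ) • ψᴴ))ᴴ), ← hac]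
  obtain ⟨c0, -, hc0⟩ := specTat R G X (-ε) n _ hi hn h3 h4
  refine ⟨c0, ?_⟩
  rw [Units.val_neg, neg_smul, ← sub_eq_add_neg] at hc0
  rw [add_sub_assoc, ← hc0]
  abel

theorem cutM_zsmul {n : ℕ} (c : Set G) (ε : ℤ) (b : Matrix (Fin n) (Fin n) (MonoidAlgebra R G)) :
    cutM c (ε • b) = ε • cutM c b := by
  classical
  unfold cutM
  ext i j x
  rw [Matrix.map_apply, Matrix.smul_apply, Matrix.smul_apply, Matrix.map_apply, cut_coeff,
    MonoidAlgebra.coeff_smul, MonoidAlgebra.coeff_smul, Finsupp.smul_apply, Finsupp.smul_apply,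
    cut_coeff]
  split_ifs
  · rfl
  · rw [smul_zero]

end NWTAux

end Pool.Agent.Lib.MPb6f35e.TT.RO

/-! ## Module RO/SCH -/

/-! # RO, module SCH: elimination -/

namespace Pool.Agent.Lib.MPb6f35e.TT.RO

open Matrix Pool.Agent.Lib.MPb6f35e.TT.UV

namespace SCHM

variable {A : Type} [Ring A] [StarRing A]

theorem isoC (ε : ℤˣ) {M P : Type} [Fintype M] [DecidableEq M] [Fintype P] [DecidableEq P]
    (Λ : Matrix M M A) (B : Matrix M P A) (K : Matrix P P A) (C : Matrix P M A)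
    (Z Φ : Matrix (M ⊕ P) (M ⊕ P) A)
    (h : Φ = fromBlocks (Λ + B * C + Cᴴ * (K * C)) (B + Cᴴ * K) (K * C) K + Z - (ε : ℤ) • Zᴴ) :
    Isometric ε (fromBlocks Λ B 0 K) Φ := by
  refine ⟨fromBlocks 1 0 C 1, fromBlocks 1 0 (-C) 1, Z, ?_, ?_, ?_⟩
  · rw [fromBlocks_multiply]; simp
  · rw [fromBlocks_multiply]; simp
  · rw [h, fromBlocks_conjTranspose, Matrix.mul_assoc, fromBlocks_multiply, fromBlocks_multiply]
    simp

theorem isoD (ε : ℤˣ) {M P : Type} [Fintype M] [DecidableEq M] [Fintype P] [DecidableEq P]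
    (Λ : Matrix M M A) (B : Matrix M P A) (K : Matrix P P A) (D : Matrix M P A)
    (Z Φ : Matrix (M ⊕ P) (M ⊕ P) A)
    (h : Φ = fromBlocks Λ (Λ * D + B) (Dᴴ * Λ) (Dᴴ * (Λ * D + B) + K) + Z - (ε : ℤ) • Zᴴ) :
    Isometric ε (fromBlocks Λ B 0 K) Φ := by
  refine ⟨fromBlocks 1 D 0 1, fromBlocks 1 (-D) 0 1, Z, ?_, ?_, ?_⟩
  · rw [fromBlocks_multiply]; simp
  · rw [fromBlocks_multiply]; simp
  · rw [h, fromBlocks_conjTranspose, Matrix.mul_assoc, fromBlocks_multiply, fromBlocks_multiply]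
    simp

theorem isoK (ε : ℤˣ) {N : Type} [Fintype N] [DecidableEq N] (ψ : Matrix N N A) :
    Isometric ε (fromBlocks ψ (1 : Matrix N N A) 0 (0 : Matrix N N A)) (hyp N A) := by
  refine isoC ε ψ 1 0 (-ψ) 0 _ ?_
  unfold hyp
  simp

/-- The sum of two stably hyperbolic forms. -/
theorem sh_sum (ε : ℤˣ) {M P : Type} [Fintype M] [DecidableEq M] [Fintype P] [DecidableEq P]
    (Λ : Matrix M M A) (K : Matrix P P A) (m₁ n₁ m₂ n₂ : ℕ)
    (h₁ : Isometric ε (fromBlocks Λ 0 0 (hyp (Fin m₁) A)) (hyp (Fin n₁) A))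
    (h₂ : Isometric ε (fromBlocks K 0 0 (hyp (Fin m₂) A)) (hyp (Fin n₂) A)) :
    Isometric ε (fromBlocks (fromBlocks Λ 0 0 K) 0 0 (hyp (Fin (m₁ + m₂)) A))
      (hyp (Fin (n₁ + n₂)) A) := by
  have s1 := EMVAux.iso_sum' ε (fromBlocks Λ 0 0 K)
    (EMVAux.iso_symm ε (EMVAux.hyp_sum (A := A) ε m₁ m₂))
  have s2 : Isometric ε
      (fromBlocks (fromBlocks Λ 0 0 K) 0 0 (fromBlocks (hyp (Fin m₁) A) 0 0 (hyp (Fin m₂) A)))
      (fromBlocks (fromBlocks Λ 0 0 (hyp (Fin m₁) A)) 0 0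
        (fromBlocks K 0 0 (hyp (Fin m₂) A))) := by
    refine EMVAux.iso_equiv ε _ _ (Equiv.sumSumSumComm M (Fin m₁ ⊕ Fin m₁) P
      (Fin m₂ ⊕ Fin m₂)) ?_
    ext i j
    rcases i with (i | i) | (i | i) <;> rcases j with (j | j) | (j | j) <;> simp
  have s3 := EMVAux.iso_sum ε (fromBlocks K 0 0 (hyp (Fin m₂) A)) h₁
  have s4 := EMVAux.iso_sum' ε (hyp (Fin n₁) A) h₂
  have s5 := EMVAux.hyp_sum (A := A) ε n₁ n₂
  exact EMVAux.iso_trans ε s1 (EMVAux.iso_trans ε s2 (EMVAux.iso_trans ε s3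
    (EMVAux.iso_trans ε s4 s5)))

theorem hyp_card (ε : ℤˣ) (N : Type) [Fintype N] [DecidableEq N] :
    Isometric ε (hyp (Fin (Fintype.card N)) A) (hyp N A) := by
  refine EMVAux.iso_equiv ε _ _ (Equiv.sumCongr (Fintype.equivFin N) (Fintype.equivFin N)) ?_
  ext i j
  rcases i with i | i <;> rcases j with j | j <;>
    simp [hyp, Matrix.one_apply, (Fintype.equivFin N).injective.eq_iff]

theorem main (ε : ℤˣ) {M N : Type} [Fintype M] [DecidableEq M] [Fintype N] [DecidableEq N]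
    (Λ : Matrix M M A) (Zm : Matrix M N A) (Ξ : Matrix N M A) (ψ' : Matrix N N A)
    (h : (Λ + (ε : ℤ) • Λᴴ) * Zm = Ξᴴ) :
    Isometric ε (fromBlocks (Λ + Ξᴴ * ψ' * Ξ) 0 0 (hyp N A))
      (fromBlocks Λ 0 0 (fromBlocks ψ' 1 0 (-(Zmᴴ * Λ * Zm)))) := by
  have s1 := EMVAux.iso_sum' ε (Λ + Ξᴴ * ψ' * Ξ) (EMVAux.iso_symm ε (isoK ε ψ'))
  have hεε : ∀ X : Matrix N M A, (ε : ℤ) • (ε : ℤ) • X = X := by
    intro X
    rcases Int.units_eq_one_or ε with h | h <;> simp [h]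
  have hεε' : ∀ X : Matrix N N A, (ε : ℤ) • (ε : ℤ) • X = X := by
    intro X
    rcases Int.units_eq_one_or ε with h | h <;> simp [h]
  have hstar : ∀ X : Matrix N N A, ((ε : ℤ) • X)ᴴ = (ε : ℤ) • Xᴴ := by
    intro X
    rcases Int.units_eq_one_or ε with h | h <;> simp [h]
  have hstar' : ∀ X : Matrix M N A, ((ε : ℤ) • X)ᴴ = (ε : ℤ) • Xᴴ := by
    intro X
    rcases Int.units_eq_one_or ε with h | h <;> simp [h]
  have s2 : Isometric ε (fromBlocks Λ (fromCols 0 (-Ξᴴ)) 0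
      (fromBlocks ψ' (1 : Matrix N N A) 0 (0 : Matrix N N A)))
      (fromBlocks (Λ + Ξᴴ * ψ' * Ξ) 0 0
      (fromBlocks ψ' (1 : Matrix N N A) 0 (0 : Matrix N N A))) := by
    refine isoC ε _ _ _ (fromRows Ξ (-((ψ' + (ε : ℤ) • ψ'ᴴ) * Ξ)))
      (fromBlocks 0 (fromCols (-(Ξᴴ * ψ')) 0) 0 0) _ ?_
    have e1 : fromBlocks ψ' (1 : Matrix N N A) 0 (0 : Matrix N N A) * fromRows Ξ (-((ψ' + (ε : ℤ) • ψ'ᴴ) * Ξ)) =
        fromRows (-((ε : ℤ) • (ψ'ᴴ * Ξ))) (0 : Matrix N M A) := by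
      rw [Matrix.fromBlocks_mul_fromRows]
      congr 1
      · rw [Matrix.one_mul, Matrix.add_mul, Matrix.smul_mul]
        abel
      · simp
    have e2 : (fromRows Ξ (-((ψ' + (ε : ℤ) • ψ'ᴴ) * Ξ)))ᴴ *
        fromBlocks ψ' (1 : Matrix N N A) 0 (0 : Matrix N N A) =
        fromCols (Ξᴴ * ψ') (Ξᴴ) := by
      rw [Matrix.conjTranspose_fromRows_eq_fromCols_conjTranspose,
        Matrix.fromCols_mul_fromBlocks]
      simp
    rw [e2, e1, Matrix.conjTranspose_fromRows_eq_fromCols_conjTranspose,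
      Matrix.fromCols_mul_fromRows, Matrix.fromCols_mul_fromRows, fromBlocks_conjTranspose,
      fromBlocks_smul, fromBlocks_add, sub_eq_add_neg, fromBlocks_neg, fromBlocks_add]
    congr 1
    · simp only [Matrix.zero_mul, Matrix.mul_zero, Matrix.neg_mul, Matrix.mul_neg, neg_neg,
        smul_neg,
        Matrix.add_mul, Matrix.mul_add, Matrix.smul_mul, Matrix.mul_smul, Matrix.mul_assoc,
        conjTranspose_zero, smul_zero, neg_zero, add_zero, zero_add]
      abel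
    · ext i j
      rcases j with j | j <;> simp
    · rw [Matrix.conjTranspose_fromCols_eq_fromRows_conjTranspose]
      ext i j
      rcases i with i | i <;> simp
    · simp
  have s3 : Isometric ε (fromBlocks Λ (fromCols 0 (-Ξᴴ)) 0
      (fromBlocks ψ' (1 : Matrix N N A) 0 (0 : Matrix N N A)))
      (fromBlocks Λ 0 0 (fromBlocks ψ' 1 0 (-(Zmᴴ * Λ * Zm)))) := by
    refine isoD ε _ _ _ (fromCols 0 Zm)
      (fromBlocks 0 (fromCols 0 ((ε : ℤ) • (Λᴴ * Zm))) 0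
        (fromBlocks 0 0 0 (-(Zmᴴ * Λ * Zm)))) _ ?_
    have hΞ : Ξᴴ = Λ * Zm + (ε : ℤ) • (Λᴴ * Zm) := by
      rw [← h, Matrix.add_mul, Matrix.smul_mul]
    have e1 : Λ * fromCols 0 Zm + fromCols 0 (-Ξᴴ) =
        fromCols (0 : Matrix M N A) (-((ε : ℤ) • (Λᴴ * Zm))) := by
      rw [hΞ, Matrix.mul_fromCols, Matrix.mul_zero]
      ext i j
      rcases j with j | j
      · simp
      · simp only [Matrix.add_apply, Matrix.fromCols_apply_inr, Matrix.neg_apply]
        abel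
    rw [e1, Matrix.conjTranspose_fromCols_eq_fromRows_conjTranspose, Matrix.fromRows_mul,
      Matrix.fromRows_mul_fromCols, fromBlocks_conjTranspose,
      fromBlocks_smul, fromBlocks_add, sub_eq_add_neg, fromBlocks_neg, fromBlocks_add]
    congr 1
    · simp
    · ext i j
      rcases j with j | j <;> simp
    · rw [Matrix.conjTranspose_fromCols_eq_fromRows_conjTranspose, hstar', Matrix.conjTranspose_mul,
        Matrix.conjTranspose_conjTranspose]
      ext i j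
      rcases i with i | i
      · simp
      · have h5 := congrFun (congrFun (hεε (Zmᴴ * Λ)) i) j
        simp only [Matrix.smul_apply] at h5
        simp only [Matrix.zero_apply, Matrix.add_apply, Matrix.fromRows_apply_inr,
          Matrix.neg_apply, Matrix.smul_apply, add_zero, h5, add_neg_cancel]
    · rw [fromBlocks_add, fromBlocks_add, fromBlocks_conjTranspose, fromBlocks_smul,
        fromBlocks_neg, fromBlocks_add]
      congr 1
      · simp
      · simp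
      · simp
      · simp only [Matrix.mul_neg, Matrix.mul_smul, Matrix.conjTranspose_neg,
          Matrix.conjTranspose_mul, Matrix.conjTranspose_conjTranspose, smul_neg, neg_neg,
          Matrix.mul_assoc, add_zero]
        abel
  exact EMVAux.iso_trans ε s1 (EMVAux.iso_trans ε (EMVAux.iso_symm ε s2) s3)

end SCHM

open SCHM in
theorem specSCH : SpecSCH := by
  intro A _ _ ε M N _ _ _ _ Λ Φi Ξ ψ' h1 _ hΛ hK
  obtain ⟨m₁, n₁, h₁⟩ := hΛ
  obtain ⟨m₂, n₂, h₂⟩ := hK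
  have hm := main ε Λ (Φi * Ξᴴ) Ξ ψ' (by rw [← Matrix.mul_assoc, h1, Matrix.one_mul])
  refine ⟨Fintype.card N + (m₁ + m₂), n₁ + n₂, ?_⟩
  have s1 := EMVAux.iso_sum' ε (Λ + Ξᴴ * ψ' * Ξ)
    (EMVAux.iso_symm ε (EMVAux.hyp_sum (A := A) ε (Fintype.card N) (m₁ + m₂)))
  have s2 := EMVAux.iso_assoc ε (Λ + Ξᴴ * ψ' * Ξ) (hyp (Fin (Fintype.card N)) A)
    (hyp (Fin (m₁ + m₂)) A)
  have s3 := EMVAux.iso_sum ε (hyp (Fin (m₁ + m₂)) A)
    (EMVAux.iso_trans ε (EMVAux.iso_sum' ε (Λ + Ξᴴ * ψ' * Ξ) (hyp_card (A := A) ε N)) hm)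
  have s4 := sh_sum ε Λ (fromBlocks ψ' 1 0 (-((Φi * Ξᴴ)ᴴ * Λ * (Φi * Ξᴴ)))) m₁ n₁ m₂ n₂ h₁ h₂
  exact EMVAux.iso_trans ε s1 (EMVAux.iso_trans ε s2 (EMVAux.iso_trans ε s3 s4))

end Pool.Agent.Lib.MPb6f35e.TT.RO

/-! ## Module RO/SCU -/

/-! # RO, module SCU: elimination for `UF` -/

namespace Pool.Agent.Lib.MPb6f35e.TT.RO

open Matrix Pool.Agent.Lib.MPb6f35e.TT.UV

namespace SCUM

variable {A : Type} [Ring A] [StarRing A]

theorem sq {ε : ℤˣ} {m n : Type} (X : Matrix m n A) : (ε : ℤ) • (ε : ℤ) • X = X := by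
  rcases Int.units_eq_one_or ε with h | h <;> simp [h]

theorem star_smul' {ε : ℤˣ} {m n : Type} (X : Matrix m n A) :
    ((ε : ℤ) • X)ᴴ = (ε : ℤ) • Xᴴ := by
  rcases Int.units_eq_one_or ε with h | h <;> simp [h]

omit [StarRing A] in
theorem W0_mul {n : ℕ} (N : ℕ) (ν : Matrix (Fin n ⊕ Fin n) (Fin n ⊕ Fin n) A)
    (h : ν ^ N = 0) : W0 N ν * (1 + ν) = 1 ∧ (1 + ν) * W0 N ν = 1 := by
  have h1 := geom_sum_mul_neg (-ν) N
  have h2 := mul_neg_geom_sum (-ν) N
  have h3 : (-ν) ^ N = 0 := by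
    rw [neg_pow, h, mul_zero]
  rw [sub_neg_eq_add, h3, sub_zero] at h1 h2
  exact ⟨h1, h2⟩

/-- the matrix `J` -/
def J (A : Type) [Ring A] (ε : ℤˣ) (n : ℕ) : Matrix (Fin n ⊕ Fin n) (Fin n ⊕ Fin n) A :=
  fromBlocks 0 1 ((ε : ℤ) • 1) 0

/-- the inverse of `J` -/
def Ji (A : Type) [Ring A] (ε : ℤˣ) (n : ℕ) : Matrix (Fin n ⊕ Fin n) (Fin n ⊕ Fin n) A :=
  fromBlocks 0 ((ε : ℤ) • 1) 1 0

omit [StarRing A] in
theorem J_Ji (ε : ℤˣ) (n : ℕ) : J A ε n * Ji A ε n = 1 ∧ Ji A ε n * J A ε n = 1 := by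
  unfold J Ji
  rw [fromBlocks_multiply, fromBlocks_multiply]
  rcases Int.units_eq_one_or ε with h | h <;> simp [h, fromBlocks_one]

theorem lam (ε : ℤˣ) {n : ℕ} (ψ μ χ : Matrix (Fin n) (Fin n) A) :
    UF ψ μ χ + (ε : ℤ) • (UF ψ μ χ)ᴴ =
      J A ε n * (1 + nu ε (ψ + (ε : ℤ) • ψᴴ) μ (χ + (ε : ℤ) • χᴴ)) := by
  unfold UF nu J
  rw [← fromBlocks_one, fromBlocks_add, fromBlocks_multiply, fromBlocks_conjTranspose,
    fromBlocks_smul, fromBlocks_add]
  rcases Int.units_eq_one_or ε with h | h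
  · simp [h]
  · simp only [h, Units.val_neg, Units.val_one, neg_smul, one_smul, conjTranspose_add,
      conjTranspose_one, conjTranspose_conjTranspose, conjTranspose_zero, Matrix.zero_mul,
      Matrix.one_mul, Matrix.neg_mul, zero_add, add_zero, neg_neg, neg_zero, smul_neg, neg_add]

end SCUM

open SCUM in
theorem specSCU (hSCH : SpecSCH) : SpecSCU := by
  intro A _ _ ε n r N ψ μ χ Ξ ψ' hν
  set ν := nu ε (ψ + (ε : ℤ) • ψᴴ) μ (χ + (ε : ℤ) • χᴴ) with hνd
  set w := W0 N ν with hw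
  obtain ⟨hw1, hw2⟩ := W0_mul N ν hν
  obtain ⟨hJ1, hJ2⟩ := J_Ji (A := A) ε n
  have hlam := lam ε ψ μ χ
  rw [← hνd] at hlam
  let Ξ' : Matrix (Fin r) (Fin n ⊕ Fin n) A := fromCols Ξ 0
  have hΞ' : Ξ'ᴴ = fromRows Ξᴴ 0 := by
    change (fromCols Ξ 0)ᴴ = _
    rw [conjTranspose_fromCols_eq_fromRows_conjTranspose, conjTranspose_zero]
  have hwb : w = fromBlocks (blk w true true) (blk w true false) (blk w false true)
      (blk w false false) := by
    ext i j
    rcases i with i | i <;> rcases j with j | j <;> rfl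
  have hZm : w * Ji A ε n * Ξ'ᴴ = fromRows (blk w true false * Ξᴴ) (blk w false false * Ξᴴ) := by
    rw [hΞ', Matrix.mul_assoc]
    unfold Ji
    rw [fromBlocks_mul_fromRows]
    conv_lhs => rw [hwb]
    rw [fromBlocks_mul_fromRows]
    simp
  have h1 : (UF ψ μ χ + (ε : ℤ) • (UF ψ μ χ)ᴴ) * (w * Ji A ε n) = 1 := by
    rw [hlam, Matrix.mul_assoc, ← Matrix.mul_assoc _ w, hw2, Matrix.one_mul, hJ1]
  have h2 : (w * Ji A ε n) * (UF ψ μ χ + (ε : ℤ) • (UF ψ μ χ)ᴴ) = 1 := by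
    rw [hlam, Matrix.mul_assoc, ← Matrix.mul_assoc (Ji A ε n), hJ2, Matrix.one_mul, hw1]
  have hκ : -((w * Ji A ε n * Ξ'ᴴ)ᴴ * UF ψ μ χ * (w * Ji A ε n * Ξ'ᴴ)) = kap ψ μ χ w Ξ := by
    rw [hZm]
    unfold UF kap
    rw [EMVAux.rows_form]
    simp
  constructor
  · intro h3 h4
    have h5 := hSCH A ε (Fin n ⊕ Fin n) (Fin r) (UF ψ μ χ) (w * Ji A ε n) Ξ' ψ' h1 h2 h3 (by
      rw [hκ]
      have h6 : UF ψ' 0 (kap ψ μ χ w Ξ) = fromBlocks ψ' 1 0 (kap ψ μ χ w Ξ) := by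
        unfold UF
        simp
      rw [← h6]
      exact h4)
    have h7 : UF ψ μ χ + Ξ'ᴴ * ψ' * Ξ' = UF (ψ + Ξᴴ * ψ' * Ξ) μ χ := by
      rw [hΞ']
      change UF ψ μ χ + fromRows Ξᴴ 0 * ψ' * fromCols Ξ 0 = _
      rw [fromRows_mul, fromRows_mul_fromCols]
      unfold UF
      rw [fromBlocks_add]
      simp
    rw [h7] at h5
    exact h5
  · have h3 : (UF ψ μ χ + (ε : ℤ) • (UF ψ μ χ)ᴴ) * (w * Ji A ε n * Ξ'ᴴ) = Ξ'ᴴ := by
      rw [← Matrix.mul_assoc, h1, Matrix.one_mul]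
    have h4 : kap ψ μ χ w Ξ + (ε : ℤ) • (kap ψ μ χ w Ξ)ᴴ =
        -((w * Ji A ε n * Ξ'ᴴ)ᴴ *
          ((UF ψ μ χ + (ε : ℤ) • (UF ψ μ χ)ᴴ) * (w * Ji A ε n * Ξ'ᴴ))) := by
      rw [← hκ]
      simp only [conjTranspose_neg, conjTranspose_mul, conjTranspose_conjTranspose,
        Matrix.add_mul, Matrix.mul_add, Matrix.smul_mul, Matrix.mul_smul, smul_neg, neg_add,
        Matrix.mul_assoc]
    rw [h4, h3, ← conjTranspose_mul, hZm]
    change -(fromCols Ξ 0 * fromRows (blk w true false * Ξᴴ) (blk w false false * Ξᴴ))ᴴ = _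
    rw [fromCols_mul_fromRows]
    simp [Matrix.mul_assoc]

end Pool.Agent.Lib.MPb6f35e.TT.RO

/-! ## Module RO/UNQ -/

/-!
# UNQ: action and uniqueness
-/

namespace Pool.Agent.Lib.MPb6f35e.TT.RO

open Matrix Pool.Agent.Lib.MPb6f35e.TT.UV Pool.Agent.Lib.MPb6f35e.TT.AU
open Pool.Agent.Lib.MPb6f35e.TT.UO (ext)

namespace UNQAux

variable {G : Type} [Group G] {H : Subgroup G} {X1 X2 X3 Yp Ym : Set G}

theorem act (P : PingPong H X1 X2 X3 Yp Ym) :
    ∀ s r x y, x ∈ XX X1 X2 X3 s r → y ∈ YB Yp Ym r → x * y ∈ YB Yp Ym s := by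
  intro s r x y hx hy
  cases s <;> cases r
  · exact P.X3Y' x hx y hy
  · exact P.X1Y x hx y hy
  · exact P.X2Y x hx y hy
  · exact P.X3Y x hx y hy

theorem bi (P : PingPong H X1 X2 X3 Yp Ym) : ∀ s r, Bi H (XX X1 X2 X3 s r) := by
  intro s r
  cases s <;> cases r
  · constructor
    · intro h hh x hx
      change (h * x)⁻¹ ∈ X3
      rw [_root_.mul_inv_rev]
      exact P.X3r _ (H.inv_mem hh) _ hx
    · intro h hh x hx
      change (x * h)⁻¹ ∈ X3
      rw [_root_.mul_inv_rev]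
      exact P.X3l _ (H.inv_mem hh) _ hx
  · exact ⟨P.X1l, P.X1r⟩
  · exact ⟨P.X2l, P.X2r⟩
  · exact ⟨P.X3l, P.X3r⟩

theorem yb (P : PingPong H X1 X2 X3 Yp Ym) :
    ∀ s, (1 : G) ∈ YB Yp Ym s ∧ ∀ h ∈ H, ∀ y ∈ YB Yp Ym s, h * y ∈ YB Yp Ym s := by
  intro s
  cases s
  · exact ⟨P.Ym1, P.Yml⟩
  · exact ⟨P.Yp1, P.Ypl⟩

theorem unq (P : PingPong H X1 X2 X3 Yp Ym) :
    ∀ s r r' x y x' y', x ∈ XX X1 X2 X3 s r → y ∈ YB Yp Ym r → x' ∈ XX X1 X2 X3 s r' →
      y' ∈ YB Yp Ym r' → x * y = x' * y' → r = r' ∧ x⁻¹ * x' ∈ H := by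
  intro s r r' x y x' y' hx hy hx' hy' h
  cases s <;> cases r <;> cases r'
  · exact ⟨rfl, P.u3' x hx x' hx' y hy y' hy' h⟩
  · exact absurd h.symm (P.d13 x' hx' y' hy' x hx y hy)
  · exact absurd h (P.d13 x hx y hy x' hx' y' hy')
  · exact ⟨rfl, P.u1 x hx x' hx' y hy y' hy' h⟩
  · exact ⟨rfl, P.u2 x hx x' hx' y hy y' hy' h⟩
  · exact absurd h (P.d23 x hx y hy x' hx' y' hy')
  · exact absurd h.symm (P.d23 x' hx' y' hy' x hx y hy)
  · exact ⟨rfl, P.u3 x hx x' hx' y hy y' hy' h⟩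

end UNQAux

theorem specUNQ : SpecUNQ := by
  intro G _ H X1 X2 X3 Yp Ym P
  exact ⟨UNQAux.act P, UNQAux.unq P, UNQAux.bi P, UNQAux.yb P⟩

end Pool.Agent.Lib.MPb6f35e.TT.RO

/-! ## Module RO/WDA -/

/-!
# WDA: words
-/

namespace Pool.Agent.Lib.MPb6f35e.TT.RO

open Matrix Pool.Agent.Lib.MPb6f35e.TT.UV Pool.Agent.Lib.MPb6f35e.TT.AU
open Pool.Agent.Lib.MPb6f35e.TT.UO (ext)

namespace WDAAux

variable {G : Type} [Group G] {H : Subgroup G} {X1 X2 X3 Yp Ym X1' : Set G}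

theorem biX (U : SpecUNQ) (S : Sub1 H X1 X2 X3 Yp Ym X1') :
    ∀ s r, Bi H (XX X1' X2 X3 s r) := by
  have h := (U G H X1 X2 X3 Yp Ym S.pp).2.2.1
  intro s r
  cases s <;> cases r
  · exact h false false
  · exact S.bi
  · exact h true false
  · exact h true true

theorem subX (S : Sub1 H X1 X2 X3 Yp Ym X1') :
    ∀ s r, XX X1' X2 X3 s r ⊆ XX X1 X2 X3 s r := by
  intro s r
  cases s <;> cases r
  · exact subset_rfl
  · exact S.sub
  · exact subset_rfl
  · exact subset_rfl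

theorem invX (S : Sub1 H X1 X2 X3 Yp Ym X1') :
    ∀ s r x, x ∈ XX X1' X2 X3 s r → x⁻¹ ∈ XX X1' X2 X3 (!r) (!s) := by
  intro s r x hx
  cases s <;> cases r
  · exact hx
  · exact S.inv x hx
  · exact S.pp.X2i x hx
  · change x⁻¹⁻¹ ∈ X3
    rw [inv_inv]
    exact hx

theorem lmul (U : SpecUNQ) (S : Sub1 H X1 X2 X3 Yp Ym X1') {k : ℕ} {s t : Bool} {z h : G}
    (hh : h ∈ H) (hz : Wd H X1' X2 X3 k s t z) : Wd H X1' X2 X3 k s t (h * z) := by
  cases hz with
  | base hz => exact .base (H.mul_mem hh hz)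
  | cons hx hz =>
    rw [← mul_assoc]
    exact .cons ((biX U S _ _).1 h hh _ hx) hz

theorem rmul {k : ℕ} {s t : Bool} {z h : G}
    (hh : h ∈ H) (hz : Wd H X1' X2 X3 k s t z) : Wd H X1' X2 X3 k s t (z * h) := by
  induction hz with
  | base hz => exact .base (H.mul_mem hz hh)
  | cons hx hz ih =>
    rw [mul_assoc]
    exact .cons hx ih

theorem mul (U : SpecUNQ) (S : Sub1 H X1 X2 X3 Yp Ym X1') {k l : ℕ} {s r t : Bool} {z z' : G}
    (hz : Wd H X1' X2 X3 k s r z) (hz' : Wd H X1' X2 X3 l r t z') :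
    Wd H X1' X2 X3 (k + l) s t (z * z') := by
  induction hz with
  | base hh =>
    rw [Nat.zero_add]
    exact lmul U S hh hz'
  | @cons k s r t x z hx hz ih =>
    rw [mul_assoc, Nat.add_right_comm]
    exact .cons hx (ih hz')

theorem letter {s t : Bool} {x : G} (hx : x ∈ XX X1' X2 X3 s t) :
    Wd H X1' X2 X3 1 s t x := by
  have h := Wd.cons (H := H) (k := 0) hx (.base H.one_mem)
  rwa [mul_one] at h

theorem inv (U : SpecUNQ) (S : Sub1 H X1 X2 X3 Yp Ym X1') {k : ℕ} {s t : Bool} {z : G}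
    (hz : Wd H X1' X2 X3 k s t z) : Wd H X1' X2 X3 k (!t) (!s) z⁻¹ := by
  induction hz with
  | base hh => exact .base (H.inv_mem hh)
  | @cons k s r t x z hx hz ih =>
    rw [_root_.mul_inv_rev]
    exact mul U S ih (letter (invX S _ _ _ hx))

theorem act (U : SpecUNQ) (S : Sub1 H X1 X2 X3 Yp Ym X1') {k : ℕ} {s t : Bool} {z : G}
    (hz : Wd H X1' X2 X3 k s t z) : ∀ y ∈ YB Yp Ym t, z * y ∈ YB Yp Ym s := by
  obtain ⟨h1, -, -, h4⟩ := U G H X1 X2 X3 Yp Ym S.pp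
  induction hz with
  | base hh => exact fun y hy => (h4 _).2 _ hh y hy
  | @cons k s r t x z hx hz ih =>
    intro y hy
    rw [mul_assoc]
    exact h1 _ _ _ _ (subX S _ _ hx) (ih y hy)

end WDAAux

theorem specWDA (h : SpecUNQ) : SpecWDA := by
  intro G _ H X1 X2 X3 Yp Ym X1' S
  refine ⟨fun k s t z h' hh hz => ⟨WDAAux.lmul h S hh hz, WDAAux.rmul hh hz⟩,
    fun k l s r t z z' hz hz' => WDAAux.mul h S hz hz', fun k s t z hz => WDAAux.inv h S hz,
    fun k s t z y hz hy => WDAAux.act h S hz y hy,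
    fun s t x hx => ⟨WDAAux.letter hx, WDAAux.invX S s t x hx⟩⟩

end Pool.Agent.Lib.MPb6f35e.TT.RO

/-! ## Module RO/ROT -/

/-!
# RO, module ROT: the induction on the number of flips
-/

namespace Pool.Agent.Lib.MPb6f35e.TT.RO

open Matrix Pool.Agent.Lib.MPb6f35e.TT.UV Pool.Agent.Lib.MPb6f35e.TT.AU
open Pool.Agent.Lib.MPb6f35e.TT.UO (ext)

namespace ROTAux

theorem ppx_swap {G : Type} [Group G] {H : Subgroup G} {X1 X2 X3 Yp Ym : Set G}
    (P : PingPongX H X1 X2 X3 Yp Ym) : PingPongX H X2 X1 (Xinv X3) Ym Yp :=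
  { toPingPong := INDAux.pp_swap P.toPingPong
    m1 := P.m2
    m2 := P.m1
    n1 := P.n2
    n2 := P.n1 }

/-- A flip in the double coset with square in `H`. -/
theorem exists_flip {G : Type} [Group G] {H : Subgroup G} {x : G} (hx : Flip H x) :
    ∃ h ∈ H, (x * h) * (x * h) ∈ H ∧ x ∈ dc H (x * h) := by
  obtain ⟨h, hh, h', hh', he⟩ := hx
  refine ⟨h, hh, ?_, 1, H.one_mem, h⁻¹, H.inv_mem hh, by group⟩
  have h1 : x * h * (x * h) = h'⁻¹ * h := by
    have h2 : h * x = x⁻¹ * h'⁻¹ := by rw [he]; group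
    calc x * h * (x * h) = x * (h * x) * h := by group
      _ = x * (x⁻¹ * h'⁻¹) * h := by rw [h2]
      _ = h'⁻¹ * h := by group
  rw [h1]
  exact H.mul_mem (H.inv_mem hh') hh

section Measure

variable {R G : Type} [Ring R] [Group G]

open Classical in
/-- The number of flips in the supports of the entries. -/
noncomputable def fl (H : Subgroup G) {n : ℕ} (M : Matrix (Fin n) (Fin n) (MonoidAlgebra R G)) :
    ℕ :=
  ∑ i, ∑ j, ((M i j).coeff.support.filter fun x => Flip H x).card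

theorem supp_cut {X W : Set G} {n : ℕ} {M : Matrix (Fin n) (Fin n) (MonoidAlgebra R G)}
    (hM : SuppIn X M) : SuppIn X (cutM W M) := by
  intro i j g hg
  apply hM i j g
  intro h
  apply hg
  show (cut W (M i j)).coeff g = 0
  rw [cut_coeff, h, ite_self]

theorem fl_cut_lt (H : Subgroup G) {n : ℕ} (M : Matrix (Fin n) (Fin n) (MonoidAlgebra R G))
    (W : Set G) {i j : Fin n} {x : G} (hx : (M i j).coeff x ≠ 0) (hf : Flip H x) (hW : x ∉ W) :
    fl H (cutM W M) < fl H M := by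
  classical
  have hsub : ∀ a b, (((cutM W M) a b).coeff.support.filter fun x => Flip H x) ⊆
      ((M a b).coeff.support.filter fun x => Flip H x) := by
    intro a b y hy
    rw [Finset.mem_filter, Finsupp.mem_support_iff] at hy ⊢
    refine ⟨fun h => hy.1 ?_, hy.2⟩
    show (cut W (M a b)).coeff y = 0
    rw [cut_coeff, h, ite_self]
  have hle : ∀ a b, (((cutM W M) a b).coeff.support.filter fun x => Flip H x).card ≤
      ((M a b).coeff.support.filter fun x => Flip H x).card := fun a b =>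
    Finset.card_le_card (hsub a b)
  unfold fl
  refine Finset.sum_lt_sum (fun a _ => Finset.sum_le_sum fun b _ => ?_) ⟨i, Finset.mem_univ i, ?_⟩
  · convert hle a b
  · refine Finset.sum_lt_sum (fun b _ => ?_) ⟨j, Finset.mem_univ j, ?_⟩
    · convert hle i b
    · have hlt : (((cutM W M) i j).coeff.support.filter fun x => Flip H x).card <
          ((M i j).coeff.support.filter fun x => Flip H x).card := by
        refine Finset.card_lt_card ((Finset.ssubset_iff_of_subset (hsub i j)).mpr ⟨x, ?_, ?_⟩)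
        · rw [Finset.mem_filter, Finsupp.mem_support_iff]
          exact ⟨hx, hf⟩
        · rw [Finset.mem_filter, Finsupp.mem_support_iff]
          rintro ⟨h1, -⟩
          apply h1
          show (cut W (M i j)).coeff x = 0
          rw [cut_coeff, if_neg hW]
      convert hlt

end Measure

/-- One elimination. -/
theorem half (hLOC : SpecLOC) (hELM : SpecELM) (hSBT : SpecSBT) (hSBF : SpecSBF) {R G : Type}
    [Ring R] [StarRing R] [Group G] {H : Subgroup G} {X1 X2 X3 Yp Ym : Set G}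
    (P : PingPongX H X1 X2 X3 Yp Ym)
    (hyp : ∀ g : G, g ∈ X1 ∨ g ∈ X2 → g * g ∈ H →
      AuslanderRegular (MonoidAlgebra R (Kg H g)) ∨ FP (MonoidAlgebra R (Kg H g)))
    (ε : ℤˣ) (n : ℕ) (ψ μ χ : Matrix (Fin n) (Fin n) (MonoidAlgebra R G)) (hψ : SuppIn X1 ψ)
    (hμ : SuppIn X3 μ) (hχ : SuppIn X2 χ)
    (hnil : IsNilpotent (nu ε (ψ + (ε : ℤ) • ψᴴ) μ (χ + (ε : ℤ) • χᴴ)))
    {i j : Fin n} {x : G} (hx : (ψ i j).coeff x ≠ 0) (hf : Flip H x)
    (ih : ∀ ψ0 : Matrix (Fin n) (Fin n) (MonoidAlgebra R G), SuppIn X1 ψ0 →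
      IsNilpotent (nu ε (ψ0 + (ε : ℤ) • ψ0ᴴ) μ (χ + (ε : ℤ) • χᴴ)) → fl H ψ0 < fl H ψ →
      StablyHyperbolic ε (UF ψ0 μ χ)) : StablyHyperbolic ε (UF ψ μ χ) := by
  obtain ⟨h, hh, hgg, hxd⟩ := exists_flip hf
  have hxX : x ∈ X1 := hψ i j x hx
  have hgX : x * h ∈ X1 := P.X1r h hh x hxX
  obtain ⟨hS, hL⟩ := hLOC G H X1 X2 X3 Yp Ym P (x * h) hgX hgg
  have hB : Blk R {y | ∃ l ∈ Kg H (x * h), y = l * (x * h)}
      (WS H {y | y ∈ X1 ∧ y ∉ dc H (x * h)} X2 X3 true false) := by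
    rcases hyp (x * h) (Or.inl hgX) hgg with hA | hF
    · exact hSBT R G (Kg H (x * h)) (x * h) _ _ Yp hL hA
    · exact hSBF R G (Kg H (x * h)) (x * h) _ _ Yp hL hF
  obtain ⟨h1, h2⟩ := hELM R G H X1 X2 X3 Yp Ym P.toPingPong ε n ψ μ χ hψ hμ hχ hnil (x * h) hgX
    hgg hS (fun r ψ' κ hψ' hκ hn => hB ε r ψ' κ hψ' hκ hn)
  apply h2
  exact ih _ (supp_cut hψ) h1 (fl_cut_lt H ψ _ hx hf (fun hc => hc hxd))

theorem main (hNWT : SpecNWT) (hLOC : SpecLOC) (hELM : SpecELM) (hSBT : SpecSBT)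
    (hSBF : SpecSBF) {R G : Type} [Ring R] [StarRing R] [Group G] {H : Subgroup G} (m : ℕ) :
    ∀ (X1 X2 X3 Yp Ym : Set G), PingPongX H X1 X2 X3 Yp Ym →
    (∀ g : G, g ∈ X1 ∨ g ∈ X2 → g * g ∈ H →
      AuslanderRegular (MonoidAlgebra R (Kg H g)) ∨ FP (MonoidAlgebra R (Kg H g))) →
    ∀ (ε : ℤˣ) (n : ℕ) (ψ μ χ : Matrix (Fin n) (Fin n) (MonoidAlgebra R G)), SuppIn X1 ψ →
    SuppIn X3 μ → SuppIn X2 χ →
    IsNilpotent (nu ε (ψ + (ε : ℤ) • ψᴴ) μ (χ + (ε : ℤ) • χᴴ)) → fl H ψ + fl H χ = m →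
    StablyHyperbolic ε (UF ψ μ χ) := by
  induction m using Nat.strong_induction_on with
  | _ m ih =>
    intro X1 X2 X3 Yp Ym P hyp ε n ψ μ χ hψ hμ hχ hnil hm
    by_cases h1 : ∀ i j x, (ψ i j).coeff x ≠ 0 → ¬ Flip H x
    · by_cases h2 : ∀ i j x, (χ i j).coeff x ≠ 0 → ¬ Flip H x
      · exact hNWT R G H X1 X2 X3 Yp Ym P.toPingPong ε n ψ μ χ hψ hμ hχ hnil h1 h2
      · push Not at h2
        obtain ⟨i, j, x, hx, hf⟩ := h2
        apply (specSwp (MonoidAlgebra R G) ε n ψ μ χ).1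
        have hμs : SuppIn (Xinv X3) μᴴ := INDAux.supp_star hμ (fun y hy => by
          change y⁻¹⁻¹ ∈ X3
          rw [inv_inv]
          exact hy)
        refine half hLOC hELM hSBT hSBF (ppx_swap P) (fun g hg => hyp g hg.symm) ε n χ μᴴ ψ hχ
          hμs hψ ?_ hx hf ?_
        · obtain ⟨l, hl⟩ := hnil
          exact ⟨l, INDAux.swap_zero ε _ _ _ l hl⟩
        · intro χ0 hχ0 hn0 hlt
          exact ih (fl H χ0 + fl H ψ) (by omega) X2 X1 (Xinv X3) Ym Yp (ppx_swap P)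
            (fun g hg => hyp g hg.symm) ε n χ0 μᴴ ψ hχ0 hμs hψ hn0 rfl
    · push Not at h1
      obtain ⟨i, j, x, hx, hf⟩ := h1
      refine half hLOC hELM hSBT hSBF P hyp ε n ψ μ χ hψ hμ hχ hnil hx hf ?_
      intro ψ0 hψ0 hn0 hlt
      exact ih (fl H ψ0 + fl H χ) (by omega) X1 X2 X3 Yp Ym P hyp ε n ψ0 μ χ hψ0 hμ hχ hn0 rfl

end ROTAux

/-- **Module ROT**: the theorem for ping-pong data. -/
theorem specROT (hNWT : SpecNWT) (hLOC : SpecLOC) (hELM : SpecELM) (hSBT : SpecSBT)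
    (hSBF : SpecSBF) : SpecROT := by
  intro R G _ _ _ H X1 X2 X3 Yp Ym P hyp ε n ψ μ χ hψ hμ hχ hnil
  exact ROTAux.main hNWT hLOC hELM hSBT hSBF _ X1 X2 X3 Yp Ym P hyp ε n ψ μ χ hψ hμ hχ hnil rfl

end Pool.Agent.Lib.MPb6f35e.TT.RO

/-! ## Module RO/TRX -/

/-! Module TRX (helper32): the ping-pong data of an edge, with the extra properties. -/

namespace Pool.Agent.Lib.MPb6f35e.TT.RO

open Matrix Pool.Agent.Lib.MPb6f35e.TT.UV Pool.Agent.Lib.MPb6f35e.TT.AU

namespace TRXM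

open Pool.Agent.Lib.MPb6f35e.TT.UV.TREAux

variable {G V : Type} [Group G] [MulAction G V] {T : SimpleGraph V} {v w : V}

theorem pingpong (hT : T.IsTree)
    (hG : ∀ (g : G) (x y : V), T.Adj x y → T.Adj (g • x) (g • y)) (ha : T.Adj v w)
    (hinv : ∀ g : G, ¬ (g • v = w ∧ g • w = v)) :
    PingPong (MulAction.stabilizer G v ⊓ MulAction.stabilizer G w)
      {g | g • v = v ∧ g • w ≠ w} {g | g • w = w ∧ g • v ≠ v} {g | g • v = w}
      (YY G T v w) (YY G T w v) := by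
  have hinv' : ∀ g : G, ¬ (g • w = v ∧ g • v = w) := fun g h => hinv g ⟨h.2, h.1⟩
  have memH : ∀ h : G, h ∈ (MulAction.stabilizer G v ⊓ MulAction.stabilizer G w) ↔
      h • v = v ∧ h • w = w := fun h => by
    rw [Subgroup.mem_inf, MulAction.mem_stabilizer_iff, MulAction.mem_stabilizer_iff]
  have memX : ∀ x : G, x ∈ Xinv {g : G | g • v = w} ↔ x • w = v := fun x => by
    change x⁻¹ • v = w ↔ x • w = v
    rw [inv_smul_eq_iff]
    exact eq_comm
  constructor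
  · -- X1l
    intro h hh x hx
    rw [memH] at hh
    refine ⟨by rw [mul_smul, hx.1, hh.1], fun e => hx.2 ?_⟩
    rw [mul_smul] at e
    have := congrArg (fun z => h⁻¹ • z) e
    simp only [inv_smul_smul] at this
    rw [this, inv_smul_eq_iff, hh.2]
  · -- X1r
    intro h hh x hx
    rw [memH] at hh
    exact ⟨by rw [mul_smul, hh.1, hx.1], by rw [mul_smul, hh.2]; exact hx.2⟩
  · -- X1i
    intro x hx
    exact ⟨by rw [inv_smul_eq_iff, hx.1], fun e => hx.2 (by rw [inv_smul_eq_iff] at e; exact e.symm)⟩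
  · intro h hh x hx
    rw [memH] at hh
    refine ⟨by rw [mul_smul, hx.1, hh.2], fun e => hx.2 ?_⟩
    rw [mul_smul] at e
    have := congrArg (fun z => h⁻¹ • z) e
    simp only [inv_smul_smul] at this
    rw [this, inv_smul_eq_iff, hh.1]
  · intro h hh x hx
    rw [memH] at hh
    exact ⟨by rw [mul_smul, hh.2, hx.1], by rw [mul_smul, hh.1]; exact hx.2⟩
  · intro x hx
    exact ⟨by rw [inv_smul_eq_iff, hx.1], fun e => hx.2 (by rw [inv_smul_eq_iff] at e; exact e.symm)⟩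
  · -- X3l
    intro h hh x hx
    rw [memH] at hh
    change (h * x) • v = w
    rw [mul_smul, show x • v = w from hx, hh.2]
  · intro h hh x hx
    rw [memH] at hh
    change (x * h) • v = w
    rw [mul_smul, hh.1]
    exact hx
  · exact YY_one ha
  · exact YY_one ha.symm
  · intro h hh y hy
    rw [memH] at hh
    exact YY_mul hT hG hh.1 hh.2 hy
  · intro h hh y hy
    rw [memH] at hh
    exact YY_mul hT hG hh.2 hh.1 hy
  · intro x hx y hy
    exact F_Y hT hG ha hx hy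
  · intro x hx y hy
    exact F_Y hT hG ha.symm hx hy
  · intro x hx y hy
    exact M_Y hT hG ha hx (fun e => hinv x ⟨hx, e⟩) hy
  · intro x hx y hy
    rw [memX] at hx
    exact M_Y hT hG ha.symm hx (fun e => hinv x ⟨e, hx⟩) hy
  · -- d23
    intro x hx y hy x' hx' y' hy'
    exact d_ne hT hG ha hinv hx.1 hy hx' hy'
  · intro x hx y hy x' hx' y' hy'
    rw [memX] at hx'
    exact d_ne hT hG ha.symm hinv' hx.1 hy hx' hy'
  · intro x hx x' hx' y hy y' hy' e
    rw [memH]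
    exact u_F hT hG ha hx.1 hy hx'.1 hy' e
  · intro x hx x' hx' y hy y' hy' e
    rw [memH]
    exact (u_F hT hG ha.symm hx.1 hy hx'.1 hy' e).symm
  · intro x hx x' hx' y hy y' hy' e
    rw [memH]
    exact u_F hT hG ha hx hy hx' hy' e
  · intro x hx x' hx' y hy y' hy' e
    rw [memX] at hx hx'
    rw [memH]
    exact (u_F hT hG ha.symm hx hy hx' hy' e).symm


theorem mm {x y : G} (hx : x • v = v ∧ x • w ≠ w) (hy : y • v = v ∧ y • w ≠ w) :
    x * y ∈ (MulAction.stabilizer G v ⊓ MulAction.stabilizer G w) ∨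
      ((x * y) • v = v ∧ (x * y) • w ≠ w) := by
  have h1 : (x * y) • v = v := by rw [mul_smul, hy.1, hx.1]
  by_cases h2 : (x * y) • w = w
  · left
    rw [Subgroup.mem_inf, MulAction.mem_stabilizer_iff, MulAction.mem_stabilizer_iff]
    exact ⟨h1, h2⟩
  · exact Or.inr ⟨h1, h2⟩

theorem nn (hT : T.IsTree) (hG : ∀ (g : G) (x y : V), T.Adj x y → T.Adj (g • x) (g • y))
    (ha : T.Adj v w) {x y : G} (hx : x • v = v ∧ x • w ≠ w) (hy : y ∈ YY G T v w) :
    x * y ∉ YY G T v w := by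
  intro hxy
  have h1 : (x * y) • w ∈ Br T v (x • w) := by
    have := smul_Br hT hG x hy.1
    rwa [hx.1, smul_smul] at this
  have h2 : T.Adj v (x • w) := by
    have := hG x v w ha
    rwa [hx.1] at this
  exact hx.2 (br_unique hT h2 ha h1 hxy.1)

end TRXM

open Pool.Agent.Lib.MPb6f35e.TT.UV.TREAux TRXM in
theorem specTRX : SpecTRX := by
  intro G V _ _ T v w hT hG ha hinv
  refine ⟨YY G T v w, YY G T w v, ?_⟩
  have hP := pingpong hT hG ha hinv
  refine { toPingPong := hP, m1 := ?_, m2 := ?_, n1 := ?_, n2 := ?_ }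
  · intro x hx y hy
    exact mm hx hy
  · intro x hx y hy
    rcases mm hx hy with h | h
    · left
      rw [inf_comm]
      exact h
    · exact Or.inr h
  · intro x hx y hy
    exact nn hT hG ha hx hy
  · intro x hx y hy
    exact nn hT hG ha.symm hx hy

end Pool.Agent.Lib.MPb6f35e.TT.RO
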