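import Pool.Agent.Lib.MP_b6f35e_al.TT.K1
import Pool.Agent.Lib.MP_b6f35e_al.TT.L1
import Pool.Agent.Lib.MP_b6f35e_al.TT.R1
import Pool.Agent.Lib.MP_b6f35e_al.TT.R2
import Pool.Agent.Lib.MP_b6f35e_al.TT.U1

/-! # Modules for Theorem DT (MP_b6f35e_al, Q2): classes of forms, part 1 (copies of modules of MP_8a3537_gt, without the
conditions on elements of order two) -/

/-! ## Module AR/Defs -/

/-!
# Every coefficient ring (MP_8a3537_gt, folder AR): hyperbolic forms of projective modules (helper76)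

`HypP ε Ψ`: the polarization `Ψ + ε Ψ^*` is invertible, and there is an idempotent `e` such that `Ψ` vanishes
(modulo even forms `Z - ε Z^*`) on the images of `e` and `1 - e`. Then `Ψ` is isometric to the hyperbolic form of the
finitely generated projective module `im e`. `SHp ε Ψ`: this holds after adding a hyperbolic form of a free
module, that is, `Ψ` is zero in `L^p`.
-/

set_option autoImplicit false
set_option linter.unusedSectionVars false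

namespace Pool.Agent.Lib.MPb6f35e.TT.AR

open Matrix Pool.Agent.Lib.MPb6f35e.TT.UV

/-- The hyperbolic form of a finitely generated projective module. -/
def HypP {A : Type*} [Ring A] [StarRing A] (ε : ℤˣ) {ι : Type*} [Fintype ι] [DecidableEq ι]
    (Ψ : Matrix ι ι A) : Prop :=
  ∃ Θ e Z₁ Z₂ : Matrix ι ι A, (Ψ + (ε : ℤ) • Ψᴴ) * Θ = 1 ∧ Θ * (Ψ + (ε : ℤ) • Ψᴴ) = 1 ∧
    e * e = e ∧ eᴴ * Ψ * e = Z₁ - (ε : ℤ) • Z₁ᴴ ∧
    (1 - e)ᴴ * Ψ * (1 - e) = Z₂ - (ε : ℤ) • Z₂ᴴ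

/-- `Ψ` plus a hyperbolic form is the hyperbolic form of a finitely generated projective module. -/
def SHp {A : Type*} [Ring A] [StarRing A] (ε : ℤˣ) {ι : Type*} [Fintype ι] [DecidableEq ι]
    (Ψ : Matrix ι ι A) : Prop :=
  ∃ m : ℕ, HypP ε (fromBlocks Ψ 0 0 (hyp (Fin m) A))

section

variable {A : Type} [Ring A] [StarRing A] {ε : ℤˣ}

theorem ee (ε : ℤˣ) {M N : Type} (X : Matrix M N A) : (ε : ℤ) • (ε : ℤ) • X = X := by
  rcases Int.units_eq_one_or ε with h | h <;> simp [h]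

theorem es (ε : ℤˣ) {M N : Type} (X : Matrix M N A) : ((ε : ℤ) • X)ᴴ = (ε : ℤ) • Xᴴ := by
  rcases Int.units_eq_one_or ε with h | h <;> simp [h]

theorem hypP_map {ι κ : Type} [Fintype ι] [DecidableEq ι] [Fintype κ] [DecidableEq κ]
    {Ψ : Matrix ι ι A} {Φ : Matrix κ κ A} (h : Isometric ε Ψ Φ) (hΨ : HypP ε Ψ) : HypP ε Φ := by
  obtain ⟨u, v, Z, huv, hvu, hΦ⟩ := h
  obtain ⟨Θ, e, Z₁, Z₂, h1, h2, he, h3, h4⟩ := hΨ
  have huv' : vᴴ * uᴴ = 1 := by rw [← conjTranspose_mul, huv, conjTranspose_one]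
  have hvu' : uᴴ * vᴴ = 1 := by rw [← conjTranspose_mul, hvu, conjTranspose_one]
  have hpol : Φ + (ε : ℤ) • Φᴴ = uᴴ * (Ψ + (ε : ℤ) • Ψᴴ) * u := by
    rw [hΦ]
    simp only [conjTranspose_add, conjTranspose_sub, conjTranspose_mul, es,
      conjTranspose_conjTranspose, smul_add, smul_sub, ee, Matrix.mul_add, Matrix.add_mul,
      Matrix.mul_smul, Matrix.smul_mul, Matrix.mul_assoc]
    abel
  have key : ∀ f Y : Matrix ι ι A, fᴴ * Ψ * f = Y - (ε : ℤ) • Yᴴ →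
      (v * f * u)ᴴ * Φ * (v * f * u) =
        (uᴴ * Y * u + (v * f * u)ᴴ * Z * (v * f * u)) -
          (ε : ℤ) • (uᴴ * Y * u + (v * f * u)ᴴ * Z * (v * f * u))ᴴ := by
    intro f Y hf
    have e1 : (v * f * u)ᴴ * (uᴴ * Ψ * u) * (v * f * u) = uᴴ * (fᴴ * Ψ * f) * u := by
      have e2 : (v * f * u)ᴴ * uᴴ = uᴴ * fᴴ := by
        rw [conjTranspose_mul, conjTranspose_mul, Matrix.mul_assoc, Matrix.mul_assoc, huv',
          Matrix.mul_one]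
      have e3 : u * (v * f * u) = f * u := by
        rw [← Matrix.mul_assoc, ← Matrix.mul_assoc, huv, Matrix.one_mul]
      calc (v * f * u)ᴴ * (uᴴ * Ψ * u) * (v * f * u)
          = ((v * f * u)ᴴ * uᴴ) * Ψ * (u * (v * f * u)) := by simp only [Matrix.mul_assoc]
        _ = _ := by rw [e2, e3]; simp only [Matrix.mul_assoc]
    rw [hΦ, Matrix.mul_sub, Matrix.sub_mul, Matrix.mul_add, Matrix.add_mul, e1, hf]
    simp only [conjTranspose_add, conjTranspose_mul, conjTranspose_conjTranspose, smul_add,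
      Matrix.mul_sub, Matrix.sub_mul, Matrix.mul_smul, Matrix.smul_mul, Matrix.mul_assoc]
    abel
  refine ⟨v * Θ * vᴴ, v * e * u, _,
    uᴴ * Z₂ * u + (v * (1 - e) * u)ᴴ * Z * (v * (1 - e) * u), ?_, ?_, ?_, key e Z₁ h3, ?_⟩
  · rw [hpol]
    calc uᴴ * (Ψ + (ε : ℤ) • Ψᴴ) * u * (v * Θ * vᴴ)
        = uᴴ * (Ψ + (ε : ℤ) • Ψᴴ) * (u * v) * Θ * vᴴ := by simp only [Matrix.mul_assoc]
      _ = uᴴ * ((Ψ + (ε : ℤ) • Ψᴴ) * Θ) * vᴴ := by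
          rw [huv, Matrix.mul_one]; simp only [Matrix.mul_assoc]
      _ = 1 := by rw [h1, Matrix.mul_one, hvu']
  · rw [hpol]
    calc v * Θ * vᴴ * (uᴴ * (Ψ + (ε : ℤ) • Ψᴴ) * u)
        = v * Θ * (vᴴ * uᴴ) * (Ψ + (ε : ℤ) • Ψᴴ) * u := by simp only [Matrix.mul_assoc]
      _ = v * (Θ * (Ψ + (ε : ℤ) • Ψᴴ)) * u := by
          rw [huv', Matrix.mul_one]; simp only [Matrix.mul_assoc]
      _ = 1 := by rw [h2, Matrix.mul_one, hvu]
  · calc v * e * u * (v * e * u) = v * e * (u * v) * e * u := by simp only [Matrix.mul_assoc]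
      _ = v * (e * e) * u := by rw [huv, Matrix.mul_one]; simp only [Matrix.mul_assoc]
      _ = v * e * u := by rw [he]
  · have e5 : (1 : Matrix κ κ A) - v * e * u = v * (1 - e) * u := by
      rw [Matrix.mul_sub, Matrix.sub_mul, Matrix.mul_one, hvu]
    rw [e5]
    exact key (1 - e) Z₂ h4

theorem even_blocks {ι κ : Type} (Z₁ : Matrix ι ι A) (Z₂ : Matrix κ κ A) :
    fromBlocks Z₁ 0 0 Z₂ - (ε : ℤ) • (fromBlocks Z₁ 0 0 Z₂)ᴴ =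
      fromBlocks (Z₁ - (ε : ℤ) • Z₁ᴴ) 0 0 (Z₂ - (ε : ℤ) • Z₂ᴴ) := by
  rw [fromBlocks_conjTranspose, fromBlocks_smul, sub_eq_add_neg, fromBlocks_neg, fromBlocks_add]
  simp [sub_eq_add_neg]

theorem hypP_sum {ι κ : Type} [Fintype ι] [DecidableEq ι] [Fintype κ] [DecidableEq κ]
    {Ψ : Matrix ι ι A} {Φ : Matrix κ κ A} (h : HypP ε Ψ) (h' : HypP ε Φ) :
    HypP ε (fromBlocks Ψ 0 0 Φ) := by
  obtain ⟨Θ, e, Z₁, Z₂, h1, h2, he, h3, h4⟩ := h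
  obtain ⟨Θ', e', Z₁', Z₂', h1', h2', he', h3', h4'⟩ := h'
  refine ⟨fromBlocks Θ 0 0 Θ', fromBlocks e 0 0 e', fromBlocks Z₁ 0 0 Z₁', fromBlocks Z₂ 0 0 Z₂',
    ?_, ?_, ?_, ?_, ?_⟩
  · rw [fromBlocks_conjTranspose, fromBlocks_smul, fromBlocks_add, fromBlocks_multiply]
    simp [h1, h1', fromBlocks_one, -zsmul_eq_mul]
  · rw [fromBlocks_conjTranspose, fromBlocks_smul, fromBlocks_add, fromBlocks_multiply]
    simp [h2, h2', fromBlocks_one, -zsmul_eq_mul]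
  · rw [fromBlocks_multiply]
    simp [he, he']
  · rw [even_blocks, fromBlocks_conjTranspose, fromBlocks_multiply, fromBlocks_multiply]
    simp [h3, h3', -zsmul_eq_mul]
  · have e1 : (1 : Matrix (ι ⊕ κ) (ι ⊕ κ) A) - fromBlocks e 0 0 e' =
        fromBlocks (1 - e) 0 0 (1 - e') := by
      rw [← fromBlocks_one, sub_eq_add_neg, fromBlocks_neg, fromBlocks_add]
      simp [sub_eq_add_neg]
    rw [e1, even_blocks, fromBlocks_conjTranspose, fromBlocks_multiply, fromBlocks_multiply]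
    simp only [Matrix.mul_zero, Matrix.zero_mul, add_zero, zero_add, conjTranspose_zero, h4, h4']

theorem hypP_hyp (ε : ℤˣ) (ι : Type) [Fintype ι] [DecidableEq ι] : HypP ε (hyp ι A) := by
  refine ⟨fromBlocks 0 ((ε : ℤ) • 1) 1 0, fromBlocks 1 0 0 0, 0, 0, ?_, ?_, ?_, ?_, ?_⟩
  · unfold hyp
    rw [fromBlocks_conjTranspose, fromBlocks_smul, fromBlocks_add, fromBlocks_multiply]
    rcases Int.units_eq_one_or ε with h | h <;> simp [h, fromBlocks_one]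
  · unfold hyp
    rw [fromBlocks_conjTranspose, fromBlocks_smul, fromBlocks_add, fromBlocks_multiply]
    rcases Int.units_eq_one_or ε with h | h <;> simp [h, fromBlocks_one]
  · rw [fromBlocks_multiply]
    simp
  · unfold hyp
    rw [fromBlocks_conjTranspose, fromBlocks_multiply, fromBlocks_multiply]
    simp
  · have e1 : (1 : Matrix (ι ⊕ ι) (ι ⊕ ι) A) - fromBlocks 1 0 0 0 = fromBlocks 0 0 0 1 := by
      rw [← fromBlocks_one, sub_eq_add_neg, fromBlocks_neg, fromBlocks_add]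
      simp
    unfold hyp
    rw [e1, fromBlocks_conjTranspose, fromBlocks_multiply, fromBlocks_multiply]
    simp

/-- Isometric forms. -/
theorem stab_of_isom {ι κ : Type} [Fintype ι] [DecidableEq ι] [Fintype κ] [DecidableEq κ]
    {Ψ : Matrix ι ι A} {Φ : Matrix κ κ A} (h : Isometric ε Ψ Φ) (hΦ : SHp ε Φ) : SHp ε Ψ := by
  obtain ⟨m, hm⟩ := hΦ
  exact ⟨m, hypP_map (EMVAux.iso_symm ε (EMVAux.iso_sum ε _ h)) hm⟩

/-- Stably hyperbolic forms. -/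
theorem shp_of_sh {ι : Type} [Fintype ι] [DecidableEq ι] {Ψ : Matrix ι ι A}
    (h : StablyHyperbolic ε Ψ) : SHp ε Ψ := by
  obtain ⟨m, n, hmn⟩ := h
  exact ⟨m, hypP_map (EMVAux.iso_symm ε hmn) (hypP_hyp ε (Fin n))⟩

/-- Removal of a hyperbolic summand. -/
theorem shp_destab {ι : Type} [Fintype ι] [DecidableEq ι] {Ψ : Matrix ι ι A} (N : Type)
    [Fintype N] [DecidableEq N] (h : SHp ε (fromBlocks Ψ 0 0 (hyp N A))) : SHp ε Ψ := by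
  obtain ⟨m, hm⟩ := h
  refine ⟨Fintype.card N + m, hypP_map ?_ hm⟩
  have s1 := EMVAux.iso_sum' ε Ψ (EMVAux.iso_trans ε
    (EMVAux.iso_sum ε (hyp (Fin m) A) (EMVAux.iso_symm ε (RO.SCHM.hyp_card (A := A) ε N)))
    (EMVAux.hyp_sum (A := A) ε (Fintype.card N) m))
  exact EMVAux.iso_trans ε (EMVAux.iso_symm ε (EMVAux.iso_assoc ε Ψ (hyp N A) (hyp (Fin m) A))) s1

/-- Sums. -/
theorem shp_sum {ι κ : Type} [Fintype ι] [DecidableEq ι] [Fintype κ] [DecidableEq κ]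
    {Ψ : Matrix ι ι A} {Φ : Matrix κ κ A} (h : SHp ε Ψ) (h' : SHp ε Φ) :
    SHp ε (fromBlocks Ψ 0 0 Φ) := by
  obtain ⟨m, hm⟩ := h
  obtain ⟨k, hk⟩ := h'
  refine ⟨m + k, hypP_map ?_ (hypP_sum hm hk)⟩
  have s2 : Isometric ε
      (fromBlocks (fromBlocks Ψ 0 0 (hyp (Fin m) A)) 0 0 (fromBlocks Φ 0 0 (hyp (Fin k) A)))
      (fromBlocks (fromBlocks Ψ 0 0 Φ) 0 0
        (fromBlocks (hyp (Fin m) A) 0 0 (hyp (Fin k) A))) := by
    refine EMVAux.iso_equiv ε _ _ (Equiv.sumSumSumComm ι κ (Fin m ⊕ Fin m) (Fin k ⊕ Fin k)) ?_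
    ext i j
    rcases i with (i | i) | (i | i) <;> rcases j with (j | j) | (j | j) <;> simp
  exact EMVAux.iso_trans ε s2 (EMVAux.iso_sum' ε _ (EMVAux.hyp_sum (A := A) ε m k))

theorem hypP_shp {ι : Type} [Fintype ι] [DecidableEq ι] {Ψ : Matrix ι ι A} (h : HypP ε Ψ) :
    SHp ε Ψ :=
  ⟨0, hypP_sum h (hypP_hyp ε (Fin 0))⟩

end

end Pool.Agent.Lib.MPb6f35e.TT.AR

/-! ## Module AR/FC -/

/-!
# Classes of forms (MP_8a3537_gt, folder AR) (helper76, after a proposal of helper73)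

`FC A`: a class `S` of `ε`-quadratic forms over `A` (`Matrix ι ι A`, `ι` finite) which contains the hyperbolic
forms of free modules and is closed under isometries, orthogonal sums, and the removal of the hyperbolic form of a
free module as an orthogonal summand. Examples: `StablyHyperbolic` (the smallest one), `SHp`.
-/

set_option autoImplicit false
set_option linter.unusedSectionVars false

namespace Pool.Agent.Lib.MPb6f35e.TT.AR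

open Matrix Pool.Agent.Lib.MPb6f35e.TT.UV

/-- A class of forms. -/
class FC (A : Type) [Ring A] [StarRing A] where
  S : ∀ (_ : ℤˣ) {ι : Type} [Fintype ι] [DecidableEq ι], Matrix ι ι A → Prop
  iso : ∀ {ε : ℤˣ} {ι κ : Type} [Fintype ι] [DecidableEq ι] [Fintype κ] [DecidableEq κ]
    {Ψ : Matrix ι ι A} {Φ : Matrix κ κ A}, Isometric ε Ψ Φ → S ε Φ → S ε Ψ
  hyp : ∀ (ε : ℤˣ) (n : ℕ), S ε (hyp (Fin n) A)
  sum : ∀ {ε : ℤˣ} {ι κ : Type} [Fintype ι] [DecidableEq ι] [Fintype κ] [DecidableEq κ]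
    {Ψ : Matrix ι ι A} {Φ : Matrix κ κ A}, S ε Ψ → S ε Φ → S ε (fromBlocks Ψ 0 0 Φ)
  destab : ∀ {ε : ℤˣ} {ι : Type} [Fintype ι] [DecidableEq ι] {Ψ : Matrix ι ι A} (n : ℕ),
    S ε (fromBlocks Ψ 0 0 (UV.hyp (Fin n) A)) → S ε Ψ

/-- The form `Ψ` is in the class. -/
def SS {A : Type} [Ring A] [StarRing A] [FC A] (ε : ℤˣ) {ι : Type} [Fintype ι] [DecidableEq ι]
    (Ψ : Matrix ι ι A) : Prop :=
  FC.S ε Ψ

section

variable {A : Type} [Ring A] [StarRing A] [FC A] {ε : ℤˣ}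

theorem ss_of_isom {ι κ : Type} [Fintype ι] [DecidableEq ι] [Fintype κ] [DecidableEq κ]
    {Ψ : Matrix ι ι A} {Φ : Matrix κ κ A} (h : Isometric ε Ψ Φ) (hΦ : SS ε Φ) : SS ε Ψ :=
  FC.iso h hΦ

theorem ss_sum {ι κ : Type} [Fintype ι] [DecidableEq ι] [Fintype κ] [DecidableEq κ]
    {Ψ : Matrix ι ι A} {Φ : Matrix κ κ A} (h : SS ε Ψ) (h' : SS ε Φ) :
    SS ε (fromBlocks Ψ 0 0 Φ) :=
  FC.sum h h'

/-- Removal of a hyperbolic summand. -/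
theorem ss_destab {ι : Type} [Fintype ι] [DecidableEq ι] {Ψ : Matrix ι ι A} (N : Type)
    [Fintype N] [DecidableEq N] (h : SS ε (fromBlocks Ψ 0 0 (hyp N A))) : SS ε Ψ := by
  refine FC.destab (Fintype.card N) (ss_of_isom ?_ h)
  exact EMVAux.iso_sum' ε Ψ (RO.SCHM.hyp_card (A := A) ε N)

/-- Stably hyperbolic forms are in every class. -/
theorem ss_of_sh {ι : Type} [Fintype ι] [DecidableEq ι] {Ψ : Matrix ι ι A}
    (h : StablyHyperbolic ε Ψ) : SS ε Ψ := by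
  obtain ⟨m, n, hmn⟩ := h
  exact FC.destab m (FC.iso hmn (FC.hyp ε n))

end

/-! ### The two examples -/

theorem sh_of_isom {A : Type} [Ring A] [StarRing A] {ε : ℤˣ} {ι κ : Type} [Fintype ι]
    [DecidableEq ι] [Fintype κ] [DecidableEq κ] {Ψ : Matrix ι ι A} {Φ : Matrix κ κ A}
    (h : Isometric ε Ψ Φ) (hΦ : StablyHyperbolic ε Φ) : StablyHyperbolic ε Ψ :=
  SWPAux.stab_of_isom h hΦ

theorem sh_hyp {A : Type} [Ring A] [StarRing A] (ε : ℤˣ) (n : ℕ) :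
    StablyHyperbolic ε (hyp (Fin n) A) :=
  ⟨0, n, EMVAux.hyp_sum (A := A) ε n 0⟩

theorem sh_sum {A : Type} [Ring A] [StarRing A] {ε : ℤˣ} {ι κ : Type} [Fintype ι]
    [DecidableEq ι] [Fintype κ] [DecidableEq κ] {Ψ : Matrix ι ι A} {Φ : Matrix κ κ A}
    (h : StablyHyperbolic ε Ψ) (h' : StablyHyperbolic ε Φ) :
    StablyHyperbolic ε (fromBlocks Ψ 0 0 Φ) := by
  obtain ⟨m₁, n₁, h₁⟩ := h
  obtain ⟨m₂, n₂, h₂⟩ := h'
  exact ⟨m₁ + m₂, n₁ + n₂, RO.SCHM.sh_sum ε Ψ Φ m₁ n₁ m₂ n₂ h₁ h₂⟩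

theorem sh_destab {A : Type} [Ring A] [StarRing A] {ε : ℤˣ} {ι : Type} [Fintype ι]
    [DecidableEq ι] {Ψ : Matrix ι ι A} (n : ℕ)
    (h : StablyHyperbolic ε (fromBlocks Ψ 0 0 (hyp (Fin n) A))) : StablyHyperbolic ε Ψ := by
  obtain ⟨m, k, hmk⟩ := h
  refine ⟨n + m, k, ?_⟩
  have s1 := EMVAux.iso_sum' ε Ψ (EMVAux.iso_symm ε (EMVAux.hyp_sum (A := A) ε n m))
  have s2 := EMVAux.iso_assoc ε Ψ (hyp (Fin n) A) (hyp (Fin m) A)
  exact EMVAux.iso_trans ε s1 (EMVAux.iso_trans ε s2 hmk)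

/-- The class of the stably hyperbolic forms. -/
@[reducible] def fcSH (A : Type) [Ring A] [StarRing A] : FC A where
  S := fun ε _ _ _ Ψ => StablyHyperbolic ε Ψ
  iso := fun h h' => sh_of_isom h h'
  hyp := fun ε n => sh_hyp ε n
  sum := fun h h' => sh_sum h h'
  destab := fun n h => sh_destab n h

/-- The class of the forms which are stably hyperbolic forms of projective modules. -/
@[reducible] def fcSHp (A : Type) [Ring A] [StarRing A] : FC A where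
  S := fun ε _ _ _ Ψ => SHp ε Ψ
  iso := fun h h' => stab_of_isom h h'
  hyp := fun ε n => hypP_shp (hypP_hyp ε (Fin n))
  sum := fun h h' => shp_sum h h'
  destab := fun n h => shp_destab (Fin n) h

/-- A class of forms over the group ring `R[G]` which contains the forms `UF ψ 0 M`, `M` a Tate matrix (`M = - ε M^*`),
`ψ` and `M` with supports in the two sets of some data. -/
class FCG (R G : Type) [Ring R] [StarRing R] [Group G] extends FC (MonoidAlgebra R G) where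
  tpp : ∀ (L : Subgroup G) (X1 X2 Yp Ym : Set G), ROK.PPK L X1 X2 ∅ Yp Ym →
    ∀ (ε : ℤˣ) (n : ℕ) (ψ M : Matrix (Fin n) (Fin n) (MonoidAlgebra R G)), SuppIn X1 ψ →
      SuppIn X2 M → M + (ε : ℤ) • Mᴴ = 0 → SS ε (UF ψ 0 M)

end Pool.Agent.Lib.MPb6f35e.TT.AR

/-! ## Module AR/Spec -/

/-!
# Classes of forms (MP_8a3537_gt, folder AR): the Specs of RO, ROK, LL for a class of forms (helper76)

These are the statements of the folders RO, ROK, LL (helper28 and others) with an arbitrary class `SS` of forms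
(`AR/FC.lean`) instead of `StablyHyperbolic`. The proofs are the same.
-/

set_option autoImplicit false
set_option linter.unusedSectionVars false
set_option linter.unusedSimpArgs false

namespace Pool.Agent.Lib.MPb6f35e.TT.AR

open Matrix Pool.Agent.Lib.MPb6f35e.TT.UV Pool.Agent.Lib.MPb6f35e.TT.AU Pool.Agent.Lib.MPb6f35e.TT.RO
open Pool.Agent.Lib.MPb6f35e.TT.ROK Pool.Agent.Lib.MPb6f35e.TT.LL

/-- The theorem on a single block. -/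
def Blk (R : Type) {G : Type} [Ring R] [StarRing R] [Group G]
    [FCG R G] (Xa Xb : Set G) : Prop :=
  ∀ (ε : ℤˣ) (n : ℕ) (ψ χ : Matrix (Fin n) (Fin n) (MonoidAlgebra R G)), SuppIn Xa ψ →
    SuppIn Xb χ → IsNilpotent (nu ε (ψ + (ε : ℤ) • ψᴴ) 0 (χ + (ε : ℤ) • χᴴ)) →
    SS ε (UF ψ 0 χ)

/-- The theorem for all data of block type with the ends `x1`, `x2`. -/
def SE (R G : Type) {V : Type} [Ring R] [StarRing R] [Group G]
    [FCG R G] [MulAction G V] (d : V → V → ℕ)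
    (x1 x2 : V) : Prop :=
  ∀ (L : Subgroup G) (g : G) (Xb Yp Ym : Set G), PPK L (La L g) Xb ∅ Yp Ym →
    Geo d L (La L g) Xb ∅ x1 x2 → g • x1 = x2 → g • x2 = x1 → Blk R (La L g) Xb

/-- **SWP** (size 120): exchange of the two summands, change of `ψ`, `χ` by `c - ε c^*`, and the
trivial form.

PROOF. (a) exchange the coordinates and multiply one of them by `ε`: `(ψ, 1 + μ^*; 0, χ)` becomes
`(χ, 0; ε (1 + μ^*), ψ)`, and modulo `Z - ε Z^*` the entry `ε (1 + μ^*)` at `(2,1)` is the entry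
`1 + μ = ε (ε (1 + μ^*))^*` at `(1,2)`. (b) `Z = diag(c, d)`. (c) `UF 0 0 0 = hyp`; transitivity. -/
def SpecSWPP : Prop :=
  ∀ (A : Type) [Ring A] [StarRing A] [FC A] (ε : ℤˣ) (n : ℕ) (ψ μ χ : Matrix (Fin n) (Fin n) A),
    (SS ε (UF χ μᴴ ψ) → SS ε (UF ψ μ χ)) ∧
    (∀ c d : Matrix (Fin n) (Fin n) A, SS ε (UF ψ μ χ) →
      SS ε (UF (ψ + c - (ε : ℤ) • cᴴ) μ (χ + d - (ε : ℤ) • dᴴ))) ∧
    SS ε (UF (0 : Matrix (Fin n) (Fin n) A) 0 0)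

/-- **NWC** (size 250): Newton iteration (paper LEMMA 2, CLAIM).

PROOF. Claim for all `k ≥ 1` by induction on `N - k`: for all `p ∈ E k false true`, `m ∈ E 1 false false`,
`q ∈ E 1 true false` the form `(p, 1 + m; 0, q)` is stably hyperbolic. `k ≥ N`: `p = 0` (`mono`, `zero`).
`1 + m` is invertible: `m^i ∈ E i`, so `m^N = 0` (or `N = 0` and everything is `0`). `u = diag(1, (1 + m)⁻¹)`
gives `(0, 1; 0, q')`, and `u = (1, z; 0, 1)`: `uᴴ (0, 1; 0, q') u = (0, 1; 0, zᴴ + q')`, so with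
`z = -q'ᴴ` this is `(0, 1; 0, 0) = hyp`. Step:
`u = (1, 0; -p, 1)` (invertible): `uᴴ (p, 1 + m; 0, q) u = (-m p + pᴴ q p, 1 + m - pᴴ q; -q p, q)`, and modulo
`Z - ε Zᴴ` (`Z = (0, 0; q p, 0)`) this is `(-m p + pᴴ q p, 1 + (m - pᴴ (q + ε qᴴ)); 0, q)`. The types:
`pᴴ ∈ E k false true`, `qᴴ ∈ E 1 true false`; `m p ∈ E (k+1) false true`, `pᴴ q p ∈ E (2k+1) false true`,
`pᴴ q ∈ E (k+1) false false ≤ E 1 false false`. -/
def SpecNWC : Prop :=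
  ∀ (A : Type) [Ring A] [StarRing A] [FC A] (ε : ℤˣ) (n N : ℕ)
    (E : ℕ → Bool → Bool → AddSubgroup (Matrix (Fin n) (Fin n) A)), EFam E N →
    ∀ p ∈ E 1 false true, ∀ m ∈ E 1 false false, ∀ q ∈ E 1 true false,
      SS ε (fromBlocks p (1 + m) 0 q)

/-- **NWT** (size 150, deps `SpecEFA`, `SpecNWC`, `SpecHLF`; imports `UV/TAT`, `UV/SWP`): no flips.

PROOF. `a = ψ + ε ψᴴ`: if `a i j` is not `0` at `x` then `ψ i j` is not `0` at `x` or `ψ j i` at `x⁻¹`;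
`Flip H x ↔ Flip H x⁻¹`. HLF: `a = p + ε pᴴ`, `b = q + ε qᴴ`, `p = cutM c a`, `q = cutM c' b`. EFA:
`p ∈ EE 1 false true`, `μᴴ ∈ EE 1 false false`, `ε • q = cutM c' (ε • b) ∈ EE 1 true false`. NWC:
`UF p μ q` is stably hyperbolic. `ψ - p`, `χ - q` are supported in `X1`, `X2`, and
`(ψ - p) + ε (ψ - p)ᴴ = 0`: TAT (`δ = -ε`): `ψ = p + c0 - ε c0ᴴ`; SWP (2). -/
def SpecNWT : Prop :=
  ∀ (R G : Type) [Ring R] [StarRing R] [Group G]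
    [FCG R G] (H : Subgroup G) (X1 X2 X3 Yp Ym : Set G),
    PingPong H X1 X2 X3 Yp Ym → ∀ (ε : ℤˣ) (n : ℕ)
    (ψ μ χ : Matrix (Fin n) (Fin n) (MonoidAlgebra R G)), SuppIn X1 ψ → SuppIn X3 μ →
    SuppIn X2 χ → IsNilpotent (nu ε (ψ + (ε : ℤ) • ψᴴ) μ (χ + (ε : ℤ) • χᴴ)) →
    (∀ i j x, (ψ i j).coeff x ≠ 0 → ¬ Flip H x) → (∀ i j x, (χ i j).coeff x ≠ 0 → ¬ Flip H x) →
    SS ε (UF ψ μ χ)

/-- **SCH** (size 300): elimination (paper LEMMA 3).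

PROOF. Index set `M ⊕ (N ⊕ N)`, `F = (Λ, 0, -Ξᴴ; 0, ψ', 1; 0, 0, 0)`. `α = ψ' + ε ψ'ᴴ`.
(1) `u1 = (1, 0, 0; Ξ, 1, 0; -α Ξ, 0, 1)`: modulo `Z - ε Zᴴ`, `u1ᴴ F u1 = (Λ + Ξᴴ ψ' Ξ) ⊕ (ψ', 1; 0, 0)`:
`u1ᴴ F u1 = (Λ + Ξᴴ ψ' Ξ + (Ξᴴ α Ξ - Ξᴴ α Ξ), Ξᴴ ψ', 0; ψ' Ξ - α Ξ, ψ', 1; 0, 0, 0)`, and `ψ' Ξ - α Ξ = -ε ψ'ᴴ Ξ`
at `(2,1)` cancels `Ξᴴ ψ'` at `(1,2)` (`Z = (0, Ξᴴ ψ'; 0, 0)` up to sign). And `(ψ', 1; 0, 0) ≅ (0, 1; 0, 0)` by
`(1, 0; -ψ', 1)`. So `F ≅ (Λ + Ξᴴ ψ' Ξ) ⊕ hyp N`.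
(2) `Zm = Φi Ξᴴ`, `u2 = (1, 0, Zm; 0, 1, 0; 0, 0, 1)`: modulo `Z - ε Zᴴ`,
`u2ᴴ F u2 = Λ ⊕ (ψ', 1; 0, κ)`, `κ = -Zmᴴ Λ Zm`: the entries `(1,3)`: `Λ Zm - Ξᴴ`, `(3,1)`: `Zmᴴ Λ`, together
`(Λ + ε Λᴴ) Zm - Ξᴴ = 0`; `(3,3)`: `Zmᴴ Λ Zm - Zmᴴ Ξᴴ = Zmᴴ Λ Zm - Zmᴴ (Λ + ε Λᴴ) Zm = -ε Zmᴴ Λᴴ Zm`, which is
`-Zmᴴ Λ Zm` modulo `Z - ε Zᴴ`.
So `(Λ + Ξᴴ ψ' Ξ) ⊕ hyp N ≅ Λ ⊕ (ψ', 1; 0, κ)` (`Isometric` is symmetric, transitive, compatible with sums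
and reindexing: see the auxiliary lemmas of `UV/EMV`, `UV/SWP`, `AU/GDS`); the right side is stably
hyperbolic as the sum of two such forms, so the left side is. -/
def SpecSCH : Prop :=
  ∀ (A : Type) [Ring A] [StarRing A] [FC A] (ε : ℤˣ) (M N : Type) [Fintype M] [DecidableEq M] [Fintype N]
    [DecidableEq N] (Λ Φi : Matrix M M A) (Ξ : Matrix N M A) (ψ' : Matrix N N A),
    (Λ + (ε : ℤ) • Λᴴ) * Φi = 1 → Φi * (Λ + (ε : ℤ) • Λᴴ) = 1 → SS ε Λ →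
    SS ε (fromBlocks ψ' 1 0 (-((Φi * Ξᴴ)ᴴ * Λ * (Φi * Ξᴴ)))) →
    SS ε (Λ + Ξᴴ * ψ' * Ξ)

/-- **SCU** (size 200, dep `SpecSCH`): elimination for `UF`.

PROOF. `ν = nu ε (ψ + ε ψᴴ) μ (χ + ε χᴴ)`, `w = W0 N ν`: `w (1 + ν) = 1 = (1 + ν) w` (geometric sum).
`Λ = UF ψ μ χ`, `Λ + ε Λᴴ = J (1 + ν)`, `J = (0, 1; ε, 0)`, `J⁻¹ = Ji = (0, ε; 1, 0)`; `Φi = w Ji`.
`Ξ' = fromCols Ξ 0 : r × (n ⊕ n)`: `Φi Ξ'ᴴ = w (0; Ξᴴ) = (blk w true false * Ξᴴ; blk w false false * Ξᴴ)`, so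
`-(Φi Ξ'ᴴ)ᴴ Λ (Φi Ξ'ᴴ) = kap ψ μ χ w Ξ`, `Λ + Ξ'ᴴ ψ' Ξ' = UF (ψ + Ξᴴ ψ' Ξ) μ χ`, `UF ψ' 0 κ = (ψ', 1; 0, κ)`. SCH.
Second part: `κ + ε κᴴ = -Zmᴴ (Λ + ε Λᴴ) Zm = -Zmᴴ Ξ'ᴴ = -(Ξ' Zm)ᴴ = -(Ξ (blk w true false) Ξᴴ)ᴴ`. -/
def SpecSCU : Prop :=
  ∀ (A : Type) [Ring A] [StarRing A] [FC A] (ε : ℤˣ) (n r N : ℕ) (ψ μ χ : Matrix (Fin n) (Fin n) A)
    (Ξ : Matrix (Fin r) (Fin n) A) (ψ' : Matrix (Fin r) (Fin r) A),
    (nu ε (ψ + (ε : ℤ) • ψᴴ) μ (χ + (ε : ℤ) • χᴴ)) ^ N = 0 →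
    (SS ε (UF ψ μ χ) →
      SS ε (UF ψ' 0
        (kap ψ μ χ (W0 N (nu ε (ψ + (ε : ℤ) • ψᴴ) μ (χ + (ε : ℤ) • χᴴ))) Ξ)) →
      SS ε (UF (ψ + Ξᴴ * ψ' * Ξ) μ χ)) ∧
    kap ψ μ χ (W0 N (nu ε (ψ + (ε : ℤ) • ψᴴ) μ (χ + (ε : ℤ) • χᴴ))) Ξ +
      (ε : ℤ) • (kap ψ μ χ (W0 N (nu ε (ψ + (ε : ℤ) • ψᴴ) μ (χ + (ε : ℤ) • χᴴ))) Ξ)ᴴ =
      -(Ξ * (blk (W0 N (nu ε (ψ + (ε : ℤ) • ψᴴ) μ (χ + (ε : ℤ) • χᴴ))) true false)ᴴ * Ξᴴ)

/-- **ELM** (size 250, deps `SpecEFA`, `SpecFAC`, `SpecSCU`, `SpecKNA`, `SpecKSP`): the elimination.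

PROOF (paper LEMMA 5). `c = dc H g` is biinvariant and inverse closed (`g² ∈ H`), `ψc = cutM c ψ`,
`ψ0 = cutM cᶜ ψ`, `ψ = ψ0 + ψc`. `a = ψ + ε ψᴴ`, `ac = ψc + ε ψcᴴ = cutM c a`, `a0 = ψ0 + ε ψ0ᴴ = cutM cᶜ a`. `N ≥ 1`
with `(nu ε a μ b) ^ N = 0`. EFA: `a0, ac ∈ E 1 false true`, `μ ∈ E 1 true true`, `b ∈ E 1 true false`
(`ε • (ε • b)`). KNA: `(nu ε a0 μ b) ^ N = 0`. FAC for `ψc`: `Ξ`, `ψ'`; `α = ψ' + ε ψ'ᴴ`, `Ξᴴ α Ξ = ac`. SCU for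
`ψ0`: `κ = kap ..`, `κ + ε κᴴ = -(Ξ wᴴ Ξᴴ)`; KSP with `X1' = {x ∈ X1 | x ∉ c}`: `supp κ`; KNA: nilpotent. So
`UF ψ' 0 κ` is stably hyperbolic by the hypothesis `hB` (`{x | x = g} ⊆ {l g}`). SCU: done
(`ψ0 + Ξᴴ ψ' Ξ = ψ`). The hypothesis `Sub1` for `X1'` is given as `hS`. -/
def SpecELM : Prop :=
  ∀ (R G : Type) [Ring R] [StarRing R] [Group G]
    [FCG R G] (H : Subgroup G) (X1 X2 X3 Yp Ym : Set G),
    PingPong H X1 X2 X3 Yp Ym → ∀ (ε : ℤˣ) (n : ℕ)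
    (ψ μ χ : Matrix (Fin n) (Fin n) (MonoidAlgebra R G)), SuppIn X1 ψ → SuppIn X3 μ →
    SuppIn X2 χ → IsNilpotent (nu ε (ψ + (ε : ℤ) • ψᴴ) μ (χ + (ε : ℤ) • χᴴ)) →
    ∀ g ∈ X1, g * g ∈ H → Sub1 H X1 X2 X3 Yp Ym {x | x ∈ X1 ∧ x ∉ dc H g} →
    (∀ (r : ℕ) (ψ' κ : Matrix (Fin r) (Fin r) (MonoidAlgebra R G)),
      SuppIn {x | ∃ l ∈ Kg H g, x = l * g} ψ' →
      SuppIn (WS H {x | x ∈ X1 ∧ x ∉ dc H g} X2 X3 true false) κ →
      IsNilpotent (nu ε (ψ' + (ε : ℤ) • ψ'ᴴ) 0 (κ + (ε : ℤ) • κᴴ)) →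
      SS ε (UF ψ' 0 κ)) →
    IsNilpotent (nu ε (cutM (dc H g)ᶜ ψ + (ε : ℤ) • (cutM (dc H g)ᶜ ψ)ᴴ) μ
      (χ + (ε : ℤ) • χᴴ)) ∧
    (SS ε (UF (cutM (dc H g)ᶜ ψ) μ χ) → SS ε (UF ψ μ χ))

/-- **RMV** (size 250, deps `RO.SpecEFA`, `RO.SpecKNA`, `SpecELM`; imports `RO/ROT`, `RO/ELM` for the auxiliary lemmas): removal of the
flips in `ψ`, with the same nilpotency index.

PROOF. Strong induction on `ROTAux.fl H ψ` (for all `ψ`). No flips: the hypothesis. Otherwise `x ∈ supp (ψ i j)`, `Flip H x`: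
`ROTAux.exists_flip`: `g = x h ∈ X1`, `g g ∈ H`, `x ∈ dc H g`. ELM with the hypotheses (`La`, `BX` are the sets of ELM): it suffices
that `UF ψ0 μ χ` is stably hyperbolic, `ψ0 = cutM (dc H g)ᶜ ψ`; `fl ψ0 < fl ψ` (`ROTAux.fl_cut_lt`). Index: `c = dc H g` is biinvariant and
inverse closed; `ψ0 + ε ψ0ᴴ = cutM cᶜ a =: a0`, `cutM c a =: ac`, `a = ψ + ε ψᴴ` (see `RO/ELM.lean`). EFA: `a0`, `ac` are in `EE 1 false true`,
`μ ∈ EE 1 true true`, `b = ε • (ε • b) ∈ EE 1 true false`; KNA: `(nu ε a0 μ b) ^ N = 0`. -/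
def SpecRMV : Prop :=
  ∀ (R G : Type) [Ring R] [StarRing R] [Group G]
    [FCG R G] (H : Subgroup G) (X1 X2 X3 Yp Ym : Set G),
    PingPong H X1 X2 X3 Yp Ym →
    (∀ g ∈ X1, g * g ∈ H → Sub1 H X1 X2 X3 Yp Ym {x | x ∈ X1 ∧ x ∉ dc H g} ∧
      Blk R (La (Kg H g) g) (BX H X1 X2 X3 g)) →
    ∀ (ε : ℤˣ) (n N : ℕ), 1 ≤ N → ∀ (ψ μ χ : Matrix (Fin n) (Fin n) (MonoidAlgebra R G)),
    SuppIn X1 ψ → SuppIn X3 μ → SuppIn X2 χ →
    (nu ε (ψ + (ε : ℤ) • ψᴴ) μ (χ + (ε : ℤ) • χᴴ)) ^ N = 0 →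
    (∀ ψ0 : Matrix (Fin n) (Fin n) (MonoidAlgebra R G), SuppIn X1 ψ0 →
      (∀ i j x, (ψ0 i j).coeff x ≠ 0 → ¬ Flip H x) →
      (nu ε (ψ0 + (ε : ℤ) • ψ0ᴴ) μ (χ + (ε : ℤ) • χᴴ)) ^ N = 0 →
      SS ε (UF ψ0 μ χ)) →
    SS ε (UF ψ μ χ)

/-- **NEI** (size 280, dep `SpecSCH`; imports `UV/SWP`): paper LEMMA 7.

PROOF. `a = ψ + ε ψᴴ`, so `aᴴ = ε a`. `V = 1 - a qᴴ`, `Vᴴ = 1 - q aᴴ = 1 - ε q a`, `S = ∑_{i<N} (ε q a)^i`: `Vᴴ S = S Vᴴ = 1` (`(ε q a)^N =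
ε^N (q a)^N = 0`), so `V Sᴴ = Sᴴ V = 1`. `Z = zet ε N q a = ε S q`. `Λ = fromBlocks ψ V 0 0`, `Λ + ε Λᴴ = fromBlocks a V (ε Vᴴ) 0`,
`Φi = fromBlocks 0 (ε S) Sᴴ (-(ε Sᴴ a S))` is its inverse. `Ξ = fromCols 0 qᴴ`, `Φi Ξᴴ = (Z; -(Sᴴ a Z))`.
`(Φi Ξᴴ)ᴴ Λ (Φi Ξᴴ) = Zᴴ ψ Z - Zᴴ V Sᴴ a Z = Zᴴ ψ Z - Zᴴ a Z`, so `κ = Zᴴ a Z - Zᴴ ψ Z = ε Zᴴ ψᴴ Z = Zᴴ ψ Z + (X - ε Xᴴ)` with
`X = ε Zᴴ ψᴴ Z`. So `fromBlocks ψ 1 0 κ` is stably hyperbolic by SWP (2) (`UF ψ 0 κ`). `Λ` is stably hyperbolic: `u = diag(1, Sᴴ)` gives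
`(ψ, 1; 0, 0)`, and `(1, 0; -ψ, 1)` gives `(0, 1; 0, 0)` (see `RO/SCH.lean`, `RO/NWC.lean`). SCH: `Λ + Ξᴴ ψ Ξ = fromBlocks ψ V 0 (q ψ qᴴ)`
is stably hyperbolic. Finally `u = fromBlocks 1 (-qᴴ) 0 1`: `uᴴ (ψ, 1; 0, q) u = (ψ, 1 - ψ qᴴ; -q ψ, q ψ qᴴ) =
fromBlocks ψ V 0 (q ψ qᴴ) + Z' - ε Z'ᴴ` with `Z' = fromBlocks 0 0 (-(q ψ)) 0` (`(1,2)`: `-ψ qᴴ = -a qᴴ + ε ψᴴ qᴴ`). -/
def SpecNEI : Prop :=
  ∀ (A : Type) [Ring A] [StarRing A] [FC A] (ε : ℤˣ) (n N : ℕ) (ψ q : Matrix (Fin n) (Fin n) A),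
    (q * (ψ + (ε : ℤ) • ψᴴ)) ^ N = 0 →
    SS ε (UF ψ 0 ((zet ε N q (ψ + (ε : ℤ) • ψᴴ))ᴴ * ψ *
      zet ε N q (ψ + (ε : ℤ) • ψᴴ))) →
    SS ε (UF ψ 0 q)

/-- **STY** (size 300, deps `RO.SpecEFA`, `SpecDRC`, `SpecHLK`, `SpecNEI`, `SpecNEN`, `SpecNES`; imports `UV/TAT`, `UV/SWP`): the Newton
step.

PROOF. `a = ψ + ε ψᴴ`, `b = χ + ε χᴴ`; `supp a ⊆ Xa` (`X1i`). `b i j` at `x` nonzero implies `χ i j` at `x` or `χ j i` at `x⁻¹` nonzero, so not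
`Flip L x` (`Flip L x ↔ Flip L x⁻¹`). HLK: `c`, `q0 = cutM c b`, `b = q0 + ε q0ᴴ`. `W = {x | x ∈ c ∧ x ∈ Xb}` is `Hf L Xb W`, `supp q0 ⊆ W`. `χ - q0` has
`(χ - q0) + ε (χ - q0)ᴴ = 0`, support in `Xb`: TAT (`δ = -ε`): `χ = q0 + c0 - ε c0ᴴ`: SWP (2): enough for `UF ψ 0 q0`. EFA (data `Xa`, `Xb`,
`∅`, `μ = 0`): `E = EE L ν`, `EFam E N`; `a = blk ν false true ∈ E 1 false true`; `q0 ∈ E 1 true false` (`ε • q0 = cutM c (ε • b)`, `blk ν true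
false = ε • b`, `E` is a subgroup). NEI with `(q0 a)^N = 0` (NEN): it suffices that `UF ψ 0 χ'`, `χ' = Zᴴ ψ Z`, `Z = zet ε N q0 a`, is stably
hyperbolic. `supp χ' ⊆ XD Xa W` (NES), `χ' + ε χ'ᴴ = Zᴴ a Z =: b'`. If `N ≤ 3`: `b' = 0`; `XD` is inverse closed without `x = x⁻¹` (DRC: `X2i`,
`X2n`), TAT (`δ = -ε`): `χ' = c1 - ε c1ᴴ`, so `UF ψ 0 χ'` follows from `UF ψ 0 0`, which is `(ψ, 1; 0, 0)`: `≅ hyp` (as `nu` = ..; e.g.
SWP (3) after the exchange, or `NEI` with `q = 0`; or directly `u = (1, 0; -ψ, 1)`). If `3 ≤ N`: NEN and the hypothesis for `W`. -/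
def SpecSTY : Prop :=
  ∀ (R G : Type) [Ring R] [StarRing R] [Group G]
    [FCG R G] (L : Subgroup G) (g : G) (Xb Yp Ym : Set G),
    PPK L (La L g) Xb ∅ Yp Ym → ∀ (ε : ℤˣ) (n N : ℕ), 1 ≤ N →
    ∀ ψ χ : Matrix (Fin n) (Fin n) (MonoidAlgebra R G), SuppIn (La L g) ψ → SuppIn Xb χ →
    (nu ε (ψ + (ε : ℤ) • ψᴴ) 0 (χ + (ε : ℤ) • χᴴ)) ^ N = 0 →
    (∀ i j x, (χ i j).coeff x ≠ 0 → ¬ Flip L x) →
    (∀ W : Set G, Hf L Xb W → 3 ≤ N → ∀ χ' : Matrix (Fin n) (Fin n) (MonoidAlgebra R G),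
      SuppIn (XD (La L g) W) χ' →
      (nu ε (ψ + (ε : ℤ) • ψᴴ) 0 (χ' + (ε : ℤ) • χ'ᴴ)) ^ (N - 1) = 0 →
      SS ε (UF ψ 0 χ')) →
    SS ε (UF ψ 0 χ)

/-- **MNK** (size 250, deps `SpecNWT`, `SpecSBK`, `SpecBLK`, `SpecSYK`, `SpecBLG`, `SpecRMV`; imports `UV/SWP`, `UV/IND`): the theorem for data.

PROOF. For `g ∈ X1`, `g g ∈ H`: SBK (4), BLK, BLG (ends `x1`, `g x1`; `g (g x1) = x1`) and `SE R G d x1 (g x1)`: the hypothesis of RMV. So it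
suffices to consider `ψ` without flips (`N ≥ 1` with `ν^N = 0`). Exchange (SWP (1), `INDAux.swap_zero`, SYK): RMV for the exchanged data
(`X2`, `X1`, `Xinv X3`, ends `x2`, `x1`): we may assume that `χ` has no flips. NWT. -/
def SpecMNK : Prop :=
  ∀ (R G V : Type) [Ring R] [StarRing R] [Group G]
    [FCG R G] [MulAction G V] (d : V → V → ℕ), TM G d →
    ∀ (H : Subgroup G) (X1 X2 X3 Yp Ym : Set G) (x1 x2 : V), PPK H X1 X2 X3 Yp Ym →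
    Geo d H X1 X2 X3 x1 x2 → (∀ g ∈ X1, g * g ∈ H → SE R G d x1 (g • x1)) →
    (∀ g ∈ X2, g * g ∈ H → SE R G d x2 (g • x2)) →
    ∀ (ε : ℤˣ) (n : ℕ) (ψ μ χ : Matrix (Fin n) (Fin n) (MonoidAlgebra R G)), SuppIn X1 ψ →
    SuppIn X3 μ → SuppIn X2 χ →
    IsNilpotent (nu ε (ψ + (ε : ℤ) • ψᴴ) μ (χ + (ε : ℤ) • χᴴ)) → SS ε (UF ψ μ χ)

section Geometry

variable (R G : Type) {V : Type} [Ring R] [StarRing R] [Group G] [FCG R G] [MulAction G V]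
  (d : V → V → ℕ)

/-- The claim for the nilpotency index `N`: all data with the ends `x1`, `x2`. -/
def Cl (N : ℕ) (x1 x2 : V) : Prop :=
  ∀ (L : Subgroup G) (X1 X2 Yp Ym : Set G), PPK L X1 X2 ∅ Yp Ym → Geo d L X1 X2 ∅ x1 x2 →
    ∀ (ε : ℤˣ) (n : ℕ) (ψ χ : Matrix (Fin n) (Fin n) (MonoidAlgebra R G)), SuppIn X1 ψ →
    SuppIn X2 χ → (nu ε (ψ + (ε : ℤ) • ψᴴ) 0 (χ + (ε : ℤ) • χᴴ)) ^ N = 0 →
    SS ε (UF ψ 0 χ)

/-- The longer exchanged pairs with a smaller stabilizer, at `x1`. -/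
def HU (x1 x2 : V) : Prop :=
  ∀ f : G, f • f • x1 = x1 → d x1 (f • x1) = d x1 x2 + d x2 (f • x1) →
    ¬ Ns (MulAction.stabilizer G x1 ⊓ MulAction.stabilizer G x2) f → SE R G d x1 (f • x1)

/-- The line condition. -/
def HS (x1 x2 : V) : Prop :=
  ∀ u f : G, Ns (MulAction.stabilizer G x1 ⊓ MulAction.stabilizer G x2) u →
    Ns (MulAction.stabilizer G x1 ⊓ MulAction.stabilizer G x2) f →
    u * u ∈ MulAction.stabilizer G x1 ⊓ MulAction.stabilizer G x2 →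
    f * f ∈ MulAction.stabilizer G x1 ⊓ MulAction.stabilizer G x2 →
    d x1 (u • x1) = d x1 x2 + d x2 (u • x1) → d x2 (f • x2) = d x2 x1 + d x1 (f • x2) →
    ¬ (u • x1 = x2 ∧ f • x2 = x1) →
    (∀ h ∈ MulAction.stabilizer G x1 ⊓ MulAction.stabilizer G x2, h * u * (h * u) ≠ 1) →
    (∀ h ∈ MulAction.stabilizer G x1 ⊓ MulAction.stabilizer G x2, h * f * (h * f) ≠ 1) →
    Blk R (La (MulAction.stabilizer G x1 ⊓ MulAction.stabilizer G x2) u)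
      (La (MulAction.stabilizer G x1 ⊓ MulAction.stabilizer G x2) f)

end Geometry

/-- **FML** (size 200; from `specSCU` with `r = n`, `Ξ = 1`, or from `specSCH`; and `specSWP`): the formula.

PROOF. `a = ψ1 + ε ψ1ᴴ`, `b = χ + ε χᴴ`, `aᴴ = ε a`, `bᴴ = ε b`. `ν^N = 0` gives `(ε a b)^N = 0 = (ε b a)^N` (`ν² = (ε b a, 0; 0, ε a b)`,
`ν^(2N) = 0`). `T = Tn ε N a b`, `T' = Tn ε N b a = Tᴴ`: `(1 - ε a b) T = 1 = T (1 - ε a b)`, `T' b = b T`. `Λ = UF ψ1 0 χ`,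
`Λ + ε Λᴴ = fromBlocks a 1 ε b` (`ε` = `ε • 1`) has the inverse `Φi` with `Φi (1; 0) = (z1; z2)`, `z1 = -ε b T`, `z2 = T`
(`a z1 + z2 = (1 - ε a b) T = 1`, `ε z1 + b z2 = 0`). SCH with `Ξ = (1, 0)`, `ψ' = ψ2`: enough `UF ψ2 0 κ`,
`κ = -(z1ᴴ ψ1 z1 + z1ᴴ z2 + z2ᴴ χ z2) = -(ε T' b ψ1 b T - T' b T + T' χ T) = ε T' χᴴ T - ε T' b ψ1 b T = ε χᴴ + ρ` (`b - χ = ε χᴴ`). SWP (2) with
`d = ε χᴴ`: `χ + ρ + d - ε dᴴ = κ`. Second: `u = fromBlocks 1 0 (-σ) 1`: `uᴴ (σ, 1; 0, 0) u = (0, 1; 0, 0)`. -/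
def SpecFML : Prop :=
  ∀ (A : Type) [Ring A] [StarRing A] [FC A] (ε : ℤˣ) (n : ℕ),
    (∀ (N : ℕ) (ψ1 ψ2 χ : Matrix (Fin n) (Fin n) A),
      (nu ε (ψ1 + (ε : ℤ) • ψ1ᴴ) 0 (χ + (ε : ℤ) • χᴴ)) ^ N = 0 →
      SS ε (UF ψ1 0 χ) → SS ε (UF ψ2 0 (χ + rho ε N ψ1 χ)) →
      SS ε (UF (ψ1 + ψ2) 0 χ)) ∧
    ∀ σ : Matrix (Fin n) (Fin n) A, SS ε (UF σ 0 0)

/-- **LNR** (size 280, deps `SpecFML`, `SpecFMR`, `SpecSPR`, `SpecDWP`, `SpecDWG`): additivity.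

PROOF. `a_i = ψ_i + ε ψ_iᴴ`, `a = a_1 + a_2`, `b = χ + ε χᴴ`. `mEFA` for `a`, `0`, `b`: `E = EE L (nu ε a 0 b)`, `EFam E N`; `a_i = cutM c_i a ∈ E 1 false true` (`c_1`, `c_2` are
disjoint), `b = ε • (ε • b) ∈ E 1 true false`. `RO.specKNA`: `(nu ε a_1 0 b)^N = 0`, `(nu ε a_2 0 b)^N = 0`, and `(nu ε b 0 a_2)^N = 0`
(`INDAux.swap_zero`). `ρ = rho ε N ψ1 χ`, `ρ' = rho ε N χ ψ2`, `σ = ψ2 + ρ'`. FML for `ψ1, ψ2, χ`: enough `UF ψ2 0 (χ + ρ)`; exchange (`specSWP` (1)): enough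
`UF (χ + ρ) 0 ψ2`; FML for `χ, ρ, ψ2`: enough `UF χ 0 ψ2` (exchange of `UF ψ2 0 χ`) and `UF ρ 0 σ`; exchange: enough `UF σ 0 ρ`. FMR:
`r = ρ + ε ρᴴ = Tn ε N b a_1 * b - b ∈ E 3 true false`, `s = σ + ε σᴴ = a_2 + (Tn ε N a_2 b * a_2 - a_2) ∈ E 1 false true` (`mono`). Supports (SPR): `σ` in
`V1 L c2 X2`, `ρ` in `V3 L c1 X2`. If `N ≤ 3`: `r = 0` (`mono`, `zero`), `specTAT` for `X = V3` (`X2i`, `X2n` of DWP), `δ = -ε`: `ρ = c - ε cᴴ`, so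
`UF σ 0 ρ` follows from `UF σ 0 0` (`specSWP` (2)), FML second part. If `3 ≤ N`: FMR: `(nu ε s 0 r)^(N - 1) = 0`, and the hypothesis `Cl (N - 1)` for
the data of DWP, DWG. -/
def SpecLNR : Prop :=
  ∀ (R G V : Type) [Ring R] [StarRing R] [Group G]
    [FCG R G] [MulAction G V] (d : V → V → ℕ), TM G d →
    ∀ (N : ℕ) (x1 x2 : V), 1 ≤ N → (3 ≤ N → Cl R G d (N - 1) x1 x2) →
    ∀ (L : Subgroup G) (X1 X2 Yp Ym : Set G), PPK L X1 X2 ∅ Yp Ym → Geo d L X1 X2 ∅ x1 x2 →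
    ∀ c1 c2 : Set G, Pt L X1 c1 → Pt L X1 c2 → (∀ x ∈ c1, x ∉ c2) →
    ∀ (ε : ℤˣ) (n : ℕ) (ψ1 ψ2 χ : Matrix (Fin n) (Fin n) (MonoidAlgebra R G)), SuppIn c1 ψ1 →
    SuppIn c2 ψ2 → SuppIn X2 χ →
    (nu ε (ψ1 + ψ2 + (ε : ℤ) • (ψ1 + ψ2)ᴴ) 0 (χ + (ε : ℤ) • χᴴ)) ^ N = 0 →
    SS ε (UF ψ1 0 χ) → SS ε (UF ψ2 0 χ) →
    SS ε (UF (ψ1 + ψ2) 0 χ)

/-- **DCM** (size 250, deps `SpecFML`, `SpecLNR`): decomposition into pieces.

PROOF. (A) Claim for data, by induction on the number of the nonzero coefficients of `ψ` (with index `N`, `χ` in `X2`): if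
`UF (cutM (D2 L x) ψ) 0 χ` is stably hyperbolic for all `x` in the support of `ψ` then so is `UF ψ 0 χ`. `ψ = 0`: exchange and FML second part
(`UF 0 0 χ`; see `specSWP` (1)). Otherwise choose `x`, `c2 = D2 L x`, `c1 = {y | y ∈ X1 ∧ y ∉ D2 L x}`; `ψ = cutM c1 ψ + cutM c2 ψ`. `cutM c1 ψ` has fewer
coefficients, index `N` (`mEFA`, `RO.specKNA` with `a0 = cutM c1 a`), and for `y` in its support `cutM (D2 L y) (cutM c1 ψ) = cutM (D2 L y) ψ`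
(`D2 L y` and `D2 L x` are disjoint). LNR. (B) Let now `x` be fixed, `ψ' = cutM (D2 L x) ψ`, index `N`. Exchange (`specSWP` (1), `ROK.specSYK` (3), (4): data
`X2`, `X1`, ends `x2`, `x1`; `Cl R G d (N - 1) x2 x1` follows from `Cl R G d (N - 1) x1 x2` by exchange; `INDAux.swap_zero`): (A) for `χ`. So it is enough to
consider `ψ'`, `χ'` supported in `D2 L x`, `D2 L y`: the hypothesis. -/
def SpecDCM : Prop :=
  ∀ (R G V : Type) [Ring R] [StarRing R] [Group G]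
    [FCG R G] [MulAction G V] (d : V → V → ℕ), TM G d →
    ∀ (N : ℕ) (x1 x2 : V), 1 ≤ N → (3 ≤ N → Cl R G d (N - 1) x1 x2) →
    ∀ (L : Subgroup G) (X1 X2 Yp Ym : Set G), PPK L X1 X2 ∅ Yp Ym → Geo d L X1 X2 ∅ x1 x2 →
    (∀ x ∈ X1, ∀ y ∈ X2, ∀ (ε : ℤˣ) (n : ℕ) (ψ χ : Matrix (Fin n) (Fin n) (MonoidAlgebra R G)),
      SuppIn (D2 L x) ψ → SuppIn (D2 L y) χ →
      (nu ε (ψ + (ε : ℤ) • ψᴴ) 0 (χ + (ε : ℤ) • χᴴ)) ^ N = 0 → SS ε (UF ψ 0 χ)) →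
    ∀ (ε : ℤˣ) (n : ℕ) (ψ χ : Matrix (Fin n) (Fin n) (MonoidAlgebra R G)), SuppIn X1 ψ →
    SuppIn X2 χ → (nu ε (ψ + (ε : ℤ) • ψᴴ) 0 (χ + (ε : ℤ) • χᴴ)) ^ N = 0 →
    SS ε (UF ψ 0 χ)

/-- **SGU** (size 180, dep `SpecFML`): an unstable flip.

PROOF. `mELM` for `g` (`Sub1`: `mSBK` (4)); its hypothesis: `mBLK`, `mBLG`: the block `La (Kg L g) g`, `BX L X1 X2 ∅ g` is data with the ends `x1`, `g x1`, `g g x1 = x1`,
`d x1 (g x1) = d x1 x2 + d x2 (g x1)` (`mv` for `g ∈ X1`, `x1 ∈ DD d x1 x2 true`); `L = stabilizer x1 ⊓ stabilizer x2` (`st`), so `HU` gives `SE` and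
`Blk`. `cutM (dc L g)ᶜ ψ = 0`; `UF 0 0 χ`: FML second part and `specSWP` (1). -/
def SpecSGU : Prop :=
  ∀ (R G V : Type) [Ring R] [StarRing R] [Group G]
    [FCG R G] [MulAction G V] (d : V → V → ℕ),
    TM G d → ∀ x1 x2 : V, HU R G d x1 x2 →
    ∀ (L : Subgroup G) (X1 X2 Yp Ym : Set G), PPK L X1 X2 ∅ Yp Ym → Geo d L X1 X2 ∅ x1 x2 →
    ∀ g ∈ X1, g * g ∈ L → ¬ Ns L g →
    ∀ (ε : ℤˣ) (n : ℕ) (ψ χ : Matrix (Fin n) (Fin n) (MonoidAlgebra R G)), SuppIn (dc L g) ψ →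
    SuppIn X2 χ → IsNilpotent (nu ε (ψ + (ε : ℤ) • ψᴴ) 0 (χ + (ε : ℤ) • χᴴ)) →
    SS ε (UF ψ 0 χ)

/-- **SGN** (size 180, deps `SpecDWP`, `SpecDWG`): a stable flip and no flips.

PROOF. `dc L g = La L g` (`Ns`). `La L g ⊆ X1` is a part (`Pt`; inverses: `g⁻¹ = (g g)⁻¹ g`). DWP, DWG (second parts, `c' = X2`): data `La L g`, `X2`, `Yp`,
`Ym`. `mSTY`: for a half `W` of `X2`, `3 ≤ N`, `χ'` with support in `XD (La L g) W` and index `N - 1`: data by `mDRC`, `ROK.specDRG`, so `Cl (N - 1)`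
applies. -/
def SpecSGN : Prop :=
  ∀ (R G V : Type) [Ring R] [StarRing R] [Group G]
    [FCG R G] [MulAction G V] (d : V → V → ℕ), TM G d →
    ∀ (N : ℕ) (x1 x2 : V), 1 ≤ N → (3 ≤ N → Cl R G d (N - 1) x1 x2) →
    ∀ (L : Subgroup G) (X1 X2 Yp Ym : Set G), PPK L X1 X2 ∅ Yp Ym → Geo d L X1 X2 ∅ x1 x2 →
    ∀ g ∈ X1, g * g ∈ L → Ns L g →
    ∀ (ε : ℤˣ) (n : ℕ) (ψ χ : Matrix (Fin n) (Fin n) (MonoidAlgebra R G)), SuppIn (dc L g) ψ →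
    SuppIn X2 χ → (∀ i j x, (χ i j).coeff x ≠ 0 → ¬ Flip L x) →
    (nu ε (ψ + (ε : ℤ) • ψᴴ) 0 (χ + (ε : ℤ) • χᴴ)) ^ N = 0 → SS ε (UF ψ 0 χ)

/-- **SGS** (size 280, deps `SpecFML`, `SpecSGU`, `SpecSGN`): single pieces.

PROOF. `L = stabilizer x1 ⊓ stabilizer x2` (`st`, `subst`). If `Flip L x` there is `g = x h ∈ dc L x`, `g g ∈ L` (`ROTAux.exists_flip`), `g ∈ X1`,
`D2 L x = dc L x = dc L g`; otherwise no element of `D2 L x` is a flip. Cases: `x`, `y` no flips: `mNWT`. `x` a flip with `¬ Ns L g`: SGU. `y` a flip,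
`f = y h`, `¬ Ns L f`: exchange (`specSWP` (1), `ROK.specSYK`, `INDAux.swap_zero`) and SGU for the ends `x2`, `x1` (`HU R G d x2 x1`; `inf_comm`).
`x` a flip with `Ns L g`, `y` no flip: SGN. `y` a flip with `Ns L f`, `x` no flip: exchange and SGN (`Cl` exchanged, as in DCM). Both flips, `Ns`:
`HS`: `g x1 ∈ DD d x1 x2 false`, `f x2 ∈ DD d x1 x2 true` (`mv`); if `g x1 = x2` and `f x2 = x1` then `g⁻¹ x2 = x1`, `f⁻¹ x1 = x2`, and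
(`g g`, `f f` fix `x1`, `x2`) `g x2 = x1`, `f x1 = x2`, so `g⁻¹ f ∈ L` fixes `x1`, `x2`, `f ∈ g L ⊆ X1`; so `f = f 1 ∈ Ym` (`X1Y`) and
`f = f 1 ∈ Yp` (`X2Y`), `f ∈ L` (`yy`): contradiction to `xh`. `h g ∈ X1` for `h ∈ L` (`X1l`), so `(h g)⁻¹ ≠ h g` (`X1n`), the same for `h f ∈ X2`: the
last two premises of `HS`. `dc L g = La L g`, `dc L f = La L f`, `Blk`. -/
def SpecSGS : Prop :=
  ∀ (R G V : Type) [Ring R] [StarRing R] [Group G]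
    [FCG R G] [MulAction G V] (d : V → V → ℕ), TM G d →
    ∀ (N : ℕ) (x1 x2 : V), 1 ≤ N → (3 ≤ N → Cl R G d (N - 1) x1 x2) → HU R G d x1 x2 →
    HU R G d x2 x1 → HS R G d x1 x2 →
    ∀ (L : Subgroup G) (X1 X2 Yp Ym : Set G), PPK L X1 X2 ∅ Yp Ym → Geo d L X1 X2 ∅ x1 x2 →
    ∀ x ∈ X1, ∀ y ∈ X2, ∀ (ε : ℤˣ) (n : ℕ) (ψ χ : Matrix (Fin n) (Fin n) (MonoidAlgebra R G)),
      SuppIn (D2 L x) ψ → SuppIn (D2 L y) χ →
      (nu ε (ψ + (ε : ℤ) • ψᴴ) 0 (χ + (ε : ℤ) • χᴴ)) ^ N = 0 → SS ε (UF ψ 0 χ)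

/-- **CLM** (size 100, deps `SpecDCM`, `SpecSGS`): the claim for all `N`, and `SE`.

PROOF. Induction on `N` (DCM, SGS). `SE`: `IsNilpotent` gives `N ≥ 1`. -/
def SpecCLM : Prop :=
  ∀ (R G V : Type) [Ring R] [StarRing R] [Group G]
    [FCG R G] [MulAction G V] (d : V → V → ℕ), TM G d →
    ∀ x1 x2 : V, HU R G d x1 x2 → HU R G d x2 x1 → HS R G d x1 x2 →
      (∀ N, 1 ≤ N → Cl R G d N x1 x2) ∧ SE R G d x1 x2

end Pool.Agent.Lib.MPb6f35e.TT.AR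

/-! ## Module AR/Base -/

/-!
# Classes of forms (MP_8a3537_gt, folder AR): SWP, SCH (helper76)
-/

set_option autoImplicit false
set_option linter.unusedSectionVars false

namespace Pool.Agent.Lib.MPb6f35e.TT.AR

open Matrix Pool.Agent.Lib.MPb6f35e.TT.UV Pool.Agent.Lib.MPb6f35e.TT.RO

namespace SWPP

variable {A : Type} [Ring A] [StarRing A] [FC A] {ε : ℤˣ}

theorem stab_of_isom {ι κ : Type} [Fintype ι] [DecidableEq ι] [Fintype κ] [DecidableEq κ]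
    {Ψ : Matrix ι ι A} {Φ : Matrix κ κ A} (h : Isometric ε Ψ Φ) (hΦ : SS ε Φ) : SS ε Ψ :=
  ss_of_isom h hΦ

theorem trivial_form (n : ℕ) : SS ε (UF (0 : Matrix (Fin n) (Fin n) A) 0 0) :=
  ss_of_sh (SWPAux.trivial_form n)

omit [FC A] in
theorem change {n : ℕ} (ψ μ χ c d : Matrix (Fin n) (Fin n) A) :
    Isometric ε (UF (ψ + c - (ε : ℤ) • cᴴ) μ (χ + d - (ε : ℤ) • dᴴ)) (UF ψ μ χ) :=
  SWPAux.change ψ μ χ c d

omit [FC A] in
theorem swap {n : ℕ} (ψ μ χ : Matrix (Fin n) (Fin n) A) :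
    Isometric ε (UF ψ μ χ) (UF χ μᴴ ψ) :=
  SWPAux.swap ψ μ χ

end SWPP

theorem specSwpP : SpecSWPP := by
  intro A _ _ _ ε n ψ μ χ
  exact ⟨fun h => SWPP.stab_of_isom (SWPP.swap ψ μ χ) h,
    fun c d h => SWPP.stab_of_isom (SWPP.change ψ μ χ c d) h, SWPP.trivial_form n⟩

theorem specSCH : SpecSCH := by
  intro A _ _ _ ε M N _ _ _ _ Λ Φi Ξ ψ' h1 _ hΛ hK
  have hm := SCHM.main ε Λ (Φi * Ξᴴ) Ξ ψ' (by rw [← Matrix.mul_assoc, h1, Matrix.one_mul])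
  exact ss_destab N (ss_of_isom hm (ss_sum hΛ hK))

end Pool.Agent.Lib.MPb6f35e.TT.AR

/-! ## Module AR/DCM -/

/-!
# Classes of forms (MP_8a3537_gt, folder AR): decomposition into pieces (copy of LL/DCM, LL/CLM)
-/

set_option autoImplicit false
set_option linter.unusedSectionVars false
set_option linter.unusedSimpArgs false

namespace Pool.Agent.Lib.MPb6f35e.TT.AR

open Matrix Pool.Agent.Lib.MPb6f35e.TT.UV Pool.Agent.Lib.MPb6f35e.TT.AU Pool.Agent.Lib.MPb6f35e.TT.RO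
open Pool.Agent.Lib.MPb6f35e.TT.ROK Pool.Agent.Lib.MPb6f35e.TT.LL

/-! ## From `LL/DCM.lean` -/

open Matrix Pool.Agent.Lib.MPb6f35e.TT.UV Pool.Agent.Lib.MPb6f35e.TT.AU Pool.Agent.Lib.MPb6f35e.TT.RO
open Pool.Agent.Lib.MPb6f35e.TT.ROK

namespace DCMMP

open Pool.Agent.Lib.MPb6f35e.TT.RO.ELMAux

section Sets

variable {G : Type} [Group G] {L : Subgroup G}

theorem self_mem (x : G) : x ∈ D2 L x :=
  Or.inl ⟨1, L.one_mem, 1, L.one_mem, by rw [one_mul, mul_one]⟩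

theorem bi_D2 (x : G) : Bi L (D2 L x) := by
  constructor
  · rintro h hh y (hy | hy)
    · exact Or.inl (dc_left L x hh hy)
    · exact Or.inr (dc_left L x⁻¹ hh hy)
  · rintro h hh y (hy | hy)
    · exact Or.inl (dc_right L x hh hy)
    · exact Or.inr (dc_right L x⁻¹ hh hy)

theorem dc_inv' {x y : G} (h : y ∈ dc L x) : y⁻¹ ∈ dc L x⁻¹ := by
  obtain ⟨a, ha, b, hb, rfl⟩ := h
  exact ⟨b⁻¹, L.inv_mem hb, a⁻¹, L.inv_mem ha, by group⟩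

theorem inv_D2 (x : G) : ∀ y ∈ D2 L x, y⁻¹ ∈ D2 L x := by
  rintro y (hy | hy)
  · exact Or.inr (dc_inv' hy)
  · have := dc_inv' hy
    rw [inv_inv] at this
    exact Or.inl this

theorem D2_sub {X1 X2 Yp Ym : Set G} (P : PPK L X1 X2 ∅ Yp Ym) {x : G} (hx : x ∈ X1) :
    ∀ y ∈ D2 L x, y ∈ X1 := by
  have h : ∀ x ∈ X1, ∀ y ∈ dc L x, y ∈ X1 := by
    rintro x hx y ⟨a, ha, b, hb, rfl⟩
    exact P.X1r b hb _ (P.X1l a ha x hx)
  rintro y (hy | hy)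
  · exact h x hx y hy
  · exact h _ (P.X1i x hx) y hy

theorem pt_D2 {X1 X2 Yp Ym : Set G} (P : PPK L X1 X2 ∅ Yp Ym) {x : G} (hx : x ∈ X1) :
    Pt L X1 (D2 L x) := ⟨D2_sub P hx, bi_D2 x, inv_D2 x⟩

theorem bi_not {c : Set G} (h : Bi L c) {l y : G} (hl : l ∈ L) :
    (l * y ∈ c → y ∈ c) ∧ (y * l ∈ c → y ∈ c) := by
  constructor
  · intro hy
    have := h.1 _ (L.inv_mem hl) _ hy
    simpa using this
  · intro hy
    have := h.2 _ (L.inv_mem hl) _ hy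
    simpa using this

theorem pt_c1 {X1 X2 Yp Ym : Set G} (P : PPK L X1 X2 ∅ Yp Ym) (x : G) :
    Pt L X1 {y | y ∈ X1 ∧ y ∉ D2 L x} := by
  refine ⟨fun y hy => hy.1, ⟨fun l hl y hy => ⟨P.X1l l hl y hy.1, fun h => hy.2 ?_⟩,
    fun l hl y hy => ⟨P.X1r l hl y hy.1, fun h => hy.2 ?_⟩⟩,
    fun y hy => ⟨P.X1i y hy.1, fun h => hy.2 ?_⟩⟩
  · exact (bi_not (bi_D2 x) hl).1 h
  · exact (bi_not (bi_D2 x) hl).2 h
  · have := inv_D2 x _ h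
    rwa [inv_inv] at this

/-- `D2 L y` and `D2 L x` are disjoint if `y` is not in `D2 L x`. -/
theorem D2_disj {x y z : G} (hy : y ∉ D2 L x) (hz : z ∈ D2 L y) : z ∉ D2 L x := by
  have h1 : ∀ z ∈ dc L y, z ∉ D2 L x := by
    rintro z ⟨a, ha, b, hb, rfl⟩ h
    exact hy ((bi_not (bi_D2 x) ha).1 ((bi_not (bi_D2 x) hb).2 h))
  rcases hz with hz | hz
  · exact h1 z hz
  · intro h
    have h2 := dc_inv' hz
    rw [inv_inv] at h2
    exact h1 _ h2 (inv_D2 x z h)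

end Sets

section Mat

variable {R G : Type} [Ring R] [StarRing R] [Group G]

theorem supp_sym {X : Set G} (hi : ∀ x ∈ X, x⁻¹ ∈ X) (ε : ℤˣ) {n : ℕ}
    {ψ : Matrix (Fin n) (Fin n) (MonoidAlgebra R G)} (hψ : SuppIn X ψ) :
    SuppIn X (ψ + (ε : ℤ) • ψᴴ) := by
  intro i j x hx
  rw [Matrix.add_apply, MonoidAlgebra.coeff_add, Finsupp.add_apply] at hx
  by_cases h1 : (ψ i j).coeff x = 0
  · rw [h1, zero_add, Matrix.smul_apply, conjTranspose_apply] at hx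
    have h2 : (star (ψ j i)).coeff x ≠ 0 := by
      intro h0
      apply hx
      rcases unit_cases ε (star (ψ j i)) with h | h
      · rw [h, h0]
      · rw [h, MonoidAlgebra.coeff_neg, Finsupp.neg_apply, h0, neg_zero]
    rw [star_coeff] at h2
    have h3 : (ψ j i).coeff x⁻¹ ≠ 0 := by
      intro h0
      apply h2
      rw [h0, star_zero]
    have := hi _ (hψ j i _ h3)
    simpa using this
  · exact hψ i j x h1

/-- Restriction to a biinvariant set closed under inverses does not change the index. -/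
theorem nil_cut {L : Subgroup G} {X1 X2 Yp Ym : Set G} (P : PPK L X1 X2 ∅ Yp Ym) (ε : ℤˣ)
    {n N : ℕ} (hN : 1 ≤ N) {ψ χ : Matrix (Fin n) (Fin n) (MonoidAlgebra R G)}
    (hψ : SuppIn X1 ψ) (hχ : SuppIn X2 χ)
    (hν : (nu ε (ψ + (ε : ℤ) • ψᴴ) 0 (χ + (ε : ℤ) • χᴴ)) ^ N = 0) {c : Set G} (hc : Bi L c)
    (hi : ∀ x ∈ c, x⁻¹ ∈ c) :
    (nu ε (cutM c ψ + (ε : ℤ) • (cutM c ψ)ᴴ) 0 (χ + (ε : ℤ) • χᴴ)) ^ N = 0 := by
  have h0 : SuppIn (∅ : Set G) (0 : Matrix (Fin n) (Fin n) (MonoidAlgebra R G)) := by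
    intro i j x hx
    exact absurd rfl hx
  obtain ⟨hE, hcut, hblk⟩ := mEFA R G L X1 X2 ∅ Yp Ym P.toPingPong ε n _ 0 _
    (supp_sym P.X1i ε hψ) h0 (supp_sym P.X2i ε hχ) (herm ε ψ) (herm ε χ) N hν
  have h1 : cutM c (ψ + (ε : ℤ) • ψᴴ) = cutM c ψ + (ε : ℤ) • (cutM c ψ)ᴴ := by
    rw [cutM_add, cutM_smul, cutM_star _ hi]
  have e1 := hcut false true c hc
  rw [blk_ft, h1] at e1
  have e4 : χ + (ε : ℤ) • χᴴ ∈
      EE L (nu ε (ψ + (ε : ℤ) • ψᴴ) 0 (χ + (ε : ℤ) • χᴴ)) 1 true false := by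
    have h2 := hblk true false
    rw [blk_tf] at h2
    have h3 := AddSubgroup.zsmul_mem _ h2 (ε : ℤ)
    rwa [smul_smul_self] at h3
  exact (RO.specKNA (MonoidAlgebra R G) ε n 0 N _ hE hN _ 0 0 _ e1 (AddSubgroup.zero_mem _)
    (AddSubgroup.zero_mem _) e4).1

open Classical in
/-- The number of the nonzero coefficients. -/
noncomputable def cnt {n : ℕ} (M : Matrix (Fin n) (Fin n) (MonoidAlgebra R G)) : ℕ :=
  ∑ i, ∑ j, (M i j).coeff.support.card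

theorem coeff_cut_ne {n : ℕ} {M : Matrix (Fin n) (Fin n) (MonoidAlgebra R G)} {W : Set G}
    {i j : Fin n} {x : G} (h : (cutM W M i j).coeff x ≠ 0) : x ∈ W ∧ (M i j).coeff x ≠ 0 := by
  classical
  rw [cutM_coeff] at h
  by_cases hx : x ∈ W
  · rw [if_pos hx] at h
    exact ⟨hx, h⟩
  · rw [if_neg hx] at h
    exact absurd rfl h

theorem cnt_lt {n : ℕ} (M : Matrix (Fin n) (Fin n) (MonoidAlgebra R G)) (W : Set G)
    {i j : Fin n} {x : G} (hx : (M i j).coeff x ≠ 0) (hW : x ∉ W) : cnt (cutM W M) < cnt M := by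
  have hsub : ∀ a b, (cutM W M a b).coeff.support ⊆ (M a b).coeff.support := by
    intro a b y hy
    rw [Finsupp.mem_support_iff] at hy ⊢
    exact (coeff_cut_ne hy).2
  unfold cnt
  refine Finset.sum_lt_sum (fun a _ => Finset.sum_le_sum fun b _ => Finset.card_le_card (hsub a b))
    ⟨i, Finset.mem_univ i, Finset.sum_lt_sum (fun b _ => Finset.card_le_card (hsub i b))
      ⟨j, Finset.mem_univ j, Finset.card_lt_card
        ((Finset.ssubset_iff_of_subset (hsub i j)).mpr ⟨x, ?_, ?_⟩)⟩⟩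
  · exact Finsupp.mem_support_iff.2 hx
  · intro h
    exact hW (coeff_cut_ne (Finsupp.mem_support_iff.1 h)).1

theorem UF_zero_left [FCG R G] (hFML : SpecFML) (ε : ℤˣ) {n : ℕ}
    (χ : Matrix (Fin n) (Fin n) (MonoidAlgebra R G)) : SS ε (UF 0 0 χ) := by
  apply (specSwpP (MonoidAlgebra R G) ε n 0 0 χ).1
  rw [conjTranspose_zero]
  exact (hFML (MonoidAlgebra R G) ε n).2 χ

theorem swap0 (ε : ℤˣ) {n N : ℕ} {a b : Matrix (Fin n) (Fin n) (MonoidAlgebra R G)}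
    (h : (nu ε a 0 b) ^ N = 0) : (nu ε b 0 a) ^ N = 0 := by
  have := INDAux.swap_zero ε a 0 b N h
  rwa [conjTranspose_zero] at this

theorem swapUF [FCG R G] {ε : ℤˣ} {n : ℕ} {ψ χ : Matrix (Fin n) (Fin n) (MonoidAlgebra R G)}
    (h : SS ε (UF χ 0 ψ)) : SS ε (UF ψ 0 χ) := by
  apply (specSwpP (MonoidAlgebra R G) ε n ψ 0 χ).1
  rwa [conjTranspose_zero]

end Mat

theorem Cl_swap {R G V : Type} [Ring R] [StarRing R] [Group G] [FCG R G] [MulAction G V] {d : V → V → ℕ}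
    {N : ℕ} {x1 x2 : V} (h : Cl R G d N x1 x2) : Cl R G d N x2 x1 := by
  intro L X1 X2 Yp Ym P hg ε n ψ χ hψ hχ hν
  obtain ⟨-, -, s3, s4⟩ := specSYK G L X1 X2 ∅ Yp Ym
  exact swapUF (h L X2 X1 Ym Yp (s3 P) (s4 V d x2 x1 hg) ε n χ ψ hχ hψ (swap0 ε hν))

/-- (A): the decomposition of `ψ`. -/
theorem partA (hFML : SpecFML) (hLNR : SpecLNR) {R G V : Type} [Ring R] [StarRing R] [Group G]
    [FCG R G] [MulAction G V] {d : V → V → ℕ} (hT : TM G d) {N : ℕ} {x1 x2 : V} (hN : 1 ≤ N)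
    (hCl : 3 ≤ N → Cl R G d (N - 1) x1 x2) {L : Subgroup G} {X1 X2 Yp Ym : Set G}
    (P : PPK L X1 X2 ∅ Yp Ym) (hg : Geo d L X1 X2 ∅ x1 x2) (ε : ℤˣ) {n : ℕ}
    (χ : Matrix (Fin n) (Fin n) (MonoidAlgebra R G)) (hχ : SuppIn X2 χ) (m : ℕ) :
    ∀ ψ : Matrix (Fin n) (Fin n) (MonoidAlgebra R G), SuppIn X1 ψ → cnt ψ = m →
    (nu ε (ψ + (ε : ℤ) • ψᴴ) 0 (χ + (ε : ℤ) • χᴴ)) ^ N = 0 →
    (∀ i j x, (ψ i j).coeff x ≠ 0 → SS ε (UF (cutM (D2 L x) ψ) 0 χ)) →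
    SS ε (UF ψ 0 χ) := by
  induction m using Nat.strong_induction_on with
  | _ m ih =>
    intro ψ hψ hm hν hp
    by_cases h0 : ∀ i j x, (ψ i j).coeff x = 0
    · have h1 : ψ = 0 := mat_ext fun i j x => h0 i j x
      rw [h1]
      exact UF_zero_left hFML ε χ
    · push Not at h0
      obtain ⟨i, j, x, hx⟩ := h0
      have hxX : x ∈ X1 := hψ i j x hx
      have p1 := pt_c1 P x
      have p2 := pt_D2 P hxX
      have hs1 : SuppIn {y | y ∈ X1 ∧ y ∉ D2 L x} (cutM {y | y ∈ X1 ∧ y ∉ D2 L x} ψ) :=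
        fun i j y hy => (coeff_cut_ne hy).1
      have hs2 : SuppIn (D2 L x) (cutM (D2 L x) ψ) := fun i j y hy => (coeff_cut_ne hy).1
      have hsum : cutM {y | y ∈ X1 ∧ y ∉ D2 L x} ψ + cutM (D2 L x) ψ = ψ := by
        classical
        refine mat_ext fun i j y => ?_
        rw [Matrix.add_apply, MonoidAlgebra.coeff_add, Finsupp.add_apply, cutM_coeff, cutM_coeff]
        by_cases h1 : (ψ i j).coeff y = 0
        · rw [h1, ite_self, ite_self, add_zero]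
        · have h2 : y ∈ X1 := hψ i j y h1
          by_cases h3 : y ∈ D2 L x
          · rw [if_pos h3, if_neg (fun h => h.2 h3), zero_add]
          · rw [if_neg h3, if_pos ⟨h2, h3⟩, add_zero]
      have hν1 := nil_cut P ε hN hψ hχ hν p1.bi p1.inv
      have h1 : SS ε (UF (cutM {y | y ∈ X1 ∧ y ∉ D2 L x} ψ) 0 χ) := by
        refine ih (cnt (cutM {y | y ∈ X1 ∧ y ∉ D2 L x} ψ)) ?_ _ (fun i j y hy => (hs1 i j y hy).1)
          rfl hν1 ?_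
        · rw [← hm]
          exact cnt_lt ψ _ hx fun h => h.2 (self_mem x)
        · intro i' j' y hy
          obtain ⟨h2, h3⟩ := coeff_cut_ne hy
          have h4 : cutM (D2 L y) (cutM {y | y ∈ X1 ∧ y ∉ D2 L x} ψ) = cutM (D2 L y) ψ := by
            classical
            refine mat_ext fun i j z => ?_
            rw [cutM_coeff, cutM_coeff, cutM_coeff]
            by_cases h5 : z ∈ D2 L y
            · rw [if_pos h5, if_pos h5]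
              by_cases h6 : (ψ i j).coeff z = 0
              · rw [h6, ite_self]
              · rw [if_pos ⟨hψ i j z h6, D2_disj h2.2 h5⟩]
            · rw [if_neg h5, if_neg h5]
          rw [h4]
          exact hp i' j' y h3
      have h2 := hLNR R G V d hT N x1 x2 hN hCl L X1 X2 Yp Ym P hg _ _ p1 p2 (fun y hy => hy.2) ε n
        _ _ χ hs1 hs2 hχ (by rw [hsum]; exact hν) h1 (hp i j x hx)
      rwa [hsum] at h2

end DCMMP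

open DCMMP in
/-- **DCM**: the decomposition into pieces. -/
theorem specDCM (hFML : SpecFML) (hLNR : SpecLNR) : SpecDCM := by
  intro R G V _ _ _ _ _ d hT N x1 x2 hN hCl L X1 X2 Yp Ym P hg hpc ε n ψ χ hψ hχ hν
  obtain ⟨-, -, s3, s4⟩ := specSYK G L X1 X2 ∅ Yp Ym
  have P' := s3 P
  have hg' := s4 V d x1 x2 hg
  refine partA hFML hLNR hT hN hCl P hg ε χ hχ _ ψ hψ rfl hν fun i j x hx => ?_
  have hxX : x ∈ X1 := hψ i j x hx
  have p2 := pt_D2 P hxX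
  have hν1 := nil_cut P ε hN hψ hχ hν p2.bi p2.inv
  have hs1 : SuppIn (D2 L x) (cutM (D2 L x) ψ) := fun i j y hy => (RO.ELMAux.supp_cutM X1 _ ψ hψ i j y hy).2
  have hs2 : SuppIn X1 (cutM (D2 L x) ψ) := fun i j y hy => p2.sub y (hs1 i j y hy)
  apply swapUF
  refine partA hFML hLNR hT hN (fun h => Cl_swap (hCl h)) P' hg' ε _ hs2 _ χ hχ rfl
    (swap0 ε hν1) fun i' j' y hy => ?_
  have hyX : y ∈ X2 := hχ i' j' y hy
  have p3 := pt_D2 P' hyX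
  have hν2 := nil_cut P' ε hN hχ hs2 (swap0 ε hν1) p3.bi p3.inv
  apply swapUF
  exact hpc x hxX y hyX ε n _ _ hs1
    (fun i j z hz => (RO.ELMAux.supp_cutM X2 _ χ hχ i j z hz).2) (swap0 ε hν2)


/-! ## From `LL/CLM.lean` -/

open Matrix Pool.Agent.Lib.MPb6f35e.TT.UV Pool.Agent.Lib.MPb6f35e.TT.AU Pool.Agent.Lib.MPb6f35e.TT.RO
open Pool.Agent.Lib.MPb6f35e.TT.ROK

/-- **CLM**: the claim for all indices, and `SE`. -/
theorem specCLM (hDCM : SpecDCM) (hSGS : SpecSGS) : SpecCLM := by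
  intro R G V _ _ _ _ _ d hT x1 x2 h12 h21 hs
  have hCl : ∀ N, 1 ≤ N → Cl R G d N x1 x2 := by
    intro N
    induction N with
    | zero => intro h; omega
    | succ N ih =>
      intro hN L X1 X2 Yp Ym P hg ε n ψ χ hψ hχ hν
      have hc : 3 ≤ N + 1 → Cl R G d (N + 1 - 1) x1 x2 := fun h => by
        rw [Nat.add_sub_cancel]
        exact ih (by omega)
      exact hDCM R G V d hT (N + 1) x1 x2 hN hc L X1 X2 Yp Ym P hg
        (hSGS R G V d hT (N + 1) x1 x2 hN hc h12 h21 hs L X1 X2 Yp Ym P hg)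
        ε n ψ χ hψ hχ hν
  refine ⟨hCl, ?_⟩
  intro L g Xb Yp Ym P hg _ _ ε n ψ χ hψ hχ hν
  obtain ⟨N, hN⟩ := hν
  refine hCl (N + 1) (by omega) L (La L g) Xb Yp Ym P hg ε n ψ χ hψ hχ ?_
  rw [pow_succ, hN, zero_mul]


end Pool.Agent.Lib.MPb6f35e.TT.AR

/-! ## Module AR/LNR -/

/-!
# Classes of forms (MP_8a3537_gt, folder AR): the formula, additivity (copy of LL/FML, LL/LNR)
-/

set_option autoImplicit false
set_option linter.unusedSectionVars false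
set_option linter.unusedSimpArgs false

namespace Pool.Agent.Lib.MPb6f35e.TT.AR

open Matrix Pool.Agent.Lib.MPb6f35e.TT.UV Pool.Agent.Lib.MPb6f35e.TT.AU Pool.Agent.Lib.MPb6f35e.TT.RO
open Pool.Agent.Lib.MPb6f35e.TT.ROK Pool.Agent.Lib.MPb6f35e.TT.LL

/-! ## From `LL/FML.lean` -/

open Matrix Pool.Agent.Lib.MPb6f35e.TT.UV Pool.Agent.Lib.MPb6f35e.TT.AU Pool.Agent.Lib.MPb6f35e.TT.RO
open Pool.Agent.Lib.MPb6f35e.TT.ROK

namespace FMLMP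

section

variable {A : Type} [Ring A] {n : ℕ}

theorem esq (ε : ℤˣ) {m k : Type} (X : Matrix m k A) : (ε : ℤ) • (ε : ℤ) • X = X := by
  rcases Int.units_eq_one_or ε with h | h <;> simp [h]

theorem star_smul' [StarRing A] (ε : ℤˣ) {m k : Type} (X : Matrix m k A) :
    ((ε : ℤ) • X)ᴴ = (ε : ℤ) • Xᴴ := by
  rcases Int.units_eq_one_or ε with h | h <;> simp [h]

theorem Tn_inv (ε : ℤˣ) (N : ℕ) (a b : Matrix (Fin n) (Fin n) A)
    (h : ((ε : ℤ) • (a * b)) ^ N = 0) :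
    Tn ε N a b * (1 - (ε : ℤ) • (a * b)) = 1 ∧ (1 - (ε : ℤ) • (a * b)) * Tn ε N a b = 1 := by
  have h1 := geom_sum_mul_neg ((ε : ℤ) • (a * b)) N
  have h2 := mul_neg_geom_sum ((ε : ℤ) • (a * b)) N
  rw [h, sub_zero] at h1 h2
  exact ⟨h1, h2⟩

theorem pow_comm (ε : ℤˣ) (a b : Matrix (Fin n) (Fin n) A) (i : ℕ) :
    ((ε : ℤ) • (b * a)) ^ i * b = b * ((ε : ℤ) • (a * b)) ^ i := by
  induction i with
  | zero => simp
  | succ i ih =>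
    have h : ((ε : ℤ) • (b * a)) * b = b * ((ε : ℤ) • (a * b)) := by
      rw [Matrix.smul_mul, Matrix.mul_smul, Matrix.mul_assoc]
    rw [pow_succ, Matrix.mul_assoc, h, ← Matrix.mul_assoc, ih, Matrix.mul_assoc, ← pow_succ]

theorem Tn_comm (ε : ℤˣ) (N : ℕ) (a b : Matrix (Fin n) (Fin n) A) :
    Tn ε N b a * b = b * Tn ε N a b := by
  unfold Tn
  rw [Finset.sum_mul, Finset.mul_sum]
  exact Finset.sum_congr rfl fun i _ => pow_comm ε a b i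

theorem Tn_star [StarRing A] (ε : ℤˣ) (N : ℕ) (a b : Matrix (Fin n) (Fin n) A)
    (ha : aᴴ = (ε : ℤ) • a) (hb : bᴴ = (ε : ℤ) • b) : (Tn ε N a b)ᴴ = Tn ε N b a := by
  unfold Tn
  rw [conjTranspose_sum]
  refine Finset.sum_congr rfl fun i _ => ?_
  rw [conjTranspose_pow, star_smul', conjTranspose_mul, ha, hb, Matrix.smul_mul, Matrix.mul_smul,
    esq]

theorem nu_pow [StarRing A] (ε : ℤˣ) (a b : Matrix (Fin n) (Fin n) A) (k : ℕ) :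
    ((nu ε a 0 b) ^ 2) ^ k =
      fromBlocks (((ε : ℤ) • (b * a)) ^ k) 0 0 (((ε : ℤ) • (a * b)) ^ k) := by
  have h2 : (nu ε a 0 b) ^ 2 = fromBlocks ((ε : ℤ) • (b * a)) 0 0 ((ε : ℤ) • (a * b)) := by
    unfold nu
    rw [pow_two, fromBlocks_multiply]
    rcases Int.units_eq_one_or ε with h | h <;> simp [h]
  induction k with
  | zero => simp [fromBlocks_one]
  | succ k ih =>
    rw [pow_succ, ih, h2, fromBlocks_multiply, pow_succ, pow_succ]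
    simp

theorem pow_zero_of_nu [StarRing A] (ε : ℤˣ) (N : ℕ) (a b : Matrix (Fin n) (Fin n) A)
    (h : (nu ε a 0 b) ^ N = 0) :
    ((ε : ℤ) • (a * b)) ^ N = 0 ∧ ((ε : ℤ) • (b * a)) ^ N = 0 := by
  have h1 : ((nu ε a 0 b) ^ 2) ^ N = 0 := by
    rw [← pow_mul, mul_comm, pow_mul, h]
    exact zero_pow two_ne_zero
  rw [nu_pow, ← fromBlocks_zero, fromBlocks_inj] at h1
  exact ⟨h1.2.2.2, h1.1⟩

/-- The second part. -/
theorem half [StarRing A] [FC A] (ε : ℤˣ) (σ : Matrix (Fin n) (Fin n) A) :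
    SS ε (UF σ 0 0) := by
  refine SWPP.stab_of_isom (Φ := UF 0 0 0) ?_ (SWPP.trivial_form n)
  refine ⟨fromBlocks 1 0 (-σ) 1, fromBlocks 1 0 σ 1, 0, ?_, ?_, ?_⟩
  · rw [fromBlocks_multiply]
    simp [fromBlocks_one]
  · rw [fromBlocks_multiply]
    simp [fromBlocks_one]
  · unfold UF
    rw [fromBlocks_conjTranspose, fromBlocks_multiply, fromBlocks_multiply]
    simp

end

end FMLMP

open FMLMP in
theorem specFML : SpecFML := by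
  intro A _ _ _ ε n
  refine ⟨?_, fun σ => half ε σ⟩
  intro N ψ1 ψ2 χ hν h1 h2
  set a := ψ1 + (ε : ℤ) • ψ1ᴴ with ha
  set b := χ + (ε : ℤ) • χᴴ with hb
  have hae : aᴴ = (ε : ℤ) • a := by
    rw [ha, conjTranspose_add, star_smul', conjTranspose_conjTranspose, smul_add, esq, add_comm]
  have hbe : bᴴ = (ε : ℤ) • b := by
    rw [hb, conjTranspose_add, star_smul', conjTranspose_conjTranspose, smul_add, esq, add_comm]
  obtain ⟨hab, hba⟩ := pow_zero_of_nu ε N a b hν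
  set T := Tn ε N a b with hT
  set T' := Tn ε N b a with hT'
  obtain ⟨hT1, hT2⟩ := Tn_inv ε N a b hab
  obtain ⟨hT'1, hT'2⟩ := Tn_inv ε N b a hba
  rw [← hT] at hT1 hT2
  rw [← hT'] at hT'1 hT'2
  have hTs : Tᴴ = T' := Tn_star ε N a b hae hbe
  have hc1 : T' * b = b * T := Tn_comm ε N a b
  have hc2 : T * a = a * T' := Tn_comm ε N b a
  have hT2e : (ε : ℤ) • (a * (b * T)) = T - 1 := by
    rw [Matrix.sub_mul, Matrix.one_mul, Matrix.smul_mul, Matrix.mul_assoc] at hT2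
    rw [← hT2]; abel
  have hT1e : (ε : ℤ) • (T * (a * b)) = T - 1 := by
    rw [Matrix.mul_sub, Matrix.mul_one, Matrix.mul_smul] at hT1
    rw [← hT1]; abel
  have hT'2e : (ε : ℤ) • (b * (a * T')) = T' - 1 := by
    rw [Matrix.sub_mul, Matrix.one_mul, Matrix.smul_mul, Matrix.mul_assoc] at hT'2
    rw [← hT'2]; abel
  have hT'1e : (ε : ℤ) • (T' * (b * a)) = T' - 1 := by
    rw [Matrix.mul_sub, Matrix.mul_one, Matrix.mul_smul] at hT'1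
    rw [← hT'1]; abel
  have hΛ : UF ψ1 0 χ + (ε : ℤ) • (UF ψ1 0 χ)ᴴ = fromBlocks a 1 ((ε : ℤ) • 1) b := by
    unfold UF
    rw [fromBlocks_conjTranspose, fromBlocks_smul, fromBlocks_add]
    simp [ha, hb]
  set Φi : Matrix (Fin n ⊕ Fin n) (Fin n ⊕ Fin n) A :=
    fromBlocks (-((ε : ℤ) • (b * T))) ((ε : ℤ) • T') T (-((ε : ℤ) • (a * T'))) with hΦi
  have hΦ1 : (UF ψ1 0 χ + (ε : ℤ) • (UF ψ1 0 χ)ᴴ) * Φi = 1 := by
    rw [hΛ, hΦi, fromBlocks_multiply, ← fromBlocks_one]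
    congr 1
    · rw [Matrix.mul_neg, Matrix.mul_smul, hT2e, Matrix.one_mul]; abel
    · rw [Matrix.mul_smul, Matrix.one_mul]; abel
    · rw [Matrix.smul_mul, Matrix.one_mul, smul_neg, esq]; abel
    · rw [Matrix.smul_mul, Matrix.one_mul, esq, Matrix.mul_neg, Matrix.mul_smul, hT'2e]; abel
  have hΦ2 : Φi * (UF ψ1 0 χ + (ε : ℤ) • (UF ψ1 0 χ)ᴴ) = 1 := by
    rw [hΛ, hΦi, fromBlocks_multiply, ← fromBlocks_one]
    congr 1
    · rw [Matrix.neg_mul, Matrix.smul_mul, ← hc1, Matrix.mul_assoc, hT'1e, Matrix.mul_smul,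
        Matrix.mul_one, esq]; abel
    · rw [Matrix.mul_one, Matrix.smul_mul, hc1]; abel
    · rw [Matrix.mul_smul, Matrix.mul_one, smul_neg, esq, hc2]; abel
    · rw [Matrix.mul_one, Matrix.neg_mul, Matrix.smul_mul, ← hc2, Matrix.mul_assoc, hT1e]; abel
  let Ξ : Matrix (Fin n) (Fin n ⊕ Fin n) A := fromCols 1 0
  have hΞ : Ξᴴ = fromRows 1 0 := by
    change (fromCols 1 0)ᴴ = _
    rw [conjTranspose_fromCols_eq_fromRows_conjTranspose, conjTranspose_zero, conjTranspose_one]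
  have hZ : Φi * Ξᴴ = fromRows (-((ε : ℤ) • (b * T))) T := by
    rw [hΞ, hΦi, fromBlocks_mul_fromRows]
    simp
  have hz1 : (-((ε : ℤ) • (b * T)))ᴴ = -(T' * b) := by
    rw [conjTranspose_neg, star_smul', conjTranspose_mul, hTs, hbe, Matrix.mul_smul, esq]
  have hκ : -((Φi * Ξᴴ)ᴴ * UF ψ1 0 χ * (Φi * Ξᴴ)) =
      χ + rho ε N ψ1 χ + (ε : ℤ) • χᴴ - (ε : ℤ) • ((ε : ℤ) • χᴴ)ᴴ := by
    rw [hZ]
    unfold UF
    rw [EMVAux.rows_form, hz1, hTs, star_smul', conjTranspose_conjTranspose, esq]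
    unfold rho
    rw [← ha, ← hb, ← hT, ← hT']
    have e1 : -(T' * b) * ψ1 * -((ε : ℤ) • (b * T)) = (ε : ℤ) • (T' * b * ψ1 * b * T) := by
      rw [Matrix.mul_neg, Matrix.neg_mul, Matrix.neg_mul, neg_neg, Matrix.mul_smul]
      simp only [Matrix.mul_assoc]
    have e2 : (ε : ℤ) • (T' * χᴴ * T) = T' * b * T - T' * χ * T := by
      rw [hb, Matrix.mul_add, Matrix.add_mul, Matrix.mul_smul, Matrix.smul_mul]
      abel
    have e3 : -(T' * b) * (1 + (0 : Matrix (Fin n) (Fin n) A)ᴴ) * T = -(T' * b * T) := by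
      simp
    rw [e1, e3, smul_sub, e2]
    simp
    abel
  have h3 := (specSwpP A ε n ψ2 0 (χ + rho ε N ψ1 χ)).2.1 0 ((ε : ℤ) • χᴴ) h2
  have h4 := specSCH A ε (Fin n ⊕ Fin n) (Fin n) (UF ψ1 0 χ) Φi Ξ ψ2 hΦ1 hΦ2 h1 (by
    rw [hκ]
    have h5 : UF (ψ2 + 0 - (ε : ℤ) • (0 : Matrix (Fin n) (Fin n) A)ᴴ) 0
        (χ + rho ε N ψ1 χ + (ε : ℤ) • χᴴ - (ε : ℤ) • ((ε : ℤ) • χᴴ)ᴴ) =
        fromBlocks ψ2 1 0
          (χ + rho ε N ψ1 χ + (ε : ℤ) • χᴴ - (ε : ℤ) • ((ε : ℤ) • χᴴ)ᴴ) := by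
      unfold UF
      simp
    rw [← h5]
    exact h3)
  have h7 : UF ψ1 0 χ + Ξᴴ * ψ2 * Ξ = UF (ψ1 + ψ2) 0 χ := by
    rw [hΞ]
    change UF ψ1 0 χ + fromRows 1 0 * ψ2 * fromCols 1 0 = _
    rw [fromRows_mul, fromRows_mul_fromCols]
    unfold UF
    rw [fromBlocks_add]
    simp
  rw [h7] at h4
  exact h4


/-! ## From `LL/LNR.lean` -/

open Matrix Pool.Agent.Lib.MPb6f35e.TT.UV Pool.Agent.Lib.MPb6f35e.TT.AU Pool.Agent.Lib.MPb6f35e.TT.RO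
open Pool.Agent.Lib.MPb6f35e.TT.ROK

namespace LNRMP

section

variable {A : Type} [Ring A] [StarRing A] [FC A] {n : ℕ}

/-- Exchange. -/
theorem swap (ε : ℤˣ) (ψ χ : Matrix (Fin n) (Fin n) A) (h : SS ε (UF χ 0 ψ)) :
    SS ε (UF ψ 0 χ) := by
  refine (specSwpP A ε n ψ 0 χ).1 ?_
  rw [conjTranspose_zero]
  exact h

end

section

variable {R G : Type} [Ring R] [StarRing R] [Group G] {n : ℕ}

theorem supp_pol (ε : ℤˣ) {c : Set G} (hi : ∀ x ∈ c, x⁻¹ ∈ c)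
    {ψ : Matrix (Fin n) (Fin n) (MonoidAlgebra R G)} (hψ : SuppIn c ψ) :
    SuppIn c (ψ + (ε : ℤ) • ψᴴ) := by
  intro i j x h
  rw [NWTAux.coeff_sym] at h
  by_cases h1 : (ψ i j).coeff x = 0
  · have h2 : (ψ j i).coeff x⁻¹ ≠ 0 := by
      intro h2
      apply h
      rw [h1, h2, star_zero, smul_zero, add_zero]
    have h3 := hi _ (hψ j i x⁻¹ h2)
    rwa [inv_inv] at h3
  · exact hψ i j x h1

theorem supp_mono {c X : Set G} (h : ∀ x ∈ c, x ∈ X)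
    {ψ : Matrix (Fin n) (Fin n) (MonoidAlgebra R G)} (hψ : SuppIn c ψ) : SuppIn X ψ :=
  fun i j x hx => h x (hψ i j x hx)

theorem supp_add {X : Set G} {ψ ψ' : Matrix (Fin n) (Fin n) (MonoidAlgebra R G)}
    (hψ : SuppIn X ψ) (hψ' : SuppIn X ψ') : SuppIn X (ψ + ψ') := by
  intro i j x h
  by_cases h1 : (ψ i j).coeff x = 0
  · refine hψ' i j x fun h2 => h ?_
    rw [Matrix.add_apply, MonoidAlgebra.coeff_add, Finsupp.add_apply, h1, h2, add_zero]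
  · exact hψ i j x h1

/-- The part of a sum of two matrices with disjoint supports. -/
theorem cut_part {c c' : Set G} {a a' : Matrix (Fin n) (Fin n) (MonoidAlgebra R G)}
    (ha : SuppIn c a) (ha' : SuppIn c' a') (h : ∀ x ∈ c, x ∉ c') : cutM c (a + a') = a := by
  classical
  refine Matrix.ext fun i j => ?_
  ext x
  have e : (cutM c (a + a') i j).coeff x = (cut c ((a + a') i j)).coeff x := rfl
  rw [e, cut_coeff, Matrix.add_apply, MonoidAlgebra.coeff_add, Finsupp.add_apply]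
  by_cases hx : x ∈ c
  · have h1 : (a' i j).coeff x = 0 := by
      by_contra h2
      exact h x hx (ha' i j x h2)
    rw [if_pos hx, h1, add_zero]
  · rw [if_neg hx]
    by_contra h2
    exact hx (ha i j x (Ne.symm h2))

end

end LNRMP

open LNRMP in
theorem specLNR (hFML : SpecFML) (hFMR : SpecFMR) (hSPR : SpecSPR) (hDWP : SpecDWP)
    (hDWG : SpecDWG) : SpecLNR := by
  intro R G V _ _ _ _ _ d hTM N x1 x2 hN hCl L X1 X2 Yp Ym hP hGeo c1 c2 hc1 hc2 hdis ε n ψ1 ψ2 χ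
    hψ1 hψ2 hχ hnil hs1 hs2
  have hεε : (ε : ℤ) * (ε : ℤ) = 1 := by
    rcases Int.units_eq_one_or ε with h | h <;> simp [h]
  -- the parts
  have ha1 : SuppIn c1 (ψ1 + (ε : ℤ) • ψ1ᴴ) := supp_pol ε hc1.inv hψ1
  have ha2 : SuppIn c2 (ψ2 + (ε : ℤ) • ψ2ᴴ) := supp_pol ε hc2.inv hψ2
  have hb : SuppIn X2 (χ + (ε : ℤ) • χᴴ) := supp_pol ε hP.X2i hχ
  have hsum : ψ1 + ψ2 + (ε : ℤ) • (ψ1 + ψ2)ᴴ =
      (ψ1 + (ε : ℤ) • ψ1ᴴ) + (ψ2 + (ε : ℤ) • ψ2ᴴ) := by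
    rw [conjTranspose_add, smul_add]
    abel
  have ha : SuppIn X1 (ψ1 + ψ2 + (ε : ℤ) • (ψ1 + ψ2)ᴴ) := by
    rw [hsum]
    exact supp_add (supp_mono hc1.sub ha1) (supp_mono hc2.sub ha2)
  have h03 : SuppIn (∅ : Set G) (0 : Matrix (Fin n) (Fin n) (MonoidAlgebra R G)) := by
    intro i j x h
    exact absurd rfl h
  obtain ⟨hE, hlet, hblk⟩ := mEFA R G L X1 X2 ∅ Yp Ym hP.toPingPong ε n
    (ψ1 + ψ2 + (ε : ℤ) • (ψ1 + ψ2)ᴴ) 0 (χ + (ε : ℤ) • χᴴ) ha h03 hb (NWTAux.sym_symm ε _)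
    (NWTAux.sym_symm ε χ) N hnil
  generalize hEE : EE L (nu ε (ψ1 + ψ2 + (ε : ℤ) • (ψ1 + ψ2)ᴴ) 0 (χ + (ε : ℤ) • χᴴ)) = E
    at hE hlet hblk
  have hE1 : ψ1 + (ε : ℤ) • ψ1ᴴ ∈ E 1 false true := by
    have h : cutM c1 (ψ1 + ψ2 + (ε : ℤ) • (ψ1 + ψ2)ᴴ) ∈ E 1 false true :=
      hlet false true c1 hc1.bi
    rwa [hsum, cut_part ha1 ha2 hdis] at h
  have hE2 : ψ2 + (ε : ℤ) • ψ2ᴴ ∈ E 1 false true := by
    have h : cutM c2 (ψ1 + ψ2 + (ε : ℤ) • (ψ1 + ψ2)ᴴ) ∈ E 1 false true :=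
      hlet false true c2 hc2.bi
    rwa [hsum, add_comm (ψ1 + (ε : ℤ) • ψ1ᴴ), cut_part ha2 ha1 fun x hx hx' => hdis x hx' hx]
      at h
  have hEb : χ + (ε : ℤ) • χᴴ ∈ E 1 true false := by
    have h : (ε : ℤ) • (χ + (ε : ℤ) • χᴴ) ∈ E 1 true false := hblk true false
    have h5 := AddSubgroup.zsmul_mem _ h (ε : ℤ)
    rwa [smul_smul, hεε, one_smul] at h5
  have hE0 : (0 : Matrix (Fin n) (Fin n) (MonoidAlgebra R G)) ∈ E 1 true true :=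
    AddSubgroup.zero_mem _
  -- nilpotency
  have hn1 : (nu ε (ψ1 + (ε : ℤ) • ψ1ᴴ) 0 (χ + (ε : ℤ) • χᴴ)) ^ N = 0 :=
    (RO.specKNA (MonoidAlgebra R G) ε n n N E hE hN _ _ 0 _ hE1 hE2 hE0 hEb).1
  have hn2 : (nu ε (ψ2 + (ε : ℤ) • ψ2ᴴ) 0 (χ + (ε : ℤ) • χᴴ)) ^ N = 0 :=
    (RO.specKNA (MonoidAlgebra R G) ε n n N E hE hN _ _ 0 _ hE2 hE1 hE0 hEb).1
  have hn3 : (nu ε (χ + (ε : ℤ) • χᴴ) 0 (ψ2 + (ε : ℤ) • ψ2ᴴ)) ^ N = 0 := by
    have h := INDAux.swap_zero ε _ _ _ N hn2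
    rwa [conjTranspose_zero] at h
  -- the two eliminations
  obtain ⟨hF1, hF2⟩ := hFML (MonoidAlgebra R G) ε n
  refine hF1 N ψ1 ψ2 χ hn1 hs1 (swap ε _ _ (hF1 N χ (rho ε N ψ1 χ) ψ2 hn3 (swap ε _ _ hs2)
    (swap ε _ _ ?_)))
  -- the polarizations
  obtain ⟨hR1, hR2⟩ := hFMR (MonoidAlgebra R G) ε n N
  obtain ⟨hR3, hR4⟩ := hR2 E hE hN
  have hr : rho ε N ψ1 χ + (ε : ℤ) • (rho ε N ψ1 χ)ᴴ ∈ E 3 true false := by
    rw [hR1 ψ1 χ hn1]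
    exact hR3 true _ hE1 _ hEb
  have hs : (ψ2 + rho ε N χ ψ2) + (ε : ℤ) • (ψ2 + rho ε N χ ψ2)ᴴ ∈ E 1 false true := by
    have h1 : rho ε N χ ψ2 + (ε : ℤ) • (rho ε N χ ψ2)ᴴ ∈ E 1 false true := by
      rw [hR1 χ ψ2 hn3]
      exact hE.mono 1 3 false true (by omega) (hR3 false _ hEb _ hE2)
    have h2 := AddSubgroup.add_mem _ hE2 h1
    have e : (ψ2 + rho ε N χ ψ2) + (ε : ℤ) • (ψ2 + rho ε N χ ψ2)ᴴ =
        ψ2 + (ε : ℤ) • ψ2ᴴ + (rho ε N χ ψ2 + (ε : ℤ) • (rho ε N χ ψ2)ᴴ) := by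
      rw [conjTranspose_add, smul_add]
      abel
    rw [e]
    exact h2
  -- supports
  have hS1 : SuppIn (V3 L c1 X2) (rho ε N ψ1 χ) :=
    (hSPR R G L X1 X2 Yp Ym c1 hP hc1 ε n N hN ψ1 χ hψ1 hχ).1
  have hS2 : SuppIn (V1 L c2 X2) (ψ2 + rho ε N χ ψ2) :=
    (hSPR R G L X1 X2 Yp Ym c2 hP hc2 ε n N hN ψ2 χ hψ2 hχ).2
  have hPd := (hDWP G L X1 X2 Yp Ym hP).1 c1 c2 hc1 hc2 hdis
  have hGd := (hDWG G V d hTM L X1 X2 x1 x2 hGeo).1 c1 c2 hc1 hc2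
  by_cases h3 : 3 ≤ N
  · exact hCl h3 L _ _ _ _ hPd hGd ε n _ _ hS2 hS1 (hR4 h3 _ hs _ hr)
  · have hr0 : rho ε N ψ1 χ + (ε : ℤ) • (rho ε N ψ1 χ)ᴴ = 0 :=
      hE.zero true false _ (hE.mono N 3 true false (by omega) hr)
    exact FCG.tpp L _ _ _ _ hPd ε n _ _ hS2 hS1 hr0

end Pool.Agent.Lib.MPb6f35e.TT.AR

/-! ## Module AR/ELM -/

/-!
# Classes of forms (MP_8a3537_gt, folder AR): elimination (copy of RO/SCU, RO/ELM)
-/

set_option autoImplicit false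
set_option linter.unusedSectionVars false
set_option linter.unusedSimpArgs false

namespace Pool.Agent.Lib.MPb6f35e.TT.AR

open Matrix Pool.Agent.Lib.MPb6f35e.TT.UV Pool.Agent.Lib.MPb6f35e.TT.AU Pool.Agent.Lib.MPb6f35e.TT.RO
open Pool.Agent.Lib.MPb6f35e.TT.ROK Pool.Agent.Lib.MPb6f35e.TT.LL

/-! ## From `RO/SCU.lean` -/

open Matrix Pool.Agent.Lib.MPb6f35e.TT.UV

namespace SCUMP

variable {A : Type} [Ring A] [StarRing A]

theorem sq {ε : ℤˣ} {m n : Type} (X : Matrix m n A) : (ε : ℤ) • (ε : ℤ) • X = X := by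
  rcases Int.units_eq_one_or ε with h | h <;> simp [h]

theorem star_smul' {ε : ℤˣ} {m n : Type} (X : Matrix m n A) :
    ((ε : ℤ) • X)ᴴ = (ε : ℤ) • Xᴴ := by
  rcases Int.units_eq_one_or ε with h | h <;> simp [h]

omit [StarRing A] in
theorem W0_mul {n : ℕ} (N : ℕ) (ν : Matrix (Fin n ⊕ Fin n) (Fin n ⊕ Fin n) A)
    (h : ν ^ N = 0) : W0 N ν * (1 + ν) = 1 ∧ (1 + ν) * W0 N ν = 1 := by
  have h1 := geom_sum_mul_neg (-ν) N
  have h2 := mul_neg_geom_sum (-ν) N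
  have h3 : (-ν) ^ N = 0 := by
    rw [neg_pow, h, mul_zero]
  rw [sub_neg_eq_add, h3, sub_zero] at h1 h2
  exact ⟨h1, h2⟩

/-- the matrix `J` -/
def J (A : Type) [Ring A] (ε : ℤˣ) (n : ℕ) : Matrix (Fin n ⊕ Fin n) (Fin n ⊕ Fin n) A :=
  fromBlocks 0 1 ((ε : ℤ) • 1) 0

/-- the inverse of `J` -/
def Ji (A : Type) [Ring A] (ε : ℤˣ) (n : ℕ) : Matrix (Fin n ⊕ Fin n) (Fin n ⊕ Fin n) A :=
  fromBlocks 0 ((ε : ℤ) • 1) 1 0

omit [StarRing A] in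
theorem J_Ji (ε : ℤˣ) (n : ℕ) : J A ε n * Ji A ε n = 1 ∧ Ji A ε n * J A ε n = 1 := by
  unfold J Ji
  rw [fromBlocks_multiply, fromBlocks_multiply]
  rcases Int.units_eq_one_or ε with h | h <;> simp [h, fromBlocks_one]

theorem lam (ε : ℤˣ) {n : ℕ} (ψ μ χ : Matrix (Fin n) (Fin n) A) :
    UF ψ μ χ + (ε : ℤ) • (UF ψ μ χ)ᴴ =
      J A ε n * (1 + nu ε (ψ + (ε : ℤ) • ψᴴ) μ (χ + (ε : ℤ) • χᴴ)) := by
  unfold UF nu J
  rw [← fromBlocks_one, fromBlocks_add, fromBlocks_multiply, fromBlocks_conjTranspose,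
    fromBlocks_smul, fromBlocks_add]
  rcases Int.units_eq_one_or ε with h | h
  · simp [h]
  · simp only [h, Units.val_neg, Units.val_one, neg_smul, one_smul, conjTranspose_add,
      conjTranspose_one, conjTranspose_conjTranspose, conjTranspose_zero, Matrix.zero_mul,
      Matrix.one_mul, Matrix.neg_mul, zero_add, add_zero, neg_neg, neg_zero, smul_neg, neg_add]

end SCUMP

open SCUMP in
theorem specSCU (hSCH : SpecSCH) : SpecSCU := by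
  intro A _ _ _ ε n r N ψ μ χ Ξ ψ' hν
  set ν := nu ε (ψ + (ε : ℤ) • ψᴴ) μ (χ + (ε : ℤ) • χᴴ) with hνd
  set w := W0 N ν with hw
  obtain ⟨hw1, hw2⟩ := W0_mul N ν hν
  obtain ⟨hJ1, hJ2⟩ := J_Ji (A := A) ε n
  have hlam := lam ε ψ μ χ
  rw [← hνd] at hlam
  let Ξ' : Matrix (Fin r) (Fin n ⊕ Fin n) A := fromCols Ξ 0
  have hΞ' : Ξ'ᴴ = fromRows Ξᴴ 0 := by
    change (fromCols Ξ 0)ᴴ = _
    rw [conjTranspose_fromCols_eq_fromRows_conjTranspose, conjTranspose_zero]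
  have hwb : w = fromBlocks (blk w true true) (blk w true false) (blk w false true)
      (blk w false false) := by
    ext i j
    rcases i with i | i <;> rcases j with j | j <;> rfl
  have hZm : w * Ji A ε n * Ξ'ᴴ = fromRows (blk w true false * Ξᴴ) (blk w false false * Ξᴴ) := by
    rw [hΞ', Matrix.mul_assoc]
    unfold Ji
    rw [fromBlocks_mul_fromRows]
    conv_lhs => rw [hwb]
    rw [fromBlocks_mul_fromRows]
    simp
  have h1 : (UF ψ μ χ + (ε : ℤ) • (UF ψ μ χ)ᴴ) * (w * Ji A ε n) = 1 := by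
    rw [hlam, Matrix.mul_assoc, ← Matrix.mul_assoc _ w, hw2, Matrix.one_mul, hJ1]
  have h2 : (w * Ji A ε n) * (UF ψ μ χ + (ε : ℤ) • (UF ψ μ χ)ᴴ) = 1 := by
    rw [hlam, Matrix.mul_assoc, ← Matrix.mul_assoc (Ji A ε n), hJ2, Matrix.one_mul, hw1]
  have hκ : -((w * Ji A ε n * Ξ'ᴴ)ᴴ * UF ψ μ χ * (w * Ji A ε n * Ξ'ᴴ)) = kap ψ μ χ w Ξ := by
    rw [hZm]
    unfold UF kap
    rw [EMVAux.rows_form]
    simp
  constructor
  · intro h3 h4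
    have h5 := hSCH A ε (Fin n ⊕ Fin n) (Fin r) (UF ψ μ χ) (w * Ji A ε n) Ξ' ψ' h1 h2 h3 (by
      rw [hκ]
      have h6 : UF ψ' 0 (kap ψ μ χ w Ξ) = fromBlocks ψ' 1 0 (kap ψ μ χ w Ξ) := by
        unfold UF
        simp
      rw [← h6]
      exact h4)
    have h7 : UF ψ μ χ + Ξ'ᴴ * ψ' * Ξ' = UF (ψ + Ξᴴ * ψ' * Ξ) μ χ := by
      rw [hΞ']
      change UF ψ μ χ + fromRows Ξᴴ 0 * ψ' * fromCols Ξ 0 = _
      rw [fromRows_mul, fromRows_mul_fromCols]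
      unfold UF
      rw [fromBlocks_add]
      simp
    rw [h7] at h5
    exact h5
  · have h3 : (UF ψ μ χ + (ε : ℤ) • (UF ψ μ χ)ᴴ) * (w * Ji A ε n * Ξ'ᴴ) = Ξ'ᴴ := by
      rw [← Matrix.mul_assoc, h1, Matrix.one_mul]
    have h4 : kap ψ μ χ w Ξ + (ε : ℤ) • (kap ψ μ χ w Ξ)ᴴ =
        -((w * Ji A ε n * Ξ'ᴴ)ᴴ *
          ((UF ψ μ χ + (ε : ℤ) • (UF ψ μ χ)ᴴ) * (w * Ji A ε n * Ξ'ᴴ))) := by
      rw [← hκ]
      simp only [conjTranspose_neg, conjTranspose_mul, conjTranspose_conjTranspose,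
        Matrix.add_mul, Matrix.mul_add, Matrix.smul_mul, Matrix.mul_smul, smul_neg, neg_add,
        Matrix.mul_assoc]
    rw [h4, h3, ← conjTranspose_mul, hZm]
    change -(fromCols Ξ 0 * fromRows (blk w true false * Ξᴴ) (blk w false false * Ξᴴ))ᴴ = _
    rw [fromCols_mul_fromRows]
    simp [Matrix.mul_assoc]


/-! ## From `RO/ELM.lean` -/

open Matrix Pool.Agent.Lib.MPb6f35e.TT.UV Pool.Agent.Lib.MPb6f35e.TT.AU
open Pool.Agent.Lib.MPb6f35e.TT.UO (ext)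

namespace ELMAuxP

section Sets

variable {G : Type} [Group G] (H : Subgroup G) (g : G)

theorem dc_left {h x : G} (hh : h ∈ H) (hx : x ∈ dc H g) : h * x ∈ dc H g := by
  obtain ⟨a, ha, b, hb, rfl⟩ := hx
  exact ⟨h * a, H.mul_mem hh ha, b, hb, by group⟩

theorem dc_right {h x : G} (hh : h ∈ H) (hx : x ∈ dc H g) : x * h ∈ dc H g := by
  obtain ⟨a, ha, b, hb, rfl⟩ := hx
  exact ⟨a, ha, b * h, H.mul_mem hb hh, by group⟩

theorem dc_inv (hg : g * g ∈ H) {x : G} (hx : x ∈ dc H g) : x⁻¹ ∈ dc H g := by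
  obtain ⟨a, ha, b, hb, rfl⟩ := hx
  exact ⟨b⁻¹ * (g * g)⁻¹, H.mul_mem (H.inv_mem hb) (H.inv_mem hg), a⁻¹, H.inv_mem ha, by group⟩

theorem bi_dc : Bi H (dc H g) :=
  ⟨fun _ hh _ hx => dc_left H g hh hx, fun _ hh _ hx => dc_right H g hh hx⟩

theorem bi_compl : Bi H (dc H g)ᶜ := by
  constructor
  · intro h hh x hx hc
    apply hx
    have := dc_left H g (H.inv_mem hh) hc
    simpa using this
  · intro h hh x hx hc
    apply hx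
    have := dc_right H g (H.inv_mem hh) hc
    simpa using this

end Sets

section Cut

variable {R G : Type} [Ring R]

theorem mat_ext {m n : Type} {M N : Matrix m n (MonoidAlgebra R G)}
    (h : ∀ i j x, (M i j).coeff x = (N i j).coeff x) : M = N := by
  refine Matrix.ext fun i j => ?_
  ext x
  exact h i j x

theorem cutM_coeff {m n : Type} (W : Set G) (M : Matrix m n (MonoidAlgebra R G)) (i : m) (j : n)
    (x : G) [Decidable (x ∈ W)] :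
    (cutM W M i j).coeff x = if x ∈ W then (M i j).coeff x else 0 := by
  have h := cut_coeff W (M i j) x
  change (cut W (M i j)).coeff x = _
  rw [h]
  split_ifs <;> rfl

theorem cutM_add {m n : Type} (W : Set G) (M N : Matrix m n (MonoidAlgebra R G)) :
    cutM W (M + N) = cutM W M + cutM W N := by
  classical
  refine mat_ext fun i j x => ?_
  rw [cutM_coeff, Matrix.add_apply, Matrix.add_apply, MonoidAlgebra.coeff_add,
    MonoidAlgebra.coeff_add, Finsupp.add_apply, Finsupp.add_apply, cutM_coeff, cutM_coeff]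
  split_ifs <;> simp

theorem cutM_neg {m n : Type} (W : Set G) (M : Matrix m n (MonoidAlgebra R G)) :
    cutM W (-M) = - cutM W M := by
  have h0 : cutM W (0 : Matrix m n (MonoidAlgebra R G)) = 0 := by
    classical
    refine mat_ext fun i j x => ?_
    rw [cutM_coeff]
    simp
  have h : cutM W (-M) + cutM W M = 0 := by rw [← cutM_add, neg_add_cancel, h0]
  exact eq_neg_of_add_eq_zero_left h

theorem unit_cases (ε : ℤˣ) {A : Type} [AddCommGroup A] (x : A) :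
    (ε : ℤ) • x = x ∨ (ε : ℤ) • x = -x := by
  rcases Int.units_eq_one_or ε with h | h
  · left
    rw [h]
    simp
  · right
    rw [h]
    simp

theorem cutM_smul {m n : Type} (W : Set G) (ε : ℤˣ) (M : Matrix m n (MonoidAlgebra R G)) :
    cutM W ((ε : ℤ) • M) = (ε : ℤ) • cutM W M := by
  rcases Int.units_eq_one_or ε with h | h
  · rw [h]
    simp
  · rw [h]
    simp only [Units.val_neg, Units.val_one, neg_smul, one_smul]
    exact cutM_neg W M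

theorem cutM_split {m n : Type} (W : Set G) (M : Matrix m n (MonoidAlgebra R G)) :
    cutM Wᶜ M + cutM W M = M := by
  classical
  refine mat_ext fun i j x => ?_
  rw [Matrix.add_apply, MonoidAlgebra.coeff_add, Finsupp.add_apply, cutM_coeff, cutM_coeff]
  by_cases h : x ∈ W
  · simp [h]
  · simp [h]

theorem cutM_star [StarRing R] [Group G] {m n : Type} (W : Set G) (hW : ∀ x ∈ W, x⁻¹ ∈ W)
    (M : Matrix m n (MonoidAlgebra R G)) : cutM W Mᴴ = (cutM W M)ᴴ := by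
  classical
  refine mat_ext fun i j x => ?_
  rw [cutM_coeff, conjTranspose_apply, conjTranspose_apply, star_coeff, star_coeff, cutM_coeff]
  by_cases h : x ∈ W
  · rw [if_pos h, if_pos (hW x h)]
  · rw [if_neg h, if_neg, star_zero]
    intro h1
    apply h
    have := hW _ h1
    simpa using this

theorem supp_cutM {m n : Type} (X W : Set G) (M : Matrix m n (MonoidAlgebra R G))
    (hM : SuppIn X M) : SuppIn {x | x ∈ X ∧ x ∈ W} (cutM W M) := by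
  classical
  intro i j x hx
  rw [cutM_coeff] at hx
  by_cases h : x ∈ W
  · rw [if_pos h] at hx
    exact ⟨hM i j x hx, h⟩
  · rw [if_neg h] at hx
    exact absurd rfl hx

end Cut

section Blk

variable {A : Type} [Ring A] [StarRing A]

theorem blk_ft (ε : ℤˣ) {n : ℕ} (a μ b : Matrix (Fin n) (Fin n) A) :
    blk (nu ε a μ b) false true = a := by
  refine Matrix.ext fun i j => ?_
  rfl

theorem blk_tt (ε : ℤˣ) {n : ℕ} (a μ b : Matrix (Fin n) (Fin n) A) :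
    blk (nu ε a μ b) true true = μ := by
  refine Matrix.ext fun i j => ?_
  rfl

theorem blk_tf (ε : ℤˣ) {n : ℕ} (a μ b : Matrix (Fin n) (Fin n) A) :
    blk (nu ε a μ b) true false = (ε : ℤ) • b := by
  refine Matrix.ext fun i j => ?_
  rfl

theorem smul_smul_self (ε : ℤˣ) {m n : Type} (M : Matrix m n A) : (ε : ℤ) • ((ε : ℤ) • M) = M := by
  rcases Int.units_eq_one_or ε with h | h
  · rw [h]
    simp
  · rw [h]
    simp

theorem smul_star (ε : ℤˣ) {m n : Type} (M : Matrix m n A) :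
    ((ε : ℤ) • M)ᴴ = (ε : ℤ) • Mᴴ := by
  rcases Int.units_eq_one_or ε with h | h
  · rw [h]
    simp
  · rw [h]
    simp

theorem herm (ε : ℤˣ) {n : Type} (M : Matrix n n A) :
    M + (ε : ℤ) • Mᴴ = (ε : ℤ) • (M + (ε : ℤ) • Mᴴ)ᴴ := by
  rw [conjTranspose_add, smul_star, conjTranspose_conjTranspose, smul_add, smul_smul_self,
    add_comm]

end Blk

end ELMAuxP

open ELMAuxP in
theorem specELM (hEFA : SpecEFA) (hFAC : SpecFAC) (hSCU : SpecSCU) (hKNA : SpecKNA)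
    (hKSP : SpecKSP) : SpecELM := by
  intro R G _ _ _ _ H X1 X2 X3 Yp Ym hP ε n ψ μ χ hψ hμ hχ hnil g hg hgg hS hB
  obtain ⟨N0, hN0⟩ := hnil
  set a := ψ + (ε : ℤ) • ψᴴ with ha
  set b := χ + (ε : ℤ) • χᴴ with hb
  have hN : (nu ε a μ b) ^ (N0 + 1) = 0 := by rw [pow_succ, hN0, zero_mul]
  have hsa : SuppIn X1 a := by
    intro i j x hx
    rw [ha, Matrix.add_apply, MonoidAlgebra.coeff_add, Finsupp.add_apply] at hx
    by_cases h1 : (ψ i j).coeff x = 0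
    · rw [h1, zero_add, Matrix.smul_apply, conjTranspose_apply] at hx
      have h2 : (star (ψ j i)).coeff x ≠ 0 := by
        intro h0
        apply hx
        rcases unit_cases ε (star (ψ j i)) with h | h
        · rw [h, h0]
        · rw [h, MonoidAlgebra.coeff_neg, Finsupp.neg_apply, h0, neg_zero]
      rw [star_coeff] at h2
      have h3 : (ψ j i).coeff x⁻¹ ≠ 0 := by
        intro h0
        apply h2
        rw [h0, star_zero]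
      have := hP.X1i _ (hψ j i _ h3)
      simpa using this
    · exact hψ i j x h1
  have hsb : SuppIn X2 b := by
    intro i j x hx
    rw [hb, Matrix.add_apply, MonoidAlgebra.coeff_add, Finsupp.add_apply] at hx
    by_cases h1 : (χ i j).coeff x = 0
    · rw [h1, zero_add, Matrix.smul_apply, conjTranspose_apply] at hx
      have h2 : (star (χ j i)).coeff x ≠ 0 := by
        intro h0
        apply hx
        rcases unit_cases ε (star (χ j i)) with h | h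
        · rw [h, h0]
        · rw [h, MonoidAlgebra.coeff_neg, Finsupp.neg_apply, h0, neg_zero]
      rw [star_coeff] at h2
      have h3 : (χ j i).coeff x⁻¹ ≠ 0 := by
        intro h0
        apply h2
        rw [h0, star_zero]
      have := hP.X2i _ (hχ j i _ h3)
      simpa using this
    · exact hχ i j x h1
  obtain ⟨hE, hcut, hblk⟩ := hEFA R G H X1 X2 X3 Yp Ym hP ε n a μ b hsa hμ hsb (herm ε ψ)
    (herm ε χ) (N0 + 1) hN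
  have hcs : ∀ x ∈ dc H g, x⁻¹ ∈ dc H g := fun x hx => dc_inv H g hgg hx
  have hcs' : ∀ x ∈ (dc H g)ᶜ, x⁻¹ ∈ (dc H g)ᶜ := by
    intro x hx hc
    apply hx
    have := hcs _ hc
    simpa using this
  have hac : cutM (dc H g) a = cutM (dc H g) ψ + (ε : ℤ) • (cutM (dc H g) ψ)ᴴ := by
    rw [ha, cutM_add, cutM_smul, cutM_star _ hcs]
  have ha0 : cutM (dc H g)ᶜ a = cutM (dc H g)ᶜ ψ + (ε : ℤ) • (cutM (dc H g)ᶜ ψ)ᴴ := by
    rw [ha, cutM_add, cutM_smul, cutM_star _ hcs']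
  have e1 : cutM (dc H g)ᶜ a ∈ EE H (nu ε a μ b) 1 false true := by
    have := hcut false true _ (bi_compl H g)
    rwa [blk_ft] at this
  have e2 : cutM (dc H g) a ∈ EE H (nu ε a μ b) 1 false true := by
    have := hcut false true _ (bi_dc H g)
    rwa [blk_ft] at this
  have e3 : μ ∈ EE H (nu ε a μ b) 1 true true := by
    have := hblk true true
    rwa [blk_tt] at this
  have e4 : b ∈ EE H (nu ε a μ b) 1 true false := by
    have h1 := hblk true false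
    rw [blk_tf] at h1
    have h2 := AddSubgroup.zsmul_mem _ h1 (ε : ℤ)
    rwa [smul_smul_self] at h2
  obtain ⟨r, Ξ, ψ', hΞ, hψ', hfac⟩ := hFAC R G H g n (cutM (dc H g) ψ) (by
    intro i j x hx
    exact (supp_cutM X1 (dc H g) ψ hψ i j x hx).2)
  obtain ⟨hn0, hn1⟩ := hKNA (MonoidAlgebra R G) ε n r (N0 + 1) _ hE (by omega) _ _ _ _ e1 e2 e3 e4
  rw [ha0] at hn0 hn1
  refine ⟨⟨N0 + 1, hn0⟩, fun hst => ?_⟩
  obtain ⟨s1, s2⟩ := hSCU (MonoidAlgebra R G) ε n r (N0 + 1) (cutM (dc H g)ᶜ ψ) μ χ Ξ ψ' hn0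
  have hα : Ξᴴ * (ψ' + (ε : ℤ) • ψ'ᴴ) * Ξ = cutM (dc H g) a := by
    rw [hac, hfac, conjTranspose_mul, conjTranspose_mul, conjTranspose_conjTranspose,
      Matrix.mul_add, Matrix.add_mul, Matrix.mul_smul, Matrix.smul_mul, Matrix.mul_assoc Ξᴴ ψ'ᴴ Ξ]
  have h3 := hn1 Ξ _ _ hα s2
  have hsup := hKSP R G H X1 X2 X3 Yp Ym {x | x ∈ X1 ∧ x ∉ dc H g} hS ε n r (N0 + 1)
    (cutM (dc H g)ᶜ ψ) μ χ Ξ (supp_cutM X1 (dc H g)ᶜ ψ hψ) hμ hχ hΞ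
  have h4 := hB r ψ' _ (by
    intro i j x hx
    have := hψ' i j x hx
    exact ⟨1, (Kg H g).one_mem, by rw [one_mul]; exact this⟩) hsup h3
  have h5 := s1 hst h4
  have h6 : cutM (dc H g)ᶜ ψ + Ξᴴ * ψ' * Ξ = ψ := by
    rw [← hfac]
    exact cutM_split _ _
  rwa [h6] at h5


end Pool.Agent.Lib.MPb6f35e.TT.AR
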