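import Pool.Agent.Lib.MP_b6f35e_al.TT.K1
import Pool.Agent.Lib.MP_b6f35e_al.TT.R1
import Pool.Agent.Lib.MP_b6f35e_al.TT.R2
import Pool.Agent.Lib.MP_b6f35e_al.TT.U1

/-! # Modules for Theorem DT (MP_b6f35e_al, Q2): trees, part 2 (copies of modules of MP_8a3537_gt, without the
conditions on elements of order two) -/

/-! ## Module ROK/DRG -/

/-!
# ROK, module DRG: the geometry of the derived data
-/

namespace Pool.Agent.Lib.MPb6f35e.TT.ROK

open Matrix Pool.Agent.Lib.MPb6f35e.TT.UV Pool.Agent.Lib.MPb6f35e.TT.AU Pool.Agent.Lib.MPb6f35e.TT.RO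

namespace DRGAux

variable {G V : Type} [Group G] [MulAction G V] {d : V → V → ℕ} {L : Subgroup G} {g : G}
  {Xb Yp Ym W : Set G} {x1 x2 : V}

theorem word (hP : PPK L (La L g) Xb ∅ Yp Ym) (hW : Hf L Xb W)
    (hG : Geo d L (La L g) Xb ∅ x1 x2) {w : G} (hw : TT (La L g) W w) :
    ∀ p ∈ DD d x1 x2 false, w • p ∈ DD d x1 x2 true ∧ w⁻¹ • p ∈ DD d x1 x2 true := by
  have hb : ∀ z ∈ Xb, ∀ p ∈ DD d x1 x2 false, z • p ∈ DD d x1 x2 true :=
    fun z hz p hp => hG.mv true false z p hz hp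
  have ha : ∀ e ∈ La L g, ∀ p ∈ DD d x1 x2 true, e • p ∈ DD d x1 x2 false :=
    fun e he p hp => hG.mv false true e p he hp
  induction hw with
  | base hz =>
    intro p hp
    exact ⟨hb _ (hW.sub _ hz) p hp, hb _ (hP.X2i _ (hW.sub _ hz)) p hp⟩
  | cons hz he _ ih =>
    intro p hp
    constructor
    · rw [mul_smul, mul_smul]
      exact hb _ (hW.sub _ hz) _ (ha _ he _ (ih p hp).1)
    · rw [_root_.mul_inv_rev, _root_.mul_inv_rev, mul_smul, mul_smul]
      exact (ih _ (ha _ (hP.X1i _ he) _ (hb _ (hP.X2i _ (hW.sub _ hz)) p hp))).2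

end DRGAux

theorem specDRG : SpecDRG := by
  intro G V _ _ d L g Xb Yp Ym W x1 x2 hP hW hG
  refine ⟨hG.ne, hG.st, ?_⟩
  intro s t x p hx hp
  cases s <;> cases t
  · exact absurd (show x⁻¹ ∈ (∅ : Set G) from hx) (Set.notMem_empty _)
  · exact hG.mv false true x p hx hp
  · obtain ⟨w, hw, e, he, w', hw', rfl⟩ := (show x ∈ XD (La L g) W from hx)
    rw [mul_smul, mul_smul]
    exact (DRGAux.word hP hW hG hw _
      (hG.mv false true e _ he (DRGAux.word hP hW hG hw' p hp).1)).2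
  · exact absurd (show x ∈ (∅ : Set G) from hx) (Set.notMem_empty _)

end Pool.Agent.Lib.MPb6f35e.TT.ROK

/-! ## Module ROK/FPT -/

/-! Module FPT of ROK: the metric of a tree satisfies the four point condition. -/

set_option linter.all false

namespace Pool.Agent.Lib.MPb6f35e.TT.ROK

namespace FPTAux

open UV.TREAux

variable {V : Type} {T : SimpleGraph V}

/-- The second vertex of a shortest walk. -/
theorem exists_next (hT : T.IsTree) {x y : V} (h : x ≠ y) :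
    ∃ x', T.Adj x x' ∧ T.dist x' y + 1 = T.dist x y := by
  obtain ⟨p, hp⟩ := hT.connected.exists_walk_length_eq_dist x y
  cases p with
  | nil => exact absurd rfl h
  | @cons _ x' _ hadj q =>
    refine ⟨x', hadj, ?_⟩
    rw [SimpleGraph.Walk.length_cons] at hp
    have h1 : T.dist x' y ≤ q.length := SimpleGraph.dist_le q
    have h2 : T.dist x y ≤ T.dist x x' + T.dist x' y := hT.connected.dist_triangle
    have h3 : T.dist x x' = 1 := SimpleGraph.dist_eq_one_iff_adj.mpr hadj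
    omega

theorem zero_iff (hT : T.IsTree) (x y : V) : T.dist x y = 0 ↔ x = y :=
  hT.connected.dist_eq_zero_iff

/-- Distances across an edge are additive. -/
theorem across (hT : T.IsTree) {x x' y : V} (hx : T.Adj x x') (hy : y ∈ Br T x x') :
    ∀ (n : ℕ) (z : V), T.dist x z = n → z ∈ Br T x' x → T.dist y z = T.dist y x + T.dist x z := by
  intro n
  induction n using Nat.strong_induction_on with
  | _ n ih =>
    intro z hn hz
    by_cases hzx : z = x
    · subst hzx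
      rw [SimpleGraph.dist_self, add_zero]
    · obtain ⟨z', hz', hd'⟩ := exists_next hT hzx
      -- facts on `z`
      have e1 : T.dist z x = n := by rw [SimpleGraph.dist_comm]; exact hn
      rw [mem_Br] at hz
      have e2 := hT.dist_eq_dist_add_one_of_adj z hx
      have e3 : T.dist z x' ≤ T.dist z z' + T.dist z' x' := hT.connected.dist_triangle
      have e4 : T.dist z z' = 1 := SimpleGraph.dist_eq_one_iff_adj.mpr hz'
      have hz'B : z' ∈ Br T x' x := by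
        rw [mem_Br]
        omega
      have e5 : T.dist x z' = T.dist z' x := SimpleGraph.dist_comm
      have ih1 := ih (T.dist x z') (by omega) z' rfl hz'B
      have e6 := hT.dist_eq_dist_add_one_of_adj y hz'
      rcases e6 with e6 | e6
      · omega
      · exfalso
        have hyB : y ∈ Br T z' z := by
          rw [mem_Br]
          omega
        by_cases hzx' : z' = x
        · subst hzx'
          have h1 := br_unique hT hz'.symm hx hyB hy
          subst h1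
          rw [SimpleGraph.dist_self] at hz
          omega
        · obtain ⟨z'', hz'', hd''⟩ := exists_next hT hzx'
          rw [mem_Br] at hz'B
          have e7 := hT.dist_eq_dist_add_one_of_adj z' hx
          have e8 : T.dist z' x' ≤ T.dist z' z'' + T.dist z'' x' := hT.connected.dist_triangle
          have e9 : T.dist z' z'' = 1 := SimpleGraph.dist_eq_one_iff_adj.mpr hz''
          have hz''B : z'' ∈ Br T x' x := by
            rw [mem_Br]
            omega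
          have e10 : T.dist x z'' = T.dist z'' x := SimpleGraph.dist_comm
          have ih2 := ih (T.dist x z'') (by omega) z'' rfl hz''B
          have hyB2 : y ∈ Br T z' z'' := by
            rw [mem_Br]
            omega
          have h1 := br_unique hT hz'.symm hz'' hyB hyB2
          subst h1
          omega

theorem four (hT : T.IsTree) : ∀ (n : ℕ) (x y z w : V), T.dist x y = n →
    T.dist x y + T.dist z w ≤
      max (T.dist x z + T.dist y w) (T.dist x w + T.dist y z) := by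
  intro n
  induction n with
  | zero =>
    intro x y z w h
    rw [zero_iff hT] at h
    subst h
    have h1 : T.dist z w ≤ T.dist z x + T.dist x w := hT.connected.dist_triangle
    have h2 : T.dist z x = T.dist x z := SimpleGraph.dist_comm
    rw [SimpleGraph.dist_self]
    refine le_max_of_le_left ?_
    omega
  | succ n ih =>
    intro x y z w h
    have hne : x ≠ y := by
      intro e
      subst e
      rw [SimpleGraph.dist_self] at h
      omega
    obtain ⟨x', hx', hd⟩ := exists_next hT hne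
    have c1 : T.dist y x = T.dist x y := SimpleGraph.dist_comm
    have c2 : T.dist y x' = T.dist x' y := SimpleGraph.dist_comm
    have hy : y ∈ Br T x x' := by
      rw [mem_Br]
      omega
    have tri : T.dist z w ≤ T.dist z x + T.dist x w := hT.connected.dist_triangle
    have c3 : T.dist z x = T.dist x z := SimpleGraph.dist_comm
    rcases br_or hT hx' z with hz | hz
    · rcases br_or hT hx' w with hw | hw
      · have ih1 := ih x' y z w (by omega)
        rw [mem_Br] at hz hw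
        have e1 := hT.dist_eq_dist_add_one_of_adj z hx'
        have e2 := hT.dist_eq_dist_add_one_of_adj w hx'
        have c4 : T.dist z x' = T.dist x' z := SimpleGraph.dist_comm
        have c5 : T.dist w x = T.dist x w := SimpleGraph.dist_comm
        have c6 : T.dist w x' = T.dist x' w := SimpleGraph.dist_comm
        rcases le_max_iff.1 ih1 with h1 | h1
        · exact le_max_of_le_left (by omega)
        · exact le_max_of_le_right (by omega)
      · have h1 := across hT hx' hy _ w rfl hw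
        exact le_max_of_le_left (by omega)
    · have h1 := across hT hx' hy _ z rfl hz
      exact le_max_of_le_right (by omega)

end FPTAux

open FPTAux in
theorem specFPT : SpecFPT := by
  intro G V _ _ T hT hG
  exact
    { d0 := zero_iff hT
      cm := fun x y => SimpleGraph.dist_comm
      tri := fun x y z => hT.connected.dist_triangle
      four := fun x y z w => four hT _ x y z w rfl
      iso := fun g x y => UV.TREAux.dist_smul hT hG g x y }

end Pool.Agent.Lib.MPb6f35e.TT.ROK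

/-! ## Module ROK/HLK -/

/-!
# MP_8a3537_gt, ROK: HLK (helper32)

A half of the double cosets, disjoint from its inverse.
-/

namespace Pool.Agent.Lib.MPb6f35e.TT.ROK

open Matrix Pool.Agent.Lib.MPb6f35e.TT.UV Pool.Agent.Lib.MPb6f35e.TT.AU Pool.Agent.Lib.MPb6f35e.TT.RO

/-- HLK -/
theorem specHLK : SpecHLK := by
  intro R G _ _ _ H ε n a ha hfl
  refine ⟨HLFAux.half H, HLFAux.bi_half H, fun x hx hx' => HLFAux.not_both H x hx hx', ?_⟩
  ext i j x
  have hc : ∀ (i j : Fin n) (x : G), (a i j).coeff x = (ε : ℤ) • star ((a j i).coeff x⁻¹) := by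
    intro i j x
    have h1 : a i j = ((ε : ℤ) • aᴴ) i j := congrFun (congrFun ha i) j
    have h2 : ((ε : ℤ) • aᴴ) i j = (ε : ℤ) • star (a j i) := by
      rw [Matrix.smul_apply, Matrix.conjTranspose_apply]
    rw [h1, h2, MonoidAlgebra.coeff_smul, Finsupp.smul_apply, star_coeff]
  have hr : (cutM (HLFAux.half H) a + (ε : ℤ) • (cutM (HLFAux.half H) a)ᴴ) i j
      = cut (HLFAux.half H) (a i j) + (ε : ℤ) • star (cut (HLFAux.half H) (a j i)) := by
    rw [Matrix.add_apply, Matrix.smul_apply, Matrix.conjTranspose_apply]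
    rfl
  rw [hr, MonoidAlgebra.coeff_add, Finsupp.add_apply, MonoidAlgebra.coeff_smul, Finsupp.smul_apply,
    star_coeff, cut_coeff, cut_coeff]
  by_cases h0 : (a i j).coeff x = 0
  · have h1 : (a j i).coeff x⁻¹ = 0 := by
      rw [hc j i x⁻¹, inv_inv, h0, star_zero, smul_zero]
    rw [h0, h1]
    simp
  · have hx := hfl i j x h0
    rcases HLFAux.one_of H x hx with h | h
    · have h2 : x⁻¹ ∉ HLFAux.half H := fun h2 => HLFAux.not_both H x h h2
      rw [if_pos h, if_neg h2, star_zero, smul_zero, add_zero]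
    · have h2 : x ∉ HLFAux.half H := fun h2 => HLFAux.not_both H x h2 h
      rw [if_neg h2, if_pos h, zero_add]
      exact hc i j x

end Pool.Agent.Lib.MPb6f35e.TT.ROK

/-! ## Module ROK/MNK -/

/-!
# ROK, module MNK: the theorem for data
-/

namespace Pool.Agent.Lib.MPb6f35e.TT.ROK

open Matrix Pool.Agent.Lib.MPb6f35e.TT.UV Pool.Agent.Lib.MPb6f35e.TT.AU Pool.Agent.Lib.MPb6f35e.TT.RO

namespace MNKAux

/-- The hypothesis of RMV. -/
theorem blocks (hSBK : SpecSBK) (hBLK : SpecBLK) (hBLG : SpecBLG) {R G V : Type} [Ring R]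
    [StarRing R] [Group G] [MulAction G V] {d : V → V → ℕ} (hd : TM G d) {H : Subgroup G}
    {X1 X2 X3 Yp Ym : Set G} {x1 x2 : V} (P : PPK H X1 X2 X3 Yp Ym)
    (hG : Geo d H X1 X2 X3 x1 x2) (hS : ∀ g ∈ X1, g * g ∈ H → SE R G d x1 (g • x1)) :
    ∀ g ∈ X1, g * g ∈ H → Sub1 H X1 X2 X3 Yp Ym {x | x ∈ X1 ∧ x ∉ dc H g} ∧
      Blk R (La (Kg H g) g) (BX H X1 X2 X3 g) := by
  intro g hg hgg
  obtain ⟨-, -, -, h4, -⟩ := hSBK G H X1 X2 X3 Yp Ym P.toPingPong g hg hgg
  obtain ⟨b1, b2, -⟩ := hBLG G V d hd H X1 X2 X3 Yp Ym x1 x2 P.toPingPong hG g hg hgg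
  exact ⟨h4, hS g hg hgg (Kg H g) g (BX H X1 X2 X3 g) _ _
    (hBLK G H X1 X2 X3 Yp Ym P g hg hgg) b1 rfl b2⟩

end MNKAux

/-- **Module MNK**: the theorem for data. -/
theorem specMNK (hNWT : RO.SpecNWT) (hSBK : SpecSBK) (hBLK : SpecBLK) (hSYK : SpecSYK)
    (hBLG : SpecBLG) (hRMV : SpecRMV) : SpecMNK := by
  intro R G V _ _ _ _ d hd H X1 X2 X3 Yp Ym x1 x2 P hG hS1 hS2 ε n ψ μ χ hψ hμ hχ hnil
  obtain ⟨l, hl⟩ := hnil
  obtain ⟨N, hN⟩ : ∃ N, N = l + 1 := ⟨_, rfl⟩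
  have hN1 : 1 ≤ N := by omega
  have hνN : (nu ε (ψ + (ε : ℤ) • ψᴴ) μ (χ + (ε : ℤ) • χᴴ)) ^ N = 0 := by
    rw [hN, pow_succ, hl, zero_mul]
  obtain ⟨s1, s2, -, -⟩ := hSYK G H X1 X2 X3 Yp Ym
  have P' := s1 P
  have hG' := s2 V d x1 x2 hG
  have hμs : SuppIn (Xinv X3) μᴴ := INDAux.supp_star hμ (fun y hy => by
    change y⁻¹⁻¹ ∈ X3
    rw [inv_inv]
    exact hy)
  refine hRMV R G H X1 X2 X3 Yp Ym P.toPingPong
    (MNKAux.blocks hSBK hBLK hBLG hd P hG hS1) ε n N hN1 ψ μ χ hψ hμ hχ hνN ?_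
  intro ψ0 hψ0 hfl0 hν0
  apply (specSwp (MonoidAlgebra R G) ε n ψ0 μ χ).1
  refine hRMV R G H X2 X1 (Xinv X3) Ym Yp P'.toPingPong
    (MNKAux.blocks hSBK hBLK hBLG hd P' hG' hS2) ε n N hN1 χ μᴴ ψ0 hχ hμs hψ0
    (INDAux.swap_zero ε _ _ _ N hν0) ?_
  intro χ0 hχ0 hfl1 hν1
  exact hNWT R G H X2 X1 (Xinv X3) Ym Yp P'.toPingPong ε n χ0 μᴴ ψ0 hχ0 hμs hψ0 ⟨N, hν1⟩ hfl1 hfl0

end Pool.Agent.Lib.MPb6f35e.TT.ROK

/-! ## Module ROK/NEI -/

/-! # ROK, module NEI: the Newton step as an isometry -/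

set_option linter.unusedSectionVars false
set_option linter.unusedSimpArgs false

namespace Pool.Agent.Lib.MPb6f35e.TT.ROK

open Matrix Pool.Agent.Lib.MPb6f35e.TT.UV Pool.Agent.Lib.MPb6f35e.TT.AU Pool.Agent.Lib.MPb6f35e.TT.RO

namespace NEIAux

variable {A : Type} [Ring A] [StarRing A]

theorem ee (ε : ℤˣ) {M N : Type} (X : Matrix M N A) : (ε : ℤ) • (ε : ℤ) • X = X := by
  rcases Int.units_eq_one_or ε with h | h <;> simp [h]

theorem es (ε : ℤˣ) {M N : Type} (X : Matrix M N A) : ((ε : ℤ) • X)ᴴ = (ε : ℤ) • Xᴴ := by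
  rcases Int.units_eq_one_or ε with h | h <;> simp [h]

theorem geo {n N : ℕ} (x : Matrix (Fin n) (Fin n) A) (hx : x ^ N = 0) :
    (1 - x) * (∑ i ∈ Finset.range N, x ^ i) = 1 ∧
      (∑ i ∈ Finset.range N, x ^ i) * (1 - x) = 1 := by
  constructor
  · rw [mul_neg_geom_sum, hx, sub_zero]
  · rw [geom_sum_mul_neg, hx, sub_zero]

theorem eps_pow (ε : ℤˣ) {n N : ℕ} (x : Matrix (Fin n) (Fin n) A) (hx : x ^ N = 0) :
    ((ε : ℤ) • x) ^ N = 0 := by
  rcases Int.units_eq_one_or ε with h | h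
  · simp [h, hx]
  · simp only [h, Units.val_neg, Units.val_one, neg_smul, one_smul]
    rw [neg_pow, hx, mul_zero]

/-- `(ψ, V; 0, 0)` is hyperbolic if `V` is invertible. -/
theorem iso1 (ε : ℤˣ) {n : ℕ} (ψ V T : Matrix (Fin n) (Fin n) A) (h1 : V * T = 1)
    (h2 : T * V = 1) :
    Isometric ε (fromBlocks ψ V 0 0) (UF (0 : Matrix (Fin n) (Fin n) A) 0 0) := by
  refine ⟨fromBlocks 1 0 (-(T * ψ)) T, fromBlocks 1 0 ψ V, 0, ?_, ?_, ?_⟩
  · rw [fromBlocks_multiply]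
    simp [h2, Matrix.one_mul, fromBlocks_one]
  · rw [fromBlocks_multiply]
    have h3 : V * (T * ψ) = ψ := by rw [← Matrix.mul_assoc, h1, Matrix.one_mul]
    simp [h1, h3, fromBlocks_one]
  · have h3 : V * (T * ψ) = ψ := by rw [← Matrix.mul_assoc, h1, Matrix.one_mul]
    unfold UF
    rw [fromBlocks_conjTranspose, Matrix.mul_assoc, fromBlocks_multiply, fromBlocks_multiply]
    simp [h1, h3]

/-- `(ψ, 1; 0, q)` and `(ψ, V; 0, q ψ q^*)`. -/
theorem iso2 (ε : ℤˣ) {n : ℕ} (ψ q V : Matrix (Fin n) (Fin n) A)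
    (hV : V = 1 - (ψ + (ε : ℤ) • ψᴴ) * qᴴ) :
    Isometric ε (UF ψ 0 q) (fromBlocks ψ V 0 (q * ψ * qᴴ)) := by
  refine ⟨fromBlocks 1 (-qᴴ) 0 1, fromBlocks 1 qᴴ 0 1, fromBlocks 0 0 (q * ψ) 0, ?_, ?_, ?_⟩
  · rw [fromBlocks_multiply]
    simp [fromBlocks_one]
  · rw [fromBlocks_multiply]
    simp [fromBlocks_one]
  · unfold UF
    rw [fromBlocks_conjTranspose, Matrix.mul_assoc, fromBlocks_multiply, fromBlocks_multiply,
      fromBlocks_conjTranspose, fromBlocks_smul, fromBlocks_add, sub_eq_add_neg,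
      fromBlocks_neg, fromBlocks_add]
    congr 1
    · simp
    · rw [hV]
      simp only [conjTranspose_one, conjTranspose_zero, conjTranspose_mul, Matrix.one_mul,
        Matrix.mul_one, Matrix.zero_mul, Matrix.mul_zero, Matrix.mul_neg, Matrix.add_mul,
        Matrix.smul_mul, add_zero, zero_add]
      abel
    · simp
    · simp only [conjTranspose_one, conjTranspose_zero, conjTranspose_neg,
        conjTranspose_conjTranspose, Matrix.one_mul, Matrix.mul_one, Matrix.zero_mul,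
        Matrix.mul_zero, Matrix.mul_neg, Matrix.neg_mul, Matrix.mul_add, add_zero, zero_add,
        smul_zero, neg_zero, neg_neg, neg_add_rev, Matrix.mul_assoc]
      abel

end NEIAux

open NEIAux

theorem specNEI (hSCH : RO.SpecSCH) : SpecNEI := by
  intro A _ _ ε n N ψ q hN hst
  set a : Matrix (Fin n) (Fin n) A := ψ + (ε : ℤ) • ψᴴ with hadef
  have ha : aᴴ = (ε : ℤ) • a := by
    rw [hadef, conjTranspose_add, es, conjTranspose_conjTranspose, smul_add, ee]
    abel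
  set x : Matrix (Fin n) (Fin n) A := (ε : ℤ) • (q * a) with hxdef
  have hx : x ^ N = 0 := eps_pow ε _ hN
  obtain ⟨g1, g2⟩ := geo x hx
  set S : Matrix (Fin n) (Fin n) A := ∑ i ∈ Finset.range N, x ^ i with hSdef
  set V : Matrix (Fin n) (Fin n) A := (1 - x)ᴴ with hVdef
  have hVS : V * Sᴴ = 1 := by
    rw [hVdef, ← conjTranspose_mul, g2, conjTranspose_one]
  have hSV : Sᴴ * V = 1 := by
    rw [hVdef, ← conjTranspose_mul, g1, conjTranspose_one]
  have hVH : Vᴴ = 1 - x := by rw [hVdef, conjTranspose_conjTranspose]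
  have hV : V = 1 - (ψ + (ε : ℤ) • ψᴴ) * qᴴ := by
    rw [hVdef, hxdef, conjTranspose_sub, conjTranspose_one, es, conjTranspose_mul, ha,
      Matrix.smul_mul, ee]
  set Z : Matrix (Fin n) (Fin n) A := zet ε N q a with hZdef
  have hZ : Z = (ε : ℤ) • (S * q) := by
    rw [hZdef]
    unfold zet
    rfl
  refine SWPAux.stab_of_isom (iso2 ε ψ q V hV) ?_
  have hΞ : (fromCols (0 : Matrix (Fin n) (Fin n) A) qᴴ)ᴴ * ψ *
      fromCols (0 : Matrix (Fin n) (Fin n) A) qᴴ = fromBlocks 0 0 0 (q * ψ * qᴴ) := by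
    rw [conjTranspose_fromCols_eq_fromRows_conjTranspose, fromRows_mul, fromRows_mul_fromCols]
    simp
  have hsum : fromBlocks ψ V 0 (q * ψ * qᴴ) = fromBlocks ψ V 0 0 +
      (fromCols (0 : Matrix (Fin n) (Fin n) A) qᴴ)ᴴ * ψ *
        fromCols (0 : Matrix (Fin n) (Fin n) A) qᴴ := by
    rw [hΞ, fromBlocks_add]
    simp
  rw [hsum]
  have hL : fromBlocks ψ V 0 0 + (ε : ℤ) • (fromBlocks ψ V 0 0)ᴴ =
      fromBlocks a V ((ε : ℤ) • Vᴴ) 0 := by
    rw [fromBlocks_conjTranspose, fromBlocks_smul, fromBlocks_add]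
    simp [hadef]
  have hY : fromBlocks 0 ((ε : ℤ) • S) Sᴴ (-((ε : ℤ) • (Sᴴ * a * S))) *
      (fromCols (0 : Matrix (Fin n) (Fin n) A) qᴴ)ᴴ = fromRows Z (-(Sᴴ * a * Z)) := by
    rw [conjTranspose_fromCols_eq_fromRows_conjTranspose, fromBlocks_mul_fromRows, hZ]
    simp [Matrix.smul_mul, Matrix.mul_smul, Matrix.mul_assoc, -zsmul_eq_mul]
  refine hSCH A ε (Fin n ⊕ Fin n) (Fin n) (fromBlocks ψ V 0 0)
    (fromBlocks 0 ((ε : ℤ) • S) Sᴴ (-((ε : ℤ) • (Sᴴ * a * S))))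
    (fromCols 0 qᴴ) ψ ?_ ?_ ?_ ?_
  · rw [hL, fromBlocks_multiply, ← fromBlocks_one]
    congr 1
    · simp [hVS]
    · have h3 : V * (Sᴴ * (a * S)) = a * S := by rw [← Matrix.mul_assoc, hVS, Matrix.one_mul]
      rw [Matrix.mul_smul, Matrix.mul_neg, Matrix.mul_smul, Matrix.mul_assoc Sᴴ, h3,
        add_neg_cancel]
    · simp
    · rw [Matrix.zero_mul, add_zero, Matrix.smul_mul, Matrix.mul_smul, ee, hVH, g1]
  · rw [hL, fromBlocks_multiply, ← fromBlocks_one]
    congr 1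
    · rw [Matrix.zero_mul, zero_add, Matrix.smul_mul, Matrix.mul_smul, ee, hVH, g2]
    · simp
    · rw [Matrix.neg_mul, Matrix.smul_mul, Matrix.mul_smul, ee, Matrix.mul_assoc, hVH, g2,
        Matrix.mul_one, add_neg_cancel]
    · simp [hSV]
  · exact SWPAux.stab_of_isom (iso1 ε ψ V Sᴴ hVS hSV) (SWPAux.trivial_form n)
  · rw [hY]
    set Y : Matrix (Fin n ⊕ Fin n) (Fin n) A := fromRows Z (-(Sᴴ * a * Z)) with hYdef
    set Λ : Matrix (Fin n ⊕ Fin n) (Fin n ⊕ Fin n) A := fromBlocks ψ V 0 0 with hΛdef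
    have h4 : Λ * Y = fromRows (-((ε : ℤ) • (ψᴴ * Z))) (0 : Matrix (Fin n) (Fin n) A) := by
      rw [hYdef, hΛdef, fromBlocks_mul_fromRows]
      congr 1
      · have h3 : V * (Sᴴ * (a * Z)) = a * Z := by
          rw [← Matrix.mul_assoc, hVS, Matrix.one_mul]
        rw [Matrix.mul_neg, Matrix.mul_assoc Sᴴ, h3, hadef, Matrix.add_mul, Matrix.smul_mul]
        abel
      · simp
    have hκ : -(Yᴴ * Λ * Y) = (ε : ℤ) • (Zᴴ * ψᴴ * Z) := by
      rw [Matrix.mul_assoc, h4, hYdef, conjTranspose_fromRows_eq_fromCols_conjTranspose,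
        fromCols_mul_fromRows, Matrix.mul_zero, add_zero, Matrix.mul_neg, neg_neg,
        Matrix.mul_smul, Matrix.mul_assoc]
    rw [hκ]
    have h5 := SWPAux.stab_of_isom (SWPAux.change (ε := ε) ψ 0 (Zᴴ * ψ * Z) 0
      ((ε : ℤ) • (Zᴴ * ψᴴ * Z))) hst
    have h6 : UF (ψ + 0 - (ε : ℤ) • (0 : Matrix (Fin n) (Fin n) A)ᴴ) 0
        (Zᴴ * ψ * Z + (ε : ℤ) • (Zᴴ * ψᴴ * Z) - (ε : ℤ) • ((ε : ℤ) • (Zᴴ * ψᴴ * Z))ᴴ) =
        fromBlocks ψ 1 0 ((ε : ℤ) • (Zᴴ * ψᴴ * Z)) := by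
      unfold UF
      rw [es, ee]
      simp only [conjTranspose_mul, conjTranspose_conjTranspose, conjTranspose_zero, smul_zero,
        add_zero, sub_zero, Matrix.mul_assoc]
      congr 1
      abel
    rw [h6] at h5
    exact h5

end Pool.Agent.Lib.MPb6f35e.TT.ROK

/-! ## Module ROK/NEN -/

/-!
# ROK, module NEN: the nilpotency index drops
-/

namespace Pool.Agent.Lib.MPb6f35e.TT.ROK

open Matrix Pool.Agent.Lib.MPb6f35e.TT.UV Pool.Agent.Lib.MPb6f35e.TT.AU Pool.Agent.Lib.MPb6f35e.TT.RO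

namespace NENAux

variable {A : Type} [Ring A] [StarRing A] {n N : ℕ}
  {E : ℕ → Bool → Bool → AddSubgroup (Matrix (Fin n) (Fin n) A)}

theorem eq_zero (hE : EFam E N) {k : ℕ} (hk : N ≤ k) {s t : Bool}
    {M : Matrix (Fin n) (Fin n) A} (hM : M ∈ E k s t) : M = 0 :=
  hE.zero s t M (hE.mono N k s t hk hM)

theorem qa_mem (hE : EFam E N) {a q : Matrix (Fin n) (Fin n) A} (ha : a ∈ E 1 false true)
    (hq : q ∈ E 1 true false) : q * a ∈ E 2 true true :=
  hE.mul 1 1 true false true q a hq ha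

theorem pow_mem (hE : EFam E N) {M : Matrix (Fin n) (Fin n) A} (hM : M ∈ E 2 true true) :
    ∀ i : ℕ, M ^ (i + 1) ∈ E (2 * (i + 1)) true true := by
  intro i
  induction i with
  | zero => simpa using hM
  | succ i ih =>
    rw [pow_succ]
    have h := hE.mul (2 * (i + 1)) 2 true true true _ _ ih hM
    exact h

theorem pow_mul_mem (hE : EFam E N) {M q : Matrix (Fin n) (Fin n) A} (hM : M ∈ E 2 true true)
    (hq : q ∈ E 1 true false) : ∀ i : ℕ, M ^ i * q ∈ E (2 * i + 1) true false := by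
  intro i
  induction i with
  | zero => simpa using hq
  | succ i ih =>
    rw [pow_succ', mul_assoc]
    have h := hE.mul 2 (2 * i + 1) true true false _ _ hM ih
    have e : 2 + (2 * i + 1) = 2 * (i + 1) + 1 := by ring
    rw [e] at h
    exact h

theorem zet_mem (hE : EFam E N) {a q : Matrix (Fin n) (Fin n) A} (ε : ℤˣ)
    (ha : a ∈ E 1 false true) (hq : q ∈ E 1 true false) : zet ε N q a ∈ E 1 true false := by
  have hM : (ε : ℤ) • (q * a) ∈ E 2 true true := AddSubgroup.zsmul_mem _ (qa_mem hE ha hq) _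
  unfold zet
  apply AddSubgroup.zsmul_mem
  rw [Finset.sum_mul]
  apply AddSubgroup.sum_mem
  intro i _
  exact hE.mono 1 (2 * i + 1) true false (by omega) (pow_mul_mem hE hM hq i)

theorem nu_pow (hE : EFam E N) {a b : Matrix (Fin n) (Fin n) A} (ε : ℤˣ)
    (ha : a ∈ E 1 false true) (hb : b ∈ E 3 true false) (i : ℕ) :
    ∃ m11 m12 m21 m22 : Matrix (Fin n) (Fin n) A, m11 ∈ E (2 * i + 2) true true ∧
      m12 ∈ E (2 * i + 3) true false ∧ m21 ∈ E (2 * i + 1) false true ∧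
      m22 ∈ E (2 * i + 2) false false ∧ (nu ε a 0 b) ^ (i + 1) = fromBlocks m11 m12 m21 m22 := by
  have hb' : (ε : ℤ) • b ∈ E 3 true false := AddSubgroup.zsmul_mem _ hb _
  induction i with
  | zero =>
    refine ⟨0, (ε : ℤ) • b, a, 0, AddSubgroup.zero_mem _, hb', ha, AddSubgroup.zero_mem _, ?_⟩
    rw [zero_add, pow_one, nu, conjTranspose_zero]
  | succ i ih =>
    obtain ⟨m11, m12, m21, m22, h11, h12, h21, h22, h⟩ := ih
    refine ⟨m12 * a, m11 * ((ε : ℤ) • b), m22 * a, m21 * ((ε : ℤ) • b), ?_, ?_, ?_, ?_, ?_⟩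
    · exact hE.mul (2 * i + 3) 1 true false true _ _ h12 ha
    · have h1 := hE.mul (2 * i + 2) 3 true true false _ _ h11 hb'
      have e : 2 * i + 2 + 3 = 2 * (i + 1) + 3 := by ring
      rw [e] at h1
      exact h1
    · exact hE.mul (2 * i + 2) 1 false false true _ _ h22 ha
    · exact hE.mul (2 * i + 1) 3 false true false _ _ h21 hb'
    · rw [pow_succ, h, nu, fromBlocks_multiply]
      simp

end NENAux

open NENAux in
/-- **NEN**. -/
theorem specNEN : SpecNEN := by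
  intro A _ _ ε n N E hE hN a ha q hq
  have hZ : zet ε N q a ∈ E 1 true false := zet_mem hE ε ha hq
  have hZs : (zet ε N q a)ᴴ ∈ E 1 true false := hE.star 1 true false _ hZ
  have hb : (zet ε N q a)ᴴ * a * zet ε N q a ∈ E 3 true false :=
    hE.mul 2 1 true true false _ _ (hE.mul 1 1 true false true _ _ hZs ha) hZ
  refine ⟨?_, fun h3 => eq_zero hE h3 hb, fun h3 => ?_⟩
  · obtain ⟨k, rfl⟩ : ∃ k, N = k + 1 := ⟨N - 1, by omega⟩
    exact eq_zero hE (by omega) (pow_mem hE (qa_mem hE ha hq) k)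
  · obtain ⟨k, rfl⟩ : ∃ k, N = k + 3 := ⟨N - 3, by omega⟩
    have e : k + 3 - 1 = (k + 1) + 1 := by omega
    obtain ⟨m11, m12, m21, m22, h11, h12, h21, h22, h⟩ := nu_pow hE ε ha hb (k + 1)
    rw [e, h, eq_zero hE (by omega) h11, eq_zero hE (by omega) h12, eq_zero hE (by omega) h21,
      eq_zero hE (by omega) h22, fromBlocks_zero]

end Pool.Agent.Lib.MPb6f35e.TT.ROK

/-! ## Module ROK/NES -/

/-!
# ROK, module NES (helper10): supports
-/

namespace Pool.Agent.Lib.MPb6f35e.TT.ROK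

open Matrix Pool.Agent.Lib.MPb6f35e.TT.UV Pool.Agent.Lib.MPb6f35e.TT.AU Pool.Agent.Lib.MPb6f35e.TT.RO

namespace NESAux

variable {R G : Type} [Ring R] [StarRing R] [Group G] {n : ℕ}

theorem supp_zero (X : Set G) : SuppIn X (0 : Matrix (Fin n) (Fin n) (MonoidAlgebra R G)) := by
  intro i j g hg
  exact absurd (by simp) hg

theorem supp_sum {ι : Type} (s : Finset ι) (X : Set G)
    (f : ι → Matrix (Fin n) (Fin n) (MonoidAlgebra R G)) (h : ∀ i ∈ s, SuppIn X (f i)) :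
    SuppIn X (∑ i ∈ s, f i) := by
  classical
  induction s using Finset.induction_on with
  | empty => exact supp_zero X
  | insert a s ha ih =>
    rw [Finset.sum_insert ha]
    exact INDAux.supp_add (h a (Finset.mem_insert_self a s))
      (ih fun i hi => h i (Finset.mem_insert_of_mem hi))

theorem supp_pow {Xa W : Set G} (ε : ℤˣ) {a q : Matrix (Fin n) (Fin n) (MonoidAlgebra R G)}
    (ha : SuppIn Xa a) (hq : SuppIn W q) (i : ℕ) :
    SuppIn (TS Xa W) (((ε : ℤ) • (q * a)) ^ i * q) := by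
  induction i with
  | zero =>
    rw [pow_zero, one_mul]
    intro i j g hg
    exact TT.base (hq i j g hg)
  | succ i ih =>
    rw [pow_succ', mul_assoc, smul_mul_assoc, mul_assoc]
    refine INDAux.supp_units ε ?_
    refine INDAux.supp_mul (Y := {x | ∃ e ∈ Xa, ∃ w ∈ TS Xa W, x = e * w}) hq
      (INDAux.supp_mul ha ih fun e he w hw => ⟨e, he, w, hw, rfl⟩) ?_
    rintro z hz _ ⟨e, he, w, hw, rfl⟩
    rw [← mul_assoc]
    exact TT.cons hz he hw

theorem supp_zet {Xa W : Set G} (ε : ℤˣ) (N : ℕ)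
    {a q : Matrix (Fin n) (Fin n) (MonoidAlgebra R G)} (ha : SuppIn Xa a) (hq : SuppIn W q) :
    SuppIn (TS Xa W) (zet ε N q a) := by
  unfold zet
  refine INDAux.supp_units ε ?_
  rw [Finset.sum_mul]
  exact supp_sum _ _ _ fun i _ => supp_pow ε ha hq i

end NESAux

open NESAux in
theorem specNES : SpecNES := by
  intro R G _ _ _ Xa W ε n N ψ a q hψ ha hq
  have hZ := supp_zet ε N ha hq
  have hZ' : SuppIn {x : G | ∃ w ∈ TS Xa W, x = w⁻¹} (zet ε N q a)ᴴ :=
    INDAux.supp_star hZ fun w hw => ⟨w, hw, rfl⟩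
  refine INDAux.supp_mul (X := {x : G | ∃ w ∈ TS Xa W, ∃ e ∈ Xa, x = w⁻¹ * e})
    (INDAux.supp_mul hZ' hψ ?_) hZ ?_
  · rintro _ ⟨w, hw, rfl⟩ e he
    exact ⟨w, hw, e, he, rfl⟩
  · rintro _ ⟨w, hw, e, he, rfl⟩ w' hw'
    exact ⟨w, hw, e, he, w', hw', rfl⟩

end Pool.Agent.Lib.MPb6f35e.TT.ROK

/-! ## Module ROK/RMV -/

/-!
# ROK, module RMV: removal of the flips with the same nilpotency index (helper77)
-/

namespace Pool.Agent.Lib.MPb6f35e.TT.ROK

open Matrix Pool.Agent.Lib.MPb6f35e.TT.UV Pool.Agent.Lib.MPb6f35e.TT.AU Pool.Agent.Lib.MPb6f35e.TT.RO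

namespace RMVAux

open ELMAux

variable {R G : Type} [Ring R] [StarRing R] [Group G]

theorem supp_sym {X : Set G} (hX : ∀ x ∈ X, x⁻¹ ∈ X) (ε : ℤˣ) {n : ℕ}
    {ψ : Matrix (Fin n) (Fin n) (MonoidAlgebra R G)} (hψ : SuppIn X ψ) :
    SuppIn X (ψ + (ε : ℤ) • ψᴴ) := by
  intro i j x hx
  rw [Matrix.add_apply, MonoidAlgebra.coeff_add, Finsupp.add_apply] at hx
  by_cases h1 : (ψ i j).coeff x = 0
  · rw [h1, zero_add, Matrix.smul_apply, conjTranspose_apply] at hx
    have h2 : (star (ψ j i)).coeff x ≠ 0 := by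
      intro h0
      apply hx
      rcases unit_cases ε (star (ψ j i)) with h | h
      · rw [h, h0]
      · rw [h, MonoidAlgebra.coeff_neg, Finsupp.neg_apply, h0, neg_zero]
    rw [star_coeff] at h2
    have h3 : (ψ j i).coeff x⁻¹ ≠ 0 := by
      intro h0
      apply h2
      rw [h0, star_zero]
    have := hX _ (hψ j i _ h3)
    simpa using this
  · exact hψ i j x h1

/-- The nilpotency index does not grow. -/
theorem index (hEFA : RO.SpecEFA) (hKNA : RO.SpecKNA) {H : Subgroup G} {X1 X2 X3 Yp Ym : Set G}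
    (hP : PingPong H X1 X2 X3 Yp Ym) (ε : ℤˣ) {n N : ℕ} (hN : 1 ≤ N)
    {ψ μ χ : Matrix (Fin n) (Fin n) (MonoidAlgebra R G)} (hψ : SuppIn X1 ψ) (hμ : SuppIn X3 μ)
    (hχ : SuppIn X2 χ) (hnil : (nu ε (ψ + (ε : ℤ) • ψᴴ) μ (χ + (ε : ℤ) • χᴴ)) ^ N = 0) {g : G}
    (hgg : g * g ∈ H) :
    (nu ε (cutM (dc H g)ᶜ ψ + (ε : ℤ) • (cutM (dc H g)ᶜ ψ)ᴴ) μ
      (χ + (ε : ℤ) • χᴴ)) ^ N = 0 := by
  set a := ψ + (ε : ℤ) • ψᴴ with ha
  set b := χ + (ε : ℤ) • χᴴ with hb
  have hsa : SuppIn X1 a := supp_sym hP.X1i ε hψ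
  have hsb : SuppIn X2 b := supp_sym hP.X2i ε hχ
  obtain ⟨hE, hcut, hblk⟩ := hEFA R G H X1 X2 X3 Yp Ym hP ε n a μ b hsa hμ hsb (herm ε ψ)
    (herm ε χ) N hnil
  have hcs : ∀ x ∈ dc H g, x⁻¹ ∈ dc H g := fun x hx => dc_inv H g hgg hx
  have hcs' : ∀ x ∈ (dc H g)ᶜ, x⁻¹ ∈ (dc H g)ᶜ := by
    intro x hx hc
    apply hx
    have := hcs _ hc
    simpa using this
  have ha0 : cutM (dc H g)ᶜ a = cutM (dc H g)ᶜ ψ + (ε : ℤ) • (cutM (dc H g)ᶜ ψ)ᴴ := by
    rw [ha, cutM_add, cutM_smul, cutM_star _ hcs']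
  have e1 : cutM (dc H g)ᶜ a ∈ EE H (nu ε a μ b) 1 false true := by
    have := hcut false true _ (bi_compl H g)
    rwa [blk_ft] at this
  have e2 : cutM (dc H g) a ∈ EE H (nu ε a μ b) 1 false true := by
    have := hcut false true _ (bi_dc H g)
    rwa [blk_ft] at this
  have e3 : μ ∈ EE H (nu ε a μ b) 1 true true := by
    have := hblk true true
    rwa [blk_tt] at this
  have e4 : b ∈ EE H (nu ε a μ b) 1 true false := by
    have h1 := hblk true false
    rw [blk_tf] at h1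
    have h2 := AddSubgroup.zsmul_mem _ h1 (ε : ℤ)
    rwa [smul_smul_self] at h2
  obtain ⟨hn0, -⟩ := hKNA (MonoidAlgebra R G) ε n n N _ hE hN _ _ _ _ e1 e2 e3 e4
  rwa [ha0] at hn0

end RMVAux

open RMVAux in
theorem specRMV (hEFA : RO.SpecEFA) (hKNA : RO.SpecKNA) (hELM : RO.SpecELM) : SpecRMV := by
  intro R G _ _ _ H X1 X2 X3 Yp Ym hP hblk ε n N hN ψ μ χ hψ hμ hχ hnil hfin
  have main : ∀ (m : ℕ) (ψ : Matrix (Fin n) (Fin n) (MonoidAlgebra R G)), SuppIn X1 ψ →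
      (nu ε (ψ + (ε : ℤ) • ψᴴ) μ (χ + (ε : ℤ) • χᴴ)) ^ N = 0 → ROTAux.fl H ψ = m →
      StablyHyperbolic ε (UF ψ μ χ) := by
    intro m
    induction m using Nat.strong_induction_on with
    | _ m ih =>
      intro ψ hψ hnil hm
      by_cases h1 : ∀ i j x, (ψ i j).coeff x ≠ 0 → ¬ Flip H x
      · exact hfin ψ hψ h1 hnil
      · push Not at h1
        obtain ⟨i, j, x, hx, hf⟩ := h1
        obtain ⟨h, hh, hgg, hxd⟩ := ROTAux.exists_flip hf
        have hxX : x ∈ X1 := hψ i j x hx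
        have hgX : x * h ∈ X1 := hP.X1r h hh x hxX
        obtain ⟨hS, hB⟩ := hblk (x * h) hgX hgg
        obtain ⟨-, h2⟩ := hELM R G H X1 X2 X3 Yp Ym hP ε n ψ μ χ hψ hμ hχ ⟨N, hnil⟩ (x * h) hgX
          hgg hS (fun r ψ' κ hψ' hκ hn => hB ε r ψ' κ hψ' hκ hn)
        apply h2
        exact ih _ (hm ▸ ROTAux.fl_cut_lt H ψ _ hx hf (fun hc => hc hxd)) _
          (ROTAux.supp_cut hψ) (index hEFA hKNA hP ε hN hψ hμ hχ hnil hgg) rfl
  exact main _ ψ hψ hnil rfl

end Pool.Agent.Lib.MPb6f35e.TT.ROK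

/-! ## Module ROK/SBK -/

/-!
# MP_8a3537_gt, folder ROK: module SBK (helper99), elementary facts on a flip
-/

set_option autoImplicit false

namespace Pool.Agent.Lib.MPb6f35e.TT.ROK

open Matrix Pool.Agent.Lib.MPb6f35e.TT.UV Pool.Agent.Lib.MPb6f35e.TT.AU Pool.Agent.Lib.MPb6f35e.TT.RO

namespace SBKAux

variable {G : Type} [Group G]

theorem conj1 {H : Subgroup G} {g l : G} (hg : g * g ∈ H) (hl : l ∈ Kg H g) :
    g * l * g⁻¹ ∈ Kg H g := by
  rw [mem_Kg] at hl ⊢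
  refine ⟨?_, ?_⟩
  · have h := H.mul_mem (H.mul_mem hg hl.2) (H.inv_mem hg)
    have e : g * g * (g⁻¹ * l * g) * (g * g)⁻¹ = g * l * g⁻¹ := by group
    rwa [e] at h
  · have e : g⁻¹ * (g * l * g⁻¹) * g = l := by group
    rw [e]
    exact hl.1

theorem conj2 {H : Subgroup G} {g l : G} (hg : g * g ∈ H) (hl : l ∈ Kg H g) :
    g⁻¹ * l * g ∈ Kg H g := by
  rw [mem_Kg] at hl ⊢
  refine ⟨hl.2, ?_⟩
  have h := H.mul_mem (H.mul_mem (H.inv_mem hg) hl.1) hg
  have e : (g * g)⁻¹ * l * (g * g) = g⁻¹ * (g⁻¹ * l * g) * g := by group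
  rwa [e] at h

theorem sq {H : Subgroup G} {g : G} (hg : g * g ∈ H) : g * g ∈ Kg H g := by
  rw [mem_Kg]
  refine ⟨hg, ?_⟩
  have e : g⁻¹ * (g * g) * g = g * g := by group
  rwa [e]

theorem inv_dc {H : Subgroup G} {g x : G} (hg : g * g ∈ H) (h : x⁻¹ ∈ dc H g) : x ∈ dc H g := by
  obtain ⟨a, ha, b, hb, e⟩ := h
  refine ⟨b⁻¹ * (g * g)⁻¹, H.mul_mem (H.inv_mem hb) (H.inv_mem hg), a⁻¹, H.inv_mem ha, ?_⟩
  have e2 : x = (a * g * b)⁻¹ := by rw [← e, inv_inv]
  rw [e2]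
  group

end SBKAux

open SBKAux in
/-- module SBK -/
theorem specSBK (hWDA : RO.SpecWDA) : SpecSBK := by
  intro G _ H X1 X2 X3 Yp Ym hP g hg hgg
  have hLH : ∀ l ∈ Kg H g, l ∈ H := fun l hl => ((mem_Kg H g l).1 hl).1
  have hX : ∀ x ∈ La (Kg H g) g, x ∈ X1 ∧ x ∈ dc H g := by
    rintro x ⟨l, hl, rfl⟩
    exact ⟨hP.X1l l (hLH l hl) g hg, l, hLH l hl, 1, H.one_mem, by rw [mul_one]⟩
  have hS : Sub1 H X1 X2 X3 Yp Ym {x | x ∈ X1 ∧ x ∉ dc H g} := by
    refine ⟨hP, fun x hx => hx.1, ⟨?_, ?_⟩, ?_⟩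
    · rintro h hh x ⟨hx, hn⟩
      refine ⟨hP.X1l h hh x hx, ?_⟩
      rintro ⟨a, ha, b, hb, e⟩
      refine hn ⟨h⁻¹ * a, H.mul_mem (H.inv_mem hh) ha, b, hb, ?_⟩
      have e2 : x = h⁻¹ * (h * x) := by group
      rw [e2, e]
      group
    · rintro h hh x ⟨hx, hn⟩
      refine ⟨hP.X1r h hh x hx, ?_⟩
      rintro ⟨a, ha, b, hb, e⟩
      refine hn ⟨a, ha, b * h⁻¹, H.mul_mem hb (H.inv_mem hh), ?_⟩
      have e2 : x = (x * h) * h⁻¹ := by group
      rw [e2, e]
      group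
    · rintro x ⟨hx, hn⟩
      exact ⟨hP.X1i x hx, fun h => hn (inv_dc hgg h)⟩
  refine ⟨fun l hl => ⟨conj1 hgg hl, conj2 hgg hl⟩, hX, ⟨?_, ?_, ?_⟩, hS, ?_⟩
  · rintro l hl x ⟨l', hl', rfl⟩
    refine ⟨⟨l * l', (Kg H g).mul_mem hl hl', by rw [mul_assoc]⟩,
      ⟨l' * (g * l * g⁻¹), (Kg H g).mul_mem hl' (conj1 hgg hl), by group⟩⟩
  · rintro x ⟨l, hl, rfl⟩
    refine ⟨(g⁻¹ * l⁻¹ * g) * (g * g)⁻¹, (Kg H g).mul_mem (conj2 hgg ((Kg H g).inv_mem hl))
      ((Kg H g).inv_mem (sq hgg)), by group⟩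
  · rintro x ⟨l, hl, rfl⟩ x' ⟨l', hl', rfl⟩
    have h := conj2 hgg ((Kg H g).mul_mem ((Kg H g).inv_mem hl) hl')
    have e : g⁻¹ * (l⁻¹ * l') * g = (l * g)⁻¹ * (l' * g) := by group
    rwa [e] at h
  · intro s y hy
    change YK (Kg H g) (La (Kg H g) g) (BX H X1 X2 X3 g) s y at hy
    induction hy with
    | @base s l hl =>
      cases s with
      | true =>
        have h := hP.Ypl l (hLH l hl) 1 hP.Yp1
        rw [mul_one] at h
        exact h
      | false =>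
        have h := hP.Yml l (hLH l hl) 1 hP.Ym1
        rw [mul_one] at h
        exact h
    | @sa x y hx _ ih => exact hP.X1Y x (hX x hx).1 y ih
    | @sb x y hx _ ih =>
      obtain ⟨k, hk⟩ := hx
      exact (hWDA G H X1 X2 X3 Yp Ym _ hS).2.2.2.1 k true false x y hk ih

end Pool.Agent.Lib.MPb6f35e.TT.ROK

/-! ## Module ROK/STX -/

/-!
# ROK, module STX (helper10): the blocks of the exchanged data
-/

namespace Pool.Agent.Lib.MPb6f35e.TT.ROK

open Matrix Pool.Agent.Lib.MPb6f35e.TT.UV Pool.Agent.Lib.MPb6f35e.TT.AU Pool.Agent.Lib.MPb6f35e.TT.RO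

theorem specSTX (hSBK : SpecSBK) (hBLK : SpecBLK) (hSYK : SpecSYK) (hBLG : SpecBLG) :
    SpecSTX := by
  intro R G V _ _ _ _ d hd x1 x2 hNx L g Xb Yp Ym hP hG hg1 hg2 f hf hff
  have hP' : PPK L Xb (La L g) ∅ Ym Yp := (hSYK G L (La L g) Xb ∅ Yp Ym).2.2.1 hP
  have hG' : Geo d L Xb (La L g) ∅ x2 x1 := (hSYK G L (La L g) Xb ∅ Yp Ym).2.2.2 V d x1 x2 hG
  obtain ⟨-, -, -, s4, -⟩ := hSBK G L Xb (La L g) ∅ Ym Yp hP'.toPingPong f hf hff
  refine ⟨s4, ?_⟩
  have hB := hBLK G L Xb (La L g) ∅ Ym Yp hP' f hf hff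
  obtain ⟨b1, b2, b3⟩ := hBLG G V d hd L Xb (La L g) ∅ Ym Yp x2 x1 hP'.toPingPong hG' f hf hff
  have hne : f • x2 ≠ x1 := by
    intro hfx
    have h1 : f • x1 = x2 := by rw [← hfx]; exact b2
    have h2 : g⁻¹ • x1 = x2 := by rw [inv_smul_eq_iff]; exact hg2.symm
    have h3 : g⁻¹ • x2 = x1 := by rw [inv_smul_eq_iff]; exact hg1.symm
    have hL : f * g⁻¹ ∈ L := by
      rw [hG.st]
      constructor
      · rw [mul_smul, h2, hfx]
      · rw [mul_smul, h3, h1]
    have hfa : f ∈ La L g := ⟨f * g⁻¹, hL, by rw [inv_mul_cancel_right]⟩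
    have h4 : f ∈ Ym := by
      have h := hP.X1Y f hfa 1 hP.Yp1
      rwa [mul_one] at h
    have h5 : f ∈ Yp := by
      have h := hP.X2Y f hf 1 hP.Ym1
      rwa [mul_one] at h
    exact hP.xh false true f hfa (hP.yy f h5 h4)
  exact hNx f (b3 hne) (Kg L f) f (BX L Xb (La L g) ∅ f) _ _ hB b1 rfl b2

end Pool.Agent.Lib.MPb6f35e.TT.ROK

/-! ## Module ROK/STY -/

/-!
# ROK, module STY (helper9): the Newton step
-/

namespace Pool.Agent.Lib.MPb6f35e.TT.ROK

open Matrix Pool.Agent.Lib.MPb6f35e.TT.UV Pool.Agent.Lib.MPb6f35e.TT.AU Pool.Agent.Lib.MPb6f35e.TT.RO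

namespace STYAux

variable {R G : Type} [Ring R] [StarRing R] [Group G]

theorem key {n : ℕ} (ε : ℤˣ) (ψ : Matrix (Fin n) (Fin n) (MonoidAlgebra R G)) (i j : Fin n) (x : G)
    (h : ((ψ + (ε : ℤ) • ψᴴ) i j).coeff x ≠ 0) :
    (ψ i j).coeff x ≠ 0 ∨ (ψ j i).coeff x⁻¹ ≠ 0 := by
  by_contra hc
  push Not at hc
  apply h
  rw [NWTAux.coeff_sym, hc.1, hc.2, star_zero, smul_zero, add_zero]

theorem supp_sym {X : Set G} (hi : ∀ x ∈ X, x⁻¹ ∈ X) (ε : ℤˣ) {n : ℕ}
    (ψ : Matrix (Fin n) (Fin n) (MonoidAlgebra R G)) (hψ : SuppIn X ψ) :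
    SuppIn X (ψ + (ε : ℤ) • ψᴴ) := by
  intro i j x h
  rcases key ε ψ i j x h with h2 | h2
  · exact hψ i j x h2
  · have h3 := hi _ (hψ j i x⁻¹ h2)
    rwa [inv_inv] at h3

theorem nf_sym {H : Subgroup G} (ε : ℤˣ) {n : ℕ}
    (ψ : Matrix (Fin n) (Fin n) (MonoidAlgebra R G))
    (hf : ∀ i j x, (ψ i j).coeff x ≠ 0 → ¬ Flip H x) :
    ∀ i j x, ((ψ + (ε : ℤ) • ψᴴ) i j).coeff x ≠ 0 → ¬ Flip H x := by
  intro i j x h
  rcases key ε ψ i j x h with h3 | h3
  · exact hf i j x h3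
  · exact fun h4 => hf j i x⁻¹ h3 (NWTAux.flip_inv h4)

omit [StarRing R] [Group G] in
theorem supp_cut {X : Set G} (c : Set G) {n : ℕ} (b : Matrix (Fin n) (Fin n) (MonoidAlgebra R G))
    (hb : SuppIn X b) : SuppIn {x | x ∈ c ∧ x ∈ X} (cutM c b) := by
  classical
  intro i j x h
  unfold cutM at h
  rw [Matrix.map_apply, cut_coeff] at h
  by_cases hx : x ∈ c
  · rw [if_pos hx] at h
    exact ⟨hx, hb i j x h⟩
  · rw [if_neg hx] at h
    exact absurd rfl h

omit [StarRing R] in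
theorem supp_sub {X : Set G} {n : ℕ} (a b : Matrix (Fin n) (Fin n) (MonoidAlgebra R G))
    (ha : SuppIn X a) (hb : SuppIn X b) : SuppIn X (a - b) := by
  intro i j x h
  by_contra hx
  apply h
  have h4 : (a i j).coeff x = 0 := by
    by_contra h5
    exact hx (ha i j x h5)
  have h6 : (b i j).coeff x = 0 := by
    by_contra h5
    exact hx (hb i j x h5)
  rw [Matrix.sub_apply, MonoidAlgebra.coeff_sub, Finsupp.sub_apply, h4, h6, sub_zero]

/-- the form `(ψ, 1; 0, 0)` -/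
theorem sh_zero {A : Type} [Ring A] [StarRing A] (ε : ℤˣ) {n : ℕ} (ψ : Matrix (Fin n) (Fin n) A) :
    StablyHyperbolic ε (UF ψ 0 0) := by
  refine (specSwp A ε n ψ 0 0).1 ?_
  unfold UF
  have h := RO.NWCM.base (ε := ε) (0 : Matrix (Fin n) (Fin n) A) ψ (by simp)
  simpa using h

/-- change of `χ` by `c - ε cᴴ` -/
theorem change' {A : Type} [Ring A] [StarRing A] (ε : ℤˣ) {n : ℕ} (ψ χ d : Matrix (Fin n) (Fin n) A)
    (h : StablyHyperbolic ε (UF ψ 0 χ)) : StablyHyperbolic ε (UF ψ 0 (χ + d - (ε : ℤ) • dᴴ)) := by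
  have h1 := (specSwp A ε n ψ 0 χ).2.1 0 d h
  simpa using h1

theorem eps_sq (ε : ℤˣ) : (ε : ℤ) * (ε : ℤ) = 1 := by
  rcases Int.units_eq_one_or ε with h | h <;> simp [h]

/-- `M = - ε Mᴴ` gives `M = c - ε cᴴ` -/
theorem tat' {X : Set G} (hi : ∀ x ∈ X, x⁻¹ ∈ X) (hn : ∀ x ∈ X, x⁻¹ ≠ x) (ε : ℤˣ) {n : ℕ}
    (M : Matrix (Fin n) (Fin n) (MonoidAlgebra R G)) (hM : SuppIn X M)
    (h0 : M + (ε : ℤ) • Mᴴ = 0) : ∃ c : Matrix (Fin n) (Fin n) (MonoidAlgebra R G),
    M = c - (ε : ℤ) • cᴴ := by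
  have h4 : M = ((-ε : ℤˣ) : ℤ) • Mᴴ := by
    rw [Units.val_neg, neg_smul]
    exact eq_neg_of_add_eq_zero_left h0
  obtain ⟨c0, -, hc0⟩ := specTat R G X (-ε) n M hi hn hM h4
  refine ⟨c0, ?_⟩
  rw [Units.val_neg, neg_smul, ← sub_eq_add_neg] at hc0
  exact hc0

end STYAux

end Pool.Agent.Lib.MPb6f35e.TT.ROK

/-! ## Module ROK/SYK -/

/-!
# Module SYK: the exchange of the two types
-/

namespace Pool.Agent.Lib.MPb6f35e.TT.ROK

open Matrix Pool.Agent.Lib.MPb6f35e.TT.UV Pool.Agent.Lib.MPb6f35e.TT.AU Pool.Agent.Lib.MPb6f35e.TT.RO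

namespace SYKAux

variable {G : Type} [Group G]

theorem xinv_xinv (X : Set G) : Xinv (Xinv X) = X := by
  ext x
  change x⁻¹⁻¹ ∈ X ↔ x ∈ X
  rw [inv_inv]

theorem xinv_empty : Xinv (∅ : Set G) = ∅ := by
  ext x
  exact ⟨fun h => h, fun h => h⟩

theorem XX_swap (X1 X2 X3 : Set G) (s t : Bool) :
    XX X2 X1 (Xinv X3) s t = XX X1 X2 X3 (!s) (!t) := by
  cases s <;> cases t
  · exact xinv_xinv X3
  · rfl
  · rfl
  · rfl

omit [Group G] in
theorem YB_swap (Yp Ym : Set G) (s : Bool) : YB Ym Yp s = YB Yp Ym (!s) := by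
  cases s <;> rfl

theorem DD_swap {V : Type} (d : V → V → ℕ) (x1 x2 : V) (s : Bool) :
    DD d x2 x1 s = DD d x1 x2 (!s) := by
  cases s <;> rfl

theorem ppk_swap {H : Subgroup G} {X1 X2 X3 Yp Ym : Set G} (P : PPK H X1 X2 X3 Yp Ym) :
    PPK H X2 X1 (Xinv X3) Ym Yp where
  toPingPong := INDAux.pp_swap P.toPingPong
  yy := fun y h1 h2 => P.yy y h2 h1
  xh := fun s t x hx => P.xh (!s) (!t) x (by rwa [XX_swap] at hx)
  cj := fun s t x h hx hh => by
    rw [XX_swap] at hx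
    rw [YB_swap]
    exact P.cj (!s) (!t) x h hx hh

theorem geo_swap {V : Type} [MulAction G V] {d : V → V → ℕ} {H : Subgroup G}
    {X1 X2 X3 : Set G} {x1 x2 : V} (P : Geo d H X1 X2 X3 x1 x2) :
    Geo d H X2 X1 (Xinv X3) x2 x1 where
  ne := P.ne.symm
  st := fun g => (P.st g).trans and_comm
  mv := fun s t x p hx hp => by
    rw [XX_swap] at hx
    rw [DD_swap] at hp ⊢
    exact P.mv (!s) (!t) x p hx hp

end SYKAux

open SYKAux in
/-- **Module SYK**: the exchange. -/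
theorem specSYK : SpecSYK := by
  intro G _ H X1 X2 X3 Yp Ym
  refine ⟨fun P => ppk_swap P, fun V _ d x1 x2 P => geo_swap P, fun P => ?_,
    fun V _ d x1 x2 P => ?_⟩
  · have h := ppk_swap P
    rwa [xinv_empty] at h
  · have h := geo_swap P
    rwa [xinv_empty] at h

end Pool.Agent.Lib.MPb6f35e.TT.ROK

/-! ## Module ROK/TFA -/

/-!
# ROK, module TFA: facts on tree metrics
-/

namespace Pool.Agent.Lib.MPb6f35e.TT.ROK

open Matrix Pool.Agent.Lib.MPb6f35e.TT.UV Pool.Agent.Lib.MPb6f35e.TT.AU Pool.Agent.Lib.MPb6f35e.TT.RO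

theorem specTFA : SpecTFA := by
  intro G V _ _ d hd
  refine ⟨?_, ?_, ?_⟩
  · intro g p q r h hp hr
    have h1 : d (g • q) p = d q p := by
      conv_lhs => rw [← hp]
      exact hd.iso g q p
    have h2 : d (g • q) r = d q r := by
      conv_lhs => rw [← hr]
      exact hd.iso g q r
    have h3 := hd.four q (g • q) p r
    rw [h1, h2, add_comm (d q r) (d q p), max_self, hd.cm q p, ← h] at h3
    have h4 : d q (g • q) = 0 := by omega
    exact ((hd.d0 _ _).1 h4).symm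
  · intro x1 x2 p p' hne h1 h2
    have h3 := hd.four x1 p x2 p'
    have h4 : d x1 x2 ≠ 0 := fun h => hne ((hd.d0 _ _).1 h)
    have h5 := hd.cm x2 x1
    have h6 := hd.cm p x2
    have h7 := hd.tri p x2 p'
    rcases le_max_iff.1 h3 with h8 | h8
    · omega
    · omega
  · intro x1 x2 y p h1 h2
    have h3 := hd.tri x1 x2 p
    have h4 := hd.tri x2 y p
    omega

end Pool.Agent.Lib.MPb6f35e.TT.ROK

/-! ## Module ROK/TRG -/

/-! Module TRG (helper50): the geometry of an edge. -/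

namespace Pool.Agent.Lib.MPb6f35e.TT.ROK

open Matrix Pool.Agent.Lib.MPb6f35e.TT.UV Pool.Agent.Lib.MPb6f35e.TT.AU Pool.Agent.Lib.MPb6f35e.TT.RO

namespace TRGAux

open Pool.Agent.Lib.MPb6f35e.TT.UV.TREAux

variable {G V : Type} [Group G] [MulAction G V] {T : SimpleGraph V} {v w : V}

theorem br_iff (hT : T.IsTree) {x y p : V} (h : T.Adj x y) :
    T.dist x p = T.dist x y + T.dist y p ↔ p ∈ Br T x y := by
  rw [mem_Br]
  have h1 : T.dist x y = 1 := SimpleGraph.dist_eq_one_iff_adj.mpr h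
  have h2 := hT.dist_eq_dist_add_one_of_adj p h
  rw [h1, T.dist_comm (u := x) (v := p), T.dist_comm (u := y) (v := p)]
  omega

theorem move1 (hT : T.IsTree) (hG : ∀ (g : G) (x y : V), T.Adj x y → T.Adj (g • x) (g • y))
    (ha : T.Adj v w) {x : G} {p : V} (h1 : x • v = v) (h2 : x • w ≠ w) (hp : p ∈ Br T v w) :
    x • p ∈ Br T w v := by
  have hau : T.Adj v (x • w) := by
    have := hG x v w ha
    rwa [h1] at this
  have := smul_Br hT hG x hp
  rw [h1] at this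
  exact br_sub hT ha hau h2 this

theorem move3 (hT : T.IsTree) (hG : ∀ (g : G) (x y : V), T.Adj x y → T.Adj (g • x) (g • y))
    (ha : T.Adj v w) {x : G} {p : V} (h1 : x • v = w) (h2 : x • w ≠ v) (hp : p ∈ Br T v w) :
    x • p ∈ Br T v w := by
  have hau : T.Adj w (x • w) := by
    have := hG x v w ha
    rwa [h1] at this
  have := smul_Br hT hG x hp
  rw [h1] at this
  exact br_sub hT ha.symm hau h2 this

end TRGAux

open TRGAux Pool.Agent.Lib.MPb6f35e.TT.UV.TREAux in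
theorem specTRG : SpecTRG := by
  intro G V _ _ T v w hT hG ha hinv
  have ht : ∀ p, p ∈ DD T.dist w v true ↔ p ∈ Br T v w := fun p => br_iff hT ha
  have hf : ∀ p, p ∈ DD T.dist w v false ↔ p ∈ Br T w v := fun p => br_iff hT ha.symm
  refine ⟨ha.symm.ne, ?_, ?_⟩
  · intro g
    rw [Subgroup.mem_inf, MulAction.mem_stabilizer_iff, MulAction.mem_stabilizer_iff]
    exact and_comm
  · intro s t x p hx hp
    cases s <;> cases t
    · -- false false
      have hx' : x • w = v := by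
        have h : x⁻¹ • v = w := hx
        rw [inv_smul_eq_iff] at h
        exact h.symm
      rw [hf] at hp ⊢
      exact move3 hT hG ha.symm hx' (fun e => hinv x ⟨e, hx'⟩) hp
    · -- false true
      have hx' : x • v = v ∧ x • w ≠ w := hx
      rw [ht] at hp
      rw [hf]
      exact move1 hT hG ha hx'.1 hx'.2 hp
    · -- true false
      have hx' : x • w = w ∧ x • v ≠ v := hx
      rw [hf] at hp
      rw [ht]
      exact move1 hT hG ha.symm hx'.1 hx'.2 hp
    · -- true true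
      have hx' : x • v = w := hx
      rw [ht] at hp ⊢
      exact move3 hT hG ha hx' (fun e => hinv x ⟨hx', e⟩) hp

end Pool.Agent.Lib.MPb6f35e.TT.ROK

/-! ## Module ROK/TRK -/

/-! Module TRK (helper86): the data of an edge. -/

namespace Pool.Agent.Lib.MPb6f35e.TT.ROK

open Matrix Pool.Agent.Lib.MPb6f35e.TT.UV Pool.Agent.Lib.MPb6f35e.TT.AU Pool.Agent.Lib.MPb6f35e.TT.RO

namespace TRKAux

open Pool.Agent.Lib.MPb6f35e.TT.UV.TREAux

variable {G V : Type} [Group G] [MulAction G V] {T : SimpleGraph V} {v w : V}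

theorem br_anti {x y u : V} (h : u ∈ Br T x y) : u ∉ Br T y x := by
  rw [mem_Br] at h ⊢
  omega

theorem yy {y : G} (h1 : y ∈ YY G T v w) (h2 : y ∈ YY G T w v) :
    y ∈ MulAction.stabilizer G v ⊓ MulAction.stabilizer G w := by
  rw [Subgroup.mem_inf, MulAction.mem_stabilizer_iff, MulAction.mem_stabilizer_iff]
  refine ⟨?_, ?_⟩
  · rcases h1.2 with h | h
    · exact absurd h (br_anti h2.1)
    · exact h
  · rcases h2.2 with h | h
    · exact absurd h (br_anti h1.1)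
    · exact h

theorem conj_fix {x h : G} {a b : V} (hx : x • a = b) (hh : h • a = a) :
    (x * h * x⁻¹) • b = b := by
  rw [← hx, smul_smul, inv_mul_cancel_right, mul_smul, hh]

theorem cj1 (hT : T.IsTree) (hG : ∀ (g : G) (x y : V), T.Adj x y → T.Adj (g • x) (g • y))
    (ha : T.Adj v w) {y : G} (hy : y • v = v) :
    y ∈ MulAction.stabilizer G v ⊓ MulAction.stabilizer G w ∨
      ∀ t ∈ YY G T v w, y * t ∉ YY G T v w := by
  by_cases h : y • w = w
  · left
    rw [Subgroup.mem_inf, MulAction.mem_stabilizer_iff, MulAction.mem_stabilizer_iff]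
    exact ⟨hy, h⟩
  · right
    intro t ht
    exact TRXM.nn hT hG ha ⟨hy, h⟩ ht

end TRKAux

open Pool.Agent.Lib.MPb6f35e.TT.UV.TREAux TRKAux in
theorem specTRK : SpecTRK := by
  intro G V _ _ T v w hT hG ha hinv
  refine ⟨YY G T v w, YY G T w v, ?_⟩
  have hP := TRXM.pingpong hT hG ha hinv
  have hne : v ≠ w := ha.ne
  refine { toPingPong := hP, yy := ?_, xh := ?_, cj := ?_ }
  · intro y h1 h2
    exact yy h1 h2
  · intro s t x hx hH
    rw [Subgroup.mem_inf, MulAction.mem_stabilizer_iff, MulAction.mem_stabilizer_iff] at hH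
    cases s <;> cases t
    · -- `Xinv X3`
      have h1 : x⁻¹ • v = w := hx
      rw [inv_smul_eq_iff, hH.2] at h1
      exact hne h1
    · exact hx.2 hH.2
    · exact hx.2 hH.1
    · have h1 : x • v = w := hx
      rw [hH.1] at h1
      exact hne h1
  · intro s t x h hx hh
    rw [Subgroup.mem_inf, MulAction.mem_stabilizer_iff, MulAction.mem_stabilizer_iff] at hh
    cases s
    · -- `x h x⁻¹` fixes `v`
      have key : (x * h * x⁻¹) • v = v := by
        cases t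
        · have h1 : x⁻¹ • v = w := hx
          have h2 : x • w = v := by rw [← h1, smul_inv_smul]
          exact conj_fix h2 hh.2
        · exact conj_fix hx.1 hh.1
      exact cj1 hT hG ha key
    · have key : (x * h * x⁻¹) • w = w := by
        cases t
        · exact conj_fix hx.1 hh.2
        · exact conj_fix (show x • v = w from hx) hh.1
      have := cj1 hT hG ha.symm key
      rwa [inf_comm] at this

end Pool.Agent.Lib.MPb6f35e.TT.ROK

/-! ## Module ROK/WDK -/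

/-!
# WDK: words (helper30)
-/

namespace Pool.Agent.Lib.MPb6f35e.TT.ROK

open Matrix Pool.Agent.Lib.MPb6f35e.TT.UV Pool.Agent.Lib.MPb6f35e.TT.AU Pool.Agent.Lib.MPb6f35e.TT.RO

namespace WDKAux

variable {G : Type} [Group G] {H : Subgroup G} {X1 X2 X3 Yp Ym X1' : Set G}

theorem self (P : PPK H X1 X2 X3 Yp Ym) : Sub1 H X1 X2 X3 Yp Ym X1 where
  pp := P.toPingPong
  sub := subset_rfl
  bi := ⟨P.X1l, P.X1r⟩
  inv := P.X1i

theorem subX (S : Sub1 H X1 X2 X3 Yp Ym X1') :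
    ∀ s r, XX X1' X2 X3 s r ⊆ XX X1 X2 X3 s r := by
  intro s r
  cases s <;> cases r
  · exact subset_rfl
  · exact S.sub
  · exact subset_rfl
  · exact subset_rfl

theorem invX (P : PPK H X1 X2 X3 Yp Ym) :
    ∀ s r x, x ∈ XX X1 X2 X3 s r → x⁻¹ ∈ XX X1 X2 X3 (!r) (!s) := by
  intro s r x hx
  cases s <;> cases r
  · exact hx
  · exact P.X1i x hx
  · exact P.X2i x hx
  · change x⁻¹⁻¹ ∈ X3
    rw [inv_inv]
    exact hx

theorem zero (U : RO.SpecUNQ) (P : PPK H X1 X2 X3 Yp Ym) (s r : Bool) (x y : G)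
    (hx : x ∈ XX X1 X2 X3 s r) (hy : y ∈ YB Yp Ym r) : x * y ∉ H := by
  intro hh
  obtain ⟨u1, _, u3, u4⟩ := U G H X1 X2 X3 Yp Ym P.toPingPong
  have h1 : x⁻¹ * (x * y) ∈ XX X1 X2 X3 (!r) (!s) := (u3 _ _).2 _ hh _ (invX P s r x hx)
  have h2 := u1 _ _ _ _ h1 (u4 (!s)).1
  have h3 : x⁻¹ * (x * y) * 1 = y := by group
  rw [h3] at h2
  have h4 : y ∈ H := by
    cases r
    · exact P.yy y h2 hy
    · exact P.yy y hy h2
  refine P.xh s r x hx ?_
  have h5 := H.mul_mem hh (H.inv_mem h4)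
  rwa [mul_inv_cancel_right] at h5

theorem two (U : RO.SpecUNQ) (P : PPK H X1 X2 X3 Yp Ym) (S : Sub1 H X1 X2 X3 Yp Ym X1')
    {k : ℕ} {s t : Bool} {z : G} (hz : Wd H X1' X2 X3 k s t z) :
    ∀ h ∈ H, z * h * z⁻¹ ∈ H ∨ ∀ y ∈ YB Yp Ym (!s), z * h * z⁻¹ * y ∉ YB Yp Ym (!s) := by
  obtain ⟨u1, _, _, _⟩ := U G H X1 X2 X3 Yp Ym P.toPingPong
  induction hz with
  | base hz =>
    intro h hh
    exact Or.inl (H.mul_mem (H.mul_mem hz hh) (H.inv_mem hz))
  | @cons k s r t x z hx _ ih =>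
    intro h hh
    have hx' := subX S _ _ hx
    have e : x * z * h * (x * z)⁻¹ = x * (z * h * z⁻¹) * x⁻¹ := by group
    rcases ih h hh with h1 | h1
    · rcases P.cj s r x _ hx' h1 with h2 | h2
      · left
        rw [e]
        exact h2
      · right
        intro y hy
        rw [e]
        exact h2 y hy
    · right
      intro y hy hc
      have hi := invX P s r x hx'
      refine h1 (x⁻¹ * y) (u1 _ _ _ _ hi hy) ?_
      have h3 := u1 _ _ _ _ hi hc
      have e2 : x⁻¹ * (x * z * h * (x * z)⁻¹ * y) = z * h * z⁻¹ * (x⁻¹ * y) := by group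
      rwa [e2] at h3

end WDKAux

theorem specWDK (hUNQ : RO.SpecUNQ) (hWDA : RO.SpecWDA) : SpecWDK := by
  intro G _ H X1 X2 X3 Yp Ym P
  refine ⟨fun s r x y hx hy => WDKAux.zero hUNQ P s r x y hx hy, fun X1' S => ⟨?_, ?_⟩⟩
  · intro k s t z y hz hy
    cases hz with
    | @cons k s r t x z hx hz =>
      rw [mul_assoc]
      exact WDKAux.zero hUNQ P s r x _ (WDKAux.subX S _ _ hx)
        ((hWDA G H X1 X2 X3 Yp Ym X1' S).2.2.2.1 _ _ _ _ _ hz hy)
  · intro k s t z h hz hh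
    exact WDKAux.two hUNQ P S hz h hh

end Pool.Agent.Lib.MPb6f35e.TT.ROK

/-! ## Module ROK/Main -/

/-! The theorem of the folder ROK, without hypotheses. -/

namespace Pool.Agent.Lib.MPb6f35e.TT.ROK

open Pool.Agent.Lib.MPb6f35e.TT.RO

theorem mWDA : RO.SpecWDA := RO.specWDA RO.specUNQ

theorem mEFA : RO.SpecEFA := RO.specEFA (RO.specJNT RO.specUNQ)

theorem mWDK : SpecWDK := specWDK RO.specUNQ mWDA

theorem mSBK : SpecSBK := specSBK mWDA

theorem mCLC : SpecCLC := specCLC RO.specUNQ mWDA mWDK mSBK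

theorem mBLK : SpecBLK := specBLK mWDA mWDK mSBK mCLC

theorem mBLG : SpecBLG := specBLG specTFA mSBK

theorem mDRA : SpecDRA := specDRA mWDK

theorem mDRC : SpecDRC := specDRC RO.specUNQ mWDA mWDK mDRA (specDRB mDRA)

end Pool.Agent.Lib.MPb6f35e.TT.ROK
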