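import Pool.Agent.Lib.MP_b6f35e_al.TT.L1

/-! # Modules for Theorem DT (MP_b6f35e_al, Q2): lines, part 2 (copies of modules of MP_8a3537_gt, without the
conditions on elements of order two) -/

/-! ## Module LL2/Spec -/

/-!
# Short chains (MP_8a3537_gt, folder LL2): definitions and Specs (helper28)

In the folders LL and LLX an unstable flip `x` of a pair `x1`, `x2` is handled by the whole theorem for the longer pair
`x1`, `x x1` (`HU`, `SE`). Here only the two pieces `x`, `y'`, `y' ∈ D2 L y`, of the longer pair are used, with the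
same nilpotency index. Consequence: the chain condition is only needed for chains of exchanged pairs with stabilizers
`K i` and exchanging elements `u i` such that `u (i + 2) ∈ K i * u i`.

Every module `XXX` is a file `Pool/Agent/Lib/MP_8a3537_gt/LL2/XXX.lean` which imports this file and proves
`theorem specXXX (deps, in this order) : SpecXXX` in the namespace `Pool.Agent.Lib.MPb6f35e.TT.LL2`, own lemmas in
the namespace `XXXM`. All landed lemmas of the folders UV, AU, RO, ROK, ROW, LL, LLX may be used, in particular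
`mWDA`, `mWNI`, `mEFA`, `mNWT`, `mWDK`, `mSBK`, `mBLK`, `mBLG`, `mSTY`, `mMNK` of `ROK/Main.lean`, `LL.mDWP`, `LL.specDWG`,
`LL.mDCM`, `LL.specSGN LL.mDWP LL.specDWG`, `LL.SGSM.lines`, `LL.SGSM.swap0`, `LL.SGSM.swapUF`, `LL.SGSM.Cl_swap`, `LL.SGSM.D2_flip`,
`LL.SGSM.D2_nonflip`, `LL.SGSM.dc_La`, `LL.DCMM.pt_D2`, `LL.DCMM.self_mem`, `LL.CHNM.lt_of`, `LLX.hln`. IMPORTANT: a script
replaces `StablyHyperbolic` by `AR.SHp` in all these folders; so use only facts on `StablyHyperbolic` which are stated as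
theorems (never unfold it).
-/

set_option autoImplicit false

namespace Pool.Agent.Lib.MPb6f35e.TT.LL2

open Matrix Pool.Agent.Lib.MPb6f35e.TT.UV Pool.Agent.Lib.MPb6f35e.TT.AU Pool.Agent.Lib.MPb6f35e.TT.RO
open Pool.Agent.Lib.MPb6f35e.TT.ROK Pool.Agent.Lib.MPb6f35e.TT.LL

/-! ### Definitions -/

section Groups

variable {G : Type} [Group G]

/-- No element of the double coset of `x` has order `2`. -/
def NI (K : Subgroup G) (x : G) : Prop := ∀ z ∈ dc K x, z * z ≠ 1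

end Groups

/-- The matrix `Ξ` (entries in `R[L]`) cancels on the right of matrices with entries in a set `W` which meets the
right cosets of `K` in `L` at most once: `w t = w' t'` implies `K t = K t'`. -/
def Cnc {R G : Type} [Ring R] [Group G] (L K : Subgroup G) {r n : ℕ}
    (Ξ : Matrix (Fin r) (Fin n) (MonoidAlgebra R G)) : Prop :=
  ∀ W : Set G, (∀ w ∈ W, ∀ w' ∈ W, ∀ t ∈ L, ∀ t' ∈ L, w * t = w' * t' → t' * t⁻¹ ∈ K) →
    ∀ (m : Type) (Y : Matrix m (Fin r) (MonoidAlgebra R G)), SuppIn W Y → Y * Ξ = 0 → Y = 0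

section Geometry

variable (R G : Type) {V : Type} [Ring R] [StarRing R] [Group G] [MulAction G V] (d : V → V → ℕ)

/-- The claim for the index `N` and the two pieces `D2 L x`, `D2 L y` of the pair `x1`, `x2`. -/
def SP (N : ℕ) (x1 x2 : V) (x y : G) : Prop :=
  ∀ (L : Subgroup G) (X1 X2 Yp Ym : Set G), PPK L X1 X2 ∅ Yp Ym → Geo d L X1 X2 ∅ x1 x2 →
    x ∈ X1 → y ∈ X2 → ∀ (ε : ℤˣ) (n : ℕ) (ψ χ : Matrix (Fin n) (Fin n) (MonoidAlgebra R G)),
    SuppIn (D2 L x) ψ → SuppIn (D2 L y) χ →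
    (nu ε (ψ + (ε : ℤ) • ψᴴ) 0 (χ + (ε : ℤ) • χᴴ)) ^ N = 0 → StablyHyperbolic ε (UF ψ 0 χ)

/-- Good pairs of flips `x`, `y` of the pair `x1`, `x2`. -/
inductive GP (Q : Subgroup G → Prop) : V → V → G → G → Prop
  | reg {x1 x2 : V} {x y : G} : Q (MulAction.stabilizer G x1 ⊓ MulAction.stabilizer G x2) →
      GP Q x1 x2 x y
  | line {x1 x2 : V} {x y : G} :
      Ns (MulAction.stabilizer G x1 ⊓ MulAction.stabilizer G x2) x →
      Ns (MulAction.stabilizer G x1 ⊓ MulAction.stabilizer G x2) y → HS R G d x1 x2 →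
      GP Q x1 x2 x y
  | stx {x1 x2 : V} {x y : G} :
      (∀ y' ∈ dc (MulAction.stabilizer G x1 ⊓ MulAction.stabilizer G x2) y,
        y' * y' ∈ MulAction.stabilizer G x1 ⊓ MulAction.stabilizer G (x • x1) →
        GP Q x1 (x • x1) x y') → GP Q x1 x2 x y
  | sty {x1 x2 : V} {x y : G} :
      (∀ x' ∈ dc (MulAction.stabilizer G x1 ⊓ MulAction.stabilizer G x2) x,
        x' * x' ∈ MulAction.stabilizer G (y • x2) ⊓ MulAction.stabilizer G x2 →
        GP Q (y • x2) x2 x' y) → GP Q x1 x2 x y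

/-- The pairs of the class `P` can be made longer on both sides. -/
structure Lng (P : V → V → Prop) : Prop where
  r : ∀ (x1 x2 : V) (x : G), P x1 x2 → x • x • x1 = x1 →
    d x1 (x • x1) = d x1 x2 + d x2 (x • x1) → P x1 (x • x1)
  l : ∀ (x1 x2 : V) (y : G), P x1 x2 → y • y • x2 = x2 →
    d x2 (y • x2) = d x2 x1 + d x1 (y • x2) → P (y • x2) x2

end Geometry

/-! ### Part 1: forms -/

/-- **FAT** (size 220; see `RO/FAC.lean`): factorization of `ψ` through `K' g`, `K' = Kg L g`.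

PROOF. `g` normalizes `K'`: `k ∈ K'`: `g k g⁻¹ = (g g) (g⁻¹ k g) (g g)⁻¹ ∈ L`, `g⁻¹ (g k g⁻¹) g = k ∈ L`; the same for `g⁻¹`
(`g⁻¹ = (g g)⁻¹ g`). Let `ρ a` be a representative of the right coset `K' a` (`Quotient.out` for `QuotientGroup.rightRel K'`, or
choice): `ρ a * a⁻¹ ∈ K'`, `ρ a = ρ b` if `b a⁻¹ ∈ K'`. For `x = h g h'`, `h, h' ∈ L`, put `s = ρ h⁻¹`, `t = ρ h'` (in `L`): `h = s⁻¹ k1`,
`h' = k2 t`, so `x = s⁻¹ (k1 (g k2 g⁻¹)) g t ∈ s⁻¹ K' g t`. Let `T : Finset G` be the set of the `s`, `t` for all `x` in the supports of the entries of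
`ψ` (finitely many): `T ⊆ L`, and `s, s' ∈ T`, `s' s⁻¹ ∈ K'` implies `s = s'`. Index set `Fin n × T ≃ Fin r`. `Ξ ((i, s), j) = single s 1` if
`i = j`, else `0`. The set of the matrices `Ξᴴ ψ' Ξ` with `SuppIn (La K' g) ψ'` is closed under sums and contains the matrix with the only
entry `single x c` at `(i, j)` for `x = s⁻¹ k g t` (take `ψ'` with the only entry `single (k g) c` at `((i, s), (j, t))`); so it contains
`ψ`. `Cnc`: `(Y Ξ)_{a j} = ∑_{s ∈ T} Y_{a (j, s)} * single s 1`; if `Y_{a (j, s0)}` is not `0` at `w`, then look at `x = w s0`: if `Y_{a (j, s)}` is not `0` at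
`x s⁻¹` then `(x s⁻¹) s = w s0`, both in `W`, so `s0 s⁻¹ ∈ K'`, `s = s0`. So the coefficient of `(Y Ξ)_{a j}` at `x` is that of `Y_{a (j, s0)}` at `w`. -/
def SpecFAT : Prop :=
  ∀ (R G : Type) [Ring R] [StarRing R] [Group G] (L : Subgroup G) (g : G), g * g ∈ L →
    ∀ (n : ℕ) (ψ : Matrix (Fin n) (Fin n) (MonoidAlgebra R G)), SuppIn (dc L g) ψ →
    ∃ (r : ℕ) (Ξ : Matrix (Fin r) (Fin n) (MonoidAlgebra R G))
      (ψ' : Matrix (Fin r) (Fin r) (MonoidAlgebra R G)), SuppIn (L : Set G) Ξ ∧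
      SuppIn (La (Kg L g) g) ψ' ∧ ψ = Ξᴴ * ψ' * Ξ ∧ Cnc L (Kg L g) Ξ

/-- **UWD** (size 60): uniqueness for words of the same length.

PROOF. Induction on `k`. `k = 0`: both in `H`. `k + 1`: `z = x z1`, `z' = x' z1'`; `z1 y`, `z1' y'` are in `YB` (`mWDA` (4) with `X1' = X1`;
`Sub1 H X1 X2 X3 Yp Ym X1`); `RO.specUNQ` (2): the same type, `h = x⁻¹ x' ∈ H`; `z1 y = (h z1') y'`, `h z1'` is a word of length `k` (`mWDA` (1));
induction: `z1⁻¹ (h z1') ∈ H`, which is `z⁻¹ z'`. -/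
def SpecUWD : Prop :=
  ∀ (G : Type) [Group G] (H : Subgroup G) (X1 X2 X3 Yp Ym : Set G), PingPong H X1 X2 X3 Yp Ym →
    ∀ (k : ℕ) (s t : Bool) (z z' y y' : G), Wd H X1 X2 X3 k s t z → Wd H X1 X2 X3 k s t z' →
    y ∈ YB Yp Ym t → y' ∈ YB Yp Ym t → z * y = z' * y' → z⁻¹ * z' ∈ H

/-- **IDX** (size 250, dep `SpecUWD`; see `UV/NIL.lean`): the index is preserved.

PROOF. `α = ψ' + ε ψ'ᴴ`, `b = χ + ε χᴴ`, `a = Ξᴴ α Ξ`, `θ = Ξ b Ξᴴ` (these are the polarizations of `Ξᴴ ψ' Ξ`, `Ξ χ Ξᴴ`), `ν = nu ε a 0 b`,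
`ν' = nu ε α 0 θ`. `τ = fromBlocks 0 (ε b) (Ξᴴ α) 0` (rows `n ⊕ n`, columns `r ⊕ n`), `P = fromBlocks Ξ 0 0 1` (rows `r ⊕ n`, columns `n ⊕ n`),
`Q = fromBlocks 1 0 0 Ξᴴ` (rows `r ⊕ n`, columns `r ⊕ r`), `M = P τ = fromBlocks 0 (ε Ξ b) (Ξᴴ α) 0`. `ν = τ P`, `Q ν' = M Q`, so `P ν^N = M^N P`,
`Q ν'^N = M^N Q`. Supports: the block `(s, t)` of `M^k` is supported in `{z | Wd L X1 X2 ∅ k s t z}` (`Ξ b`: `L X2 ⊆ X2`; `Ξᴴ α`: `La K' g ⊆ X1` and it is closed
under inverses (`mSBK` (2), (3)), `L X1 ⊆ X1`); the same for `ν'^k`. Let `WE k s = {z | ∃ u, Wd L X1 X2 ∅ k s false u ∧ ∃ e ∈ La K' g, z = u * e}`.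
CLAIM: `WE k s` satisfies the hypothesis in `Cnc`: `u e t = u' e' t'`, `t, t' ∈ L`: `e t`, `e' t' ∈ Ym` (`X1Y`, `Yp1`, `Ypl`), UWD: `h = u⁻¹ u' ∈ L`,
`e t = h e' t'`, `e = k g`, `e' = k' g`, so `g (t t'⁻¹) g⁻¹ = k⁻¹ h k' ∈ L`; `g⁻¹ (t t'⁻¹) g = (g g)⁻¹ (g (t t'⁻¹) g⁻¹) (g g) ∈ L`, so `t t'⁻¹ ∈ K'`. The column
`inl` of `M^N = M^(N-1) M` is `(M^(N-1))_(s,inr) Ξᴴ α`, supported in `WE (N-1) s` (`u l` is a word for `l ∈ L`), `M^N P = 0`: cancel `Ξ` in the column
`inl`: `M^N = 0`. (HINT for the supports: `ty : α ⊕ β → Bool`, `ty (inl _) = true`, `ty (inr _) = false`, and the predicate `∀ i j z, (M^k i j).coeff z ≠ 0 →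
Wd L X1 X2 ∅ k (ty i) (ty j) z`.) So `Q ν'^N = 0`: the rows `inl` of `ν'^N` are `0`, and `Ξᴴ (rows inr) = 0`; the rows `inr` of `ν'^N = ν' ν'^(N-1)` are
`α (ν'^(N-1))_(inl, t)`, so the star of them is supported in `{u⁻¹ e⁻¹}`, contained in `WE (N-1) (!t)` (`mWDA` (3)), and (star) `(rows)ᴴ Ξ = 0`: cancel. -/
def SpecIDX : Prop :=
  ∀ (R G : Type) [Ring R] [StarRing R] [Group G] (L : Subgroup G) (X1 X2 Yp Ym : Set G),
    PingPong L X1 X2 ∅ Yp Ym → ∀ g ∈ X1, g * g ∈ L → ∀ (ε : ℤˣ) (n r N : ℕ), 1 ≤ N →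
    ∀ (Ξ : Matrix (Fin r) (Fin n) (MonoidAlgebra R G))
      (ψ' : Matrix (Fin r) (Fin r) (MonoidAlgebra R G))
      (χ : Matrix (Fin n) (Fin n) (MonoidAlgebra R G)), SuppIn (L : Set G) Ξ →
    Cnc L (Kg L g) Ξ → SuppIn (La (Kg L g) g) ψ' → SuppIn X2 χ →
    (nu ε (Ξᴴ * ψ' * Ξ + (ε : ℤ) • (Ξᴴ * ψ' * Ξ)ᴴ) 0 (χ + (ε : ℤ) • χᴴ)) ^ N = 0 →
    (nu ε (ψ' + (ε : ℤ) • ψ'ᴴ) 0 (Ξ * χ * Ξᴴ + (ε : ℤ) • (Ξ * χ * Ξᴴ)ᴴ)) ^ N = 0

/-- **SGV** (size 80, deps `SpecFAT`, `SpecIDX`; imports `UV/EMV`): a flip `g`, forms.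

PROOF. FAT: `ψ = Ξᴴ ψ' Ξ`; `κ = Ξ χ Ξᴴ` is supported in `c` (`L c L ⊆ c`). IDX. `specEMV` (or its name in `UV/EMV.lean`) with `m' = 0`, `p = Ξ`:
`UF ψ' (Ξ * 0) (Ξ * χ * Ξᴴ)` stably hyperbolic implies `UF (Ξᴴ * ψ' * Ξ) (0 * Ξ) χ` stably hyperbolic. -/
def SpecSGV : Prop :=
  ∀ (R G : Type) [Ring R] [StarRing R] [Group G] (L : Subgroup G) (X1 X2 Yp Ym : Set G),
    PingPong L X1 X2 ∅ Yp Ym → ∀ g ∈ X1, g * g ∈ L → ∀ c : Set G, Pt L X2 c →
    ∀ (ε : ℤˣ) (n N : ℕ), 1 ≤ N → ∀ ψ χ : Matrix (Fin n) (Fin n) (MonoidAlgebra R G),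
    SuppIn (dc L g) ψ → SuppIn c χ →
    (nu ε (ψ + (ε : ℤ) • ψᴴ) 0 (χ + (ε : ℤ) • χᴴ)) ^ N = 0 →
    (∀ (r : ℕ) (ψ' κ : Matrix (Fin r) (Fin r) (MonoidAlgebra R G)),
      SuppIn (La (Kg L g) g) ψ' → SuppIn c κ →
      (nu ε (ψ' + (ε : ℤ) • ψ'ᴴ) 0 (κ + (ε : ℤ) • κᴴ)) ^ N = 0 →
      StablyHyperbolic ε (UF ψ' 0 κ)) → StablyHyperbolic ε (UF ψ 0 χ)

/-! ### Part 2: pieces -/

/-- **STP** (size 180, dep `SpecSGV`): the step from the pair `x1`, `x2` to the pair `x1`, `x x1`.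

PROOF. `D2 L x = dc L x` (`x x ∈ L`; `SGSM.D2_flip` with `h = 1`, or `ELMAux.dc_inv`). SGV with `c = D2 L y` (`Pt L X2 c`: `DCMM.pt_D2` for the
exchanged data, `specSYK`). `K' = Kg L x`. `mBLK`, `mBLG`: `PPK K' (La K' x) (BX L X1 X2 ∅ x) ∅ ..`, `Geo d K' (La K' x) (BX ..) ∅ x1 (x • x1)`. `c ⊆ X2 ⊆ BX ..`
(`mWDA` (5): words with one letter; `Sub1`: `mSBK` (4)). `Pt K' (BX ..) c` (`K' ≤ L`), `Pt K' (La K' x) (La K' x)` (`mSBK` (3)). `mDWP`, `specDWG` (second
parts): data `K'`, `La K' x`, `c`, ends `x1`, `x • x1`. `mDCM` for these data (index `N`): pieces `x' ∈ La K' x`, `y' ∈ c`: `D2 K' x' ⊆ D2 K' x`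
(`SGSM.dc_trans`), so `SP R G d N x1 (x • x1) x y'` applies (`x ∈ La K' x`). -/
def SpecSTP : Prop :=
  ∀ (R G V : Type) [Ring R] [StarRing R] [Group G] [MulAction G V] (d : V → V → ℕ), TM G d →
    ∀ (N : ℕ) (x1 x2 : V), 1 ≤ N →
    ∀ (L : Subgroup G) (X1 X2 Yp Ym : Set G), PPK L X1 X2 ∅ Yp Ym → Geo d L X1 X2 ∅ x1 x2 →
    ∀ x ∈ X1, x * x ∈ L → ∀ y ∈ X2, (3 ≤ N → Cl R G d (N - 1) x1 (x • x1)) →
    (∀ y' ∈ D2 L y, SP R G d N x1 (x • x1) x y') →
    ∀ (ε : ℤˣ) (n : ℕ) (ψ χ : Matrix (Fin n) (Fin n) (MonoidAlgebra R G)),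
      SuppIn (D2 L x) ψ → SuppIn (D2 L y) χ →
      (nu ε (ψ + (ε : ℤ) • ψᴴ) 0 (χ + (ε : ℤ) • χᴴ)) ^ N = 0 → StablyHyperbolic ε (UF ψ 0 χ)

/-- **SPB** (size 150, dep `SpecSTP`): a flip `x` and a non-flip `y`; and the exchange.

PROOF. Part 1: `specSYK` (3), (4), `SGSM.swapUF`, `SGSM.swap0` (as `SGSM.Cl_swap`). Part 2: data `L` with the ends `x1`, `x2`:
`L = stabilizer x1 ⊓ stabilizer x2` (`st`). STP; let `y' ∈ D2 L y`, and take data `L'`, `X1'`, .. with the ends `x1`, `x • x1`: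
`L' = stabilizer x1 ⊓ stabilizer (x • x1)`, which is `Kg L x` by `mBLG` (`st`), so `L' ≤ L`. `x x ∈ L'` (`x x` fixes `x1` and so
`x • x1`), `Ns L' x` (`x` exchanges `x1` and `x • x1`). `Flip L' y'` would imply `Flip L y'`, contradiction to `SGSM.D2_nonflip`. So
`LL.specSGN mDWP specDWG` for the ends `x1`, `x • x1` applies (`D2 L' x ⊆ dc L' x`; the elements of `D2 L' y'` are not flips: `D2_nonflip`). -/
def SpecSPB : Prop :=
  ∀ (R G V : Type) [Ring R] [StarRing R] [Group G] [MulAction G V] (d : V → V → ℕ), TM G d →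
    ∀ (N : ℕ) (x1 x2 : V) (x y : G), 1 ≤ N →
    (SP R G d N x2 x1 y x → SP R G d N x1 x2 x y) ∧
    (x * x ∈ MulAction.stabilizer G x1 ⊓ MulAction.stabilizer G x2 →
      ¬ Flip (MulAction.stabilizer G x1 ⊓ MulAction.stabilizer G x2) y →
      (3 ≤ N → Cl R G d (N - 1) x1 (x • x1)) → SP R G d N x1 x2 x y)

/-- **SPC** (size 220, deps `SpecSTP`, `SpecSPB`): good pairs of flips.

PROOF. Induction on `GP` (for all `P x1 x2`, `x x ∈ K`, `y y ∈ K`; `K = stabilizer x1 ⊓ stabilizer x2`; for data with these ends `L = K`).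
`reg`: `hQ` (`D2 L x ⊆ X1`, `D2 L y ⊆ X2`: `DCMM.D2_sub`). `line`: `SGSM.lines` (and `SGSM.dc_La`, `D2_flip`). `stx`: data `L` with `x ∈ X1`, `y ∈ X2`;
`mv`: `d x1 (x • x1) = d x1 x2 + d x2 (x • x1)` (see `SGSM.lines`), `x • x • x1 = x1`, so `P x1 (x • x1)` (`Lng.r`). STP: let `y' ∈ D2 L y` (`= dc L y`, as
`y y ∈ L`), `K' = stabilizer x1 ⊓ stabilizer (x • x1)` (`≤ K`, it is `Kg L x` by `mBLG`), `x x ∈ K'`. If `¬ Flip K' y'`: SPB, part 2, for the pair
`x1`, `x • x1`; its hypothesis is `3 ≤ N → Cl R G d (N - 1) x1 (x • x1)` again. If `Flip K' y'`: `y'' = y' k`, `k ∈ K'`, `y'' y'' ∈ K'`,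
`y' ∈ dc K' y''` (`ROTAux.exists_flip`); `y'' ∈ dc K y`, so `GP Q x1 (x • x1) x y''`, induction: `SP R G d N x1 (x • x1) x y''`, so (for the data of `SP`: `y'' ∈ X2`,
`D2 K' y' ⊆ D2 K' y''`) `SP R G d N x1 (x • x1) x y'`. `sty`: the same for the exchanged pair: SPB, part 1, STP for the ends `x2`, `x1` and the
flips `y`, `x`: let `x' ∈ D2 L x`; `SP R G d N x2 (y • x2) y x'` from `SP R G d N (y • x2) x2 x' y` (SPB, part 1), by induction or, if `x'` is not a flip for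
`stabilizer (y • x2) ⊓ stabilizer x2` (`inf_comm`), by SPB, part 2; `Cl R G d (N - 1) x2 (y • x2)`: `SGSM.Cl_swap`. -/
def SpecSPC : Prop :=
  ∀ (R G V : Type) [Ring R] [StarRing R] [Group G] [MulAction G V] (d : V → V → ℕ), TM G d →
    ∀ (Q : Subgroup G → Prop) (P : V → V → Prop) (N : ℕ), 1 ≤ N →
    (∀ x1 x2 : V, Q (MulAction.stabilizer G x1 ⊓ MulAction.stabilizer G x2) →
      Cl R G d N x1 x2) → Lng G d P → (3 ≤ N → ∀ x1 x2 : V, P x1 x2 → Cl R G d (N - 1) x1 x2) →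
    ∀ (x1 x2 : V) (x y : G), GP R G d Q x1 x2 x y → P x1 x2 →
      x * x ∈ MulAction.stabilizer G x1 ⊓ MulAction.stabilizer G x2 →
      y * y ∈ MulAction.stabilizer G x1 ⊓ MulAction.stabilizer G x2 → SP R G d N x1 x2 x y

/-- **CLN** (size 180, deps `SpecSPB`, `SpecSPC`): all pairs of the class `P`.

PROOF. Induction on `N` (`N = 1`: `3 ≤ N` is false). `mDCM` for the pair `x1`, `x2`: pieces `x ∈ X1`, `y ∈ X2` (`L = K` by `st`). Neither is a flip:
`mNWT` (see `LL/SGS.lean`). If `x` is a flip: `g = x h`, `g g ∈ L`, `D2 L x ⊆ D2 L g` (`ROTAux.exists_flip`); the same for `y`: `f = y k`. `x` a flip, `y` not: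
SPB, part 2, for `g`, `y` (`P x1 (g • x1)` by `Lng.r`: `mv` for `g`). `y` a flip, `x` not: SPB, part 1, and part 2 for `f`, `x` and the ends `x2`, `x1`
(`Cl_swap`, `Lng.l`). Both flips: the hypothesis gives `GP R G d Q x1 x2 g f` (`mv` for `g` at `x1` and for `f` at `x2`; `NI`: `dc L g ⊆ X1`, `X1n`), SPC.
Second part: `SE`: see `LL/CLM.lean` (`IsNilpotent` gives `N ≥ 1`), and `Cl_swap`. -/
def SpecCLN : Prop :=
  ∀ (R G V : Type) [Ring R] [StarRing R] [Group G] [MulAction G V] (d : V → V → ℕ), TM G d →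
    ∀ (Q : Subgroup G → Prop) (P : V → V → Prop),
    (∀ N : ℕ, 1 ≤ N → ∀ x1 x2 : V,
      Q (MulAction.stabilizer G x1 ⊓ MulAction.stabilizer G x2) → Cl R G d N x1 x2) →
    Lng G d P →
    (∀ (x1 x2 : V) (x y : G), P x1 x2 →
      x * x ∈ MulAction.stabilizer G x1 ⊓ MulAction.stabilizer G x2 →
      y * y ∈ MulAction.stabilizer G x1 ⊓ MulAction.stabilizer G x2 →
      d x1 (x • x1) = d x1 x2 + d x2 (x • x1) → d x2 (y • x2) = d x2 x1 + d x1 (y • x2) →
      NI (MulAction.stabilizer G x1 ⊓ MulAction.stabilizer G x2) x →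
      NI (MulAction.stabilizer G x1 ⊓ MulAction.stabilizer G x2) y → GP R G d Q x1 x2 x y) →
    (∀ N : ℕ, 1 ≤ N → ∀ x1 x2 : V, P x1 x2 → Cl R G d N x1 x2) ∧
    ∀ x1 x2 : V, P x1 x2 → SE R G d x1 x2 ∧ SE R G d x2 x1

/-! ### Part 3: chains -/

/-- **CHS** (size 300; see `LL/CHN.lean`, `LLX/Main.lean`): chains.

PROOF. Put `K = stabilizer x ⊓ stabilizer y` for a pair `x`, `y`, `Bt p q r : d p r = d p q + d q r`. By contradiction. A STATE is
(`x`, `y`, `side : Bool`, `u`, `w`) with: `d x y = d x v + d v w0 + d w0 y` (`w0` the vertex `w` of the statement), `u • x = y`, `u • y = x`,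
`w * w ∈ K`, `NI K u`, `NI K w`, and for `side = true`: `Bt y x (w • y)`, `¬ GP x y u w`; for `side = false`: `Bt x y (w • x)`, `¬ GP x y w u`.
STEP (`side = true`): `x ≠ y` (`d v w0 ≠ 0`). `Q K` fails (`reg`), so `HS` (`hline`). `Ns K u` because `u` exchanges `x`, `y`. So `¬ Ns K w` (`line`). `¬ sty`: there is
`u' ∈ dc K u` with `u' u' ∈ K' = stabilizer (w • y) ⊓ stabilizer y` and `¬ GP (w • y) y u' w`. The new state: `w • y`, `y`, `false`, `w`, `u'`. Checks: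
`w • w • y = y`; `Bt (w • y) x y` gives the path condition (`FinalAux`, or `omega` with `hd.tri`, as in `LL/CHN.lean`); `K' < K` by `CHNM.lt_of`
(`¬ Ns K w`; see `LL/CHN.lean`), `NI K' w`, `NI K' u'` (`dc K' u' ⊆ dc K u`). `u' = k u`, `k ∈ K` (`SGSM.dc_La`), so `u'` exchanges `x` and `y`; `Bt (w • y) y (u' • w • y)`:
apply `u'` to `Bt y x (w • y)`: `Bt x y (u' • w • y)`; with `Bt y x (w • y)` and `x ≠ y`: `specTFA` (2): `d (w • y) (u' • w • y) = d (w • y) x + d x y + d y (u' • w • y)`. The step for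
`side = false` is the same with the roles exchanged: `¬ stx`, `u' ∈ dc K u`, new state `x`, `w • x`, `true`, `w`, `u'`. FIRST STATE from the data (`x1`, `x2`, `x`, `y`),
`¬ GP x1 x2 x y`: not `Q K`, so `HS`, so one of `x`, `y` is not in `Ns K`. If `¬ Ns K x`: `¬ stx`: `y' ∈ dc K y`, `y' y' ∈ K'`, `¬ GP x1 (x • x1) x y'`: state `x1`, `x • x1`, `true`,
`x`, `y'`. `Bt (x • x1) x1 (y' • x • x1)`: put `q = x • x1`, `p = y' • x2`. `y' x2 = k y x2` with `k ∈ K`, so `Bt x2 x1 p` (`iso`); `y' y'` fixes `x1`, `q` and so `x2`. `y'` applied to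
`Bt x1 x2 q`: `Bt (y' x1) p (y' q)`; `y'` applied to `Bt x2 x1 p`: `Bt p (y' x1) x2`. TFA (2): `d q p = d q x2 + d x2 x1 + d x1 p`, `d x2 (y' q) = d x2 (y' x1) + d (y' x1) p + d p (y' q)`;
so `Bt q x2 p`, `Bt x2 p (y' q)`, `x2 ≠ p`: `d q (y' q) = d q x2 + d x2 p + d p (y' q)`, and `d x2 p = d x2 x1 + d x1 p`; with the triangle inequalities
`Bt q x1 (y' q)`. If `¬ Ns K y`: the same with the roles exchanged (`¬ sty`, state `y • x2`, `x2`, `false`, `y`, `x'`). The sequence of the states (choose) contradicts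
`hchain`: `x i`, `y i`, `u i`; `u (i + 2)` is the `u'` of the step `i`, `u (i + 1) = w i`, `h * u i ∈ dc (K i) (u i)` and `NI`. -/
def SpecCHS : Prop :=
  ∀ (R G V : Type) [Ring R] [StarRing R] [Group G] [MulAction G V] (d : V → V → ℕ), TM G d →
    ∀ (Q : Subgroup G → Prop) (v w : V), v ≠ w →
    (∀ x y : V, d x y = d x v + d v w + d w y → (∃ g : G, g • x = y ∧ g • y = x) →
      Q (MulAction.stabilizer G x ⊓ MulAction.stabilizer G y) ∨ HS R G d x y) →
    (∀ (x y : ℕ → V) (u : ℕ → G), (∀ i, d (x i) (y i) = d (x i) v + d v w + d w (y i)) →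
      (∀ i, u i • x i = y i ∧ u i • y i = x i) →
      (∀ i, x (i + 1) = x i ∨ y (i + 1) = y i) →
      (∀ i, d (x (i + 1)) (y (i + 1)) = d (x (i + 1)) (x i) + d (x i) (y i) + d (y i) (y (i + 1))) →
      (∀ i, MulAction.stabilizer G (x (i + 1)) ⊓ MulAction.stabilizer G (y (i + 1)) <
        MulAction.stabilizer G (x i) ⊓ MulAction.stabilizer G (y i)) →
      (∀ i, ∃ h ∈ MulAction.stabilizer G (x i) ⊓ MulAction.stabilizer G (y i), u (i + 2) = h * u i) →
      (∀ i, ∀ h ∈ MulAction.stabilizer G (x i) ⊓ MulAction.stabilizer G (y i),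
        h * u i * (h * u i) ≠ 1) →
      ∃ i, Q (MulAction.stabilizer G (x i) ⊓ MulAction.stabilizer G (y i))) →
    ∀ (x1 x2 : V) (x y : G), d x1 x2 = d x1 v + d v w + d w x2 →
      (∃ g : G, g • x1 = x2 ∧ g • x2 = x1) →
      x * x ∈ MulAction.stabilizer G x1 ⊓ MulAction.stabilizer G x2 →
      y * y ∈ MulAction.stabilizer G x1 ⊓ MulAction.stabilizer G x2 →
      d x1 (x • x1) = d x1 x2 + d x2 (x • x1) → d x2 (y • x2) = d x2 x1 + d x1 (y • x2) →
      NI (MulAction.stabilizer G x1 ⊓ MulAction.stabilizer G x2) x →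
      NI (MulAction.stabilizer G x1 ⊓ MulAction.stabilizer G x2) y → GP R G d Q x1 x2 x y

/-- **FLS** (size 150, deps `SpecCLN`, `SpecCHS`): the theorem for trees (see `LLX.fll`, `LLX.main` in `LLX/Main.lean`).

PROOF. `P x y : d x y = d x v + d v w + d w y ∧ ∃ g, g • x = y ∧ g • y = x` satisfies `Lng` (`x • x • x1 = x1`: `x` exchanges `x1` and `x • x1`; the path: `omega`
with `hd.tri`, see `LLX.chn`). CHS with `hline` from `LLX.hln` (as in `LLX.main`), CLN: `SE` for the pairs of `P`. `mMNK` with the ends `w`, `v`, as in `LLX.fll`: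
for `g` with `g v = v`, `g w ≠ w`, `g g ∈ H` the pair `g w`, `w` is in `P`, for `g` with `g w = w`, `g v ≠ v` the pair `v`, `g v`. -/
def SpecFLS : Prop :=
  ∀ (R G V : Type) [Ring R] [StarRing R] [Group G] [MulAction G V] (Q : Subgroup G → Prop)
    (T : SimpleGraph V) (v w : V),
    (∀ N : ℕ, 1 ≤ N → ∀ x y : V,
      Q (MulAction.stabilizer G x ⊓ MulAction.stabilizer G y) → Cl R G T.dist N x y) →
    T.IsTree → (∀ (g : G) (x y : V), T.Adj x y → T.Adj (g • x) (g • y)) → T.Adj v w →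
    (∀ g : G, ¬ (g • v = w ∧ g • w = v)) →
    (∀ (x y : V) (g f : G), T.dist x y = T.dist x v + 1 + T.dist w y → g • x = y →
      g • y = x → Ns (MulAction.stabilizer G x ⊓ MulAction.stabilizer G y) f →
      f * f ∈ MulAction.stabilizer G x ⊓ MulAction.stabilizer G y →
      T.dist y (f • y) = T.dist y x + T.dist x (f • y) → f • y ≠ x →
      (∀ h ∈ MulAction.stabilizer G x ⊓ MulAction.stabilizer G y, h * g * (h * g) ≠ 1) →
      (∀ h ∈ MulAction.stabilizer G x ⊓ MulAction.stabilizer G y, h * f * (h * f) ≠ 1) →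
      Q (MulAction.stabilizer G x ⊓ MulAction.stabilizer G y) ∨
        Blk R (La (MulAction.stabilizer G x ⊓ MulAction.stabilizer G y) g)
          (La (MulAction.stabilizer G x ⊓ MulAction.stabilizer G y) f)) →
    (∀ (x y : ℕ → V) (u : ℕ → G),
      (∀ i, T.dist (x i) (y i) = T.dist (x i) v + 1 + T.dist w (y i)) →
      (∀ i, u i • x i = y i ∧ u i • y i = x i) →
      (∀ i, x (i + 1) = x i ∨ y (i + 1) = y i) →
      (∀ i, T.dist (x (i + 1)) (y (i + 1)) =
        T.dist (x (i + 1)) (x i) + T.dist (x i) (y i) + T.dist (y i) (y (i + 1))) →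
      (∀ i, MulAction.stabilizer G (x (i + 1)) ⊓ MulAction.stabilizer G (y (i + 1)) <
        MulAction.stabilizer G (x i) ⊓ MulAction.stabilizer G (y i)) →
      (∀ i, ∃ h ∈ MulAction.stabilizer G (x i) ⊓ MulAction.stabilizer G (y i), u (i + 2) = h * u i) →
      (∀ i, ∀ h ∈ MulAction.stabilizer G (x i) ⊓ MulAction.stabilizer G (y i),
        h * u i * (h * u i) ≠ 1) →
      ∃ i, Q (MulAction.stabilizer G (x i) ⊓ MulAction.stabilizer G (y i))) →
    ∀ (ε : ℤˣ) (n : ℕ) (ψ μ χ : Matrix (Fin n) (Fin n) (MonoidAlgebra R G)),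
      SuppIn {g | g • v = v ∧ g • w ≠ w} ψ → SuppIn {g | g • v = w} μ →
      SuppIn {g | g • w = w ∧ g • v ≠ v} χ →
      IsNilpotent (nu ε (ψ + (ε : ℤ) • ψᴴ) μ (χ + (ε : ℤ) • χᴴ)) →
      StablyHyperbolic ε (UF ψ μ χ)

end Pool.Agent.Lib.MPb6f35e.TT.LL2

/-! ## Module LL2/FAT -/

/-!
# LL2, module FAT: factorization through `K' g`, `K' = Kg L g`
-/

set_option autoImplicit false

namespace Pool.Agent.Lib.MPb6f35e.TT.LL2

open Matrix Pool.Agent.Lib.MPb6f35e.TT.UV Pool.Agent.Lib.MPb6f35e.TT.AU Pool.Agent.Lib.MPb6f35e.TT.RO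
open Pool.Agent.Lib.MPb6f35e.TT.ROK Pool.Agent.Lib.MPb6f35e.TT.LL

namespace FATM

section Cosets

variable {G : Type} [Group G]

/-- a representative of the right coset `K a` -/
noncomputable def rho (K : Subgroup G) (a : G) : G :=
  (Quotient.mk (QuotientGroup.rightRel K) a).out

theorem rho_mul_inv (K : Subgroup G) (a : G) : rho K a * a⁻¹ ∈ K := by
  have h : (QuotientGroup.rightRel K) (rho K a) a :=
    Quotient.exact (Quotient.out_eq (Quotient.mk (QuotientGroup.rightRel K) a))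
  rw [QuotientGroup.rightRel_apply] at h
  have h2 := K.inv_mem h
  rwa [_root_.mul_inv_rev, inv_inv] at h2

theorem mul_rho_inv (K : Subgroup G) (a : G) : a * (rho K a)⁻¹ ∈ K := by
  have h := K.inv_mem (rho_mul_inv K a)
  rwa [_root_.mul_inv_rev, inv_inv] at h

theorem rho_eq {K : Subgroup G} {a b : G} (h : b * a⁻¹ ∈ K) : rho K a = rho K b := by
  unfold rho
  have e : (Quotient.mk (QuotientGroup.rightRel K) a) = Quotient.mk (QuotientGroup.rightRel K) b := by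
    apply Quotient.sound
    change (QuotientGroup.rightRel K) a b
    rw [QuotientGroup.rightRel_apply]
    exact h
  rw [e]

theorem rho_mem {L K : Subgroup G} (hK : K ≤ L) {a : G} (ha : a ∈ L) : rho K a ∈ L := by
  have e : rho K a = rho K a * a⁻¹ * a := by group
  rw [e]
  exact L.mul_mem (hK (rho_mul_inv K a)) ha

theorem rho_inj {K : Subgroup G} {a b : G} (h : rho K b * (rho K a)⁻¹ ∈ K) :
    rho K a = rho K b := by
  apply rho_eq
  have e : b * a⁻¹ = b * (rho K b)⁻¹ * (rho K b * (rho K a)⁻¹) * (rho K a * a⁻¹) := by group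
  rw [e]
  exact K.mul_mem (K.mul_mem (mul_rho_inv K b) h) (rho_mul_inv K a)

theorem Kg_le (L : Subgroup G) (g : G) : Kg L g ≤ L := fun x hx => ((mem_Kg L g x).1 hx).1

theorem conj_mem {L : Subgroup G} {g : G} (hgg : g * g ∈ L) {l : G} (hl : l ∈ Kg L g) :
    g * l * g⁻¹ ∈ Kg L g := by
  rw [mem_Kg] at hl ⊢
  constructor
  · have e : g * l * g⁻¹ = g * g * (g⁻¹ * l * g) * (g * g)⁻¹ := by group
    rw [e]
    exact L.mul_mem (L.mul_mem hgg hl.2) (L.inv_mem hgg)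
  · have e : g⁻¹ * (g * l * g⁻¹) * g = l := by group
    rw [e]
    exact hl.1

/-- the decomposition of the elements of `L g L` -/
theorem dec {L : Subgroup G} {g : G} (hgg : g * g ∈ L) {x : G} (hx : x ∈ dc L g) :
    ∃ a b k : G, a ∈ L ∧ b ∈ L ∧ k ∈ Kg L g ∧
      x = (rho (Kg L g) a)⁻¹ * (k * g) * rho (Kg L g) b := by
  obtain ⟨h, hh, h', hh', rfl⟩ := hx
  set K := Kg L g with hK
  have h1 : h * (rho K h⁻¹) ∈ L := L.mul_mem hh (rho_mem (Kg_le L g) (L.inv_mem hh))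
  have h2 : rho K h⁻¹ * h ∈ K := by
    have := rho_mul_inv K h⁻¹
    rwa [inv_inv] at this
  have h3 : h' * (rho K h')⁻¹ ∈ K := mul_rho_inv K h'
  refine ⟨h⁻¹, h', rho K h⁻¹ * h * (g * (h' * (rho K h')⁻¹) * g⁻¹), L.inv_mem hh, hh',
    K.mul_mem h2 (conj_mem hgg h3), ?_⟩
  group

end Cosets

section Forms

variable {R G : Type} [Ring R] [StarRing R] [Group G]

/-- the matrix `Ξ` -/
noncomputable def Xi (R : Type) [Ring R] {G : Type} [Group G] (n : ℕ) (T : Finset G) :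
    Matrix (Fin n × T) (Fin n) (MonoidAlgebra R G) :=
  fun p j => if p.1 = j then MonoidAlgebra.single (p.2 : G) 1 else 0

/-- `ψ` has a factorization with `Ξ` -/
def Fac (L : Subgroup G) (g : G) {n : ℕ} (T : Finset G)
    (ψ : Matrix (Fin n) (Fin n) (MonoidAlgebra R G)) : Prop :=
  ∃ ψ' : Matrix (Fin n × T) (Fin n × T) (MonoidAlgebra R G), SuppIn (La (Kg L g) g) ψ' ∧
    ψ = (Xi R n T)ᴴ * ψ' * Xi R n T

theorem zero (L : Subgroup G) (g : G) {n : ℕ} (T : Finset G) :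
    Fac L g T (0 : Matrix (Fin n) (Fin n) (MonoidAlgebra R G)) :=
  ⟨0, fun _ _ _ hx => absurd rfl hx, by rw [Matrix.mul_zero, Matrix.zero_mul]⟩

theorem add {L : Subgroup G} {g : G} {n : ℕ} {T : Finset G}
    {ψ1 ψ2 : Matrix (Fin n) (Fin n) (MonoidAlgebra R G)} (h1 : Fac L g T ψ1)
    (h2 : Fac L g T ψ2) : Fac L g T (ψ1 + ψ2) := by
  obtain ⟨p1, a1, b1⟩ := h1
  obtain ⟨p2, a2, b2⟩ := h2
  refine ⟨p1 + p2, ?_, ?_⟩
  · intro i j x hx
    by_contra hc
    have e1 : (p1 i j).coeff x = 0 := by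
      by_contra h
      exact hc (a1 i j x h)
    have e2 : (p2 i j).coeff x = 0 := by
      by_contra h
      exact hc (a2 i j x h)
    apply hx
    rw [Matrix.add_apply, MonoidAlgebra.coeff_add, Finsupp.add_apply, e1, e2, add_zero]
  · rw [b1, b2, Matrix.mul_add, Matrix.add_mul]

theorem term (L : Subgroup G) (g : G) {n : ℕ} (T : Finset G) (i j : Fin n) {s t k : G}
    (hs : s ∈ T) (ht : t ∈ T) (hk : k ∈ Kg L g) (c : R) :
    Fac L g T (Matrix.single i j (MonoidAlgebra.single (s⁻¹ * (k * g) * t) c)) := by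
  classical
  refine ⟨Matrix.single (i, ⟨s, hs⟩) (j, ⟨t, ht⟩) (MonoidAlgebra.single (k * g) c), ?_, ?_⟩
  · intro p q x hx
    rw [Matrix.single_apply] at hx
    split_ifs at hx with h1
    · rw [MonoidAlgebra.coeff_single, Finsupp.single_apply] at hx
      split_ifs at hx with h2
      · exact ⟨k, hk, h2.symm⟩
      · exact absurd rfl hx
    · exact absurd rfl hx
  · ext a b : 1
    rw [Matrix.mul_apply, Finset.sum_eq_single (j, ⟨t, ht⟩)]
    · rw [Matrix.mul_apply, Finset.sum_eq_single (i, ⟨s, hs⟩)]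
      · rw [Matrix.single_apply_same, Matrix.conjTranspose_apply, Matrix.single_apply]
        unfold Xi
        by_cases h1 : i = a
        · by_cases h2 : j = b
          · rw [if_pos ⟨h1, h2⟩, if_pos h1, if_pos h2, star_single, star_one,
              MonoidAlgebra.single_mul_single, MonoidAlgebra.single_mul_single, one_mul, mul_one]
          · rw [if_neg (fun h => h2 h.2), if_neg h2, mul_zero]
        · rw [if_neg (fun h => h1 h.1), if_neg h1, star_zero, zero_mul, zero_mul]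
      · intro p _ hp
        rw [Matrix.single_apply_of_row_ne (by exact fun h => hp h.symm), mul_zero]
      · intro h
        exact absurd (Finset.mem_univ _) h
    · intro p _ hp
      have e : ((Xi R n T)ᴴ * Matrix.single ((i, ⟨s, hs⟩) : Fin n × T) (j, ⟨t, ht⟩)
          (MonoidAlgebra.single (k * g) c : MonoidAlgebra R G)) a p = 0 := by
        rw [Matrix.mul_apply]
        refine Finset.sum_eq_zero fun q _ => ?_
        rw [Matrix.single_apply_of_col_ne _ _ (by exact fun h => hp h.symm), mul_zero]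
      rw [e, zero_mul]
    · intro h
      exact absurd (Finset.mem_univ _) h

omit [StarRing R] in
theorem cnc {L K : Subgroup G} {n : ℕ} {T : Finset G} (hT : ∀ s ∈ T, s ∈ L)
    (hK : ∀ s ∈ T, ∀ s' ∈ T, s' * s⁻¹ ∈ K → s = s')
    (W : Set G) (hW : ∀ w ∈ W, ∀ w' ∈ W, ∀ t ∈ L, ∀ t' ∈ L, w * t = w' * t' → t' * t⁻¹ ∈ K)
    (m : Type) (Y : Matrix m (Fin n × T) (MonoidAlgebra R G)) (hY : SuppIn W Y)
    (h0 : Y * Xi R n T = 0) : Y = 0 := by
  classical
  ext a p w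
  obtain ⟨j, s0⟩ := p
  rw [Matrix.zero_apply]
  change (Y a (j, s0)).coeff w = 0
  by_contra hne
  have hw : w ∈ W := hY a (j, s0) w hne
  have e1 : (Y * Xi R n T) a j = ∑ s : T, Y a (j, s) * MonoidAlgebra.single (s : G) 1 := by
    rw [Matrix.mul_apply, Fintype.sum_prod_type, Finset.sum_eq_single j]
    · refine Finset.sum_congr rfl fun s _ => ?_
      unfold Xi
      rw [if_pos rfl]
    · intro i _ hi
      refine Finset.sum_eq_zero fun s _ => ?_
      unfold Xi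
      rw [if_neg hi, mul_zero]
    · intro h
      exact absurd (Finset.mem_univ _) h
  have e2 : ((Y * Xi R n T) a j).coeff (w * s0) = (Y a (j, s0)).coeff w := by
    rw [e1, MonoidAlgebra.coeff_sum, Finsupp.finsetSum_apply, Finset.sum_eq_single s0]
    · rw [MonoidAlgebra.coeff_mul_single_apply, mul_one, mul_inv_cancel_right]
    · intro s _ hs
      rw [MonoidAlgebra.coeff_mul_single_apply, mul_one]
      by_contra h
      have hw' := hY a (j, s) _ h
      have hk := hW _ hw' _ hw _ (hT _ s.2) _ (hT _ s0.2) (by group)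
      exact hs (Subtype.ext (hK _ s.2 _ s0.2 hk))
    · intro h
      exact absurd (Finset.mem_univ _) h
  rw [h0, Matrix.zero_apply] at e2
  exact hne (e2.symm.trans rfl)

end Forms

end FATM

open FATM in
theorem specFAT : SpecFAT := by
  intro R G _ _ _ L g hgg n ψ hψ
  classical
  set K := Kg L g with hK
  have key : ∀ x : G, ∃ a b k : G, x ∈ dc L g → a ∈ L ∧ b ∈ L ∧ k ∈ K ∧
      x = (rho K a)⁻¹ * (k * g) * rho K b := by
    intro x
    by_cases hx : x ∈ dc L g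
    · obtain ⟨a, b, k, h⟩ := dec hgg hx
      exact ⟨a, b, k, fun _ => h⟩
    · exact ⟨1, 1, 1, fun h => absurd h hx⟩
  choose fa fb fk hf using key
  let S : Finset G := (Finset.univ : Finset (Fin n × Fin n)).biUnion
    (fun p => (ψ p.1 p.2).coeff.support)
  have hS : ∀ x ∈ S, x ∈ dc L g := by
    intro x hx
    obtain ⟨p, _, hp⟩ := Finset.mem_biUnion.1 hx
    exact hψ p.1 p.2 x (Finsupp.mem_support_iff.1 hp)
  let T : Finset G := S.image (fun x => rho K (fa x)) ∪ S.image (fun x => rho K (fb x))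
  have hTa : ∀ s ∈ T, ∃ a ∈ L, s = rho K a := by
    intro s hs
    rcases Finset.mem_union.1 hs with h | h
    · obtain ⟨x, hx, rfl⟩ := Finset.mem_image.1 h
      exact ⟨_, (hf x (hS x hx)).1, rfl⟩
    · obtain ⟨x, hx, rfl⟩ := Finset.mem_image.1 h
      exact ⟨_, (hf x (hS x hx)).2.1, rfl⟩
  have hTL : ∀ s ∈ T, s ∈ L := by
    intro s hs
    obtain ⟨a, ha, rfl⟩ := hTa s hs
    exact rho_mem (Kg_le L g) ha
  have hTK : ∀ s ∈ T, ∀ s' ∈ T, s' * s⁻¹ ∈ K → s = s' := by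
    intro s hs s' hs' h
    obtain ⟨a, ha, rfl⟩ := hTa s hs
    obtain ⟨b, hb, rfl⟩ := hTa s' hs'
    exact rho_inj h
  have hfac : Fac L g T ψ := by
    rw [Matrix.matrix_eq_sum_single ψ]
    refine Finset.sum_induction _ (Fac L g T) (fun _ _ => FATM.add) (FATM.zero L g T) ?_
    intro i _
    refine Finset.sum_induction _ (Fac L g T) (fun _ _ => FATM.add) (FATM.zero L g T) ?_
    intro j _
    have hs : ψ i j = ∑ y ∈ (ψ i j).coeff.support, MonoidAlgebra.single y ((ψ i j).coeff y) := by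
      ext y
      rw [MonoidAlgebra.coeff_sum, Finsupp.finsetSum_apply]
      simp only [MonoidAlgebra.coeff_single, Finsupp.single_apply]
      rw [Finset.sum_ite_eq']
      split_ifs with h
      · rfl
      · exact Finsupp.notMem_support_iff.1 h
    rw [hs]
    have hsum : Matrix.single i j (∑ y ∈ (ψ i j).coeff.support,
          MonoidAlgebra.single y ((ψ i j).coeff y)) =
        ∑ y ∈ (ψ i j).coeff.support, Matrix.single i j
          (MonoidAlgebra.single y ((ψ i j).coeff y)) :=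
      map_sum (Matrix.singleAddMonoidHom i j) _ _
    rw [hsum]
    refine Finset.sum_induction _ (Fac L g T) (fun _ _ => FATM.add) (FATM.zero L g T) ?_
    intro y hy
    have hyS : y ∈ S := Finset.mem_biUnion.2 ⟨(i, j), Finset.mem_univ _, hy⟩
    obtain ⟨-, -, hk, he⟩ := hf y (hS y hyS)
    have h1 : rho K (fa y) ∈ T := Finset.mem_union_left _ (Finset.mem_image_of_mem _ hyS)
    have h2 : rho K (fb y) ∈ T := Finset.mem_union_right _ (Finset.mem_image_of_mem _ hyS)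
    have := term L g T i j h1 h2 hk ((ψ i j).coeff y)
    rw [← he] at this
    exact this
  obtain ⟨ψ', hψ', he⟩ := hfac
  let e := Fintype.equivFin (Fin n × T)
  refine ⟨Fintype.card (Fin n × T), (Xi R n T).submatrix e.symm id,
    ψ'.submatrix e.symm e.symm, ?_, ?_, ?_, ?_⟩
  · intro i j x hx
    rw [Matrix.submatrix_apply] at hx
    unfold Xi at hx
    split_ifs at hx with h1
    · rw [MonoidAlgebra.coeff_single, Finsupp.single_apply] at hx
      split_ifs at hx with h2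
      · rw [← h2]
        exact hTL _ (e.symm i).2.2
      · exact absurd rfl hx
    · exact absurd rfl hx
  · intro i j x hx
    exact hψ' _ _ x hx
  · rw [he, conjTranspose_submatrix, Matrix.submatrix_mul_equiv, Matrix.submatrix_mul_equiv]
    rfl
  · intro W hW m Y hY h0
    have h1 : Y.submatrix id e * Xi R n T = 0 := by
      have e1 : Y.submatrix id e * Xi R n T = Y * (Xi R n T).submatrix e.symm id := by
        have := Matrix.submatrix_mul_equiv Y ((Xi R n T).submatrix e.symm id) id e id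
        rw [Matrix.submatrix_submatrix, Equiv.symm_comp_self] at this
        exact this
      rw [e1]
      exact h0
    have h2 := cnc hTL hTK W hW m (Y.submatrix id e) (fun i j x hx => hY i (e j) x hx) h1
    ext i j : 1
    have h3 := congrFun (congrFun h2 i) (e.symm j)
    rw [Matrix.submatrix_apply, Equiv.apply_symm_apply] at h3
    exact h3

end Pool.Agent.Lib.MPb6f35e.TT.LL2

/-! ## Module LL2/IDX -/

/-!
# Short chains (MP_8a3537_gt, folder LL2), module IDX: the index is preserved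
-/

set_option autoImplicit false

namespace Pool.Agent.Lib.MPb6f35e.TT.LL2

open Matrix Pool.Agent.Lib.MPb6f35e.TT.UV Pool.Agent.Lib.MPb6f35e.TT.AU Pool.Agent.Lib.MPb6f35e.TT.RO
open Pool.Agent.Lib.MPb6f35e.TT.ROK Pool.Agent.Lib.MPb6f35e.TT.LL

namespace IDXM

/-- The whole set `X1` satisfies `Sub1`. -/
theorem sub1 {G : Type} [Group G] {H : Subgroup G} {X1 X2 X3 Yp Ym : Set G}
    (hp : PingPong H X1 X2 X3 Yp Ym) : Sub1 H X1 X2 X3 Yp Ym X1 :=
  ⟨hp, fun _ hx => hx, (specUNQ G H X1 X2 X3 Yp Ym hp).2.2.1 false true, hp.X1i⟩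

/-- The type of an index. -/
def ty {α β : Type} : α ⊕ β → Bool
  | Sum.inl _ => true
  | Sum.inr _ => false

section Gen

variable {R G : Type} [Ring R] [Group G]

/-- The words with `k` letters from `false` to `s`, times an element of `La K' g`. -/
def WE (L : Subgroup G) (X1 X2 : Set G) (g : G) (k : ℕ) (s : Bool) : Set G :=
  {z | ∃ u e, Wd L X1 X2 ∅ k s false u ∧ e ∈ La (Kg L g) g ∧ z = u * e}

/-- The entries of the powers of a matrix with the supports of `nu` are supported in words. -/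
theorem pow_supp {a b : Type} [Fintype a] [Fintype b] [DecidableEq a] [DecidableEq b]
    {L : Subgroup G} {X1 X2 : Set G} (M : Matrix (a ⊕ b) (a ⊕ b) (MonoidAlgebra R G))
    (hM : ∀ i j z, (M i j).coeff z ≠ 0 → z ∈ XX X1 X2 ∅ (ty i) (ty j)) :
    ∀ (k : ℕ) (i j : a ⊕ b) (z : G), ((M ^ k) i j).coeff z ≠ 0 →
      Wd L X1 X2 ∅ k (ty i) (ty j) z := by
  intro k
  induction k with
  | zero =>
    intro i j z hz
    rw [pow_zero, Matrix.one_apply] at hz
    split_ifs at hz with hij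
    · subst hij
      by_cases h1 : z = 1
      · rw [h1]
        exact Wd.base L.one_mem
      · exact absurd (NILAux.coeff_one_ne z h1) hz
    · exact absurd rfl hz
  | succ k ih =>
    intro i j z hz
    rw [pow_succ', Matrix.mul_apply, MonoidAlgebra.coeff_sum, Finsupp.finsetSum_apply] at hz
    obtain ⟨l, -, hl⟩ := Finset.exists_ne_zero_of_sum_ne_zero hz
    obtain ⟨u, v, hu, hv, e⟩ := NILAux.coeff_mul_ne _ _ _ hl
    rw [← e]
    exact Wd.cons (hM i l u hu) (ih l j v hv)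

/-- Cancellation of `Ξ`, row by row. -/
theorem cnc_rows {L K : Subgroup G} {r n : ℕ} {Ξ : Matrix (Fin r) (Fin n) (MonoidAlgebra R G)}
    (hC : Cnc L K Ξ) (W : Bool → Set G)
    (hW : ∀ s, ∀ w ∈ W s, ∀ w' ∈ W s, ∀ t ∈ L, ∀ t' ∈ L, w * t = w' * t' → t' * t⁻¹ ∈ K)
    {m : Type} (Y : Matrix m (Fin r) (MonoidAlgebra R G)) (sY : m → Bool)
    (hs : ∀ i j z, (Y i j).coeff z ≠ 0 → z ∈ W (sY i)) (h0 : Y * Ξ = 0) : Y = 0 := by
  ext1 i j
  have h1 : (Y.submatrix (fun _ : Unit => i) id) * Ξ = 0 := by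
    ext1 u v
    have := congrFun (congrFun h0 i) v
    rw [Matrix.mul_apply] at this ⊢
    exact this
  have h2 := hC (W (sY i)) (hW (sY i)) Unit (Y.submatrix (fun _ : Unit => i) id)
    (fun _ j z hz => hs i j z hz) h1
  exact congrFun (congrFun h2 ()) j

end Gen

/-- The sets `WE k s` satisfy the hypothesis in `Cnc`. -/
theorem we_cnc {G : Type} [Group G] (hUWD : SpecUWD) {L : Subgroup G} {X1 X2 Yp Ym : Set G}
    (hp : PingPong L X1 X2 ∅ Yp Ym) {g : G} (hg : g ∈ X1) (hgg : g * g ∈ L) (k : ℕ) (s : Bool) :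
    ∀ w ∈ WE L X1 X2 g k s, ∀ w' ∈ WE L X1 X2 g k s, ∀ t ∈ L, ∀ t' ∈ L,
      w * t = w' * t' → t' * t⁻¹ ∈ Kg L g := by
  obtain ⟨-, hLa, -, -, -⟩ := mSBK G L X1 X2 ∅ Yp Ym hp g hg hgg
  rintro w ⟨u, e, hu, he, rfl⟩ w' ⟨u', e', hu', he', rfl⟩ t ht t' ht' h
  have ym : ∀ x ∈ La (Kg L g) g, ∀ t ∈ L, x * t ∈ YB Yp Ym false := by
    intro x hx t ht
    have := hp.Ypl t ht 1 hp.Yp1
    rw [mul_one] at this
    exact hp.X1Y x (hLa x hx).1 t this
  have h1 : u * (e * t) = u' * (e' * t') := by rw [← mul_assoc, ← mul_assoc, h]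
  have h2 := hUWD G L X1 X2 ∅ Yp Ym hp k s false u u' (e * t) (e' * t') hu hu' (ym e he t ht)
    (ym e' he' t' ht') h1
  obtain ⟨l, hl, rfl⟩ := he
  obtain ⟨l', hl', rfl⟩ := he'
  have hlL : l ∈ L := ((mem_Kg L g l).1 hl).1
  have hlL' : l' ∈ L := ((mem_Kg L g l').1 hl').1
  -- `g (t t'⁻¹) g⁻¹ = l⁻¹ h l'`
  have h3 : g * (t' * t⁻¹) * g⁻¹ = l'⁻¹ * (u⁻¹ * u')⁻¹ * l := by
    have e1 : l * g * t = (u⁻¹ * u') * (l' * g * t') := by
      calc l * g * t = u⁻¹ * (u * (l * g * t)) := by group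
        _ = u⁻¹ * (u' * (l' * g * t')) := by rw [h1]
        _ = (u⁻¹ * u') * (l' * g * t') := by group
    have e2 : g * t' = l'⁻¹ * (u⁻¹ * u')⁻¹ * (l * g * t) := by
      rw [e1]
      group
    calc g * (t' * t⁻¹) * g⁻¹ = (g * t') * t⁻¹ * g⁻¹ := by group
      _ = l'⁻¹ * (u⁻¹ * u')⁻¹ * (l * g * t) * t⁻¹ * g⁻¹ := by rw [e2]
      _ = l'⁻¹ * (u⁻¹ * u')⁻¹ * l := by group
  have h4 : g * (t' * t⁻¹) * g⁻¹ ∈ L := by
    rw [h3]
    exact L.mul_mem (L.mul_mem (L.inv_mem hlL') (L.inv_mem h2)) hlL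
  rw [mem_Kg]
  refine ⟨L.mul_mem ht' (L.inv_mem ht), ?_⟩
  have h5 : g⁻¹ * (t' * t⁻¹) * g = (g * g)⁻¹ * (g * (t' * t⁻¹) * g⁻¹) * (g * g) := by group
  rw [h5]
  exact L.mul_mem (L.mul_mem (L.inv_mem hgg) h4) hgg

end IDXM

open IDXM in
theorem specIDX (hUWD : SpecUWD) : SpecIDX := by
  intro R G _ _ _ L X1 X2 Yp Ym hp g hg hgg ε n r N hN Ξ ψ' χ hΞ hC hψ hχ hnu
  obtain ⟨-, hLa, ⟨hLs, hLi, -⟩, -, -⟩ := mSBK G L X1 X2 ∅ Yp Ym hp g hg hgg
  obtain ⟨w1, -, w3, -, -⟩ := mWDA G L X1 X2 ∅ Yp Ym X1 (sub1 hp)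
  obtain ⟨k, rfl⟩ : ∃ k, N = k + 1 := ⟨N - 1, by omega⟩
  set α : Matrix (Fin r) (Fin r) (MonoidAlgebra R G) := ψ' + (ε : ℤ) • ψ'ᴴ with hα
  set b : Matrix (Fin n) (Fin n) (MonoidAlgebra R G) := χ + (ε : ℤ) • χᴴ with hb
  have ea : Ξᴴ * ψ' * Ξ + (ε : ℤ) • (Ξᴴ * ψ' * Ξ)ᴴ = Ξᴴ * α * Ξ := by
    rw [hα, Matrix.conjTranspose_mul, Matrix.conjTranspose_mul,
      Matrix.conjTranspose_conjTranspose, Matrix.mul_add, Matrix.add_mul, Matrix.mul_smul,
      Matrix.smul_mul, Matrix.mul_assoc Ξᴴ ψ'ᴴ Ξ]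
  have eth : Ξ * χ * Ξᴴ + (ε : ℤ) • (Ξ * χ * Ξᴴ)ᴴ = Ξ * b * Ξᴴ := by
    rw [hb, Matrix.conjTranspose_mul, Matrix.conjTranspose_mul,
      Matrix.conjTranspose_conjTranspose, Matrix.mul_add, Matrix.add_mul, Matrix.mul_smul,
      Matrix.smul_mul, Matrix.mul_assoc Ξ χᴴ Ξᴴ]
  rw [ea] at hnu
  rw [eth]
  -- supports
  have hΞs : SuppIn (L : Set G) Ξᴴ := NILAux.supp_mono (NILAux.supp_star hΞ)
    (fun x hx => (Subgroup.inv_mem_iff L).1 hx)
  have sα : SuppIn (La (Kg L g) g) α := by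
    refine NILAux.supp_add hψ (NILAux.supp_smul _ (NILAux.supp_mono (NILAux.supp_star hψ) ?_))
    intro x hx
    have := hLi x⁻¹ hx
    rwa [inv_inv] at this
  have sb : SuppIn X2 b := by
    refine NILAux.supp_add hχ (NILAux.supp_smul _ (NILAux.supp_mono (NILAux.supp_star hχ) ?_))
    intro x hx
    have := hp.X2i x⁻¹ hx
    rwa [inv_inv] at this
  have sΞb : SuppIn X2 (Ξ * b) := NILAux.supp_mul hΞ sb hp.X2l
  have sθ : SuppIn X2 (Ξ * b * Ξᴴ) :=
    NILAux.supp_mul sΞb hΞs (fun x hx y hy => hp.X2r y hy x hx)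
  -- the matrices
  have ha : Ξᴴ * α * Ξ = Ξᴴ * α * Ξ := rfl
  have hm : (0 : Matrix (Fin n) (Fin n) (MonoidAlgebra R G)) =
      (0 : Matrix (Fin n) (Fin r) (MonoidAlgebra R G)) * Ξ := (Matrix.zero_mul Ξ).symm
  set M := NILAux.NN ε (0 : Matrix (Fin n) (Fin n) (MonoidAlgebra R G)) b Ξ α
    (0 : Matrix (Fin n) (Fin r) (MonoidAlgebra R G)) with hMdef
  have hPP : M ^ (k + 1) * NILAux.PP Ξ = 0 := by
    have := NILAux.PP_pow ε (b := b) ha hm (k + 1)
    rw [hnu, Matrix.mul_zero] at this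
    exact this.symm
  -- supports of `M`
  have sM : ∀ i j z, (M i j).coeff z ≠ 0 → z ∈ XX X1 X2 ∅ (ty i) (ty j) := by
    intro i j z hz
    rcases i with i | i <;> rcases j with j | j
    · exfalso
      apply hz
      have : M (Sum.inl i) (Sum.inl j) = (Ξ * (0 : Matrix (Fin n) (Fin r) (MonoidAlgebra R G))) i j :=
        rfl
      rw [this, Matrix.mul_zero]
      rfl
    · exact NILAux.supp_smul (ε : ℤ) sΞb i j z hz
    · have s1 : SuppIn X1 (Ξᴴ * α) :=
        NILAux.supp_mul hΞs (NILAux.supp_mono sα (fun x hx => (hLa x hx).1)) hp.X1l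
      exact s1 i j z hz
    · exfalso
      apply hz
      have : M (Sum.inr i) (Sum.inr j) =
        ((0 : Matrix (Fin n) (Fin n) (MonoidAlgebra R G))ᴴ) i j := rfl
      rw [this, Matrix.conjTranspose_zero]
      rfl
  have pM := pow_supp (L := L) M sM
  -- `M ^ (k + 1) = 0`
  have hM0 : M ^ (k + 1) = 0 := by
    have c1 : (M ^ (k + 1)).toCols₁ * Ξ = 0 := by
      ext1 i j
      have h := congrFun (congrFun hPP i) (Sum.inl j)
      rw [← fromCols_toCols (M ^ (k + 1))] at h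
      unfold NILAux.PP at h
      rw [fromCols_mul_fromBlocks] at h
      simp only [Matrix.mul_zero, Matrix.mul_one, add_zero, zero_add] at h
      exact h
    have c2 : (M ^ (k + 1)).toCols₂ = 0 := by
      ext1 i j
      have h := congrFun (congrFun hPP i) (Sum.inr j)
      rw [← fromCols_toCols (M ^ (k + 1))] at h
      unfold NILAux.PP at h
      rw [fromCols_mul_fromBlocks] at h
      simp only [Matrix.mul_zero, Matrix.mul_one, add_zero, zero_add] at h
      exact h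
    have c3 : (M ^ (k + 1)).toCols₁ = 0 := by
      refine cnc_rows hC (WE L X1 X2 g k) (we_cnc hUWD hp hg hgg k) _ ty ?_ c1
      intro i j z hz
      have e1 : (M ^ (k + 1)).toCols₁ i j = (M ^ (k + 1)) i (Sum.inl j) := rfl
      rw [e1, pow_succ, Matrix.mul_apply, MonoidAlgebra.coeff_sum,
        Finsupp.finsetSum_apply] at hz
      obtain ⟨l, -, hl⟩ := Finset.exists_ne_zero_of_sum_ne_zero hz
      obtain ⟨u, v, hu, hv, e⟩ := NILAux.coeff_mul_ne _ _ _ hl
      have hw := pM k i l u hu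
      rcases l with l | l
      · exact (sM _ _ _ hv).elim
      · have e2 : M (Sum.inr l) (Sum.inl j) = (Ξᴴ * α) l j := rfl
        rw [e2, Matrix.mul_apply, MonoidAlgebra.coeff_sum, Finsupp.finsetSum_apply] at hv
        obtain ⟨q, -, hq⟩ := Finset.exists_ne_zero_of_sum_ne_zero hv
        obtain ⟨u', v', hu', hv', e'⟩ := NILAux.coeff_mul_ne _ _ _ hq
        refine ⟨u * u', v', (w1 k _ _ u u' (hΞs _ _ _ hu') hw).2, sα _ _ _ hv', ?_⟩
        rw [← e, ← e', mul_assoc]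
    rw [← fromCols_toCols (M ^ (k + 1)), c2, c3, fromCols_zero]
  -- the matrix `ν'`
  have hQQ := NILAux.QQ_pow ε (b := b) (a' := α) (p := Ξ) hm (k + 1)
  rw [← hMdef, hM0, Matrix.zero_mul, Matrix.mul_zero] at hQQ
  set V := nu ε α 0 (Ξ * b * Ξᴴ) with hV
  have sV : ∀ i j z, (V i j).coeff z ≠ 0 → z ∈ XX X1 X2 ∅ (ty i) (ty j) := by
    intro i j z hz
    rcases i with i | i <;> rcases j with j | j
    · exact (hz rfl).elim
    · exact NILAux.supp_smul (ε : ℤ) sθ i j z hz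
    · exact (hLa z (sα i j z hz)).1
    · exfalso
      apply hz
      have : V (Sum.inr i) (Sum.inr j) =
        ((0 : Matrix (Fin r) (Fin r) (MonoidAlgebra R G))ᴴ) i j := rfl
      rw [this, Matrix.conjTranspose_zero]
      rfl
  have pV := pow_supp (L := L) V sV
  have r1 : (V ^ (k + 1)).toRows₁ = 0 := by
    ext1 i j
    have h := congrFun (congrFun hQQ (Sum.inl i)) j
    rw [← fromRows_toRows (V ^ (k + 1))] at h
    unfold NILAux.QQ at h
    rw [fromBlocks_mul_fromRows] at h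
    simp only [Matrix.zero_mul, Matrix.one_mul, add_zero, zero_add] at h
    exact h
  have r2 : Ξᴴ * (V ^ (k + 1)).toRows₂ = 0 := by
    ext1 i j
    have h := congrFun (congrFun hQQ (Sum.inr i)) j
    rw [← fromRows_toRows (V ^ (k + 1))] at h
    unfold NILAux.QQ at h
    rw [fromBlocks_mul_fromRows] at h
    simp only [Matrix.zero_mul, Matrix.one_mul, add_zero, zero_add] at h
    exact h
  have r3 : ((V ^ (k + 1)).toRows₂)ᴴ * Ξ = 0 := by
    have := congrArg Matrix.conjTranspose r2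
    rwa [Matrix.conjTranspose_mul, Matrix.conjTranspose_conjTranspose,
      Matrix.conjTranspose_zero] at this
  have r4 : ((V ^ (k + 1)).toRows₂)ᴴ = 0 := by
    refine cnc_rows hC (WE L X1 X2 g k) (we_cnc hUWD hp hg hgg k) _ (fun i => !(ty i)) ?_ r3
    intro t j z hz
    rw [Matrix.conjTranspose_apply, star_coeff] at hz
    have hz1 : ((V ^ (k + 1)) (Sum.inr j) t).coeff z⁻¹ ≠ 0 := by
      intro h
      apply hz
      have e1 : (V ^ (k + 1)).toRows₂ j t = (V ^ (k + 1)) (Sum.inr j) t := rfl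
      rw [e1, h, star_zero]
    rw [pow_succ', Matrix.mul_apply, MonoidAlgebra.coeff_sum, Finsupp.finsetSum_apply] at hz1
    obtain ⟨l, -, hl⟩ := Finset.exists_ne_zero_of_sum_ne_zero hz1
    obtain ⟨u, v, hu, hv, e⟩ := NILAux.coeff_mul_ne _ _ _ hl
    have hw := pV k l t v hv
    rcases l with l | l
    · refine ⟨v⁻¹, u⁻¹, w3 k _ _ v hw, hLi u (sα _ _ _ hu), ?_⟩
      rw [← _root_.mul_inv_rev, e, inv_inv]
    · exact (Set.notMem_empty _ (sV _ _ _ hu)).elim
  have r5 : (V ^ (k + 1)).toRows₂ = 0 := by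
    have := congrArg Matrix.conjTranspose r4
    rwa [Matrix.conjTranspose_conjTranspose, Matrix.conjTranspose_zero] at this
  rw [← fromRows_toRows (V ^ (k + 1)), r1, r5, fromRows_zero]

end Pool.Agent.Lib.MPb6f35e.TT.LL2

/-! ## Module LL2/UWD -/

/-!
# Short chains (MP_8a3537_gt, folder LL2), module UWD: uniqueness for words of the same length
-/

set_option autoImplicit false

namespace Pool.Agent.Lib.MPb6f35e.TT.LL2

open Matrix Pool.Agent.Lib.MPb6f35e.TT.UV Pool.Agent.Lib.MPb6f35e.TT.AU Pool.Agent.Lib.MPb6f35e.TT.RO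
open Pool.Agent.Lib.MPb6f35e.TT.ROK Pool.Agent.Lib.MPb6f35e.TT.LL

namespace UWDM

/-- The whole set `X1` satisfies `Sub1`. -/
theorem sub1 {G : Type} [Group G] {H : Subgroup G} {X1 X2 X3 Yp Ym : Set G}
    (hp : PingPong H X1 X2 X3 Yp Ym) : Sub1 H X1 X2 X3 Yp Ym X1 :=
  ⟨hp, fun _ hx => hx, (specUNQ G H X1 X2 X3 Yp Ym hp).2.2.1 false true, hp.X1i⟩

end UWDM

theorem specUWD : SpecUWD := by
  intro G _ H X1 X2 X3 Yp Ym hp k
  obtain ⟨-, unq, bi, -⟩ := specUNQ G H X1 X2 X3 Yp Ym hp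
  obtain ⟨w1, -, -, w4, -⟩ := mWDA G H X1 X2 X3 Yp Ym X1 (UWDM.sub1 hp)
  induction k with
  | zero =>
    intro s t z z' y y' hz hz' hy hy' he
    cases hz with
    | base h1 =>
      cases hz' with
      | base h2 => exact H.mul_mem (H.inv_mem h1) h2
  | succ k ih =>
    intro s t z z' y y' hz hz' hy hy' he
    cases hz with
    | cons hx h1 =>
      rename_i r x z1
      cases hz' with
      | cons hx' h1' =>
        rename_i r' x' z1'
        have e1 : x * (z1 * y) = x' * (z1' * y') := by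
          rw [← mul_assoc, ← mul_assoc]
          exact he
        obtain ⟨hr, hh⟩ := unq s r r' x (z1 * y) x' (z1' * y') hx (w4 k r t z1 y h1 hy) hx'
          (w4 k r' t z1' y' h1' hy') e1
        subst hr
        have e2 : z1 * y = (x⁻¹ * x' * z1') * y' := by
          calc z1 * y = x⁻¹ * (x * (z1 * y)) := by group
            _ = x⁻¹ * (x' * (z1' * y')) := by rw [e1]
            _ = (x⁻¹ * x' * z1') * y' := by group
        have h3 := ih r t z1 (x⁻¹ * x' * z1') y y' h1 (w1 k r t z1' _ hh h1').1 hy hy' e2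
        have e3 : (x * z1)⁻¹ * (x' * z1') = z1⁻¹ * (x⁻¹ * x' * z1') := by group
        rw [e3]
        exact h3

end Pool.Agent.Lib.MPb6f35e.TT.LL2

/-! ## Module LL2/CHS -/

/-! # folder LL2, module CHS: chains of states (helper21) -/

set_option autoImplicit false

namespace Pool.Agent.Lib.MPb6f35e.TT.LL2

open Matrix Pool.Agent.Lib.MPb6f35e.TT.UV Pool.Agent.Lib.MPb6f35e.TT.AU Pool.Agent.Lib.MPb6f35e.TT.RO
open Pool.Agent.Lib.MPb6f35e.TT.ROK Pool.Agent.Lib.MPb6f35e.TT.LL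

namespace CHSM

section

variable {G V : Type} [Group G] [MulAction G V] {d : V → V → ℕ}

/-- the path condition of a step -/
theorem stepBt (hd : TM G d) {x y p : V} {u : G} (hne : x ≠ y) (hb : d y p = d y x + d x p)
    (hux : u • x = y) (huy : u • y = x) : d p (u • p) = d p y + d y (u • p) := by
  have h1 : d x (u • p) = d x y + d y (u • p) := by
    have e1 := hd.iso u y p
    have e2 := hd.iso u y x
    have e3 := hd.iso u x p
    rw [huy] at e1 e2
    rw [hux] at e2 e3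
    omega
  have h2 := (specTFA G V d hd).2.1 x y (u • p) p hne h1 hb
  have c1 := hd.cm (u • p) p
  have c2 := hd.cm (u • p) y
  have c3 := hd.cm p y
  omega

/-- the path condition of the first state -/
theorem firstBt (hd : TM G d) {x1 x2 q : V} {y y' k k' : G} (hne : x1 ≠ x2)
    (hq : d x1 q = d x1 x2 + d x2 q) (hy : d x2 (y • x2) = d x2 x1 + d x1 (y • x2))
    (hk1 : k • x1 = x1) (hk2 : k • x2 = x2) (hk'2 : k' • x2 = x2)
    (he : y' = k * y * k') (hyx : (y' * y') • x1 = x1) (hyq : (y' * y') • q = q) :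
    d q (y' • q) = d q x1 + d x1 (y' • q) := by
  have hp : y' • x2 = k • (y • x2) := by
    rw [he, mul_smul, mul_smul, hk'2]
  have hb : d x2 (y' • x2) = d x2 x1 + d x1 (y' • x2) := by
    have e1 := hd.iso k x2 (y • x2)
    have e2 := hd.iso k x1 (y • x2)
    rw [hk2] at e1
    rw [hk1] at e2
    rw [hp]
    omega
  have hyy2 : (y' * y') • x2 = x2 := (specTFA G V d hd).1 (y' * y') x1 x2 q hq hyx hyq
  rw [mul_smul] at hyy2
  -- `y'` applied to the two paths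
  have ha1 : d (y' • x1) (y' • q) = d (y' • x1) (y' • x2) + d (y' • x2) (y' • q) := by
    rw [hd.iso, hd.iso, hd.iso]
    exact hq
  have ha2 : d (y' • x2) x2 = d (y' • x2) (y' • x1) + d (y' • x1) x2 := by
    have e1 := hd.iso y' x2 (y' • x2)
    have e2 := hd.iso y' x2 x1
    have e3 := hd.iso y' x1 (y' • x2)
    rw [hyy2] at e1 e3
    omega
  have hne' : y' • x1 ≠ y' • x2 := by
    intro h
    exact hne (MulAction.injective y' h)
  have ht1 := (specTFA G V d hd).2.1 x1 x2 q (y' • x2) hne hq hb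
  have ht2 := (specTFA G V d hd).2.1 (y' • x1) (y' • x2) (y' • q) x2 hne' ha1 ha2
  have hne'' : x2 ≠ y' • x2 := by
    intro h
    have e1 := (hd.d0 x2 (y' • x2)).2 h
    have e2 : d x2 x1 = 0 := by omega
    exact hne ((hd.d0 x2 x1).1 e2).symm
  have c1 := hd.cm x2 (y' • x2)
  have c2 := hd.cm (y' • q) x2
  have c3 := hd.cm (y' • q) (y' • x2)
  have c4 := hd.cm q (y' • x2)
  have c5 := hd.cm x2 q
  have hf1 : d x2 (y' • q) = d x2 (y' • x2) + d (y' • x2) (y' • q) := by omega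
  have hf2 : d (y' • x2) q = d (y' • x2) x2 + d x2 q := by omega
  have ht3 := (specTFA G V d hd).2.1 x2 (y' • x2) (y' • q) q hne'' hf1 hf2
  have c6 := hd.cm (y' • q) q
  have c7 := hd.cm x2 x1
  have t1 := hd.tri q x2 x1
  have t2 := hd.tri x1 (y' • x2) (y' • q)
  have t3 := hd.tri q x1 (y' • q)
  omega

theorem self_dc (K : Subgroup G) (x : G) : x ∈ dc K x :=
  ⟨1, K.one_mem, 1, K.one_mem, by group⟩

/-- an exchanging element normalizes the stabilizer of the pair -/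
theorem ns_of {x y : V} {u : G} (hux : u • x = y) (huy : u • y = x) :
    Ns (MulAction.stabilizer G x ⊓ MulAction.stabilizer G y) u := by
  have i1 : u⁻¹ • x = y := by rw [inv_smul_eq_iff, huy]
  have i2 : u⁻¹ • y = x := by rw [inv_smul_eq_iff, hux]
  intro h hh
  rw [Subgroup.mem_inf, MulAction.mem_stabilizer_iff, MulAction.mem_stabilizer_iff] at hh
  obtain ⟨a, b⟩ := hh
  refine ⟨?_, ?_⟩
  · rw [Subgroup.mem_inf, MulAction.mem_stabilizer_iff, MulAction.mem_stabilizer_iff]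
    constructor
    · rw [mul_smul, mul_smul, i1, b, huy]
    · rw [mul_smul, mul_smul, i2, a, hux]
  · rw [Subgroup.mem_inf, MulAction.mem_stabilizer_iff, MulAction.mem_stabilizer_iff]
    constructor
    · rw [mul_smul, mul_smul, hux, b, i2]
    · rw [mul_smul, mul_smul, huy, a, i1]

/-- the stabilizer of a longer pair is smaller -/
theorem le_of (hd : TM G d) {x y z : V} (h : d x z = d x y + d y z) :
    MulAction.stabilizer G x ⊓ MulAction.stabilizer G z ≤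
      MulAction.stabilizer G x ⊓ MulAction.stabilizer G y := by
  intro g hg
  rw [Subgroup.mem_inf, MulAction.mem_stabilizer_iff, MulAction.mem_stabilizer_iff] at hg ⊢
  exact ⟨hg.1, (specTFA G V d hd).1 g x y z h hg.1 hg.2⟩

end

end CHSM

end Pool.Agent.Lib.MPb6f35e.TT.LL2

/-! ## Module LL2/CLN -/

/-! # folder LL2, module CLN: all pairs of the class `P` (helper51) -/

set_option autoImplicit false

namespace Pool.Agent.Lib.MPb6f35e.TT.LL2

open Matrix Pool.Agent.Lib.MPb6f35e.TT.UV Pool.Agent.Lib.MPb6f35e.TT.AU Pool.Agent.Lib.MPb6f35e.TT.RO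
open Pool.Agent.Lib.MPb6f35e.TT.ROK Pool.Agent.Lib.MPb6f35e.TT.LL

namespace CLNM

section

variable {G V : Type} [Group G] [MulAction G V] {d : V → V → ℕ} {L : Subgroup G}
  {X1 X2 Yp Ym : Set G} {x1 x2 : V}

/-- the group of the data is the common stabilizer of the ends -/
theorem stab (hg : Geo d L X1 X2 ∅ x1 x2) :
    L = MulAction.stabilizer G x1 ⊓ MulAction.stabilizer G x2 := by
  ext a
  rw [Subgroup.mem_inf, MulAction.mem_stabilizer_iff, MulAction.mem_stabilizer_iff]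
  exact hg.st a

theorem mv1 (hT : TM G d) (hg : Geo d L X1 X2 ∅ x1 x2) {g : G} (hg1 : g ∈ X1) :
    d x1 (g • x1) = d x1 x2 + d x2 (g • x1) := by
  have z1 : d x1 x1 = 0 := (hT.d0 x1 x1).2 rfl
  exact hg.mv false true g x1 hg1 (show d x2 x1 = d x2 x1 + d x1 x1 by rw [z1, add_zero])

theorem mv2 (hT : TM G d) (hg : Geo d L X1 X2 ∅ x1 x2) {f : G} (hf2 : f ∈ X2) :
    d x2 (f • x2) = d x2 x1 + d x1 (f • x2) := by
  have z2 : d x2 x2 = 0 := (hT.d0 x2 x2).2 rfl
  exact hg.mv true false f x2 hf2 (show d x1 x2 = d x1 x2 + d x2 x2 by rw [z2, add_zero])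

theorem sub2 (P : PPK L X1 X2 ∅ Yp Ym) {y : G} (hy : y ∈ X2) : ∀ z ∈ D2 L y, z ∈ X2 := by
  have h : ∀ x ∈ X2, ∀ y ∈ dc L x, y ∈ X2 := by
    rintro x hx y ⟨a, ha, b, hb, rfl⟩
    exact P.X2r b hb _ (P.X2l a ha x hx)
  rintro z (hz | hz)
  · exact h y hy z hz
  · exact h _ (P.X2i y hy) z hz

variable {R : Type} [Ring R] [StarRing R]

/-- the claims for all indices give `SE` -/
theorem se_of (h : ∀ N : ℕ, 1 ≤ N → Cl R G d N x1 x2) : SE R G d x1 x2 := by
  intro L g Xb Yp Ym P hg _ _ ε n ψ χ hψ hχ hν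
  obtain ⟨N, hN⟩ := hν
  refine h (N + 1) (by omega) L (La L g) Xb Yp Ym P hg ε n ψ χ hψ hχ ?_
  rw [pow_succ, hN, zero_mul]

end

end CLNM

end Pool.Agent.Lib.MPb6f35e.TT.LL2

/-! ## Module LL2/SPC -/

/-!
# Short chains (MP_8a3537_gt, folder LL2), module SPC: good pairs of flips (helper45)
-/

set_option autoImplicit false

namespace Pool.Agent.Lib.MPb6f35e.TT.LL2

open Matrix Pool.Agent.Lib.MPb6f35e.TT.UV Pool.Agent.Lib.MPb6f35e.TT.AU Pool.Agent.Lib.MPb6f35e.TT.RO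
open Pool.Agent.Lib.MPb6f35e.TT.ROK Pool.Agent.Lib.MPb6f35e.TT.LL

namespace SPCM

section Sets

variable {G : Type} [Group G] {L : Subgroup G}

/-- If `x x ∈ L` then `D2 L x` is `dc L x`. -/
theorem D2_dc {x y : G} (hxx : x * x ∈ L) (hy : y ∈ D2 L x) : y ∈ dc L x := by
  rcases hy with hy | hy
  · exact hy
  · exact SGSM.dc_trans (RO.ELMAux.dc_inv L x hxx
      ⟨1, L.one_mem, 1, L.one_mem, by rw [one_mul, mul_one]⟩) hy

theorem D2_mono {x z y : G} (h : x ∈ dc L z) (hy : y ∈ D2 L x) : y ∈ D2 L z := by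
  rcases hy with hy | hy
  · exact Or.inl (SGSM.dc_trans h hy)
  · exact Or.inr (SGSM.dc_trans (SGSM.dc_inv_inv h) hy)

end Sets

section Geometry

variable {R G V : Type} [Ring R] [StarRing R] [Group G] [MulAction G V] {d : V → V → ℕ}

theorem eqL {L : Subgroup G} {X1 X2 : Set G} {x1 x2 : V} (hg : Geo d L X1 X2 ∅ x1 x2) :
    L = MulAction.stabilizer G x1 ⊓ MulAction.stabilizer G x2 := by
  ext a
  rw [Subgroup.mem_inf, MulAction.mem_stabilizer_iff, MulAction.mem_stabilizer_iff]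
  exact hg.st a

theorem mv1 (hT : TM G d) {L : Subgroup G} {X1 X2 : Set G} {x1 x2 : V}
    (hg : Geo d L X1 X2 ∅ x1 x2) {x : G} (hx : x ∈ X1) :
    d x1 (x • x1) = d x1 x2 + d x2 (x • x1) := by
  have z1 : d x1 x1 = 0 := (hT.d0 x1 x1).2 rfl
  exact hg.mv false true x x1 hx (show d x2 x1 = d x2 x1 + d x1 x1 by rw [z1, add_zero])

/-- The stabilizer of `x1`, `x • x1` is contained in that of `x1`, `x2`. -/
theorem le1 (hT : TM G d) {x1 x2 : V} {x : G} (hm : d x1 (x • x1) = d x1 x2 + d x2 (x • x1)) :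
    MulAction.stabilizer G x1 ⊓ MulAction.stabilizer G (x • x1) ≤
      MulAction.stabilizer G x1 ⊓ MulAction.stabilizer G x2 := by
  intro g hg
  rw [Subgroup.mem_inf, MulAction.mem_stabilizer_iff, MulAction.mem_stabilizer_iff] at hg ⊢
  exact ⟨hg.1, (ROK.specTFA G V d hT).1 g x1 x2 (x • x1) hm hg.1 hg.2⟩

theorem sq1 {x1 x2 : V} {x : G}
    (hxx : x * x ∈ MulAction.stabilizer G x1 ⊓ MulAction.stabilizer G x2) :
    x • x • x1 = x1 ∧ x * x ∈ MulAction.stabilizer G x1 ⊓ MulAction.stabilizer G (x • x1) := by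
  rw [Subgroup.mem_inf, MulAction.mem_stabilizer_iff, MulAction.mem_stabilizer_iff] at hxx
  have h1 : x • x • x1 = x1 := by rw [← mul_smul]; exact hxx.1
  refine ⟨h1, ?_⟩
  rw [Subgroup.mem_inf, MulAction.mem_stabilizer_iff, MulAction.mem_stabilizer_iff]
  refine ⟨hxx.1, ?_⟩
  rw [mul_smul, h1]

/-- `SP` for `y` from `SP` for a flip in the coset of `y`. -/
theorem sp_mono {N : ℕ} {x1 x2 : V} {x y k : G} (h : SP R G d N x1 x2 x (y * k))
    (hk : k ∈ MulAction.stabilizer G x1 ⊓ MulAction.stabilizer G x2)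
    (hy : y ∈ dc (MulAction.stabilizer G x1 ⊓ MulAction.stabilizer G x2) (y * k)) :
    SP R G d N x1 x2 x y := by
  intro L X1 X2 Yp Ym P hg hx1 hy2 ε n ψ χ hψ hχ hν
  have hL := eqL hg
  rw [← hL] at hk hy
  exact h L X1 X2 Yp Ym P hg hx1 (P.X2r k hk y hy2) ε n ψ χ hψ
    (fun i j z hz => D2_mono hy (hχ i j z hz)) hν

end Geometry

end SPCM

end Pool.Agent.Lib.MPb6f35e.TT.LL2
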