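import Pool.Agent.Lib.MP_b6f35e_al.TT.A1
import Pool.Agent.Lib.MP_b6f35e_al.TT.K2
import Pool.Agent.Lib.MP_b6f35e_al.TT.L1
import Pool.Agent.Lib.MP_b6f35e_al.TT.L2
import Pool.Agent.Lib.MP_b6f35e_al.TT.R1
import Pool.Agent.Lib.MP_b6f35e_al.TT.R2

/-! # Modules for Theorem DT (MP_b6f35e_al, Q2): classes of forms, part 2 (copies of modules of MP_8a3537_gt, without the
conditions on elements of order two) -/

/-! ## Module AR/NW -/

/-!
# Classes of forms (MP_8a3537_gt, folder AR): no flips (copy of RO/NWC, RO/NWT)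
-/

set_option autoImplicit false
set_option linter.unusedSectionVars false
set_option linter.unusedSimpArgs false

namespace Pool.Agent.Lib.MPb6f35e.TT.AR

open Matrix Pool.Agent.Lib.MPb6f35e.TT.UV Pool.Agent.Lib.MPb6f35e.TT.AU Pool.Agent.Lib.MPb6f35e.TT.RO
open Pool.Agent.Lib.MPb6f35e.TT.ROK Pool.Agent.Lib.MPb6f35e.TT.LL

/-! ## From `RO/NWC.lean` -/

open Matrix Pool.Agent.Lib.MPb6f35e.TT.UV Pool.Agent.Lib.MPb6f35e.TT.AU
open SWPP

namespace NWCMP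

variable {A : Type} [Ring A] [StarRing A] [FC A] {ε : ℤˣ} {n : ℕ}

theorem base (m q : Matrix (Fin n) (Fin n) A) (hm : IsUnit (1 + m)) :
    SS ε (fromBlocks 0 (1 + m) 0 q) := by
  obtain ⟨⟨a, w, h1, h2⟩, ha⟩ := hm
  simp only at ha
  subst ha
  refine SWPP.stab_of_isom (Φ := UF (0 : Matrix (Fin n) (Fin n) A) 0 0) ?_ (SWPP.trivial_form n)
  refine ⟨fromBlocks 1 (-(wᴴ * q * w)ᴴ) 0 w, fromBlocks 1 ((wᴴ * q * w)ᴴ * (1 + m)) 0 (1 + m), 0, ?_, ?_, ?_⟩
  · rw [fromBlocks_multiply]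
    simp [h2, fromBlocks_one]
  · rw [fromBlocks_multiply]
    simp [h1, Matrix.mul_assoc, fromBlocks_one]
  · unfold UF
    rw [fromBlocks_conjTranspose, fromBlocks_multiply, fromBlocks_multiply]
    simp only [Matrix.conjTranspose_one, Matrix.conjTranspose_zero, Matrix.conjTranspose_neg,
      Matrix.conjTranspose_conjTranspose, Matrix.mul_zero, Matrix.zero_mul, Matrix.mul_one, Matrix.one_mul,
      add_zero, zero_add, smul_zero, sub_zero, h1, Matrix.neg_mul]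
    congr 1
    simp [Matrix.mul_assoc, h2]

theorem step (p m q : Matrix (Fin n) (Fin n) A) :
    Isometric ε (fromBlocks p (1 + m) 0 q)
      (fromBlocks (-(m * p) + pᴴ * q * p) (1 + (m - pᴴ * q - (ε : ℤ) • (pᴴ * qᴴ))) 0 q) := by
  refine ⟨fromBlocks 1 0 (-p) 1, fromBlocks 1 0 p 1, fromBlocks 0 0 (q * p) 0, ?_, ?_, ?_⟩
  · rw [fromBlocks_multiply]
    simp [fromBlocks_one]
  · rw [fromBlocks_multiply]
    simp [fromBlocks_one]
  · rw [fromBlocks_conjTranspose, fromBlocks_conjTranspose, fromBlocks_multiply, fromBlocks_multiply,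
      fromBlocks_smul, fromBlocks_add, eq_sub_iff_add_eq, fromBlocks_add]
    simp only [Matrix.conjTranspose_one, Matrix.conjTranspose_zero, Matrix.conjTranspose_neg,
      Matrix.conjTranspose_mul, Matrix.mul_zero, Matrix.zero_mul, Matrix.mul_one, Matrix.one_mul,
      add_zero, zero_add, smul_zero, Matrix.neg_mul, Matrix.mul_neg, Matrix.add_mul,
      Matrix.mul_add, Matrix.mul_assoc]
    congr 1
    · abel
    · abel
    · abel

theorem pow_mem {E : ℕ → Bool → Bool → AddSubgroup (Matrix (Fin n) (Fin n) A)} {N : ℕ} (hE : EFam E N)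
    {m : Matrix (Fin n) (Fin n) A} (hm : m ∈ E 1 false false) (i : ℕ) : m ^ (i + 1) ∈ E (i + 1) false false := by
  induction i with
  | zero => simpa using hm
  | succ i ih =>
    rw [pow_succ]
    exact hE.mul (i + 1) 1 false false false _ _ ih hm

theorem main {E : ℕ → Bool → Bool → AddSubgroup (Matrix (Fin n) (Fin n) A)} {N : ℕ} (hE : EFam E N) (d : ℕ) :
    ∀ k : ℕ, 1 ≤ k → N ≤ k + d → ∀ p ∈ E k false true, ∀ m ∈ E 1 false false, ∀ q ∈ E 1 true false,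
      SS ε (fromBlocks p (1 + m) 0 q) := by
  induction d with
  | zero =>
    intro k _ hkN p hp m hm q _
    have hp0 : p = 0 := hE.zero _ _ p (hE.mono N k false true (by omega) hp)
    have hnil : IsNilpotent m := by
      refine ⟨N + 1, hE.zero false false _ ?_⟩
      exact hE.mono N (N + 1) false false (by omega) (pow_mem hE hm N)
    rw [hp0]
    exact base m q hnil.isUnit_one_add
  | succ d ih =>
    intro k hk hkN p hp m hm q hq
    refine SWPP.stab_of_isom (step p m q) ?_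
    have hps : pᴴ ∈ E k false true := by simpa using hE.star k false true p hp
    have hqs : qᴴ ∈ E 1 true false := by simpa using hE.star 1 true false q hq
    have h1 : m * p ∈ E (1 + k) false true := hE.mul 1 k false false true m p hm hp
    have h2 : pᴴ * q ∈ E (k + 1) false false := hE.mul k 1 false true false _ _ hps hq
    have h3 : pᴴ * qᴴ ∈ E (k + 1) false false := hE.mul k 1 false true false _ _ hps hqs
    have h4 : pᴴ * q * p ∈ E (k + 1 + k) false true := hE.mul (k + 1) k false false true _ _ h2 hp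
    refine ih (k + 1) (by omega) (by omega) _ ?_ _ ?_ q hq
    · refine add_mem (neg_mem ?_) (hE.mono (k + 1) (k + 1 + k) false true (by omega) h4)
      rw [add_comm k 1]
      exact h1
    · have h2' := hE.mono 1 (k + 1) false false (by omega) h2
      have h3' := hE.mono 1 (k + 1) false false (by omega) h3
      exact sub_mem (sub_mem hm h2') (AddSubgroup.zsmul_mem _ h3' _)

end NWCMP

theorem specNWC : SpecNWC := by
  intro A _ _ _ ε n N E hE p hp m hm q hq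
  exact NWCMP.main hE N 1 le_rfl (by omega) p hp m hm q hq


/-! ## From `RO/NWT.lean` -/

open Matrix Pool.Agent.Lib.MPb6f35e.TT.UV Pool.Agent.Lib.MPb6f35e.TT.AU

namespace NWTAuxP

variable {R G : Type} [Ring R] [StarRing R] [Group G]

theorem flip_inv {H : Subgroup G} {x : G} (h : Flip H x) : Flip H x⁻¹ := by
  obtain ⟨a, ha, b, hb, hx⟩ := h
  refine ⟨a⁻¹, H.inv_mem ha, b⁻¹, H.inv_mem hb, ?_⟩
  rw [inv_inv, hx]
  group

theorem coeff_sym {n : ℕ} (ε : ℤ) (ψ : Matrix (Fin n) (Fin n) (MonoidAlgebra R G))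
    (i j : Fin n) (x : G) :
    ((ψ + ε • ψᴴ) i j).coeff x = (ψ i j).coeff x + ε • star ((ψ j i).coeff x⁻¹) := by
  rw [Matrix.add_apply, Matrix.smul_apply, Matrix.conjTranspose_apply, MonoidAlgebra.coeff_add,
    Finsupp.add_apply, TATAux.coeff_smul_star]

theorem sym_symm {A : Type} [Ring A] [StarRing A] {n : ℕ} (ε : ℤˣ) (ψ : Matrix (Fin n) (Fin n) A) :
    ψ + (ε : ℤ) • ψᴴ = (ε : ℤ) • (ψ + (ε : ℤ) • ψᴴ)ᴴ := by
  rcases Int.units_eq_one_or ε with h | h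
  · simp [h, add_comm]
  · simp [h, add_comm]

/-- One of the two sides. -/
theorem side (hHLF : SpecHLF) {H : Subgroup G} {X : Set G} (hi : ∀ x ∈ X, x⁻¹ ∈ X)
    (ε : ℤˣ) {n : ℕ} (ψ : Matrix (Fin n) (Fin n) (MonoidAlgebra R G))
    (hψ : SuppIn X ψ) (hf : ∀ i j x, (ψ i j).coeff x ≠ 0 → ¬ Flip H x) :
    SuppIn X (ψ + (ε : ℤ) • ψᴴ) ∧ ∃ c : Set G, Bi H c ∧
      ∃ c0 : Matrix (Fin n) (Fin n) (MonoidAlgebra R G),
        ψ = cutM c (ψ + (ε : ℤ) • ψᴴ) + c0 - (ε : ℤ) • c0ᴴ := by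
  have key : ∀ i j x, ((ψ + (ε : ℤ) • ψᴴ) i j).coeff x ≠ 0 →
      (ψ i j).coeff x ≠ 0 ∨ (ψ j i).coeff x⁻¹ ≠ 0 := by
    intro i j x h
    by_contra hc
    push Not at hc
    apply h
    rw [coeff_sym, hc.1, hc.2, star_zero, smul_zero, add_zero]
  have h1 : SuppIn X (ψ + (ε : ℤ) • ψᴴ) := by
    intro i j x h
    rcases key i j x h with h2 | h2
    · exact hψ i j x h2
    · have h3 := hi _ (hψ j i x⁻¹ h2)
      rwa [inv_inv] at h3
  refine ⟨h1, ?_⟩
  have h2 : ∀ i j x, ((ψ + (ε : ℤ) • ψᴴ) i j).coeff x ≠ 0 → ¬ Flip H x := by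
    intro i j x h
    rcases key i j x h with h3 | h3
    · exact hf i j x h3
    · exact fun h4 => hf j i x⁻¹ h3 (flip_inv h4)
  obtain ⟨c, hc, hac⟩ := hHLF R G H ε n (ψ + (ε : ℤ) • ψᴴ) (sym_symm ε ψ) h2
  refine ⟨c, hc, ?_⟩
  have h3 : SuppIn {x | x ∈ X ∧ ¬ Flip H x} (ψ - cutM c (ψ + (ε : ℤ) • ψᴴ)) := by
    intro i j x h
    by_contra hx
    apply h
    have h4 : (ψ i j).coeff x = 0 := by
      by_contra h5
      exact hx ⟨hψ i j x h5, hf i j x h5⟩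
    have h6 : ((ψ + (ε : ℤ) • ψᴴ) i j).coeff x = 0 := by
      by_contra h5
      exact hx ⟨h1 i j x h5, h2 i j x h5⟩
    rw [Matrix.sub_apply, MonoidAlgebra.coeff_sub, Finsupp.sub_apply, h4]
    unfold cutM
    rw [Matrix.map_apply, cut_coeff, h6, ite_self, sub_zero]
  have h4 : ψ - cutM c (ψ + (ε : ℤ) • ψᴴ) =
      ((-ε : ℤˣ) : ℤ) • (ψ - cutM c (ψ + (ε : ℤ) • ψᴴ))ᴴ := by
    rw [Units.val_neg, neg_smul, conjTranspose_sub, smul_sub, neg_sub]
    rw [sub_eq_sub_iff_add_eq_add, add_comm ((ε : ℤ) • (cutM c (ψ + (ε : ℤ) • ψᴴ))ᴴ), ← hac]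
  have hi' : ∀ x ∈ {x | x ∈ X ∧ ¬ Flip H x}, x⁻¹ ∈ {x | x ∈ X ∧ ¬ Flip H x} := by
    rintro x ⟨hx, hx'⟩
    refine ⟨hi x hx, fun h => hx' ?_⟩
    have := flip_inv h
    rwa [inv_inv] at this
  have hn' : ∀ x ∈ {x | x ∈ X ∧ ¬ Flip H x}, x⁻¹ ≠ x := by
    rintro x ⟨-, hx'⟩ e
    exact hx' ⟨1, H.one_mem, 1, H.one_mem, by rw [e, one_mul, mul_one]⟩
  obtain ⟨c0, -, hc0⟩ := specTat R G _ (-ε) n _ hi' hn' h3 h4
  refine ⟨c0, ?_⟩
  rw [Units.val_neg, neg_smul, ← sub_eq_add_neg] at hc0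
  rw [add_sub_assoc, ← hc0]
  abel

theorem cutM_zsmul {n : ℕ} (c : Set G) (ε : ℤ) (b : Matrix (Fin n) (Fin n) (MonoidAlgebra R G)) :
    cutM c (ε • b) = ε • cutM c b := by
  classical
  unfold cutM
  ext i j x
  rw [Matrix.map_apply, Matrix.smul_apply, Matrix.smul_apply, Matrix.map_apply, cut_coeff,
    MonoidAlgebra.coeff_smul, MonoidAlgebra.coeff_smul, Finsupp.smul_apply, Finsupp.smul_apply,
    cut_coeff]
  split_ifs
  · rfl
  · rw [smul_zero]

end NWTAuxP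

open NWTAuxP

theorem specNWT (hEFA : SpecEFA) (hNWC : SpecNWC) (hHLF : SpecHLF) : SpecNWT := by
  intro R G _ _ _ _ H X1 X2 X3 Yp Ym hP ε n ψ μ χ hψ hμ hχ hnil hf1 hf2
  obtain ⟨ha, c, hc, c0, hψc⟩ := side hHLF hP.X1i ε ψ hψ hf1
  obtain ⟨hb, c', hc', d0, hχc⟩ := side hHLF hP.X2i ε χ hχ hf2
  obtain ⟨N, hN⟩ := hnil
  obtain ⟨hE, hlet, hblk⟩ := hEFA R G H X1 X2 X3 Yp Ym hP ε n (ψ + (ε : ℤ) • ψᴴ) μ
    (χ + (ε : ℤ) • χᴴ) ha hμ hb (sym_symm ε ψ) (sym_symm ε χ) N hN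
  have h1 : cutM c (ψ + (ε : ℤ) • ψᴴ) ∈
      EE H (nu ε (ψ + (ε : ℤ) • ψᴴ) μ (χ + (ε : ℤ) • χᴴ)) 1 false true := hlet false true c hc
  have h2 : μᴴ ∈ EE H (nu ε (ψ + (ε : ℤ) • ψᴴ) μ (χ + (ε : ℤ) • χᴴ)) 1 false false :=
    hblk false false
  have h3 : cutM c' ((ε : ℤ) • (χ + (ε : ℤ) • χᴴ)) ∈
      EE H (nu ε (ψ + (ε : ℤ) • ψᴴ) μ (χ + (ε : ℤ) • χᴴ)) 1 true false := hlet true false c' hc'
  have h4 : cutM c' (χ + (ε : ℤ) • χᴴ) ∈
      EE H (nu ε (ψ + (ε : ℤ) • ψᴴ) μ (χ + (ε : ℤ) • χᴴ)) 1 true false := by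
    rw [cutM_zsmul] at h3
    have h5 := AddSubgroup.zsmul_mem _ h3 (ε : ℤ)
    rw [smul_smul] at h5
    have h6 : (ε : ℤ) * (ε : ℤ) = 1 := by
      rcases Int.units_eq_one_or ε with h | h <;> simp [h]
    rwa [h6, one_smul] at h5
  have h5 : SS ε
      (UF (cutM c (ψ + (ε : ℤ) • ψᴴ)) μ (cutM c' (χ + (ε : ℤ) • χᴴ))) :=
    hNWC (MonoidAlgebra R G) ε n N _ hE _ h1 _ h2 _ h4
  have h6 := (specSwpP (MonoidAlgebra R G) ε n _ μ _).2.1 c0 d0 h5
  rwa [← hψc, ← hχc] at h6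


end Pool.Agent.Lib.MPb6f35e.TT.AR

/-! ## Module AR/STP -/

/-!
# Classes of forms (MP_8a3537_gt, folder AR): the Newton step, removal of the flips, data (copy of ROK/NEI, STY, RMV, MNK)
-/

set_option autoImplicit false
set_option linter.unusedSectionVars false
set_option linter.unusedSimpArgs false

namespace Pool.Agent.Lib.MPb6f35e.TT.AR

open Matrix Pool.Agent.Lib.MPb6f35e.TT.UV Pool.Agent.Lib.MPb6f35e.TT.AU Pool.Agent.Lib.MPb6f35e.TT.RO
open Pool.Agent.Lib.MPb6f35e.TT.ROK Pool.Agent.Lib.MPb6f35e.TT.LL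

/-! ## From `ROK/NEI.lean` -/

open Matrix Pool.Agent.Lib.MPb6f35e.TT.UV Pool.Agent.Lib.MPb6f35e.TT.AU Pool.Agent.Lib.MPb6f35e.TT.RO

namespace NEIAuxP

variable {A : Type} [Ring A] [StarRing A]

theorem ee (ε : ℤˣ) {M N : Type} (X : Matrix M N A) : (ε : ℤ) • (ε : ℤ) • X = X := by
  rcases Int.units_eq_one_or ε with h | h <;> simp [h]

theorem es (ε : ℤˣ) {M N : Type} (X : Matrix M N A) : ((ε : ℤ) • X)ᴴ = (ε : ℤ) • Xᴴ := by
  rcases Int.units_eq_one_or ε with h | h <;> simp [h]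

theorem geo {n N : ℕ} (x : Matrix (Fin n) (Fin n) A) (hx : x ^ N = 0) :
    (1 - x) * (∑ i ∈ Finset.range N, x ^ i) = 1 ∧
      (∑ i ∈ Finset.range N, x ^ i) * (1 - x) = 1 := by
  constructor
  · rw [mul_neg_geom_sum, hx, sub_zero]
  · rw [geom_sum_mul_neg, hx, sub_zero]

theorem eps_pow (ε : ℤˣ) {n N : ℕ} (x : Matrix (Fin n) (Fin n) A) (hx : x ^ N = 0) :
    ((ε : ℤ) • x) ^ N = 0 := by
  rcases Int.units_eq_one_or ε with h | h
  · simp [h, hx]
  · simp only [h, Units.val_neg, Units.val_one, neg_smul, one_smul]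
    rw [neg_pow, hx, mul_zero]

/-- `(ψ, V; 0, 0)` is hyperbolic if `V` is invertible. -/
theorem iso1 (ε : ℤˣ) {n : ℕ} (ψ V T : Matrix (Fin n) (Fin n) A) (h1 : V * T = 1)
    (h2 : T * V = 1) :
    Isometric ε (fromBlocks ψ V 0 0) (UF (0 : Matrix (Fin n) (Fin n) A) 0 0) := by
  refine ⟨fromBlocks 1 0 (-(T * ψ)) T, fromBlocks 1 0 ψ V, 0, ?_, ?_, ?_⟩
  · rw [fromBlocks_multiply]
    simp [h2, Matrix.one_mul, fromBlocks_one]
  · rw [fromBlocks_multiply]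
    have h3 : V * (T * ψ) = ψ := by rw [← Matrix.mul_assoc, h1, Matrix.one_mul]
    simp [h1, h3, fromBlocks_one]
  · have h3 : V * (T * ψ) = ψ := by rw [← Matrix.mul_assoc, h1, Matrix.one_mul]
    unfold UF
    rw [fromBlocks_conjTranspose, Matrix.mul_assoc, fromBlocks_multiply, fromBlocks_multiply]
    simp [h1, h3]

/-- `(ψ, 1; 0, q)` and `(ψ, V; 0, q ψ q^*)`. -/
theorem iso2 (ε : ℤˣ) {n : ℕ} (ψ q V : Matrix (Fin n) (Fin n) A)
    (hV : V = 1 - (ψ + (ε : ℤ) • ψᴴ) * qᴴ) :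
    Isometric ε (UF ψ 0 q) (fromBlocks ψ V 0 (q * ψ * qᴴ)) := by
  refine ⟨fromBlocks 1 (-qᴴ) 0 1, fromBlocks 1 qᴴ 0 1, fromBlocks 0 0 (q * ψ) 0, ?_, ?_, ?_⟩
  · rw [fromBlocks_multiply]
    simp [fromBlocks_one]
  · rw [fromBlocks_multiply]
    simp [fromBlocks_one]
  · unfold UF
    rw [fromBlocks_conjTranspose, Matrix.mul_assoc, fromBlocks_multiply, fromBlocks_multiply,
      fromBlocks_conjTranspose, fromBlocks_smul, fromBlocks_add, sub_eq_add_neg,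
      fromBlocks_neg, fromBlocks_add]
    congr 1
    · simp
    · rw [hV]
      simp only [conjTranspose_one, conjTranspose_zero, conjTranspose_mul, Matrix.one_mul,
        Matrix.mul_one, Matrix.zero_mul, Matrix.mul_zero, Matrix.mul_neg, Matrix.add_mul,
        Matrix.smul_mul, add_zero, zero_add]
      abel
    · simp
    · simp only [conjTranspose_one, conjTranspose_zero, conjTranspose_neg,
        conjTranspose_conjTranspose, Matrix.one_mul, Matrix.mul_one, Matrix.zero_mul,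
        Matrix.mul_zero, Matrix.mul_neg, Matrix.neg_mul, Matrix.mul_add, add_zero, zero_add,
        smul_zero, neg_zero, neg_neg, neg_add_rev, Matrix.mul_assoc]
      abel

end NEIAuxP

open NEIAuxP

theorem specNEI (hSCH : SpecSCH) : SpecNEI := by
  intro A _ _ _ ε n N ψ q hN hst
  set a : Matrix (Fin n) (Fin n) A := ψ + (ε : ℤ) • ψᴴ with hadef
  have ha : aᴴ = (ε : ℤ) • a := by
    rw [hadef, conjTranspose_add, es, conjTranspose_conjTranspose, smul_add, ee]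
    abel
  set x : Matrix (Fin n) (Fin n) A := (ε : ℤ) • (q * a) with hxdef
  have hx : x ^ N = 0 := eps_pow ε _ hN
  obtain ⟨g1, g2⟩ := geo x hx
  set S : Matrix (Fin n) (Fin n) A := ∑ i ∈ Finset.range N, x ^ i with hSdef
  set V : Matrix (Fin n) (Fin n) A := (1 - x)ᴴ with hVdef
  have hVS : V * Sᴴ = 1 := by
    rw [hVdef, ← conjTranspose_mul, g2, conjTranspose_one]
  have hSV : Sᴴ * V = 1 := by
    rw [hVdef, ← conjTranspose_mul, g1, conjTranspose_one]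
  have hVH : Vᴴ = 1 - x := by rw [hVdef, conjTranspose_conjTranspose]
  have hV : V = 1 - (ψ + (ε : ℤ) • ψᴴ) * qᴴ := by
    rw [hVdef, hxdef, conjTranspose_sub, conjTranspose_one, es, conjTranspose_mul, ha,
      Matrix.smul_mul, ee]
  set Z : Matrix (Fin n) (Fin n) A := zet ε N q a with hZdef
  have hZ : Z = (ε : ℤ) • (S * q) := by
    rw [hZdef]
    unfold zet
    rfl
  refine SWPP.stab_of_isom (iso2 ε ψ q V hV) ?_
  have hΞ : (fromCols (0 : Matrix (Fin n) (Fin n) A) qᴴ)ᴴ * ψ *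
      fromCols (0 : Matrix (Fin n) (Fin n) A) qᴴ = fromBlocks 0 0 0 (q * ψ * qᴴ) := by
    rw [conjTranspose_fromCols_eq_fromRows_conjTranspose, fromRows_mul, fromRows_mul_fromCols]
    simp
  have hsum : fromBlocks ψ V 0 (q * ψ * qᴴ) = fromBlocks ψ V 0 0 +
      (fromCols (0 : Matrix (Fin n) (Fin n) A) qᴴ)ᴴ * ψ *
        fromCols (0 : Matrix (Fin n) (Fin n) A) qᴴ := by
    rw [hΞ, fromBlocks_add]
    simp
  rw [hsum]
  have hL : fromBlocks ψ V 0 0 + (ε : ℤ) • (fromBlocks ψ V 0 0)ᴴ =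
      fromBlocks a V ((ε : ℤ) • Vᴴ) 0 := by
    rw [fromBlocks_conjTranspose, fromBlocks_smul, fromBlocks_add]
    simp [hadef]
  have hY : fromBlocks 0 ((ε : ℤ) • S) Sᴴ (-((ε : ℤ) • (Sᴴ * a * S))) *
      (fromCols (0 : Matrix (Fin n) (Fin n) A) qᴴ)ᴴ = fromRows Z (-(Sᴴ * a * Z)) := by
    rw [conjTranspose_fromCols_eq_fromRows_conjTranspose, fromBlocks_mul_fromRows, hZ]
    simp [Matrix.smul_mul, Matrix.mul_smul, Matrix.mul_assoc, -zsmul_eq_mul]
  refine hSCH A ε (Fin n ⊕ Fin n) (Fin n) (fromBlocks ψ V 0 0)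
    (fromBlocks 0 ((ε : ℤ) • S) Sᴴ (-((ε : ℤ) • (Sᴴ * a * S))))
    (fromCols 0 qᴴ) ψ ?_ ?_ ?_ ?_
  · rw [hL, fromBlocks_multiply, ← fromBlocks_one]
    congr 1
    · simp [hVS]
    · have h3 : V * (Sᴴ * (a * S)) = a * S := by rw [← Matrix.mul_assoc, hVS, Matrix.one_mul]
      rw [Matrix.mul_smul, Matrix.mul_neg, Matrix.mul_smul, Matrix.mul_assoc Sᴴ, h3,
        add_neg_cancel]
    · simp
    · rw [Matrix.zero_mul, add_zero, Matrix.smul_mul, Matrix.mul_smul, ee, hVH, g1]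
  · rw [hL, fromBlocks_multiply, ← fromBlocks_one]
    congr 1
    · rw [Matrix.zero_mul, zero_add, Matrix.smul_mul, Matrix.mul_smul, ee, hVH, g2]
    · simp
    · rw [Matrix.neg_mul, Matrix.smul_mul, Matrix.mul_smul, ee, Matrix.mul_assoc, hVH, g2,
        Matrix.mul_one, add_neg_cancel]
    · simp [hSV]
  · exact SWPP.stab_of_isom (iso1 ε ψ V Sᴴ hVS hSV) (SWPP.trivial_form n)
  · rw [hY]
    set Y : Matrix (Fin n ⊕ Fin n) (Fin n) A := fromRows Z (-(Sᴴ * a * Z)) with hYdef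
    set Λ : Matrix (Fin n ⊕ Fin n) (Fin n ⊕ Fin n) A := fromBlocks ψ V 0 0 with hΛdef
    have h4 : Λ * Y = fromRows (-((ε : ℤ) • (ψᴴ * Z))) (0 : Matrix (Fin n) (Fin n) A) := by
      rw [hYdef, hΛdef, fromBlocks_mul_fromRows]
      congr 1
      · have h3 : V * (Sᴴ * (a * Z)) = a * Z := by
          rw [← Matrix.mul_assoc, hVS, Matrix.one_mul]
        rw [Matrix.mul_neg, Matrix.mul_assoc Sᴴ, h3, hadef, Matrix.add_mul, Matrix.smul_mul]
        abel
      · simp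
    have hκ : -(Yᴴ * Λ * Y) = (ε : ℤ) • (Zᴴ * ψᴴ * Z) := by
      rw [Matrix.mul_assoc, h4, hYdef, conjTranspose_fromRows_eq_fromCols_conjTranspose,
        fromCols_mul_fromRows, Matrix.mul_zero, add_zero, Matrix.mul_neg, neg_neg,
        Matrix.mul_smul, Matrix.mul_assoc]
    rw [hκ]
    have h5 := SWPP.stab_of_isom (SWPP.change (ε := ε) ψ 0 (Zᴴ * ψ * Z) 0
      ((ε : ℤ) • (Zᴴ * ψᴴ * Z))) hst
    have h6 : UF (ψ + 0 - (ε : ℤ) • (0 : Matrix (Fin n) (Fin n) A)ᴴ) 0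
        (Zᴴ * ψ * Z + (ε : ℤ) • (Zᴴ * ψᴴ * Z) - (ε : ℤ) • ((ε : ℤ) • (Zᴴ * ψᴴ * Z))ᴴ) =
        fromBlocks ψ 1 0 ((ε : ℤ) • (Zᴴ * ψᴴ * Z)) := by
      unfold UF
      rw [es, ee]
      simp only [conjTranspose_mul, conjTranspose_conjTranspose, conjTranspose_zero, smul_zero,
        add_zero, sub_zero, Matrix.mul_assoc]
      congr 1
      abel
    rw [h6] at h5
    exact h5


/-! ## From `ROK/STY.lean` -/

open Matrix Pool.Agent.Lib.MPb6f35e.TT.UV Pool.Agent.Lib.MPb6f35e.TT.AU Pool.Agent.Lib.MPb6f35e.TT.RO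

namespace STYAuxP

variable {R G : Type} [Ring R] [StarRing R] [Group G]

theorem key {n : ℕ} (ε : ℤˣ) (ψ : Matrix (Fin n) (Fin n) (MonoidAlgebra R G)) (i j : Fin n) (x : G)
    (h : ((ψ + (ε : ℤ) • ψᴴ) i j).coeff x ≠ 0) :
    (ψ i j).coeff x ≠ 0 ∨ (ψ j i).coeff x⁻¹ ≠ 0 := by
  by_contra hc
  push Not at hc
  apply h
  rw [NWTAux.coeff_sym, hc.1, hc.2, star_zero, smul_zero, add_zero]

theorem supp_sym {X : Set G} (hi : ∀ x ∈ X, x⁻¹ ∈ X) (ε : ℤˣ) {n : ℕ}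
    (ψ : Matrix (Fin n) (Fin n) (MonoidAlgebra R G)) (hψ : SuppIn X ψ) :
    SuppIn X (ψ + (ε : ℤ) • ψᴴ) := by
  intro i j x h
  rcases key ε ψ i j x h with h2 | h2
  · exact hψ i j x h2
  · have h3 := hi _ (hψ j i x⁻¹ h2)
    rwa [inv_inv] at h3

theorem nf_sym {H : Subgroup G} (ε : ℤˣ) {n : ℕ}
    (ψ : Matrix (Fin n) (Fin n) (MonoidAlgebra R G))
    (hf : ∀ i j x, (ψ i j).coeff x ≠ 0 → ¬ Flip H x) :
    ∀ i j x, ((ψ + (ε : ℤ) • ψᴴ) i j).coeff x ≠ 0 → ¬ Flip H x := by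
  intro i j x h
  rcases key ε ψ i j x h with h3 | h3
  · exact hf i j x h3
  · exact fun h4 => hf j i x⁻¹ h3 (NWTAux.flip_inv h4)

omit [StarRing R] [Group G] in
theorem supp_cut {X : Set G} (c : Set G) {n : ℕ} (b : Matrix (Fin n) (Fin n) (MonoidAlgebra R G))
    (hb : SuppIn X b) : SuppIn {x | x ∈ c ∧ x ∈ X} (cutM c b) := by
  classical
  intro i j x h
  unfold cutM at h
  rw [Matrix.map_apply, cut_coeff] at h
  by_cases hx : x ∈ c
  · rw [if_pos hx] at h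
    exact ⟨hx, hb i j x h⟩
  · rw [if_neg hx] at h
    exact absurd rfl h

omit [StarRing R] in
theorem supp_sub {X : Set G} {n : ℕ} (a b : Matrix (Fin n) (Fin n) (MonoidAlgebra R G))
    (ha : SuppIn X a) (hb : SuppIn X b) : SuppIn X (a - b) := by
  intro i j x h
  by_contra hx
  apply h
  have h4 : (a i j).coeff x = 0 := by
    by_contra h5
    exact hx (ha i j x h5)
  have h6 : (b i j).coeff x = 0 := by
    by_contra h5
    exact hx (hb i j x h5)
  rw [Matrix.sub_apply, MonoidAlgebra.coeff_sub, Finsupp.sub_apply, h4, h6, sub_zero]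

/-- the form `(ψ, 1; 0, 0)` -/
theorem sh_zero {A : Type} [Ring A] [StarRing A] [FC A] (ε : ℤˣ) {n : ℕ} (ψ : Matrix (Fin n) (Fin n) A) :
    SS ε (UF ψ 0 0) := by
  refine (specSwpP A ε n ψ 0 0).1 ?_
  unfold UF
  have h := NWCMP.base (ε := ε) (0 : Matrix (Fin n) (Fin n) A) ψ (by simp)
  simpa using h

/-- change of `χ` by `c - ε cᴴ` -/
theorem change' {A : Type} [Ring A] [StarRing A] [FC A] (ε : ℤˣ) {n : ℕ} (ψ χ d : Matrix (Fin n) (Fin n) A)
    (h : SS ε (UF ψ 0 χ)) : SS ε (UF ψ 0 (χ + d - (ε : ℤ) • dᴴ)) := by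
  have h1 := (specSwpP A ε n ψ 0 χ).2.1 0 d h
  simpa using h1

theorem eps_sq (ε : ℤˣ) : (ε : ℤ) * (ε : ℤ) = 1 := by
  rcases Int.units_eq_one_or ε with h | h <;> simp [h]

/-- `M = - ε Mᴴ` gives `M = c - ε cᴴ` -/
theorem tat' {X : Set G} (hi : ∀ x ∈ X, x⁻¹ ∈ X) (hn : ∀ x ∈ X, x⁻¹ ≠ x) (ε : ℤˣ) {n : ℕ}
    (M : Matrix (Fin n) (Fin n) (MonoidAlgebra R G)) (hM : SuppIn X M)
    (h0 : M + (ε : ℤ) • Mᴴ = 0) : ∃ c : Matrix (Fin n) (Fin n) (MonoidAlgebra R G),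
    M = c - (ε : ℤ) • cᴴ := by
  have h4 : M = ((-ε : ℤˣ) : ℤ) • Mᴴ := by
    rw [Units.val_neg, neg_smul]
    exact eq_neg_of_add_eq_zero_left h0
  obtain ⟨c0, -, hc0⟩ := specTat R G X (-ε) n M hi hn hM h4
  refine ⟨c0, ?_⟩
  rw [Units.val_neg, neg_smul, ← sub_eq_add_neg] at hc0
  exact hc0

end STYAuxP

open STYAuxP

theorem specSTY (hEFA : RO.SpecEFA) (hDRC : SpecDRC) (hHLK : SpecHLK) (hNEI : SpecNEI)
    (hNEN : SpecNEN) (hNES : SpecNES) : SpecSTY := by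
  intro R G _ _ _ _ L g Xb Yp Ym hP ε n N hN ψ χ hψ hχ hnil hf hW
  have ha : SuppIn (La L g) (ψ + (ε : ℤ) • ψᴴ) := supp_sym hP.X1i ε ψ hψ
  have hb : SuppIn Xb (χ + (ε : ℤ) • χᴴ) := supp_sym hP.X2i ε χ hχ
  obtain ⟨c, hc, hci, hbc⟩ := hHLK R G L ε n (χ + (ε : ℤ) • χᴴ) (NWTAux.sym_symm ε χ)
    (nf_sym ε χ hf)
  set q := cutM c (χ + (ε : ℤ) • χᴴ) with hq
  set W : Set G := {x | x ∈ c ∧ x ∈ Xb} with hWdef
  have hHf : Hf L Xb W := by
    refine ⟨fun x hx => hx.2, ⟨?_, ?_⟩, fun x hx hx' => hci x hx.1 hx'.1⟩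
    · intro h hh x hx
      exact ⟨hc.1 h hh x hx.1, hP.X2l h hh x hx.2⟩
    · intro h hh x hx
      exact ⟨hc.2 h hh x hx.1, hP.X2r h hh x hx.2⟩
  have hqW : SuppIn W q := supp_cut c _ hb
  have hqX : SuppIn Xb q := fun i j x h => (hqW i j x h).2
  -- the reduction to `q`
  have hqF : SuppIn {x | x ∈ Xb ∧ ¬ Flip L x} q := fun i j x h =>
    ⟨hqX i j x h, (supp_cut (X := {x | ¬ Flip L x}) c _ (nf_sym ε χ hf) i j x h).2⟩
  have hχF : SuppIn {x | x ∈ Xb ∧ ¬ Flip L x} χ := fun i j x h => ⟨hχ i j x h, hf i j x h⟩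
  have hi' : ∀ x ∈ {x | x ∈ Xb ∧ ¬ Flip L x}, x⁻¹ ∈ {x | x ∈ Xb ∧ ¬ Flip L x} := by
    rintro x ⟨hx, hx'⟩
    refine ⟨hP.X2i x hx, fun h => hx' ?_⟩
    have := NWTAux.flip_inv h
    rwa [inv_inv] at this
  have hn' : ∀ x ∈ {x | x ∈ Xb ∧ ¬ Flip L x}, x⁻¹ ≠ x := by
    rintro x ⟨-, hx'⟩ e
    exact hx' ⟨1, L.one_mem, 1, L.one_mem, by rw [e, one_mul, mul_one]⟩
  obtain ⟨c0, hc0⟩ := tat' hi' hn' ε (χ - q) (supp_sub χ q hχF hqF) (by
    rw [conjTranspose_sub, smul_sub]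
    have h1 : χ - q + ((ε : ℤ) • χᴴ - (ε : ℤ) • qᴴ) =
        (χ + (ε : ℤ) • χᴴ) - (q + (ε : ℤ) • qᴴ) := by abel
    rw [h1, ← hbc, sub_self])
  have hχq : χ = q + c0 - (ε : ℤ) • c0ᴴ := by
    rw [add_sub_assoc, ← hc0]
    abel
  rw [hχq]
  refine change' ε ψ q c0 ?_
  -- the family
  obtain ⟨hE, hlet, hblk⟩ := hEFA R G L (La L g) Xb ∅ Yp Ym hP.toPingPong ε n (ψ + (ε : ℤ) • ψᴴ) 0
    (χ + (ε : ℤ) • χᴴ) ha (fun i j x h => (h rfl).elim) hb
    (NWTAux.sym_symm ε ψ) (NWTAux.sym_symm ε χ) N hnil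
  have h1 : ψ + (ε : ℤ) • ψᴴ ∈
      EE L (nu ε (ψ + (ε : ℤ) • ψᴴ) 0 (χ + (ε : ℤ) • χᴴ)) 1 false true := hblk false true
  have h3 : cutM c ((ε : ℤ) • (χ + (ε : ℤ) • χᴴ)) ∈
      EE L (nu ε (ψ + (ε : ℤ) • ψᴴ) 0 (χ + (ε : ℤ) • χᴴ)) 1 true false := hlet true false c hc
  have h4 : q ∈ EE L (nu ε (ψ + (ε : ℤ) • ψᴴ) 0 (χ + (ε : ℤ) • χᴴ)) 1 true false := by
    rw [NWTAux.cutM_zsmul] at h3
    have h5 := AddSubgroup.zsmul_mem _ h3 (ε : ℤ)
    rwa [smul_smul, eps_sq, one_smul] at h5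
  obtain ⟨k1, k2, k3⟩ := hNEN (MonoidAlgebra R G) ε n N _ hE hN _ h1 _ h4
  refine hNEI (MonoidAlgebra R G) ε n N ψ q k1 ?_
  have hsupp := hNES R G (La L g) W ε n N ψ (ψ + (ε : ℤ) • ψᴴ) q hψ ha hqW
  have hsym : ∀ Z : Matrix (Fin n) (Fin n) (MonoidAlgebra R G),
      Zᴴ * ψ * Z + (ε : ℤ) • (Zᴴ * ψ * Z)ᴴ = Zᴴ * (ψ + (ε : ℤ) • ψᴴ) * Z := by
    intro Z
    rw [conjTranspose_mul, conjTranspose_mul, conjTranspose_conjTranspose, Matrix.mul_add,
      Matrix.add_mul, Matrix.mul_smul, Matrix.smul_mul, Matrix.mul_assoc Zᴴ ψᴴ Z]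
  rcases le_total N 3 with hN3 | hN3
  · have hD := hDRC G L g Xb Yp Ym W hP hHf
    refine FCG.tpp L (La L g) (XD (La L g) W) _ _ hD ε n ψ _ hψ hsupp ?_
    rw [hsym]
    exact k2 hN3
  · refine hW W hHf hN3 _ hsupp ?_
    rw [hsym]
    exact k3 hN3


/-! ## From `ROK/RMV.lean` -/

open Matrix Pool.Agent.Lib.MPb6f35e.TT.UV Pool.Agent.Lib.MPb6f35e.TT.AU Pool.Agent.Lib.MPb6f35e.TT.RO

namespace RMVAuxP

open ELMAux

variable {R G : Type} [Ring R] [StarRing R] [Group G]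

theorem supp_sym {X : Set G} (hX : ∀ x ∈ X, x⁻¹ ∈ X) (ε : ℤˣ) {n : ℕ}
    {ψ : Matrix (Fin n) (Fin n) (MonoidAlgebra R G)} (hψ : SuppIn X ψ) :
    SuppIn X (ψ + (ε : ℤ) • ψᴴ) := by
  intro i j x hx
  rw [Matrix.add_apply, MonoidAlgebra.coeff_add, Finsupp.add_apply] at hx
  by_cases h1 : (ψ i j).coeff x = 0
  · rw [h1, zero_add, Matrix.smul_apply, conjTranspose_apply] at hx
    have h2 : (star (ψ j i)).coeff x ≠ 0 := by
      intro h0
      apply hx
      rcases unit_cases ε (star (ψ j i)) with h | h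
      · rw [h, h0]
      · rw [h, MonoidAlgebra.coeff_neg, Finsupp.neg_apply, h0, neg_zero]
    rw [star_coeff] at h2
    have h3 : (ψ j i).coeff x⁻¹ ≠ 0 := by
      intro h0
      apply h2
      rw [h0, star_zero]
    have := hX _ (hψ j i _ h3)
    simpa using this
  · exact hψ i j x h1

/-- The nilpotency index does not grow. -/
theorem index (hEFA : RO.SpecEFA) (hKNA : RO.SpecKNA) {H : Subgroup G} {X1 X2 X3 Yp Ym : Set G}
    (hP : PingPong H X1 X2 X3 Yp Ym) (ε : ℤˣ) {n N : ℕ} (hN : 1 ≤ N)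
    {ψ μ χ : Matrix (Fin n) (Fin n) (MonoidAlgebra R G)} (hψ : SuppIn X1 ψ) (hμ : SuppIn X3 μ)
    (hχ : SuppIn X2 χ) (hnil : (nu ε (ψ + (ε : ℤ) • ψᴴ) μ (χ + (ε : ℤ) • χᴴ)) ^ N = 0) {g : G}
    (hgg : g * g ∈ H) :
    (nu ε (cutM (dc H g)ᶜ ψ + (ε : ℤ) • (cutM (dc H g)ᶜ ψ)ᴴ) μ
      (χ + (ε : ℤ) • χᴴ)) ^ N = 0 := by
  set a := ψ + (ε : ℤ) • ψᴴ with ha
  set b := χ + (ε : ℤ) • χᴴ with hb
  have hsa : SuppIn X1 a := supp_sym hP.X1i ε hψ
  have hsb : SuppIn X2 b := supp_sym hP.X2i ε hχ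
  obtain ⟨hE, hcut, hblk⟩ := hEFA R G H X1 X2 X3 Yp Ym hP ε n a μ b hsa hμ hsb (herm ε ψ)
    (herm ε χ) N hnil
  have hcs : ∀ x ∈ dc H g, x⁻¹ ∈ dc H g := fun x hx => dc_inv H g hgg hx
  have hcs' : ∀ x ∈ (dc H g)ᶜ, x⁻¹ ∈ (dc H g)ᶜ := by
    intro x hx hc
    apply hx
    have := hcs _ hc
    simpa using this
  have ha0 : cutM (dc H g)ᶜ a = cutM (dc H g)ᶜ ψ + (ε : ℤ) • (cutM (dc H g)ᶜ ψ)ᴴ := by
    rw [ha, cutM_add, cutM_smul, cutM_star _ hcs']
  have e1 : cutM (dc H g)ᶜ a ∈ EE H (nu ε a μ b) 1 false true := by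
    have := hcut false true _ (bi_compl H g)
    rwa [blk_ft] at this
  have e2 : cutM (dc H g) a ∈ EE H (nu ε a μ b) 1 false true := by
    have := hcut false true _ (bi_dc H g)
    rwa [blk_ft] at this
  have e3 : μ ∈ EE H (nu ε a μ b) 1 true true := by
    have := hblk true true
    rwa [blk_tt] at this
  have e4 : b ∈ EE H (nu ε a μ b) 1 true false := by
    have h1 := hblk true false
    rw [blk_tf] at h1
    have h2 := AddSubgroup.zsmul_mem _ h1 (ε : ℤ)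
    rwa [smul_smul_self] at h2
  obtain ⟨hn0, -⟩ := hKNA (MonoidAlgebra R G) ε n n N _ hE hN _ _ _ _ e1 e2 e3 e4
  rwa [ha0] at hn0

end RMVAuxP

open RMVAuxP in
theorem specRMV (hEFA : RO.SpecEFA) (hKNA : RO.SpecKNA) (hELM : SpecELM) : SpecRMV := by
  intro R G _ _ _ _ H X1 X2 X3 Yp Ym hP hblk ε n N hN ψ μ χ hψ hμ hχ hnil hfin
  have main : ∀ (m : ℕ) (ψ : Matrix (Fin n) (Fin n) (MonoidAlgebra R G)), SuppIn X1 ψ →
      (nu ε (ψ + (ε : ℤ) • ψᴴ) μ (χ + (ε : ℤ) • χᴴ)) ^ N = 0 → ROTAux.fl H ψ = m →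
      SS ε (UF ψ μ χ) := by
    intro m
    induction m using Nat.strong_induction_on with
    | _ m ih =>
      intro ψ hψ hnil hm
      by_cases h1 : ∀ i j x, (ψ i j).coeff x ≠ 0 → ¬ Flip H x
      · exact hfin ψ hψ h1 hnil
      · push Not at h1
        obtain ⟨i, j, x, hx, hf⟩ := h1
        obtain ⟨h, hh, hgg, hxd⟩ := ROTAux.exists_flip hf
        have hxX : x ∈ X1 := hψ i j x hx
        have hgX : x * h ∈ X1 := hP.X1r h hh x hxX
        obtain ⟨hS, hB⟩ := hblk (x * h) hgX hgg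
        obtain ⟨-, h2⟩ := hELM R G H X1 X2 X3 Yp Ym hP ε n ψ μ χ hψ hμ hχ ⟨N, hnil⟩ (x * h) hgX
          hgg hS (fun r ψ' κ hψ' hκ hn => hB ε r ψ' κ hψ' hκ hn)
        apply h2
        exact ih _ (hm ▸ ROTAux.fl_cut_lt H ψ _ hx hf (fun hc => hc hxd)) _
          (ROTAux.supp_cut hψ) (index hEFA hKNA hP ε hN hψ hμ hχ hnil hgg) rfl
  exact main _ ψ hψ hnil rfl


/-! ## From `ROK/MNK.lean` -/

open Matrix Pool.Agent.Lib.MPb6f35e.TT.UV Pool.Agent.Lib.MPb6f35e.TT.AU Pool.Agent.Lib.MPb6f35e.TT.RO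

namespace MNKAuxP

/-- The hypothesis of RMV. -/
theorem blocks (hSBK : SpecSBK) (hBLK : SpecBLK) (hBLG : SpecBLG) {R G V : Type} [Ring R]
    [StarRing R] [Group G] [FCG R G] [MulAction G V] {d : V → V → ℕ} (hd : TM G d) {H : Subgroup G}
    {X1 X2 X3 Yp Ym : Set G} {x1 x2 : V} (P : PPK H X1 X2 X3 Yp Ym)
    (hG : Geo d H X1 X2 X3 x1 x2) (hS : ∀ g ∈ X1, g * g ∈ H → SE R G d x1 (g • x1)) :
    ∀ g ∈ X1, g * g ∈ H → Sub1 H X1 X2 X3 Yp Ym {x | x ∈ X1 ∧ x ∉ dc H g} ∧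
      Blk R (La (Kg H g) g) (BX H X1 X2 X3 g) := by
  intro g hg hgg
  obtain ⟨-, -, -, h4, -⟩ := hSBK G H X1 X2 X3 Yp Ym P.toPingPong g hg hgg
  obtain ⟨b1, b2, -⟩ := hBLG G V d hd H X1 X2 X3 Yp Ym x1 x2 P.toPingPong hG g hg hgg
  exact ⟨h4, hS g hg hgg (Kg H g) g (BX H X1 X2 X3 g) _ _
    (hBLK G H X1 X2 X3 Yp Ym P g hg hgg) b1 rfl b2⟩

end MNKAuxP

/-- **Module MNK**: the theorem for data. -/
theorem specMNK (hNWT : SpecNWT) (hSBK : SpecSBK) (hBLK : SpecBLK) (hSYK : SpecSYK)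
    (hBLG : SpecBLG) (hRMV : SpecRMV) : SpecMNK := by
  intro R G V _ _ _ _ _ d hd H X1 X2 X3 Yp Ym x1 x2 P hG hS1 hS2 ε n ψ μ χ hψ hμ hχ hnil
  obtain ⟨l, hl⟩ := hnil
  obtain ⟨N, hN⟩ : ∃ N, N = l + 1 := ⟨_, rfl⟩
  have hN1 : 1 ≤ N := by omega
  have hνN : (nu ε (ψ + (ε : ℤ) • ψᴴ) μ (χ + (ε : ℤ) • χᴴ)) ^ N = 0 := by
    rw [hN, pow_succ, hl, zero_mul]
  obtain ⟨s1, s2, -, -⟩ := hSYK G H X1 X2 X3 Yp Ym
  have P' := s1 P
  have hG' := s2 V d x1 x2 hG
  have hμs : SuppIn (Xinv X3) μᴴ := INDAux.supp_star hμ (fun y hy => by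
    change y⁻¹⁻¹ ∈ X3
    rw [inv_inv]
    exact hy)
  refine hRMV R G H X1 X2 X3 Yp Ym P.toPingPong
    (MNKAuxP.blocks hSBK hBLK hBLG hd P hG hS1) ε n N hN1 ψ μ χ hψ hμ hχ hνN ?_
  intro ψ0 hψ0 hfl0 hν0
  apply (specSwpP (MonoidAlgebra R G) ε n ψ0 μ χ).1
  refine hRMV R G H X2 X1 (Xinv X3) Ym Yp P'.toPingPong
    (MNKAuxP.blocks hSBK hBLK hBLG hd P' hG' hS2) ε n N hN1 χ μᴴ ψ0 hχ hμs hψ0
    (INDAux.swap_zero ε _ _ _ N hν0) ?_
  intro χ0 hχ0 hfl1 hν1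
  exact hNWT R G H X2 X1 (Xinv X3) Ym Yp P'.toPingPong ε n χ0 μᴴ ψ0 hχ0 hμs hψ0 ⟨N, hν1⟩ hfl1 hfl0


end Pool.Agent.Lib.MPb6f35e.TT.AR

/-! ## Module AR/Data -/

/-!
# Classes of forms (MP_8a3537_gt, folder AR): the theorems of ROK without hypotheses (helper76)
-/

set_option autoImplicit false

namespace Pool.Agent.Lib.MPb6f35e.TT.AR

theorem mELM : SpecELM :=
  specELM ROK.mEFA RO.specFAC (specSCU specSCH) RO.specKNA (RO.specKSP ROK.mWDA)

theorem mNWT : SpecNWT := specNWT ROK.mEFA specNWC RO.specHLF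

theorem mRMV : SpecRMV := specRMV ROK.mEFA RO.specKNA mELM

theorem mSTY : SpecSTY :=
  specSTY ROK.mEFA ROK.mDRC ROK.specHLK (specNEI specSCH) ROK.specNEN ROK.specNES

theorem mMNK : SpecMNK := specMNK mNWT ROK.mSBK ROK.mBLK ROK.specSYK ROK.mBLG mRMV

end Pool.Agent.Lib.MPb6f35e.TT.AR

/-! ## Module AR/SGS -/

/-!
# Classes of forms (MP_8a3537_gt, folder AR): single pieces (copy of LL/SGU, SGN, SGS)
-/

set_option autoImplicit false
set_option linter.unusedSectionVars false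
set_option linter.unusedSimpArgs false

namespace Pool.Agent.Lib.MPb6f35e.TT.AR

open Matrix Pool.Agent.Lib.MPb6f35e.TT.UV Pool.Agent.Lib.MPb6f35e.TT.AU Pool.Agent.Lib.MPb6f35e.TT.RO
open Pool.Agent.Lib.MPb6f35e.TT.ROK Pool.Agent.Lib.MPb6f35e.TT.LL

/-! ## From `LL/SGU.lean` -/

open Matrix Pool.Agent.Lib.MPb6f35e.TT.UV Pool.Agent.Lib.MPb6f35e.TT.AU Pool.Agent.Lib.MPb6f35e.TT.RO
open Pool.Agent.Lib.MPb6f35e.TT.ROK

namespace SGUMP

theorem cutM_compl {R G m n : Type} [Ring R] {W : Set G} {M : Matrix m n (MonoidAlgebra R G)}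
    (h : SuppIn W M) : cutM Wᶜ M = 0 := by
  ext i j x
  show (cut Wᶜ (M i j)).coeff x = 0
  rw [cut_coeff]
  by_cases hx : (M i j).coeff x = 0
  · rw [hx, ite_self]
  · exact if_neg fun hc => hc (h i j x hx)

end SGUMP

/-- **Module SGU**: an unstable flip. -/
theorem specSGU (hFML : SpecFML) : SpecSGU := by
  intro R G V _ _ _ _ _ d hd x1 x2 hHU L X1 X2 Yp Ym P hG g hg hgg hNs ε n ψ χ hψ hχ hnil
  have hL : MulAction.stabilizer G x1 ⊓ MulAction.stabilizer G x2 = L := by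
    ext y
    rw [Subgroup.mem_inf, MulAction.mem_stabilizer_iff, MulAction.mem_stabilizer_iff, hG.st]
  have hψ1 : SuppIn X1 ψ := fun i j x hx => by
    obtain ⟨h, hh, h', hh', rfl⟩ := hψ i j x hx
    exact P.X1r h' hh' _ (P.X1l h hh g hg)
  have h0 : SuppIn (∅ : Set G) (0 : Matrix (Fin n) (Fin n) (MonoidAlgebra R G)) :=
    fun i j x hx => absurd rfl hx
  obtain ⟨-, -, -, h4, -⟩ := mSBK G L X1 X2 ∅ Yp Ym P.toPingPong g hg hgg
  have hB := mBLK G L X1 X2 ∅ Yp Ym P g hg hgg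
  obtain ⟨b1, b2, -⟩ := mBLG G V d hd L X1 X2 ∅ Yp Ym x1 x2 P.toPingPong hG g hg hgg
  have hdist : d x1 (g • x1) = d x1 x2 + d x2 (g • x1) :=
    hG.mv false true g x1 hg (by
      show d x2 x1 = d x2 x1 + d x1 x1
      rw [(hd.d0 x1 x1).2 rfl, add_zero])
  have hSE := hHU g b2 hdist (by rw [hL]; exact hNs)
  have hblk : Blk R (La (Kg L g) g) (BX L X1 X2 ∅ g) :=
    hSE (Kg L g) g (BX L X1 X2 ∅ g) _ _ hB b1 rfl b2
  obtain ⟨-, h2⟩ := mELM R G L X1 X2 ∅ Yp Ym P.toPingPong ε n ψ 0 χ hψ1 h0 hχ hnil g hg hgg h4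
    (fun r ψ' κ hψ' hκ hn => hblk ε r ψ' κ hψ' hκ hn)
  apply h2
  rw [SGUMP.cutM_compl hψ]
  apply (specSwpP (MonoidAlgebra R G) ε n 0 0 χ).1
  rw [conjTranspose_zero]
  exact (hFML (MonoidAlgebra R G) ε n).2 χ


/-! ## From `LL/SGN.lean` -/

open Matrix Pool.Agent.Lib.MPb6f35e.TT.UV Pool.Agent.Lib.MPb6f35e.TT.AU Pool.Agent.Lib.MPb6f35e.TT.RO
open Pool.Agent.Lib.MPb6f35e.TT.ROK

namespace SGNMP

theorem dc_sub {G : Type} [Group G] {L : Subgroup G} {g : G} (hN : Ns L g) :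
    ∀ x ∈ dc L g, x ∈ La L g := by
  rintro x ⟨h, hh, h', hh', rfl⟩
  refine ⟨h * (g * h' * g⁻¹), L.mul_mem hh (hN h' hh').1, ?_⟩
  group

theorem ptA {G : Type} [Group G] {L : Subgroup G} {X1 X2 X3 Yp Ym : Set G} {g : G}
    (P : PPK L X1 X2 X3 Yp Ym) (hg : g ∈ X1) (hgg : g * g ∈ L) (hN : Ns L g) :
    Pt L X1 (La L g) where
  sub := by
    rintro x ⟨l, hl, rfl⟩
    exact P.X1l l hl g hg
  bi := by
    constructor
    · rintro h hh x ⟨l, hl, rfl⟩
      exact ⟨h * l, L.mul_mem hh hl, by group⟩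
    · rintro h hh x ⟨l, hl, rfl⟩
      exact ⟨l * (g * h * g⁻¹), L.mul_mem hl (hN h hh).1, by group⟩
  inv := by
    rintro x ⟨l, hl, rfl⟩
    refine ⟨(g⁻¹ * l⁻¹ * g) * (g * g)⁻¹, L.mul_mem (hN _ (L.inv_mem hl)).2 (L.inv_mem hgg), ?_⟩
    group

theorem ptB {G : Type} [Group G] {L : Subgroup G} {X1 X2 X3 Yp Ym : Set G}
    (P : PPK L X1 X2 X3 Yp Ym) : Pt L X2 X2 where
  sub := fun _ h => h
  bi := ⟨P.X2l, P.X2r⟩
  inv := P.X2i

end SGNMP

/-- **Module SGN**: a stable flip and no flips. -/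
theorem specSGN (hDWP : SpecDWP) (hDWG : SpecDWG) : SpecSGN := by
  intro R G V _ _ _ _ _ d hd N x1 x2 hN hCl L X1 X2 Yp Ym P hG g hg hgg hNs ε n ψ χ hψ hχ hfl hν
  have p1 := SGNMP.ptA P hg hgg hNs
  have p2 := SGNMP.ptB P
  have P' : PPK L (La L g) X2 ∅ Yp Ym := (hDWP G L X1 X2 Yp Ym P).2 (La L g) X2 p1 p2
  have hG' : Geo d L (La L g) X2 ∅ x1 x2 :=
    (hDWG G V d hd L X1 X2 x1 x2 hG).2 (La L g) X2 p1 p2
  have hψ' : SuppIn (La L g) ψ := fun i j x hx => SGNMP.dc_sub hNs x (hψ i j x hx)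
  refine mSTY R G L g X2 Yp Ym P' ε n N hN ψ χ hψ' hχ hν hfl ?_
  intro W hW h3 χ' hχ' hν2
  exact hCl h3 L (La L g) (XD (La L g) W) _ _ (mDRC G L g X2 Yp Ym W P' hW)
    (specDRG G V d L g X2 Yp Ym W x1 x2 P' hW hG') ε n ψ χ' hψ' hχ' hν2


/-! ## From `LL/SGS.lean` -/

open Matrix Pool.Agent.Lib.MPb6f35e.TT.UV Pool.Agent.Lib.MPb6f35e.TT.AU Pool.Agent.Lib.MPb6f35e.TT.RO
open Pool.Agent.Lib.MPb6f35e.TT.ROK

namespace SGSMP

section Sets

variable {G : Type} [Group G] {L : Subgroup G}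

theorem dc_trans {x y z : G} (h : y ∈ dc L x) (h' : z ∈ dc L y) : z ∈ dc L x := by
  obtain ⟨a, ha, b, hb, rfl⟩ := h
  obtain ⟨c, hc, e, he, rfl⟩ := h'
  exact ⟨c * a, L.mul_mem hc ha, b * e, L.mul_mem hb he, by group⟩

theorem dc_symm {x y : G} (h : y ∈ dc L x) : x ∈ dc L y := by
  obtain ⟨a, ha, b, hb, rfl⟩ := h
  exact ⟨a⁻¹, L.inv_mem ha, b⁻¹, L.inv_mem hb, by group⟩

theorem dc_inv_inv {x y : G} (h : y ∈ dc L x) : y⁻¹ ∈ dc L x⁻¹ := by
  obtain ⟨a, ha, b, hb, rfl⟩ := h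
  exact ⟨b⁻¹, L.inv_mem hb, a⁻¹, L.inv_mem ha, by group⟩

/-- If `x` is a flip, `D2 L x` is contained in `dc L g` for an element `g` of `x L`. -/
theorem D2_flip {x h : G} (hgg : (x * h) * (x * h) ∈ L) (hx : x ∈ dc L (x * h)) {y : G}
    (hy : y ∈ D2 L x) : y ∈ dc L (x * h) := by
  rcases hy with hy | hy
  · exact dc_trans hx hy
  · exact dc_trans (RO.ELMAux.dc_inv L (x * h) hgg hx) hy

/-- If `x` is not a flip, then `D2 L x` contains no flip. -/
theorem D2_nonflip {x : G} (hx : ¬ Flip L x) {y : G} (hy : y ∈ D2 L x) : ¬ Flip L y := by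
  intro hf
  apply hx
  have hf' : y⁻¹ ∈ dc L y := hf
  change x⁻¹ ∈ dc L x
  rcases hy with hy | hy
  · exact dc_trans (dc_trans hy hf') (dc_symm (dc_inv_inv hy))
  · have h1 : x ∈ dc L y⁻¹ := by
      have := dc_symm (dc_inv_inv hy)
      rwa [inv_inv] at this
    have h2 : x ∈ dc L x⁻¹ := dc_trans (dc_trans hy hf') h1
    exact dc_symm h2

theorem dc_La {g : G} (hn : Ns L g) {y : G} (hy : y ∈ dc L g) : y ∈ La L g := by
  obtain ⟨a, ha, b, hb, rfl⟩ := hy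
  exact ⟨a * (g * b * g⁻¹), L.mul_mem ha (hn b hb).1, by group⟩

end Sets

section Forms

variable {R G : Type} [Ring R] [StarRing R] [Group G]

theorem swap0 (ε : ℤˣ) {n N : ℕ} {a b : Matrix (Fin n) (Fin n) (MonoidAlgebra R G)}
    (h : (nu ε a 0 b) ^ N = 0) : (nu ε b 0 a) ^ N = 0 := by
  have := INDAux.swap_zero ε a 0 b N h
  rwa [conjTranspose_zero] at this

theorem swapUF [FCG R G] {ε : ℤˣ} {n : ℕ} {ψ χ : Matrix (Fin n) (Fin n) (MonoidAlgebra R G)}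
    (h : SS ε (UF χ 0 ψ)) : SS ε (UF ψ 0 χ) := by
  apply (specSwpP (MonoidAlgebra R G) ε n ψ 0 χ).1
  rwa [conjTranspose_zero]

theorem Cl_swap [FCG R G] {V : Type} [MulAction G V] {d : V → V → ℕ} {N : ℕ} {x1 x2 : V}
    (h : Cl R G d N x1 x2) : Cl R G d N x2 x1 := by
  intro L X1 X2 Yp Ym P hg ε n ψ χ hψ hχ hν
  obtain ⟨-, -, s3, s4⟩ := specSYK G L X1 X2 ∅ Yp Ym
  exact swapUF (h L X2 X1 Ym Yp (s3 P) (s4 V d x2 x1 hg) ε n χ ψ hχ hψ (swap0 ε hν))

end Forms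

end SGSMP

end Pool.Agent.Lib.MPb6f35e.TT.AR

/-! ## Module AR/Lines -/

/-!
# Classes of forms (MP_8a3537_gt, folder AR): only lines matter (copy of LLX/Main by helper28)

The theorem of the folder LLX with an arbitrary class `SS` of forms (`AR/FC.lean`) instead of
`StablyHyperbolic`.
-/

set_option autoImplicit false
set_option linter.unusedSectionVars false
set_option linter.unusedSimpArgs false

namespace Pool.Agent.Lib.MPb6f35e.TT.AR

open Matrix Pool.Agent.Lib.MPb6f35e.TT.UV Pool.Agent.Lib.MPb6f35e.TT.AU Pool.Agent.Lib.MPb6f35e.TT.RO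
open Pool.Agent.Lib.MPb6f35e.TT.ROK Pool.Agent.Lib.MPb6f35e.TT.LL

theorem mLNR : SpecLNR := specLNR specFML LL.specFMR LL.specSPR LL.mDWP LL.specDWG

theorem mDCM : SpecDCM := specDCM specFML mLNR

end Pool.Agent.Lib.MPb6f35e.TT.AR

/-! ## Module AR/SpecS -/

/-!
# Classes of forms (MP_8a3537_gt, folder AR): the barrier condition, Specs (helper28; the idea to stop the recursion
at any stage is by helper30)

`SP`, `SGV`, `STP`, `SPB` are the definitions and Specs of `LL2/Spec.lean` for a class `SS` of forms (`AR/FC.lean`); they are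
proved by a script copy of `LL2/SGV.lean`, `LL2/STP.lean`, `LL2/SPB.lean`. NEW: `GS`, `SPS`, `CLS`, `CHT`, `FLT`. A module `XXX` is a file
`Pool/Agent/Lib/MP_8a3537_gt/AR/XXX.lean` which imports this file and proves `theorem specXXX (deps, in this order) :
SpecXXX` in the namespace `Pool.Agent.Lib.MPb6f35e.TT.AR` (so `Blk`, `SE`, `Cl`, `SP`, `SpecDCM`, `mDCM`, .. are those of AR), own
lemmas in the namespace `XXXM`. Facts on forms: `AR.SGSMP.swapUF`, `AR.SGSMP.swap0`, `AR.SGSMP.Cl_swap` (see `AR/SGS.lean`), `AR.mNWT`, `AR.mDCM`,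
`AR.mMNK` (`AR/Data.lean`, `AR/Lines.lean`). Facts on groups and trees: the lemmas of `LL2/SPC.lean` (`LL2.SPCM`), `LL2/CHS.lean`,
`LL/SGS.lean` (`LL.SGSM.D2_flip`, ..), `LL.SGNM.ptA` may be imported.
-/

set_option autoImplicit false
set_option linter.unusedSectionVars false

namespace Pool.Agent.Lib.MPb6f35e.TT.AR

open Matrix Pool.Agent.Lib.MPb6f35e.TT.UV Pool.Agent.Lib.MPb6f35e.TT.AU Pool.Agent.Lib.MPb6f35e.TT.RO
open Pool.Agent.Lib.MPb6f35e.TT.ROK Pool.Agent.Lib.MPb6f35e.TT.LL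
open Pool.Agent.Lib.MPb6f35e.TT.LL2 (NI Cnc Lng)

/-! ### Definitions -/

section Geometry

variable (R G : Type) {V : Type} [Ring R] [StarRing R] [Group G] [FCG R G]
  [MulAction G V] (d : V → V → ℕ)

/-- The claim for the index `N` and the two pieces `D2 L x`, `D2 L y` of the pair `x1`, `x2`. -/
def SP (N : ℕ) (x1 x2 : V) (x y : G) : Prop :=
  ∀ (L : Subgroup G) (X1 X2 Yp Ym : Set G), PPK L X1 X2 ∅ Yp Ym → Geo d L X1 X2 ∅ x1 x2 →
    x ∈ X1 → y ∈ X2 → ∀ (ε : ℤˣ) (n : ℕ) (ψ χ : Matrix (Fin n) (Fin n) (MonoidAlgebra R G)),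
    SuppIn (D2 L x) ψ → SuppIn (D2 L y) χ →
    (nu ε (ψ + (ε : ℤ) • ψᴴ) 0 (χ + (ε : ℤ) • χᴴ)) ^ N = 0 → SS ε (UF ψ 0 χ)

/-- Good pairs of flips `x`, `y` of the pair `x1`, `x2`: the recursion may stop at a pair which is exchanged by one
of them. -/
inductive GS (Q : Subgroup G → Prop) : V → V → G → G → Prop
  | reg {x1 x2 : V} {x y : G} : Q (MulAction.stabilizer G x1 ⊓ MulAction.stabilizer G x2) →
      GS Q x1 x2 x y
  | bx {x1 x2 : V} {x y : G} : x • x1 = x2 → x • x2 = x1 →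
      Blk R (La (MulAction.stabilizer G x1 ⊓ MulAction.stabilizer G x2) x)
        (La (Kg (MulAction.stabilizer G x1 ⊓ MulAction.stabilizer G x2) y) y) → GS Q x1 x2 x y
  | by' {x1 x2 : V} {x y : G} : y • x1 = x2 → y • x2 = x1 →
      Blk R (La (MulAction.stabilizer G x1 ⊓ MulAction.stabilizer G x2) y)
        (La (Kg (MulAction.stabilizer G x1 ⊓ MulAction.stabilizer G x2) x) x) → GS Q x1 x2 x y
  | stx {x1 x2 : V} {x y : G} :
      (∀ y' ∈ dc (MulAction.stabilizer G x1 ⊓ MulAction.stabilizer G x2) y,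
        y' * y' ∈ MulAction.stabilizer G x1 ⊓ MulAction.stabilizer G (x • x1) →
        GS Q x1 (x • x1) x y') → GS Q x1 x2 x y
  | sty {x1 x2 : V} {x y : G} :
      (∀ x' ∈ dc (MulAction.stabilizer G x1 ⊓ MulAction.stabilizer G x2) x,
        x' * x' ∈ MulAction.stabilizer G (y • x2) ⊓ MulAction.stabilizer G x2 →
        GS Q (y • x2) x2 x' y) → GS Q x1 x2 x y

end Geometry

/-! ### Script copies of LL2 -/

/-- **SGV** (size 80, deps `SpecFAT`, `SpecIDX`; imports `UV/EMV`): a flip `g`, forms.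

PROOF. FAT: `ψ = Ξᴴ ψ' Ξ`; `κ = Ξ χ Ξᴴ` is supported in `c` (`L c L ⊆ c`). IDX. `specEMV` (or its name in `UV/EMV.lean`) with `m' = 0`, `p = Ξ`:
`UF ψ' (Ξ * 0) (Ξ * χ * Ξᴴ)` stably hyperbolic implies `UF (Ξᴴ * ψ' * Ξ) (0 * Ξ) χ` stably hyperbolic. -/
def SpecSGV : Prop :=
  ∀ (R G : Type) [Ring R] [StarRing R] [Group G]
    [FCG R G] (L : Subgroup G) (X1 X2 Yp Ym : Set G),
    PingPong L X1 X2 ∅ Yp Ym → ∀ g ∈ X1, g * g ∈ L → ∀ c : Set G, Pt L X2 c →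
    ∀ (ε : ℤˣ) (n N : ℕ), 1 ≤ N → ∀ ψ χ : Matrix (Fin n) (Fin n) (MonoidAlgebra R G),
    SuppIn (dc L g) ψ → SuppIn c χ →
    (nu ε (ψ + (ε : ℤ) • ψᴴ) 0 (χ + (ε : ℤ) • χᴴ)) ^ N = 0 →
    (∀ (r : ℕ) (ψ' κ : Matrix (Fin r) (Fin r) (MonoidAlgebra R G)),
      SuppIn (La (Kg L g) g) ψ' → SuppIn c κ →
      (nu ε (ψ' + (ε : ℤ) • ψ'ᴴ) 0 (κ + (ε : ℤ) • κᴴ)) ^ N = 0 →
      SS ε (UF ψ' 0 κ)) → SS ε (UF ψ 0 χ)

/-- **STP** (size 180, dep `SpecSGV`): the step from the pair `x1`, `x2` to the pair `x1`, `x x1`.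

PROOF. `D2 L x = dc L x` (`x x ∈ L`; `SGSM.D2_flip` with `h = 1`, or `ELMAux.dc_inv`). SGV with `c = D2 L y` (`Pt L X2 c`: `DCMM.pt_D2` for the
exchanged data, `specSYK`). `K' = Kg L x`. `mBLK`, `mBLG`: `PPK K' (La K' x) (BX L X1 X2 ∅ x) ∅ ..`, `Geo d K' (La K' x) (BX ..) ∅ x1 (x • x1)`. `c ⊆ X2 ⊆ BX ..`
(`mWDA` (5): words with one letter; `Sub1`: `mSBK` (4)). `Pt K' (BX ..) c` (`K' ≤ L`), `Pt K' (La K' x) (La K' x)` (`mSBK` (3)). `mDWP`, `specDWG` (second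
parts): data `K'`, `La K' x`, `c`, ends `x1`, `x • x1`. `mDCM` for these data (index `N`): pieces `x' ∈ La K' x`, `y' ∈ c`: `D2 K' x' ⊆ D2 K' x`
(`SGSM.dc_trans`), so `SP R G d N x1 (x • x1) x y'` applies (`x ∈ La K' x`). -/
def SpecSTP : Prop :=
  ∀ (R G V : Type) [Ring R] [StarRing R] [Group G]
    [FCG R G] [MulAction G V] (d : V → V → ℕ), TM G d →
    ∀ (N : ℕ) (x1 x2 : V), 1 ≤ N →
    ∀ (L : Subgroup G) (X1 X2 Yp Ym : Set G), PPK L X1 X2 ∅ Yp Ym → Geo d L X1 X2 ∅ x1 x2 →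
    ∀ x ∈ X1, x * x ∈ L → ∀ y ∈ X2, (3 ≤ N → Cl R G d (N - 1) x1 (x • x1)) →
    (∀ y' ∈ D2 L y, SP R G d N x1 (x • x1) x y') →
    ∀ (ε : ℤˣ) (n : ℕ) (ψ χ : Matrix (Fin n) (Fin n) (MonoidAlgebra R G)),
      SuppIn (D2 L x) ψ → SuppIn (D2 L y) χ →
      (nu ε (ψ + (ε : ℤ) • ψᴴ) 0 (χ + (ε : ℤ) • χᴴ)) ^ N = 0 → SS ε (UF ψ 0 χ)

/-- **SPB** (size 150, dep `SpecSTP`): a flip `x` and a non-flip `y`; and the exchange.

PROOF. Part 1: `specSYK` (3), (4), `SGSM.swapUF`, `SGSM.swap0` (as `SGSM.Cl_swap`). Part 2: data `L` with the ends `x1`, `x2`: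
`L = stabilizer x1 ⊓ stabilizer x2` (`st`). STP; let `y' ∈ D2 L y`, and take data `L'`, `X1'`, .. with the ends `x1`, `x • x1`:
`L' = stabilizer x1 ⊓ stabilizer (x • x1)`, which is `Kg L x` by `mBLG` (`st`), so `L' ≤ L`. `x x ∈ L'` (`x x` fixes `x1` and so
`x • x1`), `Ns L' x` (`x` exchanges `x1` and `x • x1`). `Flip L' y'` would imply `Flip L y'`, contradiction to `SGSM.D2_nonflip`. So
`LL.specSGN mDWP specDWG` for the ends `x1`, `x • x1` applies (`D2 L' x ⊆ dc L' x`; the elements of `D2 L' y'` are not flips: `D2_nonflip`). -/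
def SpecSPB : Prop :=
  ∀ (R G V : Type) [Ring R] [StarRing R] [Group G]
    [FCG R G] [MulAction G V] (d : V → V → ℕ), TM G d →
    ∀ (N : ℕ) (x1 x2 : V) (x y : G), 1 ≤ N →
    (SP R G d N x2 x1 y x → SP R G d N x1 x2 x y) ∧
    (x * x ∈ MulAction.stabilizer G x1 ⊓ MulAction.stabilizer G x2 →
      ¬ Flip (MulAction.stabilizer G x1 ⊓ MulAction.stabilizer G x2) y →
      (3 ≤ N → Cl R G d (N - 1) x1 (x • x1)) → SP R G d N x1 x2 x y)

/-! ### The barrier condition -/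

/-- **SPS** (size 220, deps `SpecSGV`, `SpecSTP`, `SpecSPB`; copy of `LL2/SPC.lean` with `GS` for `GP`): good pairs of flips.

PROOF. `reg`, `stx`, `sty` as in `LL2/SPC.lean`. `bx`: data `L` with the ends `x1`, `x2` (`L = K = stabilizer x1 ⊓ stabilizer x2`), `x ∈ X1`, `y ∈ X2`. `x` exchanges
`x1`, `x2`, so `Ns L x`; `D2 L x ⊆ La L x` (`D2_flip`, `SGSM.dc_La`), `D2 L y ⊆ dc L y`. Exchange (`SGSMP.swapUF`, `swap0`, `specSYK`): data `X2`, `X1` with the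
ends `x2`, `x1`; SGV for `g := y`, `c := La L x` (`Pt L X1 (La L x)`: `LL.SGNM.ptA`): it remains `UF χ' 0 ψ'` with `χ'` in `La (Kg L y) y`, `ψ'` in `La L x`, index
`N`: exchange, and the `Blk` of `bx`. `by'`: SGV for `g := x`, `c := La L y` (`LL.SGNM.ptA` for the exchanged data): `UF ψ' 0 χ'` with `ψ'` in
`La (Kg L x) x`, `χ'` in `La L y`: exchange, and the `Blk` of `by'`. -/
def SpecSPS : Prop :=
  ∀ (R G V : Type) [Ring R] [StarRing R] [Group G] [FCG R G] [MulAction G V]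
    (d : V → V → ℕ), TM G d →
    ∀ (Q : Subgroup G → Prop) (P : V → V → Prop) (N : ℕ), 1 ≤ N →
    (∀ x1 x2 : V, Q (MulAction.stabilizer G x1 ⊓ MulAction.stabilizer G x2) →
      Cl R G d N x1 x2) → Lng G d P → (3 ≤ N → ∀ x1 x2 : V, P x1 x2 → Cl R G d (N - 1) x1 x2) →
    ∀ (x1 x2 : V) (x y : G), GS R G Q x1 x2 x y → P x1 x2 →
      x * x ∈ MulAction.stabilizer G x1 ⊓ MulAction.stabilizer G x2 →
      y * y ∈ MulAction.stabilizer G x1 ⊓ MulAction.stabilizer G x2 → SP R G d N x1 x2 x y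

/-- **CLS** (size 180, deps `SpecSPB`, `SpecSPS`; copy of `LL2/CLN.lean`): all pairs of the class `P`.

PROOF. As `LL2/CLN.lean`. The additional premise `¬ (x • x1 = x2 ∧ y • x2 = x1)` for flips `x ∈ X1`, `y ∈ X2` of data with the ends `x1`, `x2` is proved at the
end of `LL.SGSM.lines` in `LL/SGS.lean` (extract it as a lemma). -/
def SpecCLS : Prop :=
  ∀ (R G V : Type) [Ring R] [StarRing R] [Group G] [FCG R G] [MulAction G V]
    (d : V → V → ℕ), TM G d →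
    ∀ (Q : Subgroup G → Prop) (P : V → V → Prop),
    (∀ N : ℕ, 1 ≤ N → ∀ x1 x2 : V,
      Q (MulAction.stabilizer G x1 ⊓ MulAction.stabilizer G x2) → Cl R G d N x1 x2) →
    Lng G d P →
    (∀ (x1 x2 : V) (x y : G), P x1 x2 →
      x * x ∈ MulAction.stabilizer G x1 ⊓ MulAction.stabilizer G x2 →
      y * y ∈ MulAction.stabilizer G x1 ⊓ MulAction.stabilizer G x2 →
      d x1 (x • x1) = d x1 x2 + d x2 (x • x1) → d x2 (y • x2) = d x2 x1 + d x1 (y • x2) →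
      ¬ (x • x1 = x2 ∧ y • x2 = x1) → GS R G Q x1 x2 x y) →
    (∀ N : ℕ, 1 ≤ N → ∀ x1 x2 : V, P x1 x2 → Cl R G d N x1 x2) ∧
    ∀ x1 x2 : V, P x1 x2 → SE R G d x1 x2 ∧ SE R G d x2 x1

/-- The barrier condition for the sequences of pairs whose paths contain `v`, `w`: at some stage the
stabilizer is in `Q`, or the forms with supports `K i * u i` and `K (i + 1) * u (i + 1)` are in the class. -/
def Bar (R G : Type) {V : Type} [Ring R] [StarRing R] [Group G] [FCG R G]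
    [MulAction G V] (d : V → V → ℕ) (Q : Subgroup G → Prop) (v w : V) : Prop :=
  ∀ (x y : ℕ → V) (u : ℕ → G), (∀ i, d (x i) (y i) = d (x i) v + d v w + d w (y i)) →
    (∀ i, u i • x i = y i ∧ u i • y i = x i) →
    (∀ i, x (i + 1) = x i ∨ y (i + 1) = y i) →
    (∀ i, d (x (i + 1)) (y (i + 1)) = d (x (i + 1)) (x i) + d (x i) (y i) + d (y i) (y (i + 1))) →
    (∀ i, d (x i) (y i) < d (x (i + 1)) (y (i + 1))) →
    (∀ i, ∃ h ∈ MulAction.stabilizer G (x i) ⊓ MulAction.stabilizer G (y i), u (i + 2) = h * u i) →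
    ∃ i, Q (MulAction.stabilizer G (x i) ⊓ MulAction.stabilizer G (y i)) ∨
      Blk R (La (MulAction.stabilizer G (x i) ⊓ MulAction.stabilizer G (y i)) (u i))
        (La (MulAction.stabilizer G (x (i + 1)) ⊓ MulAction.stabilizer G (y (i + 1)))
          (u (i + 1)))

/-- **CHT** (size 300; copy of `LL2/CHS.lean` with changes): chains.

PROOF. `Bt p q r : d p r = d p q + d q r`, `K = stabilizer x ⊓ stabilizer y`. By contradiction. A STATE: (`x`, `y`, `side`, `u`, `w`) with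
`d x y = d x v + d v w0 + d w0 y`, `u • x = y`, `u • y = x`, `w * w ∈ K`, `NI K u`, `NI K w`; `side = true`: `Bt y x (w • y)`, `w • y ≠ x`, `¬ GS x y u w`; `side = false`:
`Bt x y (w • x)`, `w • x ≠ y`, `¬ GS x y w u`. STEP (`side = true`): `¬ Q K` (`reg`), `¬ Blk R (La K u) (La (Kg K w) w)` (`bx`), and `¬ sty`: `u' ∈ dc K u`,
`u' u' ∈ K' = stabilizer (w • y) ⊓ stabilizer y`, `¬ GS (w • y) y u' w`. New state: `w • y`, `y`, `false`, `w`, `u'`. The checks are those of `LL2/CHS.lean` (there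
`¬ Ns K w` and `K' < K`, not needed here), and: `u' ∈ K u` (`Ns K u`, `SGSM.dc_La`) exchanges `x`, `y`; `u' • (w • y) ≠ y`: otherwise `w • y = u'⁻¹ • y = x`. Strictly
longer: `d (w • y) y = d (w • y) x + d x y` and `w • y ≠ x`. `K' = Kg K w` (`mem_Kg`): if `k` fixes `w y` and `y` it fixes `x` (`specTFA` (1)), and `w⁻¹ k w` fixes
`y` and `w⁻¹ y = w y` (`w w` fixes `y`), so `x`; conversely if `k ∈ K`, `w⁻¹ k w ∈ K` then `k` fixes `y` and `w y`. `side = false`: the same with the roles exchanged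
(`by'`, `¬ stx`). FIRST STATE from `¬ GS x1 x2 x y`: `¬ stx`: `y' ∈ dc K y`, `y' y' ∈ stabilizer x1 ⊓ stabilizer (x • x1)`, `¬ GS x1 (x • x1) x y'`: state `x1`, `x • x1`, `true`, `x`, `y'`;
`Bt (x • x1) x1 (y' • x • x1)`, more precisely (`LL2/CHS.lean`) with `q = x • x1`, `p = y' • x2`: `d q (y' q) = d q x2 + d x2 x1 + d x1 p + d p (y' q)`. `y' q ≠ x1`: otherwise
`d q x1 = d q (y' q)` gives `d x1 p = 0`, `d p (y' q) = 0`, so `y' x2 = x1`, `q = x2`, and (`y' = h y h'`, `h, h' ∈ K`) `y x2 = x1`: excluded. The sequence of the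
states contradicts `Bar`. -/
def SpecCHT : Prop :=
  ∀ (R G V : Type) [Ring R] [StarRing R] [Group G] [FCG R G] [MulAction G V]
    (d : V → V → ℕ), TM G d → ∀ (Q : Subgroup G → Prop) (v w : V), v ≠ w → Bar R G d Q v w →
    ∀ (x1 x2 : V) (x y : G), d x1 x2 = d x1 v + d v w + d w x2 →
      (∃ g : G, g • x1 = x2 ∧ g • x2 = x1) →
      x * x ∈ MulAction.stabilizer G x1 ⊓ MulAction.stabilizer G x2 →
      y * y ∈ MulAction.stabilizer G x1 ⊓ MulAction.stabilizer G x2 →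
      d x1 (x • x1) = d x1 x2 + d x2 (x • x1) → d x2 (y • x2) = d x2 x1 + d x1 (y • x2) →
      ¬ (x • x1 = x2 ∧ y • x2 = x1) → GS R G Q x1 x2 x y

/-- **FLT** (size 120, deps `SpecCLS`, `SpecCHT`; copy of `LL2/FLS.lean`, without `hln`): the theorem for trees. -/
def SpecFLT : Prop :=
  ∀ (R G V : Type) [Ring R] [StarRing R] [Group G] [FCG R G] [MulAction G V]
    (Q : Subgroup G → Prop) (T : SimpleGraph V) (v w : V),
    (∀ N : ℕ, 1 ≤ N → ∀ x y : V,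
      Q (MulAction.stabilizer G x ⊓ MulAction.stabilizer G y) → Cl R G T.dist N x y) →
    T.IsTree → (∀ (g : G) (x y : V), T.Adj x y → T.Adj (g • x) (g • y)) → T.Adj v w →
    (∀ g : G, ¬ (g • v = w ∧ g • w = v)) →
    Bar R G T.dist Q v w →
    ∀ (ε : ℤˣ) (n : ℕ) (ψ μ χ : Matrix (Fin n) (Fin n) (MonoidAlgebra R G)),
      SuppIn {g | g • v = v ∧ g • w ≠ w} ψ → SuppIn {g | g • v = w} μ →
      SuppIn {g | g • w = w ∧ g • v ≠ v} χ →
      IsNilpotent (nu ε (ψ + (ε : ℤ) • ψᴴ) μ (χ + (ε : ℤ) • χᴴ)) → SS ε (UF ψ μ χ)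

end Pool.Agent.Lib.MPb6f35e.TT.AR

/-! ## Module AR/CHT -/

/-! # folder AR, module CHT: chains of states, the barrier condition (helper21) -/

set_option autoImplicit false

namespace Pool.Agent.Lib.MPb6f35e.TT.AR

open Matrix Pool.Agent.Lib.MPb6f35e.TT.UV Pool.Agent.Lib.MPb6f35e.TT.AU Pool.Agent.Lib.MPb6f35e.TT.RO
open Pool.Agent.Lib.MPb6f35e.TT.ROK Pool.Agent.Lib.MPb6f35e.TT.LL
open Pool.Agent.Lib.MPb6f35e.TT.LL2 (Cnc Lng)

namespace CHTM

section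

variable {G V : Type} [Group G] [MulAction G V] {d : V → V → ℕ}

/-- the path of the first state -/
theorem firstBt (hd : TM G d) {x1 x2 q : V} {y y' k k' : G} (hne : x1 ≠ x2)
    (hq : d x1 q = d x1 x2 + d x2 q) (hy : d x2 (y • x2) = d x2 x1 + d x1 (y • x2))
    (hk1 : k • x1 = x1) (hk2 : k • x2 = x2) (hk'2 : k' • x2 = x2)
    (he : y' = k * y * k') (hyx : (y' * y') • x1 = x1) (hyq : (y' * y') • q = q) :
    d q (y' • q) = d q x2 + d x2 x1 + d x1 (y' • x2) + d (y' • x2) (y' • q) := by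
  have hp : y' • x2 = k • (y • x2) := by
    rw [he, mul_smul, mul_smul, hk'2]
  have hb : d x2 (y' • x2) = d x2 x1 + d x1 (y' • x2) := by
    have e1 := hd.iso k x2 (y • x2)
    have e2 := hd.iso k x1 (y • x2)
    rw [hk2] at e1
    rw [hk1] at e2
    rw [hp]
    omega
  have hyy2 : (y' * y') • x2 = x2 := (specTFA G V d hd).1 (y' * y') x1 x2 q hq hyx hyq
  rw [mul_smul] at hyy2
  -- `y'` applied to the two paths
  have ha1 : d (y' • x1) (y' • q) = d (y' • x1) (y' • x2) + d (y' • x2) (y' • q) := by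
    rw [hd.iso, hd.iso, hd.iso]
    exact hq
  have ha2 : d (y' • x2) x2 = d (y' • x2) (y' • x1) + d (y' • x1) x2 := by
    have e1 := hd.iso y' x2 (y' • x2)
    have e2 := hd.iso y' x2 x1
    have e3 := hd.iso y' x1 (y' • x2)
    rw [hyy2] at e1 e3
    omega
  have hne' : y' • x1 ≠ y' • x2 := by
    intro h
    exact hne (MulAction.injective y' h)
  have ht1 := (specTFA G V d hd).2.1 x1 x2 q (y' • x2) hne hq hb
  have ht2 := (specTFA G V d hd).2.1 (y' • x1) (y' • x2) (y' • q) x2 hne' ha1 ha2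
  have hne'' : x2 ≠ y' • x2 := by
    intro h
    have e1 := (hd.d0 x2 (y' • x2)).2 h
    have e2 : d x2 x1 = 0 := by omega
    exact hne ((hd.d0 x2 x1).1 e2).symm
  have c1 := hd.cm x2 (y' • x2)
  have c2 := hd.cm (y' • q) x2
  have c3 := hd.cm (y' • q) (y' • x2)
  have c4 := hd.cm q (y' • x2)
  have c5 := hd.cm x2 q
  have hf1 : d x2 (y' • q) = d x2 (y' • x2) + d (y' • x2) (y' • q) := by omega
  have hf2 : d (y' • x2) q = d (y' • x2) x2 + d x2 q := by omega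
  have ht3 := (specTFA G V d hd).2.1 x2 (y' • x2) (y' • q) q hne'' hf1 hf2
  have c6 := hd.cm (y' • q) q
  omega

/-- the stabilizer of a longer exchanged pair -/
theorem kg_eq (hd : TM G d) {a b : V} {w : G} (hB : d a (w • a) = d a b + d b (w • a))
    (hww : w • w • a = a) :
    MulAction.stabilizer G a ⊓ MulAction.stabilizer G (w • a) =
      Kg (MulAction.stabilizer G a ⊓ MulAction.stabilizer G b) w := by
  have hi : w⁻¹ • a = w • a := by
    rw [inv_smul_eq_iff]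
    exact hww.symm
  ext k
  rw [RO.mem_Kg]
  simp only [Subgroup.mem_inf, MulAction.mem_stabilizer_iff]
  constructor
  · rintro ⟨h1, h2⟩
    have h3 : (w⁻¹ * k * w) • a = a := by
      rw [mul_smul, mul_smul, h2, inv_smul_smul]
    have h4 : (w⁻¹ * k * w) • (w • a) = w • a := by
      rw [mul_smul, mul_smul, hww, h1, hi]
    exact ⟨⟨h1, (specTFA G V d hd).1 k a b (w • a) hB h1 h2⟩, h3,
      (specTFA G V d hd).1 (w⁻¹ * k * w) a b (w • a) hB h3 h4⟩
  · rintro ⟨⟨h1, h2⟩, h3, h4⟩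
    refine ⟨h1, ?_⟩
    rw [mul_smul, mul_smul, inv_smul_eq_iff] at h3
    exact h3

end

section

variable (R G : Type) {V : Type} [Ring R] [StarRing R] [Group G] [FCG R G]
  [MulAction G V] (d : V → V → ℕ) (Q : Subgroup G → Prop) (v w0 : V)

/-- a state of the chain -/
structure St where
  x : V
  y : V
  s : Bool
  u : G
  w : G
  path : d x y = d x v + d v w0 + d w0 y
  ux : u • x = y
  uy : u • y = x
  ww : w * w ∈ MulAction.stabilizer G x ⊓ MulAction.stabilizer G y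
  tr : s = true → d y (w • y) = d y x + d x (w • y) ∧ w • y ≠ x ∧ ¬ GS R G Q x y u w
  fl : s = false → d x (w • x) = d x y + d y (w • x) ∧ w • x ≠ y ∧ ¬ GS R G Q x y w u

end

section

variable {R G V : Type} [Ring R] [StarRing R] [Group G] [FCG R G] [MulAction G V]
  {d : V → V → ℕ} {Q : Subgroup G → Prop} {v w0 : V}

/-- the stabilizer of a state is not in `Q` -/
theorem not_Q (b : St R G d Q v w0) :
    ¬ Q (MulAction.stabilizer G b.x ⊓ MulAction.stabilizer G b.y) := by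
  intro h
  cases hs : b.s with
  | true => exact (b.tr hs).2.2 (GS.reg h)
  | false => exact (b.fl hs).2.2 (GS.reg h)

/-- the step -/
theorem step (hd : TM G d) (hvw : v ≠ w0) (b : St R G d Q v w0) :
    ∃ b' : St R G d Q v w0, b'.u = b.w ∧
      (∃ h ∈ MulAction.stabilizer G b.x ⊓ MulAction.stabilizer G b.y, b'.w = h * b.u) ∧
      (b'.x = b.x ∨ b'.y = b.y) ∧
      d b'.x b'.y = d b'.x b.x + d b.x b.y + d b.y b'.y ∧
      d b.x b.y < d b'.x b'.y ∧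
      ¬ Blk R (La (MulAction.stabilizer G b.x ⊓ MulAction.stabilizer G b.y) b.u)
        (La (MulAction.stabilizer G b'.x ⊓ MulAction.stabilizer G b'.y) b'.u) := by
  obtain ⟨x, y, s, u, w, path, ux, uy, ww, tr, fl⟩ := b
  have hvw0 : d v w0 ≠ 0 := fun h => hvw ((hd.d0 v w0).1 h)
  have hxy : x ≠ y := by
    intro h
    have := (hd.d0 x y).2 h
    omega
  have hNu : Ns (MulAction.stabilizer G x ⊓ MulAction.stabilizer G y) u := LL2.CHSM.ns_of ux uy
  have hwx : w • w • x = x := by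
    have := ww
    rw [Subgroup.mem_inf, MulAction.mem_stabilizer_iff, mul_smul] at this
    exact this.1
  have hwy : w • w • y = y := by
    have := ww
    rw [Subgroup.mem_inf, MulAction.mem_stabilizer_iff, MulAction.mem_stabilizer_iff, mul_smul,
      mul_smul] at this
    exact this.2
  -- elements of the double coset of `u` exchange `x` and `y`
  have hex : ∀ u' ∈ dc (MulAction.stabilizer G x ⊓ MulAction.stabilizer G y) u,
      (∃ h ∈ MulAction.stabilizer G x ⊓ MulAction.stabilizer G y, u' = h * u) ∧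
      u' • x = y ∧ u' • y = x := by
    intro u' hu'
    obtain ⟨h, hh, e⟩ := SGSM.dc_La hNu hu'
    refine ⟨⟨h, hh, e⟩, ?_, ?_⟩
    · rw [e, mul_smul, ux]
      exact (Subgroup.mem_inf.1 hh).2
    · rw [e, mul_smul, uy]
      exact (Subgroup.mem_inf.1 hh).1
  cases s with
  | true =>
    obtain ⟨hB, hne, hn⟩ := tr rfl
    have hK : MulAction.stabilizer G (w • y) ⊓ MulAction.stabilizer G y =
        Kg (MulAction.stabilizer G x ⊓ MulAction.stabilizer G y) w := by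
      rw [inf_comm (MulAction.stabilizer G (w • y)), inf_comm (MulAction.stabilizer G x)]
      exact kg_eq hd hB hwy
    have hle : MulAction.stabilizer G (w • y) ⊓ MulAction.stabilizer G y ≤
        MulAction.stabilizer G x ⊓ MulAction.stabilizer G y := by
      rw [inf_comm (MulAction.stabilizer G (w • y)), inf_comm (MulAction.stabilizer G x)]
      exact LL2.CHSM.le_of hd hB
    have hblk : ¬ Blk R (La (MulAction.stabilizer G x ⊓ MulAction.stabilizer G y) u)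
        (La (MulAction.stabilizer G (w • y) ⊓ MulAction.stabilizer G y) w) := by
      rw [hK]
      exact fun h => hn (GS.bx ux uy h)
    have hsty : ¬ ∀ x' ∈ dc (MulAction.stabilizer G x ⊓ MulAction.stabilizer G y) u,
        x' * x' ∈ MulAction.stabilizer G (w • y) ⊓ MulAction.stabilizer G y →
        GS R G Q (w • y) y x' w := fun h => hn (GS.sty h)
    push Not at hsty
    obtain ⟨u', hu', huu, hg⟩ := hsty
    obtain ⟨⟨h, hh, e⟩, hu1, hu2⟩ := hex u' hu'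
    have hpos : 0 < d (w • y) x := by
      rcases Nat.eq_zero_or_pos (d (w • y) x) with h0 | h0
      · exact absurd ((hd.d0 _ _).1 h0) hne
      · exact h0
    refine ⟨⟨w • y, y, false, w, u', ?_, hwy, rfl, huu, ?_, ?_⟩, rfl, ⟨h, hh, e⟩,
      Or.inr rfl, ?_, ?_, hblk⟩
    · have t1 := hd.tri (w • y) x v
      have t2 := hd.tri (w • y) v y
      have t3 := hd.tri v w0 y
      have c1 := hd.cm (w • y) y
      have c2 := hd.cm y x
      have c3 := hd.cm x (w • y)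
      omega
    · intro h
      exact absurd h (by decide)
    · intro _
      refine ⟨LL2.CHSM.stepBt hd hxy hB hu1 hu2, ?_, hg⟩
      intro h0
      exact hne (MulAction.injective u' (h0.trans hu1.symm))
    · show d (w • y) y = d (w • y) x + d x y + d y y
      have t1 := (hd.d0 y y).2 rfl
      have c1 := hd.cm (w • y) y
      have c2 := hd.cm y x
      have c3 := hd.cm x (w • y)
      omega
    · show d x y < d (w • y) y
      have c1 := hd.cm (w • y) y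
      have c2 := hd.cm y x
      have c3 := hd.cm x (w • y)
      omega
  | false =>
    obtain ⟨hB, hne, hn⟩ := fl rfl
    have hK : MulAction.stabilizer G x ⊓ MulAction.stabilizer G (w • x) =
        Kg (MulAction.stabilizer G x ⊓ MulAction.stabilizer G y) w := kg_eq hd hB hwx
    have hle : MulAction.stabilizer G x ⊓ MulAction.stabilizer G (w • x) ≤
        MulAction.stabilizer G x ⊓ MulAction.stabilizer G y := LL2.CHSM.le_of hd hB
    have hblk : ¬ Blk R (La (MulAction.stabilizer G x ⊓ MulAction.stabilizer G y) u)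
        (La (MulAction.stabilizer G x ⊓ MulAction.stabilizer G (w • x)) w) := by
      rw [hK]
      exact fun h => hn (GS.by' ux uy h)
    have hstx : ¬ ∀ y' ∈ dc (MulAction.stabilizer G x ⊓ MulAction.stabilizer G y) u,
        y' * y' ∈ MulAction.stabilizer G x ⊓ MulAction.stabilizer G (w • x) →
        GS R G Q x (w • x) w y' := fun h => hn (GS.stx h)
    push Not at hstx
    obtain ⟨u', hu', huu, hg⟩ := hstx
    obtain ⟨⟨h, hh, e⟩, hu1, hu2⟩ := hex u' hu'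
    have hpos : 0 < d y (w • x) := by
      rcases Nat.eq_zero_or_pos (d y (w • x)) with h0 | h0
      · exact absurd ((hd.d0 _ _).1 h0).symm hne
      · exact h0
    refine ⟨⟨x, w • x, true, w, u', ?_, rfl, hwx, huu, ?_, ?_⟩, rfl, ⟨h, hh, e⟩,
      Or.inl rfl, ?_, ?_, hblk⟩
    · have t1 := hd.tri w0 y (w • x)
      have t2 := hd.tri x v (w • x)
      have t3 := hd.tri v w0 (w • x)
      omega
    · intro _
      refine ⟨LL2.CHSM.stepBt hd hxy.symm hB hu2 hu1, ?_, hg⟩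
      intro h0
      exact hne (MulAction.injective u' (h0.trans hu2.symm))
    · intro h
      exact absurd h (by decide)
    · show d x (w • x) = d x x + d x y + d y (w • x)
      have t1 := (hd.d0 x x).2 rfl
      omega
    · show d x y < d x (w • x)
      omega

/-- the first state -/
theorem first (hd : TM G d) (hvw : v ≠ w0)
    {x1 x2 : V} {x y : G} (path : d x1 x2 = d x1 v + d v w0 + d w0 x2)
    (hxx : x * x ∈ MulAction.stabilizer G x1 ⊓ MulAction.stabilizer G x2)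
    (hx : d x1 (x • x1) = d x1 x2 + d x2 (x • x1)) (hy : d x2 (y • x2) = d x2 x1 + d x1 (y • x2))
    (hne : ¬ (x • x1 = x2 ∧ y • x2 = x1))
    (hn : ¬ GS R G Q x1 x2 x y) : Nonempty (St R G d Q v w0) := by
  have hvw0 : d v w0 ≠ 0 := fun h => hvw ((hd.d0 v w0).1 h)
  have hxy : x1 ≠ x2 := by
    intro h
    have := (hd.d0 x1 x2).2 h
    omega
  have hxx1 : x • x • x1 = x1 := by
    have := hxx
    rw [Subgroup.mem_inf, MulAction.mem_stabilizer_iff, mul_smul] at this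
    exact this.1
  have hstx : ¬ ∀ y' ∈ dc (MulAction.stabilizer G x1 ⊓ MulAction.stabilizer G x2) y,
      y' * y' ∈ MulAction.stabilizer G x1 ⊓ MulAction.stabilizer G (x • x1) →
      GS R G Q x1 (x • x1) x y' := fun h => hn (GS.stx h)
  push Not at hstx
  obtain ⟨y', hy', hyy', hg⟩ := hstx
  have hle : MulAction.stabilizer G x1 ⊓ MulAction.stabilizer G (x • x1) ≤
      MulAction.stabilizer G x1 ⊓ MulAction.stabilizer G x2 := LL2.CHSM.le_of hd hx
  obtain ⟨k, hk, k', hk', e⟩ := hy'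
  have hy'' : y' ∈ dc (MulAction.stabilizer G x1 ⊓ MulAction.stabilizer G x2) y :=
    ⟨k, hk, k', hk', e⟩
  have hP := firstBt hd hxy hx hy (Subgroup.mem_inf.1 hk).1 (Subgroup.mem_inf.1 hk).2
    (Subgroup.mem_inf.1 hk').2 e (Subgroup.mem_inf.1 hyy').1 (Subgroup.mem_inf.1 hyy').2
  refine ⟨⟨x1, x • x1, true, x, y', ?_, rfl, hxx1, hyy', ?_, ?_⟩⟩
  · have t1 := hd.tri w0 x2 (x • x1)
    have t2 := hd.tri x1 v (x • x1)
    have t3 := hd.tri v w0 (x • x1)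
    omega
  · intro _
    refine ⟨?_, ?_, hg⟩
    · have c1 := hd.cm x2 x1
      have c2 := hd.cm (x • x1) x1
      have c3 := hd.cm (x • x1) x2
      have t2 := hd.tri x1 (y' • x2) (y' • x • x1)
      have t3 := hd.tri (x • x1) x1 (y' • x • x1)
      omega
    · intro h0
      rw [h0] at hP
      have c1 := hd.cm x2 x1
      have c2 := hd.cm (x • x1) x1
      have c3 := hd.cm (x • x1) x2
      have hz : d x1 (y' • x2) = 0 := by omega
      have hp : x1 = y' • x2 := (hd.d0 _ _).1 hz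
      apply hne
      constructor
      · exact MulAction.injective y' (h0.trans hp)
      · have h1 : k • (y • x2) = x1 := by
          have h2 : (k' : G) • x2 = x2 := (Subgroup.mem_inf.1 hk').2
          rw [e, mul_smul, mul_smul, h2] at hp
          exact hp.symm
        have h3 : k • x1 = x1 := (Subgroup.mem_inf.1 hk).1
        exact MulAction.injective k (h1.trans h3.symm)
  · intro h
    exact absurd h (by decide)

end

end CHTM

open CHTM in
theorem specCHT : SpecCHT := by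
  intro R G V _ _ _ _ _ d hd Q v w hvw hbar x1 x2 x y path _ hxx _ hx hy hne
  by_contra hn
  obtain ⟨b0⟩ := first (R := R) hd hvw path hxx hx hy hne hn
  choose nx hn1 hn2 hn3 hn4 hn5 hn6 using step (R := R) (Q := Q) hd hvw
  let s : ℕ → St R G d Q v w := fun n => Nat.rec b0 (fun _ b => nx b) n
  obtain ⟨i, hi⟩ := hbar (fun n => (s n).x) (fun n => (s n).y) (fun n => (s n).u)
    (fun n => (s n).path) (fun n => ⟨(s n).ux, (s n).uy⟩) (fun n => hn3 (s n)) (fun n => hn4 (s n))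
    (fun n => hn5 (s n))
    (fun n => by
      obtain ⟨h, hh, e⟩ := hn2 (s n)
      refine ⟨h, hh, ?_⟩
      have e1 : (s (n + 2)).u = (s (n + 1)).w := hn1 (s (n + 1))
      have e2 : (s (n + 1)).w = h * (s n).u := e
      show (s (n + 2)).u = h * (s n).u
      rw [e1, e2])
  rcases hi with hi | hi
  · exact not_Q (s i) hi
  · exact hn6 (s i) hi

end Pool.Agent.Lib.MPb6f35e.TT.AR

/-! ## Module AR/CLS -/

/-! # Classes of forms (MP_8a3537_gt, folder AR), module CLS: all pairs of the class `P` (copy of `LL2/CLN.lean`) -/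

set_option autoImplicit false
set_option linter.unusedSectionVars false

namespace Pool.Agent.Lib.MPb6f35e.TT.AR

open Matrix Pool.Agent.Lib.MPb6f35e.TT.UV Pool.Agent.Lib.MPb6f35e.TT.AU Pool.Agent.Lib.MPb6f35e.TT.RO
open Pool.Agent.Lib.MPb6f35e.TT.ROK Pool.Agent.Lib.MPb6f35e.TT.LL
open Pool.Agent.Lib.MPb6f35e.TT.LL2 (Cnc Lng)
open Pool.Agent.Lib.MPb6f35e.TT

namespace CLSM

section

variable {G V : Type} [Group G] [MulAction G V] {d : V → V → ℕ} {x1 x2 : V}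

/-- A flip of `X1` and a flip of `X2` do not both exchange the ends. -/
theorem nexch {L : Subgroup G} {X1 X2 Yp Ym : Set G} (P : PPK L X1 X2 ∅ Yp Ym)
    (hg : Geo d L X1 X2 ∅ x1 x2) {g f : G} (hg1 : g ∈ X1) (hf2 : f ∈ X2) (hgg : g * g ∈ L)
    (hff : f * f ∈ L) : ¬ (g • x1 = x2 ∧ f • x2 = x1) := by
  rintro ⟨e1, e2⟩
  have g2 : g • x2 = x1 := by
    rw [← e1, ← mul_smul]
    exact ((hg.st _).1 hgg).1
  have f1 : f • x1 = x2 := by
    rw [← e2, ← mul_smul]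
    exact ((hg.st _).1 hff).2
  have hl : g⁻¹ * f ∈ L := by
    refine (hg.st _).2 ⟨?_, ?_⟩
    · rw [mul_smul, f1, ← e1, inv_smul_smul]
    · rw [mul_smul, e2]
      nth_rewrite 1 [← g2]
      rw [inv_smul_smul]
  have hf1 : f ∈ X1 := by
    have := P.X1r _ hl g hg1
    rwa [mul_inv_cancel_left] at this
  have y1 : f ∈ Ym := by
    have := P.X1Y f hf1 1 P.Yp1
    rwa [mul_one] at this
  have y2 : f ∈ Yp := by
    have := P.X2Y f hf2 1 P.Ym1
    rwa [mul_one] at this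
  exact P.xh true false f hf2 (P.yy f y2 y1)

variable {R : Type} [Ring R] [StarRing R] [FCG R G]

/-- the claims for all indices give `SE` -/
theorem se_of' (h : ∀ N : ℕ, 1 ≤ N → Cl R G d N x1 x2) : SE R G d x1 x2 := by
  intro L g Xb Yp Ym P hg _ _ ε n ψ χ hψ hχ hν
  obtain ⟨N, hN⟩ := hν
  refine h (N + 1) (by omega) L (La L g) Xb Yp Ym P hg ε n ψ χ hψ hχ ?_
  rw [pow_succ, hN, zero_mul]

end

end CLSM

open CLSM LL2.CLNM SGSM in
/-- **CLS**: all pairs of the class `P`. -/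
theorem specCLS (hSPB : SpecSPB) (hSPS : SpecSPS) : SpecCLS := by
  intro R G V _ _ _ _ _ d hT Q P hQ hP hGP
  have hCl : ∀ N : ℕ, 1 ≤ N → ∀ x1 x2 : V, P x1 x2 → Cl R G d N x1 x2 := by
    intro N
    induction N with
    | zero => intro h; omega
    | succ N ih =>
      intro hN x1 x2 hx
      have hc : 3 ≤ N + 1 → ∀ x1 x2 : V, P x1 x2 → Cl R G d (N + 1 - 1) x1 x2 := fun h => by
        rw [Nat.add_sub_cancel]
        exact ih (by omega)
      intro L X1 X2 Yp Ym PP hg ε n ψ χ hψ hχ hν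
      refine mDCM R G V d hT (N + 1) x1 x2 hN (fun h => hc h x1 x2 hx) L X1 X2 Yp Ym PP hg ?_
        ε n ψ χ hψ hχ hν
      clear hψ hχ hν ψ χ n ε
      intro x hx1 y hy2 ε n ψ χ hψ hχ hν
      have hL := stab hg
      subst hL
      have sm : ∀ g : G, g * g ∈ MulAction.stabilizer G x1 ⊓ MulAction.stabilizer G x2 →
          g • g • x1 = x1 ∧ g • g • x2 = x2 := by
        intro g h
        rw [← mul_smul, ← mul_smul]
        exact (hg.st _).1 h
      by_cases fx : Flip (MulAction.stabilizer G x1 ⊓ MulAction.stabilizer G x2) x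
      · obtain ⟨h, hh, hgg, hxd⟩ := ROTAux.exists_flip fx
        have hgX : x * h ∈ X1 := PP.X1r h hh x hx1
        have hψg : SuppIn (D2 (MulAction.stabilizer G x1 ⊓ MulAction.stabilizer G x2) (x * h)) ψ :=
          fun i j z hz => Or.inl (D2_flip hgg hxd (hψ i j z hz))
        by_cases fy : Flip (MulAction.stabilizer G x1 ⊓ MulAction.stabilizer G x2) y
        · obtain ⟨k, hk, hff, hyd⟩ := ROTAux.exists_flip fy
          have hfX : y * k ∈ X2 := PP.X2r k hk y hy2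
          have hχf : SuppIn (D2 (MulAction.stabilizer G x1 ⊓ MulAction.stabilizer G x2) (y * k)) χ :=
            fun i j z hz => Or.inl (D2_flip hff hyd (hχ i j z hz))
          exact hSPS R G V d hT Q P (N + 1) hN (hQ (N + 1) hN) hP hc x1 x2 (x * h) (y * k)
            (hGP x1 x2 (x * h) (y * k) hx hgg hff (mv1 hT hg hgX) (mv2 hT hg hfX) 
              (nexch PP hg hgX hfX hgg hff)) hx hgg hff _ X1 X2 Yp Ym PP hg hgX hfX ε n ψ χ hψg hχf hν
        · exact (hSPB R G V d hT (N + 1) x1 x2 (x * h) y hN).2 hgg fy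
            (fun h3 => hc h3 x1 _ (hP.r x1 x2 (x * h) hx (sm _ hgg).1 (mv1 hT hg hgX)))
            _ X1 X2 Yp Ym PP hg hgX hy2 ε n ψ χ hψg hχ hν
      · by_cases fy : Flip (MulAction.stabilizer G x1 ⊓ MulAction.stabilizer G x2) y
        · obtain ⟨k, hk, hff, hyd⟩ := ROTAux.exists_flip fy
          have hfX : y * k ∈ X2 := PP.X2r k hk y hy2
          have hχf : SuppIn (D2 (MulAction.stabilizer G x1 ⊓ MulAction.stabilizer G x2) (y * k)) χ :=
            fun i j z hz => Or.inl (D2_flip hff hyd (hχ i j z hz))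
          have hff' : y * k * (y * k) ∈ MulAction.stabilizer G x2 ⊓ MulAction.stabilizer G x1 := by
            rw [inf_comm]
            exact hff
          have fx' : ¬ Flip (MulAction.stabilizer G x2 ⊓ MulAction.stabilizer G x1) x := by
            rw [inf_comm]
            exact fx
          exact (hSPB R G V d hT (N + 1) x1 x2 x (y * k) hN).1
            ((hSPB R G V d hT (N + 1) x2 x1 (y * k) x hN).2 hff' fx' (fun h3 => SGSMP.Cl_swap
              (hc h3 _ x2 (hP.l x1 x2 (y * k) hx (sm _ hff).2 (mv2 hT hg hfX)))))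
            _ X1 X2 Yp Ym PP hg hx1 hfX ε n ψ χ hψ hχf hν
        · have h0 : SuppIn (∅ : Set G) (0 : Matrix (Fin n) (Fin n) (MonoidAlgebra R G)) := by
            intro i j z hz
            exact absurd rfl hz
          exact mNWT R G _ X1 X2 ∅ Yp Ym PP.toPingPong ε n ψ 0 χ
            (fun i j z hz => DCMM.D2_sub PP hx1 z (hψ i j z hz)) h0
            (fun i j z hz => sub2 PP hy2 z (hχ i j z hz)) ⟨N + 1, hν⟩
            (fun i j z hz => D2_nonflip fx (hψ i j z hz))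
            (fun i j z hz => D2_nonflip fy (hχ i j z hz))
  refine ⟨hCl, fun x1 x2 hx => ⟨se_of' fun N hN => hCl N hN x1 x2 hx, se_of' fun N hN => ?_⟩⟩
  exact SGSMP.Cl_swap (hCl N hN x1 x2 hx)

end Pool.Agent.Lib.MPb6f35e.TT.AR
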