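import Pool.Agent.Lib.MP_b6f35e_al.TT.R1

/-! # Modules for Theorem DT (MP_b6f35e_al, Q2): trees, part 1 (copies of modules of MP_8a3537_gt, without the
conditions on elements of order two) -/

/-! ## Module ROK/Defs -/

/-!
# Arbitrary edge groups, long exchanged segments (MP_8a3537_gt, folder ROK): definitions

Paper: `/team-store/8a3537_ROK_h28.md`; the notation is that of the folder RO (`true` is the type
`1`, `false` the type `2`; first index target, second index source).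
-/

namespace Pool.Agent.Lib.MPb6f35e.TT.ROK

open Matrix Pool.Agent.Lib.MPb6f35e.TT.UV Pool.Agent.Lib.MPb6f35e.TT.AU Pool.Agent.Lib.MPb6f35e.TT.RO

section Groups

variable {G : Type} [Group G]

/-- Ping-pong data with the properties (D1), (D2) of the paper. -/
structure PPK (H : Subgroup G) (X1 X2 X3 Yp Ym : Set G) : Prop extends
    PingPong H X1 X2 X3 Yp Ym where
  yy : ∀ y, y ∈ Yp → y ∈ Ym → y ∈ H
  xh : ∀ s t x, x ∈ XX X1 X2 X3 s t → x ∉ H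
  cj : ∀ s t x h, x ∈ XX X1 X2 X3 s t → h ∈ H → x * h * x⁻¹ ∈ H ∨
    ∀ y ∈ YB Yp Ym (!s), x * h * x⁻¹ * y ∉ YB Yp Ym (!s)

/-- The set `L g`. -/
def La (L : Subgroup G) (g : G) : Set G := {x | ∃ l ∈ L, x = l * g}

/-- The words from `2` to `1` which avoid `H g H`. -/
def BX (H : Subgroup G) (X1 X2 X3 : Set G) (g : G) : Set G :=
  WS H {x | x ∈ X1 ∧ x ∉ dc H g} X2 X3 true false

/-- Alternating products of elements of `Xa` (from `true` to `false`) and `Xb` (from `false` to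
`true`), with target `s`. -/
inductive YK (L : Subgroup G) (Xa Xb : Set G) : Bool → G → Prop
  | base {s : Bool} {l : G} : l ∈ L → YK L Xa Xb s l
  | sa {x y : G} : x ∈ Xa → YK L Xa Xb true y → YK L Xa Xb false (x * y)
  | sb {x y : G} : x ∈ Xb → YK L Xa Xb false y → YK L Xa Xb true (x * y)

/-- The set of the alternating products with target `s`. -/
def YS (L : Subgroup G) (Xa Xb : Set G) (s : Bool) : Set G := {y | YK L Xa Xb s y}

/-- A half of (a part of) `Xb`: biinvariant and disjoint from its inverse. -/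
structure Hf (L : Subgroup G) (Xb W : Set G) : Prop where
  sub : ∀ x ∈ W, x ∈ Xb
  bi : Bi L W
  ni : ∀ x ∈ W, x⁻¹ ∉ W

/-- The words `z1 e1 z2 e2 ⋯ zk`, `zi ∈ W`, `ei ∈ Xa`, `k ≥ 1`. -/
inductive TT (Xa W : Set G) : G → Prop
  | base {z : G} : z ∈ W → TT Xa W z
  | cons {z e w : G} : z ∈ W → e ∈ Xa → TT Xa W w → TT Xa W (z * e * w)

/-- The set of these words. -/
def TS (Xa W : Set G) : Set G := {w | TT Xa W w}

/-- The set `T⁻¹ Xa T` of the derived data. -/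
def XD (Xa W : Set G) : Set G := {z | ∃ w ∈ TS Xa W, ∃ e ∈ Xa, ∃ w' ∈ TS Xa W, z = w⁻¹ * e * w'}

end Groups

/-! ### Geometry -/

section Geometry

variable {G V : Type} [Group G] [MulAction G V]

/-- An invariant integral tree metric (`0`-hyperbolic). -/
structure TM (G : Type) {V : Type} [Group G] [MulAction G V] (d : V → V → ℕ) : Prop where
  d0 : ∀ x y, d x y = 0 ↔ x = y
  cm : ∀ x y, d x y = d y x
  tri : ∀ x y z, d x z ≤ d x y + d y z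
  four : ∀ x y z w, d x y + d z w ≤ max (d x z + d y w) (d x w + d y z)
  iso : ∀ (g : G) (x y : V), d (g • x) (g • y) = d x y

/-- The points beyond the end `x1` (`true`), beyond the end `x2` (`false`) of the segment. -/
def DD (d : V → V → ℕ) (x1 x2 : V) : Bool → Set V
  | true => {p | d x2 p = d x2 x1 + d x1 p}
  | false => {p | d x1 p = d x1 x2 + d x2 p}

/-- The ends of the data, (D3) of the paper. -/
structure Geo (d : V → V → ℕ) (H : Subgroup G) (X1 X2 X3 : Set G) (x1 x2 : V) : Prop where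
  ne : x1 ≠ x2
  st : ∀ g : G, g ∈ H ↔ g • x1 = x1 ∧ g • x2 = x2
  mv : ∀ s t x p, x ∈ XX X1 X2 X3 s t → p ∈ DD d x1 x2 t → x • p ∈ DD d x1 x2 s

/-- The theorem for all data of block type with the ends `x1`, `x2`. -/
def SE (R G : Type) {V : Type} [Ring R] [StarRing R] [Group G] [MulAction G V] (d : V → V → ℕ)
    (x1 x2 : V) : Prop :=
  ∀ (L : Subgroup G) (g : G) (Xb Yp Ym : Set G), PPK L (La L g) Xb ∅ Yp Ym →
    Geo d L (La L g) Xb ∅ x1 x2 → g • x1 = x2 → g • x2 = x1 → Blk R (La L g) Xb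

/-- `f` exchanges `x2` and `f x2`, and `x1` lies on the segment from `x2` to `f x2`, `x1 ≠ f x2`. -/
def Nx (d : V → V → ℕ) (x1 x2 : V) (f : G) : Prop :=
  f • f • x2 = x2 ∧ d x2 (f • x2) = d x2 x1 + d x1 (f • x2) ∧ f • x2 ≠ x1

/-- The stabilizer of `x` and `y` has a regular group ring. -/
def Rg (R G : Type) {V : Type} [Ring R] [StarRing R] [Group G] [MulAction G V] (x y : V) : Prop :=
  AuslanderRegular (MonoidAlgebra R ↥(MulAction.stabilizer G x ⊓ MulAction.stabilizer G y)) ∨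
    FP (MonoidAlgebra R ↥(MulAction.stabilizer G x ⊓ MulAction.stabilizer G y))

/-- The condition on the pair `x1`, `x2`: regular, or the condition holds for all longer exchanged
pairs `x2`, `f x2`. -/
inductive Gd (R G : Type) {V : Type} [Ring R] [StarRing R] [Group G] [MulAction G V]
    (d : V → V → ℕ) : V → V → Prop
  | reg {x1 x2 : V} : Rg R G x1 x2 → Gd R G d x1 x2
  | step {x1 x2 : V} : (∀ f : G, Nx d x1 x2 f → Gd R G d x2 (f • x2)) → Gd R G d x1 x2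

end Geometry

/-! ### Matrices -/

/-- `Z = ε ∑_{i < N} (ε q a)^i q`. -/
noncomputable def zet {A : Type} [Ring A] {n : ℕ} (ε : ℤˣ) (N : ℕ) (q a : Matrix (Fin n) (Fin n) A) :
    Matrix (Fin n) (Fin n) A :=
  (ε : ℤ) • ((∑ i ∈ Finset.range N, ((ε : ℤ) • (q * a)) ^ i) * q)

end Pool.Agent.Lib.MPb6f35e.TT.ROK

/-! ## Module ROK/Spec -/

/-!
# Arbitrary edge groups, long exchanged segments: Specs

Paper proof: `/team-store/8a3537_ROK_h28.md`. Every module `XXX` is a file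
`Pool/Agent/Lib/MP_8a3537_gt/ROK/XXX.lean` which imports this file and proves
`theorem specXXX (hypotheses in the order of the deps) : SpecXXX` (exactly this name) in the namespace
`Pool.Agent.Lib.MPb6f35e.TT.ROK`, with its auxiliary declarations in `ROK.XXXAux`. The landed modules of
the folders `UV`, `AU`, `RO` may be imported where it is useful; the deps `RO.SpecXXX` are hypotheses
(`(hUNQ : RO.SpecUNQ)` etc.).

In all modules `H`, `X1`, `X2`, `X3`, `Yp`, `Ym` are data with `PPK` and, for `g ∈ X1` with `g² ∈ H`,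
the set `X1' = {x | x ∈ X1 ∧ x ∉ dc H g}` is used for the words of the block.
-/

namespace Pool.Agent.Lib.MPb6f35e.TT.ROK

open Matrix Pool.Agent.Lib.MPb6f35e.TT.UV Pool.Agent.Lib.MPb6f35e.TT.AU Pool.Agent.Lib.MPb6f35e.TT.RO

/-! ### Part 1: trees -/

/-- **TRK** (size 200; imports `RO/TRX`, `UV/TRE`): the data of an edge.

PROOF. `Yp = YY G T v w`, `Ym = YY G T w v` (`UV.TREAux`); `PingPong` is `TRXM.pingpong`. `yy`: `y w ∈ Br v w`, so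
`y w ∉ Br w v` (`Br`: opposite strict inequalities), so `y w = w`; `y v ∈ Br w v`, so `y v ∉ Br v w`, so
`y v = v`. `xh`: `x` moves `w`, `v`, or maps `v` to `w`, `w` to `v` (`v ≠ w`). `cj`: `s = false`: `x ∈ X1` or
`x w = v` (`x⁻¹ ∈ X3`): `y = x h x⁻¹` fixes `v`; if `y` does not fix `w` then `y` is in `X1` and `TRXM.nn` says
`y t ∉ Yp` for `t ∈ Yp`. `s = true`: `x ∈ X2` or `x v = w`: `y` fixes `w`; `TRXM.nn` with `v`, `w` exchanged. -/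
def SpecTRK : Prop :=
  ∀ (G V : Type) [Group G] [MulAction G V] (T : SimpleGraph V) (v w : V), T.IsTree →
    (∀ (g : G) (x y : V), T.Adj x y → T.Adj (g • x) (g • y)) → T.Adj v w →
    (∀ g : G, ¬ (g • v = w ∧ g • w = v)) →
    ∃ Yp Ym : Set G,
      PPK (MulAction.stabilizer G v ⊓ MulAction.stabilizer G w)
        {g | g • v = v ∧ g • w ≠ w} {g | g • w = w ∧ g • v ≠ v} {g | g • v = w} Yp Ym

/-- **TRG** (size 150; imports `UV/TRE`): the geometry of an edge.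

PROOF. For adjacent `v`, `w`: `DD T.dist w v true = {p | d v p = d v w + d w p} = Br T v w` (as sets: `d v w = 1`;
`p ∈ Br T v w` iff `d p w < d p v`, and then `d p v = d p w + 1` by `hT.dist_eq_dist_add_one_of_adj`; `dist_comm`) and
`DD T.dist w v false = Br T w v`. `mv`: `x ∈ X1`, `p ∈ Br v w`: `x p ∈ Br v (x w) ⊆ Br w v` (`smul_Br`, `br_sub`, `x w ≠ w`);
`x ∈ X3`: `x p ∈ Br w (x w) ⊆ Br v w` (`x w ≠ v`: no inversion); `X2`, `Xinv X3`: `v`, `w` exchanged. `st`: clear. -/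
def SpecTRG : Prop :=
  ∀ (G V : Type) [Group G] [MulAction G V] (T : SimpleGraph V) (v w : V), T.IsTree →
    (∀ (g : G) (x y : V), T.Adj x y → T.Adj (g • x) (g • y)) → T.Adj v w →
    (∀ g : G, ¬ (g • v = w ∧ g • w = v)) →
    Geo T.dist (MulAction.stabilizer G v ⊓ MulAction.stabilizer G w)
      {g | g • v = v ∧ g • w ≠ w} {g | g • w = w ∧ g • v ≠ v} {g | g • v = w} w v

/-- **FPT** (size 200; imports `UV/TRE`): the metric of a tree.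

PROOF. `d0`, `cm`, `tri`: Mathlib (`hT.connected`), `iso`: `TREAux.dist_smul`. `four`:
(A) if `x`, `x'` are adjacent, `y ∈ Br x x'`, `z ∈ Br x' x` then `d y z = d y x + d x z`. Strong induction on `d x z`.
`z = x`: clear. Otherwise let `z'` be the neighbour of `z` with `d x z' = d x z - 1` (second vertex of a shortest walk
from `z` to `x`); `z' ∈ Br x' x` (`d z' x' ≥ d z x' - 1 = d z x > d z' x`; use `d z x' = d z x + 1`), so
`d y z' = d y x + d x z'`. `d y z = d y z' ± 1`. If `d y z = d y z' - 1` then `y ∈ Br z' z`. If `z' = x`: `y ∈ Br x x'`, so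
`z = x'` (`br_unique`), but `x' ∉ Br x' x`. If `z' ≠ x` let `z''` be the neighbour of `z'` with
`d x z'' = d x z' - 1`; as before `z'' ∈ Br x' x` and `d y z'' = d y x + d x z'' < d y z'`, `y ∈ Br z' z''`, so `z = z''`,
contradiction to `d x z = d x z'' + 2`.
(B) `four x y z w` by induction on `d x y`. `x = y`: triangle inequality. Else let `x'` be the neighbour of `x` with
`d x' y = d x y - 1`, so `y ∈ Br x x'`. If `z ∈ Br x' x`: `d y z = d y x + d x z` by (A), so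
`d x w + d y z ≥ d x y + d z w`. If `w ∈ Br x' x`: the same. Otherwise `z, w ∈ Br x x'`: `d x z = d x' z + 1`,
`d x w = d x' w + 1`, and the induction hypothesis for `x'`. -/
def SpecFPT : Prop :=
  ∀ (G V : Type) [Group G] [MulAction G V] (T : SimpleGraph V), T.IsTree →
    (∀ (g : G) (x y : V), T.Adj x y → T.Adj (g • x) (g • y)) → TM G (V := V) T.dist

/-! ### Part 2: words and blocks -/

/-- **WDK** (size 150, deps `RO.SpecUNQ`, `RO.SpecWDA`): words.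

PROOF. (0) `x y = h ∈ H`, `x ∈ XX s r`, `y ∈ YB r`: `y = x⁻¹ h`, `x⁻¹ ∈ XX (!r) (!s)` (`X1i`, `X2i`, `Xinv`), so
`x⁻¹ h ∈ XX (!r) (!s)` (Bi), so `y = (x⁻¹ h) 1 ∈ YB (!r)` (`UNQ` (1), `1 ∈ YB (!s)`); `y ∈ Yp ∩ Ym` so `y ∈ H` (`yy`),
`x = h y⁻¹ ∈ H`: contradiction to `xh`.
(1) `z = x z1`, `z1 y ∈ YB r` (WDA (4)), `x ∈ XX X1' X2 X3 s r ⊆ XX X1 X2 X3 s r`: (0).
(2) Induction on the word. Length `0`: `z ∈ H`. `z = x z1`, `h1 = z1 h z1⁻¹`. If `h1 ∈ H`: `cj` for `x`. Otherwise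
`h1 y ∉ YB (!r)` for all `y ∈ YB (!r)`. Let `y ∈ YB (!s)`, and suppose `y' = z h z⁻¹ y = x h1 x⁻¹ y ∈ YB (!s)`. `x⁻¹ ∈ XX (!r) (!s)`, so
`x⁻¹ y`, `x⁻¹ y' ∈ YB (!r)`, and `h1 (x⁻¹ y) = x⁻¹ y'`: contradiction. -/
def SpecWDK : Prop :=
  ∀ (G : Type) [Group G] (H : Subgroup G) (X1 X2 X3 Yp Ym : Set G), PPK H X1 X2 X3 Yp Ym →
    (∀ s r x y, x ∈ XX X1 X2 X3 s r → y ∈ YB Yp Ym r → x * y ∉ H) ∧
    ∀ X1' : Set G, Sub1 H X1 X2 X3 Yp Ym X1' →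
      (∀ k s t z y, Wd H X1' X2 X3 (k + 1) s t z → y ∈ YB Yp Ym t → z * y ∉ H) ∧
      (∀ k s t z h, Wd H X1' X2 X3 k s t z → h ∈ H → z * h * z⁻¹ ∈ H ∨
        ∀ y ∈ YB Yp Ym (!s), z * h * z⁻¹ * y ∉ YB Yp Ym (!s))

/-- **SBK** (size 100, dep `RO.SpecWDA`): elementary facts on a flip.

PROOF. `L = Kg H g`. `g L g⁻¹ = L`: `l ∈ L`: `g l g⁻¹ = g² (g⁻¹ l g) g⁻² ∈ H` and `g⁻¹ (g l g⁻¹) g = l ∈ H` (see
`RO/LOC.lean`). (2): `l g ∈ X1` (`X1l`), it is in `dc H g`. (3) `l (l' g)`; `(l g) l' = l (g l' g⁻¹) g`;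
`(l g)⁻¹ = g⁻² (g l⁻¹ g⁻¹) g` (`g⁻² ∈ L`). (4) `X1' = {x ∈ X1 | x ∉ dc H g}`: `dc H g` is biinvariant and inverse closed
(`(h g h')⁻¹ = h'⁻¹ g⁻² g h⁻¹`). (5) induction on the product, WDA (4) (`L ≤ H`, `X1Y`). -/
def SpecSBK : Prop :=
  ∀ (G : Type) [Group G] (H : Subgroup G) (X1 X2 X3 Yp Ym : Set G), PingPong H X1 X2 X3 Yp Ym →
    ∀ g ∈ X1, g * g ∈ H →
    (∀ l ∈ Kg H g, g * l * g⁻¹ ∈ Kg H g ∧ g⁻¹ * l * g ∈ Kg H g) ∧
    (∀ x ∈ La (Kg H g) g, x ∈ X1 ∧ x ∈ dc H g) ∧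
    ((∀ l ∈ Kg H g, ∀ x ∈ La (Kg H g) g, l * x ∈ La (Kg H g) g ∧ x * l ∈ La (Kg H g) g) ∧
      (∀ x ∈ La (Kg H g) g, x⁻¹ ∈ La (Kg H g) g) ∧
      (∀ x ∈ La (Kg H g) g, ∀ x' ∈ La (Kg H g) g, x⁻¹ * x' ∈ Kg H g)) ∧
    Sub1 H X1 X2 X3 Yp Ym {x | x ∈ X1 ∧ x ∉ dc H g} ∧
    (∀ s y, y ∈ YS (Kg H g) (La (Kg H g) g) (BX H X1 X2 X3 g) s → y ∈ YB Yp Ym s)

/-- **CLC** (size 220, deps `RO.SpecUNQ`, `RO.SpecWDA`, `SpecWDK`, `SpecSBK`): paper CLAIM C.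

PROOF. `L = Kg H g`, `X1' = {x ∈ X1 | x ∉ dc H g}`, `YY s = YS L (La L g) (BX ..) s ⊆ YB s`. An element of `YY false` is in
`L` or `x t` with `x ∈ La L g`, `t ∈ YY true ⊆ Yp`. Induction on the word `z` (for all `k'`, `z'`, `y`, `y'`).
(a) `z = x z1`, `z' = x' z1'`: `x (z1 y) = x' (z1' y')`, UNQ: same type `r`, `x' = x h`, `h ∈ H`; `z1 y = (h z1') y'`, `h z1'` is a
word (WDA (1)); induction: `z1⁻¹ (h z1') ∈ L`, and `z⁻¹ z' = z1⁻¹ x⁻¹ x h z1'`.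
(b) `z = h ∈ H` (so `s = false`), `z' = x1 z1'`, `x1 ∈ XX X1' X2 X3 false r`. `y ∈ L`: `z' y' = h y ∈ H` contradicts WDK (1).
`y = x t`: `(h x) t = x1 (z1' y')`, `h x ∈ X1 = XX false true`: UNQ: `r = true` and `(h x)⁻¹ x1 ∈ H`, so
`x1 ∈ h x H ⊆ dc H g`, but `x1 ∈ X1'`: contradiction. (c) `z = x1 z1`, `z' = h`: the same (exchange the roles).
(d) `z, z' ∈ H`: `h = z'⁻¹ z ∈ H`, `h y = y'`. `y, y' ∈ L`: `h = y' y⁻¹ ∈ L`. `y ∈ L`, `y' = x' t'`: `x' t' ∈ H`: WDK (0); `y' ∈ L`: same.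
`y = x t`, `y' = x' t'`, `x = l g`, `x' = l' g`: `(x'⁻¹ h x) t = t'` and `x'⁻¹ h x = g⁻¹ h'' g` with `h'' = l'⁻¹ h l ∈ H`. `cj` for
`g⁻¹ ∈ X1 = XX false true` (`X1i`) and `h''`: `g⁻¹ h'' g ∈ H` or `g⁻¹ h'' g t ∉ Yp` (`t' ∈ Yp`: excluded). So
`h'' ∈ Kg H g` (`mem_Kg`), `h = l' h'' l⁻¹ ∈ L`. In all cases `z⁻¹ z' = (z'⁻¹ z)⁻¹ = h⁻¹ ∈ L`. -/
def SpecCLC : Prop :=
  ∀ (G : Type) [Group G] (H : Subgroup G) (X1 X2 X3 Yp Ym : Set G), PPK H X1 X2 X3 Yp Ym →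
    ∀ g ∈ X1, g * g ∈ H → ∀ (k k' : ℕ) (s : Bool) (z z' y y' : G),
    Wd H {x | x ∈ X1 ∧ x ∉ dc H g} X2 X3 k s false z →
    Wd H {x | x ∈ X1 ∧ x ∉ dc H g} X2 X3 k' s false z' →
    y ∈ YS (Kg H g) (La (Kg H g) g) (BX H X1 X2 X3 g) false →
    y' ∈ YS (Kg H g) (La (Kg H g) g) (BX H X1 X2 X3 g) false →
    z * y = z' * y' → z⁻¹ * z' ∈ Kg H g

/-- **BLK** (size 280, deps `RO.SpecWDA`, `RO.SpecWNI`, `SpecWDK`, `SpecSBK`, `SpecCLC`): the block is again data.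

PROOF. `L = Kg H g`, `Xa = La L g`, `Xb = BX H X1 X2 X3 g` (words from `false` to `true`). `PingPong`: `X1l`, `X1r`, `X1i`: SBK (3);
`X1n`: `Xa ⊆ X1`. `X2l`, `X2r`, `X2i`: WDA (1), (3) (`L ≤ H`); `X2n`: `z⁻¹ = z` gives `z z = 1`: WNI (`k`, `s = true`,
`!s = false`). `X3 = ∅`: trivial (`Xinv ∅`: `x⁻¹ ∈ ∅`). `Yp1`, `Ym1`: `base`. `Ypl`, `Yml`: by cases on `YK`: `l l'`, `(l x) y`.
`X1Y`, `X2Y`: `sa`, `sb`. `u1`: SBK (3). `u2`: CLC with `s = true`. `yy`: `y ∈ YS true ∩ YS false ⊆ Yp ∩ Ym`, so `y ∈ H` (`yy`), and an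
element of `YS false` in `H` is in `L` (otherwise it is `x t`, `x ∈ Xa ⊆ X1`, `t ∈ Yp`: WDK (0)). `xh`: `Xa ⊆ X1`: `xh` for
`H ≥ L`; `z ∈ Xb`: the word has length `≥ 1` (types), `z = z 1`, `1 ∈ YB false`: WDK (1). `cj`: `(s, t) = (false, true)`, `x = l g ∈ Xa`,
`h ∈ L`: `x h x⁻¹ ∈ L` (SBK (1)). `(true, false)`, `z ∈ Xb`, `h ∈ L`, `y0 = z h z⁻¹`: if `y0 ∉ H`: WDK (2) (`!true = false`, and
`YS false ⊆ Ym`). If `y0 ∈ H`: assume `y0 y = y'` with `y, y' ∈ YS false`; CLC with `s = false`, `z = y0` (`Wd 0`), `z' = 1`: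
`y0⁻¹ ∈ L`, so `y0 ∈ L`. `(true, true)`, `(false, false)`: empty. -/
def SpecBLK : Prop :=
  ∀ (G : Type) [Group G] (H : Subgroup G) (X1 X2 X3 Yp Ym : Set G), PPK H X1 X2 X3 Yp Ym →
    ∀ g ∈ X1, g * g ∈ H →
    PPK (Kg H g) (La (Kg H g) g) (BX H X1 X2 X3 g) ∅
      (YS (Kg H g) (La (Kg H g) g) (BX H X1 X2 X3 g) true)
      (YS (Kg H g) (La (Kg H g) g) (BX H X1 X2 X3 g) false)

/-- **SYK** (size 100): the exchange.

PROOF. `PingPong`: `INDAux.pp_swap` (`UV/IND`). `XX X2 X1 (Xinv X3) s t = XX X1 X2 X3 (!s) (!t)`, `YB Ym Yp s = YB Yp Ym (!s)`,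
`DD d x2 x1 s = DD d x1 x2 (!s)` (cases; `Xinv (Xinv X3) = X3`). (3): `Xinv ∅ = ∅` (rewrite in (1), (2)). -/
def SpecSYK : Prop :=
  ∀ (G : Type) [Group G] (H : Subgroup G) (X1 X2 X3 Yp Ym : Set G),
    (PPK H X1 X2 X3 Yp Ym → PPK H X2 X1 (Xinv X3) Ym Yp) ∧
    (∀ (V : Type) [MulAction G V] (d : V → V → ℕ) (x1 x2 : V), Geo d H X1 X2 X3 x1 x2 →
      Geo d H X2 X1 (Xinv X3) x2 x1) ∧
    (PPK H X1 X2 ∅ Yp Ym → PPK H X2 X1 ∅ Ym Yp) ∧
    (∀ (V : Type) [MulAction G V] (d : V → V → ℕ) (x1 x2 : V), Geo d H X1 X2 ∅ x1 x2 →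
      Geo d H X2 X1 ∅ x2 x1)

/-- **TFA** (size 100): facts on tree metrics.

PROOF. (1) `d (g q) p = d q p` (`iso`, `g p = p`), `d (g q) r = d q r`. `four q (g q) p r`:
`d q (g q) + d p r ≤ max (d q p + d (g q) r) (d q r + d (g q) p) = d p r`, so `d q (g q) = 0`. (2) `four x1 p x2 p'`:
`d x1 p + d x2 p' ≤ max (d x1 x2 + d p p') (d x1 p' + d p x2)`. The left side is
`2 d x1 x2 + d x2 p + d x1 p' > d x1 p' + d p x2` (`d x1 x2 > 0`), so it is `≤ d x1 x2 + d p p'`, that is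
`d p p' ≥ d p x2 + d x2 x1 + d x1 p'`; `≤` by `tri` twice. (3) `d x1 p = d x1 y + d y p = d x1 x2 + d x2 y + d y p ≥
d x1 x2 + d x2 p ≥ d x1 p`. -/
def SpecTFA : Prop :=
  ∀ (G V : Type) [Group G] [MulAction G V] (d : V → V → ℕ), TM G d →
    (∀ (g : G) (p q r : V), d p r = d p q + d q r → g • p = p → g • r = r → g • q = q) ∧
    (∀ x1 x2 p p' : V, x1 ≠ x2 → d x1 p = d x1 x2 + d x2 p → d x2 p' = d x2 x1 + d x1 p' →
      d p p' = d p x2 + d x2 x1 + d x1 p') ∧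
    (∀ x1 x2 y p : V, d x1 y = d x1 x2 + d x2 y → d x1 p = d x1 y + d y p →
      d x1 p = d x1 x2 + d x2 p)

/-- **BLG** (size 250, deps `SpecTFA`, `SpecSBK`): the geometry of the block.

PROOF. `x1 ∈ DD true` (`d x1 x1 = 0`), `g ∈ X1 = XX false true`, so `g x1 ∈ DD false`: (*) `d x1 (g x1) = d x1 x2 + d x2 (g x1)`.
`g g x1 = x1` (`g g ∈ H`, `st`). `Geo` for the block with the ends `x1`, `g x1`: `ne`: `d x1 (g x1) ≥ d x1 x2 > 0`. `st`: `x ∈ Kg H g` iff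
`x ∈ H` and `g⁻¹ x g ∈ H` (`mem_Kg`), iff `x` fixes `x1`, `x2`, `g x1`, `g x2`. If `x` fixes `x1` and `g x1`: it fixes `x2` by (*) and
TFA (1); applying `g` to (*): `d (g x1) x1 = d (g x1) (g x2) + d (g x2) x1` (`iso`, `g g x1 = x1`), so `x` fixes `g x2`.
`mv` `(false, true)`: `x = l g`, `d (g x1) p = d (g x1) x1 + d x1 p`. `l` fixes `x1`, `g x1`. `d x1 (l g p) = d (g g x1) (g p) = d (g x1) p`,
`d (g x1) (l g p) = d (g x1) (g p) = d x1 p`. So `d x1 (x p) = d x1 (g x1) + d (g x1) (x p)` (`cm`).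
`mv` `(true, false)`: `z ∈ BX` a word from `false` to `true`, `d x1 p = d x1 (g x1) + d (g x1) p`. TFA (3) and (*): `p ∈ DD x1 x2 false`.
Words map `DD t` to `DD s` (induction, `mv`; letters of `X1' ⊆ X1`), so `z p ∈ DD x1 x2 true`. TFA (2) with `p := g x1` (by (*)),
`p' := z p`: `d (g x1) (z p) = d (g x1) x2 + d x2 x1 + d x1 (z p) = d (g x1) x1 + d x1 (z p)` ((*), `cm`). Others: `X3 = ∅`.
Last part: (*), and `g x1 ≠ x2` is the hypothesis. -/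
def SpecBLG : Prop :=
  ∀ (G V : Type) [Group G] [MulAction G V] (d : V → V → ℕ), TM G d →
    ∀ (H : Subgroup G) (X1 X2 X3 Yp Ym : Set G) (x1 x2 : V), PingPong H X1 X2 X3 Yp Ym →
    Geo d H X1 X2 X3 x1 x2 → ∀ g ∈ X1, g * g ∈ H →
    Geo d (Kg H g) (La (Kg H g) g) (BX H X1 X2 X3 g) ∅ x1 (g • x1) ∧
    g • g • x1 = x1 ∧ (g • x1 ≠ x2 → Nx d x2 x1 g)

/-! ### Part 3: derived data

`L`, `Xa = La L g`, `Xb`, `X3 = ∅` are data (`PPK`), `W` is a half of `Xb`, `T = TS Xa W`, `XD = T⁻¹ Xa T`. -/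

/-- **DRA** (size 280, dep `SpecWDK`): words in `W`. The numbers are those of the nine conclusions.

PROOF. (1) `g ∈ Xa` (`Xa = La L g`), `g⁻¹ ∈ Xa` (`X1i`), so `g⁻¹ = m g`, `g g = m⁻¹ ∈ L`; `g l ∈ Xa` (`X1r`), so `g l g⁻¹ ∈ L` for `l ∈ L`, and
`g⁻¹ l g = (g g)⁻¹ (g l g⁻¹) (g g) ∈ L`. So `(l g)⁻¹ (l' g) = g⁻¹ (l⁻¹ l') g ∈ L`, and `e e' = (e⁻¹)⁻¹ e'` with `e⁻¹ ∈ Xa`.
(2) Induction (`l (z e w) = (l z) e w`, `(z e w) l = z e (w l)`). (3) Induction on `w` (`(z e1 w1) e w' = z e1 (w1 e w')`).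
(4) Induction: `z e w`, `w ∈ W` or `w = w1 e1 z1`: `z e w1 ∈ T`. (5) `W ⊆ Xb`; `z y ∈ Yp` (`X2Y`), `z e (w y)`: `w y ∈ Yp`, `e (..) ∈ Ym`,
`z (..) ∈ Yp`; `(z e w)⁻¹ y = w⁻¹ (e⁻¹ (z⁻¹ y))` in the same way. (6) `w y`: the word is `z` or `z e w1`: `y' = y` or `e (w1 y) ∈ Ym` by (5).
`w⁻¹ y`: by (4) `w⁻¹ = z⁻¹` or `z⁻¹ e⁻¹ w1⁻¹`. (7) `YK` induction: `sa`: `X1Y`; `sb`: `(w⁻¹ e w') y = w⁻¹ (e (w' y))`, (5) and `X1Y`.
(9) `e (z y) = e' (z'⁻¹ y')`: `l = e'⁻¹ e ∈ L`, `(l z) y = z'⁻¹ y'`, `l z ∈ W ⊆ Xb`, `z'⁻¹ ∈ Xb` (`X2i`), `u2`: `(l z)⁻¹ z'⁻¹ = l' ∈ L`, so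
`z'⁻¹ = (l z) l' ∈ W`: contradiction to `ni`. (8) `y0 = e (z y) ∈ YS false` is in `L`, or `y0 = e1 y1`, `e1 ∈ Xa`, `y1 ∈ YS true`; `y1 ∈ L` or
`y1 = (w⁻¹ e2 w') y2`, `y2 ∈ YS false ⊆ Ym` (7). `y0 ∈ L`: WDK (0) (`e ∈ Xa`, `z y ∈ Yp`). `y1 ∈ L`: `z y = (e⁻¹ e1) y1 ∈ L`: WDK (0) (`z ∈ Xb`,
`y ∈ Ym`). Third case: `y1 = w⁻¹ (e2 (w' y2)) = z'⁻¹ y'` with `z' ∈ W`, `y' ∈ Ym` by (6) (`e2 (w' y2) ∈ Ym`): contradiction to (9). -/
def SpecDRA : Prop :=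
  ∀ (G : Type) [Group G] (L : Subgroup G) (g : G) (Xb Yp Ym W : Set G),
    PPK L (La L g) Xb ∅ Yp Ym → Hf L Xb W →
    (∀ e ∈ La L g, ∀ e' ∈ La L g, e⁻¹ * e' ∈ L ∧ e * e' ∈ L) ∧
    (∀ l ∈ L, ∀ w ∈ TS (La L g) W, l * w ∈ TS (La L g) W ∧ w * l ∈ TS (La L g) W) ∧
    (∀ w ∈ TS (La L g) W, ∀ e ∈ La L g, ∀ w' ∈ TS (La L g) W, w * e * w' ∈ TS (La L g) W) ∧
    (∀ w ∈ TS (La L g) W, w ∈ W ∨ ∃ w1 ∈ TS (La L g) W, ∃ e ∈ La L g, ∃ z ∈ W, w = w1 * e * z) ∧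
    (∀ w ∈ TS (La L g) W, ∀ y ∈ Ym, w * y ∈ Yp ∧ w⁻¹ * y ∈ Yp) ∧
    (∀ w ∈ TS (La L g) W, ∀ y ∈ Ym, (∃ z ∈ W, ∃ y' ∈ Ym, w * y = z * y') ∧
      ∃ z ∈ W, ∃ y' ∈ Ym, w⁻¹ * y = z⁻¹ * y') ∧
    (∀ s y, y ∈ YS L (La L g) (XD (La L g) W) s → y ∈ YB Yp Ym s) ∧
    (∀ e ∈ La L g, ∀ z ∈ W, ∀ y ∈ Ym, e * (z * y) ∉ YS L (La L g) (XD (La L g) W) false) ∧
    (∀ e ∈ La L g, ∀ e' ∈ La L g, ∀ z ∈ W, ∀ z' ∈ W, ∀ y ∈ Ym, ∀ y' ∈ Ym,
      e * (z * y) ≠ e' * (z'⁻¹ * y'))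

/-- **DRB** (size 280, dep `SpecDRA`): uniqueness for the derived data.

PROOF. `Y = YS L Xa XD false ⊆ Ym`. (S3) `w, w' ∈ T`, `y, y' ∈ Y`, `w y = w' y'` ⟹ `w⁻¹ w' ∈ L`. Induction on `w`. `w = z`, `w' = z'`: `u2`.
`w = z`, `w' = z' e' w1'`: `u2` (`z y = z' (e' w1' y')`, `e' (w1' y') ∈ Ym`): `z' = z l`, so `y = l e' (w1' y')`, `w1' y' = z'' y''` (DRA (6)),
so `y = (l e') (z'' y'') ∉ Y` (DRA (8)): contradiction. `w = z e w1`, `w' = z'`: the same. Both long: `z' = z l`,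
`e w1 y = l e' w1' y'`, `w1 y = (e⁻¹ (l e')) w1' y'`, `e⁻¹ (l e') ∈ L` (DRA (1)), `(e⁻¹ (l e')) w1' ∈ T`; induction:
`w1⁻¹ (e⁻¹ l e') w1' ∈ L`, and `w⁻¹ w' = w1⁻¹ e⁻¹ z⁻¹ z' e' w1'`.
(S4) `w, w' ∈ T`, `v, v' ∈ V = {e (w2 y) | e ∈ Xa, w2 ∈ T, y ∈ Y}`, `w⁻¹ v = w'⁻¹ v'` ⟹ `v' = l v` for some `l ∈ L`. (`V ⊆ Ym`; `L V ⊆ V`.)
Induction using the right recursion DRA (4) (for example on the number of letters, or prove it for the reversed words: define the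
induction on `w` through DRA (4); it is convenient to prove first that `TS` has an inductive description by `w1 e z`).
`w = z`, `w' = z'`: `u2` for `z⁻¹, z'⁻¹ ∈ Xb`: `z'⁻¹ = z⁻¹ l`: `v = l v'`. `w = z`, `w' = w1' e' z'`: `z⁻¹ v = z'⁻¹ (e'⁻¹ w1'⁻¹ v')`, `u2`:
`z'⁻¹ = z⁻¹ l`, `v = (l e'⁻¹) (w1'⁻¹ v')`, `w1'⁻¹ v' = z''⁻¹ y''` (DRA (6)); but `v = e (w2 y) = e (z3 y3)` (DRA (6)): contradiction to
DRA (9). Both long: `e⁻¹ w1⁻¹ v = l e'⁻¹ w1'⁻¹ v'`, `w1⁻¹ v = (e l e'⁻¹) w1'⁻¹ v' = (w1' m⁻¹)⁻¹ v'` with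
`m = e l e'⁻¹ ∈ L`, `w1' m⁻¹ ∈ T`; induction.
u2: `z = w1⁻¹ e w2`, `z' = w1'⁻¹ e' w2'`, `z y = z' y'`: (S4) with `v = e (w2 y)`, `v' = e' (w2' y')`: `e' w2' y' = l e w2 y`, so
`w2 y = (e⁻¹ (l⁻¹ e')) w2' y'`; (S3): `w2⁻¹ (e⁻¹ l⁻¹ e') w2' ∈ L`, so `y y'⁻¹ ∈ L`; and `z⁻¹ z' = y y'⁻¹`. -/
def SpecDRB : Prop :=
  ∀ (G : Type) [Group G] (L : Subgroup G) (g : G) (Xb Yp Ym W : Set G),
    PPK L (La L g) Xb ∅ Yp Ym → Hf L Xb W →
    ∀ z ∈ XD (La L g) W, ∀ z' ∈ XD (La L g) W,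
    ∀ y ∈ YS L (La L g) (XD (La L g) W) false, ∀ y' ∈ YS L (La L g) (XD (La L g) W) false,
      z * y = z' * y' → z⁻¹ * z' ∈ L

/-- **DRC** (size 250, deps `RO.SpecUNQ`, `RO.SpecWDA`, `RO.SpecWNI`, `SpecWDK`, `SpecDRA`, `SpecDRB`): the derived data.

PROOF. `Sub1 L Xa Xb ∅ Yp Ym Xa` holds (`X1' = X1`). Every `z ∈ T` and every `z⁻¹`, `z ∈ T`, and every `z ∈ XD` is a word
`Wd L Xa Xb ∅ k true false` with `k ≥ 1` (`W ⊆ Xb`; `z = z 1`, `z e w`; WDA (2), (3)). `PingPong` for `Xa`, `XD`, `∅`, `YS true`, `YS false`: `X1·`: those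
of `Xa`. `X2l`, `X2r`: `l w⁻¹ e w' = (w l⁻¹)⁻¹ e w'`, DRA (2). `X2i`: `(w⁻¹ e w')⁻¹ = w'⁻¹ e⁻¹ w`. `X2n`: WNI. `Yp1` etc., `X1Y`, `X2Y`: as in BLK. `u1`:
DRA (1). `u2`: DRB. `yy`: DRA (7) and `yy`. `xh`: `Xa`: `xh`; `XD`: WDK (1) with `y = 1`. `cj`: `Xa`: `cj` gives `x h x⁻¹ ∈ L` or a
statement for `YB Yp Ym true ⊇ YS true` (DRA (7)); `XD`: WDK (2) and DRA (7) (`YS false ⊆ Ym`). -/
def SpecDRC : Prop :=
  ∀ (G : Type) [Group G] (L : Subgroup G) (g : G) (Xb Yp Ym W : Set G),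
    PPK L (La L g) Xb ∅ Yp Ym → Hf L Xb W →
    PPK L (La L g) (XD (La L g) W) ∅ (YS L (La L g) (XD (La L g) W) true)
      (YS L (La L g) (XD (La L g) W) false)

/-- **DRG** (size 100): the geometry of the derived data.

PROOF. `ne`, `st` unchanged. `mv` `(false, true)` unchanged. `w ∈ T` maps `DD false` to `DD true` (induction; `W ⊆ Xb`), so does `w⁻¹`
(`z⁻¹ ∈ Xb`: `X2i`, `e⁻¹ ∈ Xa`: `X1i`; `(z e w)⁻¹ = w⁻¹ e⁻¹ z⁻¹`; induction); so `w⁻¹ e w'` does. Others: empty. -/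
def SpecDRG : Prop :=
  ∀ (G V : Type) [Group G] [MulAction G V] (d : V → V → ℕ) (L : Subgroup G) (g : G)
    (Xb Yp Ym W : Set G) (x1 x2 : V), PPK L (La L g) Xb ∅ Yp Ym → Hf L Xb W →
    Geo d L (La L g) Xb ∅ x1 x2 → Geo d L (La L g) (XD (La L g) W) ∅ x1 x2

/-! ### Part 4: forms -/

/-- **RMV** (size 250, deps `RO.SpecEFA`, `RO.SpecKNA`, `RO.SpecELM`; imports `RO/ROT`, `RO/ELM` for the auxiliary lemmas): removal of the
flips in `ψ`, with the same nilpotency index.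

PROOF. Strong induction on `ROTAux.fl H ψ` (for all `ψ`). No flips: the hypothesis. Otherwise `x ∈ supp (ψ i j)`, `Flip H x`:
`ROTAux.exists_flip`: `g = x h ∈ X1`, `g g ∈ H`, `x ∈ dc H g`. ELM with the hypotheses (`La`, `BX` are the sets of ELM): it suffices
that `UF ψ0 μ χ` is stably hyperbolic, `ψ0 = cutM (dc H g)ᶜ ψ`; `fl ψ0 < fl ψ` (`ROTAux.fl_cut_lt`). Index: `c = dc H g` is biinvariant and
inverse closed; `ψ0 + ε ψ0ᴴ = cutM cᶜ a =: a0`, `cutM c a =: ac`, `a = ψ + ε ψᴴ` (see `RO/ELM.lean`). EFA: `a0`, `ac` are in `EE 1 false true`,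
`μ ∈ EE 1 true true`, `b = ε • (ε • b) ∈ EE 1 true false`; KNA: `(nu ε a0 μ b) ^ N = 0`. -/
def SpecRMV : Prop :=
  ∀ (R G : Type) [Ring R] [StarRing R] [Group G] (H : Subgroup G) (X1 X2 X3 Yp Ym : Set G),
    PingPong H X1 X2 X3 Yp Ym →
    (∀ g ∈ X1, g * g ∈ H → Sub1 H X1 X2 X3 Yp Ym {x | x ∈ X1 ∧ x ∉ dc H g} ∧
      Blk R (La (Kg H g) g) (BX H X1 X2 X3 g)) →
    ∀ (ε : ℤˣ) (n N : ℕ), 1 ≤ N → ∀ (ψ μ χ : Matrix (Fin n) (Fin n) (MonoidAlgebra R G)),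
    SuppIn X1 ψ → SuppIn X3 μ → SuppIn X2 χ →
    (nu ε (ψ + (ε : ℤ) • ψᴴ) μ (χ + (ε : ℤ) • χᴴ)) ^ N = 0 →
    (∀ ψ0 : Matrix (Fin n) (Fin n) (MonoidAlgebra R G), SuppIn X1 ψ0 →
      (∀ i j x, (ψ0 i j).coeff x ≠ 0 → ¬ Flip H x) →
      (nu ε (ψ0 + (ε : ℤ) • ψ0ᴴ) μ (χ + (ε : ℤ) • χᴴ)) ^ N = 0 →
      StablyHyperbolic ε (UF ψ0 μ χ)) →
    StablyHyperbolic ε (UF ψ μ χ)

/-- **HLK** (size 60; imports `RO/HLF`): a half, disjoint from its inverse.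

PROOF. `half H` of `RO/HLF.lean` (`HLFAux.bi_half`, `HLFAux.not_both`); the equation is proved in `specHLF` (copy). -/
def SpecHLK : Prop :=
  ∀ (R G : Type) [Ring R] [StarRing R] [Group G] (H : Subgroup G) (ε : ℤˣ) (n : ℕ)
    (a : Matrix (Fin n) (Fin n) (MonoidAlgebra R G)), a = (ε : ℤ) • aᴴ →
    (∀ i j x, (a i j).coeff x ≠ 0 → ¬ Flip H x) →
    ∃ c : Set G, Bi H c ∧ (∀ x ∈ c, x⁻¹ ∉ c) ∧ a = cutM c a + (ε : ℤ) • (cutM c a)ᴴ

/-- **NEI** (size 280, dep `RO.SpecSCH`; imports `UV/SWP`): paper LEMMA 7.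

PROOF. `a = ψ + ε ψᴴ`, so `aᴴ = ε a`. `V = 1 - a qᴴ`, `Vᴴ = 1 - q aᴴ = 1 - ε q a`, `S = ∑_{i<N} (ε q a)^i`: `Vᴴ S = S Vᴴ = 1` (`(ε q a)^N =
ε^N (q a)^N = 0`), so `V Sᴴ = Sᴴ V = 1`. `Z = zet ε N q a = ε S q`. `Λ = fromBlocks ψ V 0 0`, `Λ + ε Λᴴ = fromBlocks a V (ε Vᴴ) 0`,
`Φi = fromBlocks 0 (ε S) Sᴴ (-(ε Sᴴ a S))` is its inverse. `Ξ = fromCols 0 qᴴ`, `Φi Ξᴴ = (Z; -(Sᴴ a Z))`.
`(Φi Ξᴴ)ᴴ Λ (Φi Ξᴴ) = Zᴴ ψ Z - Zᴴ V Sᴴ a Z = Zᴴ ψ Z - Zᴴ a Z`, so `κ = Zᴴ a Z - Zᴴ ψ Z = ε Zᴴ ψᴴ Z = Zᴴ ψ Z + (X - ε Xᴴ)` with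
`X = ε Zᴴ ψᴴ Z`. So `fromBlocks ψ 1 0 κ` is stably hyperbolic by SWP (2) (`UF ψ 0 κ`). `Λ` is stably hyperbolic: `u = diag(1, Sᴴ)` gives
`(ψ, 1; 0, 0)`, and `(1, 0; -ψ, 1)` gives `(0, 1; 0, 0)` (see `RO/SCH.lean`, `RO/NWC.lean`). SCH: `Λ + Ξᴴ ψ Ξ = fromBlocks ψ V 0 (q ψ qᴴ)`
is stably hyperbolic. Finally `u = fromBlocks 1 (-qᴴ) 0 1`: `uᴴ (ψ, 1; 0, q) u = (ψ, 1 - ψ qᴴ; -q ψ, q ψ qᴴ) =
fromBlocks ψ V 0 (q ψ qᴴ) + Z' - ε Z'ᴴ` with `Z' = fromBlocks 0 0 (-(q ψ)) 0` (`(1,2)`: `-ψ qᴴ = -a qᴴ + ε ψᴴ qᴴ`). -/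
def SpecNEI : Prop :=
  ∀ (A : Type) [Ring A] [StarRing A] (ε : ℤˣ) (n N : ℕ) (ψ q : Matrix (Fin n) (Fin n) A),
    (q * (ψ + (ε : ℤ) • ψᴴ)) ^ N = 0 →
    StablyHyperbolic ε (UF ψ 0 ((zet ε N q (ψ + (ε : ℤ) • ψᴴ))ᴴ * ψ *
      zet ε N q (ψ + (ε : ℤ) • ψᴴ))) →
    StablyHyperbolic ε (UF ψ 0 q)

/-- **NEN** (size 220): the nilpotency index drops.

PROOF. `q a ∈ E 2 true true`, `(q a)^i ∈ E (2 i) true true` for `i ≥ 1`, so `(q a)^N ∈ E (2 N) ≤ E N` is `0` (`N ≥ 1`). `(ε q a)^i q ∈ E (2 i + 1) ≤ E 1`,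
so `Z ∈ E 1 true false`, `Zᴴ ∈ E 1 true false` (`star`), `b' = Zᴴ a Z ∈ E 3 true false`. `N ≤ 3`: `E 3 ≤ E N`: `b' = 0`.
`3 ≤ N`: `ν' = nu ε a 0 b' = fromBlocks 0 (ε b') a 0`, `ν'^(2 j) = fromBlocks ((ε b' a)^j) 0 0 ((ε a b')^j)`,
`ν'^(2 j + 1) = fromBlocks 0 ((ε b' a)^j (ε b')) ((ε a b')^j a) 0`; for `j ≥ 1` the blocks of `ν'^(2 j)` are in `E (4 j)`, those of
`ν'^(2 j + 1)` (`j ≥ 0`) in `E (4 j + 1)`. For `N - 1 = 2 j` (`j ≥ 1`): `4 j = 2 N - 2 ≥ N`; for `N - 1 = 2 j + 1`: `4 j + 1 = 2 N - 3 ≥ N`. -/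
def SpecNEN : Prop :=
  ∀ (A : Type) [Ring A] [StarRing A] (ε : ℤˣ) (n N : ℕ)
    (E : ℕ → Bool → Bool → AddSubgroup (Matrix (Fin n) (Fin n) A)), EFam E N → 1 ≤ N →
    ∀ a ∈ E 1 false true, ∀ q ∈ E 1 true false,
      (q * a) ^ N = 0 ∧
      (N ≤ 3 → (zet ε N q a)ᴴ * a * zet ε N q a = 0) ∧
      (3 ≤ N → (nu ε a 0 ((zet ε N q a)ᴴ * a * zet ε N q a)) ^ (N - 1) = 0)

/-- **NES** (size 150): supports.

PROOF. `(ε q a)^i q` is supported in `T = TS Xa W` by induction on `i` (`q`: `W ⊆ T`; `(q a) M`, `M` supported in `T`: `z e w ∈ T`: use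
`SuppIn X M → SuppIn Y M' → SuppIn (X Y) (M M')`, see `RO/KSP.lean`); sums, signs. So `Zᴴ` is supported in `T⁻¹`, `ψ` in `Xa`. -/
def SpecNES : Prop :=
  ∀ (R G : Type) [Ring R] [StarRing R] [Group G] (Xa W : Set G) (ε : ℤˣ) (n N : ℕ)
    (ψ a q : Matrix (Fin n) (Fin n) (MonoidAlgebra R G)), SuppIn Xa ψ → SuppIn Xa a →
    SuppIn W q → SuppIn (XD Xa W) ((zet ε N q a)ᴴ * ψ * zet ε N q a)

/-- **STY** (size 300, deps `RO.SpecEFA`, `SpecDRC`, `SpecHLK`, `SpecNEI`, `SpecNEN`, `SpecNES`; imports `UV/TAT`, `UV/SWP`): the Newton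
step.

PROOF. `a = ψ + ε ψᴴ`, `b = χ + ε χᴴ`; `supp a ⊆ Xa` (`X1i`). `b i j` at `x` nonzero implies `χ i j` at `x` or `χ j i` at `x⁻¹` nonzero, so not
`Flip L x` (`Flip L x ↔ Flip L x⁻¹`). HLK: `c`, `q0 = cutM c b`, `b = q0 + ε q0ᴴ`. `W = {x | x ∈ c ∧ x ∈ Xb}` is `Hf L Xb W`, `supp q0 ⊆ W`. `χ - q0` has
`(χ - q0) + ε (χ - q0)ᴴ = 0`, support in `Xb`: TAT (`δ = -ε`): `χ = q0 + c0 - ε c0ᴴ`: SWP (2): enough for `UF ψ 0 q0`. EFA (data `Xa`, `Xb`,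
`∅`, `μ = 0`): `E = EE L ν`, `EFam E N`; `a = blk ν false true ∈ E 1 false true`; `q0 ∈ E 1 true false` (`ε • q0 = cutM c (ε • b)`, `blk ν true
false = ε • b`, `E` is a subgroup). NEI with `(q0 a)^N = 0` (NEN): it suffices that `UF ψ 0 χ'`, `χ' = Zᴴ ψ Z`, `Z = zet ε N q0 a`, is stably
hyperbolic. `supp χ' ⊆ XD Xa W` (NES), `χ' + ε χ'ᴴ = Zᴴ a Z =: b'`. If `N ≤ 3`: `b' = 0`; `XD` is inverse closed without `x = x⁻¹` (DRC: `X2i`,
`X2n`), TAT (`δ = -ε`): `χ' = c1 - ε c1ᴴ`, so `UF ψ 0 χ'` follows from `UF ψ 0 0`, which is `(ψ, 1; 0, 0)`: `≅ hyp` (as `nu` = ..; e.g.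
SWP (3) after the exchange, or `NEI` with `q = 0`; or directly `u = (1, 0; -ψ, 1)`). If `3 ≤ N`: NEN and the hypothesis for `W`. -/
def SpecSTY : Prop :=
  ∀ (R G : Type) [Ring R] [StarRing R] [Group G] (L : Subgroup G) (g : G) (Xb Yp Ym : Set G),
    PPK L (La L g) Xb ∅ Yp Ym → ∀ (ε : ℤˣ) (n N : ℕ), 1 ≤ N →
    ∀ ψ χ : Matrix (Fin n) (Fin n) (MonoidAlgebra R G), SuppIn (La L g) ψ → SuppIn Xb χ →
    (nu ε (ψ + (ε : ℤ) • ψᴴ) 0 (χ + (ε : ℤ) • χᴴ)) ^ N = 0 →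
    (∀ i j x, (χ i j).coeff x ≠ 0 → ¬ Flip L x) →
    (∀ W : Set G, Hf L Xb W → 3 ≤ N → ∀ χ' : Matrix (Fin n) (Fin n) (MonoidAlgebra R G),
      SuppIn (XD (La L g) W) χ' →
      (nu ε (ψ + (ε : ℤ) • ψᴴ) 0 (χ' + (ε : ℤ) • χ'ᴴ)) ^ (N - 1) = 0 →
      StablyHyperbolic ε (UF ψ 0 χ')) →
    StablyHyperbolic ε (UF ψ 0 χ)

/-- **STX** (size 150, deps `SpecSBK`, `SpecBLK`, `SpecSYK`, `SpecBLG`): the blocks of the exchanged data.

PROOF. Exchanged data: `SYK` (3), (4): `PPK L Xb (La L g) ∅ Ym Yp`, `Geo d L Xb (La L g) ∅ x2 x1`. For `f ∈ Xb`, `f f ∈ L`: `Sub1`: SBK (4). BLK, BLG: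
the block is `PPK (Kg L f) (La (Kg L f) f) (BX L Xb (La L g) ∅ f) ∅ ..`, `Geo .. x2 (f x2)`, `f f x2 = x2`. `f x2 ≠ x1`: otherwise `f x1 = x2`,
`f g⁻¹` fixes `x2`.. : `g⁻¹ x1 = x2`, `g⁻¹ x2 = x1`, so `f g⁻¹` fixes `x1`, `x2`, so it is in `L` (`st`), `f ∈ La L g`, `f ∈ Ym` (`X1Y` with `1`), and
`f ∈ Xb` gives `f ∈ Yp` (`X2Y` with `1`), so `f ∈ L` (`yy`): contradiction to `xh`. So `Nx d x1 x2 f` (BLG, third part, for the exchanged ends),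
and the hypothesis `SE R G d x2 (f • x2)` applies with `g := f`. -/
def SpecSTX : Prop :=
  ∀ (R G V : Type) [Ring R] [StarRing R] [Group G] [MulAction G V] (d : V → V → ℕ), TM G d →
    ∀ (x1 x2 : V), (∀ f : G, Nx d x1 x2 f → SE R G d x2 (f • x2)) →
    ∀ (L : Subgroup G) (g : G) (Xb Yp Ym : Set G), PPK L (La L g) Xb ∅ Yp Ym →
    Geo d L (La L g) Xb ∅ x1 x2 → g • x1 = x2 → g • x2 = x1 →
    ∀ f ∈ Xb, f * f ∈ L → Sub1 L Xb (La L g) ∅ Ym Yp {x | x ∈ Xb ∧ x ∉ dc L f} ∧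
      Blk R (La (Kg L f) f) (BX L Xb (La L g) ∅ f)

/-- **STC** (size 200, deps `SpecSYK`, `SpecDRC`, `SpecDRG`, `SpecRMV`, `SpecSTY`, `SpecSTX`; imports `UV/SWP`, `UV/IND`): the step.

PROOF. Claim by induction on `N ≥ 1`: for all data of block type with the ends `x1`, `x2` (`L`, `g`, `Xb`, `Yp`, `Ym` with `PPK`, `Geo`,
`g x1 = x2`, `g x2 = x1`), all `ε`, `n`, `ψ`, `χ` with supports in `La L g`, `Xb` and `ν^N = 0`: `UF ψ 0 χ` is stably hyperbolic. (`IsNilpotent` gives such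
an `N ≥ 1`.) SWP (1): `UF ψ 0 χ` from `UF χ 0ᴴ ψ = UF χ 0 ψ`; `INDAux.swap_zero`: the exchanged `ν` has `ν^N = 0`. RMV for the exchanged data
(`H := L`, `X1 := Xb`, `X2 := La L g`, `X3 := ∅`, `Yp := Ym`, `Ym := Yp`), its hypothesis is STX: we get `χ0` without flips, `ν0^N = 0`;
exchange back: it suffices that `UF ψ 0 χ0` is stably hyperbolic. STY: for `W`, `3 ≤ N`, `χ'`: induction hypothesis for `N - 1` and the data
`XD (La L g) W` (DRC, DRG). -/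
def SpecSTC : Prop :=
  ∀ (R G V : Type) [Ring R] [StarRing R] [Group G] [MulAction G V] (d : V → V → ℕ), TM G d →
    ∀ (x1 x2 : V), (∀ f : G, Nx d x1 x2 f → SE R G d x2 (f • x2)) → SE R G d x1 x2

/-- **BAS** (size 120, deps `RO.SpecSBT`, `RO.SpecSBF`): the regular case.

PROOF. Data of block type with the ends `x1`, `x2`: `L = stabilizer x1 ⊓ stabilizer x2` (`Subgroup.ext`, `st`); `subst`. `Loc L g (La L g) Xb Yp`:
`ag`: definition; `al`, `ar`, `ai`, `an`, `bl`, `br`, `bi`, `bn`, `y1`, `yl`: fields of `PingPong`; `ya`: `x y ∈ Ym`, `z (x y) ∈ Yp`; `dj`: `z (x t) = z' (x' t')`,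
`x t, x' t' ∈ Ym`, `u2`: `l = z⁻¹ z' ∈ L`, so `x t = l x' t'`, `t' t⁻¹ = x'⁻¹ (l⁻¹ x)`, both `x'`, `l⁻¹ x ∈ La L g`, and `e⁻¹ e' ∈ L` for
`e, e' ∈ La L g` (see DRA). SBT or SBF. -/
def SpecBAS : Prop :=
  ∀ (R G V : Type) [Ring R] [StarRing R] [Group G] [MulAction G V] (d : V → V → ℕ) (x1 x2 : V),
    Rg R G x1 x2 → SE R G d x1 x2

/-- **MNK** (size 250, deps `RO.SpecNWT`, `SpecSBK`, `SpecBLK`, `SpecSYK`, `SpecBLG`, `SpecRMV`; imports `UV/SWP`, `UV/IND`): the theorem for data.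

PROOF. For `g ∈ X1`, `g g ∈ H`: SBK (4), BLK, BLG (ends `x1`, `g x1`; `g (g x1) = x1`) and `SE R G d x1 (g x1)`: the hypothesis of RMV. So it
suffices to consider `ψ` without flips (`N ≥ 1` with `ν^N = 0`). Exchange (SWP (1), `INDAux.swap_zero`, SYK): RMV for the exchanged data
(`X2`, `X1`, `Xinv X3`, ends `x2`, `x1`): we may assume that `χ` has no flips. NWT. -/
def SpecMNK : Prop :=
  ∀ (R G V : Type) [Ring R] [StarRing R] [Group G] [MulAction G V] (d : V → V → ℕ), TM G d →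
    ∀ (H : Subgroup G) (X1 X2 X3 Yp Ym : Set G) (x1 x2 : V), PPK H X1 X2 X3 Yp Ym →
    Geo d H X1 X2 X3 x1 x2 → (∀ g ∈ X1, g * g ∈ H → SE R G d x1 (g • x1)) →
    (∀ g ∈ X2, g * g ∈ H → SE R G d x2 (g • x2)) →
    ∀ (ε : ℤˣ) (n : ℕ) (ψ μ χ : Matrix (Fin n) (Fin n) (MonoidAlgebra R G)), SuppIn X1 ψ →
    SuppIn X3 μ → SuppIn X2 χ →
    IsNilpotent (nu ε (ψ + (ε : ℤ) • ψᴴ) μ (χ + (ε : ℤ) • χᴴ)) → StablyHyperbolic ε (UF ψ μ χ)

/-- **FNK** (size 200, deps `SpecTRK`, `SpecTRG`, `SpecFPT`, `SpecSTC`, `SpecBAS`, `SpecMNK`): the theorem for trees.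

PROOF. `Gd R G d x1 x2 → SE R G d x1 x2` by induction on `Gd` (BAS, STC). TRK, TRG, FPT, MNK with `x1 = w`, `x2 = v`. Second part: if `k ≤ d x y` and
`x`, `y` are exchanged then `Gd x y` (`reg`). For all `m` and all exchanged (or arbitrary) `x1 ≠ x2` with `k ≤ d x1 x2 + m`, `x1`, `x2` exchanged:
`Gd x1 x2`, by induction on `m`: `m = 0`: `reg`. Step: `Nx d x1 x2 f`: `f` exchanges `x2` and `f x2`, `d x2 (f x2) = d x2 x1 + d x1 (f x2) ≥ d x1 x2 + 1`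
(`d x1 (f x2) > 0` as `f x2 ≠ x1`). For `g` with `g v = v`, `g w ≠ w`, `g g w = w`: `w`, `g w` are exchanged by `g`. -/
def SpecFNK : Prop :=
  ∀ (R G V : Type) [Ring R] [StarRing R] [Group G] [MulAction G V] (T : SimpleGraph V) (v w : V),
    T.IsTree → (∀ (g : G) (x y : V), T.Adj x y → T.Adj (g • x) (g • y)) → T.Adj v w →
    (∀ g : G, ¬ (g • v = w ∧ g • w = v)) →
    ((∀ g : G, g • v = v → g • w ≠ w → g • g • w = w → Gd R G T.dist w (g • w)) →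
      (∀ g : G, g • w = w → g • v ≠ v → g • g • v = v → Gd R G T.dist v (g • v)) →
      ∀ (ε : ℤˣ) (n : ℕ) (ψ μ χ : Matrix (Fin n) (Fin n) (MonoidAlgebra R G)),
        SuppIn {g | g • v = v ∧ g • w ≠ w} ψ → SuppIn {g | g • v = w} μ →
        SuppIn {g | g • w = w ∧ g • v ≠ v} χ →
        IsNilpotent (nu ε (ψ + (ε : ℤ) • ψᴴ) μ (χ + (ε : ℤ) • χᴴ)) →
        StablyHyperbolic ε (UF ψ μ χ)) ∧
    ∀ k : ℕ, (∀ x y : V, k ≤ T.dist x y → (∃ g : G, g • x = y ∧ g • y = x) → Rg R G x y) →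
      ∀ (ε : ℤˣ) (n : ℕ) (ψ μ χ : Matrix (Fin n) (Fin n) (MonoidAlgebra R G)),
        SuppIn {g | g • v = v ∧ g • w ≠ w} ψ → SuppIn {g | g • v = w} μ →
        SuppIn {g | g • w = w ∧ g • v ≠ v} χ →
        IsNilpotent (nu ε (ψ + (ε : ℤ) • ψᴴ) μ (χ + (ε : ℤ) • χᴴ)) →
        StablyHyperbolic ε (UF ψ μ χ)

end Pool.Agent.Lib.MPb6f35e.TT.ROK

/-! ## Module ROK/BLG -/

/-!
# MP_8a3537_gt, ROK: BLG (helper32)

The geometry of the block.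
-/

namespace Pool.Agent.Lib.MPb6f35e.TT.ROK

open Matrix Pool.Agent.Lib.MPb6f35e.TT.UV Pool.Agent.Lib.MPb6f35e.TT.AU Pool.Agent.Lib.MPb6f35e.TT.RO

namespace BLGAux

variable {G V : Type} [Group G] [MulAction G V]

/-- Words map `DD t` to `DD s`. -/
theorem word {d : V → V → ℕ} {H : Subgroup G} {X1 X1' X2 X3 : Set G} {x1 x2 : V}
    (hG : Geo d H X1 X2 X3 x1 x2) (hX : ∀ x ∈ X1', x ∈ X1) {k : ℕ} {s t : Bool} {z : G}
    (hz : Wd H X1' X2 X3 k s t z) (p : V) (hp : p ∈ DD d x1 x2 t)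
    (hiso : ∀ (g : G) (x y : V), d (g • x) (g • y) = d x y) :
    z • p ∈ DD d x1 x2 s := by
  induction hz with
  | @base s h hh =>
    obtain ⟨h1, h2⟩ := (hG.st h).1 hh
    cases s with
    | true =>
      show d x2 (h • p) = d x2 x1 + d x1 (h • p)
      have hp' : d x2 p = d x2 x1 + d x1 p := hp
      have e1 : d x2 (h • p) = d x2 p := by
        conv_lhs => rw [← h2]
        exact hiso h x2 p
      have e2 : d x1 (h • p) = d x1 p := by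
        conv_lhs => rw [← h1]
        exact hiso h x1 p
      rw [e1, e2]
      exact hp'
    | false =>
      show d x1 (h • p) = d x1 x2 + d x2 (h • p)
      have hp' : d x1 p = d x1 x2 + d x2 p := hp
      have e1 : d x2 (h • p) = d x2 p := by
        conv_lhs => rw [← h2]
        exact hiso h x2 p
      have e2 : d x1 (h • p) = d x1 p := by
        conv_lhs => rw [← h1]
        exact hiso h x1 p
      rw [e1, e2]
      exact hp'
  | @cons k s r t x z hx _ ih =>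
    rw [mul_smul]
    refine hG.mv s r x _ ?_ (ih hp)
    revert hx
    cases s <;> cases r
    · exact fun hx => hx
    · exact fun hx => hX x hx
    · exact fun hx => hx
    · exact fun hx => hx

end BLGAux

open BLGAux

/-- BLG -/
theorem specBLG (hTFA : SpecTFA) (_hSBK : SpecSBK) : SpecBLG := by
  intro G V _ _ d hd H X1 X2 X3 Yp Ym x1 x2 hP hG g hg hgg
  obtain ⟨t1, t2, t3⟩ := hTFA G V d hd
  have d0 : ∀ x : V, d x x = 0 := fun x => (hd.d0 x x).2 rfl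
  have hx1 : x1 ∈ DD d x1 x2 true := by
    show d x2 x1 = d x2 x1 + d x1 x1
    rw [d0, add_zero]
  have star : d x1 (g • x1) = d x1 x2 + d x2 (g • x1) := hG.mv false true g x1 hg hx1
  have hgx : g • g • x1 = x1 := by
    rw [smul_smul]
    exact ((hG.st _).1 hgg).1
  have hpos : 0 < d x1 x2 := Nat.pos_of_ne_zero fun h => hG.ne ((hd.d0 _ _).1 h)
  have hne : x1 ≠ g • x1 := by
    intro h
    have h1 : d x1 (g • x1) = 0 := (hd.d0 _ _).2 h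
    omega
  have star' : d (g • x1) x1 = d (g • x1) (g • x2) + d (g • x2) x1 := by
    have h1 : d (g • x1) (g • g • x1) = d (g • x1) (g • x2) + d (g • x2) (g • g • x1) := by
      rw [hd.iso, hd.iso, hd.iso]
      exact star
    rw [hgx] at h1
    exact h1
  have hst : ∀ x : G, x ∈ Kg H g ↔ x • x1 = x1 ∧ x • (g • x1) = g • x1 := by
    intro x
    rw [mem_Kg]
    constructor
    · rintro ⟨h1, h2⟩
      refine ⟨((hG.st x).1 h1).1, ?_⟩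
      have h3 := ((hG.st _).1 h2).1
      rw [mul_assoc, mul_smul, inv_smul_eq_iff, mul_smul] at h3
      exact h3
    · rintro ⟨h1, h2⟩
      have h3 : x • x2 = x2 := t1 x x1 x2 (g • x1) star h1 h2
      have h4 : x • (g • x2) = g • x2 := t1 x (g • x1) (g • x2) x1 star' h2 h1
      refine ⟨(hG.st x).2 ⟨h1, h3⟩, (hG.st _).2 ⟨?_, ?_⟩⟩
      · rw [mul_assoc, mul_smul, inv_smul_eq_iff, mul_smul]
        exact h2
      · rw [mul_assoc, mul_smul, inv_smul_eq_iff, mul_smul]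
        exact h4
  refine ⟨⟨hne, hst, ?_⟩, hgx, fun h => ⟨hgx, star, h⟩⟩
  intro s t x p hx hp
  cases s <;> cases t
  · -- (false, false)
    exact absurd hx (Set.notMem_empty _)
  · -- (false, true)
    obtain ⟨l, hl, rfl⟩ := hx
    obtain ⟨h1, h2⟩ := (hst l).1 hl
    have hp' : d (g • x1) p = d (g • x1) x1 + d x1 p := hp
    show d x1 ((l * g) • p) = d x1 (g • x1) + d (g • x1) ((l * g) • p)
    have e1 : d x1 ((l * g) • p) = d (g • x1) p := by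
      rw [mul_smul]
      calc d x1 (l • g • p) = d (l • x1) (l • g • p) := by rw [h1]
        _ = d x1 (g • p) := hd.iso _ _ _
        _ = d (g • g • x1) (g • p) := by rw [hgx]
        _ = d (g • x1) p := hd.iso _ _ _
    have e2 : d (g • x1) ((l * g) • p) = d x1 p := by
      rw [mul_smul]
      calc d (g • x1) (l • g • p) = d (l • g • x1) (l • g • p) := by rw [h2]
        _ = d (g • x1) (g • p) := hd.iso _ _ _
        _ = d x1 p := hd.iso _ _ _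
    rw [e1, e2, hp', hd.cm (g • x1) x1]
  · -- (true, false)
    obtain ⟨k, hk⟩ := hx
    have hp' : d x1 p = d x1 (g • x1) + d (g • x1) p := hp
    have hp2 : p ∈ DD d x1 x2 false := t3 x1 x2 (g • x1) p star hp'
    have hz : x • p ∈ DD d x1 x2 true := word hG (fun y hy => hy.1) hk p hp2 hd.iso
    have hz' : d x2 (x • p) = d x2 x1 + d x1 (x • p) := hz
    have h5 := t2 x1 x2 (g • x1) (x • p) hG.ne star hz'
    show d (g • x1) (x • p) = d (g • x1) x1 + d x1 (x • p)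
    rw [h5, hd.cm (g • x1) x1, star, hd.cm (g • x1) x2, hd.cm x2 x1]
    ring
  · -- (true, true)
    exact absurd hx (Set.notMem_empty _)

end Pool.Agent.Lib.MPb6f35e.TT.ROK

/-! ## Module ROK/BLK -/

/-!
# Module BLK: the block is again data
-/

namespace Pool.Agent.Lib.MPb6f35e.TT.ROK

open Matrix Pool.Agent.Lib.MPb6f35e.TT.UV Pool.Agent.Lib.MPb6f35e.TT.AU Pool.Agent.Lib.MPb6f35e.TT.RO

namespace BLKAux

variable {G : Type} [Group G]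

theorem yk_left {L : Subgroup G} {Xa Xb : Set G} (ha : ∀ l ∈ L, ∀ x ∈ Xa, l * x ∈ Xa)
    (hb : ∀ l ∈ L, ∀ x ∈ Xb, l * x ∈ Xb) {s : Bool} {y l : G} (hl : l ∈ L)
    (hy : YK L Xa Xb s y) : YK L Xa Xb s (l * y) := by
  cases hy with
  | base h => exact YK.base (L.mul_mem hl h)
  | @sa x y hx hy =>
    rw [← mul_assoc]
    exact YK.sa (ha l hl x hx) hy
  | @sb x y hx hy =>
    rw [← mul_assoc]
    exact YK.sb (hb l hl x hx) hy

end BLKAux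

open BLKAux in
/-- **Module BLK**. -/
theorem specBLK (hWDA : RO.SpecWDA) (hWDK : SpecWDK) (hSBK : SpecSBK)
    (hCLC : SpecCLC) : SpecBLK := by
  intro G _ H X1 X2 X3 Yp Ym P g hg hgg
  obtain ⟨k0, k1⟩ := hWDK G H X1 X2 X3 Yp Ym P
  obtain ⟨b1, b2, ⟨b3, b3i, b3m⟩, b4, b5⟩ := hSBK G H X1 X2 X3 Yp Ym P.toPingPong g hg hgg
  obtain ⟨w1, w2, w3, w4, w5⟩ := hWDA G H X1 X2 X3 Yp Ym _ b4
  obtain ⟨k1', k2⟩ := k1 _ b4
  have hLH : ∀ l ∈ Kg H g, l ∈ H := fun l hl => ((mem_Kg H g l).mp hl).1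
  have hb1 : ∀ l ∈ Kg H g, ∀ x ∈ BX H X1 X2 X3 g, l * x ∈ BX H X1 X2 X3 g := by
    rintro l hl x ⟨k, hk⟩
    exact ⟨k, (w1 k true false x l (hLH l hl) hk).1⟩
  have hb2 : ∀ l ∈ Kg H g, ∀ x ∈ BX H X1 X2 X3 g, x * l ∈ BX H X1 X2 X3 g := by
    rintro l hl x ⟨k, hk⟩
    exact ⟨k, (w1 k true false x l (hLH l hl) hk).2⟩
  have ha1 : ∀ l ∈ Kg H g, ∀ x ∈ La (Kg H g) g, l * x ∈ La (Kg H g) g := fun l hl x hx =>
    (b3 l hl x hx).1
  have hYH : ∀ y ∈ YS (Kg H g) (La (Kg H g) g) (BX H X1 X2 X3 g) false, y ∈ H → y ∈ Kg H g := by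
    intro y hy hyH
    have hy' : YK (Kg H g) (La (Kg H g) g) (BX H X1 X2 X3 g) false y := hy
    cases hy' with
    | base h => exact h
    | @sa x t hx ht => exact (k0 false true x t (b2 x hx).1 (b5 true t ht) hyH).elim
  have hword : ∀ z ∈ BX H X1 X2 X3 g, z ∉ H := by
    rintro z ⟨k, hk⟩ hzH
    cases k with
    | zero => cases hk
    | succ k =>
      have h1 := k1' k true false z 1 hk (P.Ym1)
      rw [mul_one] at h1
      exact h1 hzH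
  refine
    { X1l := ha1
      X1r := fun l hl x hx => (b3 l hl x hx).2
      X1i := b3i
      X2l := hb1
      X2r := hb2
      X2i := ?_
      X3l := fun _ _ x hx => hx.elim
      X3r := fun _ _ x hx => hx.elim
      Yp1 := YK.base (Kg H g).one_mem
      Ym1 := YK.base (Kg H g).one_mem
      Ypl := fun l hl y hy => yk_left ha1 hb1 hl hy
      Yml := fun l hl y hy => yk_left ha1 hb1 hl hy
      X1Y := fun x hx y hy => YK.sa hx hy
      X2Y := fun x hx y hy => YK.sb hx hy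
      X3Y := fun x hx => hx.elim
      X3Y' := fun x hx => (show x⁻¹ ∈ (∅ : Set G) from hx).elim
      d23 := fun _ _ _ _ x' hx' => hx'.elim
      d13 := fun _ _ _ _ x' hx' => (show x'⁻¹ ∈ (∅ : Set G) from hx').elim
      u1 := fun x hx x' hx' _ _ _ _ _ => b3m x hx x' hx'
      u2 := ?_
      u3 := fun x hx => hx.elim
      u3' := fun x hx => (show x⁻¹ ∈ (∅ : Set G) from hx).elim
      yy := ?_
      xh := ?_
      cj := ?_ }
  · -- X2i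
    rintro x ⟨k, hk⟩
    exact ⟨k, w3 k true false x hk⟩
  · -- u2
    rintro x ⟨k, hk⟩ x' ⟨k', hk'⟩ y hy y' hy' he
    exact hCLC G H X1 X2 X3 Yp Ym P g hg hgg k k' true x x' y y' hk hk' hy hy' he
  · -- yy
    intro y hy hy'
    exact hYH y hy' (P.yy y (b5 true y hy) (b5 false y hy'))
  · -- xh
    intro s t x hx hxL
    cases s <;> cases t
    · exact (show x⁻¹ ∈ (∅ : Set G) from hx).elim
    · exact P.xh false true x (b2 x hx).1 (hLH x hxL)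
    · exact hword x hx (hLH x hxL)
    · exact (show x ∈ (∅ : Set G) from hx).elim
  · -- cj
    intro s t x h hx hh
    cases s <;> cases t
    · exact (show x⁻¹ ∈ (∅ : Set G) from hx).elim
    · left
      obtain ⟨l, hl, rfl⟩ := hx
      have e1 : l * g * h * (l * g)⁻¹ = l * (g * h * g⁻¹) * l⁻¹ := by group
      rw [e1]
      exact (Kg H g).mul_mem ((Kg H g).mul_mem hl (b1 h hh).1) ((Kg H g).inv_mem hl)
    · obtain ⟨k, hk⟩ := hx
      by_cases hH : x * h * x⁻¹ ∈ H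
      · by_cases hL : x * h * x⁻¹ ∈ Kg H g
        · exact Or.inl hL
        · right
          intro y hy hy'
          apply hL
          have h1 := hCLC G H X1 X2 X3 Yp Ym P g hg hgg 0 0 false (x * h * x⁻¹) 1 y
            (x * h * x⁻¹ * y) (Wd.base hH) (Wd.base H.one_mem) hy hy' (one_mul _).symm
          rw [mul_one] at h1
          have h2 := (Kg H g).inv_mem h1
          rwa [inv_inv] at h2
      · right
        rcases k2 k true false x h hk (hLH h hh) with h1 | h1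
        · exact (hH h1).elim
        · intro y hy hy'
          exact h1 y (b5 false y hy) (b5 false _ hy')
    · exact (show x ∈ (∅ : Set G) from hx).elim

end Pool.Agent.Lib.MPb6f35e.TT.ROK

/-! ## Module ROK/CLC -/

/-!
# Module CLC: paper CLAIM C
-/

namespace Pool.Agent.Lib.MPb6f35e.TT.ROK

open Matrix Pool.Agent.Lib.MPb6f35e.TT.UV Pool.Agent.Lib.MPb6f35e.TT.AU Pool.Agent.Lib.MPb6f35e.TT.RO

namespace CLCAux

variable {G : Type} [Group G]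

/-- The shape of the elements of `YS false`. -/
theorem ys_false {L : Subgroup G} {Xa Xb : Set G} {y : G} (hy : y ∈ YS L Xa Xb false) :
    y ∈ L ∨ ∃ x ∈ Xa, ∃ t ∈ YS L Xa Xb true, y = x * t := by
  have hy' : YK L Xa Xb false y := hy
  cases hy' with
  | base h => exact Or.inl h
  | @sa x t hx ht => exact Or.inr ⟨x, hx, t, ht, rfl⟩

theorem XX_sub {X1 X1' X2 X3 : Set G} (h : X1' ⊆ X1) (s r : Bool) {x : G}
    (hx : x ∈ XX X1' X2 X3 s r) : x ∈ XX X1 X2 X3 s r := by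
  cases s <;> cases r
  · exact hx
  · exact h hx
  · exact hx
  · exact hx

/-- Both words are in `H`. -/
theorem case_hh {H : Subgroup G} {X1 X2 X3 Yp Ym : Set G} (hK : SpecWDK) (hB : SpecSBK)
    (P : PPK H X1 X2 X3 Yp Ym) {g : G} (hg : g ∈ X1) (hgg : g * g ∈ H) {h y y' : G} (hh : h ∈ H)
    (hy : y ∈ YS (Kg H g) (La (Kg H g) g) (BX H X1 X2 X3 g) false)
    (hy' : y' ∈ YS (Kg H g) (La (Kg H g) g) (BX H X1 X2 X3 g) false) (he : h * y = y') :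
    h ∈ Kg H g := by
  obtain ⟨k0, -⟩ := hK G H X1 X2 X3 Yp Ym P
  obtain ⟨b1, b2, b3, b4, b5⟩ := hB G H X1 X2 X3 Yp Ym P.toPingPong g hg hgg
  have hLH : ∀ l ∈ Kg H g, l ∈ H := fun l hl => ((mem_Kg H g l).mp hl).1
  rcases ys_false hy with hyL | ⟨x, hx, t, ht, rfl⟩
  · rcases ys_false hy' with hyL' | ⟨x', hx', t', ht', rfl⟩
    · have h1 : h = y' * y⁻¹ := by rw [← he]; group
      rw [h1]
      exact (Kg H g).mul_mem hyL' ((Kg H g).inv_mem hyL)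
    · exfalso
      refine k0 false true x' t' (b2 x' hx').1 (b5 true t' ht') ?_
      rw [← he]
      exact H.mul_mem hh (hLH y hyL)
  · rcases ys_false hy' with hyL' | ⟨x', hx', t', ht', rfl⟩
    · exfalso
      refine k0 false true x t (b2 x hx).1 (b5 true t ht) ?_
      have h1 : x * t = h⁻¹ * y' := by rw [← he]; group
      rw [h1]
      exact H.mul_mem (H.inv_mem hh) (hLH y' hyL')
    · obtain ⟨l, hl, rfl⟩ := hx
      obtain ⟨l', hl', rfl⟩ := hx'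
      have hH : l'⁻¹ * h * l ∈ H :=
        H.mul_mem (H.mul_mem (H.inv_mem (hLH l' hl')) hh) (hLH l hl)
      have hXi : g⁻¹ ∈ XX X1 X2 X3 false true := P.X1i g hg
      have e1 : g⁻¹ * (l'⁻¹ * h * l) * (g⁻¹)⁻¹ * t = t' := by
        have e2 : g⁻¹ * (l'⁻¹ * h * l) * (g⁻¹)⁻¹ * t = (l' * g)⁻¹ * (h * (l * g * t)) := by group
        rw [e2, he]
        group
      rcases P.cj false true g⁻¹ _ hXi hH with hc | hc
      · have h2 : l'⁻¹ * h * l ∈ Kg H g := by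
          rw [mem_Kg]
          refine ⟨hH, ?_⟩
          rwa [inv_inv] at hc
        have h3 : h = l' * (l'⁻¹ * h * l) * l⁻¹ := by group
        rw [h3]
        exact (Kg H g).mul_mem ((Kg H g).mul_mem hl' h2) ((Kg H g).inv_mem hl)
      · exfalso
        refine hc t (b5 true t ht) ?_
        rw [e1]
        exact b5 true t' ht'

/-- One word in `H`, the other one not. -/
theorem case_hc {H : Subgroup G} {X1 X2 X3 Yp Ym : Set G} (hU : RO.SpecUNQ) (hW : RO.SpecWDA)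
    (hK : SpecWDK) (hB : SpecSBK) (P : PPK H X1 X2 X3 Yp Ym) {g : G} (hg : g ∈ X1)
    (hgg : g * g ∈ H) {h y y' : G} (hh : h ∈ H) (k : ℕ) (r : Bool) {x1 z1 : G}
    (hx1 : x1 ∈ XX {x | x ∈ X1 ∧ x ∉ dc H g} X2 X3 false r)
    (hz1 : Wd H {x | x ∈ X1 ∧ x ∉ dc H g} X2 X3 k r false z1)
    (hy : y ∈ YS (Kg H g) (La (Kg H g) g) (BX H X1 X2 X3 g) false)
    (hy' : y' ∈ YS (Kg H g) (La (Kg H g) g) (BX H X1 X2 X3 g) false)
    (he : h * y = x1 * z1 * y') : False := by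
  obtain ⟨k0, k1⟩ := hK G H X1 X2 X3 Yp Ym P
  obtain ⟨b1, b2, b3, b4, b5⟩ := hB G H X1 X2 X3 Yp Ym P.toPingPong g hg hgg
  obtain ⟨-, -, -, w4, -⟩ := hW G H X1 X2 X3 Yp Ym _ b4
  obtain ⟨-, u2, -, -⟩ := hU G H X1 X2 X3 Yp Ym P.toPingPong
  have hLH : ∀ l ∈ Kg H g, l ∈ H := fun l hl => ((mem_Kg H g l).mp hl).1
  have hz1y : z1 * y' ∈ YB Yp Ym r := w4 k r false z1 y' hz1 (b5 false y' hy')
  rcases ys_false hy with hyL | ⟨x, hx, t, ht, rfl⟩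
  · refine k0 false r x1 (z1 * y') (XX_sub b4.sub false r hx1) hz1y ?_
    rw [← mul_assoc, ← he]
    exact H.mul_mem hh (hLH y hyL)
  · have hhx : h * x ∈ XX X1 X2 X3 false true := P.X1l h hh x (b2 x hx).1
    have he' : (h * x) * t = x1 * (z1 * y') := by rw [mul_assoc, he, mul_assoc]
    obtain ⟨hr, hH⟩ := u2 false true r (h * x) t x1 (z1 * y') hhx (b5 true t ht)
      (XX_sub b4.sub false r hx1) hz1y he'
    subst hr
    apply hx1.2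
    obtain ⟨a, ha, b, hb, hab⟩ := (b2 x hx).2
    refine ⟨h * a, H.mul_mem hh ha, b * ((h * x)⁻¹ * x1), H.mul_mem hb hH, ?_⟩
    have e1 : h * a * g * (b * ((h * x)⁻¹ * x1)) = h * (a * g * b) * ((h * x)⁻¹ * x1) := by group
    rw [e1, ← hab]
    group

/-- The general claim. -/
theorem claim {H : Subgroup G} {X1 X2 X3 Yp Ym : Set G} (hU : RO.SpecUNQ) (hW : RO.SpecWDA)
    (hK : SpecWDK) (hB : SpecSBK) (P : PPK H X1 X2 X3 Yp Ym) {g : G} (hg : g ∈ X1)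
    (hgg : g * g ∈ H) (k : ℕ) (s f : Bool) (z : G)
    (hz : Wd H {x | x ∈ X1 ∧ x ∉ dc H g} X2 X3 k s f z) :
    f = false → ∀ (k' : ℕ) (z' : G), Wd H {x | x ∈ X1 ∧ x ∉ dc H g} X2 X3 k' s f z' →
    ∀ y ∈ YS (Kg H g) (La (Kg H g) g) (BX H X1 X2 X3 g) false,
    ∀ y' ∈ YS (Kg H g) (La (Kg H g) g) (BX H X1 X2 X3 g) false,
    z * y = z' * y' → z⁻¹ * z' ∈ Kg H g := by
  have hpp := P.toPingPong
  obtain ⟨b1, b2, b3, b4, b5⟩ := hB G H X1 X2 X3 Yp Ym hpp g hg hgg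
  obtain ⟨w1, -, -, w4, -⟩ := hW G H X1 X2 X3 Yp Ym _ b4
  obtain ⟨-, u2, -, -⟩ := hU G H X1 X2 X3 Yp Ym hpp
  induction hz with
  | @base s h hh =>
    intro hf k' z' hz' y hy y' hy' he
    subst hf
    cases hz' with
    | base hh' =>
      have h1 : (z'⁻¹ * h) ∈ Kg H g := by
        refine case_hh hK hB P hg hgg (H.mul_mem (H.inv_mem hh') hh) hy hy' ?_
        rw [mul_assoc, he, inv_mul_cancel_left]
      have h2 : h⁻¹ * z' = (z'⁻¹ * h)⁻¹ := by group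
      rw [h2]
      exact (Kg H g).inv_mem h1
    | @cons k _ r _ x1 z1 hx1 hz1 =>
      exact (case_hc hU hW hK hB P hg hgg hh k r hx1 hz1 hy hy' he).elim
  | @cons k s r f x1 z1 hx1 hz1 ih =>
    intro hf k' z' hz' y hy y' hy' he
    subst hf
    cases hz' with
    | base hh' =>
      exact (case_hc hU hW hK hB P hg hgg hh' k r hx1 hz1 hy' hy he.symm).elim
    | @cons k' _ r' _ x1' z1' hx1' hz1' =>
      have hyr : z1 * y ∈ YB Yp Ym r := w4 k r false z1 y hz1 (b5 false y hy)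
      have hyr' : z1' * y' ∈ YB Yp Ym r' := w4 k' r' false z1' y' hz1' (b5 false y' hy')
      have he' : x1 * (z1 * y) = x1' * (z1' * y') := by
        rw [← mul_assoc, ← mul_assoc, he]
      obtain ⟨hr, hH⟩ := u2 s r r' x1 (z1 * y) x1' (z1' * y') (XX_sub b4.sub s r hx1) hyr
        (XX_sub b4.sub s r' hx1') hyr' he'
      subst hr
      have hwd : Wd H {x | x ∈ X1 ∧ x ∉ dc H g} X2 X3 k' r false ((x1⁻¹ * x1') * z1') :=
        (w1 k' r false z1' (x1⁻¹ * x1') hH hz1').1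
      have h1 : z1⁻¹ * ((x1⁻¹ * x1') * z1') ∈ Kg H g := by
        refine ih rfl k' _ hwd y hy y' hy' ?_
        have e3 : x1⁻¹ * x1' * z1' * y' = x1⁻¹ * (x1' * z1' * y') := by group
        rw [e3, ← he]
        group
      have e4 : (x1 * z1)⁻¹ * (x1' * z1') = z1⁻¹ * ((x1⁻¹ * x1') * z1') := by group
      rw [e4]
      exact h1

end CLCAux

/-- **Module CLC**. -/
theorem specCLC (hU : RO.SpecUNQ) (hW : RO.SpecWDA) (hK : SpecWDK) (hB : SpecSBK) : SpecCLC := by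
  intro G _ H X1 X2 X3 Yp Ym P g hg hgg k k' s z z' y y' hz hz' hy hy' he
  exact CLCAux.claim hU hW hK hB P hg hgg k s false z hz rfl k' z' hz' y hy y' hy' he

end Pool.Agent.Lib.MPb6f35e.TT.ROK

/-! ## Module ROK/DRA -/

/-!
# Module DRA: words in a half
-/

namespace Pool.Agent.Lib.MPb6f35e.TT.ROK

open Matrix Pool.Agent.Lib.MPb6f35e.TT.UV Pool.Agent.Lib.MPb6f35e.TT.AU Pool.Agent.Lib.MPb6f35e.TT.RO

namespace DRAAux

variable {G : Type} [Group G] {L : Subgroup G} {g : G} {Xb Yp Ym W : Set G}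

theorem d1a (P : PPK L (La L g) Xb ∅ Yp Ym) {e e' : G} (he : e ∈ La L g) (he' : e' ∈ La L g) :
    e⁻¹ * e' ∈ L := by
  have hg : g ∈ La L g := ⟨1, L.one_mem, by group⟩
  obtain ⟨m, hm, hm'⟩ := P.X1i g hg
  have hgg : g * g ∈ L := by
    have h1 : g * g = m⁻¹ := by
      have h2 : m * (g * g) = 1 := by
        rw [← mul_assoc, ← hm']
        group
      exact (inv_eq_of_mul_eq_one_right h2).symm
    rw [h1]
    exact L.inv_mem hm
  have hc : ∀ l ∈ L, g * l * g⁻¹ ∈ L := by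
    intro l hl
    obtain ⟨m1, hm1, h1⟩ := P.X1r l hl g hg
    rw [h1]
    have h2 : m1 * g * g⁻¹ = m1 := by group
    rw [h2]
    exact hm1
  obtain ⟨l, hl, rfl⟩ := he
  obtain ⟨l', hl', rfl⟩ := he'
  have h3 : (l * g)⁻¹ * (l' * g) = (g * g)⁻¹ * (g * (l⁻¹ * l') * g⁻¹) * (g * g) := by group
  rw [h3]
  exact L.mul_mem (L.mul_mem (L.inv_mem hgg) (hc _ (L.mul_mem (L.inv_mem hl) hl'))) hgg

theorem d1b (P : PPK L (La L g) Xb ∅ Yp Ym) {e e' : G} (he : e ∈ La L g) (he' : e' ∈ La L g) :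
    e * e' ∈ L := by
  have h := d1a P (P.X1i e he) he'
  rwa [inv_inv] at h

theorem d2l (hf : Hf L Xb W) {w : G} (hw : TT (La L g) W w) : ∀ l ∈ L, TT (La L g) W (l * w) := by
  intro l hl
  cases hw with
  | base hz => exact TT.base (hf.bi.1 l hl _ hz)
  | @cons z e w hz he hw =>
    have h1 : l * (z * e * w) = (l * z) * e * w := by group
    rw [h1]
    exact TT.cons (hf.bi.1 l hl z hz) he hw

theorem d2r (hf : Hf L Xb W) {w : G} (hw : TT (La L g) W w) : ∀ l ∈ L, TT (La L g) W (w * l) := by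
  intro l hl
  induction hw with
  | base hz => exact TT.base (hf.bi.2 l hl _ hz)
  | @cons z e w hz he hw ih =>
    have h1 : z * e * w * l = z * e * (w * l) := by group
    rw [h1]
    exact TT.cons hz he ih

theorem d3 {Xa : Set G} {w : G} (hw : TT Xa W w) : ∀ e ∈ Xa, ∀ w', TT Xa W w' →
    TT Xa W (w * e * w') := by
  intro e he w' hw'
  induction hw with
  | base hz => exact TT.cons hz he hw'
  | @cons z e1 w1 hz he1 hw1 ih =>
    have h1 : z * e1 * w1 * e * w' = z * e1 * (w1 * e * w') := by group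
    rw [h1]
    exact TT.cons hz he1 ih

theorem d4 {Xa : Set G} {w : G} (hw : TT Xa W w) :
    w ∈ W ∨ ∃ w1, TT Xa W w1 ∧ ∃ e ∈ Xa, ∃ z ∈ W, w = w1 * e * z := by
  induction hw with
  | base hz => exact Or.inl hz
  | @cons z e w hz he hw ih =>
    right
    rcases ih with h | ⟨w1, hw1, e1, he1, z1, hz1, rfl⟩
    · exact ⟨z, TT.base hz, e, he, w, h, rfl⟩
    · exact ⟨z * e * w1, TT.cons hz he hw1, e1, he1, z1, hz1, by group⟩

theorem d5 (P : PPK L (La L g) Xb ∅ Yp Ym) (hf : Hf L Xb W) {w : G} (hw : TT (La L g) W w) :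
    ∀ y ∈ Ym, w * y ∈ Yp := by
  induction hw with
  | base hz => exact fun y hy => P.X2Y _ (hf.sub _ hz) y hy
  | @cons z e w hz he hw ih =>
    intro y hy
    have h1 : z * e * w * y = z * (e * (w * y)) := by group
    rw [h1]
    exact P.X2Y _ (hf.sub _ hz) _ (P.X1Y _ he _ (ih y hy))

theorem d5i (P : PPK L (La L g) Xb ∅ Yp Ym) (hf : Hf L Xb W) {w : G} (hw : TT (La L g) W w) :
    ∀ y ∈ Ym, w⁻¹ * y ∈ Yp := by
  induction hw with
  | base hz => exact fun y hy => P.X2Y _ (P.X2i _ (hf.sub _ hz)) y hy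
  | @cons z e w hz he hw ih =>
    intro y hy
    have h1 : (z * e * w)⁻¹ * y = w⁻¹ * (e⁻¹ * (z⁻¹ * y)) := by group
    rw [h1]
    exact ih _ (P.X1Y _ (P.X1i _ he) _ (P.X2Y _ (P.X2i _ (hf.sub _ hz)) y hy))

theorem d6 (P : PPK L (La L g) Xb ∅ Yp Ym) (hf : Hf L Xb W) {w : G} (hw : TT (La L g) W w) :
    ∀ y ∈ Ym, ∃ z ∈ W, ∃ y' ∈ Ym, w * y = z * y' := by
  intro y hy
  cases hw with
  | base hz => exact ⟨_, hz, y, hy, rfl⟩
  | @cons z e w hz he hw =>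
    exact ⟨z, hz, e * (w * y), P.X1Y _ he _ (d5 P hf hw y hy), by group⟩

theorem d6i (P : PPK L (La L g) Xb ∅ Yp Ym) (hf : Hf L Xb W) {w : G} (hw : TT (La L g) W w) :
    ∀ y ∈ Ym, ∃ z ∈ W, ∃ y' ∈ Ym, w⁻¹ * y = z⁻¹ * y' := by
  intro y hy
  rcases d4 hw with h | ⟨w1, hw1, e, he, z, hz, rfl⟩
  · exact ⟨w, h, y, hy, rfl⟩
  · exact ⟨z, hz, e⁻¹ * (w1⁻¹ * y), P.X1Y _ (P.X1i _ he) _ (d5i P hf hw1 y hy), by group⟩

theorem d7 (P : PPK L (La L g) Xb ∅ Yp Ym) (hf : Hf L Xb W) {s : Bool} {y : G}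
    (hy : YK L (La L g) (XD (La L g) W) s y) : y ∈ YB Yp Ym s := by
  induction hy with
  | @base s l hl =>
    cases s
    · have h := P.Yml l hl 1 P.Ym1
      rwa [mul_one] at h
    · have h := P.Ypl l hl 1 P.Yp1
      rwa [mul_one] at h
  | @sa x y hx hy ih => exact P.X1Y x hx y ih
  | @sb x y hx hy ih =>
    obtain ⟨w, hw, e, he, w', hw', rfl⟩ := hx
    have h1 : w⁻¹ * e * w' * y = w⁻¹ * (e * (w' * y)) := by group
    rw [h1]
    exact d5i P hf hw _ (P.X1Y _ he _ (d5 P hf hw' y ih))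

theorem d9 (P : PPK L (La L g) Xb ∅ Yp Ym) (hf : Hf L Xb W) {e e' z z' y y' : G}
    (he : e ∈ La L g) (he' : e' ∈ La L g) (hz : z ∈ W) (hz' : z' ∈ W) (hy : y ∈ Ym)
    (hy' : y' ∈ Ym) (h : e * (z * y) = e' * (z'⁻¹ * y')) : False := by
  have hl : e'⁻¹ * e ∈ L := d1a P he' he
  have hlz : (e'⁻¹ * e) * z ∈ W := hf.bi.1 _ hl z hz
  have h1 : ((e'⁻¹ * e) * z) * y = z'⁻¹ * y' := by
    have h2 : ((e'⁻¹ * e) * z) * y = e'⁻¹ * (e * (z * y)) := by group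
    rw [h2, h]
    group
  have h3 : ((e'⁻¹ * e) * z)⁻¹ * z'⁻¹ ∈ L :=
    P.u2 _ (hf.sub _ hlz) _ (P.X2i _ (hf.sub _ hz')) y hy y' hy' h1
  have h4 : z'⁻¹ ∈ W := by
    have h5 := hf.bi.2 _ h3 _ hlz
    rwa [mul_inv_cancel_left] at h5
  exact hf.ni z' hz' h4

theorem d8 (hK : SpecWDK) (P : PPK L (La L g) Xb ∅ Yp Ym) (hf : Hf L Xb W) {e z y : G}
    (he : e ∈ La L g) (hz : z ∈ W) (hy : y ∈ Ym) :
    e * (z * y) ∉ YS L (La L g) (XD (La L g) W) false := by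
  obtain ⟨k0, -⟩ := hK G L (La L g) Xb ∅ Yp Ym P
  have hzy : z * y ∈ Yp := P.X2Y _ (hf.sub _ hz) y hy
  have c1 : e * (z * y) ∉ L := k0 false true e (z * y) he hzy
  have c2 : z * y ∉ L := k0 true false z y (hf.sub _ hz) hy
  intro hY
  have hY' : YK L (La L g) (XD (La L g) W) false (e * (z * y)) := hY
  generalize hv : e * (z * y) = v at hY' c1
  cases hY' with
  | base hl => exact c1 hl
  | @sa e1 y1 he1 hy1 =>
    cases hy1 with
    | base hl =>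
      apply c2
      have h1 : z * y = (e⁻¹ * e1) * y1 := by
        have h2 : z * y = e⁻¹ * (e * (z * y)) := by group
        rw [h2, hv]
        group
      rw [h1]
      exact L.mul_mem (d1a P he he1) hl
    | @sb x y2 hx hy2 =>
      obtain ⟨w, hw, e2, he2, w', hw', rfl⟩ := hx
      have hy2' : y2 ∈ Ym := d7 P hf hy2
      obtain ⟨z', hz', y', hy', h3⟩ :=
        d6i P hf hw (e2 * (w' * y2)) (P.X1Y _ he2 _ (d5 P hf hw' y2 hy2'))
      refine d9 P hf he he1 hz hz' hy hy' ?_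
      rw [← h3, hv]
      group

end DRAAux

open DRAAux in
/-- **Module DRA**. -/
theorem specDRA (hWDK : SpecWDK) : SpecDRA := by
  intro G _ L g Xb Yp Ym W P hf
  refine ⟨fun e he e' he' => ⟨d1a P he he', d1b P he he'⟩,
    fun l hl w hw => ⟨d2l hf hw l hl, d2r hf hw l hl⟩,
    fun w hw e he w' hw' => d3 hw e he w' hw', fun w hw => d4 hw,
    fun w hw y hy => ⟨d5 P hf hw y hy, d5i P hf hw y hy⟩,
    fun w hw y hy => ⟨d6 P hf hw y hy, d6i P hf hw y hy⟩,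
    fun s y hy => d7 P hf hy, fun e he z hz y hy => d8 hWDK P hf he hz hy,
    fun e he e' he' z hz z' hz' y hy y' hy' h => d9 P hf he he' hz hz' hy hy' h⟩

end Pool.Agent.Lib.MPb6f35e.TT.ROK

/-! ## Module ROK/DRB -/

/-!
# Module DRB: uniqueness for the derived data
-/

namespace Pool.Agent.Lib.MPb6f35e.TT.ROK

open Matrix Pool.Agent.Lib.MPb6f35e.TT.UV Pool.Agent.Lib.MPb6f35e.TT.AU Pool.Agent.Lib.MPb6f35e.TT.RO

namespace DRBAux

variable {G : Type} [Group G]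

/-- The words of `T`, generated from the right. -/
inductive TR (Xa W : Set G) : G → Prop
  | base {z : G} : z ∈ W → TR Xa W z
  | snoc {w e z : G} : TR Xa W w → e ∈ Xa → z ∈ W → TR Xa W (w * e * z)

theorem TR_cons {Xa W : Set G} {z e w : G} (hz : z ∈ W) (he : e ∈ Xa) (hw : TR Xa W w) :
    TR Xa W (z * e * w) := by
  induction hw with
  | base h => exact TR.snoc (TR.base hz) he h
  | @snoc w1 e1 z1 hw1 he1 hz1 ih =>
    have h1 : z * e * (w1 * e1 * z1) = (z * e * w1) * e1 * z1 := by group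
    rw [h1]
    exact TR.snoc ih he1 hz1

theorem TR_of_TT {Xa W : Set G} {w : G} (hw : TT Xa W w) : TR Xa W w := by
  induction hw with
  | base h => exact TR.base h
  | cons hz he _ ih => exact TR_cons hz he ih

theorem TR_mul {Xa W : Set G} {L : Subgroup G} (hW : Bi L W) {w l : G} (hw : TR Xa W w)
    (hl : l ∈ L) : TR Xa W (w * l) := by
  cases hw with
  | base h => exact TR.base (hW.2 l hl _ h)
  | @snoc w1 e1 z1 hw1 he1 hz1 =>
    have h1 : w1 * e1 * z1 * l = w1 * e1 * (z1 * l) := by group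
    rw [h1]
    exact TR.snoc hw1 he1 (hW.2 l hl _ hz1)

theorem TT_of_TR {L : Subgroup G} {g : G} {Xb Yp Ym W : Set G} (hA : SpecDRA)
    (P : PPK L (La L g) Xb ∅ Yp Ym) (hf : Hf L Xb W) {w : G} (hw : TR (La L g) W w) :
    w ∈ TS (La L g) W := by
  obtain ⟨-, -, d3, -⟩ := hA G L g Xb Yp Ym W P hf
  induction hw with
  | base h => exact TT.base h
  | @snoc w1 e1 z1 hw1 he1 hz1 ih => exact d3 w1 ih e1 he1 z1 (TT.base hz1)

/-- (S3) of the paper. -/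
theorem S3 {L : Subgroup G} {g : G} {Xb Yp Ym W : Set G} (hA : SpecDRA)
    (P : PPK L (La L g) Xb ∅ Yp Ym) (hf : Hf L Xb W) {w : G} (hw : TT (La L g) W w) :
    ∀ w', TT (La L g) W w' → ∀ y ∈ YS L (La L g) (XD (La L g) W) false,
    ∀ y' ∈ YS L (La L g) (XD (La L g) W) false, w * y = w' * y' → w⁻¹ * w' ∈ L := by
  obtain ⟨d1, d2, d3, d4, d5, d6, d7, d8, d9⟩ := hA G L g Xb Yp Ym W P hf
  have hYm : ∀ y ∈ YS L (La L g) (XD (La L g) W) false, y ∈ Ym := fun y hy => d7 false y hy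
  -- the mixed case
  have mix : ∀ z ∈ W, ∀ z' ∈ W, ∀ e' ∈ La L g, ∀ w1', TT (La L g) W w1' →
      ∀ y ∈ YS L (La L g) (XD (La L g) W) false,
      ∀ y' ∈ YS L (La L g) (XD (La L g) W) false, z * y = z' * e' * w1' * y' → False := by
    intro z hz z' hz' e' he' w1' hw1' y hy y' hy' he
    have h1 : w1' * y' ∈ Yp := (d5 w1' hw1' y' (hYm y' hy')).1
    have h2 : e' * (w1' * y') ∈ Ym := P.X1Y e' he' _ h1
    have h3 : z⁻¹ * z' ∈ L := by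
      refine P.u2 z (hf.sub z hz) z' (hf.sub z' hz') y (hYm y hy) _ h2 ?_
      rw [he]
      group
    obtain ⟨z2, hz2, y2, hy2, h4⟩ := (d6 w1' hw1' y' (hYm y' hy')).1
    have h5 : (z⁻¹ * z') * e' ∈ La L g := P.X1l _ h3 e' he'
    refine d8 _ h5 z2 hz2 y2 hy2 ?_
    rw [← h4]
    have h6 : z⁻¹ * z' * e' * (w1' * y') = z⁻¹ * (z' * e' * w1' * y') := by group
    rw [h6, ← he, inv_mul_cancel_left]
    exact hy
  induction hw with
  | @base z hz =>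
    intro w' hw' y hy y' hy' he
    cases hw' with
    | base hz' =>
      exact P.u2 z (hf.sub z hz) _ (hf.sub _ hz') y (hYm y hy) y' (hYm y' hy') he
    | @cons z' e' w1' hz' he' hw1' => exact (mix z hz z' hz' e' he' w1' hw1' y hy y' hy' he).elim
  | @cons z e w1 hz hE hw1 ih =>
    intro w' hw' y hy y' hy' he
    cases hw' with
    | base hz' => exact (mix _ hz' z hz e hE w1 hw1 y' hy' y hy he.symm).elim
    | @cons z' e' w1' hz' hE' hw1' =>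
      have h1 : e * (w1 * y) ∈ Ym := P.X1Y e hE _ (d5 w1 hw1 y (hYm y hy)).1
      have h1' : e' * (w1' * y') ∈ Ym := P.X1Y e' hE' _ (d5 w1' hw1' y' (hYm y' hy')).1
      have h3 : z⁻¹ * z' ∈ L := by
        refine P.u2 z (hf.sub z hz) z' (hf.sub z' hz') _ h1 _ h1' ?_
        have a1 : z * (e * (w1 * y)) = z * e * w1 * y := by group
        have a2 : z' * (e' * (w1' * y')) = z' * e' * w1' * y' := by group
        rw [a1, a2, he]
      have h5 : (z⁻¹ * z') * e' ∈ La L g := P.X1l _ h3 e' hE'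
      have h6 : e⁻¹ * ((z⁻¹ * z') * e') ∈ L := (d1 e hE _ h5).1
      have h7 : w1⁻¹ * ((e⁻¹ * ((z⁻¹ * z') * e')) * w1') ∈ L := by
        refine ih _ (d2 _ h6 w1' hw1').1 y hy y' hy' ?_
        have a1 : e⁻¹ * ((z⁻¹ * z') * e') * w1' * y' = e⁻¹ * z⁻¹ * (z' * e' * w1' * y') := by group
        rw [a1, ← he]
        group
      have a2 : (z * e * w1)⁻¹ * (z' * e' * w1') = w1⁻¹ * ((e⁻¹ * ((z⁻¹ * z') * e')) * w1') := by
        group
      rw [a2]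
      exact h7

/-- The set `V` of (S4). -/
def VV (L : Subgroup G) (g : G) (W : Set G) : Set G :=
  {v | ∃ e ∈ La L g, ∃ w ∈ TS (La L g) W, ∃ y ∈ YS L (La L g) (XD (La L g) W) false,
    v = e * (w * y)}

/-- (S4) of the paper. -/
theorem S4 {L : Subgroup G} {g : G} {Xb Yp Ym W : Set G} (hA : SpecDRA)
    (P : PPK L (La L g) Xb ∅ Yp Ym) (hf : Hf L Xb W) {w : G} (hw : TR (La L g) W w) :
    ∀ w', TR (La L g) W w' → ∀ v ∈ VV L g W, ∀ v' ∈ VV L g W, w⁻¹ * v = w'⁻¹ * v' →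
      ∃ l ∈ L, v' = l * v := by
  obtain ⟨d1, d2, d3, d4, d5, d6, d7, d8, d9⟩ := hA G L g Xb Yp Ym W P hf
  have hV : ∀ v ∈ VV L g W, v ∈ Ym := by
    rintro v ⟨e, he, w2, hw2, y, hy, rfl⟩
    exact P.X1Y e he _ (d5 w2 hw2 y (d7 false y hy)).1
  have hT : ∀ w, TR (La L g) W w → w ∈ TS (La L g) W := fun w hw => TT_of_TR hA P hf hw
  -- the mixed case
  have mix : ∀ z ∈ W, ∀ z' ∈ W, ∀ e' ∈ La L g, ∀ w1', TR (La L g) W w1' → ∀ v ∈ VV L g W,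
      ∀ v' ∈ VV L g W, z⁻¹ * v = (w1' * e' * z')⁻¹ * v' → False := by
    intro z hz z' hz' e' he' w1' hw1' v hv v' hv' he
    have hi : e'⁻¹ ∈ La L g := P.X1i e' he'
    have h1 : w1'⁻¹ * v' ∈ Yp := (d5 w1' (hT w1' hw1') v' (hV v' hv')).2
    have h2 : e'⁻¹ * (w1'⁻¹ * v') ∈ Ym := P.X1Y _ hi _ h1
    have h3 : (z⁻¹)⁻¹ * z'⁻¹ ∈ L := by
      refine P.u2 z⁻¹ (P.X2i z (hf.sub z hz)) z'⁻¹ (P.X2i z' (hf.sub z' hz')) v (hV v hv) _ h2 ?_
      rw [he]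
      group
    obtain ⟨z2, hz2, y2, hy2, h4⟩ := (d6 w1' (hT w1' hw1') v' (hV v' hv')).2
    obtain ⟨e, hE, w2, hw2, y, hy, hve⟩ := hv
    obtain ⟨z3, hz3, y3, hy3, h5⟩ := (d6 w2 hw2 y (d7 false y hy)).1
    refine d9 e hE _ (P.X1l _ h3 _ hi) z3 hz3 z2 hz2 y3 hy3 y2 hy2 ?_
    rw [← h5, ← h4, ← hve]
    have a1 : (z⁻¹)⁻¹ * z'⁻¹ * e'⁻¹ * (w1'⁻¹ * v') = z * ((w1' * e' * z')⁻¹ * v') := by group
    rw [a1, ← he, mul_inv_cancel_left]
  induction hw with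
  | @base z hz =>
    intro w' hw' v hv v' hv' he
    cases hw' with
    | base hz' =>
      have h3 : (z⁻¹)⁻¹ * w'⁻¹ ∈ L :=
        P.u2 z⁻¹ (P.X2i z (hf.sub z hz)) w'⁻¹ (P.X2i w' (hf.sub w' hz')) v (hV v hv) v' (hV v' hv') he
      refine ⟨((z⁻¹)⁻¹ * w'⁻¹)⁻¹, L.inv_mem h3, ?_⟩
      have a1 : ((z⁻¹)⁻¹ * w'⁻¹)⁻¹ * v = w' * (z⁻¹ * v) := by group
      rw [a1, he, mul_inv_cancel_left]
    | @snoc w1' e' z' hw1' he' hz' => exact (mix z hz z' hz' e' he' w1' hw1' v hv v' hv' he).elim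
  | @snoc w1 e z hw1 hE hz ih =>
    intro w' hw' v hv v' hv' he
    cases hw' with
    | base hz' => exact (mix _ hz' z hz e hE w1 hw1 v' hv' v hv he.symm).elim
    | @snoc w1' e' z' hw1' hE' hz' =>
      have hi : e⁻¹ ∈ La L g := P.X1i e hE
      have hi' : e'⁻¹ ∈ La L g := P.X1i e' hE'
      have h1 : e⁻¹ * (w1⁻¹ * v) ∈ Ym := P.X1Y _ hi _ (d5 w1 (hT w1 hw1) v (hV v hv)).2
      have h1' : e'⁻¹ * (w1'⁻¹ * v') ∈ Ym := P.X1Y _ hi' _ (d5 w1' (hT w1' hw1') v' (hV v' hv')).2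
      have h3 : (z⁻¹)⁻¹ * z'⁻¹ ∈ L := by
        refine P.u2 z⁻¹ (P.X2i z (hf.sub z hz)) z'⁻¹ (P.X2i z' (hf.sub z' hz')) _ h1 _ h1' ?_
        have a1 : z⁻¹ * (e⁻¹ * (w1⁻¹ * v)) = (w1 * e * z)⁻¹ * v := by group
        have a2 : z'⁻¹ * (e'⁻¹ * (w1'⁻¹ * v')) = (w1' * e' * z')⁻¹ * v' := by group
        rw [a1, a2, he]
      have h5 : ((z⁻¹)⁻¹ * z'⁻¹) * e'⁻¹ ∈ La L g := P.X1l _ h3 _ hi'
      have h6 : e * (((z⁻¹)⁻¹ * z'⁻¹) * e'⁻¹) ∈ L := (d1 e hE _ h5).2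
      refine ih (w1' * (e * (((z⁻¹)⁻¹ * z'⁻¹) * e'⁻¹))⁻¹) (TR_mul hf.bi hw1' (L.inv_mem h6)) v hv v'
        hv' ?_
      have a1 : w1⁻¹ * v = e * z * ((w1 * e * z)⁻¹ * v) := by group
      rw [a1, he]
      group

end DRBAux

open DRBAux in
/-- **Module DRB**. -/
theorem specDRB (hA : SpecDRA) : SpecDRB := by
  intro G _ L g Xb Yp Ym W P hf z hz z' hz' y hy y' hy' he
  obtain ⟨d1, d2, d3, d4, d5, d6, d7, d8, d9⟩ := hA G L g Xb Yp Ym W P hf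
  obtain ⟨w1, hw1, e, hE, w2, hw2, rfl⟩ := hz
  obtain ⟨w1', hw1', e', hE', w2', hw2', rfl⟩ := hz'
  obtain ⟨l, hl, h1⟩ := S4 hA P hf (TR_of_TT hw1) w1' (TR_of_TT hw1') (e * (w2 * y))
    ⟨e, hE, w2, hw2, y, hy, rfl⟩ (e' * (w2' * y')) ⟨e', hE', w2', hw2', y', hy', rfl⟩ (by
      have a1 : w1⁻¹ * (e * (w2 * y)) = w1⁻¹ * e * w2 * y := by group
      have a2 : w1'⁻¹ * (e' * (w2' * y')) = w1'⁻¹ * e' * w2' * y' := by group
      rw [a1, a2, he])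
  have h2 : l⁻¹ * e' ∈ La L g := P.X1l _ (L.inv_mem hl) e' hE'
  have h3 : e⁻¹ * (l⁻¹ * e') ∈ L := (d1 e hE _ h2).1
  have h4 : w2⁻¹ * ((e⁻¹ * (l⁻¹ * e')) * w2') ∈ L := by
    refine S3 hA P hf hw2 _ (d2 _ h3 w2' hw2').1 y hy y' hy' ?_
    have a1 : e⁻¹ * (l⁻¹ * e') * w2' * y' = e⁻¹ * l⁻¹ * (e' * (w2' * y')) := by group
    rw [a1, h1]
    group
  have h5 : y * y'⁻¹ ∈ L := by
    have a1 : y * y'⁻¹ = w2⁻¹ * ((e⁻¹ * (l⁻¹ * e')) * w2') := by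
      have a2 : y = w2⁻¹ * (e⁻¹ * l⁻¹ * (e' * (w2' * y'))) := by
        rw [h1]
        group
      have a3 : y * y'⁻¹ = w2⁻¹ * (e⁻¹ * l⁻¹ * (e' * (w2' * y'))) * y'⁻¹ := by
        rw [← a2]
      rw [a3]
      group
    rw [a1]
    exact h4
  have h6 : (w1⁻¹ * e * w2)⁻¹ * (w1'⁻¹ * e' * w2') = y * y'⁻¹ := by
    have a1 : w1'⁻¹ * e' * w2' = w1⁻¹ * e * w2 * y * y'⁻¹ := by
      rw [he]
      group
    rw [a1]
    group
  rw [h6]
  exact h5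

end Pool.Agent.Lib.MPb6f35e.TT.ROK

/-! ## Module ROK/DRC -/

/-!
# ROK, module DRC: the derived data
-/

namespace Pool.Agent.Lib.MPb6f35e.TT.ROK

open Matrix Pool.Agent.Lib.MPb6f35e.TT.UV Pool.Agent.Lib.MPb6f35e.TT.AU Pool.Agent.Lib.MPb6f35e.TT.RO

namespace DRCAux

variable {G : Type} [Group G] {L : Subgroup G} {g : G} {Xb Yp Ym W : Set G}

theorem sub1 (P : PPK L (La L g) Xb ∅ Yp Ym) : Sub1 L (La L g) Xb ∅ Yp Ym (La L g) where
  pp := P.toPingPong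
  sub := fun _ hx => hx
  bi := ⟨P.X1l, P.X1r⟩
  inv := P.X1i

/-- The elements of `TS` are words. -/
theorem wd_T (hWDA : RO.SpecWDA) (P : PPK L (La L g) Xb ∅ Yp Ym) (hW : Hf L Xb W) {z : G}
    (hz : z ∈ TS (La L g) W) : ∃ k, Wd L (La L g) Xb ∅ (k + 1) true false z := by
  obtain ⟨-, h2, -, -, h5⟩ := hWDA G L (La L g) Xb ∅ Yp Ym (La L g) (sub1 P)
  change TT (La L g) W z at hz
  induction hz with
  | @base z hz => exact ⟨0, (h5 true false z (hW.sub z hz)).1⟩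
  | @cons z e w hz he _ ih =>
    obtain ⟨k, hk⟩ := ih
    have a1 := (h5 true false z (hW.sub z hz)).1
    have a2 := (h5 false true e he).1
    have a3 := h2 _ _ _ _ _ _ _ (h2 _ _ _ _ _ _ _ a1 a2) hk
    exact ⟨_, a3⟩

/-- The elements of `XD` are words. -/
theorem wd_D (hWDA : RO.SpecWDA) (P : PPK L (La L g) Xb ∅ Yp Ym) (hW : Hf L Xb W) {z : G}
    (hz : z ∈ XD (La L g) W) : ∃ k, Wd L (La L g) Xb ∅ (k + 1) true false z := by
  obtain ⟨-, h2, h3, -, h5⟩ := hWDA G L (La L g) Xb ∅ Yp Ym (La L g) (sub1 P)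
  obtain ⟨w, hw, e, he, w', hw', rfl⟩ := hz
  obtain ⟨k, hk⟩ := wd_T hWDA P hW hw
  obtain ⟨k', hk'⟩ := wd_T hWDA P hW hw'
  have a1 : Wd L (La L g) Xb ∅ (k + 1) true false w⁻¹ := h3 _ _ _ _ hk
  have a2 := (h5 false true e he).1
  have a3 := h2 _ _ _ _ _ _ _ (h2 _ _ _ _ _ _ _ a1 a2) hk'
  exact ⟨_, a3⟩

end DRCAux

open DRCAux

/-- **Module DRC**: the derived data are data. -/
theorem specDRC (hUNQ : RO.SpecUNQ) (hWDA : RO.SpecWDA) (hWDK : SpecWDK)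
    (hDRA : SpecDRA) (hDRB : SpecDRB) : SpecDRC := by
  intro G _ L g Xb Yp Ym W P hW
  obtain ⟨d1, d2, -, -, -, -, d7, -, -⟩ := hDRA G L g Xb Yp Ym W P hW
  obtain ⟨-, k2⟩ := hWDK G L (La L g) Xb ∅ Yp Ym P
  obtain ⟨k21, k22⟩ := k2 (La L g) (sub1 P)
  have X2l : ∀ h ∈ L, ∀ x ∈ XD (La L g) W, h * x ∈ XD (La L g) W := by
    rintro h hh x ⟨w, hw, e, he, w', hw', rfl⟩
    refine ⟨w * h⁻¹, (d2 h⁻¹ (L.inv_mem hh) w hw).2, e, he, w', hw', ?_⟩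
    group
  have X2r : ∀ h ∈ L, ∀ x ∈ XD (La L g) W, x * h ∈ XD (La L g) W := by
    rintro h hh x ⟨w, hw, e, he, w', hw', rfl⟩
    refine ⟨w, hw, e, he, w' * h, (d2 h hh w' hw').2, ?_⟩
    group
  have X2i : ∀ x ∈ XD (La L g) W, x⁻¹ ∈ XD (La L g) W := by
    rintro x ⟨w, hw, e, he, w', hw', rfl⟩
    refine ⟨w', hw', e⁻¹, P.X1i e he, w, hw, ?_⟩
    group
  have y7 : ∀ y ∈ YS L (La L g) (XD (La L g) W) true, y ∈ Yp := fun y hy => d7 true y hy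
  have y7' : ∀ y ∈ YS L (La L g) (XD (La L g) W) false, y ∈ Ym := fun y hy => d7 false y hy
  refine { X1l := P.X1l, X1r := P.X1r, X1i := P.X1i, X2l := X2l, X2r := X2r,
           X2i := X2i, X3l := ?_, X3r := ?_, Yp1 := ?_, Ym1 := ?_, Ypl := ?_, Yml := ?_,
           X1Y := ?_, X2Y := ?_, X3Y := ?_, X3Y' := ?_, d23 := ?_, d13 := ?_, u1 := ?_, u2 := ?_,
           u3 := ?_, u3' := ?_, yy := ?_, xh := ?_, cj := ?_ }
  · intro h _ x hx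
    exact hx.elim
  · intro h _ x hx
    exact hx.elim
  · exact YK.base L.one_mem
  · exact YK.base L.one_mem
  · intro h hh y hy
    change YK L (La L g) (XD (La L g) W) true y at hy
    change YK L (La L g) (XD (La L g) W) true (h * y)
    cases hy with
    | base hl => exact YK.base (L.mul_mem hh hl)
    | sb hx hy =>
      rw [← mul_assoc]
      exact YK.sb (X2l h hh _ hx) hy
  · intro h hh y hy
    change YK L (La L g) (XD (La L g) W) false y at hy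
    change YK L (La L g) (XD (La L g) W) false (h * y)
    cases hy with
    | base hl => exact YK.base (L.mul_mem hh hl)
    | sa hx hy =>
      rw [← mul_assoc]
      exact YK.sa (P.X1l h hh _ hx) hy
  · intro x hx y hy
    exact YK.sa hx hy
  · intro x hx y hy
    exact YK.sb hx hy
  · intro x hx
    exact hx.elim
  · intro x hx
    exact (show x⁻¹ ∈ (∅ : Set G) from hx).elim
  · intro x _ y _ x' hx'
    exact hx'.elim
  · intro x _ y _ x' hx'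
    exact (show x'⁻¹ ∈ (∅ : Set G) from hx').elim
  · intro x hx x' hx' y _ y' _ _
    exact (d1 x hx x' hx').1
  · intro x hx x' hx' y hy y' hy' h
    exact hDRB G L g Xb Yp Ym W P hW x hx x' hx' y hy y' hy' h
  · intro x hx
    exact hx.elim
  · intro x hx
    exact (show x⁻¹ ∈ (∅ : Set G) from hx).elim
  · intro y h1 h2
    exact P.yy y (y7 y h1) (y7' y h2)
  · intro s t x hx
    match s, t, hx with
    | true, true, hx => exact hx.elim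
    | true, false, hx =>
      obtain ⟨k, hk⟩ := wd_D hWDA P hW (z := x) hx
      have := k21 k true false x 1 hk P.Ym1
      rwa [mul_one] at this
    | false, true, hx => exact P.xh false true x hx
    | false, false, hx => exact (show x⁻¹ ∈ (∅ : Set G) from hx).elim
  · intro s t x h hx hh
    match s, t, hx with
    | true, true, hx => exact hx.elim
    | true, false, hx =>
      obtain ⟨k, hk⟩ := wd_D hWDA P hW (z := x) hx
      rcases k22 (k + 1) true false x h hk hh with h1 | h1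
      · exact Or.inl h1
      · right
        intro y hy hy'
        exact h1 y (y7' y hy) (y7' _ hy')
    | false, true, hx =>
      rcases P.cj false true x h hx hh with h1 | h1
      · exact Or.inl h1
      · right
        intro y hy hy'
        exact h1 y (y7 y hy) (y7 _ hy')
    | false, false, hx => exact (show x⁻¹ ∈ (∅ : Set G) from hx).elim

end Pool.Agent.Lib.MPb6f35e.TT.ROK
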