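import Pool.Agent.Lib.MP_b6f35e_al.TT.A1
import Pool.Agent.Lib.MP_b6f35e_al.TT.A2
import Pool.Agent.Lib.MP_b6f35e_al.TT.AR.DTD
import Pool.Agent.Lib.MP_b6f35e_al.TT.K1
import Pool.Agent.Lib.MP_b6f35e_al.TT.L2
import Pool.Agent.Lib.MP_b6f35e_al.TT.U1
import Pool.Agent.Lib.MP_b6f35e_al.TT.U2

/-! # Modules for Theorem DT (MP_b6f35e_al, Q2): classes of forms, part 3 (copies of modules of MP_8a3537_gt, without the
conditions on elements of order two) -/

/-! ## Module AR/DI2 -/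

/-!
# The lift of nilpotent forms to amalgams, groups with elements of order two (helper81)

The files `AR/DIH.lean`, `AR/DHB.lean`, `AR/LFT.lean` without the conditions on elements of order two. `AdmT`: the
admissible sequences. `AmalT K L h u f`: the amalgam of `⟨K, u⟩` and `⟨L, f⟩` over `L`. `LiftT`: the form `UF ψ 0 χ` is the
image of a nilpotent form over the group ring of the amalgam with supports in `K u`, `L f`. `lift_admT`: this is true
for the nilpotent forms with supports in `K i * u i`, `K (i + 1) * u (i + 1)` of an admissible sequence.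
-/

set_option autoImplicit false
set_option linter.unusedSectionVars false

namespace Pool.Agent.Lib.MPb6f35e.TT.AR

open Matrix Monoid Pool.Agent.Lib.MPb6f35e.TT.UV Pool.Agent.Lib.MPb6f35e.TT.RO
open Pool.Agent.Lib.MPb6f35e.TT.ROK

section Defs

variable {G : Type} [Group G]

/-- The amalgam of `⟨K, u⟩` and `⟨L, f⟩` over `L`. -/
abbrev AmalT (K L : Subgroup G) (h : L ≤ K) (u f : G) : Type :=
  PushoutI fun b => Subgroup.inclusion (facT_le h u f b)

/-- The homomorphism from the amalgam to `G`. -/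
def toGT (K L : Subgroup G) (h : L ≤ K) (u f : G) : AmalT K L h u f →* G :=
  PushoutI.lift (fun b => (FacT K L u f b).subtype) L.subtype fun _ => rfl

/-- The subset `F` of a factor, as a subset of the amalgam. -/
def InFT (K L : Subgroup G) (h : L ≤ K) (u f : G) (b : Bool) (F : Set G) : Set (AmalT K L h u f) :=
  {z | ∃ s : FacT K L u f b, (s : G) ∈ F ∧ z = PushoutI.of b s}

/-- The pair `ψ`, `χ` is the image of a nilpotent pair over the group ring of the amalgam. -/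
def LiftT {R : Type} [Ring R] [StarRing R] (K L : Subgroup G) (h : L ≤ K) (u f : G) (ε : ℤˣ)
    (n : ℕ) (ψ χ : Matrix (Fin n) (Fin n) (MonoidAlgebra R G)) : Prop :=
  ∃ ψ' χ' : Matrix (Fin n) (Fin n) (MonoidAlgebra R (AmalT K L h u f)),
    SuppIn (InFT K L h u f true {a | ∃ k ∈ K, a = k * u}) ψ' ∧
    SuppIn (InFT K L h u f false {a | ∃ k ∈ L, a = k * f}) χ' ∧
    IsNilpotent (nu ε (ψ' + (ε : ℤ) • ψ'ᴴ) 0 (χ' + (ε : ℤ) • χ'ᴴ)) ∧
    ψ'.map (MonoidAlgebra.mapDomainRingHom R (toGT K L h u f)) = ψ ∧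
    χ'.map (MonoidAlgebra.mapDomainRingHom R (toGT K L h u f)) = χ

theorem liftE_of_liftT {R : Type} [Ring R] [StarRing R] {K L : Subgroup G} {h : L ≤ K} {u f : G}
    {ε : ℤˣ} {n : ℕ} {ψ χ : Matrix (Fin n) (Fin n) (MonoidAlgebra R G)}
    (hF : LiftT K L h u f ε n ψ χ) : LiftE K L h u f ε n ψ χ := by
  obtain ⟨ψ', χ', h1, h2, h3, h4, h5⟩ := hF
  exact ⟨ψ', χ', ⟨h1, h2, h3⟩, h4, h5⟩

end Defs

namespace DI2M

section Supp

variable {R Q : Type} [Ring R] [StarRing R] [Group Q]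

theorem supp_mul {l m n : Type} [Fintype m] (M : Matrix l m (MonoidAlgebra R Q))
    (N : Matrix m n (MonoidAlgebra R Q)) (i : l) (j : n) (q : Q) (hq : ((M * N) i j).coeff q ≠ 0) :
    ∃ k x, (M i k).coeff x ≠ 0 ∧ (N k j).coeff (x⁻¹ * q) ≠ 0 := by
  classical
  rw [Matrix.mul_apply, MonoidAlgebra.coeff_sum, Finsupp.finsetSum_apply] at hq
  obtain ⟨k, -, hk⟩ := Finset.exists_ne_zero_of_sum_ne_zero hq
  rw [MonoidAlgebra.coeff_mul_apply_left, Finsupp.sum] at hk
  obtain ⟨a, ha, h2⟩ := Finset.exists_ne_zero_of_sum_ne_zero hk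
  exact ⟨k, a, Finsupp.mem_support_iff.1 ha, fun h0 => h2 (by rw [h0, mul_zero])⟩

/-- the pull back to a subgroup -/
noncomputable def pull {G : Type} [Group G] (K : Subgroup G) {m n : Type}
    (M : Matrix m n (MonoidAlgebra R G)) : Matrix m n (MonoidAlgebra R K) :=
  fun i j => MonoidAlgebra.comapDomain K.subtype K.subtype_injective (M i j)

theorem pull_map {G : Type} [Group G] (K : Subgroup G) {m n : Type}
    (M : Matrix m n (MonoidAlgebra R G)) (h : ∀ i j g, (M i j).coeff g ≠ 0 → g ∈ K) :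
    (pull K M).map (emb R K) = M := by
  ext1 i j
  refine MonoidAlgebra.mapDomain_comapDomain ?_ K.subtype_injective
  intro g hg
  have h1 : g ∈ K := h i j g (Finsupp.mem_support_iff.1 (Finset.mem_coe.1 hg))
  exact ⟨⟨g, h1⟩, rfl⟩

theorem pull_coeff {G : Type} [Group G] (K : Subgroup G) {m n : Type}
    (M : Matrix m n (MonoidAlgebra R G)) (h : ∀ i j g, (M i j).coeff g ≠ 0 → g ∈ K) (i : m) (j : n)
    (q : K) : (pull K M i j).coeff q = (M i j).coeff (q : G) := by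
  have h1 := congrFun (congrFun (pull_map K M h) i) j
  rw [← RESAux.emb_coeff_mem K (pull K M i j) q]
  exact congrArg (fun x : MonoidAlgebra R G => x.coeff (q : G)) h1

end Supp

/-! ### Groups with a subgroup of index two -/

section Ix

variable {G : Type} [Group G]

/-- `f` normalizes `L`. -/
def Ns (L : Subgroup G) (f : G) : Prop := ∀ h ∈ L, f * h * f⁻¹ ∈ L ∧ f⁻¹ * h * f ∈ L

/-- `K ∪ K g`. -/
def AG (K : Subgroup G) (g : G) (hN : Ns K g) (h2 : g * g ∈ K) : Subgroup G where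
  carrier := {x | x ∈ K ∨ x * g⁻¹ ∈ K}
  one_mem' := Or.inl K.one_mem
  mul_mem' := by
    intro x y hx hy
    rcases hx with hx | hx <;> rcases hy with hy | hy
    · exact Or.inl (mul_mem hx hy)
    · right
      rw [mul_assoc]
      exact mul_mem hx hy
    · right
      have e : x * y * g⁻¹ = (x * g⁻¹) * (g * y * g⁻¹) := by group
      rw [e]
      exact mul_mem hx (hN y hy).1
    · left
      have e : x * y = (x * g⁻¹) * (g * (y * g⁻¹) * g⁻¹) * (g * g) := by group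
      rw [e]
      exact mul_mem (mul_mem hx (hN _ hy).1) h2
  inv_mem' := by
    intro x hx
    rcases hx with hx | hx
    · exact Or.inl (inv_mem hx)
    · right
      have e : x⁻¹ * g⁻¹ = (g⁻¹ * (x * g⁻¹)⁻¹ * g) * (g * g)⁻¹ := by group
      rw [e]
      exact mul_mem (hN _ (inv_mem hx)).2 (inv_mem h2)

variable {K : Subgroup G} {g : G} {hN : Ns K g} {h2 : g * g ∈ K}

theorem mem_AG {x : G} : x ∈ AG K g hN h2 ↔ x ∈ K ∨ x * g⁻¹ ∈ K := Iff.rfl

theorem two {x y : G} (hx : x * g⁻¹ ∈ K) (hy : y * g⁻¹ ∈ K) (hN : Ns K g) (h2 : g * g ∈ K) :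
    x * y ∈ K := by
  have e : x * y = (x * g⁻¹) * (g * (y * g⁻¹) * g⁻¹) * (g * g) := by group
  rw [e]
  exact mul_mem (mul_mem hx (hN _ hy).1) h2

end Ix

/-! ### The amalgam -/

/-- Two groups `⟨K b, g b⟩` with a common subgroup `L`. -/
structure Dt (G : Type) [Group G] where
  /-- the subgroups of index two -/
  K : Bool → Subgroup G
  /-- the elements outside -/
  g : Bool → G
  /-- the common subgroup -/
  L : Subgroup G
  hL : ∀ b, L ≤ K b
  hN : ∀ b, Ns (K b) (g b)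
  h2 : ∀ b, g b * g b ∈ K b

section Am

variable {G : Type} [Group G] (X : Dt G)

/-- `⟨K b, g b⟩`. -/
def Dt.S (b : Bool) : Subgroup G := AG (X.K b) (X.g b) (X.hN b) (X.h2 b)

/-- The inclusion of `L`. -/
def Dt.f (b : Bool) : X.L →* X.S b := Subgroup.inclusion fun _ hx => Or.inl (X.hL b hx)

theorem Dt.f_inj (b : Bool) : Function.Injective (X.f b) := Subgroup.inclusion_injective _

/-- The amalgam. -/
abbrev Dt.D : Type := PushoutI X.f

/-- The homomorphism to `G`. -/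
def Dt.p : X.D →* G := PushoutI.lift (fun b => (X.S b).subtype) X.L.subtype fun _ => rfl

/-- The letters. -/
def Dt.LD (b : Bool) : Set X.D :=
  {z | ∃ x : X.S b, (x : G) * (X.g b)⁻¹ ∈ X.K b ∧ z = PushoutI.of b x}

theorem Dt.p_of (b : Bool) (x : X.S b) : X.p (PushoutI.of b x) = x :=
  PushoutI.lift_of (fun b => (X.S b).subtype) _ _ x

theorem Dt.p_base (x : X.L) : X.p (PushoutI.base X.f x) = x :=
  PushoutI.lift_base (fun b => (X.S b).subtype) X.L.subtype _ x

/-- The alternating products of `k` letters, the first of type `s`. -/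
def Dt.W : ℕ → Bool → Set X.D
  | 0, _ => {1}
  | k + 1, s => {z | ∃ x ∈ X.LD s, ∃ z1 ∈ Dt.W k (!s), z = x * z1}

theorem Dt.LD_inv {b : Bool} {z : X.D} (h : z ∈ X.LD b) : z⁻¹ ∈ X.LD b := by
  obtain ⟨x, hx, rfl⟩ := h
  refine ⟨x⁻¹, ?_, by rw [map_inv]⟩
  have e : ((x⁻¹ : X.S b) : G) * (X.g b)⁻¹ =
      ((X.g b)⁻¹ * ((x : G) * (X.g b)⁻¹)⁻¹ * X.g b) * (X.g b * X.g b)⁻¹ := by
    show (x : G)⁻¹ * (X.g b)⁻¹ = _
    group
  rw [e]
  exact mul_mem (X.hN b _ (inv_mem hx)).2 (inv_mem (X.h2 b))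

theorem Dt.base_W (h : X.L) {k : ℕ} {s : Bool} {z : X.D} (hz : z ∈ X.W (k + 1) s) :
    PushoutI.base X.f h * z ∈ X.W (k + 1) s := by
  obtain ⟨x, ⟨a, ha, rfl⟩, z1, hz1, rfl⟩ := hz
  refine ⟨PushoutI.of s (X.f s h * a), ⟨_, ?_, rfl⟩, z1, hz1, ?_⟩
  · have e : ((X.f s h * a : X.S s) : G) * (X.g s)⁻¹ = h * ((a : G) * (X.g s)⁻¹) := by
      show ((h : G) * a) * _ = _
      group
    rw [e]
    exact mul_mem (X.hL s h.2) ha
  · rw [map_mul, PushoutI.of_apply_eq_base, mul_assoc]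

variable {V : Type} [MulAction G V] {P : Bool → Set V}

theorem Dt.act (hP : ∀ s, ∀ z ∈ X.LD s, ∀ v ∈ P (!s), X.p z • v ∈ P s) (hne : ∀ s, (P s).Nonempty)
    (k : ℕ) : ∀ s, ∃ v : V, ∀ z ∈ X.W k s, X.p z • v ∈ P s := by
  induction k with
  | zero =>
    intro s
    obtain ⟨v, hv⟩ := hne s
    refine ⟨v, fun z hz => ?_⟩
    rw [show z = 1 from hz, map_one, one_smul]
    exact hv
  | succ k ih =>
    intro s
    obtain ⟨v, hv⟩ := ih (!s)
    refine ⟨v, fun z hz => ?_⟩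
    obtain ⟨x, hx, z1, hz1, rfl⟩ := hz
    rw [map_mul, mul_smul]
    exact hP s x hx _ (hv z1 hz1)

theorem Dt.inj (hKL : X.K false = X.L)
    (hP : ∀ s, ∀ z ∈ X.LD s, ∀ v ∈ P (!s), X.p z • v ∈ P s) (hne : ∀ s, (P s).Nonempty)
    (hU : ∀ a ∈ X.LD false, ∀ a' ∈ X.LD false, ∀ v ∈ P true, ∀ v' ∈ P true, ∀ h ∈ X.K true,
      X.p a • v = h • X.p a' • v' → h ∈ X.L) (k : ℕ) :
    ∀ s, Set.InjOn X.p (X.W k s) := by
  induction k with
  | zero =>
    intro s z hz z' hz' _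
    rw [show z = 1 from hz, show z' = 1 from hz']
  | succ k ih =>
    rintro s z ⟨x, ⟨a, ha, rfl⟩, z1, hz1, rfl⟩ z' ⟨x', ⟨a', ha', rfl⟩, z1', hz1', rfl⟩ heq
    rw [map_mul, map_mul, X.p_of, X.p_of] at heq
    obtain ⟨h0, hh0⟩ : ∃ h0 : X.S s, h0 = a⁻¹ * a' := ⟨_, rfl⟩
    have hc : (h0 : G) = (a : G)⁻¹ * a' := by rw [hh0]; rfl
    have h0K : (h0 : G) ∈ X.K s := by
      have e : (h0 : G) = (X.g s)⁻¹ * (((a : G) * (X.g s)⁻¹)⁻¹ * ((a' : G) * (X.g s)⁻¹)) * X.g s := by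
        rw [hc]
        group
      rw [e]
      exact (X.hN s _ (mul_mem (inv_mem ha) ha')).2
    have heq1 : X.p z1 = h0 * X.p z1' := by
      rw [hc, mul_assoc, ← heq]
      group
    have h0L : (h0 : G) ∈ X.L := by
      cases s with
      | false => rw [← hKL]; exact h0K
      | true =>
        cases k with
        | zero =>
          rw [show z1 = 1 from hz1, show z1' = 1 from hz1', map_one, mul_one] at heq1
          rw [← heq1]
          exact one_mem _
        | succ k =>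
          obtain ⟨y, hy, z2, hz2, rfl⟩ := hz1
          obtain ⟨y', hy', z2', hz2', rfl⟩ := hz1'
          obtain ⟨v, hv⟩ := X.act hP hne k (!(!true))
          refine hU y hy y' hy' _ (hv z2 hz2) _ (hv z2' hz2') _ h0K ?_
          rw [← mul_smul, ← map_mul, heq1, map_mul]
          simp only [mul_smul]
    have hz : z1 = PushoutI.base X.f ⟨h0, h0L⟩ * z1' := by
      cases k with
      | zero =>
        have e1 : z1 = 1 := hz1
        have e2 : z1' = 1 := hz1'
        rw [e1, e2, map_one, mul_one] at heq1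
        have e3 : (⟨h0, h0L⟩ : X.L) = 1 := Subtype.ext heq1.symm
        rw [e1, e2, e3, map_one, mul_one]
      | succ k =>
        refine ih _ hz1 (X.base_W _ hz1') ?_
        rw [map_mul, X.p_base, heq1]
    rw [hz, ← mul_assoc, ← PushoutI.of_apply_eq_base X.f s, ← map_mul]
    congr 2
    apply Subtype.ext
    show (a : G) * h0 = a'
    rw [hc]
    group

end Am

/-! ### The lift of the forms -/

section Forms

variable {R : Type} [Ring R] [StarRing R]

theorem mr_star {E F : Type} [Group E] [Group F] (f : E →* F) (x : MonoidAlgebra R E) :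
    MonoidAlgebra.mapDomainRingHom R f (star x) = star (MonoidAlgebra.mapDomainRingHom R f x) := by
  induction x using MonoidAlgebra.induction_linear with
  | zero => simp
  | add f g hf hg => simp only [star_add, map_add, hf, hg]
  | single a r => simp [star_single]

theorem supp_map {E F : Type} [Group E] [Group F] (f : E →* F) (x : MonoidAlgebra R E) (z : F)
    (hz : (MonoidAlgebra.mapDomainRingHom R f x).coeff z ≠ 0) : ∃ y, x.coeff y ≠ 0 ∧ z = f y := by
  classical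
  have h1 : z ∈ (Finsupp.mapDomain f x.coeff).support := Finsupp.mem_support_iff.2 hz
  have h2 := Finsupp.mapDomain_support h1
  rw [Finset.mem_image] at h2
  obtain ⟨y, hy, hyz⟩ := h2
  exact ⟨y, Finsupp.mem_support_iff.1 hy, hyz.symm⟩

variable {G : Type} [Group G] (X : Dt G)

/-- A matrix with supports in `K g`, lifted to the amalgam. -/
noncomputable def lf (b : Bool) {m n : Type} (M : Matrix m n (MonoidAlgebra R G)) :
    Matrix m n (MonoidAlgebra R X.D) :=
  (pull (X.S b) M).map (MonoidAlgebra.mapDomainRingHom R (PushoutI.of (φ := X.f) b))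

theorem mem_S {b : Bool} {g : G} (h : g ∈ La (X.K b) (X.g b)) :
    g ∈ X.S b ∧ g * (X.g b)⁻¹ ∈ X.K b := by
  obtain ⟨l, hl, rfl⟩ := h
  have e : l * X.g b * (X.g b)⁻¹ = l := by group
  exact ⟨Or.inr (by rw [e]; exact hl), by rw [e]; exact hl⟩

theorem lf_map {b : Bool} {m n : Type} {M : Matrix m n (MonoidAlgebra R G)}
    (h : SuppIn (La (X.K b) (X.g b)) M) :
    (lf X b M).map (MonoidAlgebra.mapDomainRingHom R X.p) = M := by
  have h1 := pull_map (X.S b) M fun i j g hg => (mem_S X (h i j g hg)).1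
  conv_rhs => rw [← h1]
  ext1 i j
  show MonoidAlgebra.mapDomainRingHom R X.p
    (MonoidAlgebra.mapDomainRingHom R (PushoutI.of (φ := X.f) b) (pull (X.S b) M i j)) =
    emb R (X.S b) (pull (X.S b) M i j)
  generalize pull (X.S b) M i j = x
  induction x using MonoidAlgebra.induction_linear with
  | zero => simp
  | add f g hf hg => rw [map_add, map_add, map_add, hf, hg]
  | single a r =>
    simp only [MonoidAlgebra.mapDomainRingHom_apply, MonoidAlgebra.mapDomain_single]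
    rw [X.p_of]
    rfl

theorem lf_supp {b : Bool} {m n : Type} {M : Matrix m n (MonoidAlgebra R G)}
    (h : SuppIn (La (X.K b) (X.g b)) M) : SuppIn (X.LD b) (lf X b M) := by
  intro i j z hz
  obtain ⟨y, hy, rfl⟩ := supp_map _ _ _ hz
  rw [pull_coeff (X.S b) M fun i j g hg => (mem_S X (h i j g hg)).1] at hy
  exact ⟨y, (mem_S X (h i j _ hy)).2, rfl⟩

/-- the type of the first letter -/
def ty {n : ℕ} : Fin n ⊕ Fin n → Bool
  | .inl _ => false
  | .inr _ => true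

theorem supp_add {m n : Type} {b : Bool} {M : Matrix m n (MonoidAlgebra R X.D)}
    {N : Matrix m n (MonoidAlgebra R X.D)} (hM : SuppIn (X.LD b) M) (hN : SuppIn (X.LD b) N) :
    SuppIn (X.LD b) (M + N) := by
  intro i j z hz
  by_cases h1 : (M i j).coeff z = 0
  · refine hN i j z fun h2 => hz ?_
    rw [Matrix.add_apply, MonoidAlgebra.coeff_add, Finsupp.add_apply, h1, h2, add_zero]
  · exact hM i j z h1

theorem supp_zsmul {m n : Type} {b : Bool} (ε : ℤˣ) {M : Matrix m n (MonoidAlgebra R X.D)}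
    (hM : SuppIn (X.LD b) M) : SuppIn (X.LD b) ((ε : ℤ) • M) := by
  intro i j z hz
  rcases Int.units_eq_one_or ε with h | h
  · rw [h] at hz
    exact hM i j z (by simpa using hz)
  · rw [h] at hz
    exact hM i j z (by simpa using hz)

theorem supp_star {m n : Type} {b : Bool} {M : Matrix m n (MonoidAlgebra R X.D)}
    (hM : SuppIn (X.LD b) M) : SuppIn (X.LD b) Mᴴ := by
  intro i j z hz
  rw [conjTranspose_apply, star_coeff] at hz
  have h1 := hM j i z⁻¹ fun h => hz (by rw [h, star_zero])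
  simpa using X.LD_inv h1

theorem pow_supp {n : ℕ} {a b : Matrix (Fin n) (Fin n) (MonoidAlgebra R X.D)} {ε : ℤˣ}
    (ha : SuppIn (X.LD true) a) (hb : SuppIn (X.LD false) b) (k : ℕ) :
    ∀ i j z, ((nu ε a 0 b ^ k) i j).coeff z ≠ 0 → z ∈ X.W k (ty i) := by
  classical
  induction k with
  | zero =>
    intro i j z hz
    rw [pow_zero, Matrix.one_apply] at hz
    split_ifs at hz with h
    · rw [MonoidAlgebra.one_def, MonoidAlgebra.coeff_single, Finsupp.single_apply] at hz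
      split_ifs at hz with h2
      · exact h2.symm
      · exact absurd rfl hz
    · simp at hz
  | succ k ih =>
    intro i j z hz
    rw [pow_succ'] at hz
    obtain ⟨m, x, h1, h2⟩ := supp_mul _ _ _ _ _ hz
    have h3 := ih m j _ h2
    have hx : x ∈ X.LD (ty i) ∧ ty m = !(ty i) := by
      rcases i with i | i <;> rcases m with m | m
      · exfalso
        apply h1
        simp [nu]
      · exact ⟨supp_zsmul X ε hb i m x h1, rfl⟩
      · exact ⟨ha i m x h1, rfl⟩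
      · exfalso
        apply h1
        simp [nu]
    refine ⟨x, hx.1, x⁻¹ * z, ?_, by group⟩
    rw [← hx.2]
    exact h3

/-- The main point: nilpotent forms lift to the amalgam. -/
theorem nil {V : Type} [MulAction G V] {P : Bool → Set V} (hKL : X.K false = X.L)
    (hP : ∀ s, ∀ z ∈ X.LD s, ∀ v ∈ P (!s), X.p z • v ∈ P s) (hne : ∀ s, (P s).Nonempty)
    (hU : ∀ a ∈ X.LD false, ∀ a' ∈ X.LD false, ∀ v ∈ P true, ∀ v' ∈ P true, ∀ h ∈ X.K true,
      X.p a • v = h • X.p a' • v' → h ∈ X.L) {n : ℕ} {ε : ℤˣ}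
    {a b : Matrix (Fin n) (Fin n) (MonoidAlgebra R X.D)}
    (ha : SuppIn (X.LD true) a) (hb : SuppIn (X.LD false) b)
    (h : IsNilpotent (nu ε (a.map (MonoidAlgebra.mapDomainRingHom R X.p)) 0
      (b.map (MonoidAlgebra.mapDomainRingHom R X.p)))) : IsNilpotent (nu ε a 0 b) := by
  obtain ⟨k, hk⟩ := h
  refine ⟨k, ?_⟩
  have e : (nu ε (a.map (MonoidAlgebra.mapDomainRingHom R X.p)) 0
      (b.map (MonoidAlgebra.mapDomainRingHom R X.p))) ^ k =
      (nu ε a 0 b ^ k).map (MonoidAlgebra.mapDomainRingHom R X.p) := by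
    have e1 := CR.map_nu (MonoidAlgebra.mapDomainRingHom R X.p) (mr_star X.p) ε a 0 b
    have e2 : (0 : Matrix (Fin n) (Fin n) (MonoidAlgebra R X.D)).map
        (MonoidAlgebra.mapDomainRingHom R X.p) = 0 := by
      ext1 i j
      exact map_zero (MonoidAlgebra.mapDomainRingHom R X.p)
    rw [e2] at e1
    rw [← e1]
    exact (map_pow (MonoidAlgebra.mapDomainRingHom R X.p).mapMatrix _ k).symm
  rw [e] at hk
  ext1 i j
  have h1 := congrFun (congrFun hk i) j
  have h2 : Finsupp.mapDomain X.p ((nu ε a 0 b ^ k) i j).coeff = Finsupp.mapDomain X.p 0 := by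
    rw [Finsupp.mapDomain_zero]
    exact congrArg MonoidAlgebra.coeff h1
  have h3 := Finsupp.mapDomain_injOn (M := R) (X.W k (ty i)) (X.inj hKL hP hne hU k (ty i))
    (fun z hz => pow_supp X ha hb k i j z (Finsupp.mem_support_iff.1 (Finset.mem_coe.1 hz)))
    (by simp) h2
  exact MonoidAlgebra.coeff_injective h3


end Forms

section Geo

variable {G V : Type} [Group G] [MulAction G V] {d : V → V → ℕ} (hd : TM G d)

include hd

/-- two points at the same distance on a path -/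
theorem uniq {y a b p : V} (ha : d y p = d y a + d a p) (hb : d y p = d y b + d b p)
    (hab : d y a = d y b) : a = b := by
  rw [← hd.d0]
  have h1 := hd.four a b y p
  have h2 := hd.cm a y
  have h3 := hd.cm b y
  omega

/-- the basic configuration -/
structure Cf (d : V → V → ℕ) (x y : V) (g f : G) : Prop where
  ne : x ≠ y
  gx : g • x = y
  gy : g • y = x
  ffx : f • f • x = x
  ffy : f • f • y = y
  hb : d y (f • y) = d y x + d x (f • y)

theorem far {x y : V} {g f : G} (c : Cf d x y g f) {v : V} (hv : d x v = d x y + d y v) :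
    d y (f • v) = d y (f • y) + d (f • y) (f • v) ∧ d y (f • v) = d y x + d x (f • v) := by
  have n0 : d x y ≠ 0 := fun h => c.ne ((hd.d0 x y).1 h)
  have i1 := hd.iso f x v
  have i2 := hd.iso f x y
  have i3 := hd.iso f y v
  have i4 := hd.iso f y (f • y)
  have i5 := hd.iso f y x
  have i6 := hd.iso f x (f • y)
  rw [c.ffy] at i4 i6
  have hb := c.hb
  have c1 := hd.cm y x
  have c2 := hd.cm (f • y) (f • x)
  have c3 := hd.cm (f • y) y
  have c4 := hd.cm (f • x) y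
  have h4 := hd.four y (f • y) (f • x) (f • v)
  have t1 := hd.tri y (f • y) (f • v)
  have t2 := hd.tri y x (f • v)
  have t3 := hd.tri x (f • y) (f • v)
  omega

theorem fx {x y : V} {g f : G} (c : Cf d x y g f) :
    d y (f • y) = d y (f • x) + d (f • x) (f • y) := by
  have i4 := hd.iso f y (f • y)
  have i5 := hd.iso f y x
  have i6 := hd.iso f x (f • y)
  rw [c.ffy] at i4 i6
  have hb := c.hb
  have c2 := hd.cm (f • y) (f • x)
  have c3 := hd.cm (f • y) y
  have c4 := hd.cm (f • x) y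
  omega

/-- an element of `K` which keeps a point beyond `f y` is in `K ∩ f K f⁻¹` -/
theorem key {x y : V} {g f : G} (c : Cf d x y g f) {h : G} (_ : h • x = x) (hy : h • y = y)
    {p : V} (h1 : d y p = d y (f • y) + d (f • y) p)
    (h2 : d y p = d y (f • y) + d (h • f • y) p) : h • f • y = f • y ∧ h • f • x = f • x := by
  have i1 := hd.iso h y (f • y)
  rw [hy] at i1
  have e1 : h • f • y = f • y := (uniq hd h1 (by omega) i1.symm).symm
  refine ⟨e1, ?_⟩
  have h3 := fx hd c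
  have i2 := hd.iso h y (f • x)
  have i3 := hd.iso h (f • x) (f • y)
  rw [hy] at i2
  rw [e1] at i3
  exact (uniq hd h3 (by omega) i2.symm).symm


end Geo

section Lift

/-- A point on the path from `x` to `z` is fixed by the elements which fix `x`, `z`. -/
theorem fix_of {G V : Type} [Group G] [MulAction G V] {d : V → V → ℕ} (hd : TM G d) (g : G)
    (x y z : V) (h : d x z = d x y + d y z) (hx : g • x = x) (hz : g • z = z) : g • y = y := by
  have i1 := hd.iso g x y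
  have i2 := hd.iso g y z
  rw [hx] at i1
  rw [hz] at i2
  rw [← hd.d0]
  have h3 := hd.four (g • y) y x z
  have h4 := hd.cm (g • y) x
  have h5 := hd.cm y x
  omega

/-- The stabilizer of a longer path is smaller. -/
theorem le_of {G V : Type} [Group G] [MulAction G V] {d : V → V → ℕ} (hd : TM G d) {x y x' y' : V}
    (h : d x' y' = d x' x + d x y + d y y') :
    MulAction.stabilizer G x' ⊓ MulAction.stabilizer G y' ≤
      MulAction.stabilizer G x ⊓ MulAction.stabilizer G y := by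
  intro g hg
  rw [Subgroup.mem_inf, MulAction.mem_stabilizer_iff, MulAction.mem_stabilizer_iff] at hg ⊢
  have t1 := hd.tri x' x y'
  have t2 := hd.tri x y y'
  have t3 := hd.tri x' y y'
  have t4 := hd.tri x' x y
  exact ⟨fix_of hd g x' x y' (by omega) hg.1 hg.2, fix_of hd g x' y y' (by omega) hg.1 hg.2⟩


variable {G : Type} [Group G]

theorem ag_eq {K : Subgroup G} {g : G} (hN : Ns K g) (h2 : g * g ∈ K) :
    K ⊔ Subgroup.zpowers g = AG K g hN h2 := by
  apply le_antisymm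
  · refine sup_le (fun k hk => Or.inl hk) ?_
    rw [Subgroup.zpowers_le]
    right
    rw [mul_inv_cancel]
    exact K.one_mem
  · intro x hx
    rcases hx with hx | hx
    · exact Subgroup.mem_sup_left hx
    · have e : x = x * g⁻¹ * g := by group
      rw [e]
      exact mul_mem (Subgroup.mem_sup_left hx)
        (Subgroup.mem_sup_right (Subgroup.mem_zpowers g))

theorem lift_X {R : Type} [Ring R] [StarRing R] (X : Dt G) {V : Type} [MulAction G V]
    {P : Bool → Set V} (hKL : X.K false = X.L)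
    (hP : ∀ s, ∀ z ∈ X.LD s, ∀ v ∈ P (!s), X.p z • v ∈ P s) (hne : ∀ s, (P s).Nonempty)
    (hU : ∀ a ∈ X.LD false, ∀ a' ∈ X.LD false, ∀ v ∈ P true, ∀ v' ∈ P true, ∀ h ∈ X.K true,
      X.p a • v = h • X.p a' • v' → h ∈ X.L) (S : Bool → Subgroup G) (hS : S = X.S)
    (hLS : ∀ b, X.L ≤ S b) (ε : ℤˣ) (n : ℕ)
    (ψ χ : Matrix (Fin n) (Fin n) (MonoidAlgebra R G))
    (hψ : SuppIn (La (X.K true) (X.g true)) ψ) (hχ : SuppIn (La (X.K false) (X.g false)) χ)
    (h : IsNilpotent (nu ε (ψ + (ε : ℤ) • ψᴴ) 0 (χ + (ε : ℤ) • χᴴ))) :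
    ∃ ψ' χ' : Matrix (Fin n) (Fin n) (MonoidAlgebra R (PushoutI fun b =>
        Subgroup.inclusion (hLS b))),
      SuppIn {z | ∃ s : S true, (s : G) * (X.g true)⁻¹ ∈ X.K true ∧ z = PushoutI.of true s} ψ' ∧
      SuppIn {z | ∃ s : S false, (s : G) * (X.g false)⁻¹ ∈ X.K false ∧ z = PushoutI.of false s} χ' ∧
      IsNilpotent (nu ε (ψ' + (ε : ℤ) • ψ'ᴴ) 0 (χ' + (ε : ℤ) • χ'ᴴ)) ∧
      ψ'.map (MonoidAlgebra.mapDomainRingHom R
        (PushoutI.lift (fun b => (S b).subtype) X.L.subtype fun _ => rfl)) = ψ ∧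
      χ'.map (MonoidAlgebra.mapDomainRingHom R
        (PushoutI.lift (fun b => (S b).subtype) X.L.subtype fun _ => rfl)) = χ := by
  subst hS
  have s1 := lf_supp X hψ
  have s2 := lf_supp X hχ
  have m1 := lf_map X hψ
  have m2 := lf_map X hχ
  have hstar := mr_star (R := R) X.p
  have p1 : (lf X true ψ + (ε : ℤ) • (lf X true ψ)ᴴ).map
      (MonoidAlgebra.mapDomainRingHom R X.p) = ψ + (ε : ℤ) • ψᴴ := by
    rw [Matrix.map_add _ (fun a b => map_add _ a b), CR.map_zsmul', CR.map_conj _ hstar, m1]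
  have p2 : (lf X false χ + (ε : ℤ) • (lf X false χ)ᴴ).map
      (MonoidAlgebra.mapDomainRingHom R X.p) = χ + (ε : ℤ) • χᴴ := by
    rw [Matrix.map_add _ (fun a b => map_add _ a b), CR.map_zsmul', CR.map_conj _ hstar, m2]
  have hn : IsNilpotent (nu ε (lf X true ψ + (ε : ℤ) • (lf X true ψ)ᴴ) 0
      (lf X false χ + (ε : ℤ) • (lf X false χ)ᴴ)) := by
    refine nil X hKL hP hne hU
      (supp_add X s1 (supp_zsmul X ε (supp_star X s1)))
      (supp_add X s2 (supp_zsmul X ε (supp_star X s2))) ?_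
    rw [p1, p2]
    exact h
  exact ⟨lf X true ψ, lf X false χ, s1, s2, hn, m1, m2⟩

/-- The lift, for `g` which exchanges `x`, `y`, and `f` which exchanges `y` and `f y`, `x` between them. -/
theorem lift_cf {R : Type} [Ring R] [StarRing R] {V : Type} [MulAction G V] (d : V → V → ℕ)
    (hd : TM G d) (x y : V) (g f : G) (K L : Subgroup G) (mK : ∀ k, k ∈ K ↔ k • x = x ∧ k • y = y)
    (mL : ∀ k, k ∈ L ↔ k • y = y ∧ k • f • y = f • y) (hLK : L ≤ K) (hgx : g • x = y)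
    (hgy : g • y = x) (ffy : f • f • y = y) (hb : d y (f • y) = d y x + d x (f • y))
    (ne : x ≠ y) (ε : ℤˣ) (n : ℕ)
    (ψ χ : Matrix (Fin n) (Fin n) (MonoidAlgebra R G)) (hψ : SuppIn {a | ∃ k ∈ K, a = k * g} ψ)
    (hχ : SuppIn {a | ∃ k ∈ L, a = k * f} χ)
    (h : IsNilpotent (nu ε (ψ + (ε : ℤ) • ψᴴ) 0 (χ + (ε : ℤ) • χᴴ))) :
    LiftT K L hLK g f ε n ψ χ := by
  have hff2 : f * f ∈ L := by
    rw [mL, mul_smul, mul_smul, ffy]
    exact ⟨rfl, rfl⟩
  have ffx : f • f • x = x := by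
    have := ((mK _).1 (hLK hff2)).1
    rwa [mul_smul] at this
  have gi : g⁻¹ • x = y ∧ g⁻¹ • y = x :=
    ⟨by rw [inv_smul_eq_iff, hgy], by rw [inv_smul_eq_iff, hgx]⟩
  have fi : f⁻¹ • y = f • y := by rw [inv_smul_eq_iff, ffy]
  have cf : Cf d x y g f := ⟨ne, hgx, hgy, ffx, ffy, hb⟩
  have hN1 : Ns K g := by
    intro k hk
    rw [mK] at hk
    constructor
    · rw [mK]
      simp only [mul_smul]
      rw [gi.1, gi.2, hk.1, hk.2]
      exact ⟨hgy, hgx⟩
    · rw [mK]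
      simp only [mul_smul]
      rw [hgx, hgy, hk.1, hk.2]
      exact ⟨gi.2, gi.1⟩
  have hN2 : Ns L f := by
    intro k hk
    rw [mL] at hk
    constructor
    · rw [mL]
      simp only [mul_smul]
      rw [fi, hk.2, ffy, inv_smul_smul, hk.1]
      exact ⟨rfl, rfl⟩
    · rw [mL]
      simp only [mul_smul]
      rw [ffy, hk.1, hk.2, inv_smul_smul, fi]
      exact ⟨rfl, rfl⟩
  have hg2 : g * g ∈ K := by
    rw [mK, mul_smul, mul_smul]
    exact ⟨by rw [hgx, hgy], by rw [hgy, hgx]⟩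
  obtain ⟨X, hX1, hX2, hX3, hX4, hX5⟩ : ∃ X : Dt G, X.K true = K ∧ X.K false = L ∧
      X.g true = g ∧ X.g false = f ∧ X.L = L :=
    ⟨{ K := fun b => match b with
        | true => K
        | false => L
       g := fun b => match b with
        | true => g
        | false => f
       L := L
       hL := fun b => by
        cases b
        · exact le_rfl
        · exact hLK
       hN := fun b => by
        cases b
        · exact hN2
        · exact hN1
       h2 := fun b => by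
        cases b
        · exact hff2
        · exact hg2 }, rfl, rfl, rfl, rfl, rfl⟩
  obtain ⟨P, hPt, hPf⟩ : ∃ P : Bool → Set V, P true = {p | d x p = d x y + d y p} ∧
      P false = {p | d y p = d y x + d x p} :=
    ⟨fun b => match b with
      | true => {p | d x p = d x y + d y p}
      | false => {p | d y p = d y x + d x p}, rfl, rfl⟩
  subst hX1
  subst hX5
  subst hX3
  subst hX4
  have pl : ∀ s, ∀ z ∈ X.LD s, ∃ k ∈ X.K s, X.p z = k * X.g s := by
    rintro s z ⟨a, ha, rfl⟩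
    refine ⟨_, ha, ?_⟩
    rw [X.p_of]
    group
  -- letters of the second kind
  have fr : ∀ z ∈ X.LD false, ∀ v ∈ P true,
      d y (X.p z • v) = d y (X.g false • y) + d (X.g false • y) (X.p z • v) ∧
      d y (X.p z • v) = d y x + d x (X.p z • v) := by
    intro z hz v hv
    obtain ⟨k, hk, e⟩ := pl false z hz
    rw [hX2] at hk
    have k3 := ((mL k).1 hk).2
    have k1 := (mK _).1 (hLK hk)
    rw [hPt] at hv
    have h1 := far hd cf hv
    have i1 := hd.iso k y (X.g false • v)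
    have i2 := hd.iso k (X.g false • y) (X.g false • v)
    have i3 := hd.iso k x (X.g false • v)
    rw [k1.2] at i1
    rw [k3] at i2
    rw [k1.1] at i3
    rw [e, mul_smul]
    omega
  have hfac : FacT (X.K true) X.L (X.g true) (X.g false) = X.S := by
    funext b
    cases b with
    | true => exact ag_eq (X.hN true) (X.h2 true)
    | false =>
      show X.L ⊔ Subgroup.zpowers (X.g false) = _
      rw [← hX2]
      exact ag_eq (X.hN false) (X.h2 false)
  have hK := lift_X (R := R) X (P := P) hX2 ?_ ?_ ?_ _ hfac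
    (facT_le hLK (X.g true) (X.g false)) ε n ψ χ hψ (by rw [hX2]; exact hχ) h
  · obtain ⟨ψ', χ', h1, h2, h3, h4, h5⟩ := hK
    refine ⟨ψ', χ', ?_, ?_, h3, h4, h5⟩
    · intro i j z hz
      obtain ⟨s, hs, rfl⟩ := h1 i j z hz
      exact ⟨s, ⟨_, hs, by group⟩, rfl⟩
    · intro i j z hz
      obtain ⟨s, hs, rfl⟩ := h2 i j z hz
      exact ⟨s, ⟨_, by rw [← hX2]; exact hs, by group⟩, rfl⟩
  · intro s z hz v hv
    cases s with
    | false =>
      rw [hPf]
      exact (fr z hz v hv).2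
    | true =>
      obtain ⟨k, hk, e⟩ := pl true z hz
      rw [mK] at hk
      have hv' : d y v = d y x + d x v := by
        have : v ∈ P false := hv
        rw [hPf] at this
        exact this
      rw [hPt, e]
      show d x ((k * X.g true) • v) = d x y + d y ((k * X.g true) • v)
      have i1 := hd.iso (k * X.g true) y v
      have i2 := hd.iso (k * X.g true) x v
      have e1 : (k * X.g true) • y = x := by rw [mul_smul, hgy, hk.1]
      have e2 : (k * X.g true) • x = y := by rw [mul_smul, hgx, hk.2]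
      rw [e1] at i1
      rw [e2] at i2
      have := hd.cm x y
      omega
  · intro s
    cases s with
    | false =>
      refine ⟨x, ?_⟩
      rw [hPf]
      show d y x = d y x + d x x
      rw [(hd.d0 x x).2 rfl, add_zero]
    | true =>
      refine ⟨y, ?_⟩
      rw [hPt]
      show d x y = d x y + d y y
      rw [(hd.d0 y y).2 rfl, add_zero]
  · intro a ha a' ha' v hv v' hv' k hk he
    rw [mK] at hk
    have h1 := (fr a ha v hv).1
    have h2 := (fr a' ha' v' hv').1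
    have i1 := hd.iso k y (X.p a' • v')
    have i2 := hd.iso k (X.g false • y) (X.p a' • v')
    rw [hk.2, ← he] at i1
    rw [← he] at i2
    have h3 := key hd cf hk.1 hk.2 h1 (by omega)
    rw [mL]
    exact ⟨hk.2, h3.1⟩

end Lift

end DI2M

section AdmT

variable {G V : Type} [Group G] [MulAction G V] {T : SimpleGraph V} {v w : V} {x y : ℕ → V}
  {u : ℕ → G}

theorem DI2M.ne_of (hd : TM G (V := V) T.dist) (h : AdmT T v w x y u) (i : ℕ) (hi : 1 ≤ i) :
    x i ≠ y i := by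
  obtain ⟨j, rfl⟩ : ∃ j, i = j + 1 := ⟨i - 1, by omega⟩
  intro h0
  have h1 := h.grow j
  have h2 := (hd.d0 (x (j + 1)) (y (j + 1))).2 h0
  omega

/-- The stabilizers of an admissible sequence decrease. -/
theorem AdmT.le (hd : TM G (V := V) T.dist) (h : AdmT T v w x y u) (i : ℕ) :
    SbT G (x (i + 1)) (y (i + 1)) ≤ SbT G (x i) (y i) :=
  DI2M.le_of hd (h.path i)

open DI2M in
/-- **The lift.** -/
theorem lift_admT {R : Type} [Ring R] [StarRing R] (hd : TM G (V := V) T.dist)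
    (h : AdmT T v w x y u) (i : ℕ) (hi : 1 ≤ i)
    (hle : SbT G (x (i + 1)) (y (i + 1)) ≤ SbT G (x i) (y i)) (ε : ℤˣ) (n : ℕ)
    (ψ χ : Matrix (Fin n) (Fin n) (MonoidAlgebra R G))
    (hψ : SuppIn {a | ∃ k ∈ SbT G (x i) (y i), a = k * u i} ψ)
    (hχ : SuppIn {a | ∃ k ∈ SbT G (x (i + 1)) (y (i + 1)), a = k * u (i + 1)} χ)
    (hn : IsNilpotent (nu ε (ψ + (ε : ℤ) • ψᴴ) 0 (χ + (ε : ℤ) • χᴴ))) :
    LiftT (SbT G (x i) (y i)) (SbT G (x (i + 1)) (y (i + 1))) hle (u i) (u (i + 1)) ε n ψ χ := by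
  obtain ⟨e1, e2⟩ := h.exch i hi
  obtain ⟨e3, e4⟩ := h.exch (i + 1) (by omega)
  have hp := h.path i
  rcases h.one i hi with e | e
  · -- `x (i + 1) = x i`
    rw [e] at e3 e4 hp
    refine lift_cf T.dist hd (y i) (x i) (u i) (u (i + 1)) _ _ ?_ ?_ hle e2 e1 ?_ ?_
      (ne_of hd h i hi).symm ε n ψ χ hψ hχ hn
    · intro k
      rw [Subgroup.mem_inf, MulAction.mem_stabilizer_iff, MulAction.mem_stabilizer_iff, and_comm]
    · intro k
      rw [Subgroup.mem_inf, MulAction.mem_stabilizer_iff, MulAction.mem_stabilizer_iff, e, e3]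
    · rw [e3, e4]
    · rw [e3]
      have := hd.d0 (x i) (x i)
      have h0 : T.dist (x i) (x i) = 0 := this.2 rfl
      omega
  · -- `y (i + 1) = y i`
    rw [e] at e3 e4 hp
    refine lift_cf T.dist hd (x i) (y i) (u i) (u (i + 1)) _ _ ?_ ?_ hle e1 e2 ?_ ?_
      (ne_of hd h i hi) ε n ψ χ hψ hχ hn
    · intro k
      rw [Subgroup.mem_inf, MulAction.mem_stabilizer_iff, MulAction.mem_stabilizer_iff]
    · intro k
      rw [Subgroup.mem_inf, MulAction.mem_stabilizer_iff, MulAction.mem_stabilizer_iff, e, e4,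
        and_comm]
    · rw [e4, e3]
    · rw [e4]
      have h0 : T.dist (y i) (y i) = 0 := (hd.d0 (y i) (y i)).2 rfl
      have h1 := hd.cm (x (i + 1)) (y i)
      have h2 := hd.cm (x (i + 1)) (x i)
      have h3 := hd.cm (x i) (y i)
      omega

end AdmT

end Pool.Agent.Lib.MPb6f35e.TT.AR

/-! ## Module AR/FLT -/

/-! # folder AR, module FLT: the theorem for trees (helper24) -/

set_option autoImplicit false

namespace Pool.Agent.Lib.MPb6f35e.TT.AR

open Matrix Pool.Agent.Lib.MPb6f35e.TT.UV Pool.Agent.Lib.MPb6f35e.TT.AU Pool.Agent.Lib.MPb6f35e.TT.RO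
open Pool.Agent.Lib.MPb6f35e.TT.ROK Pool.Agent.Lib.MPb6f35e.TT.LL
open Pool.Agent.Lib.MPb6f35e.TT.LL2 (Cnc Lng)

namespace FLTM

/-- the pairs whose path contains the edge, with exchanged ends -/
def Pr (G : Type) {V : Type} [Group G] [MulAction G V] (d : V → V → ℕ) (v w : V) (x y : V) : Prop :=
  d x y = d x v + d v w + d w y ∧ ∃ g : G, g • x = y ∧ g • y = x

theorem lng {G V : Type} [Group G] [MulAction G V] {d : V → V → ℕ} (hd : TM G d) (v w : V) :
    Lng G d (Pr G d v w) := by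
  constructor
  · rintro x1 x2 x ⟨hP, -⟩ h1 h2
    refine ⟨?_, x, rfl, h1⟩
    have t1 := hd.tri w x2 (x • x1)
    have t2 := hd.tri x1 v (x • x1)
    have t3 := hd.tri v w (x • x1)
    omega
  · rintro x1 x2 y ⟨hP, -⟩ h1 h2
    refine ⟨?_, y, h1, rfl⟩
    have t1 := hd.tri (y • x2) x1 v
    have t2 := hd.tri (y • x2) v x2
    have t3 := hd.tri v w x2
    have c1 := hd.cm (y • x2) x2
    have c2 := hd.cm x2 x1
    have c3 := hd.cm x1 (y • x2)
    omega

end FLTM

open FLTM in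
theorem specFLT (hCLS : SpecCLS) (hCHT : SpecCHT) : SpecFLT := by
  intro R G V _ _ _ _ _ Q T v w hQ hT hact hvw hinv hbar ε n ψ μ χ hψ hμ hχ hnil
  have hd : TM G (V := V) T.dist := specFPT G V T hT hact
  have hG := specTRG G V T v w hT hact hvw hinv
  have hGS := hCHT R G V T.dist hd Q v w hvw.ne hbar
  have hSE := (hCLS R G V T.dist hd Q (Pr G T.dist v w) hQ (lng hd v w)
    (fun x1 x2 x y hP => hGS x1 x2 x y hP.1 hP.2)).2
  obtain ⟨Yp, Ym, hP⟩ := specTRK G V T v w hT hact hvw hinv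
  refine mMNK R G V T.dist hd _ _ _ _ Yp Ym w v hP hG ?_ ?_ ε n ψ μ χ hψ hμ hχ hnil
  · intro g hg hgg
    have h3 : (g * g) • w = w := hgg.2
    rw [mul_smul] at h3
    have h4 : g • w ∈ DD T.dist w v false := by
      refine hG.mv false true g w ⟨hg.1, hg.2⟩ ?_
      change T.dist v w = T.dist v w + T.dist w w
      rw [(hd.d0 w w).2 rfl, Nat.add_zero]
    have h5 : T.dist w (g • w) = T.dist w v + T.dist v (g • w) := h4
    refine (hSE (g • w) w ⟨?_, g, h3, rfl⟩).2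
    have c1 := hd.cm (g • w) w
    have c2 := hd.cm w v
    have c3 := hd.cm v (g • w)
    have c4 := (hd.d0 w w).2 rfl
    omega
  · intro g hg hgg
    have h3 : (g * g) • v = v := hgg.1
    rw [mul_smul] at h3
    have h4 : g • v ∈ DD T.dist w v true := by
      refine hG.mv true false g v ⟨hg.1, hg.2⟩ ?_
      change T.dist w v = T.dist w v + T.dist v v
      rw [(hd.d0 v v).2 rfl, Nat.add_zero]
    have h5 : T.dist v (g • v) = T.dist v w + T.dist w (g • v) := h4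
    refine (hSE v (g • v) ⟨?_, g, rfl, h3⟩).1
    have c4 := (hd.d0 v v).2 rfl
    omega

end Pool.Agent.Lib.MPb6f35e.TT.AR

/-! ## Module AR/EMV -/

/-!
# Classes of forms (MP_8a3537_gt, folder AR): the E-move (helper76)
-/

set_option autoImplicit false
set_option linter.unusedSectionVars false

namespace Pool.Agent.Lib.MPb6f35e.TT.AR

open Matrix Pool.Agent.Lib.MPb6f35e.TT.UV

/-- The E-move for a class of forms (`UV.specEmv`). -/
theorem ss_emv {A : Type} [Ring A] [StarRing A] [FC A] (ε : ℤˣ) (n r : ℕ)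
    (ψ : Matrix (Fin r) (Fin r) A) (m' : Matrix (Fin n) (Fin r) A) (χ : Matrix (Fin n) (Fin n) A)
    (p : Matrix (Fin r) (Fin n) A) (h : SS ε (UF ψ (p * m') (p * χ * pᴴ))) :
    SS ε (UF (pᴴ * ψ * p) (m' * p) χ) :=
  ss_destab (Fin r) (ss_of_isom (EMVAux.main_iso ε n r ψ m' χ p)
    (ss_sum (ss_of_sh (sh_hyp ε n)) h))

end Pool.Agent.Lib.MPb6f35e.TT.AR

/-! ## Module AR/SGV -/

/-!
# Classes of forms (MP_8a3537_gt, folder AR): a flip, forms (copy of LL2/SGV by helper12)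
-/

set_option autoImplicit false
set_option linter.unusedSectionVars false

namespace Pool.Agent.Lib.MPb6f35e.TT.AR

open Matrix Pool.Agent.Lib.MPb6f35e.TT.UV Pool.Agent.Lib.MPb6f35e.TT.AU Pool.Agent.Lib.MPb6f35e.TT.RO
open Pool.Agent.Lib.MPb6f35e.TT.ROK Pool.Agent.Lib.MPb6f35e.TT.LL

theorem specSGV (hFAT : LL2.SpecFAT) (hIDX : LL2.SpecIDX) : SpecSGV := by
  intro R G _ _ _ _ L X1 X2 Yp Ym hpp g hg hgg c hc ε n N hN ψ χ hψ hχ hnil hall
  obtain ⟨r, Ξ, ψ', hΞ, hψ', e, hCnc⟩ := hFAT R G L g hgg n ψ hψ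
  have hΞs : SuppIn (L : Set G) Ξᴴ := by
    refine NILAux.supp_mono (NILAux.supp_star hΞ) ?_
    intro x hx
    have h1 : x⁻¹ ∈ L := hx
    exact inv_mem_iff.1 h1
  have hκc : SuppIn c (Ξ * χ * Ξᴴ) := by
    have h1 : SuppIn c (Ξ * χ) := NILAux.supp_mul hΞ hχ (fun x hx y hy => hc.bi.1 x hx y hy)
    exact NILAux.supp_mul h1 hΞs (fun x hx y hy => hc.bi.2 y hy x hx)
  have hnil' := hIDX R G L X1 X2 Yp Ym hpp g hg hgg ε n r N hN Ξ ψ' χ hΞ hCnc hψ'
    (NILAux.supp_mono hχ hc.sub) (by rw [← e]; exact hnil)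
  have h := hall r ψ' (Ξ * χ * Ξᴴ) hψ' hκc hnil'
  have h2 := ss_emv (A := MonoidAlgebra R G) ε n r ψ' 0 χ Ξ
  rw [Matrix.mul_zero, Matrix.zero_mul] at h2
  rw [e]
  exact h2 h

end Pool.Agent.Lib.MPb6f35e.TT.AR

/-! ## Module AR/SPB -/

/-!
# Classes of forms (MP_8a3537_gt, folder AR): a flip and a non-flip, the exchange (copy of LL2/SPB by helper61)
-/

set_option autoImplicit false
set_option linter.unusedSectionVars false

namespace Pool.Agent.Lib.MPb6f35e.TT.AR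

open Matrix Pool.Agent.Lib.MPb6f35e.TT.UV Pool.Agent.Lib.MPb6f35e.TT.AU Pool.Agent.Lib.MPb6f35e.TT.RO
open Pool.Agent.Lib.MPb6f35e.TT.ROK Pool.Agent.Lib.MPb6f35e.TT.LL

namespace SPBMP

variable {G : Type} [Group G]

theorem eq_inf {V : Type} [MulAction G V] {d : V → V → ℕ} {L : Subgroup G} {X1 X2 X3 : Set G}
    {x1 x2 : V} (hg : Geo d L X1 X2 X3 x1 x2) :
    L = MulAction.stabilizer G x1 ⊓ MulAction.stabilizer G x2 := by
  ext a
  rw [Subgroup.mem_inf, MulAction.mem_stabilizer_iff, MulAction.mem_stabilizer_iff]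
  exact hg.st a

theorem dc_mono {L' L : Subgroup G} (h : L' ≤ L) {x y : G} (hy : y ∈ dc L' x) : y ∈ dc L x := by
  obtain ⟨a, ha, b, hb, e⟩ := hy
  exact ⟨a, h ha, b, h hb, e⟩

theorem D2_sub {L : Subgroup G} {X1 X2 Yp Ym : Set G} (P : PPK L X1 X2 ∅ Yp Ym) {z w : G}
    (hz : z ∈ X2) (hw : w ∈ D2 L z) : w ∈ X2 := by
  have h1 : ∀ z ∈ X2, ∀ w ∈ dc L z, w ∈ X2 := by
    rintro z hz w ⟨a, ha, b, hb, rfl⟩
    exact P.X2r b hb _ (P.X2l a ha z hz)
  rcases hw with hw | hw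
  · exact h1 z hz w hw
  · exact h1 _ (P.X2i z hz) w hw

theorem self_dc (L : Subgroup G) (x : G) : x ∈ dc L x :=
  ⟨1, L.one_mem, 1, L.one_mem, by group⟩

end SPBMP

open SPBMP LL.SGSM in
theorem specSPB (hSTP : SpecSTP) : SpecSPB := by
  intro R G V _ _ _ _ _ d hT N x1 x2 x y hN
  refine ⟨?_, ?_⟩
  · intro h L X1 X2 Yp Ym P hg hx hy ε n ψ χ hψ hχ hν
    obtain ⟨-, -, s3, s4⟩ := specSYK G L X1 X2 ∅ Yp Ym
    exact SGSMP.swapUF (h L X2 X1 Ym Yp (s3 P) (s4 V d x1 x2 hg) hy hx ε n χ ψ hχ hψ (swap0 ε hν))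
  · intro hxx hy hCl L X1 X2 Yp Ym P hg hx1 hy2 ε n ψ χ hψ hχ hν
    have hL := eq_inf hg
    subst hL
    refine hSTP R G V d hT N x1 x2 hN _ X1 X2 Yp Ym P hg x hx1 hxx y hy2 hCl ?_ ε n ψ χ hψ hχ hν
    intro y' hy' L' X1' X2' Yp' Ym' P' hg' hx' hy'' ε' n' ψ' χ' hψ' hχ' hν'
    obtain ⟨hgK, hxq, -⟩ := mBLG G V d hT _ X1 X2 ∅ Yp Ym x1 x2 P.toPingPong hg x hx1 hxx
    -- `L' ≤ L`
    have hle : L' ≤ MulAction.stabilizer G x1 ⊓ MulAction.stabilizer G x2 := by
      intro a ha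
      exact ((mem_Kg _ _ _).1 ((hgK.st a).2 ((hg'.st a).1 ha))).1
    have hxxL : x * x ∈ L' := by
      rw [hg'.st]
      refine ⟨?_, ?_⟩
      · rw [mul_smul, hxq]
      · rw [mul_smul, hxq]
    have hinv1 : x⁻¹ • x1 = x • x1 := by
      rw [inv_smul_eq_iff, hxq]
    have hinv2 : x⁻¹ • x • x1 = x1 := inv_smul_smul x x1
    have hNs : Ns L' x := by
      intro h hh
      obtain ⟨h1, h2⟩ := (hg'.st h).1 hh
      rw [hg'.st, hg'.st]
      refine ⟨⟨?_, ?_⟩, ?_, ?_⟩
      · rw [mul_smul, mul_smul, hinv1, h2, hxq]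
      · rw [mul_smul, mul_smul, hinv2, h1]
      · rw [mul_smul, mul_smul, h2, hinv2]
      · rw [mul_smul, mul_smul, hxq, h1, hinv1]
    have hnf : ¬ Flip L' y' := by
      intro hf
      exact D2_nonflip hy hy' (dc_mono hle hf)
    refine specSGN LL.mDWP LL.specDWG R G V d hT N x1 (x • x1) hN hCl L' X1' X2' Yp' Ym' P' hg' x
      hx' hxxL hNs ε' n' ψ' χ' ?_ ?_ ?_ hν'
    · intro i j z hz
      rcases hψ' i j z hz with h | h
      · exact h
      · exact dc_trans (RO.ELMAux.dc_inv L' x hxxL (self_dc L' x)) h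
    · exact fun i j z hz => D2_sub P' hy'' (hχ' i j z hz)
    · exact fun i j z hz => D2_nonflip hnf (hχ' i j z hz)

end Pool.Agent.Lib.MPb6f35e.TT.AR

/-! ## Module AR/SPS -/

/-!
# Classes of forms (MP_8a3537_gt, folder AR), module SPS: good pairs of flips, with stops (helper45)
-/

set_option autoImplicit false
set_option linter.unusedSectionVars false

namespace Pool.Agent.Lib.MPb6f35e.TT.AR

open Matrix Pool.Agent.Lib.MPb6f35e.TT.UV Pool.Agent.Lib.MPb6f35e.TT.AU Pool.Agent.Lib.MPb6f35e.TT.RO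
open Pool.Agent.Lib.MPb6f35e.TT.ROK Pool.Agent.Lib.MPb6f35e.TT.LL
open Pool.Agent.Lib.MPb6f35e.TT.LL2 (Cnc Lng)

namespace SPSM

section Geometry

variable {R G V : Type} [Ring R] [StarRing R] [Group G] [FCG R G] [MulAction G V]
  {d : V → V → ℕ}

/-- `SP` for `y` from `SP` for a flip in the coset of `y`. -/
theorem sp_mono {N : ℕ} {x1 x2 : V} {x y k : G} (h : SP R G d N x1 x2 x (y * k))
    (hk : k ∈ MulAction.stabilizer G x1 ⊓ MulAction.stabilizer G x2)
    (hy : y ∈ dc (MulAction.stabilizer G x1 ⊓ MulAction.stabilizer G x2) (y * k)) :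
    SP R G d N x1 x2 x y := by
  intro L X1 X2 Yp Ym P hg hx1 hy2 ε n ψ χ hψ hχ hν
  have hL := LL2.SPCM.eqL hg
  rw [← hL] at hk hy
  exact h L X1 X2 Yp Ym P hg hx1 (P.X2r k hk y hy2) ε n ψ χ hψ
    (fun i j z hz => LL2.SPCM.D2_mono hy (hχ i j z hz)) hν

/-- An element which exchanges `x1` and `x2` normalizes the stabilizer of the pair. -/
theorem ns_of {x1 x2 : V} {x : G} (h1 : x • x1 = x2) (h2 : x • x2 = x1) :
    Ns (MulAction.stabilizer G x1 ⊓ MulAction.stabilizer G x2) x := by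
  have e1 : x⁻¹ • x1 = x2 := by rw [inv_smul_eq_iff, h2]
  have e2 : x⁻¹ • x2 = x1 := by rw [inv_smul_eq_iff, h1]
  intro h hh
  rw [Subgroup.mem_inf, MulAction.mem_stabilizer_iff, MulAction.mem_stabilizer_iff] at hh
  obtain ⟨a1, a2⟩ := hh
  constructor
  · rw [Subgroup.mem_inf, MulAction.mem_stabilizer_iff, MulAction.mem_stabilizer_iff, mul_smul,
      mul_smul, mul_smul, mul_smul, e1, a2, h2, e2, a1, h1]
    exact ⟨rfl, rfl⟩
  · rw [Subgroup.mem_inf, MulAction.mem_stabilizer_iff, MulAction.mem_stabilizer_iff, mul_smul,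
      mul_smul, mul_smul, mul_smul, h1, a2, e2, h2, a1, e1]
    exact ⟨rfl, rfl⟩

/-- One cut at the flip `g`; the other piece is `La L y`. -/
theorem cutS (hSGV : SpecSGV) {L : Subgroup G} {X1 X2 Yp Ym : Set G} (P : PPK L X1 X2 ∅ Yp Ym)
    {g y : G} (hg : g ∈ X1) (hgg : g * g ∈ L) (hy : y ∈ X2) (hyy : y * y ∈ L) (hn : Ns L y)
    (hB : Blk R (La L y) (La (Kg L g) g)) {N : ℕ} (hN : 1 ≤ N) {ε : ℤˣ} {n : ℕ}
    {ψ χ : Matrix (Fin n) (Fin n) (MonoidAlgebra R G)} (hψ : SuppIn (D2 L g) ψ)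
    (hχ : SuppIn (D2 L y) χ) (hν : (nu ε (ψ + (ε : ℤ) • ψᴴ) 0 (χ + (ε : ℤ) • χᴴ)) ^ N = 0) :
    SS ε (UF ψ 0 χ) := by
  obtain ⟨-, -, s3, -⟩ := specSYK G L X1 X2 ∅ Yp Ym
  have pt : Pt L X2 (La L y) := LL.SGNM.ptA (s3 P) hy hyy hn
  exact hSGV R G L X1 X2 Yp Ym P.toPingPong g hg hgg (La L y) pt ε n N hN ψ χ
    (fun i j z hz => LL2.SPCM.D2_dc hgg (hψ i j z hz))
    (fun i j z hz => LL.SGSM.dc_La hn (LL2.SPCM.D2_dc hyy (hχ i j z hz))) hν
    (fun r ψ' κ h1 h2 h3 => SGSMP.swapUF (hB ε r κ ψ' h2 h1 ⟨N, SGSMP.swap0 ε h3⟩))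

end Geometry

end SPSM

open SPSM LL2.SPCM in
/-- **SPS**: good pairs of flips. -/
theorem specSPS (hSGV : SpecSGV) (hSTP : SpecSTP) (hSPB : SpecSPB) : SpecSPS := by
  intro R G V _ _ _ _ _ d hT Q P N hN hQ hLng hCl x1 x2 x y hGS
  induction hGS with
  | @reg x1 x2 x y hq =>
    intro _ _ _ L X1 X2 Yp Ym PP hg hx hy ε n ψ χ hψ hχ hν
    obtain ⟨-, -, s3, s4⟩ := specSYK G L X1 X2 ∅ Yp Ym
    exact hQ x1 x2 hq L X1 X2 Yp Ym PP hg ε n ψ χ
      (fun i j z hz => DCMM.D2_sub PP hx z (hψ i j z hz))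
      (fun i j z hz => DCMM.D2_sub (s3 PP) hy z (hχ i j z hz)) hν
  | @bx x1 x2 x y h1 h2 hB =>
    intro _ hxx hyy L X1 X2 Yp Ym PP hg hx hy ε n ψ χ hψ hχ hν
    have hL := eqL hg
    have hn := ns_of h1 h2
    rw [← hL] at hxx hyy hn hB
    obtain ⟨-, -, s3, -⟩ := specSYK G L X1 X2 ∅ Yp Ym
    exact SGSMP.swapUF (cutS hSGV (s3 PP) hy hyy hx hxx hn hB hN hχ hψ (SGSMP.swap0 ε hν))
  | @by' x1 x2 x y h1 h2 hB =>
    intro _ hxx hyy L X1 X2 Yp Ym PP hg hx hy ε n ψ χ hψ hχ hν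
    have hL := eqL hg
    have hn := ns_of h1 h2
    rw [← hL] at hxx hyy hn hB
    exact cutS hSGV PP hx hxx hy hyy hn hB hN hψ hχ hν
  | @stx x1 x2 x y _ ih =>
    intro hP hxx hyy L X1 X2 Yp Ym PP hg hx hy ε n ψ χ hψ hχ hν
    have hL := eqL hg
    have hm := mv1 hT hg hx
    obtain ⟨hx1, hxx'⟩ := sq1 hxx
    have hP' : P x1 (x • x1) := hLng.r x1 x2 x hP hx1 hm
    have hle := le1 hT hm
    refine hSTP R G V d hT N x1 x2 hN L X1 X2 Yp Ym PP hg x hx (by rw [hL]; exact hxx) y hy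
      (fun h3 => hCl h3 x1 (x • x1) hP') (fun y' hy' => ?_) ε n ψ χ hψ hχ hν
    have hy1 : y' ∈ dc (MulAction.stabilizer G x1 ⊓ MulAction.stabilizer G x2) y := by
      rw [hL] at hy'
      exact D2_dc hyy hy'
    by_cases hf : Flip (MulAction.stabilizer G x1 ⊓ MulAction.stabilizer G (x • x1)) y'
    · obtain ⟨k, hk, hkk, hyd⟩ := ROTAux.exists_flip hf
      have hy2 : y' * k ∈ dc (MulAction.stabilizer G x1 ⊓ MulAction.stabilizer G x2) y :=
        RO.ELMAux.dc_right _ y (hle hk) hy1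
      exact SPSM.sp_mono (ih (y' * k) hy2 hkk hP' hxx' hkk) hk hyd
    · exact (hSPB R G V d hT N x1 (x • x1) x y' hN).2 hxx' hf
        (fun h3 => hCl h3 x1 (x • x1) hP')
  | @sty x1 x2 x y _ ih =>
    intro hP hxx hyy
    refine (hSPB R G V d hT N x1 x2 x y hN).1 ?_
    intro L X1 X2 Yp Ym PP hg hy hx ε n ψ χ hψ hχ hν
    have hL := eqL hg
    have hm := mv1 hT hg hy
    rw [inf_comm] at hxx hyy
    obtain ⟨hy1, hyy'⟩ := sq1 hyy
    have hP' : P (y • x2) x2 := hLng.l x1 x2 y hP hy1 hm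
    have hle := le1 hT hm
    refine hSTP R G V d hT N x2 x1 hN L X1 X2 Yp Ym PP hg y hy (by rw [hL]; exact hyy) x hx
      (fun h3 => SGSMP.Cl_swap (hCl h3 (y • x2) x2 hP')) (fun x' hx' => ?_) ε n ψ χ hψ hχ hν
    have hx1 : x' ∈ dc (MulAction.stabilizer G x2 ⊓ MulAction.stabilizer G x1) x := by
      rw [hL] at hx'
      exact D2_dc hxx hx'
    by_cases hf : Flip (MulAction.stabilizer G x2 ⊓ MulAction.stabilizer G (y • x2)) x'
    · obtain ⟨k, hk, hkk, hxd⟩ := ROTAux.exists_flip hf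
      have hx2 : x' * k ∈ dc (MulAction.stabilizer G x2 ⊓ MulAction.stabilizer G x1) x :=
        RO.ELMAux.dc_right _ x (hle hk) hx1
      have e1 : MulAction.stabilizer G (y • x2) ⊓ MulAction.stabilizer G x2 =
          MulAction.stabilizer G x2 ⊓ MulAction.stabilizer G (y • x2) := inf_comm _ _
      have e2 : MulAction.stabilizer G x1 ⊓ MulAction.stabilizer G x2 =
          MulAction.stabilizer G x2 ⊓ MulAction.stabilizer G x1 := inf_comm _ _
      have hsp : SP R G d N (y • x2) x2 (x' * k) y :=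
        ih (x' * k) (by rw [e2]; exact hx2) (by rw [e1]; exact hkk) hP'
          (by rw [e1]; exact hkk) (by rw [e1]; exact hyy')
      exact SPSM.sp_mono ((hSPB R G V d hT N x2 (y • x2) y (x' * k) hN).1 hsp) hk hxd
    · exact (hSPB R G V d hT N x2 (y • x2) y x' hN).2 hyy' hf
        (fun h3 => SGSMP.Cl_swap (hCl h3 (y • x2) x2 hP'))

end Pool.Agent.Lib.MPb6f35e.TT.AR

/-! ## Module AR/STP2 -/

/-!
# Classes of forms (MP_8a3537_gt, folder AR): the step from `x1`, `x2` to `x1`, `x x1` (helper76)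

Module STP of `AR/SpecS.lean`.
-/

set_option autoImplicit false
set_option linter.unusedSectionVars false

namespace Pool.Agent.Lib.MPb6f35e.TT.AR

open Matrix Pool.Agent.Lib.MPb6f35e.TT.UV Pool.Agent.Lib.MPb6f35e.TT.AU Pool.Agent.Lib.MPb6f35e.TT.RO
open Pool.Agent.Lib.MPb6f35e.TT.ROK Pool.Agent.Lib.MPb6f35e.TT.LL

theorem specSTP (hSGV : SpecSGV) : SpecSTP := by
  intro R G V _ _ _ _ _ d hd N x1 x2 hN L X1 X2 Yp Ym hpp hgeo x hx hxx y hy hCl hSP ε n ψ χ
    hψ hχ hν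
  obtain ⟨-, -, s3, s4⟩ := specSYK G L X1 X2 ∅ Yp Ym
  have hppe := s3 hpp
  have hcy : Pt L X2 (D2 L y) := DCMM.pt_D2 hppe hy
  have hψ' : SuppIn (dc L x) ψ := by
    intro i j z hz
    rcases hψ i j z hz with h | h
    · exact h
    · exact SGSM.dc_trans (RO.ELMAux.dc_inv L x hxx ⟨1, L.one_mem, 1, L.one_mem, by group⟩) h
  refine hSGV R G L X1 X2 Yp Ym hpp.toPingPong x hx hxx (D2 L y) hcy ε n N hN ψ χ hψ' hχ hν ?_
  intro r ψ' κ hψ1 hκ hν'
  obtain ⟨k1, k2, k3, k4, k5⟩ := mSBK G L X1 X2 ∅ Yp Ym hpp.toPingPong x hx hxx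
  have P1 := mBLK G L X1 X2 ∅ Yp Ym hpp x hx hxx
  obtain ⟨g1, hxx1, -⟩ := mBLG G V d hd L X1 X2 ∅ Yp Ym x1 x2 hpp.toPingPong hgeo x hx hxx
  have hle : ∀ a ∈ Kg L x, a ∈ L := fun a ha => ((mem_Kg _ _ _).1 ha).1
  have hsub : ∀ z ∈ D2 L y, z ∈ BX L X1 X2 ∅ x := by
    intro z hz
    have hz2 : z ∈ X2 := hcy.sub z hz
    exact ⟨1, ((mWDA G L X1 X2 ∅ Yp Ym _ k4).2.2.2.2 true false z hz2).1⟩
  have pa : Pt (Kg L x) (La (Kg L x) x) (La (Kg L x) x) :=
    ⟨fun z hz => hz, ⟨fun h hh z hz => (k3.1 h hh z hz).1, fun h hh z hz => (k3.1 h hh z hz).2⟩,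
      k3.2.1⟩
  have pc : Pt (Kg L x) (BX L X1 X2 ∅ x) (D2 L y) :=
    ⟨hsub, ⟨fun h hh z hz => hcy.bi.1 h (hle h hh) z hz,
      fun h hh z hz => hcy.bi.2 h (hle h hh) z hz⟩, hcy.inv⟩
  have P2 := (LL.mDWP G (Kg L x) _ _ _ _ P1).2 _ _ pa pc
  have G2 := (LL.specDWG G V d hd (Kg L x) _ _ x1 (x • x1) g1).2 _ _ pa pc
  refine mDCM R G V d hd N x1 (x • x1) hN hCl (Kg L x) (La (Kg L x) x) (D2 L y) _ _ P2 G2 ?_ ε r
    ψ' κ hψ1 hκ hν'
  intro x' hx' y' hy' ε' n' ψ'' χ'' hs1 hs2 hν''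
  have hxm : x ∈ La (Kg L x) x := ⟨1, (Kg L x).one_mem, by group⟩
  refine hSP y' hy' (Kg L x) (La (Kg L x) x) (D2 L y) _ _ P2 G2 hxm hy' ε' n' ψ'' χ'' ?_ hs2 hν''
  have hd' : x' ∈ dc (Kg L x) x := by
    obtain ⟨l, hl, rfl⟩ := hx'
    exact ⟨l, hl, 1, (Kg L x).one_mem, by group⟩
  intro i j z hz
  rcases hs1 i j z hz with h | h
  · exact Or.inl (SGSM.dc_trans hd' h)
  · exact Or.inr (SGSM.dc_trans (SGSM.dc_inv_inv hd') h)

end Pool.Agent.Lib.MPb6f35e.TT.AR

/-! ## Module AR/SpecT -/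

/-!
# Groups with elements of order two: the polarization lemma, Specs (MP_8a3537_gt, folder AR, helper73)

For the theorem on all groups (MP_b6f35e_al, Q2). A matrix `τ` with `τ + ε τ^* = 0` is a Tate matrix. A module
`XXX` is a file `Pool/Agent/Lib/MP_8a3537_gt/AR/XXX.lean` which imports this file and proves `theorem specXXX
(deps) : SpecXXX` in the namespace `Pool.Agent.Lib.MPb6f35e.TT.AR`, own lemmas in the namespace `XXXM`. (The files
are copied by a script to another folder, so please no other imports than this file, `AR/FC.lean`, `AR/GEN.lean`,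
`UV/EMV.lean`, `UV/SWP.lean`, `RO/SCH.lean`, `UV/TAT.lean`.)
-/

set_option autoImplicit false
set_option linter.unusedSectionVars false

namespace Pool.Agent.Lib.MPb6f35e.TT.AR

open Matrix Pool.Agent.Lib.MPb6f35e.TT.UV

/-- `τ = - ε τ^*`. -/
def Tate {A : Type} [Ring A] [StarRing A] (ε : ℤˣ) {ι : Type} (τ : Matrix ι ι A) : Prop :=
  τ + (ε : ℤ) • τᴴ = 0

/-- **TIS** (size 120): two forms with the same invertible polarization.

PROOF. `l = Ψ + ε Ψᴴ`. `U = fromBlocks 1 0 1 (-Θ)` (invertible, inverse `fromBlocks 1 0 l (-l)`): `Uᴴ * fromBlocks (Ψ + τ) 0 0 (-Ψ) * U =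
fromBlocks τ (Ψ Θ) (Θᴴ Ψ) (-Θᴴ Ψ Θ)`; modulo `Z - ε Zᴴ` (`Z = fromBlocks 0 (ε Ψᴴ Θ) 0 0`, `(Θᴴ Ψ) = (Ψᴴ Θ)ᴴ`) this is `fromBlocks τ 1 0 θ`, `θ = -Θᴴ Ψ Θ`.
Then `V = fromBlocks 1 (-θᴴ) 0 1`: `Vᴴ * fromBlocks τ 1 0 θ * V = fromBlocks τ (1 - τ θᴴ) (-θ τ) (θ - θ + θ τ θᴴ ..)`: the entry `(2, 2)` is
`θ τ θᴴ - θ θᴴ..` as follows: `(-θ) τ (-θᴴ) + (-θ) 1 + θ = θ τ θᴴ`; the entry `(2, 1)` is `-θ τ`, which is moved to `(1, 2)`:
`ε (-θ τ)ᴴ = -ε τᴴ θᴴ = τ θᴴ`, so `(1, 2)` is `1`. `τ' = θ τ θᴴ` is Tate. -/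
def SpecTIS : Prop :=
  ∀ (A : Type) [Ring A] [StarRing A] (ε : ℤˣ) (ι : Type) [Fintype ι] [DecidableEq ι]
    (Ψ τ Θ : Matrix ι ι A), Tate ε τ → (Ψ + (ε : ℤ) • Ψᴴ) * Θ = 1 → Θ * (Ψ + (ε : ℤ) • Ψᴴ) = 1 →
    ∃ τ' : Matrix ι ι A, Tate ε τ' ∧ Isometric ε (fromBlocks (Ψ + τ) 0 0 (-Ψ)) (UF τ 0 τ')

/-- **TAD** (size 120): additivity.

PROOF. Indices `(ι ⊕ ι) ⊕ (ι ⊕ ι)`, coordinates `x1, y1, x2, y2`. Substitution `x1 = X`, `x2 = X + X'`, `y1 = Y - Y'`, `y2 = Y'`, new order `X, Y, X', Y'`: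
the `x`-part `X^* σ1 X + (X + X')^* σ2 (X + X')` is `X^* (σ1 + σ2) X + X'^* σ2 X'` (the mixed terms cancel modulo even matrices, `Tate σ2`), the pairing
`X^* (Y - Y') + (X + X')^* Y' = X^* Y + X'^* Y'`, the `y`-part `(Y - Y')^* ρ (Y - Y') + Y'^* ρ Y'` is `Y^* ρ Y + Y'^* (ρ + ρ) Y'` modulo even matrices. So the form is
`UF (σ1 + σ2) 0 ρ ⊕ UF σ2 0 (ρ + ρ)`, and `ρ + ρ = ρ - ε ρᴴ` is even, `UF σ2 0 0 ≅ hyp` (`V = fromBlocks 1 0 (-σ2) 1`). -/
def SpecTAD : Prop :=
  ∀ (A : Type) [Ring A] [StarRing A] (ε : ℤˣ) (ι : Type) [Fintype ι] [DecidableEq ι]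
    (σ1 σ2 ρ : Matrix ι ι A), Tate ε σ1 → Tate ε σ2 → Tate ε ρ →
    Isometric ε (fromBlocks (UF σ1 0 ρ) 0 0 (UF σ2 0 ρ)) (fromBlocks (UF (σ1 + σ2) 0 ρ) 0 0 (hyp ι A))

/-- The forms `(r t, 1; 0, s u)` of size `1 + 1`, `t`, `u` of order at most two, `r = - ε r^*`, `s = - ε s^*`, are in the
class. -/
def DInf (R G : Type) [Ring R] [StarRing R] [Group G] [FC (MonoidAlgebra R G)] : Prop :=
  ∀ (ε : ℤˣ) (r s : R) (t u : G), t * t = 1 → u * u = 1 → r + (ε : ℤ) • star r = 0 →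
    s + (ε : ℤ) • star s = 0 →
    SS ε (UF (Matrix.of fun _ _ : Fin 1 => MonoidAlgebra.single t r) 0
      (Matrix.of fun _ _ : Fin 1 => MonoidAlgebra.single u s))

/-- **TDI** (size 250, dep `SpecTAD`): Tate matrices are sums of the matrices `r t E_ii` and even matrices.

PROOF. Let `P σ ρ` be `SS ε (UF σ 0 ρ)` (`σ`, `ρ` Tate). (1) `P σ ρ → P σ' ρ → P (σ + σ') ρ` (TAD, `ss_of_isom`, `ss_sum`, `ss_destab`), the same for `ρ` (swap: `SWPAux.swap`);
`P 0 ρ`, `P σ 0`; even matrices `c - ε cᴴ` may be added (`SWPAux.change`). (2) every Tate `τ` is an even matrix plus a finite sum of matrices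
`E_ii (r t)` (`single t r` at the place `(i, i)`), `t t = 1`, `r + ε r^* = 0`: induction on the number of nonzero coefficients `(i, j, g)`: if `(i, j, g) ≠ (j, i, g⁻¹)` subtract
`c - ε cᴴ`, `c = E_ij (r g)`; otherwise `i = j`, `g g = 1` and the coefficient `r` at `g` satisfies `r = - ε r^*`: subtract `E_ii (r g)`. (3) `P (E_ii (r t)) (E_jj (s u))`: reindex `ι` as
`{i} ⊕ rest` (and `{j}`): if `i ≠ j` the form is isometric to a hyperbolic form (`(σ, 1; 0, 0)` and `(0, 1; 0, ρ)` are hyperbolic); if `i = j` it is the form of `DInf` plus a hyperbolic form. -/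
def SpecTDI : Prop :=
  ∀ (R G : Type) [Ring R] [StarRing R] [Group G] [FC (MonoidAlgebra R G)], DInf R G →
    ∀ (ε : ℤˣ) (ι : Type) [Fintype ι] [DecidableEq ι] (τ τ' : Matrix ι ι (MonoidAlgebra R G)),
      Tate ε τ → Tate ε τ' → SS ε (UF τ 0 τ')

/-- **TPO** (size 80, deps `SpecTIS`, `SpecTDI`): the class depends only on the polarization.

PROOF. `Φ = Ψ + τ`, `τ` Tate. `Φ ⊕ (-Ψ) ⊕ Ψ`: by TIS `Φ ⊕ (-Ψ) ≅ UF τ 0 τ'`, in the class by TDI; so `(Φ ⊕ -Ψ) ⊕ Ψ` is in the class. By TIS for `τ = 0`: `Ψ ⊕ (-Ψ) ≅ UF 0 0 τ'`, and this is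
hyperbolic. Reorder: `Φ ⊕ hyp` is in the class, `ss_destab`. -/
def SpecTPO : Prop :=
  ∀ (R G : Type) [Ring R] [StarRing R] [Group G] [FC (MonoidAlgebra R G)], DInf R G →
    ∀ (ε : ℤˣ) (ι : Type) [Fintype ι] [DecidableEq ι] (Ψ Φ Θ : Matrix ι ι (MonoidAlgebra R G)),
      Ψ + (ε : ℤ) • Ψᴴ = Φ + (ε : ℤ) • Φᴴ → (Ψ + (ε : ℤ) • Ψᴴ) * Θ = 1 →
      Θ * (Ψ + (ε : ℤ) • Ψᴴ) = 1 → SS ε Ψ → SS ε Φ

end Pool.Agent.Lib.MPb6f35e.TT.AR

/-! ## Module AR/TAD -/

/-!
# Tate matrices: additivity (MP_8a3537_gt, folder AR, module TAD, helper30)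
-/

set_option autoImplicit false
set_option linter.unusedSectionVars false
set_option linter.unusedSimpArgs false

namespace Pool.Agent.Lib.MPb6f35e.TT.AR

open Matrix Pool.Agent.Lib.MPb6f35e.TT.UV

namespace TADM

variable {A : Type} [Ring A] [StarRing A] {ι : Type} [Fintype ι] [DecidableEq ι]

/-- The substitution. -/
theorem subst (ε : ℤˣ) (σ1 σ2 ρ : Matrix ι ι A) (h2 : Tate ε σ2) (hρ : Tate ε ρ) :
    Isometric ε (fromBlocks (UF σ1 0 ρ) 0 0 (UF σ2 0 ρ))
      (fromBlocks (UF (σ1 + σ2) 0 ρ) 0 0 (fromBlocks σ2 1 0 (ρ + ρ))) := by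
  have e2 : (ε : ℤ) • σ2ᴴ = -σ2 := by
    unfold Tate at h2
    exact (neg_eq_of_add_eq_zero_right h2).symm
  have eρ : (ε : ℤ) • ρᴴ = -ρ := by
    unfold Tate at hρ
    exact (neg_eq_of_add_eq_zero_right hρ).symm
  refine ⟨fromBlocks 1 (fromBlocks 0 0 0 (-1)) (fromBlocks 1 0 0 0) 1,
    fromBlocks 1 (fromBlocks 0 0 0 1) (fromBlocks (-1) 0 0 0) 1,
    fromBlocks 0 (fromBlocks (-σ2) 0 0 ρ) 0 0, ?_, ?_, ?_⟩
  · rw [fromBlocks_multiply]
    simp [fromBlocks_multiply, fromBlocks_add, fromBlocks_one]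
  · rw [fromBlocks_multiply]
    simp [fromBlocks_multiply, fromBlocks_add, fromBlocks_one]
  · unfold UF
    simp only [fromBlocks_conjTranspose, conjTranspose_zero, conjTranspose_one, conjTranspose_neg,
      fromBlocks_multiply, fromBlocks_smul, fromBlocks_add, sub_eq_add_neg, fromBlocks_neg,
      Matrix.one_mul, Matrix.mul_one, Matrix.zero_mul, Matrix.mul_zero, Matrix.mul_neg,
      Matrix.neg_mul, add_zero, zero_add, smul_zero, neg_zero, neg_neg, smul_neg, e2, eρ]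
    ext i j
    rcases i with (i | i) | (i | i) <;> rcases j with (j | j) | (j | j) <;> simp

/-- `(σ, 1; 0, ρ + ρ)` is hyperbolic. -/
theorem half (ε : ℤˣ) (σ ρ : Matrix ι ι A) (hρ : Tate ε ρ) :
    Isometric ε (fromBlocks σ 1 0 (ρ + ρ)) (hyp ι A) := by
  have eρ : (ε : ℤ) • ρᴴ = -ρ := by
    unfold Tate at hρ
    exact (neg_eq_of_add_eq_zero_right hρ).symm
  refine EMVAux.iso_trans ε (Φ := fromBlocks σ 1 0 0) ⟨1, 1, fromBlocks 0 0 0 (-ρ), ?_, ?_, ?_⟩
    ⟨fromBlocks 1 0 (-σ) 1, fromBlocks 1 0 σ 1, 0, ?_, ?_, ?_⟩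
  · rw [Matrix.one_mul]
  · rw [Matrix.one_mul]
  · simp only [conjTranspose_one, Matrix.one_mul, Matrix.mul_one, fromBlocks_conjTranspose,
      conjTranspose_zero, conjTranspose_neg, fromBlocks_smul, sub_eq_add_neg, fromBlocks_neg,
      fromBlocks_add, smul_zero, smul_neg, eρ, neg_zero, neg_neg, add_zero]
    congr 1
    abel
  · rw [fromBlocks_multiply]
    simp [fromBlocks_one]
  · rw [fromBlocks_multiply]
    simp [fromBlocks_one]
  · unfold hyp
    rw [fromBlocks_conjTranspose, fromBlocks_multiply, fromBlocks_multiply]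
    simp

end TADM

open TADM in
/-- **Module TAD**. -/
theorem specTAD : SpecTAD := by
  intro A _ _ ε ι _ _ σ1 σ2 ρ h1 h2 hρ
  exact EMVAux.iso_trans ε (subst ε σ1 σ2 ρ h2 hρ) (EMVAux.iso_sum' ε _ (half ε σ2 ρ hρ))

end Pool.Agent.Lib.MPb6f35e.TT.AR

/-! ## Module AR/TDI -/

/-!
# TDI: Tate matrices are sums of matrices `r t E_ii` and even matrices (MP_8a3537_gt, folder AR, helper24)
-/

set_option autoImplicit false
set_option linter.unusedSectionVars false

namespace Pool.Agent.Lib.MPb6f35e.TT.AR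

open Matrix Pool.Agent.Lib.MPb6f35e.TT.UV

namespace TDIM

section Forms

variable {A : Type} [Ring A] [StarRing A] {ε : ℤˣ} {ι : Type} [Fintype ι] [DecidableEq ι]

theorem swap (ψ χ : Matrix ι ι A) : Isometric ε (UF ψ 0 χ) (UF χ 0 ψ) := by
  refine ⟨fromBlocks 0 ((ε : ℤ) • 1) 1 0, fromBlocks 0 1 ((ε : ℤ) • 1) 0,
    fromBlocks 0 1 0 0, ?_, ?_, ?_⟩
  · rw [fromBlocks_multiply]
    rcases Int.units_eq_one_or ε with h | h <;> simp [h, fromBlocks_one]
  · rw [fromBlocks_multiply]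
    rcases Int.units_eq_one_or ε with h | h <;> simp [h, fromBlocks_one]
  · unfold UF
    rw [fromBlocks_conjTranspose, fromBlocks_conjTranspose, fromBlocks_multiply,
      fromBlocks_multiply, fromBlocks_smul, fromBlocks_add, sub_eq_add_neg, fromBlocks_neg,
      fromBlocks_add]
    rcases Int.units_eq_one_or ε with h | h
    · simp [h]
    · simp [h]

theorem change (ψ χ c : Matrix ι ι A) :
    Isometric ε (UF (ψ + (c - (ε : ℤ) • cᴴ)) 0 χ) (UF ψ 0 χ) := by
  refine ⟨1, 1, fromBlocks (-c) 0 0 0, by simp, by simp, ?_⟩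
  unfold UF
  rw [conjTranspose_one, Matrix.one_mul, Matrix.mul_one, fromBlocks_conjTranspose,
    fromBlocks_smul, fromBlocks_add, sub_eq_add_neg, fromBlocks_neg, fromBlocks_add]
  simp only [conjTranspose_neg, conjTranspose_zero, smul_neg, smul_zero, neg_zero, add_zero,
    neg_neg]
  congr 1
  abel

/-- Removal of `ρ` if it is orthogonal to `σ`. -/
theorem kill (σ ρ : Matrix ι ι A) (h1 : σ * ρᴴ = 0) (h2 : ρ * σ = 0) :
    Isometric ε (UF σ 0 ρ) (UF σ 0 0) := by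
  refine ⟨fromBlocks 1 (-ρᴴ) 0 1, fromBlocks 1 ρᴴ 0 1, 0, ?_, ?_, ?_⟩
  · rw [fromBlocks_multiply]
    simp [fromBlocks_one]
  · rw [fromBlocks_multiply]
    simp [fromBlocks_one]
  · unfold UF
    rw [fromBlocks_conjTranspose, fromBlocks_multiply, fromBlocks_multiply]
    simp [h1, h2]

theorem zero_hyp (ρ : Matrix ι ι A) : Isometric ε (UF 0 0 ρ) (UV.hyp ι A) := by
  have h := kill (ε := ε) (0 : Matrix ι ι A) ρ (by simp) (by simp)
  have e : UF (0 : Matrix ι ι A) 0 0 = UV.hyp ι A := by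
    unfold UF UV.hyp
    simp
  rw [e] at h
  exact h

theorem tate_zero : Tate ε (0 : Matrix ι ι A) := by
  unfold Tate
  simp

theorem tate_add {σ τ : Matrix ι ι A} (h : Tate ε σ) (h' : Tate ε τ) : Tate ε (σ + τ) := by
  unfold Tate at *
  rw [conjTranspose_add, smul_add]
  calc σ + τ + ((ε : ℤ) • σᴴ + (ε : ℤ) • τᴴ) = (σ + (ε : ℤ) • σᴴ) + (τ + (ε : ℤ) • τᴴ) := by abel
    _ = 0 := by rw [h, h', add_zero]

theorem tate_even (c : Matrix ι ι A) : Tate ε (c - (ε : ℤ) • cᴴ) := by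
  unfold Tate
  rcases Int.units_eq_one_or ε with h | h
  · simp [h]
  · simp [h]

theorem ss_hyp [FC A] (N : Type) [Fintype N] [DecidableEq N] : SS ε (UV.hyp N A) :=
  ss_of_isom (EMVAux.iso_symm ε (RO.SCHM.hyp_card (A := A) ε N)) (FC.hyp ε (Fintype.card N))

/-- The Tate matrices `σ` such that `UF σ 0 ρ` is in the class. -/
def K [FC A] (hT : SpecTAD) (ε : ℤˣ) (ρ : Matrix ι ι A) (hρ : Tate ε ρ) :
    AddSubmonoid (Matrix ι ι A) where
  carrier := {σ | Tate ε σ ∧ SS ε (UF σ 0 ρ)}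
  zero_mem' := ⟨tate_zero, ss_of_isom (zero_hyp ρ) (ss_hyp ι)⟩
  add_mem' := by
    rintro σ1 σ2 ⟨h1, h1'⟩ ⟨h2, h2'⟩
    refine ⟨tate_add h1 h2, ?_⟩
    have h := hT A ε ι σ1 σ2 ρ h1 h2 hρ
    exact ss_destab ι (ss_of_isom (EMVAux.iso_symm ε h) (ss_sum h1' h2'))

/-- The Tate matrices `ρ` such that `UF σ 0 ρ` is in the class. -/
def K' [FC A] (hT : SpecTAD) (ε : ℤˣ) (σ : Matrix ι ι A) (hσ : Tate ε σ) :
    AddSubmonoid (Matrix ι ι A) where
  carrier := {ρ | Tate ε ρ ∧ SS ε (UF σ 0 ρ)}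
  zero_mem' := ⟨tate_zero, ss_of_isom (swap σ 0) (ss_of_isom (zero_hyp σ) (ss_hyp ι))⟩
  add_mem' := by
    rintro ρ1 ρ2 ⟨h1, h1'⟩ ⟨h2, h2'⟩
    have e1 : ρ1 ∈ K hT ε σ hσ := ⟨h1, ss_of_isom (swap ρ1 σ) h1'⟩
    have e2 : ρ2 ∈ K hT ε σ hσ := ⟨h2, ss_of_isom (swap ρ2 σ) h2'⟩
    have e3 := (K hT ε σ hσ).add_mem e1 e2
    exact ⟨e3.1, ss_of_isom (swap σ _) e3.2⟩

theorem even_mem [FC A] (hT : SpecTAD) (ρ : Matrix ι ι A) (hρ : Tate ε ρ) (c : Matrix ι ι A) :
    c - (ε : ℤ) • cᴴ ∈ K hT ε ρ hρ := by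
  refine ⟨tate_even c, ?_⟩
  have h := change (ε := ε) (0 : Matrix ι ι A) ρ c
  rw [zero_add] at h
  exact ss_of_isom h (ss_of_isom (zero_hyp ρ) (ss_hyp ι))

theorem even_mem' [FC A] (hT : SpecTAD) (σ : Matrix ι ι A) (hσ : Tate ε σ) (c : Matrix ι ι A) :
    c - (ε : ℤ) • cᴴ ∈ K' hT ε σ hσ :=
  ⟨tate_even c, ss_of_isom (swap σ _) (even_mem hT σ hσ c).2⟩

/-- Splitting off one index. -/
theorem split (i : ι) (x y : A) :
    Isometric ε (UF (Matrix.single i i x) 0 (Matrix.single i i y))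
      (fromBlocks (UF (Matrix.of fun _ _ : Fin 1 => x) 0 (Matrix.of fun _ _ : Fin 1 => y)) 0 0
        (UV.hyp {j : ι // j ≠ i} A)) := by
  classical
  let f : Fin 1 ⊕ {j : ι // j ≠ i} ≃ ι :=
    { toFun := Sum.elim (fun _ => i) Subtype.val
      invFun := fun j => if h : j = i then Sum.inl 0 else Sum.inr ⟨j, h⟩
      left_inv := by
        rintro (a | a)
        · simp [Fin.eq_zero a]
        · simp [a.2]
      right_inv := by
        intro j
        by_cases h : j = i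
        · simp [h]
        · simp [h] }
  have f1 : ∀ a, f (Sum.inl a) = i := fun _ => rfl
  have f2 : ∀ n : {j : ι // j ≠ i}, f (Sum.inr n) = n.1 := fun _ => rfl
  refine EMVAux.iso_equiv ε _ _
    ((Equiv.sumSumSumComm (Fin 1) (Fin 1) {j : ι // j ≠ i} {j : ι // j ≠ i}).trans
      (Equiv.sumCongr f f)) ?_
  have hn : ∀ n : {j : ι // j ≠ i}, ¬ i = n.1 := fun n h => n.2 h.symm
  have hn' : ∀ n : {j : ι // j ≠ i}, ¬ n.1 = i := fun n h => n.2 h
  ext a b
  rcases a with (a | a) | (a | a) <;> rcases b with (b | b) | (b | b) <;>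
    (try (obtain rfl : a = 0 := Subsingleton.elim _ _)) <;>
    (try (obtain rfl : b = 0 := Subsingleton.elim _ _)) <;>
    simp [UF, UV.hyp, f1, f2, Matrix.one_apply, hn, hn', Subtype.ext_iff]

end Forms

section GroupRing

variable {R G : Type} [Ring R] [StarRing R] [Group G] {ε : ℤˣ} {ι : Type} [Fintype ι]
  [DecidableEq ι]

theorem tate_coeff {τ : Matrix ι ι (MonoidAlgebra R G)} (h : Tate ε τ) (i j : ι) (g : G) :
    (τ i j).coeff g + (ε : ℤ) • star ((τ j i).coeff g⁻¹) = 0 := by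
  have h1 := congrFun (congrFun h i) j
  rw [Matrix.add_apply, Matrix.smul_apply, Matrix.conjTranspose_apply, Matrix.zero_apply] at h1
  have h2 := congrArg (fun x : MonoidAlgebra R G => x.coeff g) h1
  simp only [MonoidAlgebra.coeff_add, Finsupp.add_apply, MonoidAlgebra.coeff_smul,
    Finsupp.smul_apply, star_coeff, MonoidAlgebra.coeff_zero, Finsupp.coe_zero,
    Pi.zero_apply] at h2
  exact h2

theorem tate_single (i : ι) (g : G) (r : R) (hg : g * g = 1)
    (hr : r + (ε : ℤ) • star r = 0) :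
    Tate ε (Matrix.single i i (MonoidAlgebra.single g r)) := by
  have hg' : g⁻¹ = g := inv_eq_of_mul_eq_one_left hg
  unfold Tate
  rw [Matrix.conjTranspose_single, star_single, hg', Matrix.smul_single, ← Matrix.single_add,
    MonoidAlgebra.smul_single, ← MonoidAlgebra.single_add, hr]
  simp

/-- Every Tate matrix with support in `S` is in every additive submonoid which contains the even
matrices and the matrices `r t E_ii`, `t ∈ S`. -/
theorem decomp (S : Set G) (M : AddSubmonoid (Matrix ι ι (MonoidAlgebra R G)))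
    (hev : ∀ c : Matrix ι ι (MonoidAlgebra R G), c - (ε : ℤ) • cᴴ ∈ M)
    (hM : ∀ (i : ι) (g : G) (r : R), g ∈ S → g * g = 1 → r + (ε : ℤ) • star r = 0 →
      Matrix.single i i (MonoidAlgebra.single g r) ∈ M)
    (τ : Matrix ι ι (MonoidAlgebra R G)) (hS : SuppIn S τ) (hτ : Tate ε τ) : τ ∈ M := by
  classical
  let e := Fintype.equivFin ι
  let Y : Set G := {g | WellOrderingRel g g⁻¹}
  have hY1 : ∀ g : G, g⁻¹ = g → g ∉ Y := by
    intro g hg h
    have h' : WellOrderingRel g g⁻¹ := h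
    rw [hg] at h'
    exact irrefl_of WellOrderingRel g h'
  have hY2 : ∀ g : G, g⁻¹ ≠ g → ((g ∈ Y ∧ g⁻¹ ∉ Y) ∨ (g ∉ Y ∧ g⁻¹ ∈ Y)) := by
    intro g hg
    show (WellOrderingRel g g⁻¹ ∧ ¬ WellOrderingRel g⁻¹ g⁻¹⁻¹) ∨
      (¬ WellOrderingRel g g⁻¹ ∧ WellOrderingRel g⁻¹ g⁻¹⁻¹)
    rw [inv_inv]
    rcases trichotomous_of WellOrderingRel g g⁻¹ with h | h | h
    · exact Or.inl ⟨h, fun h' => asymm_of WellOrderingRel h h'⟩
    · exact absurd h.symm hg
    · exact Or.inr ⟨fun h' => asymm_of WellOrderingRel h h', h⟩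
  -- the even part
  let c : Matrix ι ι (MonoidAlgebra R G) := Matrix.of fun i j => if e i < e j then τ i j else
    if i = j then .ofCoeff ((τ i j).coeff.filter (fun g => g ∈ Y)) else 0
  -- the diagonal part
  let d : ι → MonoidAlgebra R G := fun i => .ofCoeff ((τ i i).coeff.filter (fun g => g⁻¹ = g))
  have hsub : τ = (c - (ε : ℤ) • cᴴ) + Matrix.diagonal d := by
    ext i j g
    have ht := tate_coeff hτ i j g
    have ht' : (τ i j).coeff g = - ((ε : ℤ) • star ((τ j i).coeff g⁻¹)) :=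
      eq_neg_of_add_eq_zero_left ht
    rw [Matrix.add_apply, Matrix.sub_apply, Matrix.smul_apply, Matrix.conjTranspose_apply,
      MonoidAlgebra.coeff_add, Finsupp.add_apply, MonoidAlgebra.coeff_sub, Finsupp.sub_apply,
      MonoidAlgebra.coeff_smul, Finsupp.smul_apply, star_coeff]
    have hc : ∀ a b, c a b = if e a < e b then τ a b else
      if a = b then .ofCoeff ((τ a b).coeff.filter (fun g => g ∈ Y)) else 0 := fun _ _ => rfl
    rw [hc, hc]
    rcases lt_trichotomy (e i) (e j) with h | h | h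
    · have h1 : ¬ e j < e i := not_lt.mpr h.le
      have h2 : j ≠ i := by rintro rfl; exact lt_irrefl _ h
      rw [if_pos h, if_neg h1, if_neg h2, Matrix.diagonal_apply_ne _ h2.symm]
      simp
    · have h' : i = j := e.injective h
      subst h'
      rw [if_neg (lt_irrefl _), if_pos rfl, Matrix.diagonal_apply_eq]
      show (τ i i).coeff g = (τ i i).coeff.filter (fun g => g ∈ Y) g -
        (ε : ℤ) • star ((τ i i).coeff.filter (fun g => g ∈ Y) g⁻¹) +
        (τ i i).coeff.filter (fun g => g⁻¹ = g) g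
      simp only [Finsupp.filter_apply]
      by_cases hg : g⁻¹ = g
      · have h1 := hY1 g hg
        have h2 : g⁻¹ ∉ Y := by rw [hg]; exact h1
        rw [if_neg h1, if_neg h2, if_pos hg]
        simp
      · rcases hY2 g hg with ⟨ha, hb⟩ | ⟨ha, hb⟩
        · rw [if_pos ha, if_neg hb, if_neg hg]
          simp
        · rw [if_neg ha, if_pos hb, if_neg hg, ht']
          simp
    · have h1 : ¬ e i < e j := not_lt.mpr h.le
      have h2 : i ≠ j := by rintro rfl; exact lt_irrefl _ h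
      rw [if_neg h1, if_neg h2, if_pos h, Matrix.diagonal_apply_ne _ h2, ht']
      simp
  have hd : Matrix.diagonal d = ∑ i : ι, ∑ g ∈ (d i).coeff.support,
      Matrix.single i i (MonoidAlgebra.single g ((d i).coeff g)) := by
    have h1 : ∀ i, ∑ g ∈ (d i).coeff.support,
        Matrix.single i i (MonoidAlgebra.single g ((d i).coeff g)) = Matrix.single i i (d i) := by
      intro i
      ext a b g
      rw [Matrix.sum_apply]
      simp only [Matrix.single_apply]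
      by_cases hab : i = a ∧ i = b
      · obtain ⟨rfl, rfl⟩ := hab
        simp only [and_self, if_true]
        rw [MonoidAlgebra.coeff_sum, Finsupp.finsetSum_apply]
        simp only [MonoidAlgebra.coeff_single, Finsupp.single_apply]
        rw [Finset.sum_ite_eq' _ g]
        split_ifs with h
        · rfl
        · exact (Finsupp.notMem_support_iff.mp h).symm
      · simp [hab]
    rw [Finset.sum_congr rfl fun i _ => h1 i]
    ext a b : 1
    by_cases hab : a = b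
    · subst hab
      rw [Matrix.diagonal_apply_eq, Matrix.sum_apply, Finset.sum_eq_single a]
      · simp
      · intro i _ hi
        simp [hi]
      · simp
    · rw [Matrix.diagonal_apply_ne _ hab, Matrix.sum_apply]
      symm
      apply Finset.sum_eq_zero
      intro i _
      rw [Matrix.single_apply, if_neg]
      rintro ⟨rfl, rfl⟩
      exact hab rfl
  rw [hsub, hd]
  refine M.add_mem (hev c) (M.sum_mem fun i _ => M.sum_mem fun g hg => ?_)
  have hdc : ∀ g, (d i).coeff g = if g⁻¹ = g then (τ i i).coeff g else 0 := by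
    intro g
    show (τ i i).coeff.filter (fun g => g⁻¹ = g) g = _
    rw [Finsupp.filter_apply]
  rw [Finsupp.mem_support_iff, hdc] at hg
  by_cases h1 : g⁻¹ = g
  · rw [if_pos h1] at hg
    rw [hdc, if_pos h1]
    refine hM i g _ (hS i i g hg) ?_ ?_
    · calc g * g = g⁻¹ * g := by rw [h1]
        _ = 1 := inv_mul_cancel g
    · have := tate_coeff hτ i i g
      rw [h1] at this
      exact this
  · rw [if_neg h1] at hg
    exact absurd rfl hg

end GroupRing

end TDIM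

/-- **TDS** (proposal of helper30): the same with supports. -/
def SpecTDS : Prop :=
  ∀ (R G : Type) [Ring R] [StarRing R] [Group G] [FC (MonoidAlgebra R G)] (ε : ℤˣ) (S₁ S₂ : Set G),
    (∀ (r s : R) (t u : G), t ∈ S₁ → u ∈ S₂ → t * t = 1 → u * u = 1 →
      r + (ε : ℤ) • star r = 0 → s + (ε : ℤ) • star s = 0 →
      SS ε (UF (Matrix.of fun _ _ : Fin 1 => MonoidAlgebra.single t r) 0
        (Matrix.of fun _ _ : Fin 1 => MonoidAlgebra.single u s))) →
    ∀ (ι : Type) [Fintype ι] [DecidableEq ι] (τ τ' : Matrix ι ι (MonoidAlgebra R G)),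
      SuppIn S₁ τ → SuppIn S₂ τ' → Tate ε τ → Tate ε τ' → SS ε (UF τ 0 τ')

open TDIM in
theorem specTDS (hT : SpecTAD) : SpecTDS := by
  intro R G _ _ _ _ ε S₁ S₂ hD ι _ _ τ τ' hS₁ hS₂ hτ hτ'
  classical
  -- elementary matrices
  have base : ∀ (i j : ι) (t u : G) (r s : R), t ∈ S₁ → u ∈ S₂ → t * t = 1 → u * u = 1 →
      r + (ε : ℤ) • star r = 0 → s + (ε : ℤ) • star s = 0 →
      SS ε (UF (Matrix.single i i (MonoidAlgebra.single t r)) 0
        (Matrix.single j j (MonoidAlgebra.single u s))) := by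
    intro i j t u r s ht1 hu1 ht hu hr hs
    by_cases hij : i = j
    · subst hij
      exact ss_of_isom (split i _ _) (ss_sum (hD r s t u ht1 hu1 ht hu hr hs) (ss_hyp _))
    · refine ss_of_isom (kill _ _ ?_ ?_) (ss_of_isom (swap _ _)
        (ss_of_isom (zero_hyp _) (ss_hyp ι)))
      · rw [Matrix.conjTranspose_single]
        exact Matrix.single_mul_single_of_ne _ _ _ _ hij _
      · exact Matrix.single_mul_single_of_ne _ _ _ _ (Ne.symm hij) _
  -- the first matrix is general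
  have step : ∀ (j : ι) (u : G) (s : R), u ∈ S₂ → u * u = 1 → s + (ε : ℤ) • star s = 0 →
      SS ε (UF τ 0 (Matrix.single j j (MonoidAlgebra.single u s))) := by
    intro j u s hu1 hu hs
    have hρ := tate_single (ε := ε) j u s hu hs
    have := decomp (ε := ε) S₁ (K hT ε _ hρ) (even_mem hT _ hρ)
      (fun i t r ht1 ht hr => ⟨tate_single i t r ht hr, base i j t u r s ht1 hu1 ht hu hr hs⟩)
      τ hS₁ hτ
    exact this.2
  have := decomp (ε := ε) S₂ (K' hT ε τ hτ) (even_mem' hT τ hτ)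
    (fun j u s hu1 hu hs => ⟨tate_single j u s hu hs, step j u s hu1 hu hs⟩) τ' hS₂ hτ'
  exact this.2

theorem specTDI (hT : SpecTAD) : SpecTDI := by
  intro R G _ _ _ _ hD ε ι _ _ τ τ' hτ hτ'
  exact specTDS hT R G ε Set.univ Set.univ (fun r s t u _ _ => hD ε r s t u) ι τ τ'
    (fun _ _ _ _ => Set.mem_univ _) (fun _ _ _ _ => Set.mem_univ _) hτ hτ'

end Pool.Agent.Lib.MPb6f35e.TT.AR

/-! ## Module AR/TPP -/

/-!
# Groups with elements of order two (MP_8a3537_gt, folder AR, module TPP, helper30)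

`(ψ, 1; 0, M)`, `M + ε M^* = 0`, for ping-pong data: the only places where the absence of elements of order two is used.
`DInfI`: the forms `(r t, 1; 0, s u)`, `t`, `u` of order two, `t u` of infinite order, are in the class.
-/

set_option autoImplicit false
set_option linter.unusedSectionVars false
set_option linter.unusedSimpArgs false

namespace Pool.Agent.Lib.MPb6f35e.TT.AR

open Matrix Pool.Agent.Lib.MPb6f35e.TT.UV Pool.Agent.Lib.MPb6f35e.TT.RO Pool.Agent.Lib.MPb6f35e.TT.ROK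

/-- The forms `(r t, 1; 0, s u)` of size `1 + 1`, `t t = u u = 1`, `t u` of infinite order, `r = - ε r^*`,
`s = - ε s^*`, are in the class. -/
def DInfI (R G : Type) [Ring R] [StarRing R] [Group G] [FC (MonoidAlgebra R G)] : Prop :=
  ∀ (ε : ℤˣ) (r s : R) (t u : G), t * t = 1 → u * u = 1 → (∀ n : ℕ, 1 ≤ n → (t * u) ^ n ≠ 1) →
    r + (ε : ℤ) • star r = 0 → s + (ε : ℤ) • star s = 0 →
    SS ε (UF (Matrix.of fun _ _ : Fin 1 => MonoidAlgebra.single t r) 0
      (Matrix.of fun _ _ : Fin 1 => MonoidAlgebra.single u s))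

/-- **TPP**: Tate matrices and ping-pong. -/
def SpecTPP : Prop :=
  ∀ (R G : Type) [Ring R] [StarRing R] [Group G] [FC (MonoidAlgebra R G)], DInfI R G →
    ∀ (L : Subgroup G) (X1 X2 Yp Ym : Set G), PPK L X1 X2 ∅ Yp Ym → ∀ (ε : ℤˣ) (n : ℕ)
      (ψ M : Matrix (Fin n) (Fin n) (MonoidAlgebra R G)), SuppIn X1 ψ → SuppIn X2 M →
      M + (ε : ℤ) • Mᴴ = 0 → SS ε (UF ψ 0 M)

namespace TPPM

/-- `(M, 1; 0, ψ)` and `(M, 1; 0, ψ M ψ^*)`. -/
theorem iso {A : Type} [Ring A] [StarRing A] (ε : ℤˣ) {n : ℕ} (M ψ : Matrix (Fin n) (Fin n) A)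
    (hM : M + (ε : ℤ) • Mᴴ = 0) : Isometric ε (UF M 0 ψ) (UF M 0 (ψ * M * ψᴴ)) := by
  have hε : (ε : ℤ) • Mᴴ = -M := (neg_eq_of_add_eq_zero_right hM).symm
  refine ⟨fromBlocks 1 (-ψᴴ) 0 1, fromBlocks 1 ψᴴ 0 1, fromBlocks 0 0 (ψ * M) 0, ?_, ?_, ?_⟩
  · rw [fromBlocks_multiply]
    simp [fromBlocks_one]
  · rw [fromBlocks_multiply]
    simp [fromBlocks_one]
  · have e1 : (ε : ℤ) • (ψ * M)ᴴ = -(M * ψᴴ) := by
      rw [conjTranspose_mul, ← Matrix.smul_mul, hε, Matrix.neg_mul]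
    unfold UF
    rw [fromBlocks_conjTranspose, Matrix.mul_assoc, fromBlocks_multiply, fromBlocks_multiply,
      fromBlocks_conjTranspose, fromBlocks_smul, fromBlocks_add, sub_eq_add_neg,
      fromBlocks_neg, fromBlocks_add]
    congr 1
    · simp
    · rw [e1]
      simp only [conjTranspose_one, conjTranspose_zero, Matrix.one_mul,
        Matrix.mul_one, Matrix.zero_mul, Matrix.mul_zero, Matrix.mul_neg, Matrix.add_mul,
        add_zero, zero_add, neg_neg, Matrix.mul_zero]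
      abel
    · simp
    · simp [Matrix.mul_assoc]

theorem tate {A : Type} [Ring A] [StarRing A] (ε : ℤˣ) {n : ℕ} (M ψ : Matrix (Fin n) (Fin n) A)
    (hM : M + (ε : ℤ) • Mᴴ = 0) : Tate ε (ψ * M * ψᴴ) := by
  unfold Tate
  have h1 : (ψ * M * ψᴴ)ᴴ = ψ * Mᴴ * ψᴴ := by
    rw [conjTranspose_mul, conjTranspose_mul, conjTranspose_conjTranspose, Matrix.mul_assoc]
  have h2 : ψ * M * ψᴴ + (ε : ℤ) • (ψ * Mᴴ * ψᴴ) = ψ * (M + (ε : ℤ) • Mᴴ) * ψᴴ := by
    rw [Matrix.mul_add, Matrix.add_mul, Matrix.mul_smul, Matrix.smul_mul]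
  rw [h1, h2, hM, Matrix.mul_zero, Matrix.zero_mul]

theorem infi {G : Type} [Group G] {L : Subgroup G} {X1 X2 Yp Ym : Set G}
    (P : PPK L X1 X2 ∅ Yp Ym) {t u : G} (ht : t ∈ X2) (htt : t * t = 1)
    (hu : u ∈ {z | ∃ x ∈ X1, ∃ y ∈ X2, ∃ x' ∈ X1, z = x * y * x'}) (n : ℕ) (hn : 1 ≤ n) :
    (t * u) ^ n ≠ 1 := by
  obtain ⟨x, hx, y, hy, x', hx', rfl⟩ := hu
  have hup : ∀ p ∈ Yp, x * y * x' * p ∈ Ym := by
    intro p hp
    have h1 := P.X1Y x hx _ (P.X2Y y hy _ (P.X1Y x' hx' p hp))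
    simpa only [mul_assoc] using h1
  have hpow : ∀ k : ℕ, (t * (x * y * x')) ^ k ∈ Yp := by
    intro k
    induction k with
    | zero =>
      rw [pow_zero]
      exact P.Yp1
    | succ k ih =>
      rw [pow_succ', mul_assoc]
      exact P.X2Y t ht _ (hup _ ih)
  intro h
  obtain ⟨k, rfl⟩ : ∃ k, n = k + 1 := ⟨n - 1, by omega⟩
  rw [pow_succ', mul_assoc] at h
  have h2 : x * y * x' * (t * (x * y * x')) ^ k = t :=
    (eq_inv_of_mul_eq_one_right h).trans (inv_eq_of_mul_eq_one_right htt)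
  have h3 : t ∈ Ym := by
    have h4 := hup _ (hpow k)
    rwa [h2] at h4
  have h5 : t ∈ Yp := by
    have h6 := P.X2Y t ht 1 P.Ym1
    rwa [mul_one] at h6
  exact P.xh true false t ht (P.yy t h5 h3)

end TPPM

open TPPM in
/-- **Module TPP**. -/
theorem specTPP (hTDS : SpecTDS) : SpecTPP := by
  intro R G _ _ _ _ hD L X1 X2 Yp Ym P ε n ψ M hψ hM h0
  refine (specSwpP (MonoidAlgebra R G) ε n ψ 0 M).1 ?_
  rw [conjTranspose_zero]
  refine ss_of_isom (iso ε M ψ h0) ?_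
  refine hTDS R G ε X2 {z | ∃ x ∈ X1, ∃ y ∈ X2, ∃ x' ∈ X1, z = x * y * x'} ?_ (Fin n) M
    (ψ * M * ψᴴ) hM ?_ h0 (tate ε M ψ h0)
  · intro r s t u ht hu htt huu hr hs
    exact hD ε r s t u htt huu (infi P ht htt hu) hr hs
  · have h1 : SuppIn {z | ∃ x ∈ X1, ∃ y ∈ X2, z = x * y} (ψ * M) :=
      NILAux.supp_mul hψ hM fun x hx y hy => ⟨x, hx, y, hy, rfl⟩
    have h2 : SuppIn X1 ψᴴ := NILAux.supp_mono (NILAux.supp_star hψ) fun z hz => by
      have h3 : z⁻¹ ∈ X1 := hz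
      have h4 := P.X1i _ h3
      rwa [inv_inv] at h4
    refine NILAux.supp_mul h1 h2 ?_
    rintro z ⟨x, hx, y, hy, rfl⟩ x' hx'
    exact ⟨x, hx, y, hy, x', hx', rfl⟩

theorem mTPP : SpecTPP := specTPP (specTDS specTAD)

end Pool.Agent.Lib.MPb6f35e.TT.AR
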